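import Pool.Agent.Helper84.SV.Defs

/- Helper84.SV.Hat -/
section
open Set Finset

namespace Pool.SV

variable {E : Type*} [NormedAddCommGroup E] [NormedSpace ℝ E]

/-- Linear maps of `E × ℝ` that preserve the height. -/
def IsAff (U : Alg E) : Prop := ∀ v, (U v).2 = v.2

theorem isAff_one : IsAff (1 : Alg E) := fun _ => rfl

theorem IsAff.mul {U V : Alg E} (hU : IsAff U) (hV : IsAff V) : IsAff (U * V) := by
  intro v
  rw [mul_apply_eq_comp, hU, hV]

theorem act_mul {U V : Alg E} (hV : IsAff V) (x : E) :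
    act (U * V) x = act U (act V x) := by
  unfold act
  rw [mul_apply_eq_comp]
  have : V (x, 1) = ((V (x, 1)).1, (1 : ℝ)) := by
    ext
    · rfl
    · exact hV (x, 1)
  rw [← this]

theorem act_one (x : E) : act (1 : Alg E) x = x := rfl

theorem apply_of_isAff {U : Alg E} (hU : IsAff U) (x : E) : U (x, 1) = (act U x, 1) := by
  ext
  · rfl
  · exact hU (x, 1)

theorem act_midpoint {U : Alg E} (x y : E) :
    act U ((2 : ℝ)⁻¹ • (x + y)) = (2 : ℝ)⁻¹ • (act U x + act U y) := by
  unfold act
  have h : (((2 : ℝ)⁻¹ • (x + y), (1 : ℝ)) : E × ℝ) = (2 : ℝ)⁻¹ • ((x, 1) + (y, 1)) := by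
    ext
    · rfl
    · norm_num
  rw [h, map_smul, map_add]
  rfl

theorem continuous_act (U : Alg E) : Continuous (act U) := by
  unfold act
  fun_prop

theorem continuous_act_uncurry : Continuous (fun p : Alg E × E => act p.1 p.2) := by
  unfold act
  fun_prop

theorem act_convex {U : Alg E} (x y : E) (a b : ℝ) (hab : a + b = 1) :
    act U (a • x + b • y) = a • act U x + b • act U y := by
  unfold act
  have h : ((a • x + b • y, (1 : ℝ)) : E × ℝ) = a • (x, 1) + b • (y, 1) := by
    ext
    · rfl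
    · simp [hab]
  rw [h, map_add, map_smul, map_smul]
  rfl

section FD

variable [FiniteDimensional ℝ E]

@[simp] theorem hat_apply (g : E ≃ᵃ[ℝ] E) (v : E × ℝ) :
    hat g v = (g.linear v.1 + v.2 • g 0, v.2) := rfl

theorem isAff_hat (g : E ≃ᵃ[ℝ] E) : IsAff (hat g) := fun _ => rfl

theorem aff_eq (g : E ≃ᵃ[ℝ] E) (x : E) : g x = g.linear x + g 0 := by
  have h := g.map_vadd 0 x
  simpa using h

theorem act_hat (g : E ≃ᵃ[ℝ] E) (x : E) : act (hat g) x = g x := by
  simp [act, aff_eq g x]

theorem hat_one : hat (1 : E ≃ᵃ[ℝ] E) = 1 := by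
  apply ContinuousLinearMap.ext
  intro v
  rw [hat_apply]
  have h1 : (1 : E ≃ᵃ[ℝ] E).linear v.1 = v.1 := rfl
  have h2 : (1 : E ≃ᵃ[ℝ] E) 0 = 0 := rfl
  rw [h1, h2, smul_zero, add_zero]
  rfl

theorem hat_mul (g h : E ≃ᵃ[ℝ] E) : hat (g * h) = hat g * hat h := by
  apply ContinuousLinearMap.ext
  intro v
  rw [mul_apply_eq_comp, hat_apply, hat_apply, hat_apply]
  have h1 : (g * h) 0 = g.linear (h 0) + g 0 := by
    rw [← aff_eq]
    rfl
  have h2 : (g * h).linear v.1 = g.linear (h.linear v.1) := rfl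
  rw [h1, h2]
  ext
  · simp only [map_add, map_smul, smul_add]
    abel
  · rfl

theorem hat_mul_inv (g : E ≃ᵃ[ℝ] E) : hat g * hat g⁻¹ = 1 := by
  rw [← hat_mul, mul_inv_cancel, hat_one]

theorem hat_inv_mul (g : E ≃ᵃ[ℝ] E) : hat g⁻¹ * hat g = 1 := by
  rw [← hat_mul, inv_mul_cancel, hat_one]

theorem hat_injective : Function.Injective (hat : (E ≃ᵃ[ℝ] E) → Alg E) := by
  intro g h hgh
  ext x
  rw [← act_hat g, ← act_hat h, hgh]

/-! ### The exponential -/

noncomputable instance instRat : NormedAlgebra ℚ (Alg E) :=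
  NormedAlgebra.restrictScalars ℚ ℝ (Alg E)

/-- Generators of affine flows. -/
def IsGen (T : Alg E) : Prop := ∀ v, (T v).2 = 0

theorem isGen_sum {k : ℕ} {T : Fin k → Alg E} (hT : ∀ i v, (T i v).2 = 0) (s : Fin k → ℝ) :
    IsGen (∑ i, s i • T i) := by
  intro v
  rw [_root_.sum_apply, Prod.snd_sum]
  apply Finset.sum_eq_zero
  intro i _
  rw [smul_apply, Prod.smul_snd, hT, smul_zero]

theorem IsGen.smul {T : Alg E} (hT : IsGen T) (t : ℝ) : IsGen (t • T) := by
  intro v
  rw [smul_apply, Prod.smul_snd, hT, smul_zero]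

theorem isAff_exp {T : Alg E} (hT : IsGen T) : IsAff (NormedSpace.exp T) := by
  intro v
  have h1 := (NormedSpace.exp_series_hasSum_exp' (𝕂 := ℝ) T)
  have h2 := h1.mapL (ContinuousLinearMap.apply ℝ (E × ℝ) v)
  have h3 := h2.mapL (ContinuousLinearMap.snd ℝ E ℝ)
  have h4 : HasSum (fun n : ℕ => if n = 0 then v.2 else 0) v.2 := by
    convert hasSum_ite_eq (0 : ℕ) v.2 using 1
  have h5 : (fun n : ℕ => (ContinuousLinearMap.snd ℝ E ℝ)
      ((ContinuousLinearMap.apply ℝ (E × ℝ) v) ((n.factorial : ℝ)⁻¹ • T ^ n))) =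
      fun n : ℕ => if n = 0 then v.2 else 0 := by
    funext n
    cases n with
    | zero => simp
    | succ n =>
      simp only [ContinuousLinearMap.apply_apply, smul_apply,
        ContinuousLinearMap.coe_snd', Prod.smul_snd, pow_succ']
      rw [mul_apply_eq_comp, hT]
      simp
  rw [h5] at h3
  exact h3.unique h4

end FD

end Pool.SV
end

/- SV.Cent -/
section
/-!
Project SV: centralisers of elements of an abelian normal subgroup without unipotent elements.
-/

open Set Finset

namespace Pool.SV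

namespace Cent

variable {E : Type*} [NormedAddCommGroup E] [NormedSpace ℝ E]

/-- Conjugation as a homomorphism of algebras. -/
def conjHom (U V : Alg E) (h : V * U = 1) (h' : U * V = 1) : Alg E →ₐ[ℝ] Alg E where
  toFun x := U * x * V
  map_one' := by rw [mul_one, h']
  map_mul' x y := by
    calc U * (x * y) * V = U * x * 1 * y * V := by simp only [mul_one, mul_assoc]
      _ = U * x * (V * U) * y * V := by rw [h]
      _ = U * x * V * (U * y * V) := by simp only [mul_assoc]
  map_zero' := by simp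
  map_add' x y := by rw [mul_add, add_mul]
  commutes' r := by
    rw [← Algebra.commutes r U, mul_assoc, h', mul_one]

theorem conjHom_apply (U V : Alg E) (h : V * U = 1) (h' : U * V = 1) (x : Alg E) :
    conjHom U V h h' x = U * x * V := rfl

variable [FiniteDimensional ℝ E]

/-- Elements of a commutative set of operators which are roots of one polynomial, pairwise
incongruent modulo nilpotent operators, are finite in number. -/
theorem finite_of_roots {ι : Type*} (u : ι → Alg E) (hcomm : ∀ i j, u i * u j = u j * u i)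
    (hinj : ∀ i j, IsNilpotent (u i - u j) → i = j) (p : Polynomial ℝ) (hp : p ≠ 0)
    (C : Set ι) (hC : ∀ i ∈ C, Polynomial.aeval (u i) p = 0) : C.Finite := by
  classical
  let S : Set (Alg E) := Set.range u
  have hS : ∀ x ∈ S, ∀ y ∈ S, x * y = y * x := by
    rintro _ ⟨i, rfl⟩ _ ⟨j, rfl⟩
    exact hcomm i j
  let B := Algebra.adjoin ℝ S
  letI : CommRing B := Algebra.adjoinCommRingOfComm ℝ hS
  have hfd : Module.Finite ℝ B := inferInstance
  have hart : IsArtinianRing B := IsArtinianRing.of_finite ℝ B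
  let v : ι → B := fun i => ⟨u i, Algebra.subset_adjoin ⟨i, rfl⟩⟩
  let Θ : ι → ∀ m : MaximalSpectrum B, B ⧸ m.asIdeal := fun i m => Ideal.Quotient.mk m.asIdeal (v i)
  have hΘ : Function.Injective Θ := by
    intro i j hij
    apply hinj
    have h1 : IsNilpotent (v i - v j) := by
      rw [nilpotent_iff_mem_prime]
      intro J hJ
      have hJm : J.IsMaximal := IsArtinianRing.isMaximal_of_isPrime J
      have h2 := congrFun hij ⟨J, hJm⟩
      exact (Ideal.Quotient.mk_eq_mk_iff_sub_mem _ _).1 h2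
    have h3 := h1.map B.val
    rwa [map_sub] at h3
  have hroot : ∀ i ∈ C, ∀ m : MaximalSpectrum B, Polynomial.aeval (Θ i m) p = 0 := by
    intro i hi m
    have h1 : Polynomial.aeval (v i) p = 0 := by
      apply Subtype.val_injective
      have h2 : B.val (Polynomial.aeval (v i) p) = Polynomial.aeval (B.val (v i)) p :=
        (Polynomial.aeval_algHom_apply B.val (v i) p).symm
      exact h2.trans (hC i hi)
    have h2 := Polynomial.aeval_algHom_apply (Ideal.Quotient.mkₐ ℝ m.asIdeal) (v i) p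
    rw [h1, map_zero] at h2
    exact h2
  have hfin : {f : ∀ m : MaximalSpectrum B, B ⧸ m.asIdeal |
      ∀ m, f m ∈ {y : B ⧸ m.asIdeal | Polynomial.aeval y p = 0}}.Finite := by
    apply Set.Finite.pi'
    intro m
    have hm : m.asIdeal.IsMaximal := m.isMaximal
    letI : Field (B ⧸ m.asIdeal) := Ideal.Quotient.field m.asIdeal
    have h1 := Polynomial.rootSet_finite p (B ⧸ m.asIdeal)
    refine h1.subset ?_
    intro y hy
    rw [Polynomial.mem_rootSet]
    exact ⟨hp, hy⟩
  refine Set.Finite.of_finite_image (f := Θ) (hfin.subset ?_) hΘ.injOn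
  rintro _ ⟨i, hi, rfl⟩ m
  exact hroot i hi m

end Cent

section Geometry

variable {E : Type*} [NormedAddCommGroup E] [NormedSpace ℝ E] [FiniteDimensional ℝ E]

theorem centralizer_finiteIndex (Γ : Subgroup (E ≃ᵃ[ℝ] E)) (A : Subgroup Γ) [A.Normal]
    (hab : ∀ a ∈ A, ∀ b ∈ A, a * b = b * a)
    (hnu : ∀ a ∈ A, IsNilpotent (hat a.1 - 1) → a = 1) (a : Γ) (ha : a ∈ A) :
    (Subgroup.centralizer ({a} : Set Γ)).FiniteIndex := by
  classical
  have hmul : ∀ b c : Γ, hat (b * c).1 = hat b.1 * hat c.1 := fun b c => hat_mul b.1 c.1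
  let u : A → Alg E := fun b => hat (b : Γ).1
  let p := minpoly ℝ (hat a.1)
  have hint : IsIntegral ℝ (hat a.1) := Algebra.IsIntegral.isIntegral _
  have hC : {b : A | Polynomial.aeval (u b) p = 0}.Finite := by
    refine Cent.finite_of_roots u ?_ ?_ p (minpoly.ne_zero hint) _ fun b hb => hb
    · intro b c
      change hat (b : Γ).1 * hat (c : Γ).1 = hat (c : Γ).1 * hat (b : Γ).1
      rw [← hmul, ← hmul, hab b b.2 c c.2]
    · intro b c hbc
      have h1 : IsNilpotent (hat ((b : Γ) * (c : Γ)⁻¹).1 - 1) := by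
        have h2 : hat ((b : Γ) * (c : Γ)⁻¹).1 - 1 = (u b - u c) * hat ((c : Γ)⁻¹).1 := by
          rw [hmul, sub_mul]
          congr 1
          exact (hat_mul_inv (c : Γ).1).symm
        rw [h2]
        apply Commute.isNilpotent_mul_right _ hbc
        have h3 : ∀ b' : A, Commute (u b') (hat ((c : Γ)⁻¹).1) := by
          intro b'
          change hat (b' : Γ).1 * hat ((c : Γ)⁻¹).1 = hat ((c : Γ)⁻¹).1 * hat (b' : Γ).1
          rw [← hmul, ← hmul, hab b' b'.2 _ (A.inv_mem c.2)]
        exact (h3 b).sub_left (h3 c)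
      have h4 := hnu _ (A.mul_mem b.2 (A.inv_mem c.2)) h1
      exact Subtype.ext (mul_inv_eq_one.1 h4)
  have hconj : ∀ g : Γ, Polynomial.aeval (hat (g * a * g⁻¹).1) p = 0 := by
    intro g
    have h1 : hat (g * a * g⁻¹).1 = Cent.conjHom (hat g.1) (hat (g⁻¹ : Γ).1) (hat_inv_mul g.1)
        (hat_mul_inv g.1) (hat a.1) := by
      rw [Cent.conjHom_apply, hmul, hmul]
    rw [h1, Polynomial.aeval_algHom_apply, minpoly.aeval, map_zero]
  have hfin : Finite (Γ ⧸ Subgroup.centralizer ({a} : Set Γ)) := by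
    have := hC.to_subtype
    let f : Γ ⧸ Subgroup.centralizer ({a} : Set Γ) → {b : A | Polynomial.aeval (u b) p = 0} :=
      fun q => ⟨⟨q.out * a * q.out⁻¹, (inferInstance : A.Normal).conj_mem a ha q.out⟩,
        hconj q.out⟩
    refine Finite.of_injective f ?_
    intro q q' h
    have h1 : q.out * a * q.out⁻¹ = q'.out * a * q'.out⁻¹ := by
      have := congrArg (fun z => ((z.1 : A) : Γ)) h
      exact this
    have h2 : (q.out : Γ ⧸ Subgroup.centralizer ({a} : Set Γ)) = (q'.out : Γ) := by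
      rw [QuotientGroup.eq, Subgroup.mem_centralizer_singleton_iff]
      have h3 : a = q.out⁻¹ * (q'.out * a * q'.out⁻¹) * q.out := by
        rw [← h1]
        group
      calc q.out⁻¹ * q'.out * a = q.out⁻¹ * (q'.out * a * q'.out⁻¹) * q.out *
            (q.out⁻¹ * q'.out) := by group
        _ = a * (q.out⁻¹ * q'.out) := by rw [← h3]
    rw [QuotientGroup.out_eq', QuotientGroup.out_eq'] at h2
    exact h2
  exact Subgroup.finiteIndex_of_finite_quotient

end Geometry

end Pool.SV
end
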