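import Mathlib
import Pool.Agent.Helper16.CPG.G01

/- Helper47.HP.Defs -/
section
/-!
# Project HP (MP_f22a19_gt): equivariant convex potentials. Definitions.
-/

set_option autoImplicit false

open Set

namespace Pool.Agent.Helper47.HP

/-- A convex function `φ` on an open convex set `X` with lineality space `V`. -/
structure Pot (E : Type*) [NormedAddCommGroup E] [NormedSpace ℝ E] where
  X : Set E
  isOpen : IsOpen X
  convex : Convex ℝ X
  V : Submodule ℝ E
  mem_V : ∀ v, v ∈ V ↔ ∀ x ∈ X, ∀ t : ℝ, x + t • v ∈ X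
  φ : E → ℝ
  conv : ConvexOn ℝ X φ

section

variable {E : Type*} [NormedAddCommGroup E] [NormedSpace ℝ E]

/-- The pairs `(v, τ)`, `v ∈ V`, such that `φ (x + v) ≤ φ x + τ` for all `x ∈ X`. -/
def Pot.epi (P : Pot E) : Set (E × ℝ) :=
  {e | e.1 ∈ P.V ∧ ∀ x ∈ P.X, P.φ (x + e.1) ≤ P.φ x + e.2}

/-- `W` is the space of the directions of `V` in which `φ` is affine. -/
def Pot.IsFlat (P : Pot E) (W : Submodule ℝ E) : Prop :=
  ∀ v, v ∈ W ↔ v ∈ P.V ∧ ∃ τ : ℝ, ∀ x ∈ P.X, ∀ t : ℝ, P.φ (x + t • v) = P.φ x + t * τ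

/-- The linear form `p` supports the recession function of `φ` exactly along the flat directions. -/
def Pot.Supp (P : Pot E) (p : E →ₗ[ℝ] ℝ) : Prop :=
  ∀ e ∈ P.epi, (-e ∉ P.epi → p e.1 < e.2) ∧ (-e ∈ P.epi → p e.1 = e.2)

/-- The affine maps `g` and `g⁻¹` are bounded by `R` on `E / V` (the same as `Pool.AF.AffBdd`). -/
def ABdd (V : Submodule ℝ E) (R : ℝ) (g : E ≃ᵃ[ℝ] E) : Prop :=
  ∀ x : E, ∃ v ∈ V, ∃ v' ∈ V, ‖g x - v‖ ≤ R * (1 + ‖x‖) ∧ ‖g⁻¹ x - v'‖ ≤ R * (1 + ‖x‖)

/-- `K` is a symmetric convex subset of `V`, absorbing in `V`, which contains `W` and is bounded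
modulo `W`. -/
structure IsBody (V W : Submodule ℝ E) (K : Set E) : Prop where
  sub : ∀ v ∈ K, v ∈ V
  convex : Convex ℝ K
  symm : ∀ v ∈ K, -v ∈ K
  flat : ∀ w ∈ W, w ∈ K
  absorb : ∀ v ∈ V, ∃ t : ℝ, 0 < t ∧ t • v ∈ K
  bdd : ∃ ϱ : ℝ, ∀ v ∈ K, ∃ w ∈ W, ‖v - w‖ ≤ ϱ

/-- The map induced by `A` on `U / T`. -/
noncomputable def qMap (T U : Submodule ℝ E) (A : E →ₗ[ℝ] E) (hU : ∀ u ∈ U, A u ∈ U)
    (hT : ∀ u ∈ T, A u ∈ T) : (U ⧸ T.submoduleOf U) →ₗ[ℝ] (U ⧸ T.submoduleOf U) :=
  (T.submoduleOf U).mapQ (T.submoduleOf U) (A.restrict hU) (by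
    intro u hu
    exact hT u.1 hu)

theorem qMap_mk (T U : Submodule ℝ E) (A : E →ₗ[ℝ] E) (hU : ∀ u ∈ U, A u ∈ U)
    (hT : ∀ u ∈ T, A u ∈ T) (u : U) :
    qMap T U A hU hT ((T.submoduleOf U).mkQ u) = (T.submoduleOf U).mkQ ⟨A u, hU u u.2⟩ := rfl

end

end Pool.Agent.Helper47.HP
end

/- Helper16.LDA.H47.HP.Epi -/
section
/-! # Project HP: the recession cone of the epigraph -/

set_option autoImplicit false

open Set

namespace Pool.Agent.Helper47.HP

variable {E : Type*} [NormedAddCommGroup E] [NormedSpace ℝ E] (P : Pot E)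

private theorem epi_smul_mem {v x : E} (hv : v ∈ P.V) (hx : x ∈ P.X) (t : ℝ) :
    x + t • v ∈ P.X := (P.mem_V v).mp hv x hx t

private theorem epi_add_mem {v x : E} (hv : v ∈ P.V) (hx : x ∈ P.X) : x + v ∈ P.X := by
  have := epi_smul_mem P hv hx 1
  rwa [one_smul] at this

theorem Pot.zero_mem_epi : (0 : E × ℝ) ∈ P.epi := by
  refine ⟨P.V.zero_mem, fun x _ => ?_⟩
  simp

theorem Pot.add_mem_epi {a b : E × ℝ} (ha : a ∈ P.epi) (hb : b ∈ P.epi) : a + b ∈ P.epi := by
  refine ⟨P.V.add_mem ha.1 hb.1, fun x hx => ?_⟩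
  have h1 := ha.2 x hx
  have h2 := hb.2 (x + a.1) (epi_add_mem P ha.1 hx)
  rw [Prod.fst_add, Prod.snd_add, ← add_assoc]
  (clear * - h1 h2; linarith only [h1, h2])

theorem Pot.vert_mem_epi {τ : ℝ} (hτ : 0 ≤ τ) : ((0 : E), τ) ∈ P.epi := by
  refine ⟨P.V.zero_mem, fun x _ => ?_⟩
  simp only [add_zero]
  (clear * - hτ; linarith)

private theorem epi_nat {a : E × ℝ} (ha : a ∈ P.epi) : ∀ n : ℕ, (n : ℝ) • a ∈ P.epi
  | 0 => by
      rw [Nat.cast_zero, zero_smul]
      exact P.zero_mem_epi
  | n + 1 => by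
      rw [Nat.cast_succ, add_smul, one_smul]
      exact P.add_mem_epi (epi_nat ha n) ha

private theorem epi_frac {a : E × ℝ} (ha : a ∈ P.epi) {t : ℝ} (h0 : 0 ≤ t) (h1 : t ≤ 1) :
    t • a ∈ P.epi := by
  refine ⟨P.V.smul_mem t ha.1, fun x hx => ?_⟩
  have h2 := P.conv.2 hx (epi_add_mem P ha.1 hx) (sub_nonneg.mpr h1) h0 (by ring)
  have h3 : (1 - t) • x + t • (x + a.1) = x + t • a.1 := by
    rw [sub_smul, one_smul, smul_add]
    abel
  rw [h3, smul_eq_mul, smul_eq_mul] at h2
  have h4 := mul_le_mul_of_nonneg_left (ha.2 x hx) h0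
  rw [Prod.smul_fst, Prod.smul_snd, smul_eq_mul]
  (clear * - h2 h4; linarith only [h2, h4])

theorem Pot.smul_mem_epi {a : E × ℝ} (ha : a ∈ P.epi) {t : ℝ} (ht : 0 ≤ t) : t • a ∈ P.epi := by
  have h1 : t • a = (⌊t⌋₊ : ℝ) • a + (t - ⌊t⌋₊) • a := by
    rw [← add_smul]
    congr 1
    ring
  rw [h1]
  refine P.add_mem_epi (epi_nat P ha _) (epi_frac P ha ?_ ?_)
  · exact sub_nonneg.mpr (Nat.floor_le ht)
  · have := Nat.lt_floor_add_one t
    (clear * - this; linarith)

theorem Pot.isClosed_epi [FiniteDimensional ℝ E] : IsClosed P.epi := by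
  have hc : ContinuousOn P.φ P.X := P.conv.continuousOn P.isOpen
  have hV : IsClosed (P.V : Set E) := P.V.closed_of_finiteDimensional
  refine IsSeqClosed.isClosed ?_
  intro e l he hl
  have hl1 : Filter.Tendsto (fun n => (e n).1) Filter.atTop (nhds l.1) :=
    (continuous_fst.tendsto l).comp hl
  have hl2 : Filter.Tendsto (fun n => (e n).2) Filter.atTop (nhds l.2) :=
    (continuous_snd.tendsto l).comp hl
  have hlV : l.1 ∈ P.V := hV.mem_of_tendsto hl1 (Filter.Eventually.of_forall fun n => (he n).1)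
  refine ⟨hlV, fun x hx => ?_⟩
  have hx' := epi_add_mem P hlV hx
  have hca : ContinuousAt P.φ (x + l.1) := hc.continuousAt (P.isOpen.mem_nhds hx')
  have h1 : Filter.Tendsto (fun n => P.φ (x + (e n).1)) Filter.atTop (nhds (P.φ (x + l.1))) :=
    hca.tendsto.comp (hl1.const_add x)
  have h2 : Filter.Tendsto (fun n => P.φ x + (e n).2) Filter.atTop (nhds (P.φ x + l.2)) :=
    hl2.const_add _
  exact le_of_tendsto_of_tendsto' h1 h2 fun n => (he n).2 x hx

/-- The base point lemma. -/
theorem Pot.mem_epi_of_le {x₀ v : E} (hx₀ : x₀ ∈ P.X) (hv : v ∈ P.V) {c τ : ℝ}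
    (h : ∀ t : ℝ, 0 ≤ t → P.φ (x₀ + t • v) ≤ c + t * τ) : (v, τ) ∈ P.epi := by
  refine ⟨hv, fun y hy => ?_⟩
  simp only
  -- a point beyond `y`
  obtain ⟨e, he, hz⟩ : ∃ e : ℝ, 0 < e ∧ y + e • (y - x₀) ∈ P.X := by
    have hcont : Filter.Tendsto (fun e : ℝ => y + e • (y - x₀)) (nhds 0) (nhds y) := by
      have : Continuous fun e : ℝ => y + e • (y - x₀) := by fun_prop
      have h1 := this.tendsto 0
      simpa using h1
    have hev := hcont.eventually (P.isOpen.mem_nhds hy)
    obtain ⟨d, hd, hball⟩ := Metric.eventually_nhds_iff.mp hev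
    refine ⟨d / 2, half_pos hd, hball ?_⟩
    rw [dist_zero_right, Real.norm_eq_abs, abs_of_pos (half_pos hd)]
    exact half_lt_self hd
  set z := y + e • (y - x₀) with hzdef
  have h1e : 0 < 1 + e := by (clear * - he; linarith only [he])
  have hbd : ∀ s : ℝ, 0 ≤ s →
      P.φ (y + s • v) ≤ (e / (1 + e) * c + 1 / (1 + e) * P.φ z) + s * τ := fun s hs => by
    have h1 := P.conv.2 (epi_smul_mem P hv hx₀ (s * ((1 + e) / e))) hz
      (show 0 ≤ e / (1 + e) by positivity) (show 0 ≤ 1 / (1 + e) by positivity)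
      (by field_simp; ring)
    have h2 : (e / (1 + e)) • (x₀ + (s * ((1 + e) / e)) • v) + (1 / (1 + e)) • z = y + s • v := by
      have e1 : (e / (1 + e)) • (x₀ + (s * ((1 + e) / e)) • v) + (1 / (1 + e)) • z =
          (e / (1 + e) - 1 / (1 + e) * e) • x₀ +
            (1 / (1 + e) + 1 / (1 + e) * e) • y + (e / (1 + e) * (s * ((1 + e) / e))) • v := by
        rw [hzdef]
        module
      rw [e1]
      have e2 : e / (1 + e) - 1 / (1 + e) * e = 0 := by ring
      have e3 : 1 / (1 + e) + 1 / (1 + e) * e = 1 := by field_simp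
      have e4 : e / (1 + e) * (s * ((1 + e) / e)) = s := by (clear * - he; field_simp)
      rw [e2, e3, e4, zero_smul, one_smul, zero_add]
    rw [h2, smul_eq_mul, smul_eq_mul] at h1
    have h3 := h (s * ((1 + e) / e)) (by positivity)
    have h4 := mul_le_mul_of_nonneg_left h3 (show 0 ≤ e / (1 + e) by positivity)
    have h5 : e / (1 + e) * (c + s * ((1 + e) / e) * τ) = e / (1 + e) * c + s * τ := by
      (clear * - he; field_simp)
    rw [h5] at h4
    linarith only [h1, h4]
  set c' := e / (1 + e) * c + 1 / (1 + e) * P.φ z with hc'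
  by_contra hcon
  push Not at hcon
  set δ := P.φ (y + v) - P.φ y - τ with hδ
  have hδ0 : 0 < δ := by (clear * - hcon; linarith)
  obtain ⟨n, hn⟩ := exists_nat_gt ((c' - P.φ y) / δ)
  rw [div_lt_iff₀ hδ0] at hn
  have hN : (0 : ℝ) < (n : ℝ) + 1 := by (clear * -; positivity)
  have h6 := hbd ((n : ℝ) + 1) hN.le
  have h7 := P.conv.2 hy (epi_smul_mem P hv hy ((n : ℝ) + 1))
    (show 0 ≤ 1 - 1 / ((n : ℝ) + 1) by
      rw [sub_nonneg, div_le_one hN]
      (clear * -; linarith [Nat.cast_nonneg (α := ℝ) n]))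
    (show 0 ≤ 1 / ((n : ℝ) + 1) by positivity) (by ring)
  have h8 : (1 - 1 / ((n : ℝ) + 1)) • y + (1 / ((n : ℝ) + 1)) • (y + ((n : ℝ) + 1) • v) =
      y + v := by
    rw [sub_smul, one_smul, smul_add, smul_smul, one_div, inv_mul_cancel₀ hN.ne', one_smul]
    abel
  rw [h8, smul_eq_mul, smul_eq_mul] at h7
  have h9 := mul_le_mul_of_nonneg_left h7 hN.le
  have h10 : ((n : ℝ) + 1) * ((1 - 1 / ((n : ℝ) + 1)) * P.φ y +
      1 / ((n : ℝ) + 1) * P.φ (y + ((n : ℝ) + 1) • v)) =
      (n : ℝ) * P.φ y + P.φ (y + ((n : ℝ) + 1) • v) := by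
    field_simp
    ring
  rw [h10] at h9
  have h11 : ((n : ℝ) + 1) * P.φ (y + v) = ((n : ℝ) + 1) * (δ + P.φ y + τ) := by
    rw [hδ]
    ring
  rw [h11] at h9
  linarith only [hδ0, hn, h6, h9]

theorem Pot.flat_of_epi {e : E × ℝ} (he : e ∈ P.epi) (he' : -e ∈ P.epi) :
    ∀ x ∈ P.X, ∀ t : ℝ, P.φ (x + t • e.1) = P.φ x + t * e.2 := by
  have hall : ∀ t : ℝ, t • e ∈ P.epi := fun t => by
    rcases le_total 0 t with ht | ht
    · exact P.smul_mem_epi he ht
    · have h1 := P.smul_mem_epi he' (neg_nonneg.mpr ht)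
      rwa [smul_neg, neg_smul, neg_neg] at h1
  intro x hx t
  have h1 := (hall t).2 x hx
  have h2 := (hall (-t)).2 (x + t • e.1) (epi_smul_mem P he.1 hx t)
  rw [Prod.smul_fst, Prod.smul_snd, smul_eq_mul] at h1 h2
  rw [neg_smul, add_neg_cancel_right] at h2
  (clear * - h2 h1; linarith only [h1, h2])

theorem Pot.epi_of_flat {v : E} (hv : v ∈ P.V) {τ : ℝ}
    (h : ∀ x ∈ P.X, ∀ t : ℝ, P.φ (x + t • v) = P.φ x + t * τ) :
    (v, τ) ∈ P.epi ∧ -((v, τ) : E × ℝ) ∈ P.epi := by
  refine ⟨⟨hv, fun x hx => ?_⟩, ⟨P.V.neg_mem hv, fun x hx => ?_⟩⟩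
  · have h1 := h x hx 1
    rw [one_smul, one_mul] at h1
    exact h1.le
  · have h1 := h x hx (-1)
    rw [neg_smul, one_smul] at h1
    change P.φ (x + -v) ≤ P.φ x + -τ
    rw [h1]
    (clear * -; linarith)

end Pool.Agent.Helper47.HP
end

/- Helper16.LDA.H47.HP.LB -/
section
/-! # Project HP: sublevel sets are bounded modulo the flat directions -/

set_option autoImplicit false

open Set

namespace Pool.Agent.Helper47.HP

variable {E : Type*} [NormedAddCommGroup E] [NormedSpace ℝ E] [FiniteDimensional ℝ E] (P : Pot E)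

omit [FiniteDimensional ℝ E] in
private theorem lb_mem {x v : E} (hx : x ∈ P.X) (hv : v ∈ P.V) : x + v ∈ P.X := by
  have h := (P.mem_V v).1 hv x hx 1
  rwa [one_smul] at h

omit [FiniteDimensional ℝ E] in
/-- `ψ` is invariant under the flat directions -/
private theorem lb_inv (W : Submodule ℝ E) (hW : P.IsFlat W) {x : E} (hx : x ∈ P.X)
    (p : E →ₗ[ℝ] ℝ) (hp : P.Supp p) {w : E} (hw : w ∈ W) :
    P.φ (x + w) - p w = P.φ x := by
  obtain ⟨hwV, τ, hτ⟩ := (hW w).1 hw
  obtain ⟨h1, h2⟩ := P.epi_of_flat hwV hτ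
  have h3 : p w = τ := (hp _ h1).2 h2
  have h4 := hτ x hx 1
  rw [one_smul, one_mul] at h4
  rw [h4, h3]
  ring

private theorem lb_cont {x₀ : E} (hx₀ : x₀ ∈ P.X) (p : E →ₗ[ℝ] ℝ) :
    ContinuousOn (fun v => P.φ (x₀ + v) - p v) (P.V : Set E) := by
  have h1 : ContinuousOn P.φ P.X := P.conv.continuousOn P.isOpen
  have h2 : ContinuousOn (fun v => P.φ (x₀ + v)) (P.V : Set E) :=
    h1.comp (continuous_const.add continuous_id).continuousOn
      (fun v hv => lb_mem P hx₀ hv)
  exact h2.sub (LinearMap.continuous_of_finiteDimensional p).continuousOn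

/-- bounded sublevel sets in a complement -/
private theorem lb_compl (W W' : Submodule ℝ E) (hWW : Disjoint W W') (hW : P.IsFlat W)
    {x₀ : E} (hx₀ : x₀ ∈ P.X)
    (p : E →ₗ[ℝ] ℝ) (hp : P.Supp p) (r : ℝ) :
    ∃ ϱ : ℝ, ∀ v ∈ P.V, v ∈ W' → P.φ (x₀ + v) - p v ≤ r → ‖v‖ ≤ ϱ := by
  by_contra hcon
  push Not at hcon
  choose v hvV hvW hvr hvn using fun n : ℕ => hcon (n : ℝ)
  have hpos : ∀ n, 0 < ‖v n‖ := fun n => lt_of_le_of_lt (Nat.cast_nonneg n) (hvn n)
  have hsph : ∀ n, (‖v n‖⁻¹ • v n) ∈ Metric.sphere (0 : E) 1 := by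
    intro n
    rw [mem_sphere_zero_iff_norm, norm_smul, norm_inv, norm_norm,
      inv_mul_cancel₀ (hpos n).ne']
  obtain ⟨u, hu, ns, hns, hlim⟩ := (isCompact_sphere (0 : E) 1).tendsto_subseq hsph
  have huV : u ∈ P.V := by
    have hc : IsClosed (P.V : Set E) := P.V.closed_of_finiteDimensional
    exact hc.mem_of_tendsto hlim
      (Filter.Eventually.of_forall fun k => P.V.smul_mem _ (hvV (ns k)))
  have huW : u ∈ W' := by
    have hc : IsClosed (W' : Set E) := W'.closed_of_finiteDimensional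
    exact hc.mem_of_tendsto hlim
      (Filter.Eventually.of_forall fun k => W'.smul_mem _ (hvW (ns k)))
  have hcont := lb_cont P hx₀ p
  have hle : ∀ t : ℝ, 0 ≤ t → P.φ (x₀ + t • u) ≤ max (P.φ x₀) r + t * p u := by
    intro t ht
    have htV : t • u ∈ P.V := P.V.smul_mem _ huV
    have h1 : Filter.Tendsto (fun k => t • (‖v (ns k)‖⁻¹ • v (ns k))) Filter.atTop
        (nhdsWithin (t • u) (P.V : Set E)) := by
      rw [tendsto_nhdsWithin_iff]
      refine ⟨hlim.const_smul t, Filter.Eventually.of_forall fun k => ?_⟩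
      exact P.V.smul_mem _ (P.V.smul_mem _ (hvV (ns k)))
    have h2 := (hcont (t • u) htV).tendsto.comp h1
    have h3 : P.φ (x₀ + t • u) - p (t • u) ≤ max (P.φ x₀) r := by
      refine le_of_tendsto h2 ?_
      have h4 : ∀ᶠ k : ℕ in Filter.atTop, t ≤ (k : ℝ) :=
        Filter.eventually_atTop.2 ⟨⌈t⌉₊, fun k hk =>
          (Nat.le_ceil t).trans (Nat.cast_le.2 hk)⟩
      filter_upwards [h4] with k hk
      have h5 : t ≤ ‖v (ns k)‖ := by
        have h6 : (k : ℝ) ≤ (ns k : ℝ) := Nat.cast_le.2 (hns.id_le k)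
        have h7 := hvn (ns k)
        linarith
      have hn := hpos (ns k)
      have ha0 : 0 ≤ t * ‖v (ns k)‖⁻¹ := mul_nonneg ht (inv_nonneg.2 hn.le)
      have ha1 : t * ‖v (ns k)‖⁻¹ ≤ 1 := by
        rw [← div_eq_mul_inv, div_le_one hn]
        exact h5
      have h8 := P.conv.2 hx₀ (lb_mem P hx₀ (hvV (ns k)))
        (sub_nonneg.2 ha1) ha0 (by ring)
      have h9 : (1 - t * ‖v (ns k)‖⁻¹) • x₀ + (t * ‖v (ns k)‖⁻¹) • (x₀ + v (ns k))
          = x₀ + t • (‖v (ns k)‖⁻¹ • v (ns k)) := by
        module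
      rw [h9, smul_eq_mul, smul_eq_mul] at h8
      change P.φ (x₀ + t • (‖v (ns k)‖⁻¹ • v (ns k)))
        - p (t • (‖v (ns k)‖⁻¹ • v (ns k))) ≤ _
      have h10 : p (t • (‖v (ns k)‖⁻¹ • v (ns k))) = (t * ‖v (ns k)‖⁻¹) * p (v (ns k)) := by
        rw [map_smul, map_smul, smul_eq_mul, smul_eq_mul]
        ring
      rw [h10]
      have h11 := hvr (ns k)
      generalize t * ‖v (ns k)‖⁻¹ = a at h8 ha0 ha1 ⊢
      have h12 : a * P.φ (x₀ + v (ns k)) ≤ a * (r + p (v (ns k))) :=
        mul_le_mul_of_nonneg_left (by linarith only [h11]) ha0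
      have h13 : (1 - a) * P.φ x₀ ≤ (1 - a) * max (P.φ x₀) r :=
        mul_le_mul_of_nonneg_left (le_max_left _ _) (by linarith only [ha1])
      have h14 : a * r ≤ a * max (P.φ x₀) r :=
        mul_le_mul_of_nonneg_left (le_max_right _ _) ha0
      linarith only [h8, h12, h13, h14]
    rw [map_smul, smul_eq_mul] at h3
    linarith
  have hepi : (u, p u) ∈ P.epi := P.mem_epi_of_le hx₀ huV hle
  have hepi' : -((u, p u) : E × ℝ) ∈ P.epi := by
    by_contra hcon'
    exact lt_irrefl _ ((hp _ hepi).1 hcon')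
  have hflat := P.flat_of_epi hepi hepi'
  have huW2 : u ∈ W := (hW u).2 ⟨huV, p u, hflat⟩
  have hu0 : u = 0 := by
    have h := Submodule.disjoint_def.1 hWW u huW2 huW
    exact h
  rw [mem_sphere_zero_iff_norm, hu0, norm_zero] at hu
  exact zero_ne_one hu

theorem Pot.sublevel_bdd (W : Submodule ℝ E) (hW : P.IsFlat W) {x₀ : E} (hx₀ : x₀ ∈ P.X)
    (p : E →ₗ[ℝ] ℝ) (hp : P.Supp p) (r : ℝ) :
    ∃ ϱ : ℝ, ∀ v ∈ P.V, P.φ (x₀ + v) - p v ≤ r → ∃ w ∈ W, ‖v - w‖ ≤ ϱ := by
  obtain ⟨W', hWW⟩ := Submodule.exists_isCompl W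
  obtain ⟨ϱ, hϱ⟩ := lb_compl P W W' hWW.disjoint hW hx₀ p hp r
  refine ⟨ϱ, fun v hv hr => ?_⟩
  have hvtop : v ∈ W ⊔ W' := by
    rw [hWW.sup_eq_top]
    exact Submodule.mem_top
  obtain ⟨w, hw, w', hw', rfl⟩ := Submodule.mem_sup.1 hvtop
  have hwV : w ∈ P.V := ((hW w).1 hw).1
  have hw'V : w' ∈ P.V := by
    have h := P.V.sub_mem hv hwV
    rwa [add_sub_cancel_left] at h
  refine ⟨w, hw, ?_⟩
  rw [add_sub_cancel_left]
  apply hϱ w' hw'V hw'
  have h1 := lb_inv P W hW (lb_mem P hx₀ hw'V) p hp hw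
  have h2 : x₀ + w' + w = x₀ + (w + w') := by abel
  rw [h2] at h1
  rw [map_add] at hr
  linarith only [hr, h1]

theorem Pot.bdd_below (W : Submodule ℝ E) (hW : P.IsFlat W) {x₀ : E} (hx₀ : x₀ ∈ P.X)
    (p : E →ₗ[ℝ] ℝ) (hp : P.Supp p) :
    ∃ c : ℝ, ∀ v ∈ P.V, p v ≤ P.φ (x₀ + v) + c := by
  obtain ⟨ϱ, hϱ⟩ := P.sublevel_bdd W hW hx₀ p hp (P.φ x₀)
  have hK : IsCompact (Metric.closedBall (0 : E) ϱ ∩ (P.V : Set E)) :=
    (isCompact_closedBall (0 : E) ϱ).inter_right P.V.closed_of_finiteDimensional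
  have hcont := (lb_cont P hx₀ p).mono (Set.inter_subset_right (s := Metric.closedBall (0 : E) ϱ))
  obtain ⟨m, hm⟩ := hK.bddBelow_image hcont
  refine ⟨max (-m) (-P.φ x₀), fun v hv => ?_⟩
  by_cases hr : P.φ (x₀ + v) - p v ≤ P.φ x₀
  · obtain ⟨w, hw, hvw⟩ := hϱ v hv hr
    have hwV : w ∈ P.V := ((hW w).1 hw).1
    have h1 : v - w ∈ P.V := P.V.sub_mem hv hwV
    have h2 : m ≤ P.φ (x₀ + (v - w)) - p (v - w) := by
      apply hm
      refine ⟨v - w, ⟨?_, h1⟩, rfl⟩
      rw [mem_closedBall_zero_iff]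
      exact hvw
    have h3 := lb_inv P W hW (lb_mem P hx₀ h1) p hp hw
    have h4 : x₀ + (v - w) + w = x₀ + v := by abel
    rw [h4] at h3
    rw [map_sub] at h2
    have h5 := le_max_left (-m) (-P.φ x₀)
    linarith only [h2, h3, h5]
  · have h5 := le_max_right (-m) (-P.φ x₀)
    push Not at hr
    linarith

end Pool.Agent.Helper47.HP
end

/- Helper16.LDA.H47.HP.Lam -/
section
/-! # Project HP: the points `g⁻¹ x₀` stay in a compact part of `X / V` -/

set_option autoImplicit false

open Set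

namespace Pool.Agent.Helper47.HP

variable {E : Type*} [NormedAddCommGroup E] [NormedSpace ℝ E] (P : Pot E)

/-- the linear part of a bounded affine map is bounded modulo `V` -/
theorem lam_lin {V : Submodule ℝ E} {R : ℝ} {g : E ≃ᵃ[ℝ] E}
    (h : ABdd V R g) (b : E) : ∃ v ∈ V, ‖g.linear b - v‖ ≤ 3 * R * ‖b‖ := by
  rcases eq_or_ne b 0 with rfl | hb
  · exact ⟨0, V.zero_mem, by simp⟩
  · have he : 0 < ‖b‖ := norm_pos_iff.2 hb
    obtain ⟨x1, hx1⟩ : ∃ x1 : E, x1 = ‖b‖⁻¹ • b := ⟨_, rfl⟩
    have hn : ‖x1‖ = 1 := by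
      rw [hx1, norm_smul, norm_inv, norm_norm, inv_mul_cancel₀ he.ne']
    obtain ⟨v1, hv1, _, _, h1, _⟩ := h x1
    obtain ⟨v0, hv0, _, _, h0, _⟩ := h 0
    have hg : g x1 = g.linear x1 + g 0 := by
      have := g.map_vadd 0 x1
      simpa using this
    have hb1 : b = ‖b‖ • x1 := by
      rw [hx1, smul_smul, mul_inv_cancel₀ he.ne', one_smul]
    refine ⟨‖b‖ • (v1 - v0), V.smul_mem _ (V.sub_mem hv1 hv0), ?_⟩
    have h2 : g.linear b - ‖b‖ • (v1 - v0) = ‖b‖ • ((g x1 - v1) - (g 0 - v0)) := by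
      have h3 : g.linear b = ‖b‖ • g.linear x1 := by
        conv_lhs => rw [hb1]
        exact map_smul g.linear _ _
      rw [h3, hg]
      simp only [smul_sub, smul_add]
      abel
    rw [h2, norm_smul, norm_norm]
    have h4 : ‖(g x1 - v1) - (g 0 - v0)‖ ≤ 3 * R := by
      refine (norm_sub_le _ _).trans ?_
      rw [hn] at h1
      rw [norm_zero] at h0
      (clear * - h1 h0; linarith)
    calc ‖b‖ * ‖(g x1 - v1) - (g 0 - v0)‖ ≤ ‖b‖ * (3 * R) :=
          mul_le_mul_of_nonneg_left h4 he.le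
      _ = 3 * R * ‖b‖ := by ring

theorem Pot.exists_lam {x₀ : E} (hx₀ : x₀ ∈ P.X) (R : ℝ) :
    ∃ l : ℝ, 0 < l ∧ l < 1 ∧ ∀ g : E ≃ᵃ[ℝ] E, (∀ x ∈ P.X, g x ∈ P.X) →
      (∀ x ∈ P.X, g⁻¹ x ∈ P.X) → ABdd P.V R g → x₀ + l⁻¹ • (g⁻¹ x₀ - x₀) ∈ P.X := by
  obtain ⟨ρ, hρ, hball⟩ := Metric.isOpen_iff.1 P.isOpen x₀ hx₀
  obtain ⟨R', hR'⟩ : ∃ R' : ℝ, R' = max R 1 := ⟨_, rfl⟩
  have hR1 : 1 ≤ R' := hR' ▸ le_max_right _ _
  have hRR : R ≤ R' := hR' ▸ le_max_left _ _
  have hR0 : 0 < R' := by linarith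
  obtain ⟨M, hM⟩ : ∃ M : ℝ, M = R' * (1 + ‖x₀‖) + ‖x₀‖ := ⟨_, rfl⟩
  have hx0n : 0 ≤ ‖x₀‖ := norm_nonneg _
  have hM0 : 0 < M := by
    rw [hM]
    positivity
  obtain ⟨k, hk⟩ : ∃ k : ℝ, k = ρ / (4 * R' * M) := ⟨_, rfl⟩
  have hk0 : 0 < k := by
    rw [hk]
    positivity
  refine ⟨(1 + k)⁻¹, by positivity, inv_lt_one_of_one_lt₀ (by linarith only [hk0]), ?_⟩
  intro g _ hg' hb
  rw [inv_inv]
  -- points near `g⁻¹ x₀`
  have hnear : ∀ b : E, ‖b‖ ≤ ρ / (4 * R') → g⁻¹ x₀ + b ∈ P.X := by
    intro b hbn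
    obtain ⟨v, hv, hvn⟩ := lam_lin hb b
    have h1 : ‖g.linear b - v‖ < ρ := by
      have h2 : 3 * R * ‖b‖ ≤ 3 * R' * (ρ / (4 * R')) := by
        have h3 : 3 * R * ‖b‖ ≤ 3 * R' * ‖b‖ :=
          mul_le_mul_of_nonneg_right (by linarith only [hRR]) (norm_nonneg _)
        exact h3.trans (mul_le_mul_of_nonneg_left hbn (by positivity))
      have h4 : 3 * R' * (ρ / (4 * R')) = 3 / 4 * ρ := by
        field_simp
      (clear * - hρ hvn h2 h4; linarith only [hρ, hvn, h2, h4])
    have h5 : x₀ + (g.linear b - v) ∈ P.X := by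
      apply hball
      rw [Metric.mem_ball, dist_eq_norm, add_sub_cancel_left]
      exact h1
    have h6 : x₀ + g.linear b ∈ P.X := by
      have h7 := (P.mem_V v).1 hv _ h5 1
      rw [one_smul] at h7
      have h8 : x₀ + (g.linear b - v) + v = x₀ + g.linear b := by abel
      rwa [h8] at h7
    have h9 := hg' _ h6
    have h10 : g⁻¹ (x₀ + g.linear b) = g⁻¹ x₀ + b := by
      have h11 : g (g⁻¹ x₀ + b) = x₀ + g.linear b := by
        have h12 := g.map_vadd (g⁻¹ x₀) b
        have h13 : g (g⁻¹ x₀) = x₀ := g.apply_symm_apply x₀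
        rw [h13] at h12
        simp only [vadd_eq_add] at h12
        rw [add_comm (g⁻¹ x₀) b, h12, add_comm]
      rw [← h11]
      exact g.symm_apply_apply _
    rwa [h10] at h9
  obtain ⟨_, _, v', hv', _, hb'⟩ := hb x₀
  have hb2 : ‖k • (g⁻¹ x₀ - v' - x₀)‖ ≤ ρ / (4 * R') := by
    rw [norm_smul, Real.norm_of_nonneg hk0.le]
    have h1 : ‖g⁻¹ x₀ - v' - x₀‖ ≤ M := by
      refine (norm_sub_le _ _).trans ?_
      rw [hM]
      have h2 : R * (1 + ‖x₀‖) ≤ R' * (1 + ‖x₀‖) :=
        mul_le_mul_of_nonneg_right hRR (by linarith only [hx0n])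
      (clear * - hb' h2; linarith)
    have h3 : k * M = ρ / (4 * R') := by
      rw [hk]
      (clear * - hM0 hR1 hρ; field_simp)
    rw [← h3]
    exact mul_le_mul_of_nonneg_left h1 hk0.le
  have h1 := hnear _ hb2
  have h2 := (P.mem_V v').1 hv' _ h1 k
  have h3 : g⁻¹ x₀ + k • (g⁻¹ x₀ - v' - x₀) + k • v' = x₀ + (1 + k) • (g⁻¹ x₀ - x₀) := by
    module
  rwa [h3] at h2

end Pool.Agent.Helper47.HP
end

/- Helper16.LDA.SV.Subdiv -/
section
/-!
Edgewise subdivision of tuple chains.
-/

open Set Finset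

namespace Pool.SV

namespace Subdiv

variable {A B : Type*}

theorem cone_single (v : B) (l : List B) (r : ℝ) :
    cone v (Finsupp.single l r) = Finsupp.single (v :: l) r := by
  simp [cone]

theorem lin_single (T : List A → L B) (l : List A) (r : ℝ) :
    lin T (Finsupp.single l r) = r • T l := by
  simp [lin, Finsupp.linearCombination_single]

theorem d_single (l : List B) (r : ℝ) : d (Finsupp.single l r) = r • dl l := by
  simp [d, Finsupp.linearCombination_single]

theorem d_cone (v : B) (c : L B) : d (cone v c) = c - cone v (d c) := by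
  have : (d).comp (cone v) = LinearMap.id - (cone v).comp d := by
    refine Finsupp.lhom_ext' (fun x => LinearMap.ext_ring ?_)
    simp only [LinearMap.comp_apply, Finsupp.lsingle_apply, cone_single, d_single, one_smul,
      LinearMap.sub_apply, LinearMap.id_apply, dl]
  exact LinearMap.congr_fun this c

theorem lin_congr (T T' : List A → L B) (c : L A) (h : ∀ x ∈ c.support, T x = T' x) :
    lin T c = lin T' c := by
  unfold lin
  rw [Finsupp.linearCombination_apply, Finsupp.linearCombination_apply]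
  exact Finsupp.sum_congr fun x hx => by rw [h x hx]

theorem lin_zero' (c : L A) : lin (fun _ => (0 : L B)) c = 0 := by
  unfold lin
  rw [Finsupp.linearCombination_apply]
  simp [Finsupp.sum]

theorem lin_add (T T' : List A → L B) (c : L A) :
    lin (fun x => T x + T' x) c = lin T c + lin T' c := by
  unfold lin
  simp only [Finsupp.linearCombination_apply, Finsupp.sum, smul_add, Finset.sum_add_distrib]

theorem lin_map {C : Type*} (φ : L B →ₗ[ℝ] L C) (T : List A → L B) (c : L A) :
    lin (fun x => φ (T x)) c = φ (lin T c) := by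
  unfold lin
  simp only [Finsupp.linearCombination_apply, Finsupp.sum, map_sum, map_smul]

theorem lin_smul' (r : ℝ) (T : List A → L B) (c : L A) :
    lin (fun x => r • T x) c = r • lin T c := by
  unfold lin
  simp only [Finsupp.linearCombination_apply, Finsupp.sum, Finset.smul_sum, smul_comm r]

theorem lin_cone (T : List A → L B) (v : A) (c : L A) :
    lin T (cone v c) = lin (fun x => T (v :: x)) c := by
  have : (lin T).comp (cone v) = lin (fun x => T (v :: x)) := by
    refine Finsupp.lhom_ext' (fun x => LinearMap.ext_ring ?_)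
    simp only [LinearMap.comp_apply, Finsupp.lsingle_apply, cone_single, lin_single]
  exact LinearMap.congr_fun this c

theorem lin_dl_cons (T : List A → L B) (v : A) (l : List A) :
    lin T (dl (v :: l)) = T l - lin (fun x => T (v :: x)) (dl l) := by
  rw [dl, map_sub, lin_single, one_smul, lin_cone]

theorem lin_dl_nil (T : List A → L B) : lin T (dl ([] : List A)) = 0 := by
  rw [dl, map_zero]

theorem mem_support_cone {v : B} {c : L B} {x : List B} (hx : x ∈ (cone v c).support) :
    ∃ y ∈ c.support, x = v :: y := by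
  classical
  have h := Finsupp.mapDomain_support hx
  obtain ⟨y, hy, hy'⟩ := Finset.mem_image.1 h
  exact ⟨y, hy, hy'.symm⟩

theorem dl_len : ∀ l : List B, ∀ x ∈ (dl l).support, x.length + 1 = l.length := by
  classical
  intro l
  induction l with
  | nil => intro x hx; simp [dl] at hx
  | cons b l ih =>
    intro x hx
    rw [dl] at hx
    rcases Finset.mem_union.1 (Finsupp.support_sub hx) with h | h
    · have := Finsupp.support_single_subset h
      rw [Finset.mem_singleton] at this
      rw [this, List.length_cons]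
    · obtain ⟨y, hy, rfl⟩ := mem_support_cone h
      rw [List.length_cons, List.length_cons, ih y hy]

/-- the correction term -/
noncomputable def e : List B → List B → L B
  | [], [] => Finsupp.single [] 1
  | _, _ => 0

theorem e_symm (a b : List B) : e a b = e b a := by
  cases a <;> cases b <;> rfl

/-- the correction term in the boundary formula -/
noncomputable def dlt (a b : List B) : L B :=
  if a.length = 1 ∧ b.length = 1 then Finsupp.single [] 1 else 0

theorem dlt_symm (a b : List B) : dlt a b = dlt b a := by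
  unfold dlt
  simp only [and_comm]

theorem e_eq (a0 b0 : B) (a b : List B) : e a b = dlt (a0 :: a) (b0 :: b) := by
  cases a <;> cases b <;> simp [e, dlt]

theorem lin_e (b0 : B) (a b : List B) : lin (fun x => e x b) (dl a) = dlt a (b0 :: b) := by
  rcases a with _ | ⟨z, _ | ⟨z', t⟩⟩
  · rw [lin_dl_nil]
    simp [dlt]
  · rw [lin_dl_cons, lin_dl_nil, sub_zero]
    cases b <;> simp [e, dlt]
  · have h : dlt (z :: z' :: t) (b0 :: b) = 0 := by
      simp [dlt]
    rw [h, ← lin_zero' (B := B) (dl (z :: z' :: t))]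
    apply lin_congr
    intro x hx
    have := dl_len _ x hx
    cases x with
    | nil => simp at this
    | cons y x => rfl

theorem lin_e' (a0 : B) (a b : List B) : lin (fun y => e a y) (dl b) = dlt (a0 :: a) b := by
  rw [dlt_symm, ← lin_e]
  apply lin_congr
  intro x _
  exact e_symm _ _

/-- inner recursion for `Sh` -/
noncomputable def ShAux (m : B → B → B) (a0 : B) (a' : List B) (F : List B → L B) :
    List B → L B
  | [] => 0
  | b0 :: b' => cone (m a0 b0) (e a' b' + F (b0 :: b') +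
      (-1 : ℝ) ^ a'.length • ShAux m a0 a' F b')

/-- the shuffle product of two tuples, with midpoints -/
noncomputable def Sh (m : B → B → B) : List B → List B → L B
  | [] => fun _ => 0
  | a0 :: a' => ShAux m a0 a' (Sh m a')

variable (m : B → B → B)

theorem Sh_cons (a0 b0 : B) (a' b' : List B) :
    Sh m (a0 :: a') (b0 :: b') = cone (m a0 b0) (e a' b' + Sh m a' (b0 :: b') +
      (-1 : ℝ) ^ a'.length • Sh m (a0 :: a') b') := rfl

theorem Sh_nil_left (b : List B) : Sh m [] b = 0 := rfl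

theorem Sh_nil_right (a : List B) : Sh m a [] = 0 := by cases a <;> rfl

theorem d_e (a b : List B) : d (e a b) = 0 := by
  cases a <;> cases b <;> simp [e, d_single, dl]

theorem aux (φ : L B →ₗ[ℝ] L B) (e1 s1 s2 s3 P Q R T d1 d2 : L B) (ε : ℝ) (hε : ε * ε = 1) :
    e1 + s1 + ε • s2 - φ (0 + (P - ε • (s3 - Q) + d1) + ε • (s3 - R - (ε * -1) • T + d2)) =
      s1 - φ (d1 + P - ε • R) - (ε * -1) • (s2 - φ (d2 + Q + ε • T)) + e1 := by
  have h1 : (0 + (P - ε • (s3 - Q) + d1) + ε • (s3 - R - (ε * -1) • T + d2)) =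
      (d1 + P - ε • R) + ε • (d2 + Q + ε • T) := by
    have h2 : ε • ((ε * -1) • T) = -T := by
      rw [smul_smul, ← mul_assoc, hε]; simp
    have h3 : ε • (ε • T) = T := by rw [smul_smul, hε, one_smul]
    simp only [smul_add, smul_sub, h2, h3]
    abel
  rw [h1, map_add φ, map_smul φ, smul_sub, mul_neg, mul_one, neg_smul, neg_smul]
  abel

theorem d_Sh : ∀ a b : List B, d (Sh m a b) = lin (fun x => Sh m x b) (dl a) -
    (-1 : ℝ) ^ a.length • lin (fun y => Sh m a y) (dl b) + dlt a b := by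
  intro a
  induction a with
  | nil =>
    intro b
    have h : lin (fun y => Sh m [] y) (dl b) = 0 := lin_zero' (dl b)
    rw [h, lin_dl_nil, Sh_nil_left]
    simp [dlt]
  | cons a0 a' iha =>
    intro b
    induction b with
    | nil =>
      have h : lin (fun x => Sh m x []) (dl (a0 :: a')) = 0 := by
        rw [← lin_zero' (B := B) (dl (a0 :: a'))]
        exact lin_congr _ _ _ fun x _ => Sh_nil_right m x
      rw [h, lin_dl_nil, Sh_nil_right]
      simp [dlt]
    | cons b0 b' ihb =>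
      have E1 := iha (b0 :: b')
      have E2 := ihb
      rw [lin_dl_cons (fun y => Sh m a' y)] at E1
      rw [lin_dl_cons (fun x => Sh m x b')] at E2
      rw [lin_dl_cons (fun x => Sh m x (b0 :: b')), lin_dl_cons (fun y => Sh m (a0 :: a') y)]
      set P := lin (fun x => Sh m x (b0 :: b')) (dl a') with hP
      set Q := lin (fun y => Sh m a' (b0 :: y)) (dl b') with hQ
      set R := lin (fun x => Sh m (a0 :: x) b') (dl a') with hR
      set T := lin (fun y => Sh m (a0 :: a') y) (dl b') with hT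
      set ε : ℝ := (-1) ^ a'.length with hε
      have hεε : ε * ε = 1 := by
        rw [hε, ← mul_pow]; norm_num
      have V1 : lin (fun x => Sh m (a0 :: x) (b0 :: b')) (dl a') =
          cone (m a0 b0) (dlt a' (b0 :: b') + P - ε • R) := by
        have h1 : lin (fun x => Sh m (a0 :: x) (b0 :: b')) (dl a') =
            lin (fun x => cone (m a0 b0) ((e x b' + Sh m x (b0 :: b')) +
              (-ε) • Sh m (a0 :: x) b')) (dl a') := by
          apply lin_congr
          intro x hx
          have h2 := dl_len _ x hx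
          rw [Sh_cons]
          congr 2
          rw [hε, ← h2, pow_succ]
          congr 1
          ring
        rw [h1, lin_map, lin_add (fun x => e x b' + Sh m x (b0 :: b')), lin_add, lin_smul',
          lin_e b0, neg_smul, ← sub_eq_add_neg]
      have V2 : lin (fun y => Sh m (a0 :: a') (b0 :: y)) (dl b') =
          cone (m a0 b0) (dlt (a0 :: a') b' + Q + ε • T) := by
        have h1 : lin (fun y => Sh m (a0 :: a') (b0 :: y)) (dl b') =
            lin (fun y => cone (m a0 b0) ((e a' y + Sh m a' (b0 :: y)) +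
              ε • Sh m (a0 :: a') y)) (dl b') := by
          apply lin_congr
          intro x _
          rw [Sh_cons]
        rw [h1, lin_map, lin_add (fun y => e a' y + Sh m a' (b0 :: y)), lin_add, lin_smul',
          lin_e' a0]
      rw [V1, V2, Sh_cons, d_cone, map_add d, map_add d, map_smul d, E1, E2, d_e, ← e_eq,
        List.length_cons, pow_succ, ← hε]
      exact aux (cone (m a0 b0)) _ _ _ _ _ _ _ _ _ _ ε hεε

/-- append a vertex at the end -/
noncomputable def app (x : B) : L B →ₗ[ℝ] L B := Finsupp.lmapDomain ℝ ℝ (fun a => a ++ [x])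

theorem app_single (x : B) (l : List B) (r : ℝ) :
    app x (Finsupp.single l r) = Finsupp.single (l ++ [x]) r := by
  simp [app]

theorem app_cone (x v : B) (c : L B) : app x (cone v c) = cone v (app x c) := by
  have : (app x).comp (cone v) = (cone v).comp (app x) := by
    refine Finsupp.lhom_ext' (fun y => LinearMap.ext_ring ?_)
    simp only [LinearMap.comp_apply, Finsupp.lsingle_apply, cone_single, app_single,
      List.cons_append]
  exact LinearMap.congr_fun this c

theorem lin_app (T : List B → L B) (x : B) (c : L B) :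
    lin T (app x c) = lin (fun a => T (a ++ [x])) c := by
  have : (lin T).comp (app x) = lin (fun a => T (a ++ [x])) := by
    refine Finsupp.lhom_ext' (fun y => LinearMap.ext_ring ?_)
    simp only [LinearMap.comp_apply, Finsupp.lsingle_apply, app_single, lin_single]
  exact LinearMap.congr_fun this c

theorem dl_append (p : List B) (x : B) :
    dl (p ++ [x]) = app x (dl p) + (-1 : ℝ) ^ p.length • Finsupp.single p 1 := by
  induction p with
  | nil => simp [dl]
  | cons b p ih =>
    rw [List.cons_append, dl, dl, ih, map_sub, app_single, app_cone, map_add, map_smul,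
      cone_single, List.length_cons, pow_succ]
    simp only [mul_neg, mul_one, neg_smul]
    abel

/-- the sum of the shuffle products over the cutting points -/
noncomputable def U : List B → List B → L B
  | _, [] => 0
  | p, x :: l => Sh m (p ++ [x]) (x :: l) + U (p ++ [x]) l

theorem U_nil (p : List B) : U m p [] = 0 := by rw [U]

theorem U_cons (p : List B) (x : B) (l : List B) :
    U m p (x :: l) = Sh m (p ++ [x]) (x :: l) + U m (p ++ [x]) l := by rw [U]

theorem d_U : ∀ w p : List B, d (U m p w) = lin (fun p' => U m p' w) (dl p) +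
    (-1 : ℝ) ^ p.length • lin (fun w' => U m p w') (dl w) + (-1 : ℝ) ^ p.length • Sh m p w +
    (if p.length = 0 ∧ w.length = 1 then Finsupp.single [] 1 else 0) := by
  intro w
  induction w with
  | nil =>
    intro p
    have h : lin (fun p' => U m p' []) (dl p) = 0 := by
      rw [← lin_zero' (B := B) (dl p)]
      exact lin_congr _ _ _ fun x _ => U_nil m x
    rw [h, lin_dl_nil, Sh_nil_right, U_nil]
    simp
  | cons x l ih =>
    intro p
    rw [U_cons, map_add, d_Sh, ih, dl_append, map_add, map_add, map_smul, map_smul, lin_single,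
      lin_single, lin_app, lin_app, one_smul, one_smul, lin_dl_cons (fun y => Sh m (p ++ [x]) y),
      lin_dl_cons (fun w' => U m p w')]
    have h1 : lin (fun p' => U m p' (x :: l)) (dl p) =
        lin (fun a => Sh m (a ++ [x]) (x :: l)) (dl p) +
          lin (fun a => U m (a ++ [x]) l) (dl p) := by
      rw [← lin_add]
      exact lin_congr _ _ _ fun a _ => U_cons m a x l
    have h2 : lin (fun a => U m p (x :: a)) (dl l) =
        lin (fun a => Sh m (p ++ [x]) (x :: a)) (dl l) +
          lin (fun a => U m (p ++ [x]) a) (dl l) := by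
      rw [← lin_add]
      exact lin_congr _ _ _ fun a _ => U_cons m p x a
    have h3 : dlt (p ++ [x]) (x :: l) =
        (if p.length = 0 ∧ (x :: l).length = 1 then Finsupp.single [] 1 else 0) := by
      simp [dlt]
    have h4 : (if (p ++ [x]).length = 0 ∧ l.length = 1 then (Finsupp.single [] 1 : L B) else 0)
        = 0 := by
      simp
    rw [h1, h2, h3, h4, List.length_append, List.length_singleton, pow_succ]
    simp only [smul_add, smul_sub, neg_smul, mul_neg, mul_one]
    abel

/-- the subdivision -/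
noncomputable def S : List B → L B
  | [] => Finsupp.single [] 1
  | x :: l => U m [] (x :: l)

theorem d_S (l : List B) : d (S m l) = lin (S m) (dl l) := by
  cases l with
  | nil => rw [S, d_single, one_smul, lin_dl_nil, dl]
  | cons x l =>
    rw [S, d_U, lin_dl_nil, Sh_nil_left, List.length_nil, pow_zero, one_smul, smul_zero, zero_add,
      add_zero]
    cases l with
    | nil =>
      rw [lin_dl_cons, lin_dl_cons, lin_dl_nil, lin_dl_nil, U_nil, S]
      simp
    | cons y l =>
      have h : lin (fun w' => U m [] w') (dl (x :: y :: l)) = lin (S m) (dl (x :: y :: l)) := by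
        apply lin_congr
        intro z hz
        have := dl_len _ z hz
        cases z with
        | nil => simp at this
        | cons z t => rfl
      rw [h]
      simp

theorem mapDomain_cone (g : B → B) (v : B) (c : L B) :
    (cone v c).mapDomain (List.map g) = cone (g v) (c.mapDomain (List.map g)) := by
  unfold cone
  rw [Finsupp.lmapDomain_apply, Finsupp.lmapDomain_apply, ← Finsupp.mapDomain_comp,
    ← Finsupp.mapDomain_comp]
  rfl

theorem e_map (g : B → B) (a b : List B) :
    e (a.map g) (b.map g) = (e a b).mapDomain (List.map g) := by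
  cases a <;> cases b <;> simp [e, Finsupp.mapDomain_single]

theorem Sh_map (g : B → B) (hg : ∀ x y, g (m x y) = m (g x) (g y)) :
    ∀ a b : List B, Sh m (a.map g) (b.map g) = (Sh m a b).mapDomain (List.map g) := by
  intro a
  induction a with
  | nil => intro b; simp [Sh_nil_left]
  | cons a0 a' iha =>
    intro b
    induction b with
    | nil => simp [Sh_nil_right]
    | cons b0 b' ihb =>
      have h1 := iha (b0 :: b')
      rw [List.map_cons] at h1 ihb
      rw [List.map_cons, List.map_cons, Sh_cons, Sh_cons, mapDomain_cone, hg, h1, ihb,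
        Finsupp.mapDomain_add, Finsupp.mapDomain_add, Finsupp.mapDomain_smul, e_map,
        List.length_map]

theorem U_map (g : B → B) (hg : ∀ x y, g (m x y) = m (g x) (g y)) :
    ∀ w p : List B, U m (p.map g) (w.map g) = (U m p w).mapDomain (List.map g) := by
  intro w
  induction w with
  | nil => intro p; simp [U_nil]
  | cons x l ih =>
    intro p
    have h1 := ih (p ++ [x])
    have h2 := Sh_map m g hg (p ++ [x]) (x :: l)
    rw [List.map_append, List.map_singleton] at h1 h2
    rw [List.map_cons] at h2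
    rw [List.map_cons, U_cons, U_cons, Finsupp.mapDomain_add, h1, h2]

/-- the norm -/
noncomputable def nm (c : L B) : ℝ := c.sum (fun _ a => |a|)

theorem nm_zero : nm (0 : L B) = 0 := by simp [nm]

theorem nm_single (l : List B) (r : ℝ) : nm (Finsupp.single l r) = |r| := by
  simp [nm]

theorem nm_eq (c : L B) (s : Finset (List B)) (hs : c.support ⊆ s) : nm c = ∑ x ∈ s, |c x| := by
  unfold nm
  exact Finsupp.sum_of_support_subset c hs _ (by simp)

theorem nm_add (c c' : L B) : nm (c + c') ≤ nm c + nm c' := by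
  classical
  rw [nm_eq (c + c') (c.support ∪ c'.support) Finsupp.support_add,
    nm_eq c (c.support ∪ c'.support) Finset.subset_union_left,
    nm_eq c' (c.support ∪ c'.support) Finset.subset_union_right, ← Finset.sum_add_distrib]
  exact Finset.sum_le_sum fun x _ => abs_add_le _ _

theorem nm_smul (r : ℝ) (c : L B) : nm (r • c) = |r| * nm c := by
  rw [nm_eq (r • c) c.support Finsupp.support_smul, nm_eq c c.support (Finset.Subset.refl _),
    Finset.mul_sum]
  exact Finset.sum_congr rfl fun x _ => by rw [Finsupp.smul_apply, smul_eq_mul, abs_mul]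

theorem nm_cone (v : B) (c : L B) : nm (cone v c) = nm c := by
  unfold nm cone
  rw [Finsupp.lmapDomain_apply, Finsupp.sum_mapDomain_index_inj]
  exact List.cons_injective

theorem nm_step (v : B) (c1 c2 c3 : L B) (k : ℕ) :
    nm (cone v (c1 + c2 + (-1 : ℝ) ^ k • c3)) ≤ nm c1 + nm c2 + nm c3 := by
  rw [nm_cone]
  have h1 := nm_add (c1 + c2) ((-1 : ℝ) ^ k • c3)
  have h2 := nm_add c1 c2
  rw [nm_smul, abs_pow, abs_neg, abs_one, one_pow, one_mul] at h1
  linarith

theorem Sh_norm : ∀ (a' b' : List B) (a0 b0 : B), nm (Sh m (a0 :: a') (b0 :: b')) ≤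
    ((a'.length + b'.length).choose a'.length : ℝ) := by
  intro a'
  induction a' with
  | nil =>
    intro b'
    induction b' with
    | nil =>
      intro a0 b0
      rw [Sh_cons]
      refine (nm_step _ _ _ _ _).trans ?_
      rw [Sh_nil_left, Sh_nil_right, nm_zero, e, nm_single]
      simp
    | cons b1 b'' ihb =>
      intro a0 b0
      rw [Sh_cons]
      refine (nm_step _ _ _ _ _).trans ?_
      have h1 := ihb a0 b1
      have h2 : e ([] : List B) (b1 :: b'') = 0 := rfl
      rw [Sh_nil_left, h2, nm_zero]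
      simp only [List.length_nil, Nat.choose_zero_right, Nat.cast_one] at h1 ⊢
      linarith
  | cons a1 a'' iha =>
    intro b'
    induction b' with
    | nil =>
      intro a0 b0
      rw [Sh_cons]
      refine (nm_step _ _ _ _ _).trans ?_
      have h1 := iha [] a1 b0
      have h2 : e (a1 :: a'') ([] : List B) = 0 := rfl
      rw [Sh_nil_right, h2, nm_zero]
      simp only [List.length_nil, add_zero, Nat.choose_self, Nat.cast_one] at h1 ⊢
      (clear * - h1; linarith)
    | cons b1 b'' ihb =>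
      intro a0 b0
      rw [Sh_cons]
      refine (nm_step _ _ _ _ _).trans ?_
      have h1 := iha (b1 :: b'') a1 b0
      have h3 := ihb a0 b1
      have h2 : e (a1 :: a'') (b1 :: b'') = 0 := rfl
      rw [h2, nm_zero]
      have h4 : ((a1 :: a'').length + (b1 :: b'').length).choose (a1 :: a'').length =
          (a''.length + (b1 :: b'').length).choose a''.length +
            ((a1 :: a'').length + b''.length).choose (a1 :: a'').length := by
        simp only [List.length_cons]
        have e1 : a''.length + 1 + (b''.length + 1) = (a''.length + (b''.length + 1)) + 1 := by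
          ring
        have e2 : a''.length + 1 + b''.length = a''.length + (b''.length + 1) := by ring
        rw [e1, e2, Nat.choose_succ_succ]
      rw [h4]
      push_cast
      linarith only [h1, h3]

theorem U_norm : ∀ w p : List B, nm (U m p w) ≤
    ∑ i ∈ Finset.Ico p.length (p.length + w.length),
      ((p.length + w.length - 1).choose i : ℝ) := by
  intro w
  induction w with
  | nil =>
    intro p
    rw [U_nil, nm_zero]
    simp
  | cons x l ih =>
    intro p
    rw [U_cons]
    refine (nm_add _ _).trans ?_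
    have h1 := ih (p ++ [x])
    have h2 : nm (Sh m (p ++ [x]) (x :: l)) ≤ ((p.length + l.length).choose p.length : ℝ) := by
      cases p with
      | nil =>
        have := Sh_norm m [] l x x
        simpa using this
      | cons b p =>
        have := Sh_norm m (p ++ [x]) l b x
        simpa using this
    rw [List.length_append, List.length_singleton] at h1
    rw [List.length_cons, Finset.sum_eq_sum_Ico_succ_bot (by omega)]
    have e1 : p.length + (l.length + 1) - 1 = p.length + l.length := by omega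
    have e2 : p.length + 1 + l.length - 1 = p.length + l.length := by omega
    have e3 : p.length + 1 + l.length = p.length + (l.length + 1) := by ring
    rw [e2, e3] at h1
    rw [e1]
    (clear * - h1 h2; linarith only [h1, h2])

theorem S_norm (l : List B) : nm (S m l) ≤ 2 ^ (l.length - 1) := by
  cases l with
  | nil => rw [S, nm_single]; simp
  | cons x l =>
    rw [S]
    refine (U_norm m (x :: l) []).trans ?_
    simp only [List.length_nil, zero_add, List.length_cons, add_tsub_cancel_right]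
    rw [← Finset.range_eq_Ico, ← Nat.cast_sum, Nat.sum_range_choose]
    push_cast
    exact le_refl _

section tv

variable {E : Type*} [NormedAddCommGroup E] [NormedSpace ℝ E] (ι : B → E)

theorem tv_append (p : List E) (x : E) (l : List E) :
    tv (p ++ x :: l) = tv (p ++ [x]) + tv (x :: l) := by
  induction p with
  | nil => simp [tv]
  | cons b p ih =>
    cases p with
    | nil => simp [tv]
    | cons c p =>
      simp only [List.cons_append] at ih ⊢
      rw [tv, tv, ih]
      ring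

variable (hι : ∀ x y, ι (m x y) = (2 : ℝ)⁻¹ • (ι x + ι y))

include hι in
theorem Sh_supp : ∀ (a' b' : List B) (a0 b0 : B), ∀ l' ∈ (Sh m (a0 :: a') (b0 :: b')).support,
    (∃ t, l' = m a0 b0 :: t) ∧ l'.length = a'.length + b'.length + 1 ∧
      (∀ y ∈ l', ∃ a ∈ a0 :: a', ∃ b ∈ b0 :: b', y = m a b) ∧
      tv (l'.map ι) ≤ (tv ((a0 :: a').map ι) + tv ((b0 :: b').map ι)) / 2 := by
  classical
  intro a'
  induction a' with
  | nil =>
    intro b'
    induction b' with
    | nil =>
      intro a0 b0 l' hl'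
      rw [Sh_cons, Sh_nil_left, Sh_nil_right, smul_zero, add_zero, add_zero] at hl'
      obtain ⟨y, hy, rfl⟩ := mem_support_cone hl'
      have hy' := Finsupp.support_single_subset hy
      rw [Finset.mem_singleton] at hy'
      subst hy'
      refine ⟨⟨[], rfl⟩, by simp, ?_, by simp [tv]⟩
      intro y hy
      rw [List.mem_singleton] at hy
      exact ⟨a0, by simp, b0, by simp, hy⟩
    | cons b1 b'' ihb =>
      intro a0 b0 l' hl'
      have h2 : e ([] : List B) (b1 :: b'') = 0 := rfl
      rw [Sh_cons, Sh_nil_left, h2, zero_add, zero_add] at hl'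
      obtain ⟨y, hy, rfl⟩ := mem_support_cone hl'
      obtain ⟨⟨t, rfl⟩, h3, h4, h5⟩ := ihb a0 b1 y (Finsupp.support_smul hy)
      refine ⟨⟨_, rfl⟩, ?_, ?_, ?_⟩
      · rw [List.length_cons, h3]; simp
      · intro z hz
        rcases List.mem_cons.1 hz with rfl | hz
        · exact ⟨a0, by simp, b0, by simp, rfl⟩
        · obtain ⟨a, ha, b, hb, h6⟩ := h4 z hz
          exact ⟨a, ha, b, List.mem_cons_of_mem _ hb, h6⟩
      · simp only [List.map_cons, tv] at h5 ⊢
        have h7 : ‖ι (m a0 b1) - ι (m a0 b0)‖ = ‖ι b1 - ι b0‖ / 2 := by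
          rw [hι, hι, ← smul_sub, norm_smul]
          have : ι a0 + ι b1 - (ι a0 + ι b0) = ι b1 - ι b0 := by abel
          rw [this]
          norm_num
          ring
        rw [h7]
        (clear * - h5; linarith only [h5])
  | cons a1 a'' iha =>
    intro b'
    induction b' with
    | nil =>
      intro a0 b0 l' hl'
      have h2 : e (a1 :: a'') ([] : List B) = 0 := rfl
      rw [Sh_cons, Sh_nil_right, h2, zero_add, smul_zero, add_zero] at hl'
      obtain ⟨y, hy, rfl⟩ := mem_support_cone hl'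
      obtain ⟨⟨t, rfl⟩, h3, h4, h5⟩ := iha [] a1 b0 y hy
      refine ⟨⟨_, rfl⟩, ?_, ?_, ?_⟩
      · rw [List.length_cons, h3]; simp
      · intro z hz
        rcases List.mem_cons.1 hz with rfl | hz
        · exact ⟨a0, by simp, b0, by simp, rfl⟩
        · obtain ⟨a, ha, b, hb, h6⟩ := h4 z hz
          exact ⟨a, List.mem_cons_of_mem _ ha, b, hb, h6⟩
      · simp only [List.map_cons, tv] at h5 ⊢
        have h7 : ‖ι (m a1 b0) - ι (m a0 b0)‖ = ‖ι a1 - ι a0‖ / 2 := by
          rw [hι, hι, ← smul_sub, norm_smul]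
          have : ι a1 + ι b0 - (ι a0 + ι b0) = ι a1 - ι a0 := by abel
          rw [this]
          norm_num
          ring
        rw [h7]
        linarith only [h5]
    | cons b1 b'' ihb =>
      intro a0 b0 l' hl'
      have h2 : e (a1 :: a'') (b1 :: b'') = 0 := rfl
      rw [Sh_cons, h2, zero_add] at hl'
      obtain ⟨y, hy, rfl⟩ := mem_support_cone hl'
      rcases Finset.mem_union.1 (Finsupp.support_add hy) with hy | hy
      · obtain ⟨⟨t, rfl⟩, h3, h4, h5⟩ := iha (b1 :: b'') a1 b0 y hy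
        refine ⟨⟨_, rfl⟩, ?_, ?_, ?_⟩
        · rw [List.length_cons, h3]
          simp only [List.length_cons]
          ring
        · intro z hz
          rcases List.mem_cons.1 hz with rfl | hz
          · exact ⟨a0, by simp, b0, by simp, rfl⟩
          · obtain ⟨a, ha, b, hb, h6⟩ := h4 z hz
            exact ⟨a, List.mem_cons_of_mem _ ha, b, hb, h6⟩
        · simp only [List.map_cons, tv] at h5 ⊢
          have h7 : ‖ι (m a1 b0) - ι (m a0 b0)‖ = ‖ι a1 - ι a0‖ / 2 := by
            rw [hι, hι, ← smul_sub, norm_smul]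
            have : ι a1 + ι b0 - (ι a0 + ι b0) = ι a1 - ι a0 := by abel
            rw [this]
            norm_num
            ring
          rw [h7]
          (clear * - h5; linarith only [h5])
      · obtain ⟨⟨t, rfl⟩, h3, h4, h5⟩ := ihb a0 b1 y (Finsupp.support_smul hy)
        refine ⟨⟨_, rfl⟩, ?_, ?_, ?_⟩
        · rw [List.length_cons, h3]
          simp only [List.length_cons]
          ring
        · intro z hz
          rcases List.mem_cons.1 hz with rfl | hz
          · exact ⟨a0, by simp, b0, by simp, rfl⟩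
          · obtain ⟨a, ha, b, hb, h6⟩ := h4 z hz
            exact ⟨a, ha, b, List.mem_cons_of_mem _ hb, h6⟩
        · simp only [List.map_cons, tv] at h5 ⊢
          have h7 : ‖ι (m a0 b1) - ι (m a0 b0)‖ = ‖ι b1 - ι b0‖ / 2 := by
            rw [hι, hι, ← smul_sub, norm_smul]
            have : ι a0 + ι b1 - (ι a0 + ι b0) = ι b1 - ι b0 := by abel
            rw [this]
            norm_num
            ring
          rw [h7]
          (clear * - h5; linarith only [h5])

include hι in
theorem U_supp : ∀ (w p : List B), ∀ l' ∈ (U m p w).support,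
    l'.length = p.length + w.length ∧
      (∀ y ∈ l', ∃ a ∈ p ++ w, ∃ b ∈ p ++ w, y = m a b) ∧
      tv (l'.map ι) ≤ tv ((p ++ w).map ι) / 2 := by
  classical
  intro w
  induction w with
  | nil =>
    intro p l' hl'
    rw [U_nil] at hl'
    simp at hl'
  | cons x l ih =>
    intro p l' hl'
    rw [U_cons] at hl'
    rcases Finset.mem_union.1 (Finsupp.support_add hl') with h | h
    · have key : ∀ (a0 : B) (a' : List B), p ++ [x] = a0 :: a' →
          l'.length = p.length + (x :: l).length ∧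
          (∀ y ∈ l', ∃ a ∈ p ++ x :: l, ∃ b ∈ p ++ x :: l, y = m a b) ∧
          tv (l'.map ι) ≤ tv ((p ++ x :: l).map ι) / 2 := by
        intro a0 a' hp
        rw [hp] at h
        obtain ⟨-, h3, h4, h5⟩ := Sh_supp m ι hι a' l a0 x l' h
        have hlen : p.length + 1 = a'.length + 1 := by
          have := congrArg List.length hp
          simpa using this
        refine ⟨?_, ?_, ?_⟩
        · rw [h3, List.length_cons]; omega
        · intro y hy
          obtain ⟨a, ha, b, hb, h6⟩ := h4 y hy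
          rw [← hp] at ha
          refine ⟨a, ?_, b, List.mem_append_right _ hb, h6⟩
          rcases List.mem_append.1 ha with ha | ha
          · exact List.mem_append_left _ ha
          · rw [List.mem_singleton] at ha
            rw [ha]
            simp
        · rw [← hp] at h5
          rw [List.map_append, List.map_cons, tv_append, ← List.map_cons]
          rw [List.map_append, List.map_singleton] at h5
          exact h5
      cases hq : p ++ [x] with
      | nil => simp at hq
      | cons a0 a' => exact key a0 a' hq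
    · obtain ⟨h3, h4, h5⟩ := ih (p ++ [x]) l' h
      rw [List.append_assoc, List.singleton_append] at h4 h5
      refine ⟨?_, h4, h5⟩
      rw [h3, List.length_append, List.length_singleton, List.length_cons]
      ring

end tv

end Subdiv

theorem exists_subdivision {B : Type*} (m : B → B → B) (hm : ∀ b, m b b = b)
    {E : Type*} [NormedAddCommGroup E] [NormedSpace ℝ E] (ι : B → E)
    (hι : ∀ x y, ι (m x y) = (2 : ℝ)⁻¹ • (ι x + ι y)) :
    ∃ S : List B → L B, S [] = Finsupp.single [] 1 ∧ (∀ b, S [b] = Finsupp.single [b] 1) ∧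
      (∀ l, d (S l) = lin S (dl l)) ∧
      (∀ g : B → B, (∀ x y, g (m x y) = m (g x) (g y)) →
        ∀ l, S (l.map g) = (S l).mapDomain (List.map g)) ∧
      (∀ l, (S l).sum (fun _ a => |a|) ≤ 2 ^ (l.length - 1)) ∧
      (∀ l, ∀ l' ∈ (S l).support, l'.length = l.length ∧
        (∀ y ∈ l', ∃ a ∈ l, ∃ b ∈ l, y = m a b) ∧ tv (l'.map ι) ≤ tv (l.map ι) / 2) := by
  classical
  refine ⟨Subdiv.S m, rfl, ?_, Subdiv.d_S m, ?_, Subdiv.S_norm m, ?_⟩
  · intro b
    rw [Subdiv.S, Subdiv.U_cons, Subdiv.U_nil, List.nil_append, Subdiv.Sh_cons,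
      Subdiv.Sh_nil_left, Subdiv.Sh_nil_right, smul_zero, add_zero, add_zero, add_zero, hm,
      Subdiv.e, Subdiv.cone_single]
  · intro g hg l
    cases l with
    | nil => simp [Subdiv.S, Finsupp.mapDomain_single]
    | cons x l =>
      have := Subdiv.U_map m g hg (x :: l) []
      exact this
  · intro l l' hl'
    cases l with
    | nil =>
      have hy' := Finsupp.support_single_subset hl'
      rw [Finset.mem_singleton] at hy'
      subst hy'
      refine ⟨rfl, ?_, by simp [tv]⟩
      intro y hy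
      simp at hy
    | cons x l =>
      have := Subdiv.U_supp m ι hι (x :: l) [] l' hl'
      simpa using this

end Pool.SV
end

/- Helper16.LDA.SV.Rank -/
section
/-!
# Second order estimate for alternating forms of a rank deficient map (SV-4)
-/

open Set Finset

namespace Pool.SV

namespace Rank

/-! ### Bound for a multilinear form on `S → ℝ` -/

theorem multilinear_bound {ι S : Type*} [Fintype ι] [Fintype S]
    (f : MultilinearMap ℝ (fun _ : ι => (S → ℝ)) ℝ) :
    ∃ C : ℝ, 0 ≤ C ∧ ∀ m : ι → (S → ℝ), ‖f m‖ ≤ C * ∏ i, ‖m i‖ := by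
  classical
  refine ⟨∑ r : ι → S, ‖f (fun i => Pi.single (r i) (1 : ℝ))‖,
    Finset.sum_nonneg fun _ _ => norm_nonneg _, fun m => ?_⟩
  have h1 : m = fun i => ∑ s : S, (m i s) • (Pi.single s (1 : ℝ) : S → ℝ) := by
    funext i
    funext t
    simp [Finset.sum_apply, Pi.single_apply]
  have h2 : f m = ∑ r : ι → S, (∏ i, m i (r i)) * f (fun i => Pi.single (r i) (1 : ℝ)) := by
    conv_lhs => rw [h1]
    rw [MultilinearMap.map_sum]
    refine Finset.sum_congr rfl fun r _ => ?_
    rw [MultilinearMap.map_smul_univ]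
    rfl
  rw [h2, Finset.sum_mul]
  refine (norm_sum_le _ _).trans (Finset.sum_le_sum fun r _ => ?_)
  rw [norm_mul, norm_prod, mul_comm]
  refine mul_le_mul_of_nonneg_left ?_ (norm_nonneg _)
  exact Finset.prod_le_prod (fun i _ => norm_nonneg _) (fun i _ => norm_le_pi_norm (m i) (r i))

/-! ### Subtracting the first argument of an alternating form -/

theorem alt_sub {V : Type*} [AddCommGroup V] [Module ℝ V] (n : ℕ)
    (Φ : V [⋀^Fin (n + 1)]→ₗ[ℝ] ℝ) (a : V) (y : Fin n → V) :
    Φ (Matrix.vecCons a y) = Φ (Matrix.vecCons a (fun i => y i - a)) := by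
  classical
  have key : ∀ s : Finset (Fin n),
      Φ (Matrix.vecCons a (fun i => if i ∈ s then y i - a else y i)) = Φ (Matrix.vecCons a y) := by
    intro s
    induction s using Finset.induction_on with
    | empty => simp
    | insert i s hi ih =>
      have e1 : (Matrix.vecCons a (fun j => if j ∈ insert i s then y j - a else y j))
          = Function.update (Matrix.vecCons a (fun j => if j ∈ s then y j - a else y j))
              i.succ (y i - a) := by
        funext k
        refine Fin.cases ?_ (fun j => ?_) k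
        · rw [Function.update_of_ne (Fin.succ_ne_zero i).symm]
          simp
        · by_cases hj : j = i
          · subst hj
            simp
          · rw [Function.update_of_ne (by simpa using hj)]
            simp [Finset.mem_insert, hj]
      have e2 : Function.update (Matrix.vecCons a (fun j => if j ∈ s then y j - a else y j))
              i.succ (y i) = Matrix.vecCons a (fun j => if j ∈ s then y j - a else y j) := by
        rw [Function.update_eq_self_iff]
        simp [hi]
      rw [e1, AlternatingMap.map_update_sub, e2, ih]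
      have e3 : Φ (Function.update (Matrix.vecCons a (fun j => if j ∈ s then y j - a else y j))
              i.succ a) = 0 := by
        refine Φ.map_eq_zero_of_eq _ (i := 0) (j := i.succ) ?_ (Fin.succ_ne_zero i).symm
        rw [Function.update_self, Function.update_of_ne (Fin.succ_ne_zero i).symm]
        simp
      rw [e3, sub_zero]
  have := key Finset.univ
  simpa using this.symm

/-! ### Rank -/

theorem not_linInd {E V : Type*} [AddCommGroup E] [Module ℝ E] [FiniteDimensional ℝ E]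
    [AddCommGroup V] [Module ℝ V] (n : ℕ) (hn : Module.finrank ℝ E = n) (D : E →ₗ[ℝ] V)
    (hD : ∃ v : E, v ≠ 0 ∧ D v = 0) (w : Fin n → E) :
    ¬ LinearIndependent ℝ (fun i => D (w i)) := by
  intro hli
  have h1 : LinearIndependent ℝ
      (fun i => (⟨D (w i), LinearMap.mem_range_self D (w i)⟩ : LinearMap.range D)) := by
    apply LinearIndependent.of_comp (LinearMap.range D).subtype
    exact hli
  have h2 := h1.fintype_card_le_finrank
  have h3 := LinearMap.finrank_range_add_finrank_ker D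
  have h4 : 0 < Module.finrank ℝ (LinearMap.ker D) := by
    obtain ⟨v, hv, hDv⟩ := hD
    rw [Module.finrank_pos_iff_exists_ne_zero]
    exact ⟨⟨v, hDv⟩, fun h => hv (congrArg Subtype.val h)⟩
  rw [Fintype.card_fin] at h2
  omega

/-! ### Total variation of a tuple -/

theorem tv_cons_cons {E : Type*} [NormedAddCommGroup E] (a b : E) (l : List E) :
    tv (a :: b :: l) = ‖b - a‖ + tv (b :: l) := rfl

theorem tv_nonneg {E : Type*} [NormedAddCommGroup E] : ∀ l : List E, 0 ≤ tv l
  | [] => le_refl _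
  | [_] => le_refl _
  | a :: b :: l => by
    rw [tv_cons_cons]
    exact add_nonneg (norm_nonneg _) (tv_nonneg (b :: l))

theorem norm_le_tv {E : Type*} [NormedAddCommGroup E] : ∀ (l : List E) (a : E) (b : E),
    b ∈ l → ‖b - a‖ ≤ tv (a :: l)
  | [], _, _, h => by simp at h
  | c :: l, a, b, h => by
    rw [tv_cons_cons]
    rcases List.mem_cons.1 h with rfl | h
    · exact le_add_of_nonneg_right (tv_nonneg _)
    · have h1 := norm_le_tv l c b h
      have h2 : b - a = (c - a) + (b - c) := by abel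
      rw [h2]
      exact (norm_add_le _ _).trans (add_le_add (le_refl _) h1)

/-! ### Taylor estimates on a compact convex set -/

theorem bdd_fderiv {E G : Type*} [NormedAddCommGroup E] [NormedSpace ℝ E]
    [NormedAddCommGroup G] [NormedSpace ℝ G] (K O : Set E)
    (hK : IsCompact K) (hO : IsOpen O) (hKO : K ⊆ O) (g : E → G)
    (hg : ContDiffOn ℝ 1 g O) : ∃ C : ℝ, ∀ x ∈ K, ‖fderiv ℝ g x‖ ≤ C :=
  hK.exists_bound_of_continuousOn ((hg.continuousOn_fderiv_of_isOpen hO le_rfl).mono hKO)

theorem taylor {E F : Type*} [NormedAddCommGroup E] [NormedSpace ℝ E]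
    [NormedAddCommGroup F] [NormedSpace ℝ F] (K O : Set E)
    (hK : IsCompact K) (hKc : Convex ℝ K) (hO : IsOpen O) (hKO : K ⊆ O) (f : E → F)
    (hf : ContDiffOn ℝ 2 f O) :
    ∃ C : ℝ, 0 ≤ C ∧ (∀ x ∈ K, ‖f x‖ ≤ C) ∧ (∀ x ∈ K, ‖fderiv ℝ f x‖ ≤ C) ∧
      (∀ x ∈ K, ∀ y ∈ K, ‖f y - f x‖ ≤ C * ‖y - x‖) ∧
      (∀ x ∈ K, ∀ y ∈ K, ‖f y - f x - fderiv ℝ f x (y - x)‖ ≤ C * ‖y - x‖ * ‖y - x‖) := by
  have hdf : ContDiffOn ℝ 1 (fderiv ℝ f) O :=
    hf.fderiv_of_isOpen hO (by norm_num)
  have hc0 : ContinuousOn f K := hf.continuousOn.mono hKO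
  have hc1 : ContinuousOn (fderiv ℝ f) K := hdf.continuousOn.mono hKO
  obtain ⟨C0, hC0⟩ := hK.exists_bound_of_continuousOn hc0
  obtain ⟨C1, hC1⟩ := hK.exists_bound_of_continuousOn hc1
  obtain ⟨C2, hC2⟩ := bdd_fderiv K O hK hO hKO (fderiv ℝ f) hdf
  have hd0 : ∀ x ∈ K, DifferentiableAt ℝ f x := fun x hx =>
    (hf.differentiableOn (by norm_num)).differentiableAt (hO.mem_nhds (hKO hx))
  have hd1 : ∀ x ∈ K, DifferentiableAt ℝ (fderiv ℝ f) x := fun x hx =>
    (hdf.differentiableOn (by norm_num)).differentiableAt (hO.mem_nhds (hKO hx))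
  set C := max 0 (max C0 (max C1 C2)) with hC
  have l0 : C0 ≤ C := le_max_of_le_right (le_max_left _ _)
  have l1 : C1 ≤ C := le_max_of_le_right (le_max_of_le_right (le_max_left _ _))
  have l2 : C2 ≤ C := le_max_of_le_right (le_max_of_le_right (le_max_right _ _))
  have hlip : ∀ x ∈ K, ∀ y ∈ K, ‖fderiv ℝ f y - fderiv ℝ f x‖ ≤ C * ‖y - x‖ :=
    fun x hx y hy => hKc.norm_image_sub_le_of_norm_fderiv_le hd1
      (fun z hz => (hC2 z hz).trans l2) hx hy
  refine ⟨C, le_max_left _ _, fun x hx => (hC0 x hx).trans l0, fun x hx => (hC1 x hx).trans l1,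
    fun x hx y hy => hKc.norm_image_sub_le_of_norm_fderiv_le hd0
      (fun z hz => (hC1 z hz).trans l1) hx hy, fun x hx y hy => ?_⟩
  have hseg : segment ℝ x y ⊆ K := hKc.segment_subset hx hy
  refine (convex_segment x y).norm_image_sub_le_of_norm_fderiv_le'
    (fun z hz => hd0 z (hseg hz)) (fun z hz => ?_) (left_mem_segment ℝ x y)
    (right_mem_segment ℝ x y)
  refine (hlip x hx z (hseg hz)).trans ?_
  refine mul_le_mul_of_nonneg_left ?_ (le_max_left _ _)
  obtain ⟨a, b, ha, hb, hab, rfl⟩ := hz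
  have e : a • x + b • y - x = b • (y - x) := by
    have : a = 1 - b := by (clear * - hab; linarith)
    subst this
    module
  rw [e, norm_smul, Real.norm_eq_abs, abs_of_nonneg hb]
  have hb1 : b ≤ 1 := by linarith
  exact mul_le_of_le_one_left (norm_nonneg _) hb1

end Rank

open Rank

theorem rank_est {E : Type*} [NormedAddCommGroup E] [NormedSpace ℝ E] [FiniteDimensional ℝ E]
    (n : ℕ) (hn : Module.finrank ℝ E = n) (hn0 : 0 < n) {S : Type*} [Fintype S] (K O : Set E)
    (hK : IsCompact K) (hKc : Convex ℝ K) (hO : IsOpen O) (hKO : K ⊆ O) (ν : E → S → ℝ)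
    (hν : ContDiffOn ℝ 2 ν O) (hrank : ∀ x ∈ K, ∃ v : E, v ≠ 0 ∧ fderiv ℝ ν x v = 0)
    (Φ : (S → ℝ) [⋀^Fin (n + 1)]→ₗ[ℝ] ℝ) :
    ∃ C : ℝ, ∀ x : Fin (n + 1) → E, (∀ i, x i ∈ K) →
      |Φ (fun i => ν (x i))| ≤ C * (tv (List.ofFn x)) ^ (n + 1) := by
  obtain ⟨B, hB, hΦ⟩ := multilinear_bound Φ.toMultilinearMap
  obtain ⟨C, hC, h0, h1, h2, h3⟩ := taylor K O hK hKc hO hKO ν hν
  refine ⟨B * C * n * C ^ (n - 1) * C, fun x hx => ?_⟩
  set t := tv (List.ofFn x) with ht
  have htn : 0 ≤ t := tv_nonneg _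
  set x0 := x 0 with hx0
  set D := fderiv ℝ ν x0 with hD
  set w : Fin n → E := fun i => x i.succ - x0 with hw
  have hwt : ∀ i, ‖w i‖ ≤ t := by
    intro i
    rw [ht, List.ofFn_succ]
    apply norm_le_tv
    rw [List.mem_ofFn]
    exact ⟨i, rfl⟩
  -- reduction to differences
  have e1 : (fun i => ν (x i)) = Matrix.vecCons (ν x0) (fun i : Fin n => ν (x i.succ)) := by
    funext k
    refine Fin.cases ?_ (fun j => ?_) k
    · rfl
    · rfl
  have e2 : Φ (fun i => ν (x i))
      = (AlternatingMap.curryLeft Φ (ν x0)) (fun i : Fin n => ν (x i.succ) - ν x0) := by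
    rw [e1, alt_sub, AlternatingMap.curryLeft_apply_apply]
  have e3 : (AlternatingMap.curryLeft Φ (ν x0)) (fun i : Fin n => D (w i)) = 0 :=
    AlternatingMap.map_linearDependent _ _ (not_linInd n hn D.toLinearMap (hrank x0 (hx 0)) w)
  -- bounds
  have hbd : ∀ m : Fin n → (S → ℝ),
      ‖(AlternatingMap.curryLeft Φ (ν x0)).toMultilinearMap m‖ ≤ (B * C) * ∏ i, ‖m i‖ := by
    intro m
    have := hΦ (Matrix.vecCons (ν x0) m)
    refine this.trans ?_
    rw [Fin.prod_univ_succ]
    simp only [Matrix.cons_val_zero, Matrix.cons_val_succ]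
    rw [← mul_assoc]
    refine mul_le_mul_of_nonneg_right ?_ (Finset.prod_nonneg fun _ _ => norm_nonneg _)
    exact mul_le_mul_of_nonneg_left (h0 x0 (hx 0)) hB
  have key := (AlternatingMap.curryLeft Φ (ν x0)).toMultilinearMap.norm_image_sub_le_of_bound
    (mul_nonneg hB hC) hbd (fun i : Fin n => ν (x i.succ) - ν x0) (fun i : Fin n => D (w i))
  have n1 : ‖(fun i : Fin n => ν (x i.succ) - ν x0)‖ ≤ C * t := by
    rw [pi_norm_le_iff_of_nonneg (mul_nonneg hC htn)]
    intro i
    exact (h2 x0 (hx 0) (x i.succ) (hx _)).trans (mul_le_mul_of_nonneg_left (hwt i) hC)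
  have n2 : ‖(fun i : Fin n => D (w i))‖ ≤ C * t := by
    rw [pi_norm_le_iff_of_nonneg (mul_nonneg hC htn)]
    intro i
    refine (D.le_opNorm (w i)).trans ?_
    exact mul_le_mul (h1 x0 (hx 0)) (hwt i) (norm_nonneg _) hC
  have n3 : ‖(fun i : Fin n => ν (x i.succ) - ν x0) - (fun i : Fin n => D (w i))‖
      ≤ C * t * t := by
    rw [pi_norm_le_iff_of_nonneg (mul_nonneg (mul_nonneg hC htn) htn)]
    intro i
    refine (h3 x0 (hx 0) (x i.succ) (hx _)).trans ?_
    exact mul_le_mul (mul_le_mul_of_nonneg_left (hwt i) hC) (hwt i) (norm_nonneg _)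
      (mul_nonneg hC htn)
  rw [Fintype.card_fin] at key
  have e4 : ‖(AlternatingMap.curryLeft Φ (ν x0)).toMultilinearMap
        (fun i : Fin n => ν (x i.succ) - ν x0)
      - (AlternatingMap.curryLeft Φ (ν x0)).toMultilinearMap (fun i : Fin n => D (w i))‖
      = |Φ (fun i => ν (x i))| := by
    rw [e2, ← Real.norm_eq_abs]
    congr 1
    have : (AlternatingMap.curryLeft Φ (ν x0)).toMultilinearMap (fun i : Fin n => D (w i)) = 0 :=
      e3
    rw [this, sub_zero]
    rfl
  rw [e4] at key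
  refine key.trans ?_
  have m1 : max ‖(fun i : Fin n => ν (x i.succ) - ν x0)‖ ‖(fun i : Fin n => D (w i))‖
      ≤ C * t := max_le n1 n2
  have m0 : 0 ≤ max ‖(fun i : Fin n => ν (x i.succ) - ν x0)‖ ‖(fun i : Fin n => D (w i))‖ :=
    le_max_of_le_left (norm_nonneg _)
  have hn1 : (0 : ℝ) ≤ n := Nat.cast_nonneg n
  calc B * C * n * (max ‖(fun i : Fin n => ν (x i.succ) - ν x0)‖
          ‖(fun i : Fin n => D (w i))‖) ^ (n - 1)
          * ‖(fun i : Fin n => ν (x i.succ) - ν x0) - (fun i : Fin n => D (w i))‖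
      ≤ B * C * n * (C * t) ^ (n - 1) * (C * t * t) := by
        refine mul_le_mul ?_ n3 (norm_nonneg _) ?_
        · exact mul_le_mul_of_nonneg_left (pow_le_pow_left₀ m0 m1 _)
            (mul_nonneg (mul_nonneg hB hC) hn1)
        · exact mul_nonneg (mul_nonneg (mul_nonneg hB hC) hn1)
            (pow_nonneg (mul_nonneg hC htn) _)
    _ = B * C * n * C ^ (n - 1) * C * t ^ (n + 1) := by
        obtain ⟨m, rfl⟩ : ∃ m, n = m + 1 := ⟨n - 1, by omega⟩
        rw [Nat.add_sub_cancel, mul_pow]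
        ring

end Pool.SV
end

/- Helper16.LDA.SV.Log -/
section
open Set Finset

namespace Pool.SV

namespace Log

open Polynomial

section Banach

variable {A : Type*} [NormedRing A] [NormedAlgebra ℝ A] [CompleteSpace A]

theorem exp_add {x y : A} (h : Commute x y) :
    NormedSpace.exp (x + y) = NormedSpace.exp x * NormedSpace.exp y := by
  letI : NormedAlgebra ℚ A := NormedAlgebra.restrictScalars ℚ ℝ A
  exact NormedSpace.exp_add_of_commute h

theorem exp_neg_mul (x : A) : NormedSpace.exp (-x) * NormedSpace.exp x = 1 := by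
  rw [← exp_add ((Commute.refl x).neg_left), neg_add_cancel, NormedSpace.exp_zero]

theorem exp_nilp (z : A) (hz : IsNilpotent z) :
    ∃ q : ℝ[X], NormedSpace.exp z = 1 + z + z ^ 2 * aeval z q := by
  obtain ⟨N, hN⟩ := hz
  refine ⟨∑ n ∈ range N, C (((n + 2).factorial : ℝ)⁻¹) * X ^ n, ?_⟩
  have h1 : NormedSpace.exp z = ∑' n : ℕ, ((n.factorial : ℝ)⁻¹) • z ^ n := by
    rw [NormedSpace.exp_eq_tsum ℝ]
  rw [h1, tsum_eq_sum (s := range (N + 2))]
  · rw [Finset.sum_range_succ', Finset.sum_range_succ']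
    rw [map_sum, Finset.mul_sum]
    have h2 : ∀ n ∈ range N, (((n + 1 + 1).factorial : ℝ)⁻¹) • z ^ (n + 1 + 1) =
        z ^ 2 * aeval z (C (((n + 2).factorial : ℝ)⁻¹) * X ^ n) := by
      intro n _
      rw [map_mul, aeval_C, map_pow, aeval_X, Algebra.smul_def, ← mul_assoc,
        (Algebra.commutes _ (z ^ 2)).symm, mul_assoc, ← pow_add, add_comm 2 n]
    rw [Finset.sum_congr rfl h2]
    simp only [zero_add, Nat.factorial_one, Nat.factorial_zero, Nat.cast_one, inv_one, pow_zero,
      one_smul, pow_one]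
    abel
  · intro n hn
    rw [Finset.mem_range, not_lt] at hn
    rw [pow_eq_zero_of_le (by omega : N ≤ n) hN, smul_zero]

theorem exists_log_step (x : A) (hx : IsNilpotent x) (m : ℕ) :
    ∃ p r : ℝ[X], (1 + x) * NormedSpace.exp (-(x * aeval x p)) = 1 + x ^ (m + 1) * aeval x r := by
  induction m with
  | zero =>
    refine ⟨0, 1, ?_⟩
    rw [map_zero, mul_zero, neg_zero, NormedSpace.exp_zero, mul_one, map_one, mul_one, zero_add,
      pow_one]
  | succ m ih =>
    obtain ⟨p, r, h⟩ := ih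
    set s : ℝ[X] := X ^ (m + 1) * r with hs
    have hsx : aeval x s = x ^ (m + 1) * aeval x r := by
      rw [hs, map_mul, map_pow, aeval_X]
    have hcom : ∀ a b : ℝ[X], Commute (aeval x a) (aeval x b) := by
      intro a b
      show aeval x a * aeval x b = aeval x b * aeval x a
      rw [← map_mul, ← map_mul, mul_comm]
    have hnil : IsNilpotent (aeval x (-s)) := by
      have h1 : aeval x (-s) = x * aeval x (-(X ^ m * r)) := by
        have h2 : -s = X * (-(X ^ m * r)) := by rw [hs]; ring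
        rw [h2, map_mul, aeval_X]
      rw [h1]
      have h3 : Commute x (aeval x (-(X ^ m * r))) := by
        have := hcom X (-(X ^ m * r))
        rwa [aeval_X] at this
      exact h3.isNilpotent_mul_right hx
    obtain ⟨q, hq⟩ := exp_nilp (aeval x (-s)) hnil
    have hqc : aeval (aeval x (-s)) q = aeval x (q.comp (-s)) := by rw [aeval_comp]
    rw [hqc] at hq
    refine ⟨p + X ^ m * r, X ^ m * r ^ 2 * (-1 + (1 + s) * q.comp (-s)), ?_⟩
    have h4 : -(x * aeval x (p + X ^ m * r)) = -(x * aeval x p) + aeval x (-s) := by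
      have h5 : x * aeval x (p + X ^ m * r) = x * aeval x p + aeval x s := by
        rw [map_add, mul_add]
        congr 1
        have h6 : s = X * (X ^ m * r) := by rw [hs]; ring
        rw [h6]
        simp only [map_mul, aeval_X]
      rw [h5, map_neg, neg_add]
    have h7 : Commute (-(x * aeval x p)) (aeval x (-s)) := by
      have := hcom (-(X * p)) (-s)
      rwa [map_neg, map_mul, aeval_X] at this
    rw [h4, exp_add h7, ← mul_assoc, h, hq, ← hsx]
    have h8 : (1 + aeval x s) * (1 + aeval x (-s) + aeval x (-s) ^ 2 * aeval x (q.comp (-s))) =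
        aeval x ((1 + s) * (1 + (-s) + (-s) ^ 2 * q.comp (-s))) := by
      simp only [map_mul, map_add, map_one, map_pow]
    have h9 : (1 : A) + x ^ (m + 1 + 1) *
        aeval x (X ^ m * r ^ 2 * (-1 + (1 + s) * q.comp (-s))) =
        aeval x (1 + X ^ (m + 1 + 1) * (X ^ m * r ^ 2 * (-1 + (1 + s) * q.comp (-s)))) := by
      simp only [map_add, map_mul, map_pow, map_one, aeval_X]
    rw [h8, h9]
    congr 1
    rw [hs]
    ring

/-- a path of units starting at `1` ends in the image of the exponential map -/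
theorem path_exp {B : Type*} [NormedRing B] [NormedAlgebra ℝ B] [CompleteSpace B]
    (hcomm : ∀ x y : B, x * y = y * x) (γ δ : ℝ → B) (hγ : Continuous γ)
    (hδ : ∀ t ∈ Set.Icc (0 : ℝ) 1, γ t * δ t = 1) (h0 : γ 0 = 1) :
    ∃ y, NormedSpace.exp y = γ 1 := by
  have hnhds : Set.range (NormedSpace.exp : B → B) ∈ nhds (1 : B) := by
    have h1 := (hasStrictFDerivAt_exp_zero (𝕂 := ℝ) (𝔸 := B))
    have h2 : HasStrictFDerivAt (NormedSpace.exp : B → B)
        ((ContinuousLinearEquiv.refl ℝ B : B ≃L[ℝ] B) : B →L[ℝ] B) 0 := h1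
    have h3 := h2.map_nhds_eq_of_equiv
    rw [NormedSpace.exp_zero] at h3
    rw [← h3]
    exact Filter.mem_map.2 (Filter.mem_of_superset Filter.univ_mem (fun x _ => ⟨x, rfl⟩))
  let f : Set.Icc (0 : ℝ) 1 → Prop := fun t => γ t ∈ Set.range (NormedSpace.exp : B → B)
  have hloc : IsLocallyConstant f := by
    rw [IsLocallyConstant.iff_eventually_eq]
    intro t₀
    have hc : Continuous (fun t : Set.Icc (0 : ℝ) 1 => γ t * δ t₀) :=
      (hγ.comp continuous_subtype_val).mul continuous_const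
    have hev : ∀ᶠ t : Set.Icc (0 : ℝ) 1 in nhds t₀,
        γ t * δ t₀ ∈ Set.range (NormedSpace.exp : B → B) := by
      apply hc.continuousAt
      show _ ∈ nhds (γ t₀ * δ t₀)
      rw [hδ t₀ t₀.2]
      exact hnhds
    filter_upwards [hev] with t ht
    obtain ⟨y, hy⟩ := ht
    have h1 : γ t = NormedSpace.exp y * γ t₀ := by
      rw [hy, mul_assoc, hcomm (δ t₀) (γ t₀), hδ t₀ t₀.2, mul_one]
    apply propext
    constructor
    · rintro ⟨z, hz⟩
      refine ⟨-y + z, ?_⟩
      rw [exp_add (hcomm _ _), hz, h1, ← mul_assoc, exp_neg_mul, one_mul]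
    · rintro ⟨z, hz⟩
      refine ⟨y + z, ?_⟩
      rw [exp_add (hcomm _ _), hz, h1]
  have h1 : f ⟨1, by norm_num, le_refl _⟩ = f ⟨0, le_refl _, by norm_num⟩ :=
    hloc.apply_eq_of_preconnectedSpace _ _
  have h2 : f ⟨0, le_refl _, by norm_num⟩ := ⟨0, by rw [NormedSpace.exp_zero, h0]⟩
  rw [← h1] at h2
  exact h2

end Banach

/-- the quadratic polynomials of the path -/
noncomputable def qp (u v : ℝ) : ℝ[X] :=
  1 + C (2 * u) * (X - 1) + C (u ^ 2 + v ^ 2) * (X - 1) ^ 2

theorem qp_aeval (u v : ℝ) (z : ℂ) : aeval z (qp u v) =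
    (1 + (u + v * Complex.I) * (z - 1)) * (1 + (u - v * Complex.I) * (z - 1)) := by
  unfold qp
  simp only [map_add, map_mul, map_one, map_pow, map_sub, aeval_X, aeval_C]
  simp only [Complex.coe_algebraMap]
  push_cast
  have h : Complex.I ^ 2 = -1 := Complex.I_sq
  linear_combination ((v : ℂ) ^ 2 * (z - 1) ^ 2) * h

/-- choice of the path -/
theorem exists_path (P : ℝ[X]) (hP : P ≠ 0) (hP0 : P.eval 0 ≠ 0) :
    ∃ h : ℝ, ∀ t ∈ Set.Icc (0 : ℝ) 1, IsCoprime (qp t (h * (t * (1 - t)))) P := by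
  -- the bad values of `h`
  set Rt : Finset ℂ := (P.map (algebraMap ℝ ℂ)).roots.toFinset with hRt
  set bad : Finset ℝ :=
    (Rt.image (fun z => (-(z - 1)⁻¹).im / ((-(z - 1)⁻¹).re * (1 - (-(z - 1)⁻¹).re)))) ∪
    (Rt.image (fun z => -((-(z - 1)⁻¹).im / ((-(z - 1)⁻¹).re * (1 - (-(z - 1)⁻¹).re))))) with hbad
  obtain ⟨h, hh⟩ := Infinite.exists_notMem_finset bad
  refine ⟨h, fun t ht => ?_⟩
  refine (Polynomial.isCoprime_iff_aeval_ne_zero_of_isAlgClosed (k := ℝ) ℂ _ _).2 ?_
  intro z
  by_contra hcon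
  push Not at hcon
  obtain ⟨h1, h2⟩ := hcon
  have hzR : z ∈ Rt := by
    rw [hRt, Multiset.mem_toFinset, mem_roots (map_ne_zero hP), IsRoot.def, eval_map_algebraMap]
    exact h2
  have hz0 : z ≠ 0 := by
    rintro rfl
    apply hP0
    have h3 : aeval (0 : ℂ) P = algebraMap ℝ ℂ (P.eval 0) := by
      rw [← map_zero (algebraMap ℝ ℂ), aeval_algebraMap_apply_eq_algebraMap_eval]
    rw [h3] at h2
    exact (map_eq_zero _).1 h2
  rw [qp_aeval] at h1
  set v : ℝ := h * (t * (1 - t)) with hv
  -- reduce to `c = -(z-1)⁻¹`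
  have hkey : ∀ c : ℂ, 1 + c * (z - 1) = 0 → c.re = t → (c.im = v ∨ c.im = -v) → False := by
    intro c hc hre him
    have hz1 : z - 1 ≠ 0 := by
      intro h3
      rw [h3, mul_zero, add_zero] at hc
      exact one_ne_zero hc
    have hc2 : c = -(z - 1)⁻¹ := by
      rw [eq_neg_iff_add_eq_zero]
      have h4 : (c + (z - 1)⁻¹) * (z - 1) = 0 := by
        rw [add_mul, inv_mul_cancel₀ hz1, add_comm]
        exact hc
      exact (mul_eq_zero.1 h4).resolve_right hz1
    have ht0 : t ≠ 0 := by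
      intro h3
      have hv0 : v = 0 := by rw [hv, h3]; ring
      rw [hv0] at him
      have hc0 : c = 0 := by
        apply Complex.ext
        · rw [hre, h3]; rfl
        · rcases him with h4 | h4 <;> rw [h4] <;> simp
      rw [hc0, zero_mul, add_zero] at hc
      exact one_ne_zero hc
    have ht1 : 1 - t ≠ 0 := by
      intro h3
      have hv0 : v = 0 := by rw [hv, h3]; ring
      rw [hv0] at him
      have hc1 : c = 1 := by
        apply Complex.ext
        · rw [hre]; simp; linarith only [h3]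
        · rcases him with h4 | h4 <;> rw [h4] <;> simp
      rw [hc1, one_mul] at hc
      apply hz0
      have : (1 : ℂ) + (z - 1) = z := by ring
      rwa [this] at hc
    apply hh
    rw [hbad, Finset.mem_union, Finset.mem_image, Finset.mem_image]
    rcases him with h4 | h4
    · left
      refine ⟨z, hzR, ?_⟩
      rw [← hc2, hre, h4, hv]
      (clear * - ht0 ht1; field_simp)
    · right
      refine ⟨z, hzR, ?_⟩
      rw [← hc2, hre, h4, hv]
      (clear * - ht0 ht1; field_simp)
  rcases mul_eq_zero.1 h1 with h3 | h3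
  · exact hkey _ h3 (by simp) (Or.inl (by simp))
  · exact hkey _ h3 (by simp) (Or.inr (by simp))

end Log

theorem exists_log {A : Type*} [NormedRing A] [NormedAlgebra ℝ A] [CompleteSpace A] (x : A)
    (hx : IsNilpotent x) :
    ∃ y : A, IsNilpotent y ∧ NormedSpace.exp y = 1 + x ∧ y ∈ Algebra.adjoin ℝ {x} := by
  obtain ⟨N, hN⟩ := hx
  obtain ⟨p, r, h⟩ := Log.exists_log_step x ⟨N, hN⟩ N
  have h0 : x ^ (N + 1) = 0 := pow_eq_zero_of_le (by omega) hN
  rw [h0, zero_mul, add_zero] at h
  have hcom : Commute x (Polynomial.aeval x p) := by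
    show x * Polynomial.aeval x p = Polynomial.aeval x p * x
    have h1 : x * Polynomial.aeval x p = Polynomial.aeval x (Polynomial.X * p) := by
      rw [map_mul, Polynomial.aeval_X]
    have h2 : Polynomial.aeval x p * x = Polynomial.aeval x (p * Polynomial.X) := by
      rw [map_mul, Polynomial.aeval_X]
    rw [h1, h2, mul_comm]
  refine ⟨x * Polynomial.aeval x p, hcom.isNilpotent_mul_right ⟨N, hN⟩, ?_, ?_⟩
  · have h1 := Log.exp_neg_mul (x * Polynomial.aeval x p)
    calc NormedSpace.exp (x * Polynomial.aeval x p) =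
          ((1 + x) * NormedSpace.exp (-(x * Polynomial.aeval x p))) *
            NormedSpace.exp (x * Polynomial.aeval x p) := by rw [h, one_mul]
      _ = 1 + x := by rw [mul_assoc, h1, mul_one]
  · have h1 : x * Polynomial.aeval x p = Polynomial.aeval x (Polynomial.X * p) := by
      rw [map_mul, Polynomial.aeval_X]
    rw [h1]
    exact Polynomial.aeval_mem_adjoin_singleton ℝ x

theorem exp_inj_nilpotent {A : Type*} [NormedRing A] [NormedAlgebra ℝ A] [CompleteSpace A]
    (x y : A) (hx : IsNilpotent x) (hy : IsNilpotent y) (hxy : Commute x y)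
    (h : NormedSpace.exp x = NormedSpace.exp y) : x = y := by
  have hz : IsNilpotent (x - y) := hxy.isNilpotent_sub hx hy
  have h1 : NormedSpace.exp (x - y) = 1 := by
    have h2 : x - y = -y + x := by abel
    rw [h2, Log.exp_add (hxy.symm.neg_left), h, Log.exp_neg_mul]
  obtain ⟨q, hq⟩ := Log.exp_nilp (x - y) hz
  rw [h1] at hq
  set z := x - y with hzdef
  have hcom : Commute z (Polynomial.aeval z q) := by
    show z * Polynomial.aeval z q = Polynomial.aeval z q * z
    have h1 : z * Polynomial.aeval z q = Polynomial.aeval z (Polynomial.X * q) := by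
      rw [map_mul, Polynomial.aeval_X]
    have h2 : Polynomial.aeval z q * z = Polynomial.aeval z (q * Polynomial.X) := by
      rw [map_mul, Polynomial.aeval_X]
    rw [h1, h2, mul_comm]
  have h2 : z * (1 + z * Polynomial.aeval z q) = 0 := by
    have h3 : z + z ^ 2 * Polynomial.aeval z q = 0 := by
      have h4 : (1 : A) + (z + z ^ 2 * Polynomial.aeval z q) = 1 + 0 := by
        rw [add_zero, ← add_assoc]; exact hq.symm
      exact add_left_cancel h4
    rw [mul_add, mul_one, ← mul_assoc, ← sq]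
    exact h3
  have h3 : IsUnit (1 + z * Polynomial.aeval z q) :=
    (hcom.isNilpotent_mul_right hz).isUnit_one_add
  have h4 : z = 0 := by
    obtain ⟨u, hu⟩ := h3
    rw [← hu] at h2
    have h5 : z = z * u * (u⁻¹ : Aˣ) := by rw [mul_assoc, Units.mul_inv, mul_one]
    rw [h5, h2, zero_mul]
  rw [hzdef] at h4
  exact sub_eq_zero.1 h4

theorem exists_log_sq {A : Type*} [NormedRing A] [NormedAlgebra ℝ A] [FiniteDimensional ℝ A]
    (a : A) (ha : IsUnit a) : ∃ y ∈ Algebra.adjoin ℝ {a}, NormedSpace.exp y = a * a := by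
  haveI : CompleteSpace A := FiniteDimensional.complete ℝ A
  have hint : IsIntegral ℝ a := IsIntegral.of_finite ℝ a
  set P := minpoly ℝ a with hP
  have hPne : P ≠ 0 := minpoly.ne_zero hint
  have hP0 : P.eval 0 ≠ 0 := by
    intro h0
    have hdvd : Polynomial.X ∣ P := by
      rw [Polynomial.X_dvd_iff, Polynomial.coeff_zero_eq_eval_zero]
      exact h0
    obtain ⟨Q, hQ⟩ := hdvd
    have hQne : Q ≠ 0 := by
      rintro rfl
      rw [mul_zero] at hQ
      exact hPne hQ
    have h1 : a * Polynomial.aeval a Q = 0 := by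
      have h2 := minpoly.aeval ℝ a
      rw [← hP, hQ, map_mul, Polynomial.aeval_X] at h2
      exact h2
    have h3 : Polynomial.aeval a Q = 0 := (ha.mul_right_eq_zero).1 h1
    have h4 := minpoly.degree_le_of_ne_zero ℝ a hQne h3
    rw [← hP, hQ, Polynomial.degree_mul, Polynomial.degree_X] at h4
    have h5 : (Q.degree : WithBot ℕ) = Q.natDegree := Polynomial.degree_eq_natDegree hQne
    rw [h5] at h4
    have h6 : ((1 + Q.natDegree : ℕ) : WithBot ℕ) ≤ (Q.natDegree : WithBot ℕ) := by
      push_cast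
      exact h4
    have h7 : 1 + Q.natDegree ≤ Q.natDegree := by exact_mod_cast h6
    omega
  obtain ⟨h, hpath⟩ := Log.exists_path P hPne hP0
  let R := Algebra.adjoin ℝ ({a} : Set A)
  let a' : R := ⟨a, Algebra.self_mem_adjoin_singleton ℝ a⟩
  haveI : FiniteDimensional ℝ R := FiniteDimensional.finiteDimensional_subalgebra R
  haveI : CompleteSpace R := FiniteDimensional.complete ℝ R
  have hcoe : ∀ p : Polynomial ℝ, ((Polynomial.aeval a' p : R) : A) = Polynomial.aeval a p := by
    intro p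
    have := Polynomial.aeval_algHom_apply R.val a' p
    exact this.symm
  have hcomm : ∀ x y : R, x * y = y * x := by
    intro x y
    have hx : (x : A) ∈ Algebra.adjoin ℝ ({a} : Set A) := x.2
    have hy : (y : A) ∈ Algebra.adjoin ℝ ({a} : Set A) := y.2
    rw [Algebra.adjoin_singleton_eq_range_aeval] at hx hy
    obtain ⟨p, hp⟩ := hx
    obtain ⟨q, hq⟩ := hy
    apply Subtype.ext
    show (x : A) * y = y * x
    rw [← hp, ← hq]
    show Polynomial.aeval a p * Polynomial.aeval a q = Polynomial.aeval a q * Polynomial.aeval a p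
    rw [← map_mul, ← map_mul, mul_comm]
  have hPa : Polynomial.aeval a' P = 0 := by
    apply Subtype.ext
    rw [hcoe]
    exact minpoly.aeval ℝ a
  choose! U V hUV using hpath
  obtain ⟨y, hy⟩ := Log.path_exp hcomm
    (fun t => Polynomial.aeval a' (Log.qp t (h * (t * (1 - t)))))
    (fun t => Polynomial.aeval a' (U t)) (by
      unfold Log.qp
      simp only [map_add, map_mul, map_one, map_pow, map_sub, Polynomial.aeval_X,
        Polynomial.aeval_C]
      have hal : Continuous (algebraMap ℝ R) := continuous_algebraMap ℝ R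
      fun_prop) (by
      intro t ht
      rw [← map_mul, mul_comm]
      have h1 := congrArg (Polynomial.aeval a') (hUV t ht)
      rw [map_add, map_mul _ (V t), hPa, mul_zero, add_zero, map_one] at h1
      exact h1) (by
      simp [Log.qp])
  refine ⟨(y : A), y.2, ?_⟩
  have h1 : ((NormedSpace.exp y : R) : A) = NormedSpace.exp (y : A) := by
    letI : NormedAlgebra ℚ A := NormedAlgebra.restrictScalars ℚ ℝ A
    letI : NormedAlgebra ℚ R := NormedAlgebra.restrictScalars ℚ ℝ R
    exact NormedSpace.map_exp R.val continuous_subtype_val y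
  rw [← h1, hy, hcoe]
  simp only [Log.qp, map_add, map_mul, map_one, map_pow, map_sub, Polynomial.aeval_X,
    Polynomial.aeval_C]
  norm_num
  have h2 : (1 : A) + 2 * (a - 1) + (a - 1) ^ 2 = a * a := by
    have h3 : (2 : A) = 1 + 1 := by norm_num
    rw [h3]
    noncomm_ring
  have h4 : algebraMap ℝ A 2 = 2 := map_ofNat _ 2
  rw [h4]
  exact h2

end Pool.SV
end

/- Helper16.LDA.SV.Hull -/
section
/-!
Project SV, module SV-10 Hull (written by helper76): a unipotent abelian normal subgroup is a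
lattice of a vector group.
-/

open Set Finset

namespace Pool.SV

namespace Hull

section

variable {E : Type*} [NormedAddCommGroup E] [NormedSpace ℝ E]

theorem height_adjoin {x y : Alg E} (hx : ∀ v, (x v).2 = 0) (hy : y ∈ Algebra.adjoin ℝ {x}) :
    ∃ c : ℝ, ∀ v, (y v).2 = c * v.2 := by
  induction hy using Algebra.adjoin_induction with
  | mem z hz =>
    rw [Set.mem_singleton_iff] at hz
    subst hz
    exact ⟨0, fun v => by rw [hx, zero_mul]⟩
  | algebraMap r =>
    refine ⟨r, fun v => ?_⟩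
    rw [Algebra.algebraMap_eq_smul_one, smul_apply, Prod.smul_snd, smul_eq_mul]
    rfl
  | add y z _ _ hy hz =>
    obtain ⟨c, hc⟩ := hy
    obtain ⟨c', hc'⟩ := hz
    refine ⟨c + c', fun v => ?_⟩
    rw [add_apply, Prod.snd_add, hc, hc', add_mul]
  | mul y z _ _ hy hz =>
    obtain ⟨c, hc⟩ := hy
    obtain ⟨c', hc'⟩ := hz
    refine ⟨c * c', fun v => ?_⟩
    rw [mul_apply_eq_comp, hc, hc', mul_assoc]

theorem isGen_of_nilpotent {y : Alg E} (hy : IsNilpotent y) {c : ℝ} (hc : ∀ v, (y v).2 = c * v.2) :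
    ∀ v, (y v).2 = 0 := by
  have hpow : ∀ (n : ℕ) (v : E × ℝ), ((y ^ n) v).2 = c ^ n * v.2 := by
    intro n
    induction n with
    | zero => intro v; simp
    | succ n ih =>
      intro v
      rw [pow_succ, mul_apply_eq_comp, ih, hc, pow_succ, mul_assoc]
  obtain ⟨n, hn⟩ := hy
  have h1 := hpow n (0, 1)
  rw [hn] at h1
  simp only [mul_one] at h1
  have h2 : c = 0 := by
    by_contra h
    exact (pow_ne_zero n h) h1.symm
  intro v
  rw [hc, h2, zero_mul]

end

variable {E : Type*} [NormedAddCommGroup E] [NormedSpace ℝ E] [FiniteDimensional ℝ E]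

theorem continuous_act_exp (x : E) :
    Continuous (fun T : Alg E => act (NormedSpace.exp T) x) := by
  have h1 : Continuous (fun T : Alg E => NormedSpace.exp T) := NormedSpace.exp_continuous
  have h2 : Continuous (fun U : Alg E => act U x) := by
    unfold act
    fun_prop
  exact h2.comp h1

theorem exp_conj_hat {Γ : Subgroup (E ≃ᵃ[ℝ] E)} (γ : Γ) (y : Alg E) :
    NormedSpace.exp (hat γ.1 * y * hat (γ⁻¹ : Γ).1) =
      hat γ.1 * NormedSpace.exp y * hat (γ⁻¹ : Γ).1 := by
  have hhg1 : hat γ.1 * hat (γ⁻¹ : Γ).1 = 1 := hat_mul_inv γ.1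
  have hhg2 : hat (γ⁻¹ : Γ).1 * hat γ.1 = 1 := hat_inv_mul γ.1
  exact NormedSpace.exp_units_conj ⟨hat γ.1, hat (γ⁻¹ : Γ).1, hhg1, hhg2⟩ y

theorem nilp_conj_hat {Γ : Subgroup (E ≃ᵃ[ℝ] E)} (γ : Γ) {y : Alg E} (hy : IsNilpotent y) :
    IsNilpotent (hat γ.1 * y * hat (γ⁻¹ : Γ).1) := by
  have hhg1 : hat γ.1 * hat (γ⁻¹ : Γ).1 = 1 := hat_mul_inv γ.1
  have hhg2 : hat (γ⁻¹ : Γ).1 * hat γ.1 = 1 := hat_inv_mul γ.1
  obtain ⟨n, hn⟩ := hy
  refine ⟨n, ?_⟩
  have h1 := Units.conj_pow ⟨hat γ.1, hat (γ⁻¹ : Γ).1, hhg1, hhg2⟩ y n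
  change (hat γ.1 * y * hat (γ⁻¹ : Γ).1) ^ n = hat γ.1 * y ^ n * hat (γ⁻¹ : Γ).1 at h1
  rw [h1, hn, mul_zero, zero_mul]

theorem commute_conj_hat {Γ : Subgroup (E ≃ᵃ[ℝ] E)} (γ : Γ) {y z : Alg E} (hy : Commute y z) :
    Commute (hat γ.1 * y * hat (γ⁻¹ : Γ).1) (hat γ.1 * z * hat (γ⁻¹ : Γ).1) := by
  have hhg2 : hat (γ⁻¹ : Γ).1 * hat γ.1 = 1 := hat_inv_mul γ.1
  have key : ∀ p q : Alg E, (hat γ.1 * p * hat (γ⁻¹ : Γ).1) * (hat γ.1 * q * hat (γ⁻¹ : Γ).1) =
      hat γ.1 * (p * q) * hat (γ⁻¹ : Γ).1 := by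
    intro p q
    calc (hat γ.1 * p * hat (γ⁻¹ : Γ).1) * (hat γ.1 * q * hat (γ⁻¹ : Γ).1)
        = hat γ.1 * p * (hat (γ⁻¹ : Γ).1 * hat γ.1) * q * hat (γ⁻¹ : Γ).1 := by
          simp only [mul_assoc]
      _ = hat γ.1 * (p * q) * hat (γ⁻¹ : Γ).1 := by
          rw [hhg2, mul_one]; simp only [mul_assoc]
  change _ * _ = _ * _
  rw [key, key, hy.eq]

/-- a subgroup of the domain's group whose logarithms are given additively is discrete -/
theorem discrete_of_log (D : Geo E) (N : Subgroup D.Γ) (Y : N → Alg E)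
    (hYe : ∀ a, NormedSpace.exp (Y a) = hat a.1.1) (Λ : Submodule ℤ (Alg E))
    (hΛ : ∀ z, z ∈ Λ ↔ ∃ a : N, Y a = z) : DiscreteTopology Λ := by
  obtain ⟨x, hx⟩ := D.nonempty
  have hprop : ProperSpace E := FiniteDimensional.proper_real E
  obtain ⟨K, hK, hxK, hKX⟩ := exists_compact_subset D.isOpen hx
  have hF := D.pd K hKX hK
  let W : Set (Alg E) := {T | act (NormedSpace.exp T) x ∈ interior K}
  have hWo : IsOpen W := isOpen_interior.preimage (continuous_act_exp x)
  have h0W : (0 : Alg E) ∈ W := by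
    change act (NormedSpace.exp 0) x ∈ interior K
    rw [NormedSpace.exp_zero, act_one]
    exact hxK
  have hfin1 : {a : N | Y a ∈ W}.Finite := by
    have hinj : Function.Injective (fun a : N => (a.1.1 : E ≃ᵃ[ℝ] E)) := fun a b h =>
      Subtype.ext (Subtype.ext h)
    refine (hF.preimage hinj.injOn).subset ?_
    intro a ha
    refine ⟨a.1.2, x, interior_subset hxK, ?_⟩
    have h1 : act (NormedSpace.exp (Y a)) x ∈ interior K := ha
    rw [hYe, act_hat] at h1
    exact interior_subset h1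
  have hfin2 : (Y '' {a : N | Y a ∈ W} \ {0}).Finite := (hfin1.image Y).sdiff
  apply discreteTopology_of_isOpen_singleton_zero
  rw [isOpen_induced_iff]
  refine ⟨W \ (Y '' {a : N | Y a ∈ W} \ {0}), hWo.sdiff hfin2.isClosed, ?_⟩
  ext ⟨z, hz⟩
  simp only [Set.mem_preimage, Set.mem_sdiff, Set.mem_singleton_iff]
  constructor
  · rintro ⟨h1, h2⟩
    obtain ⟨a, rfl⟩ := (hΛ z).1 hz
    by_contra h3
    apply h2
    exact ⟨⟨a, h1, rfl⟩, fun h4 => h3 (Subtype.ext h4)⟩
  · intro h1
    have h2 : z = 0 := congrArg Subtype.val h1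
    subst h2
    exact ⟨h0W, fun h3 => h3.2 rfl⟩

end Hull

open Hull

variable {E : Type*} [NormedAddCommGroup E] [NormedSpace ℝ E] [FiniteDimensional ℝ E]

theorem exists_hull (D : Geo E) (N : Subgroup D.Γ) [N.Normal]
    (hab : ∀ a ∈ N, ∀ b ∈ N, a * b = b * a) (hne : N ≠ ⊥)
    (hu : ∀ a ∈ N, IsNilpotent (hat a.1 - 1)) :
    ∃ (k : ℕ) (T : Fin k → Alg E) (j : (Fin k → ℤ) → D.Γ), 0 < k ∧
      (∀ i i', Commute (T i) (T i')) ∧ (∀ i, IsNilpotent (T i)) ∧ (∀ i v, (T i v).2 = 0) ∧
      (∀ a b, j (a + b) = j a * j b) ∧ Function.Injective j ∧ (∀ g, g ∈ N ↔ ∃ m, j m = g) ∧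
      (∀ m, hat (j m).1 = NormedSpace.exp (∑ i, (m i : ℝ) • T i)) ∧
      (∀ (g : D.Γ) (i : Fin k), hat g.1 * T i * hat (g⁻¹ : D.Γ).1 ∈
        Submodule.span ℝ (Set.range T)) := by
  classical
  have hlog : ∀ a : N, ∃ y : Alg E, IsNilpotent y ∧ NormedSpace.exp y = hat a.1.1 ∧
      y ∈ Algebra.adjoin ℝ {hat a.1.1 - 1} := by
    intro a
    obtain ⟨y, h1, h2, h3⟩ := exists_log (hat a.1.1 - 1) (hu a.1 a.2)
    exact ⟨y, h1, by rw [h2]; abel, h3⟩
  choose Y hYn hYe hYa using hlog
  have hhat : ∀ a b : D.Γ, hat (a * b).1 = hat a.1 * hat b.1 := fun a b => by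
    rw [← hat_mul]; rfl
  have hcommhat : ∀ a b : N, Commute (hat a.1.1) (hat b.1.1) := by
    intro a b
    change hat a.1.1 * hat b.1.1 = hat b.1.1 * hat a.1.1
    rw [← hhat, ← hhat, hab a.1 a.2 b.1 b.2]
  -- anything commuting with `hat a` commutes with `Y a`
  have hcY : ∀ (z : Alg E) (a : N), Commute z (hat a.1.1) → Commute z (Y a) := by
    intro z a hz
    exact Algebra.commute_of_mem_adjoin_singleton_of_commute (hYa a)
      (hz.sub_right (Commute.one_right z))
  have hcomm : ∀ a b : N, Commute (Y a) (Y b) := by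
    intro a b
    apply hcY
    exact (hcY _ a (hcommhat b a)).symm
  have hadd : ∀ a b : N, Y (a * b) = Y a + Y b := by
    intro a b
    apply exp_inj_nilpotent
    · exact hYn _
    · exact (hcomm a b).isNilpotent_add (hYn a) (hYn b)
    · exact (hcomm _ _).add_right (hcomm _ _)
    · rw [NormedSpace.exp_add_of_commute (hcomm a b), hYe, hYe, hYe, ← hhat]
      rfl
  have hYinj : Function.Injective Y := by
    intro a b h
    have h1 : hat a.1.1 = hat b.1.1 := by rw [← hYe, ← hYe, h]
    exact Subtype.ext (Subtype.ext (hat_injective h1))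
  have hYgen : ∀ a v, (Y a v).2 = 0 := by
    intro a
    obtain ⟨c, hc⟩ := height_adjoin (x := hat a.1.1 - 1) (fun v => by
      rw [sub_apply, Prod.snd_sub, isAff_hat]
      exact sub_self _) (hYa a)
    exact isGen_of_nilpotent (hYn a) hc
  -- the lattice
  let f : Additive N →+ Alg E :=
    { toFun := fun a => Y a.toMul
      map_zero' := by
        have h1 := hadd 1 1
        rw [mul_one] at h1
        have h2 : Y 1 = 0 := by
          have h3 : Y 1 + Y 1 = Y 1 + 0 := by rw [← h1, add_zero]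
          exact add_left_cancel h3
        exact h2
      map_add' := fun a b => hadd _ _ }
  have hf : ∀ a : N, f (Additive.ofMul a) = Y a := fun a => rfl
  let Λ : Submodule ℤ (Alg E) := AddSubgroup.toIntSubmodule f.range
  have hΛ : ∀ z, z ∈ Λ ↔ ∃ a : N, Y a = z := by
    intro z
    constructor
    · rintro ⟨a, ha⟩
      exact ⟨a.toMul, ha⟩
    · rintro ⟨a, ha⟩
      exact ⟨Additive.ofMul a, ha⟩
  -- discreteness
  have hdisc : DiscreteTopology Λ := discrete_of_log D N Y hYe Λ hΛ
  let bs := Module.finBasis ℤ Λ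
  have hg : ∀ z : Λ, ∃ a : N, Y a = z.1 := fun z => (hΛ z.1).1 z.2
  choose g hYg using hg
  let z : (Fin (Module.finrank ℤ Λ) → ℤ) → Λ := fun m => bs.equivFun.symm m
  have hzadd : ∀ a b, z (a + b) = z a + z b := fun a b => map_add _ _ _
  have hzinj : Function.Injective z := bs.equivFun.symm.injective
  have hz : ∀ m, (z m : Alg E) = ∑ i, (m i : ℝ) • (bs i : Alg E) := by
    intro m
    change ((bs.equivFun.symm m : Λ) : Alg E) = _
    rw [Module.Basis.equivFun_symm_apply, Submodule.coe_sum]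
    apply Finset.sum_congr rfl
    intro i _
    rw [Submodule.coe_smul_of_tower]
    exact (Int.cast_smul_eq_zsmul ℝ (m i) (bs i : Alg E)).symm
  refine ⟨Module.finrank ℤ Λ, fun i => (bs i : Alg E), fun m => (g (z m)).1, ?_, ?_, ?_, ?_, ?_,
    ?_, ?_, ?_, ?_⟩
  · by_contra h0
    have h1 : Module.finrank ℤ Λ = 0 := by omega
    apply hne
    rw [Subgroup.eq_bot_iff_forall]
    intro a ha
    have hemp : IsEmpty (Fin (Module.finrank ℤ Λ)) := by rw [h1]; infer_instance
    have hsub : Subsingleton Λ := bs.equivFun.toEquiv.subsingleton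
    have h2 : (⟨Y ⟨a, ha⟩, (hΛ _).2 ⟨_, rfl⟩⟩ : Λ) = ⟨Y 1, (hΛ _).2 ⟨_, rfl⟩⟩ :=
      Subsingleton.elim _ _
    have h3 := hYinj (congrArg Subtype.val h2)
    exact congrArg Subtype.val h3
  · intro i i'
    have h1 := hcomm (g (bs i)) (g (bs i'))
    rwa [hYg, hYg] at h1
  · intro i
    have h1 := hYn (g (bs i))
    rwa [hYg] at h1
  · intro i v
    have h1 := hYgen (g (bs i)) v
    rwa [hYg] at h1
  · intro a b
    have h1 : g (z (a + b)) = g (z a) * g (z b) := by
      apply hYinj
      rw [hadd, hYg, hYg, hYg, hzadd]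
      rfl
    change (g (z (a + b))).1 = (g (z a)).1 * (g (z b)).1
    rw [h1]
    rfl
  · intro a b h
    apply hzinj
    have h1 : g (z a) = g (z b) := Subtype.ext h
    apply Subtype.ext
    rw [← hYg, ← hYg, h1]
  · intro a
    constructor
    · intro ha
      refine ⟨bs.equivFun ⟨Y ⟨a, ha⟩, (hΛ _).2 ⟨_, rfl⟩⟩, ?_⟩
      have h1 : z (bs.equivFun ⟨Y ⟨a, ha⟩, (hΛ _).2 ⟨_, rfl⟩⟩) = ⟨Y ⟨a, ha⟩, (hΛ _).2 ⟨_, rfl⟩⟩ :=
        bs.equivFun.symm_apply_apply _
      have h2 : g (z (bs.equivFun ⟨Y ⟨a, ha⟩, (hΛ _).2 ⟨_, rfl⟩⟩)) = ⟨a, ha⟩ := by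
        apply hYinj
        rw [hYg, h1]
      exact congrArg Subtype.val h2
    · rintro ⟨m, rfl⟩
      exact (g (z m)).2
  · intro m
    rw [← hYe, hYg, hz]
  · intro γ i
    have hb : γ * (g (bs i)).1 * γ⁻¹ ∈ N := Subgroup.Normal.conj_mem inferInstance _ (g (bs i)).2 γ
    have hexpb : NormedSpace.exp (hat γ.1 * Y (g (bs i)) * hat (γ⁻¹ : D.Γ).1) =
        hat (γ * (g (bs i)).1 * γ⁻¹).1 := by
      rw [exp_conj_hat, hYe, hhat, hhat]
    have hnil := nilp_conj_hat γ (hYn (g (bs i)))
    have hcm : Commute (hat γ.1 * Y (g (bs i)) * hat (γ⁻¹ : D.Γ).1)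
        (hat (γ * (g (bs i)).1 * γ⁻¹).1) := by
      rw [hhat, hhat]
      exact commute_conj_hat γ (hcY _ _ (Commute.refl _)).symm
    have heq : hat γ.1 * Y (g (bs i)) * hat (γ⁻¹ : D.Γ).1 =
        Y ⟨γ * (g (bs i)).1 * γ⁻¹, hb⟩ := by
      apply exp_inj_nilpotent _ _ hnil (hYn _)
      · exact hcY _ _ hcm
      · rw [hexpb, hYe]
    have hmem : hat γ.1 * Y (g (bs i)) * hat (γ⁻¹ : D.Γ).1 ∈ Λ := by
      rw [heq]
      exact (hΛ _).2 ⟨_, rfl⟩
    have hYi : Y (g (bs i)) = (bs i : Alg E) := hYg _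
    rw [hYi] at hmem
    have hspan : ∀ w : Λ, (w : Alg E) ∈
        Submodule.span ℝ (Set.range fun i => (bs i : Alg E)) := by
      intro w
      obtain ⟨m, rfl⟩ : ∃ m, z m = w := ⟨bs.equivFun w, bs.equivFun.symm_apply_apply _⟩
      rw [hz]
      exact Submodule.sum_mem _ fun i _ => Submodule.smul_mem _ _ (Submodule.subset_span ⟨i, rfl⟩)
    exact hspan ⟨_, hmem⟩

end Pool.SV
end
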