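import Pool.Agent.Helper16.CPG.G01

/- Helper16.LDA.SV.Chain -/
section
/-!
# SV-1: tuple chains
-/

set_option autoImplicit false

open Set Finset

namespace Pool.SV

namespace Chain

variable {A B : Type*}

theorem cone_single (b : B) (l : List B) (r : ℝ) :
    cone b (Finsupp.single l r) = Finsupp.single (b :: l) r := by
  unfold cone
  rw [Finsupp.lmapDomain_apply, Finsupp.mapDomain_single]

theorem d_single (l : List B) : d (Finsupp.single l 1) = dl l := by
  unfold d
  rw [Finsupp.linearCombination_single, one_smul]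

theorem pair_single (β : List B → ℝ) (l : List B) : pair β (Finsupp.single l 1) = β l := by
  unfold pair
  rw [Finsupp.linearCombination_single, one_smul]

theorem lin_single (T : List A → L B) (l : List A) : lin T (Finsupp.single l 1) = T l := by
  unfold lin
  rw [Finsupp.linearCombination_single, one_smul]

theorem ext_lin {V : Type*} [AddCommGroup V] [Module ℝ V] {φ ψ : L A →ₗ[ℝ] V}
    (h : ∀ l, φ (Finsupp.single l 1) = ψ (Finsupp.single l 1)) (c : L A) : φ c = ψ c := by
  have : φ = ψ := by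
    apply Finsupp.lhom_ext
    intro l r
    have e : Finsupp.single l r = r • Finsupp.single l (1 : ℝ) := by simp
    rw [e, map_smul, map_smul, h]
  rw [this]

/-- equality on the support -/
theorem lin_congr {V : Type*} [AddCommGroup V] [Module ℝ V] (φ ψ : L A →ₗ[ℝ] V) (c : L A)
    (h : ∀ l ∈ c.support, φ (Finsupp.single l 1) = ψ (Finsupp.single l 1)) : φ c = ψ c := by
  rw [← Finsupp.sum_single c, Finsupp.sum, map_sum, map_sum]
  refine Finset.sum_congr rfl fun l hl => ?_
  have e : Finsupp.single l (c l) = c l • Finsupp.single l (1 : ℝ) := by simp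
  rw [e, map_smul, map_smul, h l hl]

theorem d_cone (b : B) (c : L B) : d (cone b c) = c - cone b (d c) := by
  have := ext_lin (φ := d ∘ₗ cone b) (ψ := LinearMap.id - cone b ∘ₗ d) (fun l => by
    simp only [LinearMap.comp_apply, LinearMap.sub_apply, LinearMap.id_apply]
    rw [cone_single, d_single, d_single]
    rfl) c
  simpa using this

theorem dl_cons (b : B) (l : List B) : dl (b :: l) = Finsupp.single l 1 - cone b (dl l) := rfl

theorem d_dl (l : List B) : d (dl l) = 0 := by
  induction l with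
  | nil => simp [dl]
  | cons b l ih =>
    rw [dl_cons, map_sub, d_single, d_cone, ih]
    simp

theorem dl_support (l : List B) : ∀ l' ∈ (dl l).support, l'.length + 1 = l.length := by
  classical
  induction l with
  | nil => intro l' h; simp [dl] at h
  | cons b l ih =>
    intro l' h
    rw [dl_cons] at h
    have h := Finsupp.support_sub h
    rw [Finset.mem_union] at h
    rcases h with h | h
    · have h := Finsupp.support_single_subset h
      rw [Finset.mem_singleton] at h
      rw [h]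
      rfl
    · have h := Finsupp.mapDomain_support h
      rw [Finset.mem_image] at h
      obtain ⟨l'', h1, rfl⟩ := h
      have := ih l'' h1
      simp only [List.length_cons]
      omega

/-- `p(a)`-average of the cones -/
noncomputable def avg (p : A → (B →₀ ℝ)) (a : A) : L B →ₗ[ℝ] L B :=
  ∑ b ∈ (p a).support, (p a b) • cone b

theorem avg_apply (p : A → (B →₀ ℝ)) (a : A) (c : L B) :
    avg p a c = (p a).sum (fun b r => r • cone b c) := by
  unfold avg Finsupp.sum
  rw [LinearMap.sum_apply]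
  rfl

theorem push_cons (p : A → (B →₀ ℝ)) (a : A) (l : List A) :
    push p (a :: l) = avg p a (push p l) := by
  rw [avg_apply]
  rfl

theorem push_nil (p : A → (B →₀ ℝ)) : push p [] = Finsupp.single [] 1 := rfl

theorem d_avg (p : A → (B →₀ ℝ)) (hp : Normalised p) (a : A) (c : L B) :
    d (avg p a c) = c - avg p a (d c) := by
  have h1 : ∑ b ∈ (p a).support, p a b = 1 := hp a
  unfold avg
  rw [LinearMap.sum_apply, LinearMap.sum_apply, map_sum]
  have : ∀ b ∈ (p a).support, d ((p a b • cone b) c) = p a b • c - (p a b • cone b) (d c) := by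
    intro b _
    rw [LinearMap.smul_apply, LinearMap.smul_apply, map_smul, d_cone, smul_sub]
  rw [Finset.sum_congr rfl this, Finset.sum_sub_distrib, ← Finset.sum_smul, h1, one_smul]

theorem lin_push_cone (p : A → (B →₀ ℝ)) (a : A) (c : L A) :
    lin (push p) (cone a c) = avg p a (lin (push p) c) := by
  have := ext_lin (φ := lin (push p) ∘ₗ cone a) (ψ := avg p a ∘ₗ lin (push p)) (fun l => by
    simp only [LinearMap.comp_apply]
    rw [cone_single, lin_single, lin_single, push_cons]) c
  simpa using this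

theorem d_push (p : A → (B →₀ ℝ)) (hp : Normalised p) (l : List A) :
    d (push p l) = lin (push p) (dl l) := by
  induction l with
  | nil => rw [push_nil, d_single]; simp [dl]
  | cons a l ih =>
    rw [push_cons, d_avg p hp, ih, dl_cons, map_sub, lin_single, lin_push_cone]

/-- translation of tuples -/
noncomputable def tr (f : B → B) : L B →ₗ[ℝ] L B := Finsupp.lmapDomain ℝ ℝ (List.map f)

theorem tr_single (f : B → B) (l : List B) (r : ℝ) :
    tr f (Finsupp.single l r) = Finsupp.single (l.map f) r := by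
  unfold tr
  rw [Finsupp.lmapDomain_apply, Finsupp.mapDomain_single]

theorem tr_apply (f : B → B) (c : L B) : tr f c = c.mapDomain (List.map f) := rfl

theorem tr_cone (f : B → B) (b : B) (c : L B) : tr f (cone b c) = cone (f b) (tr f c) := by
  have := ext_lin (φ := tr f ∘ₗ cone b) (ψ := cone (f b) ∘ₗ tr f) (fun l => by
    simp only [LinearMap.comp_apply]
    rw [cone_single, tr_single, tr_single, cone_single]
    rfl) c
  simpa using this

theorem dl_tr (f : B → B) (l : List B) : dl (l.map f) = tr f (dl l) := by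
  induction l with
  | nil => simp [dl]
  | cons b l ih =>
    rw [List.map_cons, dl_cons, dl_cons, map_sub, tr_single, tr_cone, ih]

theorem pair_tr (Γ : Type*) [Group Γ] [MulAction Γ B] (β : List B → ℝ) (hβ : Inv Γ β) (g : Γ)
    (c : L B) : pair β (tr (fun b => g • b) c) = pair β c := by
  have := ext_lin (φ := pair β ∘ₗ tr (fun b => g • b)) (ψ := pair β) (fun l => by
    simp only [LinearMap.comp_apply]
    rw [tr_single, pair_single, pair_single]
    exact hβ g l) c
  simpa using this

theorem avg_tr (Γ : Type*) [Group Γ] [MulAction Γ A] [MulAction Γ B]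
    (p : A → (B →₀ ℝ)) (he : Equiv' Γ p) (g : Γ) (a : A) (c : L B) :
    avg p (g • a) (tr (fun b => g • b) c) = tr (fun b => g • b) (avg p a c) := by
  rw [avg_apply, avg_apply, he g a, Finsupp.sum_mapDomain_index]
  · rw [Finsupp.sum, Finsupp.sum, map_sum]
    refine Finset.sum_congr rfl fun b _ => ?_
    rw [map_smul, tr_cone]
  · intro b; simp
  · intro b m n; rw [add_smul]

theorem push_tr (Γ : Type*) [Group Γ] [MulAction Γ A] [MulAction Γ B]
    (p : A → (B →₀ ℝ)) (he : Equiv' Γ p) (g : Γ) (l : List A) :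
    push p (l.map (fun a => g • a)) = tr (fun b => g • b) (push p l) := by
  induction l with
  | nil => rw [List.map_nil, push_nil, tr_single]; rfl
  | cons a l ih => rw [List.map_cons, push_cons, push_cons, ih, avg_tr Γ p he]

theorem inv_dual (Γ : Type*) [Group Γ] [MulAction Γ A] [MulAction Γ B] (T : List A → L B)
    (hT : ∀ (g : Γ) (l : List A), T (l.map (fun a => g • a)) = tr (fun b => g • b) (T l))
    (β : List B → ℝ) (hβ : Inv Γ β) : Inv Γ (dual T β) := by
  intro g l
  unfold dual
  rw [hT, pair_tr Γ β hβ]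

theorem lin_tr (Γ : Type*) [Group Γ] [MulAction Γ A] [MulAction Γ B] (T : List A → L B)
    (hT : ∀ (g : Γ) (l : List A), T (l.map (fun a => g • a)) = tr (fun b => g • b) (T l))
    (g : Γ) (c : L A) : lin T (tr (fun a => g • a) c) = tr (fun b => g • b) (lin T c) := by
  have := ext_lin (φ := lin T ∘ₗ tr (fun a => g • a)) (ψ := tr (fun b => g • b) ∘ₗ lin T)
    (fun l => by
      simp only [LinearMap.comp_apply]
      rw [tr_single, lin_single, lin_single, hT]) c
  simpa using this

theorem pair_cone (β : List B → ℝ) (b : B) (c : L B) :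
    pair β (cone b c) = pair (fun l => β (b :: l)) c := by
  have := ext_lin (φ := pair β ∘ₗ cone b) (ψ := pair (fun l => β (b :: l))) (fun l => by
    simp only [LinearMap.comp_apply]
    rw [cone_single, pair_single, pair_single]) c
  simpa using this

end Chain

open Chain

theorem pair_d {B : Type*} (β : List B → ℝ) (c : L B) : pair β (d c) = pair (cob β) c := by
  have := ext_lin (φ := pair β ∘ₗ d) (ψ := pair (cob β)) (fun l => by
    simp only [LinearMap.comp_apply]
    rw [d_single, pair_single]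
    rfl) c
  simpa using this

theorem pair_dual {A B : Type*} (T : List A → L B) (β : List B → ℝ) (c : L A) :
    pair (dual T β) c = pair β (lin T c) := by
  have := ext_lin (φ := pair (dual T β)) (ψ := pair β ∘ₗ lin T) (fun l => by
    simp only [LinearMap.comp_apply]
    rw [lin_single, pair_single]
    rfl) c
  simpa using this

theorem cob_push {A B : Type*} (p : A → (B →₀ ℝ)) (hp : Normalised p) (β : List B → ℝ) :
    cob (dual (push p) β) = dual (push p) (cob β) := by
  funext l
  show pair (dual (push p) β) (dl l) = pair (cob β) (push p l)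
  rw [pair_dual, ← pair_d, d_push p hp]

theorem inv_push (Γ : Type*) {A B : Type*} [Group Γ] [MulAction Γ A] [MulAction Γ B]
    (p : A → (B →₀ ℝ)) (he : Equiv' Γ p) (β : List B → ℝ) (hβ : Inv Γ β) :
    Inv Γ (dual (push p) β) :=
  inv_dual Γ (push p) (push_tr Γ p he) β hβ

theorem bdd_push {A B : Type*} (p : A → (B →₀ ℝ)) (hp : Normalised p) (hp0 : ∀ a b, 0 ≤ p a b)
    (β : List B → ℝ) (C : ℝ) (hβ : ∀ l, |β l| ≤ C) : ∀ l, |dual (push p) β l| ≤ C := by
  intro l
  induction l generalizing β with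
  | nil =>
    show |pair β (push p [])| ≤ C
    rw [push_nil, pair_single]
    exact hβ []
  | cons a l ih =>
    show |pair β (push p (a :: l))| ≤ C
    rw [push_cons, avg_apply, Finsupp.sum, map_sum]
    have h1 : ∑ b ∈ (p a).support, p a b = 1 := hp a
    refine (Finset.abs_sum_le_sum_abs _ _).trans ?_
    calc ∑ b ∈ (p a).support, |pair β (p a b • cone b (push p l))|
        ≤ ∑ b ∈ (p a).support, p a b * C := by
          refine Finset.sum_le_sum fun b _ => ?_
          rw [map_smul, smul_eq_mul, abs_mul, abs_of_nonneg (hp0 a b), pair_cone]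
          exact mul_le_mul_of_nonneg_left (ih _ fun l' => hβ (b :: l')) (hp0 a b)
      _ = C := by rw [← Finset.sum_mul, h1, one_mul]

theorem cyc_push (Γ : Type*) {A B : Type*} [Group Γ] [MulAction Γ A] [MulAction Γ B]
    (p : A → (B →₀ ℝ)) (hp : Normalised p) (he : Equiv' Γ p) (w : L A) (hw : Cyc Γ w) :
    Cyc Γ (lin (push p) w) := by
  intro α hα
  rw [← pair_dual, ← cob_push p hp]
  exact hw _ (inv_push Γ p he α hα)

namespace Chain

/-- a chain homotopy kills the difference -/
theorem of_homotopy (Γ : Type*) {A B : Type*} [Group Γ] [MulAction Γ A] [MulAction Γ B]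
    (T T' h : List A → L B)
    (hh : ∀ (g : Γ) (l : List A), h (l.map (fun a => g • a)) = tr (fun b => g • b) (h l))
    (hd : ∀ l, d (h l) + lin h (dl l) = T' l - T l) (β : List B → ℝ) (hβ : Inv Γ β)
    (hc : cob β = 0) (w : L A) (hw : Cyc Γ w) : pair (dual T β) w = pair (dual T' β) w := by
  have h1 : pair (cob (dual h β)) w = 0 := hw _ (inv_dual Γ h hh β hβ)
  have h2 : ∀ l, cob (dual h β) l = dual T' β l - dual T β l := by
    intro l
    show pair (dual h β) (dl l) = pair β (T' l) - pair β (T l)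
    rw [pair_dual, ← map_sub, ← hd l, map_add, pair_d, hc]
    have : pair (0 : List B → ℝ) (h l) = 0 := by
      unfold pair
      rw [Finsupp.linearCombination_apply]
      simp
    rw [this, zero_add]
  have h3 : pair (cob (dual h β)) w = pair (dual T' β) w - pair (dual T β) w := by
    have := ext_lin (φ := pair (cob (dual h β))) (ψ := pair (dual T' β) - pair (dual T β))
      (fun l => by
        rw [LinearMap.sub_apply, pair_single, pair_single, pair_single, h2]) w
    rw [this, LinearMap.sub_apply]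
  rw [h3] at h1
  (clear * - h1; linarith)

/-- the homotopy between two push forwards -/
noncomputable def hp {A B : Type*} (p p' : A → (B →₀ ℝ)) : List A → L B
  | [] => 0
  | a :: l => avg p a (push p' (a :: l) - hp p p' l)

theorem lin_hp_cone {A B : Type*} (p p' : A → (B →₀ ℝ)) (a : A) (c : L A) :
    lin (hp p p') (cone a c) = avg p a (lin (push p') (cone a c) - lin (hp p p') c) := by
  have := ext_lin (φ := lin (hp p p') ∘ₗ cone a)
    (ψ := avg p a ∘ₗ (lin (push p') ∘ₗ cone a - lin (hp p p'))) (fun l => by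
      simp only [LinearMap.comp_apply, LinearMap.sub_apply]
      rw [cone_single, lin_single, lin_single, lin_single]
      rfl) c
  simpa using this

theorem hp_spec {A B : Type*} (p p' : A → (B →₀ ℝ)) (hn : Normalised p) (hn' : Normalised p')
    (l : List A) : d (hp p p' l) + lin (hp p p') (dl l) = push p' l - push p l := by
  induction l with
  | nil => simp [hp, dl, push_nil]
  | cons a l ih =>
    have e1 : d (hp p p' (a :: l)) = (push p' (a :: l) - hp p p' l) -
        avg p a (d (push p' (a :: l) - hp p p' l)) := d_avg p hn a _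
    have e2 : d (hp p p' l) = push p' l - push p l - lin (hp p p') (dl l) :=
      eq_sub_of_add_eq ih
    rw [e1, map_sub d, d_push p' hn', e2, dl_cons, map_sub (lin (push p')), lin_single,
      map_sub (lin (hp p p')), lin_single, lin_hp_cone, push_cons p]
    simp only [map_sub]
    abel

theorem hp_tr (Γ : Type*) {A B : Type*} [Group Γ] [MulAction Γ A] [MulAction Γ B]
    (p p' : A → (B →₀ ℝ)) (he : Equiv' Γ p) (he' : Equiv' Γ p') (g : Γ) (l : List A) :
    hp p p' (l.map (fun a => g • a)) = tr (fun b => g • b) (hp p p' l) := by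
  induction l with
  | nil => simp [hp]
  | cons a l ih =>
    show avg p (g • a) (push p' ((a :: l).map (fun a => g • a)) -
      hp p p' (l.map (fun a => g • a))) = tr (fun b => g • b) (avg p a (push p' (a :: l) - hp p p' l))
    rw [ih, push_tr Γ p' he', ← map_sub, avg_tr Γ p he]

end Chain

theorem push_homotopic (Γ : Type*) {A B : Type*} [Group Γ] [MulAction Γ A] [MulAction Γ B]
    (p p' : A → (B →₀ ℝ)) (hp : Normalised p) (hp' : Normalised p') (he : Equiv' Γ p)
    (he' : Equiv' Γ p') (β : List B → ℝ) (hβ : Inv Γ β) (hc : cob β = 0) (w : L A)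
    (hw : Cyc Γ w) : pair (dual (push p) β) w = pair (dual (push p') β) w :=
  of_homotopy Γ (push p) (push p') (Chain.hp p p') (hp_tr Γ p p' he he')
    (hp_spec p p' hp hp') β hβ hc w hw

namespace Chain

/-- the homotopy from the identity to a natural chain map, on tuples of bounded length -/
noncomputable def DD {B : Type*} (T : List B → L B) : ℕ → List B → L B
  | 0, _ => 0
  | _ + 1, [] => 0
  | n + 1, b :: l => cone b (T (b :: l) - Finsupp.single (b :: l) 1 - lin (DD T n) (dl (b :: l)))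

/-- the homotopy -/
noncomputable def D {B : Type*} (T : List B → L B) (l : List B) : L B := DD T l.length l

theorem D_nil {B : Type*} (T : List B → L B) : D T [] = 0 := rfl

theorem D_cons {B : Type*} (T : List B → L B) (b : B) (l : List B) :
    D T (b :: l) = cone b (T (b :: l) - Finsupp.single (b :: l) 1 - lin (D T) (dl (b :: l))) := by
  show cone b (T (b :: l) - Finsupp.single (b :: l) 1 - lin (DD T l.length) (dl (b :: l))) = _
  congr 2
  apply lin_congr
  intro l' hl'
  rw [lin_single, lin_single]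
  have := dl_support _ l' hl'
  rw [List.length_cons] at this
  have h : l'.length = l.length := by omega
  rw [D, h]

theorem D_spec {B : Type*} (T : List B → L B) (h0 : T [] = Finsupp.single [] 1)
    (hd : ∀ l, d (T l) = lin T (dl l)) (l : List B) :
    d (D T l) + lin (D T) (dl l) = T l - Finsupp.single l 1 := by
  induction hn : l.length using Nat.strong_induction_on generalizing l with
  | _ n ih =>
    cases l with
    | nil => rw [D_nil, h0]; simp [dl]
    | cons b l =>
      have hb : d (lin (D T) (dl (b :: l))) =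
          lin T (dl (b :: l)) - dl (b :: l) - lin (D T) (d (dl (b :: l))) := by
        have := lin_congr (d ∘ₗ lin (D T)) (lin T - LinearMap.id - lin (D T) ∘ₗ d)
          (dl (b :: l)) (fun l' hl' => by
            simp only [LinearMap.comp_apply, LinearMap.sub_apply, LinearMap.id_apply]
            rw [lin_single, lin_single, d_single]
            have hlen := dl_support _ l' hl'
            have := ih l'.length (by omega) l' rfl
            exact eq_sub_of_add_eq this)
        simpa using this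
      rw [d_dl, map_zero, sub_zero] at hb
      rw [D_cons, d_cone, map_sub d, map_sub d, hb, hd, d_single]
      simp

theorem DD_tr (Γ : Type*) {B : Type*} [Group Γ] [MulAction Γ B] (T : List B → L B)
    (heq : ∀ (g : Γ) (l : List B),
      T (l.map (fun b => g • b)) = tr (fun b => g • b) (T l)) (g : Γ) (n : ℕ) :
    ∀ l : List B, DD T n (l.map (fun b => g • b)) = tr (fun b => g • b) (DD T n l) := by
  induction n with
  | zero => intro l; simp [DD]
  | succ n ih =>
    intro l
    cases l with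
    | nil => simp [DD]
    | cons b l =>
      show cone (g • b) (T ((b :: l).map (fun b => g • b)) -
        Finsupp.single ((b :: l).map (fun b => g • b)) 1 -
        lin (DD T n) (dl ((b :: l).map (fun b => g • b)))) = tr (fun b => g • b)
        (cone b (T (b :: l) - Finsupp.single (b :: l) 1 - lin (DD T n) (dl (b :: l))))
      have h := ext_lin (φ := lin (DD T n) ∘ₗ tr (fun a => g • a))
        (ψ := tr (fun b => g • b) ∘ₗ lin (DD T n)) (fun l => by
          simp only [LinearMap.comp_apply]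
          rw [tr_single, lin_single, lin_single, ih]) (dl (b :: l))
      simp only [LinearMap.comp_apply] at h
      rw [tr_cone, map_sub (tr fun b => g • b), map_sub (tr fun b => g • b), heq, dl_tr, h,
        tr_single]

end Chain

theorem natural (Γ : Type*) {B : Type*} [Group Γ] [MulAction Γ B] (T : List B → L B)
    (h0 : T [] = Finsupp.single [] 1) (h1 : ∀ b, T [b] = Finsupp.single [b] 1)
    (hd : ∀ l, d (T l) = lin T (dl l))
    (heq : ∀ (g : Γ) (l : List B),
      T (l.map (fun b => g • b)) = (T l).mapDomain (List.map (fun b => g • b)))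
    (β : List B → ℝ) (hβ : Inv Γ β) (hc : cob β = 0) (w : L B) (hw : Cyc Γ w) :
    pair (dual T β) w = pair β w := by
  have hid : dual (fun l => Finsupp.single l (1 : ℝ)) β = β := by
    funext l
    exact pair_single β l
  have key := of_homotopy Γ (fun l : List B => Finsupp.single l (1 : ℝ)) T (D T) (fun g l => by
    unfold D
    rw [List.length_map]
    exact DD_tr Γ T heq g l.length l) (D_spec T h0 hd) β hβ hc w hw
  rw [hid] at key
  exact key.symm

end Pool.SV
end

/- Helper16.LDA.SV.Alt -/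
section
open Set Finset

namespace Pool.SV

namespace Alt

variable {B : Type*}

/-- The boundary of a tuple given as a function. -/
theorem dl_ofFn (n : ℕ) (x : Fin (n + 1) → B) :
    dl (List.ofFn x) = ∑ i : Fin (n + 1),
      ((-1 : ℝ) ^ (i : ℕ)) • Finsupp.single (List.ofFn fun k => x (i.succAbove k)) (1 : ℝ) := by
  induction n with
  | zero =>
    rw [Fin.sum_univ_one, List.ofFn_succ, List.ofFn_zero]
    simp [dl]
  | succ n ih =>
    rw [List.ofFn_succ, dl, ih, map_sum]
    conv_rhs => rw [Fin.sum_univ_succ]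
    have h1 : (fun k => x ((0 : Fin (n + 2)).succAbove k)) = fun k => x k.succ := by
      funext k
      rw [Fin.zero_succAbove]
    rw [h1, Fin.val_zero, pow_zero, one_smul, sub_eq_add_neg, ← Finset.sum_neg_distrib]
    congr 1
    apply Finset.sum_congr rfl
    intro i _
    rw [map_smul, cone, Finsupp.lmapDomain_apply, Finsupp.mapDomain_single, Fin.val_succ, pow_succ,
      mul_neg_one, neg_smul]
    congr 3
    rw [List.ofFn_succ]
    congr 1
    simp only [Fin.succ_succAbove_succ]

/-- The alternation of a tuple given as a function. -/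
noncomputable def TF (n : ℕ) (x : Fin n → B) : L B :=
  ((n.factorial : ℝ))⁻¹ • ∑ π : Equiv.Perm (Fin n),
    (((Equiv.Perm.sign π : ℤ) : ℝ)) • Finsupp.single (List.ofFn fun i => x (π i)) (1 : ℝ)

/-- The alternation of a tuple. -/
noncomputable def T (l : List B) : L B := TF l.length l.get

theorem TF_congr {m n : ℕ} (h : m = n) (y : Fin m → B) (x : Fin n → B)
    (hy : ∀ i, y i = x (Fin.cast h i)) : TF m y = TF n x := by
  subst h
  congr 1
  funext i
  exact hy i

theorem T_ofFn (n : ℕ) (x : Fin n → B) : T (List.ofFn x) = TF n x := by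
  apply TF_congr List.length_ofFn
  intro i
  rw [List.get_eq_getElem, List.getElem_ofFn]
  rfl

/-- Composition of permutations which corresponds to the expansion of a determinant. -/
def psi {n : ℕ} (i : Fin (n + 1)) (je : Fin (n + 1) × Equiv.Perm (Fin n)) :
    Equiv.Perm (Fin (n + 1)) :=
  je.1.cycleRange⁻¹ * Equiv.Perm.decomposeFin.symm (0, je.2) * i.cycleRange

theorem psi_self {n : ℕ} (i : Fin (n + 1)) (je : Fin (n + 1) × Equiv.Perm (Fin n)) :
    psi i je i = je.1 := by
  unfold psi
  rw [Equiv.Perm.mul_apply, Equiv.Perm.mul_apply, Fin.cycleRange_self,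
    Equiv.Perm.decomposeFin_symm_apply_zero]
  exact Fin.cycleRange_symm_zero _

theorem psi_succAbove {n : ℕ} (i : Fin (n + 1)) (je : Fin (n + 1) × Equiv.Perm (Fin n))
    (k : Fin n) : psi i je (i.succAbove k) = je.1.succAbove (je.2 k) := by
  unfold psi
  rw [Equiv.Perm.mul_apply, Equiv.Perm.mul_apply, Fin.cycleRange_succAbove,
    Equiv.Perm.decomposeFin_symm_apply_succ, Equiv.swap_self, Equiv.refl_apply]
  exact Fin.cycleRange_symm_succ _ _

theorem sign_psi {n : ℕ} (i : Fin (n + 1)) (je : Fin (n + 1) × Equiv.Perm (Fin n)) :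
    ((Equiv.Perm.sign (psi i je) : ℤ) : ℝ) =
      (-1) ^ (i : ℕ) * (-1) ^ (je.1 : ℕ) * ((Equiv.Perm.sign je.2 : ℤ) : ℝ) := by
  unfold psi
  rw [Equiv.Perm.sign_mul, Equiv.Perm.sign_mul, Equiv.Perm.sign_inv, Fin.sign_cycleRange,
    Fin.sign_cycleRange, Equiv.Perm.decomposeFin.symm_sign, if_pos rfl, one_mul]
  push_cast
  ring

theorem psi_bijective {n : ℕ} (i : Fin (n + 1)) :
    Function.Bijective (psi (n := n) i) := by
  rw [Fintype.bijective_iff_injective_and_card]
  constructor
  · rintro ⟨j, e⟩ ⟨j', e'⟩ h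
    have h1 : j = j' := by
      have := congrArg (fun p : Equiv.Perm (Fin (n + 1)) => p i) h
      simpa only [psi_self] using this
    subst h1
    have h2 : e = e' := by
      ext k
      have := congrArg (fun p : Equiv.Perm (Fin (n + 1)) => p (i.succAbove k)) h
      simp only [psi_succAbove] at this
      rw [Fin.succAbove_right_injective this]
    rw [h2]
  · rw [Fintype.card_prod, Fintype.card_fin, Fintype.card_perm, Fintype.card_perm,
      Fintype.card_fin, Fintype.card_fin, Nat.factorial_succ]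

theorem d_single (l : List B) (c : ℝ) : d (Finsupp.single l c) = c • dl l := by
  unfold d
  rw [Finsupp.linearCombination_single]

theorem lin_single {A : Type*} (S : List A → L B) (l : List A) (c : ℝ) :
    lin S (Finsupp.single l c) = c • S l := by
  unfold lin
  rw [Finsupp.linearCombination_single]

/-- The alternation is a chain map. -/
theorem d_T (l : List B) : d (T l) = lin T (dl l) := by
  rcases l with _ | ⟨b, l⟩
  · have h : T ([] : List B) = TF 0 (fun i => i.elim0) := T_ofFn 0 _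
    rw [h]
    unfold TF
    rw [map_smul, map_sum]
    simp only [List.ofFn_zero, map_smul, d_single, dl, smul_zero, Finset.sum_const_zero, map_zero]
  · obtain ⟨n, x, hx⟩ : ∃ (n : ℕ) (x : Fin (n + 1) → B), b :: l = List.ofFn x :=
      ⟨l.length, (b :: l).get, (List.ofFn_get (b :: l)).symm⟩
    rw [hx, T_ofFn, dl_ofFn, map_sum]
    have hR : ∀ j : Fin (n + 1), lin T (((-1 : ℝ) ^ (j : ℕ)) •
        Finsupp.single (List.ofFn fun k => x (j.succAbove k)) (1 : ℝ)) =
        ((n.factorial : ℝ))⁻¹ • ∑ e : Equiv.Perm (Fin n),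
          ((-1 : ℝ) ^ (j : ℕ) * ((Equiv.Perm.sign e : ℤ) : ℝ)) •
            Finsupp.single (List.ofFn fun k => x (j.succAbove (e k))) (1 : ℝ) := by
      intro j
      rw [map_smul, lin_single, one_smul, T_ofFn]
      unfold TF
      rw [smul_comm, Finset.smul_sum]
      congr 1
      apply Finset.sum_congr rfl
      intro e _
      rw [smul_smul]
    rw [Finset.sum_congr rfl fun j _ => hR j, ← Finset.smul_sum]
    unfold TF
    rw [map_smul, map_sum]
    have hL : ∀ π : Equiv.Perm (Fin (n + 1)), d ((((Equiv.Perm.sign π : ℤ) : ℝ)) •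
        Finsupp.single (List.ofFn fun i => x (π i)) (1 : ℝ)) =
        ∑ i : Fin (n + 1), (((Equiv.Perm.sign π : ℤ) : ℝ) * (-1 : ℝ) ^ (i : ℕ)) •
          Finsupp.single (List.ofFn fun k => x (π (i.succAbove k))) (1 : ℝ) := by
      intro π
      rw [map_smul, d_single, one_smul, dl_ofFn, Finset.smul_sum]
      apply Finset.sum_congr rfl
      intro i _
      rw [smul_smul]
    rw [Finset.sum_congr rfl fun π _ => hL π, Finset.sum_comm]
    have hI : ∀ i : Fin (n + 1), ∑ π : Equiv.Perm (Fin (n + 1)),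
        (((Equiv.Perm.sign π : ℤ) : ℝ) * (-1 : ℝ) ^ (i : ℕ)) •
          Finsupp.single (List.ofFn fun k => x (π (i.succAbove k))) (1 : ℝ) =
        ∑ j : Fin (n + 1), ∑ e : Equiv.Perm (Fin n),
          ((-1 : ℝ) ^ (j : ℕ) * ((Equiv.Perm.sign e : ℤ) : ℝ)) •
            Finsupp.single (List.ofFn fun k => x (j.succAbove (e k))) (1 : ℝ) := by
      intro i
      rw [← (psi_bijective i).sum_comp, Fintype.sum_prod_type]
      apply Finset.sum_congr rfl
      intro j _
      apply Finset.sum_congr rfl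
      intro e _
      simp only [psi_succAbove]
      rw [sign_psi]
      congr 1
      have h2 : ((-1 : ℝ) ^ (i : ℕ)) * (-1 : ℝ) ^ (i : ℕ) = 1 := by
        rw [← mul_pow]
        norm_num
      calc (-1 : ℝ) ^ (i : ℕ) * (-1) ^ (j : ℕ) * ((Equiv.Perm.sign e : ℤ) : ℝ) * (-1) ^ (i : ℕ)
          = ((-1 : ℝ) ^ (i : ℕ) * (-1 : ℝ) ^ (i : ℕ)) *
            ((-1) ^ (j : ℕ) * ((Equiv.Perm.sign e : ℤ) : ℝ)) := by ring
        _ = _ := by rw [h2, one_mul]
    rw [Finset.sum_congr rfl fun i _ => hI i, Finset.sum_const, Finset.card_univ,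
      Fintype.card_fin, ← Nat.cast_smul_eq_nsmul ℝ, smul_smul]
    congr 1
    rw [Nat.factorial_succ]
    push_cast
    have h3 : (n.factorial : ℝ) ≠ 0 := by positivity
    have h4 : ((n : ℝ) + 1) ≠ 0 := by (clear * -; positivity)
    field_simp

theorem T_nil : T ([] : List B) = Finsupp.single [] 1 := by
  have h : T ([] : List B) = TF 0 (fun i => i.elim0) := T_ofFn 0 _
  rw [h]
  unfold TF
  simp

theorem T_one (b : B) : T [b] = Finsupp.single [b] 1 := by
  have h : T [b] = TF 1 (fun _ => b) := by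
    have := T_ofFn 1 (fun _ => b)
    simpa using this
  rw [h]
  unfold TF
  simp

theorem T_map {A : Type*} (f : A → B) (l : List A) :
    T (l.map f) = (T l).mapDomain (List.map f) := by
  obtain ⟨n, x, rfl⟩ : ∃ (n : ℕ) (x : Fin n → A), l = List.ofFn x :=
    ⟨l.length, l.get, (List.ofFn_get l).symm⟩
  rw [List.map_ofFn, T_ofFn, T_ofFn]
  unfold TF
  rw [Finsupp.mapDomain_smul, Finsupp.mapDomain_finsetSum]
  congr 1
  apply Finset.sum_congr rfl
  intro π _
  rw [Finsupp.mapDomain_smul, Finsupp.mapDomain_single, List.map_ofFn]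
  rfl

theorem pair_single (β : List B → ℝ) (l : List B) (c : ℝ) :
    pair β (Finsupp.single l c) = c * β l := by
  unfold pair
  rw [Finsupp.linearCombination_single, smul_eq_mul]

theorem dual_ofFn (β : List B → ℝ) (n : ℕ) (x : Fin n → B) :
    dual T β (List.ofFn x) = ((n.factorial : ℝ))⁻¹ * ∑ π : Equiv.Perm (Fin n),
      ((Equiv.Perm.sign π : ℤ) : ℝ) * β (List.ofFn fun i => x (π i)) := by
  unfold dual
  rw [T_ofFn]
  unfold TF
  rw [map_smul, map_sum, smul_eq_mul]
  congr 1
  apply Finset.sum_congr rfl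
  intro π _
  rw [map_smul, pair_single, one_mul, smul_eq_mul]

theorem abs_sign {n : ℕ} (π : Equiv.Perm (Fin n)) : |((Equiv.Perm.sign π : ℤ) : ℝ)| = 1 := by
  rcases Int.units_eq_one_or (Equiv.Perm.sign π) with h | h <;> rw [h] <;> simp

theorem dual_bdd (β : List B → ℝ) (C : ℝ) (hβ : ∀ l, |β l| ≤ C) (l : List B) :
    |dual T β l| ≤ C := by
  obtain ⟨n, x, rfl⟩ : ∃ (n : ℕ) (x : Fin n → B), l = List.ofFn x :=
    ⟨l.length, l.get, (List.ofFn_get l).symm⟩
  rw [dual_ofFn, abs_mul]
  have h1 : |∑ π : Equiv.Perm (Fin n),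
      ((Equiv.Perm.sign π : ℤ) : ℝ) * β (List.ofFn fun i => x (π i))| ≤ n.factorial * C := by
    calc |∑ π : Equiv.Perm (Fin n),
          ((Equiv.Perm.sign π : ℤ) : ℝ) * β (List.ofFn fun i => x (π i))|
        ≤ ∑ π : Equiv.Perm (Fin n),
          |((Equiv.Perm.sign π : ℤ) : ℝ) * β (List.ofFn fun i => x (π i))| :=
          Finset.abs_sum_le_sum_abs _ _
      _ ≤ ∑ _π : Equiv.Perm (Fin n), C := by
          apply Finset.sum_le_sum
          intro π _
          rw [abs_mul, abs_sign, one_mul]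
          exact hβ _
      _ = n.factorial * C := by
          rw [Finset.sum_const, Finset.card_univ, Fintype.card_perm, Fintype.card_fin,
            nsmul_eq_mul]
  have h2 : (0 : ℝ) < n.factorial := by positivity
  rw [abs_of_pos (inv_pos.2 h2)]
  calc ((n.factorial : ℝ))⁻¹ * _ ≤ ((n.factorial : ℝ))⁻¹ * (n.factorial * C) :=
        mul_le_mul_of_nonneg_left h1 (inv_pos.2 h2).le
    _ = C := by
        rw [← mul_assoc, inv_mul_cancel₀ h2.ne', one_mul]

theorem pair_mapDomain {A : Type*} (β : List B → ℝ) (f : List A → List B) (c : L A) :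
    pair β (c.mapDomain f) = pair (fun l => β (f l)) c := by
  unfold pair
  rw [Finsupp.linearCombination_mapDomain]
  rfl

end Alt

open Alt

theorem exists_alt (Γ : Type*) {B : Type*} [Group Γ] [MulAction Γ B] (n : ℕ)
    (β : List B → ℝ) (hb : Bdd β) (hβ : Inv Γ β) (hc : cob β = 0) :
    ∃ β' : List B → ℝ, Bdd β' ∧ Inv Γ β' ∧ cob β' = 0 ∧
      (∀ (x : Fin (n + 1) → B) (π : Equiv.Perm (Fin (n + 1))),
        β' (List.ofFn (fun i => x (π i))) = ((Equiv.Perm.sign π : ℤ) : ℝ) * β' (List.ofFn x)) ∧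
      ∀ w, Cyc Γ w → pair β' w = pair β w := by
  obtain ⟨C, hC⟩ := hb
  refine ⟨dual T β, ⟨C, dual_bdd β C hC⟩, ?_, ?_, ?_, ?_⟩
  · intro g l
    unfold dual
    rw [T_map, pair_mapDomain]
    congr 1
    congr 1
    funext l'
    exact hβ g l'
  · funext l
    unfold cob
    rw [pair_dual, ← d_T, pair_d, hc]
    simp [pair]
  · intro x π
    rw [dual_ofFn, dual_ofFn, ← mul_assoc, mul_comm (((Equiv.Perm.sign π : ℤ) : ℝ)), mul_assoc]
    congr 1
    rw [Finset.mul_sum]
    rw [← (Equiv.mulLeft π).bijective.sum_comp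
      (fun ρ => ((Equiv.Perm.sign π : ℤ) : ℝ) *
        (((Equiv.Perm.sign ρ : ℤ) : ℝ) * β (List.ofFn fun i => x (ρ i))))]
    apply Finset.sum_congr rfl
    intro ρ _
    simp only [Equiv.coe_mulLeft, Equiv.Perm.sign_mul, Equiv.Perm.mul_apply]
    push_cast
    have h2 : ((Equiv.Perm.sign π : ℤ) : ℝ) * ((Equiv.Perm.sign π : ℤ) : ℝ) = 1 := by
      rcases Int.units_eq_one_or (Equiv.Perm.sign π) with h | h <;> rw [h] <;> simp
    calc ((Equiv.Perm.sign ρ : ℤ) : ℝ) * β (List.ofFn fun i => x (π (ρ i)))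
        = (((Equiv.Perm.sign π : ℤ) : ℝ) * ((Equiv.Perm.sign π : ℤ) : ℝ)) *
          (((Equiv.Perm.sign ρ : ℤ) : ℝ) * β (List.ofFn fun i => x (π (ρ i)))) := by
          rw [h2, one_mul]
      _ = _ := by ring
  · intro w hw
    exact natural Γ T T_nil T_one d_T (fun g l => T_map _ l) β hβ hc w hw

namespace Alt

/-- Evaluation of a push forward. -/
theorem dual_push_ofFn {Q Y : Type*} (S : Finset Q) (ν : Y → (Q →₀ ℝ)) (n : ℕ)
    (β : List Q → ℝ) (x : Fin n → Y) (hx : ∀ i, (ν (x i)).support ⊆ S) :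
    dual (push ν) β (List.ofFn x) =
      ∑ q : Fin n → S, (∏ i, ν (x i) (q i)) * β (List.ofFn fun i => (q i : Q)) := by
  induction n generalizing β with
  | zero =>
    unfold dual
    rw [List.ofFn_zero, push, pair_single]
    simp
  | succ n ih =>
    unfold dual
    rw [List.ofFn_succ, push, Finsupp.sum_of_support_subset _ (hx 0) _ (by simp), map_sum]
    have h1 : ∀ b : Q, pair β (ν (x 0) b • cone b (push ν (List.ofFn fun i => x i.succ))) =
        ν (x 0) b * ∑ q : Fin n → S, (∏ i, ν (x i.succ) (q i)) *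
          β (b :: List.ofFn fun i => (q i : Q)) := by
      intro b
      rw [map_smul, smul_eq_mul, ← ih (fun l => β (b :: l)) (fun i => x i.succ)
        (fun i => hx i.succ)]
      congr 1
      rw [cone, Finsupp.lmapDomain_apply, pair_mapDomain]
      rfl
    rw [Finset.sum_congr rfl fun b _ => h1 b]
    rw [← (Fin.consEquiv (fun _ : Fin (n + 1) => (S : Type _))).bijective.sum_comp,
      Fintype.sum_prod_type, ← Finset.sum_coe_sort S]
    apply Finset.sum_congr rfl
    intro b _
    rw [Finset.mul_sum]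
    apply Finset.sum_congr rfl
    intro q _
    rw [Fin.prod_univ_succ, List.ofFn_succ]
    simp only [Fin.consEquiv_apply, Fin.cons_zero, Fin.cons_succ]
    ring

end Alt

theorem exists_altMap {Q : Type*} (S : Finset Q) (n : ℕ) (β : List Q → ℝ)
    (halt : ∀ (x : Fin n → Q) (π : Equiv.Perm (Fin n)),
      β (List.ofFn (fun i => x (π i))) = ((Equiv.Perm.sign π : ℤ) : ℝ) * β (List.ofFn x))
    (Y : Type*) :
    ∃ Φ : (S → ℝ) [⋀^Fin n]→ₗ[ℝ] ℝ, ∀ (ν : Y → (Q →₀ ℝ)) (x : Fin n → Y),
      (∀ i, (ν (x i)).support ⊆ S) →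
        dual (push ν) β (List.ofFn x) = Φ (fun i q => ν (x i) q) := by
  classical
  let M : MultilinearMap ℝ (fun _ : Fin n => (S → ℝ)) ℝ :=
    ∑ q : Fin n → S, (MultilinearMap.mkPiRing ℝ (Fin n)
      (β (List.ofFn fun i => (q i : Q)))).compLinearMap (fun i => LinearMap.proj (q i))
  have hM : ∀ v : Fin n → S → ℝ, M v = ∑ q : Fin n → S, (∏ i, v i (q i)) *
      β (List.ofFn fun i => (q i : Q)) := by
    intro v
    simp only [M, _root_.sum_apply, MultilinearMap.compLinearMap_apply,
      MultilinearMap.mkPiRing_apply, LinearMap.proj_apply, smul_eq_mul]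
  have halt' : ∀ (v : Fin n → S → ℝ) (i j : Fin n), v i = v j → i ≠ j → M v = 0 := by
    intro v i j hij hne
    rw [hM]
    have hcomp : ∑ q : Fin n → S, (∏ i, v i (q i)) * β (List.ofFn fun i => (q i : Q)) =
        ∑ q : Fin n → S, -((∏ i, v i (q i)) * β (List.ofFn fun i => (q i : Q))) := by
      rw [← (Equiv.arrowCongr (Equiv.swap i j) (Equiv.refl S)).bijective.sum_comp
        (fun q : Fin n → S => (∏ i, v i (q i)) * β (List.ofFn fun i => (q i : Q)))]
      apply Finset.sum_congr rfl
      intro q _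
      have h1 : ∀ k, (Equiv.arrowCongr (Equiv.swap i j) (Equiv.refl S)) q k =
          q (Equiv.swap i j k) := by
        intro k
        simp [Equiv.arrowCongr, Equiv.symm_swap]
      simp only [h1]
      rw [halt (fun k => (q k : Q)) (Equiv.swap i j), Equiv.Perm.sign_swap hne]
      have h2 : ∏ k, v k (q (Equiv.swap i j k)) = ∏ k, v k (q k) := by
        rw [← (Equiv.swap i j).bijective.prod_comp (fun k => v k (q k))]
        apply Finset.prod_congr rfl
        intro k _
        have h3 : v k = v (Equiv.swap i j k) := by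
          rcases eq_or_ne k i with rfl | hki
          · rw [Equiv.swap_apply_left]
            exact hij
          · rcases eq_or_ne k j with rfl | hkj
            · rw [Equiv.swap_apply_right]
              exact hij.symm
            · rw [Equiv.swap_apply_of_ne_of_ne hki hkj]
        rw [h3]
      rw [h2]
      simp
    rw [Finset.sum_neg_distrib] at hcomp
    linarith
  refine ⟨{ M with map_eq_zero_of_eq' := halt' }, ?_⟩
  intro ν x hx
  rw [dual_push_ofFn S ν n β x hx]
  change _ = M (fun i q => ν (x i) q)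
  rw [hM]

end Pool.SV
end

/- Helper16.LDA.SV.Mean -/
section
open Set Finset

namespace Pool.SV

namespace Mean

open Filter Topology

variable {Γ : Type*} [Group Γ]

theorem pair_single' {B : Type*} (β : List B → ℝ) (l : List B) (c : ℝ) :
    pair β (Finsupp.single l c) = c * β l := by
  unfold pair
  rw [Finsupp.linearCombination_single, smul_eq_mul]

theorem pair_mapDomain' {A B : Type*} (β : List B → ℝ) (f : List A → List B) (c : L A) :
    pair β (c.mapDomain f) = pair (fun l => β (f l)) c := by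
  unfold pair
  rw [Finsupp.linearCombination_mapDomain]
  rfl

theorem dual_nil {A B : Type*} (p : A → (B →₀ ℝ)) (β : List B → ℝ) :
    dual (push p) β [] = β [] := by
  unfold dual
  rw [push, pair_single', one_mul]

theorem dual_cons {A B : Type*} (p : A → (B →₀ ℝ)) (β : List B → ℝ) (a : A) (l : List A) :
    dual (push p) β (a :: l) = Finsupp.linearCombination ℝ
      (fun b => dual (push p) (fun l' => β (b :: l')) l) (p a) := by
  unfold dual
  rw [push, Finsupp.linearCombination_apply, Finsupp.sum, Finsupp.sum, map_sum]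
  apply Finset.sum_congr rfl
  intro b _
  rw [map_smul, cone, Finsupp.lmapDomain_apply, pair_mapDomain']

/-- The uniform measure on `g t^n`, `n < T`. -/
noncomputable def pT (t : Γ) (T : ℕ) (g : Γ) : Γ →₀ ℝ :=
  ((T : ℝ))⁻¹ • ∑ n ∈ Finset.range T, Finsupp.single (g * t ^ n) (1 : ℝ)

theorem lc_pT {M : Type*} [AddCommGroup M] [Module ℝ M] (t : Γ) (T : ℕ) (g : Γ) (F : Γ → M) :
    Finsupp.linearCombination ℝ F (pT t T g) =
      ((T : ℝ))⁻¹ • ∑ n ∈ Finset.range T, F (g * t ^ n) := by
  unfold pT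
  rw [map_smul, map_sum]
  simp only [Finsupp.linearCombination_single, one_smul]

theorem pT_normalised (t : Γ) (T : ℕ) (hT : 0 < T) : Normalised (pT t T) := by
  intro g
  have h := lc_pT t T g (fun _ => (1 : ℝ))
  rw [Finsupp.linearCombination_apply] at h
  simp only [smul_eq_mul, mul_one, Finset.sum_const, Finset.card_range, nsmul_eq_mul] at h
  rw [h]
  have : (T : ℝ) ≠ 0 := by positivity
  field_simp

theorem pT_nonneg (t : Γ) (T : ℕ) (g b : Γ) : 0 ≤ pT t T g b := by
  unfold pT
  rw [Finsupp.smul_apply, Finsupp.finsetSum_apply]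
  apply smul_nonneg (by positivity)
  apply Finset.sum_nonneg
  intro n _
  classical
  rw [Finsupp.single_apply]
  split_ifs <;> norm_num

theorem pT_equiv (t : Γ) (T : ℕ) : Equiv' Γ (pT t T) := by
  intro g a
  unfold pT
  rw [Finsupp.mapDomain_smul, Finsupp.mapDomain_finsetSum]
  congr 1
  apply Finset.sum_congr rfl
  intro n _
  rw [Finsupp.mapDomain_single, smul_eq_mul, smul_eq_mul, mul_assoc]

/-- The averaged cochain. -/
noncomputable def Av (t : Γ) (T : ℕ) (β : List Γ → ℝ) : List Γ → ℝ := dual (push (pT t T)) β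

theorem Av_nil (t : Γ) (T : ℕ) (β : List Γ → ℝ) : Av t T β [] = β [] := dual_nil _ _

theorem Av_cons (t : Γ) (T : ℕ) (β : List Γ → ℝ) (g : Γ) (l : List Γ) :
    Av t T β (g :: l) = ((T : ℝ))⁻¹ * ∑ n ∈ Finset.range T,
      Av t T (fun l' => β ((g * t ^ n) :: l')) l := by
  unfold Av
  rw [dual_cons, lc_pT, smul_eq_mul]

theorem Av_bdd (t : Γ) (T : ℕ) (hT : 0 < T) (β : List Γ → ℝ) (C : ℝ) (hβ : ∀ l, |β l| ≤ C)
    (l : List Γ) : |Av t T β l| ≤ C :=
  bdd_push (pT t T) (pT_normalised t T hT) (pT_nonneg t T) β C hβ l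

/-- Right invariance in every slot. -/
def RI (s : Γ) (β : List Γ → ℝ) : Prop :=
  ∀ (l₁ : List Γ) (g : Γ) (l₂ : List Γ), β (l₁ ++ (g * s) :: l₂) = β (l₁ ++ g :: l₂)

theorem RI.cons {s : Γ} {β : List Γ → ℝ} (h : RI s β) (x : Γ) :
    RI s (fun l => β (x :: l)) := fun l₁ g l₂ => h (x :: l₁) g l₂

theorem RI_Av {s t : Γ} (hst : s * t = t * s) (T : ℕ) {β : List Γ → ℝ} (h : RI s β) :
    RI s (Av t T β) := by
  intro l₁
  induction l₁ generalizing β with
  | nil =>
    intro g l₂
    rw [List.nil_append, List.nil_append, Av_cons, Av_cons]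
    congr 1
    apply Finset.sum_congr rfl
    intro n _
    have hc : Commute s t := hst
    have h1 : g * s * t ^ n = g * t ^ n * s := by
      rw [mul_assoc, (hc.pow_right n).eq, mul_assoc]
    rw [h1]
    congr 1
    funext l'
    exact h [] (g * t ^ n) l'
  | cons a l₁ ih =>
    intro g l₂
    rw [List.cons_append, List.cons_append, Av_cons, Av_cons]
    congr 1
    apply Finset.sum_congr rfl
    intro n _
    exact ih (h.cons _) g l₂

/-- The averaged cochain is almost invariant. -/
theorem Av_almost (t : Γ) (T : ℕ) (hT : 0 < T) (β : List Γ → ℝ) (C : ℝ)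
    (hβ : ∀ l, |β l| ≤ C) (l₁ : List Γ) (g : Γ) (l₂ : List Γ) :
    |Av t T β (l₁ ++ (g * t) :: l₂) - Av t T β (l₁ ++ g :: l₂)| ≤ 2 * C / T := by
  have hT' : (0 : ℝ) < T := by exact_mod_cast hT
  induction l₁ generalizing β with
  | nil =>
    rw [List.nil_append, List.nil_append, Av_cons, Av_cons, ← mul_sub, ← Finset.sum_sub_distrib]
    have h1 : ∀ n ∈ Finset.range T, Av t T (fun l' => β ((g * t * t ^ n) :: l')) l₂ -
        Av t T (fun l' => β ((g * t ^ n) :: l')) l₂ =
        (fun n : ℕ => Av t T (fun l' => β ((g * t ^ n) :: l')) l₂) (n + 1) -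
        (fun n : ℕ => Av t T (fun l' => β ((g * t ^ n) :: l')) l₂) n := by
      intro n _
      have : g * t * t ^ n = g * t ^ (n + 1) := by rw [pow_succ', mul_assoc]
      simp only [this]
    rw [Finset.sum_congr rfl h1,
      Finset.sum_range_sub (fun n : ℕ => Av t T (fun l' => β ((g * t ^ n) :: l')) l₂) T,
      abs_mul, abs_of_pos (inv_pos.2 hT')]
    have h2 := Av_bdd t T hT (fun l' => β ((g * t ^ T) :: l')) C (fun l => hβ _) l₂
    have h3 := Av_bdd t T hT (fun l' => β ((g * t ^ 0) :: l')) C (fun l => hβ _) l₂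
    have h4 := abs_sub (Av t T (fun l' => β ((g * t ^ T) :: l')) l₂)
      (Av t T (fun l' => β ((g * t ^ 0) :: l')) l₂)
    rw [inv_mul_eq_div]
    apply div_le_div_of_nonneg_right _ hT'.le
    (clear * - h2 h3 h4; linarith)
  | cons a l₁ ih =>
    rw [List.cons_append, List.cons_append, Av_cons, Av_cons, ← mul_sub,
      ← Finset.sum_sub_distrib, abs_mul, abs_of_pos (inv_pos.2 hT')]
    calc ((T : ℝ))⁻¹ * |∑ n ∈ Finset.range T,
          (Av t T (fun l' => β ((a * t ^ n) :: l')) (l₁ ++ (g * t) :: l₂) -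
            Av t T (fun l' => β ((a * t ^ n) :: l')) (l₁ ++ g :: l₂))|
        ≤ ((T : ℝ))⁻¹ * ∑ n ∈ Finset.range T,
          |Av t T (fun l' => β ((a * t ^ n) :: l')) (l₁ ++ (g * t) :: l₂) -
            Av t T (fun l' => β ((a * t ^ n) :: l')) (l₁ ++ g :: l₂)| :=
          mul_le_mul_of_nonneg_left (Finset.abs_sum_le_sum_abs _ _) (inv_pos.2 hT').le
      _ ≤ ((T : ℝ))⁻¹ * ∑ _n ∈ Finset.range T, 2 * C / T := by
          apply mul_le_mul_of_nonneg_left _ (inv_pos.2 hT').le
          apply Finset.sum_le_sum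
          intro n _
          exact ih (fun l' => β ((a * t ^ n) :: l')) (fun l => hβ _)
      _ = 2 * C / T := by
          rw [Finset.sum_const, Finset.card_range, nsmul_eq_mul]
          field_simp

theorem push_dirac {A B : Type*} (f : A → B) (l : List A) :
    push (fun a => Finsupp.single (f a) (1 : ℝ)) l = Finsupp.single (l.map f) 1 := by
  induction l with
  | nil => rfl
  | cons a l ih =>
    rw [push, ih, Finsupp.sum_single_index (by simp), one_smul, cone, Finsupp.lmapDomain_apply,
      Finsupp.mapDomain_single, List.map_cons]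

theorem dual_push_dirac {A B : Type*} (f : A → B) (β : List B → ℝ) (l : List A) :
    dual (push fun a => Finsupp.single (f a) (1 : ℝ)) β l = β (l.map f) := by
  unfold dual
  rw [push_dirac, pair_single', one_mul]

/-- The good properties of a cochain. -/
structure OK (β : List Γ → ℝ) (β₀ : List Γ → ℝ) : Prop where
  bdd : Bdd β
  inv : Inv Γ β
  cob : cob β = 0
  pair : ∀ w : L Γ, Cyc Γ w → pair β w = pair β₀ w

theorem exists_limit (β : List Γ → ℝ) (β₀ : List Γ → ℝ) (h : OK β β₀) (t : Γ) :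
    ∃ β' : List Γ → ℝ, OK β' β₀ ∧ RI t β' ∧ ∀ s : Γ, s * t = t * s → RI s β → RI s β' := by
  obtain ⟨C, hC⟩ := h.bdd
  -- limits along an ultrafilter
  have hlim : ∀ l : List Γ, ∃ y : ℝ, Tendsto (fun T : ℕ => Av t (T + 1) β l)
      (Filter.hyperfilter ℕ : Filter ℕ) (𝓝 y) ∧ |y| ≤ C := by
    intro l
    have hmem : ∀ T : ℕ, Av t (T + 1) β l ∈ Set.Icc (-C) C := by
      intro T
      have := abs_le.1 (Av_bdd t (T + 1) (Nat.succ_pos T) β C hC l)
      exact ⟨this.1, this.2⟩
    have hK : IsCompact (Set.Icc (-C) C) := isCompact_Icc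
    obtain ⟨y, hy, hle⟩ := hK.ultrafilter_le_nhds
      ((Filter.hyperfilter ℕ).map (fun T : ℕ => Av t (T + 1) β l)) (by
        rw [Ultrafilter.coe_map, Filter.le_principal_iff, Filter.mem_map]
        exact Filter.univ_mem' hmem)
    exact ⟨y, hle, abs_le.2 ⟨hy.1, hy.2⟩⟩
  choose β' hβ' hβ'C using hlim
  have hpair : ∀ c : L Γ, Tendsto (fun T : ℕ => Pool.SV.pair (Av t (T + 1) β) c)
      (Filter.hyperfilter ℕ : Filter ℕ) (𝓝 (Pool.SV.pair β' c)) := by
    intro c
    unfold Pool.SV.pair
    simp only [Finsupp.linearCombination_apply, Finsupp.sum]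
    apply tendsto_finsetSum
    intro l _
    exact (hβ' l).const_smul _
  have hOK : ∀ T : ℕ, cob (Av t (T + 1) β) = 0 ∧ Inv Γ (Av t (T + 1) β) ∧
      ∀ w : L Γ, Cyc Γ w → Pool.SV.pair (Av t (T + 1) β) w = Pool.SV.pair β w := by
    intro T
    refine ⟨?_, ?_, ?_⟩
    · unfold Av
      rw [cob_push _ (pT_normalised t (T + 1) (Nat.succ_pos T)), h.cob]
      funext l
      simp [dual, Pool.SV.pair]
    · exact inv_push Γ _ (pT_equiv t (T + 1)) β h.inv
    · intro w hw
      have h1 := push_homotopic Γ (pT t (T + 1)) (fun g => Finsupp.single g (1 : ℝ))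
        (pT_normalised t (T + 1) (Nat.succ_pos T))
        (fun g => by simp) (pT_equiv t (T + 1))
        (fun g a => by rw [Finsupp.mapDomain_single]) β h.inv h.cob w hw
      have h2 : dual (push fun g : Γ => Finsupp.single g (1 : ℝ)) β = β := by
        funext l
        rw [dual_push_dirac (fun g : Γ => g), List.map_id']
      rw [h2] at h1
      exact h1
  refine ⟨β', ⟨⟨C, hβ'C⟩, ?_, ?_, ?_⟩, ?_, ?_⟩
  · intro g l
    refine tendsto_nhds_unique (hβ' _) ?_
    refine (hβ' l).congr fun T => ?_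
    exact ((hOK T).2.1 g l).symm
  · funext l
    have h1 := hpair (dl l)
    have h2 : (fun T : ℕ => Pool.SV.pair (Av t (T + 1) β) (dl l)) = fun _ => 0 := by
      funext T
      exact congrFun (hOK T).1 l
    rw [h2] at h1
    exact tendsto_nhds_unique h1 tendsto_const_nhds
  · intro w hw
    rw [← h.pair w hw]
    have h1 := hpair w
    have h2 : (fun T : ℕ => Pool.SV.pair (Av t (T + 1) β) w) = fun _ => Pool.SV.pair β w := by
      funext T
      exact (hOK T).2.2 w hw
    rw [h2] at h1
    exact tendsto_nhds_unique h1 tendsto_const_nhds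
  · intro l₁ g l₂
    have h1 : Tendsto (fun T : ℕ => Av t (T + 1) β (l₁ ++ (g * t) :: l₂) -
        Av t (T + 1) β (l₁ ++ g :: l₂)) (Filter.hyperfilter ℕ : Filter ℕ) (𝓝 0) := by
      have h2 : Tendsto (fun T : ℕ => 2 * C / ((T + 1 : ℕ) : ℝ)) atTop (𝓝 0) :=
        (tendsto_const_div_atTop_nhds_zero_nat (2 * C)).comp (tendsto_add_atTop_nat 1)
      have h3 : (Filter.hyperfilter ℕ : Filter ℕ) ≤ atTop := by
        rw [← Nat.cofinite_eq_atTop]
        exact Filter.hyperfilter_le_cofinite
      refine squeeze_zero_norm' ?_ (h2.mono_left h3)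
      apply Filter.Eventually.of_forall
      intro T
      rw [Real.norm_eq_abs]
      exact Av_almost t (T + 1) (Nat.succ_pos T) β C hC l₁ g l₂
    have h4 := (hβ' (l₁ ++ (g * t) :: l₂)).sub (hβ' (l₁ ++ g :: l₂))
    have h5 := tendsto_nhds_unique h4 h1
    (clear * - h5; linarith)
  · intro s hs hRI l₁ g l₂
    refine tendsto_nhds_unique (hβ' _) ?_
    refine (hβ' (l₁ ++ g :: l₂)).congr fun T => ?_
    exact (RI_Av hs (T + 1) hRI l₁ g l₂).symm

theorem exists_limit_list (β₀ : List Γ → ℝ) (ts : List Γ)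
    (hcomm : ∀ s ∈ ts, ∀ t ∈ ts, s * t = t * s) (β : List Γ → ℝ) (h : OK β β₀) :
    ∃ β' : List Γ → ℝ, OK β' β₀ ∧ ∀ t ∈ ts, RI t β' := by
  induction ts with
  | nil => exact ⟨β, h, by simp⟩
  | cons t ts ih =>
    obtain ⟨β₁, h1, h2⟩ := ih (fun s hs t' ht' =>
      hcomm s (List.mem_cons_of_mem _ hs) t' (List.mem_cons_of_mem _ ht'))
    obtain ⟨β₂, h3, h4, h5⟩ := exists_limit β₁ β₀ h1 t
    refine ⟨β₂, h3, ?_⟩
    intro s hs
    rcases List.mem_cons.1 hs with rfl | hs'
    · exact h4
    · exact h5 s (hcomm s hs t List.mem_cons_self) (h2 s hs')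

theorem RI_one (β : List Γ → ℝ) : RI 1 β := by
  intro l₁ g l₂
  rw [mul_one]

theorem RI_mul {β : List Γ → ℝ} {s t : Γ} (hs : RI s β) (ht : RI t β) : RI (s * t) β := by
  intro l₁ g l₂
  rw [← mul_assoc, ht l₁ (g * s) l₂, hs l₁ g l₂]

theorem RI_inv {β : List Γ → ℝ} {s : Γ} (hs : RI s β) : RI s⁻¹ β := by
  intro l₁ g l₂
  have := hs l₁ (g * s⁻¹) l₂
  rw [inv_mul_cancel_right] at this
  exact this.symm

theorem dl_map {A B : Type*} (f : A → B) (l : List A) :
    dl (l.map f) = (dl l).mapDomain (List.map f) := by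
  induction l with
  | nil => simp [dl]
  | cons a l ih =>
    rw [List.map_cons, dl, dl, ih]
    have hsub : (Finsupp.single l (1 : ℝ) - cone a (dl l)).mapDomain (List.map f) =
        (Finsupp.single l (1 : ℝ)).mapDomain (List.map f) -
          (cone a (dl l)).mapDomain (List.map f) := by
      exact map_sub (Finsupp.mapDomain.addMonoidHom (M := ℝ) (List.map f)) _ _
    rw [hsub, Finsupp.mapDomain_single]
    congr 1
    rw [cone, cone, Finsupp.lmapDomain_apply, Finsupp.lmapDomain_apply, ← Finsupp.mapDomain_comp,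
      ← Finsupp.mapDomain_comp]
    rfl

end Mean

open Mean in
theorem mean_descend {Γ : Type*} [Group Γ] (k : ℕ) (j : (Fin k → ℤ) → Γ)
    (hj : ∀ a b, j (a + b) = j a * j b) (N : Subgroup Γ) [N.Normal]
    (hN : ∀ g, g ∈ N ↔ ∃ m, j m = g) (β : List Γ → ℝ) (hb : Bdd β) (hβ : Inv Γ β)
    (hc : cob β = 0) :
    ∃ β' : List (Γ ⧸ N) → ℝ, Bdd β' ∧ Inv Γ β' ∧ cob β' = 0 ∧
      ∀ w : L Γ, Cyc Γ w →
        pair (dual (push (fun g : Γ => Finsupp.single (g : Γ ⧸ N) (1 : ℝ))) β') w =
          pair β w := by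
  classical
  have hj0 : j 0 = 1 := by
    have := hj 0 0
    rw [add_zero] at this
    exact (mul_eq_left.1 this.symm)
  have hjneg : ∀ a, j (-a) = (j a)⁻¹ := by
    intro a
    rw [eq_inv_iff_mul_eq_one, ← hj, neg_add_cancel, hj0]
  obtain ⟨β'', hOK, hRI⟩ := exists_limit_list β
    (List.ofFn fun i : Fin k => j (Pi.single i 1)) (by
      intro s hs t ht
      rw [List.mem_ofFn] at hs ht
      obtain ⟨i, rfl⟩ := hs
      obtain ⟨i', rfl⟩ := ht
      rw [← hj, ← hj, add_comm]) β ⟨hb, hβ, hc, fun _ _ => rfl⟩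
  -- right invariance under the whole group
  have hall : ∀ m : Fin k → ℤ, RI (j m) β'' := by
    let A : AddSubgroup (Fin k → ℤ) :=
      { carrier := {m | RI (j m) β''}
        zero_mem' := by
          show RI (j 0) β''
          rw [hj0]
          exact RI_one _
        add_mem' := by
          intro a b ha hb'
          show RI (j (a + b)) β''
          rw [hj]
          exact RI_mul ha hb'
        neg_mem' := by
          intro a ha
          show RI (j (-a)) β''
          rw [hjneg]
          exact RI_inv ha }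
    intro m
    have h1 : m ∈ A := by
      rw [← Finset.univ_sum_single m]
      apply A.sum_mem
      intro i _
      have h2 : Pi.single i (m i) = (m i) • (Pi.single i (1 : ℤ) : Fin k → ℤ) := by
        rw [← Pi.single_smul]
        simp
      rw [h2]
      apply A.zsmul_mem
      show RI (j (Pi.single i 1)) β''
      apply hRI
      rw [List.mem_ofFn]
      exact ⟨i, rfl⟩
    exact h1
  have hNRI : ∀ n ∈ N, RI n β'' := by
    intro n hn
    obtain ⟨m, rfl⟩ := (hN n).1 hn
    exact hall m
  have hout : ∀ (l l₁ : List Γ),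
      β'' (l₁ ++ l.map (fun g : Γ => ((g : Γ ⧸ N)).out)) = β'' (l₁ ++ l) := by
    intro l
    induction l with
    | nil => intro l₁; rfl
    | cons g l ih =>
      intro l₁
      rw [List.map_cons]
      obtain ⟨n, hn⟩ := QuotientGroup.mk_out_eq_mul N g
      rw [hn, hNRI n n.2 l₁ g _]
      have := ih (l₁ ++ [g])
      simpa using this
  set β' : List (Γ ⧸ N) → ℝ := fun l => β'' (l.map Quotient.out) with hβ'
  have hmk : ∀ l : List Γ, β' (l.map (fun g : Γ => (g : Γ ⧸ N))) = β'' l := by
    intro l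
    have := hout l []
    simp only [List.nil_append] at this
    rw [← this, hβ']
    simp only [List.map_map]
    rfl
  have hlift : ∀ l : List (Γ ⧸ N), ∃ l' : List Γ, l = l'.map (fun g : Γ => (g : Γ ⧸ N)) := by
    intro l
    refine ⟨l.map Quotient.out, ?_⟩
    rw [List.map_map]
    have : ((fun g : Γ => (g : Γ ⧸ N)) ∘ Quotient.out) = id := by
      funext q
      exact Quotient.out_eq' q
    rw [this, List.map_id]
  refine ⟨β', ?_, ?_, ?_, ?_⟩
  · obtain ⟨C, hC⟩ := hOK.bdd
    exact ⟨C, fun l => hC _⟩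
  · intro g l
    obtain ⟨l', rfl⟩ := hlift l
    rw [hmk, List.map_map]
    have h1 : ((fun b : Γ ⧸ N => g • b) ∘ fun g' : Γ => (g' : Γ ⧸ N)) =
        (fun g' : Γ => (g' : Γ ⧸ N)) ∘ fun g' => g • g' := by
      funext g'
      rfl
    rw [h1, ← List.map_map, hmk]
    exact hOK.inv g l'
  · funext l
    obtain ⟨l', rfl⟩ := hlift l
    unfold cob
    rw [dl_map, pair_mapDomain']
    have h1 : (fun l : List Γ => β' (l.map (fun g : Γ => (g : Γ ⧸ N)))) = β'' := funext hmk
    rw [h1]
    exact congrFun hOK.cob l'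
  · intro w hw
    have h1 : dual (push (fun g : Γ => Finsupp.single (g : Γ ⧸ N) (1 : ℝ))) β' = β'' := by
      funext l
      rw [dual_push_dirac (fun g : Γ => (g : Γ ⧸ N)), hmk]
    rw [h1]
    exact hOK.pair w hw

end Pool.SV
end

/- Helper16.LDA.SV.Flow -/
section
open Set Finset

namespace Pool.SV

section Geometry

variable {E : Type*} [NormedAddCommGroup E] [NormedSpace ℝ E] [FiniteDimensional ℝ E]

theorem Flow.exp_add_smul (T : Alg E) (s t : ℝ) :
    NormedSpace.exp ((s + t) • T) = NormedSpace.exp (s • T) * NormedSpace.exp (t • T) := by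
  haveI : CompleteSpace E := FiniteDimensional.complete ℝ E
  rw [add_smul]
  apply NormedSpace.exp_add_of_commute
  exact ((Commute.refl T).smul_left s).smul_right t

theorem flow_preserves (Γ : Subgroup (E ≃ᵃ[ℝ] E)) (X : Set E) (hX : IsOpen X)
    (hinv : ∀ g ∈ Γ, ∀ x ∈ X, g x ∈ X)
    (hcc : ∃ K ⊆ X, IsCompact K ∧ ∀ x ∈ X, ∃ g ∈ Γ, g x ∈ K)
    (T : Alg E) (hT : ∀ v, (T v).2 = 0) (hc : ∀ g ∈ Γ, Commute (hat g) T) :
    ∀ t : ℝ, ∀ x ∈ X, act (NormedSpace.exp (t • T)) x ∈ X := by
  haveI : CompleteSpace E := FiniteDimensional.complete ℝ E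
  obtain ⟨K, hKX, hK, hcov⟩ := hcc
  have hTg : IsGen T := hT
  have hcont : Continuous (fun p : ℝ × E => act (NormedSpace.exp (p.1 • T)) p.2) := by
    have h1 : Continuous (fun p : ℝ × E => (NormedSpace.exp (p.1 • T), p.2)) := by
      apply Continuous.prodMk
      · exact NormedSpace.exp_continuous.comp (by fun_prop)
      · exact continuous_snd
    exact continuous_act_uncurry.comp h1
  have hopen : IsOpen ((fun p : ℝ × E => act (NormedSpace.exp (p.1 • T)) p.2) ⁻¹' X) :=
    hX.preimage hcont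
  have hsub : ({0} : Set ℝ) ×ˢ K ⊆ (fun p : ℝ × E => act (NormedSpace.exp (p.1 • T)) p.2) ⁻¹' X := by
    rintro ⟨t, x⟩ ⟨ht, hx⟩
    simp only [Set.mem_singleton_iff] at ht
    simp only [Set.mem_preimage]
    rw [ht, zero_smul, NormedSpace.exp_zero, act_one]
    exact hKX hx
  obtain ⟨U, W, hU, _, h0U, hKW, hUW⟩ := generalized_tube_lemma isCompact_singleton hK hopen hsub
  obtain ⟨ε, hε, hball⟩ := Metric.isOpen_iff.1 hU 0 (h0U rfl)
  have hstep : ∀ t : ℝ, |t| < ε → ∀ x ∈ X, act (NormedSpace.exp (t • T)) x ∈ X := by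
    intro t ht x hx
    obtain ⟨g, hg, hgx⟩ := hcov x hx
    have htU : t ∈ U := hball (by rw [Metric.mem_ball, dist_zero_right, Real.norm_eq_abs]; exact ht)
    have h1 : act (NormedSpace.exp (t • T)) (g x) ∈ X := hUW (Set.mk_mem_prod htU (hKW hgx))
    have hcomm : Commute (hat g) (NormedSpace.exp (t • T)) :=
      ((hc g hg).smul_right t).exp_right
    have h2 : act (NormedSpace.exp (t • T)) (g x) = g (act (NormedSpace.exp (t • T)) x) := by
      rw [← act_hat g x, ← act_hat g (act _ x), ← act_mul (isAff_hat g),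
        ← act_mul (isAff_exp (hTg.smul t)), hcomm.eq]
    rw [h2] at h1
    have h3 := hinv g⁻¹ (Γ.inv_mem hg) _ h1
    have h4 : (g⁻¹ : E ≃ᵃ[ℝ] E) (g (act (NormedSpace.exp (t • T)) x)) =
        act (NormedSpace.exp (t • T)) x := by
      have : (g⁻¹ * g : E ≃ᵃ[ℝ] E) (act (NormedSpace.exp (t • T)) x) =
        act (NormedSpace.exp (t • T)) x := by rw [inv_mul_cancel]; rfl
      exact this
    rwa [h4] at h3
  have hind : ∀ n : ℕ, ∀ t : ℝ, |t| < ε → ∀ x ∈ X, act (NormedSpace.exp ((n * t) • T)) x ∈ X := by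
    intro n t ht
    induction n with
    | zero =>
      intro x hx
      rw [Nat.cast_zero, zero_mul, zero_smul, NormedSpace.exp_zero, act_one]
      exact hx
    | succ n ih =>
      intro x hx
      have h1 : ((n + 1 : ℕ) * t : ℝ) = n * t + t := by push_cast; ring
      rw [h1, Flow.exp_add_smul, act_mul (isAff_exp (hTg.smul t))]
      exact ih _ (hstep t ht x hx)
  intro t x hx
  obtain ⟨n, hn⟩ := exists_nat_gt (|t| / ε)
  have hn0 : (0 : ℝ) < n := lt_of_le_of_lt (by (clear * - hε; positivity)) hn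
  have h1 : |t / n| < ε := by
    rw [abs_div, abs_of_pos hn0, div_lt_iff₀ hn0]
    rw [div_lt_iff₀ hε] at hn
    linarith
  have h2 := hind n (t / n) h1 x hx
  rwa [mul_div_cancel₀ _ hn0.ne'] at h2

end Geometry

end Pool.SV
end

/- Helper16.LDA.SV.Transfer -/
section
open Set Finset

namespace Pool.SV

namespace Transfer

theorem pair_map {A B : Type*} (β : List B → ℝ) (f : A → B) (w : L A) :
    pair β (w.mapDomain (List.map f)) = pair (fun l => β (l.map f)) w := by
  unfold pair
  rw [Finsupp.linearCombination_mapDomain]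
  rfl

theorem cone_map {A B : Type*} (f : A → B) (a : A) (c : L A) :
    cone (f a) (c.mapDomain (List.map f)) = (cone a c).mapDomain (List.map f) := by
  unfold cone
  rw [Finsupp.lmapDomain_apply, Finsupp.lmapDomain_apply, ← Finsupp.mapDomain_comp,
    ← Finsupp.mapDomain_comp]
  rfl

theorem dl_map {A B : Type*} (f : A → B) (l : List A) :
    dl (l.map f) = (dl l).mapDomain (List.map f) := by
  induction l with
  | nil => simp [dl]
  | cons a l ih =>
    simp only [List.map_cons, dl]
    rw [ih, cone_map, Finsupp.mapDomain_sub, Finsupp.mapDomain_single]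

theorem cob_map {A B : Type*} (f : A → B) (α : List B → ℝ) (l : List A) :
    cob (fun l => α (l.map f)) l = cob α (l.map f) := by
  unfold cob
  rw [dl_map, pair_map]

theorem push_dirac {A B : Type*} (f : A → B) (l : List A) :
    push (fun a => Finsupp.single (f a) (1 : ℝ)) l = Finsupp.single (l.map f) 1 := by
  induction l with
  | nil => rfl
  | cons a l ih =>
    simp only [push, List.map_cons]
    rw [Finsupp.sum_single_index (by rw [zero_smul]), ih, one_smul]
    unfold cone
    rw [Finsupp.lmapDomain_apply, Finsupp.mapDomain_single]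

theorem dual_dirac {A B : Type*} (f : A → B) (β : List B → ℝ) :
    dual (push (fun a => Finsupp.single (f a) (1 : ℝ))) β = fun l => β (l.map f) := by
  funext l
  unfold dual
  rw [push_dirac]
  unfold pair
  rw [Finsupp.linearCombination_single, one_smul]

theorem support_map {A B : Type*} (f : A → B) (w : L A) (n : ℕ)
    (hw : ∀ l ∈ w.support, l.length = n) :
    ∀ l ∈ (w.mapDomain (List.map f)).support, l.length = n := by
  classical
  intro l hl
  have h1 := Finsupp.mapDomain_support hl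
  rw [Finset.mem_image] at h1
  obtain ⟨l', hl', rfl⟩ := h1
  rw [List.length_map]
  exact hw l' hl'

/-- the vanishing property for an abstract action -/
def VA (Γ : Type*) (B : Type*) [Group Γ] [MulAction Γ B] (n : ℕ) : Prop :=
  ∀ β : List B → ℝ, Bdd β → Inv Γ β → cob β = 0 → ∀ w : L B, Cyc Γ w →
    (∀ l ∈ w.support, l.length = n) → pair β w = 0

/-- same group, larger domain -/
theorem va_of_retract (Γ : Type*) {A A' : Type*} [Group Γ] [MulAction Γ A] [MulAction Γ A'] (n : ℕ)
    (κ : A → A') (ι : A' → A) (hκ : ∀ (g : Γ) (x : A), κ (g • x) = g • κ x)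
    (hι : ∀ (g : Γ) (x : A'), ι (g • x) = g • ι x) (hV : VA Γ A' n) : VA Γ A n := by
  intro β hb hi hc w hw hlen
  have hhom := push_homotopic Γ (A := A) (B := A)
    (fun x => Finsupp.single (ι (κ x)) (1 : ℝ))
    (fun x => Finsupp.single x (1 : ℝ))
    (fun a => by
      show (Finsupp.single (ι (κ a)) (1 : ℝ)).sum (fun _ c => c) = 1
      rw [Finsupp.sum_single_index rfl])
    (fun a => by
      show (Finsupp.single a (1 : ℝ)).sum (fun _ c => c) = 1
      rw [Finsupp.sum_single_index rfl])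
    (fun g a => by
      show Finsupp.single (ι (κ (g • a))) (1 : ℝ) =
        (Finsupp.single (ι (κ a)) (1 : ℝ)).mapDomain (fun b => g • b)
      rw [Finsupp.mapDomain_single, hκ, hι])
    (fun g a => by
      show Finsupp.single (g • a) (1 : ℝ) =
        (Finsupp.single a (1 : ℝ)).mapDomain (fun b => g • b)
      rw [Finsupp.mapDomain_single]) β hi hc w hw
  rw [dual_dirac, dual_dirac] at hhom
  have h2 : (fun l : List A => β (l.map (fun x => x))) = β := by
    funext l
    simp
  rw [h2] at hhom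
  rw [← hhom]
  have h3 : (fun l : List A => β (l.map (fun x => ι (κ x)))) =
      fun l => (fun l' : List A' => β (l'.map ι)) (l.map κ) := by
    funext l
    simp only [List.map_map]
    rfl
  rw [h3, ← pair_map (fun l' : List A' => β (l'.map ι)) κ w]
  apply hV (fun l' : List A' => β (l'.map ι))
  · obtain ⟨C, hC⟩ := hb
    exact ⟨C, fun l => hC _⟩
  · intro g l
    simp only [List.map_map]
    have h4 := hi g (l.map ι)
    rw [List.map_map] at h4
    rw [← h4]
    congr 2
    funext x
    exact hι g x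
  · funext l
    rw [cob_map, hc]
    rfl
  · intro α hα
    have h4 : (fun l : List A => cob α (l.map κ)) = cob (fun l : List A => α (l.map κ)) := by
      funext l
      rw [cob_map]
    rw [pair_map, h4]
    apply hw
    intro g l
    show α ((l.map (fun b => g • b)).map κ) = α (l.map κ)
    rw [List.map_map]
    have h5 : (κ ∘ fun b => g • b) = (fun x : A' => g • x) ∘ κ := by
      funext x
      exact hκ g x
    rw [h5, ← List.map_map]
    exact hα g _
  · exact support_map _ w _ hlen

/-- smaller group, same domain -/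
theorem va_of_finiteIndex (Γ : Type*) {B : Type*} [Group Γ] [MulAction Γ B] (n : ℕ)
    (H : Subgroup Γ) [H.FiniteIndex] (hV : VA H B n) : VA Γ B n := by
  classical
  intro β hb hi hc w hw hlen
  haveI : Fintype (Γ ⧸ H) := Fintype.ofFinite _
  let r : (Γ ⧸ H) → Γ := fun q => (Quotient.out q)⁻¹
  let w1 : L B := ∑ q : Γ ⧸ H, w.mapDomain (List.map (fun x => r q • x))
  have hpair : ∀ α : List B → ℝ, pair α w1 =
      pair (fun l => ∑ q : Γ ⧸ H, α (l.map (fun x => r q • x))) w := by
    intro α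
    have h1 : pair α w1 = ∑ q : Γ ⧸ H, pair (fun l => α (l.map (fun x => r q • x))) w := by
      show pair α (∑ q : Γ ⧸ H, w.mapDomain (List.map (fun x => r q • x))) = _
      rw [map_sum]
      apply Finset.sum_congr rfl
      intro q _
      rw [pair_map]
    rw [h1]
    unfold pair
    simp only [Finsupp.linearCombination_apply, Finsupp.sum, smul_eq_mul]
    rw [Finset.sum_comm]
    apply Finset.sum_congr rfl
    intro l _
    rw [Finset.mul_sum]
  have h1 : pair β w1 = 0 := by
    apply hV β hb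
    · intro g l
      exact hi (g : Γ) l
    · exact hc
    · intro α hα
      rw [hpair (cob α)]
      have h2 : (fun l => ∑ q : Γ ⧸ H, cob α (l.map (fun x => r q • x))) =
          cob (fun l => ∑ q : Γ ⧸ H, α (l.map (fun x => r q • x))) := by
        funext l
        have h3 : ∀ q : Γ ⧸ H, cob α (l.map (fun x => r q • x)) =
            cob (fun l => α (l.map (fun x => r q • x))) l := by
          intro q
          rw [cob_map]
        rw [Finset.sum_congr rfl (fun q _ => h3 q)]
        unfold cob pair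
        simp only [Finsupp.linearCombination_apply, Finsupp.sum, smul_eq_mul]
        rw [Finset.sum_comm]
        apply Finset.sum_congr rfl
        intro l _
        rw [Finset.mul_sum]
      rw [h2]
      apply hw
      intro g l
      simp only [List.map_map]
      -- reindex
      have h3 : ∀ q : Γ ⧸ H, α (l.map ((fun x : B => r q • x) ∘ fun b => g • b)) =
          α (l.map (fun x : B => r (g⁻¹ • q) • x)) := by
        intro q
        have h4 : (((g⁻¹ * q.out : Γ)) : Γ ⧸ H) = g⁻¹ • q := by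
          conv_rhs => rw [← Quotient.out_eq q]
          rfl
        have h5 : ((g⁻¹ • q).out : Γ)⁻¹ * (g⁻¹ * q.out) ∈ H := by
          rw [← QuotientGroup.eq]
          rw [h4]
          exact Quotient.out_eq _
        set hh : Γ := ((g⁻¹ • q).out : Γ)⁻¹ * (g⁻¹ * q.out) with hhh
        have h6 : r q * g = hh⁻¹ * r (g⁻¹ • q) := by
          show (q.out : Γ)⁻¹ * g = hh⁻¹ * ((g⁻¹ • q).out : Γ)⁻¹
          rw [hhh]
          group
        have h7 : (fun x : B => r q • x) ∘ (fun b => g • b) =
            (fun x : B => hh⁻¹ • x) ∘ (fun x : B => r (g⁻¹ • q) • x) := by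
          funext x
          show r q • g • x = hh⁻¹ • r (g⁻¹ • q) • x
          rw [← mul_smul, ← mul_smul, h6]
        rw [h7, ← List.map_map]
        exact hα ⟨hh⁻¹, H.inv_mem h5⟩ _
      rw [Finset.sum_congr rfl (fun q _ => h3 q)]
      exact Equiv.sum_comp (MulAction.toPerm g⁻¹)
        (fun q : Γ ⧸ H => α (l.map (fun x : B => r q • x)))
    · intro l hl
      have h2 := Finsupp.support_finsetSum hl
      rw [Finset.mem_biUnion] at h2
      obtain ⟨q, _, hq⟩ := h2
      exact support_map _ w _ hlen l hq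
  rw [hpair β] at h1
  have h2 : (fun l => ∑ q : Γ ⧸ H, β (l.map (fun x => r q • x))) =
      fun l => (Fintype.card (Γ ⧸ H) : ℝ) * β l := by
    funext l
    rw [Finset.sum_congr rfl (fun q _ => hi (r q) l), Finset.sum_const, nsmul_eq_mul]
    rfl
  rw [h2] at h1
  have h3 : pair (fun l => (Fintype.card (Γ ⧸ H) : ℝ) * β l) w =
      (Fintype.card (Γ ⧸ H) : ℝ) * pair β w := by
    unfold pair
    simp only [Finsupp.linearCombination_apply, Finsupp.sum, smul_eq_mul]
    rw [Finset.mul_sum]
    apply Finset.sum_congr rfl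
    intro l _
    ring
  rw [h3] at h1
  have h4 : (Fintype.card (Γ ⧸ H) : ℝ) ≠ 0 := by
    have : 0 < Fintype.card (Γ ⧸ H) := Fintype.card_pos
    positivity
  exact (mul_eq_zero.1 h1).resolve_left h4

/-- an equivariant map to an orbit of a free action -/
theorem exists_equivariant (Γ : Type*) {A A' : Type*} [Group Γ] [MulAction Γ A] [MulAction Γ A']
    (hfree : ∀ (g : Γ) (x : A), g • x = x → g = 1) (y0 : A') :
    ∃ κ : A → A', ∀ (g : Γ) (x : A), κ (g • x) = g • κ x := by
  letI s : Setoid A := MulAction.orbitRel Γ A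
  let ρ : A → A := fun x => (Quotient.mk s x).out
  have hρ : ∀ x, ∃ g : Γ, g • ρ x = x := by
    intro x
    have h1 : s (ρ x) x := Quotient.exact (Quotient.out_eq (Quotient.mk s x))
    have h2 : s x (ρ x) := s.symm h1
    exact h2
  choose gg hgg using hρ
  refine ⟨fun x => gg x • y0, ?_⟩
  intro g x
  have h1 : ρ (g • x) = ρ x := by
    show (Quotient.mk s _).out = (Quotient.mk s _).out
    congr 1
    apply Quotient.sound
    exact ⟨g, rfl⟩
  have h2 := hgg (g • x)
  rw [h1] at h2
  have h4 : gg (g • x) = g * gg x := by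
    have h5 : ((g * gg x)⁻¹ * gg (g • x)) • ρ x = ρ x := by
      rw [mul_smul, h2, inv_smul_eq_iff, mul_smul, hgg]
    have h6 := hfree _ _ h5
    exact (inv_mul_eq_one.1 h6).symm
  show gg (g • x) • y0 = g • gg x • y0
  rw [h4, mul_smul]

end Transfer

section Geometry

variable {E : Type*} [NormedAddCommGroup E] [NormedSpace ℝ E]

theorem vanish_transfer (D D' : Geo E) (hΓ : D'.Γ ≤ D.Γ) (hfin : D'.Γ.relIndex D.Γ ≠ 0)
    (hX : D'.X ⊆ D.X) (hV : Vanish D') : Vanish D := by
  haveI : (D'.Γ.subgroupOf D.Γ).FiniteIndex := ⟨hfin⟩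
  apply Transfer.va_of_finiteIndex D.Γ _ (D'.Γ.subgroupOf D.Γ)
  letI act : MulAction D'.Γ D.X := MulAction.compHom D.X (Subgroup.inclusion hΓ)
  have hcoe : ∀ (g : D'.Γ) (x : D.X), ((g • x : D.X) : E) = g.1 x.1 := fun g x => rfl
  obtain ⟨y0, hy0⟩ := D'.nonempty
  obtain ⟨κ, hκ⟩ := Transfer.exists_equivariant D'.Γ (A := D.X) (A' := D'.X)
    (fun g x h => Subtype.ext (D.free g.1 (hΓ g.2) x.1 x.2 (by
      rw [← hcoe, h]))) ⟨y0, hy0⟩
  have hA : Transfer.VA D'.Γ D.X (Module.finrank ℝ E + 1) := by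
    apply Transfer.va_of_retract D'.Γ _ κ (fun x : D'.X => (⟨x.1, hX x.2⟩ : D.X)) hκ
    · intro g x
      rfl
    · exact hV
  intro β hb hi hc w hw hlen
  apply hA β hb _ hc w _ hlen
  · intro g l
    exact hi ⟨⟨g.1, hΓ g.2⟩, Subgroup.mem_subgroupOf.2 g.2⟩ l
  · intro α hα
    apply hw
    intro g l
    exact hα ⟨((g : D.Γ) : E ≃ᵃ[ℝ] E), Subgroup.mem_subgroupOf.1 g.2⟩ l

end Geometry

end Pool.SV
end

/- Helper84.SV.DefsK -/
section
open Set Finset

namespace Pool.SV

/-- `Γ` has a nontrivial abelian normal subgroup. -/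
def HasAbNormal (Γ : Type*) [Group Γ] : Prop :=
  ∃ A : Subgroup Γ, A.Normal ∧ A ≠ ⊥ ∧ ∀ a ∈ A, ∀ b ∈ A, a * b = b * a

/-- The representation modulo the image of the idempotent `e` is discrete. -/
def DiscMod {Γ R : Type*} [Group Γ] [NormedRing R] (φ : Γ →* R) (e : R) : Prop :=
  ∀ C : ℝ, {g : Γ | ‖(1 - e) * φ g * (1 - e)‖ ≤ C ∧ ‖(1 - e) * φ g⁻¹ * (1 - e)‖ ≤ C}.Finite

variable {E : Type*} [NormedAddCommGroup E] [NormedSpace ℝ E] [FiniteDimensional ℝ E]

/-- The representation on `E × ℝ`. -/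
noncomputable def hatHom (Γ : Subgroup (E ≃ᵃ[ℝ] E)) : Γ →* Alg E where
  toFun g := hat g.1
  map_one' := hat_one
  map_mul' g h := hat_mul g.1 h.1

/-- `Γ` preserves a flag of the lineality space of `X`, and acts on each quotient of the flag by
similarities of some norm. -/
def SimFlag (Γ : Subgroup (E ≃ᵃ[ℝ] E)) (X : Set E) : Prop :=
  ∃ (r : ℕ) (F : ℕ → Submodule ℝ E), F 0 = ⊥ ∧
    (∀ v, v ∈ F r ↔ ∀ x ∈ X, ∀ t : ℝ, x + t • v ∈ X) ∧
    ∀ i < r, F i ≤ F (i + 1) ∧ ∃ p : Seminorm ℝ E, (∀ v ∈ F (i + 1), p v = 0 ↔ v ∈ F i) ∧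
      ∀ g ∈ Γ, ∃ c : ℝ, ∀ v ∈ F (i + 1), g.linear v ∈ F (i + 1) ∧ p (g.linear v) = c * p v

end Pool.SV
end

/- Helper16.LDA.SV.Base -/
section
/-!
# SVK-4: proper discontinuity gives discreteness (helper83)
-/

open Set Finset

namespace Pool.SV

variable {E : Type*} [NormedAddCommGroup E] [NormedSpace ℝ E] [FiniteDimensional ℝ E]

theorem norm_apply_le (g : E ≃ᵃ[ℝ] E) (x : E) : ‖g x‖ ≤ ‖hat g‖ * ‖((x, 1) : E × ℝ)‖ := by
  have h1 : (hat g (x, 1)).1 = g x := act_hat g x
  rw [← h1]
  exact (norm_fst_le _).trans ((hat g).le_opNorm _)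

theorem norm_linear_le (g : E ≃ᵃ[ℝ] E) (v : E) : ‖g.linear v‖ ≤ ‖hat g‖ * ‖v‖ := by
  have h1 : (hat g (v, 0)).1 = g.linear v := by
    rw [hat_apply]
    simp
  have h2 : ‖((v, 0) : E × ℝ)‖ = ‖v‖ := by
    simp [Prod.norm_def]
  rw [← h1, ← h2]
  exact (norm_fst_le _).trans ((hat g).le_opNorm _)

theorem disc_of_geo (D : Geo E) : DiscMod (hatHom D.Γ) 0 := by
  intro C
  obtain ⟨x, hx⟩ := D.nonempty
  obtain ⟨r, hr, hball⟩ := Metric.isOpen_iff.1 D.isOpen x hx
  set C₁ : ℝ := |C| + 1 with hC₁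
  have hC1 : 1 ≤ C₁ := by
    have := abs_nonneg C
    linarith only [this]
  have hC0 : 0 < C₁ := lt_of_lt_of_le one_pos hC1
  have hCC : C ≤ C₁ := by
    have := le_abs_self C
    linarith
  set ρ : ℝ := r / C₁ with hρ
  have hρ0 : 0 < ρ := div_pos hr hC0
  have hρr : ρ ≤ r := div_le_self hr.le hC1
  set K : Set E := Metric.closedBall 0 (C₁ * ‖((x, 1) : E × ℝ)‖) ∩
    (Metric.thickening ρ (D.X)ᶜ)ᶜ with hK
  have hKc : IsCompact K :=
    (isCompact_closedBall 0 _).inter_right Metric.isOpen_thickening.isClosed_compl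
  have hmem : ∀ y : E, y ∈ (Metric.thickening ρ (D.X)ᶜ)ᶜ ↔ Metric.ball y ρ ⊆ D.X := by
    intro y
    rw [Set.mem_compl_iff, Metric.mem_thickening_iff]
    constructor
    · intro h z hz
      by_contra hzX
      exact h ⟨z, hzX, by rw [dist_comm]; exact hz⟩
    · rintro h ⟨z, hzX, hz⟩
      exact hzX (h (by rw [Metric.mem_ball, dist_comm]; exact hz))
  have hKX : K ⊆ D.X := fun y hy =>
    (hmem y).1 hy.2 (Metric.mem_ball_self hρ0)
  have hfin := D.pd K hKX hKc
  refine (hfin.preimage (f := fun g : D.Γ => g.1) (Subtype.val_injective.injOn)).subset ?_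
  rintro g ⟨h1, h2⟩
  rw [sub_zero, one_mul, mul_one] at h1 h2
  have h1' : ‖hat g.1‖ ≤ C₁ := h1.trans hCC
  have h2' : ‖hat (g.1⁻¹)‖ ≤ C₁ := h2.trans hCC
  refine ⟨g.2, x, ⟨?_, ?_⟩, ?_, ?_⟩
  · rw [Metric.mem_closedBall, dist_zero_right]
    calc ‖x‖ ≤ ‖((x, 1) : E × ℝ)‖ := norm_fst_le (x, (1 : ℝ))
      _ ≤ C₁ * ‖((x, 1) : E × ℝ)‖ := le_mul_of_one_le_left (norm_nonneg _) hC1
  · rw [hmem]
    exact (Metric.ball_subset_ball hρr).trans hball
  · rw [Metric.mem_closedBall, dist_zero_right]
    exact (norm_apply_le g.1 x).trans (mul_le_mul_of_nonneg_right h1' (norm_nonneg _))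
  · rw [hmem]
    intro z hz
    have h3 : g.1⁻¹ z ∈ D.X := by
      apply hball
      rw [Metric.mem_ball, dist_eq_norm]
      have h4 : g.1⁻¹ z - x = (g.1⁻¹).linear (z - g.1 x) := by
        have h5 : g.1⁻¹ (g.1 x) = x := by
          change (g.1⁻¹ * g.1) x = x
          rw [inv_mul_cancel]
          rfl
        have h6 := aff_eq (g.1⁻¹) z
        have h7 := aff_eq (g.1⁻¹) (g.1 x)
        rw [h5] at h7
        rw [map_sub, h6]
        nth_rewrite 1 [h7]
        abel
      rw [h4]
      have h8 : ‖z - g.1 x‖ < ρ := by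
        rw [← dist_eq_norm]
        exact hz
      calc ‖(g.1⁻¹).linear (z - g.1 x)‖ ≤ ‖hat (g.1⁻¹)‖ * ‖z - g.1 x‖ := norm_linear_le _ _
        _ ≤ C₁ * ‖z - g.1 x‖ := mul_le_mul_of_nonneg_right h2' (norm_nonneg _)
        _ < C₁ * ρ := mul_lt_mul_of_pos_left h8 hC0
        _ = r := by rw [hρ]; field_simp
    have h9 : g.1 (g.1⁻¹ z) = z := by
      change (g.1 * g.1⁻¹) z = z
      rw [mul_inv_cancel]
      rfl
    rw [← h9]
    exact D.inv g.1 g.2 _ h3

end Pool.SV
end

/- Helper16.LDA.SV.Line -/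
section
open Set Finset

namespace Pool.SV

namespace Line

variable {E : Type*} [NormedAddCommGroup E] [NormedSpace ℝ E] [FiniteDimensional ℝ E]

/-- The lineality space. -/
def Lin (X : Set E) : Set E := {v | ∀ x ∈ X, ∀ t : ℝ, x + t • v ∈ X}

/-- Bound for symmetric segments centred in a compact set, modulo the lineality space. -/
theorem seg_bound {X : Set E} (hX : IsOpen X) (hconv : Convex ℝ X) {K : Set E}
    (hK : IsCompact K) (e : Alg E) (he : e * e = e)
    (hrange : ∀ v : E × ℝ, e v = v ↔ v.2 = 0 ∧ v.1 ∈ Lin X) :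
    ∃ R : ℝ, ∀ p ∈ K, ∀ v : E, p + v ∈ X → p - v ∈ X → ‖(1 - e) ((v, 0) : E × ℝ)‖ ≤ R := by
  by_contra hcon
  push Not at hcon
  have hee : ∀ z, e (e z) = e z := fun z => by
    rw [← mul_apply_eq_comp, he]
  choose p hp v hv1 hv2 hv3 using fun n : ℕ => hcon (n + 1)
  -- the first component of (1 - e) (v, 0)
  have key : ∀ w : E, (1 - e) ((w, 0) : E × ℝ) = (w - (e (w, 0)).1, 0) := by
    intro w
    have h2 : (e (w, 0)).2 = 0 := ((hrange _).1 (hee (w, 0))).1
    ext
    · simp
    · simp [h2]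
  set u : ℕ → E := fun n => v n - (e (v n, 0)).1 with hu
  have hunorm : ∀ n : ℕ, (n : ℝ) + 1 < ‖u n‖ := by
    intro n
    have h := hv3 n
    rw [key] at h
    have h1 : ‖((v n - (e (v n, 0)).1, 0) : E × ℝ)‖ = ‖u n‖ := by
      simp [Prod.norm_def, hu]
    rw [h1] at h
    exact h
  have hupos : ∀ n, 0 < ‖u n‖ := fun n => lt_trans (by positivity) (hunorm n)
  have hwLin : ∀ n, (e (v n, 0)).1 ∈ Lin X := fun n => ((hrange _).1 (hee (v n, 0))).2
  have hplus : ∀ n, p n + u n ∈ X := by
    intro n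
    have h := hwLin n (p n + v n) (hv1 n) (-1)
    convert h using 1
    simp only [hu]
    module
  have hminus : ∀ n, p n - u n ∈ X := by
    intro n
    have h := hwLin n (p n - v n) (hv2 n) 1
    convert h using 1
    simp only [hu]
    module
  -- compactness
  have hsph : IsCompact (Metric.sphere (0 : E) 1) := isCompact_sphere 0 1
  have hmem : ∀ n, (p n, (‖u n‖)⁻¹ • u n) ∈ K ×ˢ Metric.sphere (0 : E) 1 := by
    intro n
    refine ⟨hp n, ?_⟩
    rw [mem_sphere_zero_iff_norm, norm_smul, norm_inv, norm_norm]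
    exact inv_mul_cancel₀ (hupos n).ne'
  obtain ⟨⟨q, w⟩, hqw, φ, hφ, hlim⟩ := (hK.prod hsph).tendsto_subseq hmem
  have hq : Filter.Tendsto (fun n => p (φ n)) Filter.atTop (nhds q) :=
    (continuous_fst.tendsto _).comp hlim
  have hw : Filter.Tendsto (fun n => (‖u (φ n)‖)⁻¹ • u (φ n)) Filter.atTop (nhds w) :=
    (continuous_snd.tendsto _).comp hlim
  have hw1 : ‖w‖ = 1 := mem_sphere_zero_iff_norm.1 hqw.2
  -- the line through q
  have hline : ∀ t : ℝ, q + t • w ∈ closure X := by
    intro t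
    have h1 : Filter.Tendsto (fun n => p (φ n) + t • ((‖u (φ n)‖)⁻¹ • u (φ n))) Filter.atTop
        (nhds (q + t • w)) := hq.add (hw.const_smul t)
    refine mem_closure_of_tendsto h1 ?_
    obtain ⟨N, hN⟩ := exists_nat_ge |t|
    filter_upwards [Filter.eventually_ge_atTop N] with n hn
    have h2 : |t| ≤ ‖u (φ n)‖ := by
      have h3 : (N : ℝ) ≤ (φ n : ℕ) := by exact_mod_cast hn.trans (hφ.id_le n)
      have := hunorm (φ n)
      linarith only [hN, h3, this]
    have h4 := hupos (φ n)
    set s : ℝ := t * (‖u (φ n)‖)⁻¹ with hs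
    have hs1 : |s| ≤ 1 := by
      rw [hs, abs_mul, abs_inv, abs_norm]
      rw [← div_eq_mul_inv, div_le_one h4]
      exact h2
    have hs2 := abs_le.1 hs1
    have h5 := hconv (hminus (φ n)) (hplus (φ n)) (a := (1 - s) / 2) (b := (1 + s) / 2)
      (by linarith only [hs2]) (by linarith only [hs2]) (by ring)
    convert h5 using 1
    rw [smul_smul, ← hs]
    module
  -- w is in the lineality space
  have hwl : w ∈ Lin X := by
    intro x hx t
    have hx' : ∃ δ : ℝ, 0 < δ ∧ x + δ • (x - q) ∈ X := by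
      have hc : Continuous (fun δ : ℝ => x + δ • (x - q)) := by fun_prop
      have h0 : (fun δ : ℝ => x + δ • (x - q)) 0 ∈ X := by simpa using hx
      have hnear := (hc.continuousAt (x := 0)).eventually (hX.mem_nhds h0)
      obtain ⟨ε, hε, hball⟩ := Metric.eventually_nhds_iff.1 hnear
      refine ⟨ε / 2, by (clear * - hε; positivity), hball ?_⟩
      rw [Real.dist_eq, sub_zero, abs_of_pos (by positivity)]
      linarith only [hε]
    obtain ⟨δ, hδ, hx'⟩ := hx'
    have h1 : x + δ • (x - q) ∈ interior X := by rwa [hX.interior_eq]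
    have h2 := hconv.combo_interior_closure_mem_interior h1 (hline ((1 + δ) / δ * t))
      (a := 1 / (1 + δ)) (b := δ / (1 + δ)) (by positivity) (by (clear * - hδ; positivity))
      (by (clear * - hδ; field_simp))
    rw [hX.interior_eq] at h2
    convert h2 using 1
    have hd : (1 + δ) ≠ 0 := by positivity
    have e1 : (1 / (1 + δ)) • (x + δ • (x - q)) + (δ / (1 + δ)) • (q + ((1 + δ) / δ * t) • w)
        = ((1 / (1 + δ)) * (1 + δ)) • x + ((δ / (1 + δ)) * ((1 + δ) / δ)) • t • w := by
      rw [show (1 / (1 + δ)) * (1 + δ) = 1 / (1 + δ) + δ * (1 / (1 + δ)) by ring]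
      rw [show δ / (1 + δ) = δ * (1 / (1 + δ)) by ring]
      module
    rw [e1, show (1 / (1 + δ)) * (1 + δ) = 1 by field_simp,
      show (δ / (1 + δ)) * ((1 + δ) / δ) = 1 by (clear * - hδ hd; field_simp), one_smul, one_smul]
  have hfix : e (w, 0) = (w, 0) := (hrange (w, 0)).2 ⟨rfl, hwl⟩
  -- but (1 - e) (w, 0) = (w, 0)
  have hkill : ∀ n, (1 - e) (((‖u n‖)⁻¹ • u n, 0) : E × ℝ) = ((‖u n‖)⁻¹ • u n, 0) := by
    intro n
    have h1 : ((u n, 0) : E × ℝ) = (1 - e) ((v n, 0) : E × ℝ) := (key (v n)).symm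
    have h2 : (1 - e) ((u n, 0) : E × ℝ) = (u n, 0) := by
      rw [h1]
      simp only [sub_apply, one_apply_eq_self, map_sub, hee]
      simp
    have h3 : (((‖u n‖)⁻¹ • u n, 0) : E × ℝ) = (‖u n‖)⁻¹ • ((u n, 0) : E × ℝ) := by
      ext <;> simp
    rw [h3, map_smul, h2]
  have hlim1 : Filter.Tendsto (fun n => (1 - e) (((‖u (φ n)‖)⁻¹ • u (φ n), 0) : E × ℝ))
      Filter.atTop (nhds ((1 - e) ((w, 0) : E × ℝ))) := by
    have hc : Continuous (fun y : E => (1 - e) ((y, 0) : E × ℝ)) := by fun_prop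
    exact (hc.tendsto w).comp hw
  have hlim2 : Filter.Tendsto (fun n => (1 - e) (((‖u (φ n)‖)⁻¹ • u (φ n), 0) : E × ℝ))
      Filter.atTop (nhds ((w, 0) : E × ℝ)) := by
    have hc : Continuous (fun y : E => ((y, 0) : E × ℝ)) := by fun_prop
    have h1 := (hc.tendsto w).comp hw
    refine h1.congr ?_
    intro n
    exact (hkill (φ n)).symm
  have heq := tendsto_nhds_unique hlim1 hlim2
  have h0 : (1 - e) ((w, 0) : E × ℝ) = 0 := by
    simp only [sub_apply, one_apply_eq_self, hfix, sub_self]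
  rw [h0] at heq
  have hw0 : w = 0 := by
    have := congrArg Prod.fst heq
    simpa using this.symm
  rw [hw0, norm_zero] at hw1
  exact zero_ne_one hw1

/-- Norm estimate. -/
theorem norm_bound (e : Alg E) (g : E ≃ᵃ[ℝ] E) (a : E) {r R S A : ℝ} (hr : 0 < r) (hR : 0 ≤ R)
    (hS : 0 ≤ S) (hA : 0 ≤ A) (h1 : ∀ y : E, ‖y‖ ≤ r → ‖(1 - e) ((g.linear y, 0) : E × ℝ)‖ ≤ R)
    (h2 : ‖(1 - e) ((g a, 1) : E × ℝ)‖ ≤ S) (h3 : ‖a‖ ≤ A) :
    ‖(1 - e) * hat g‖ ≤ R / r * (1 + A) + S := by
  have h1' : ∀ y : E, ‖(1 - e) ((g.linear y, 0) : E × ℝ)‖ ≤ R / r * ‖y‖ := by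
    intro y
    rcases eq_or_ne y 0 with rfl | hy
    · have : (1 - e) ((g.linear 0, 0) : E × ℝ) = 0 := by
        rw [map_zero]
        exact map_zero _
      rw [this]
      simp
    · have hy' : 0 < ‖y‖ := norm_pos_iff.2 hy
      have h4 := h1 ((r / ‖y‖) • y) (by
        rw [norm_smul, Real.norm_of_nonneg (by positivity)]
        rw [div_mul_cancel₀ _ hy'.ne'])
      have h5 : ((g.linear ((r / ‖y‖) • y), 0) : E × ℝ) = (r / ‖y‖) • ((g.linear y, 0) : E × ℝ) := by
        ext <;> simp
      rw [h5, map_smul, norm_smul, Real.norm_of_nonneg (by positivity)] at h4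
      rw [div_mul_eq_mul_div, div_le_iff₀ hy'] at h4
      rw [div_mul_eq_mul_div, le_div_iff₀ hr]
      linarith only [h4]
  refine ContinuousLinearMap.opNorm_le_bound _ (by (clear * - hR hr hA hS; positivity)) ?_
  intro z
  have hz : z.1 = (z.1 - z.2 • a) + z.2 • a := by abel
  have hdec : hat g z = (g.linear (z.1 - z.2 • a), 0) + z.2 • ((g a, 1) : E × ℝ) := by
    rw [hat_apply, aff_eq g a]
    ext
    · simp only [map_sub, map_smul, Prod.fst_add, Prod.smul_fst, smul_add]
      abel
    · simp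
  rw [mul_apply_eq_comp, hdec, map_add, map_smul]
  have hz1 : ‖z.1‖ ≤ ‖z‖ := norm_fst_le z
  have hz2 : ‖z.2‖ ≤ ‖z‖ := norm_snd_le z
  calc ‖(1 - e) ((g.linear (z.1 - z.2 • a), 0) : E × ℝ) + z.2 • (1 - e) ((g a, 1) : E × ℝ)‖
      ≤ ‖(1 - e) ((g.linear (z.1 - z.2 • a), 0) : E × ℝ)‖ +
        ‖z.2 • (1 - e) ((g a, 1) : E × ℝ)‖ := norm_add_le _ _
    _ ≤ R / r * ‖z.1 - z.2 • a‖ + ‖z.2‖ * S := by
        refine add_le_add (h1' _) ?_
        rw [norm_smul]
        exact mul_le_mul_of_nonneg_left h2 (norm_nonneg _)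
    _ ≤ R / r * ((1 + A) * ‖z‖) + ‖z‖ * S := by
        refine add_le_add (mul_le_mul_of_nonneg_left ?_ (by positivity))
          (mul_le_mul_of_nonneg_right hz2 hS)
        calc ‖z.1 - z.2 • a‖ ≤ ‖z.1‖ + ‖z.2 • a‖ := norm_sub_le _ _
          _ ≤ ‖z‖ + ‖z‖ * A := by
              rw [norm_smul]
              refine add_le_add hz1 (mul_le_mul hz2 h3 (norm_nonneg _) (norm_nonneg _))
          _ = (1 + A) * ‖z‖ := by ring
    _ = (R / r * (1 + A) + S) * ‖z‖ := by ring

end Line

open Line

section Geometry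

variable {E : Type*} [NormedAddCommGroup E] [NormedSpace ℝ E] [FiniteDimensional ℝ E]

theorem not_discMod (D : Geo E)
    (hcc : ∃ K ⊆ D.X, IsCompact K ∧ ∀ x ∈ D.X, ∃ g ∈ D.Γ, g x ∈ K)
    (hline : ∃ v : E, v ≠ 0 ∧ ∀ x ∈ D.X, ∀ t : ℝ, x + t • v ∈ D.X) (e : Alg E) (he : e * e = e)
    (hrange : ∀ v : E × ℝ, e v = v ↔ v.2 = 0 ∧ ∀ x ∈ D.X, ∀ t : ℝ, x + t • v.1 ∈ D.X) :
    ¬ DiscMod (hatHom D.Γ) e := by
  intro hd
  obtain ⟨K, hKX, hK, hcov⟩ := hcc
  obtain ⟨v, hv0, hv⟩ := hline
  obtain ⟨x, hx⟩ := D.nonempty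
  have hee : ∀ z, e (e z) = e z := fun z => by
    rw [← mul_apply_eq_comp, he]
  -- (1 - e) hat g e = 0
  have hginv : ∀ g ∈ D.Γ, ∀ w : E, (∀ y ∈ D.X, ∀ t : ℝ, y + t • w ∈ D.X) →
      ∀ y ∈ D.X, ∀ t : ℝ, y + t • g.linear w ∈ D.X := by
    intro g hg w hw y hy t
    have h1 : g⁻¹ y ∈ D.X := D.inv g⁻¹ (D.Γ.inv_mem hg) y hy
    have h2 := D.inv g hg _ (hw _ h1 t)
    have h3 : g (g⁻¹ y + t • w) = y + t • g.linear w := by
      rw [aff_eq g, map_add, map_smul]
      have h4 : g.linear (g⁻¹ y) + g 0 = y := by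
        rw [← aff_eq]
        exact g.apply_symm_apply y
      calc g.linear (g⁻¹ y) + t • g.linear w + g 0
          = (g.linear (g⁻¹ y) + g 0) + t • g.linear w := by abel
        _ = y + t • g.linear w := by rw [h4]
    rwa [h3] at h2
  have hkill : ∀ g ∈ D.Γ, (1 - e) * hat g * e = 0 := by
    intro g hg
    apply ContinuousLinearMap.ext
    intro z
    rw [mul_assoc, mul_apply_eq_comp, mul_apply_eq_comp]
    have h1 := (hrange (e z)).1 (hee z)
    have h2 : e (hat g (e z)) = hat g (e z) := by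
      rw [hrange]
      refine ⟨?_, ?_⟩
      · rw [hat_apply]
        exact h1.1
      · rw [hat_apply, h1.1, zero_smul, add_zero]
        exact hginv g hg _ h1.2
    rw [sub_apply, one_apply_eq_self, h2, sub_self]
    rfl
  have hred : ∀ g ∈ D.Γ, (1 - e) * hat g * (1 - e) = (1 - e) * hat g := by
    intro g hg
    rw [mul_sub, mul_one, hkill g hg, sub_zero]
  -- constants
  obtain ⟨R, hR⟩ := seg_bound D.isOpen D.convex hK e he hrange
  obtain ⟨R', hR'⟩ := seg_bound D.isOpen D.convex (isCompact_singleton (x := x)) e he hrange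
  obtain ⟨r, hr, hrK⟩ := hK.exists_cthickening_subset_open D.isOpen hKX
  obtain ⟨r', hr', hrx⟩ := (isCompact_singleton (x := x)).exists_cthickening_subset_open D.isOpen
    (by simpa using hx)
  obtain ⟨M, hM⟩ := hK.isBounded.exists_norm_le
  set R₁ := max R 0 with hR₁
  set R₂ := max R' 0 with hR₂
  set M₁ := max M 0 with hM₁
  have hball : ∀ p ∈ K, ∀ y : E, ‖y‖ ≤ r → p + y ∈ D.X ∧ p - y ∈ D.X := by
    intro p hp y hy
    have h1 := Metric.closedBall_subset_cthickening hp r
    refine ⟨hrK (h1 ?_), hrK (h1 ?_)⟩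
    · rw [Metric.mem_closedBall, dist_eq_norm]
      simpa using hy
    · rw [Metric.mem_closedBall, dist_eq_norm]
      simpa using hy
  have hball' : ∀ y : E, ‖y‖ ≤ r' → x + y ∈ D.X ∧ x - y ∈ D.X := by
    intro y hy
    have h1 := Metric.closedBall_subset_cthickening (Set.mem_singleton x) r'
    refine ⟨hrx (h1 ?_), hrx (h1 ?_)⟩
    · rw [Metric.mem_closedBall, dist_eq_norm]
      simpa using hy
    · rw [Metric.mem_closedBall, dist_eq_norm]
      simpa using hy
  -- the sequence
  have hseq : ∀ j : ℕ, ∃ g ∈ D.Γ, g (x + (j : ℝ) • v) ∈ K := fun j => hcov _ (hv x hx j)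
  choose g hg hgK using hseq
  have hsplit : ∀ (g : E ≃ᵃ[ℝ] E) (a b : E), g (a + b) = g a + g.linear b := by
    intro g a b
    rw [aff_eq g (a + b), aff_eq g a, map_add]
    abel
  -- (1 - e) kills lineality directions
  have hlin0 : ∀ w : E, (∀ y ∈ D.X, ∀ t : ℝ, y + t • w ∈ D.X) →
      (1 - e) ((w, 0) : E × ℝ) = 0 := by
    intro w hw
    have := (hrange (w, 0)).2 ⟨rfl, hw⟩
    rw [sub_apply, one_apply_eq_self, this, sub_self]
  have hb1 : ∀ j, ‖(1 - e) * hat (g j)‖ ≤ R₁ / r' * (1 + ‖x‖) + ‖(1 - e)‖ * max M₁ 1 := by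
    intro j
    refine norm_bound e (g j) x hr' (le_max_right _ _) (by (clear * -; positivity)) (norm_nonneg _) ?_ ?_ le_rfl
    · intro y hy
      obtain ⟨h1, h2⟩ := hball' y hy
      have h3 := D.inv (g j) (hg j) _ (hv _ h1 j)
      have h4 := D.inv (g j) (hg j) _ (hv _ h2 j)
      have h5 : g j (x + y + (j : ℝ) • v) = g j (x + (j : ℝ) • v) + (g j).linear y := by
        rw [← hsplit]
        congr 1
        abel
      have h6 : g j (x - y + (j : ℝ) • v) = g j (x + (j : ℝ) • v) - (g j).linear y := by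
        rw [sub_eq_add_neg (g j (x + (j : ℝ) • v)), ← map_neg, ← hsplit]
        congr 1
        abel
      rw [h5] at h3
      rw [h6] at h4
      exact (hR _ (hgK j) _ h3 h4).trans (le_max_left _ _)
    · have h1 : ((g j x, 1) : E × ℝ) = (g j (x + (j : ℝ) • v), 1) -
          (j : ℝ) • (((g j).linear v, 0) : E × ℝ) := by
        rw [hsplit]
        ext <;> simp
      rw [h1, map_sub, map_smul, hlin0 _ (hginv (g j) (hg j) v hv), smul_zero, sub_zero]
      refine (ContinuousLinearMap.le_opNorm _ _).trans ?_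
      refine mul_le_mul_of_nonneg_left ?_ (norm_nonneg _)
      rw [Prod.norm_def]
      refine max_le_max ?_ ?_
      · exact (hM _ (hgK j)).trans (le_max_left _ _)
      · simp
  have hb2 : ∀ j, ‖(1 - e) * hat (g j)⁻¹‖ ≤ R₂ / r * (1 + M₁) +
      ‖(1 - e) ((x, 1) : E × ℝ)‖ := by
    intro j
    have hback : (g j)⁻¹ (g j (x + (j : ℝ) • v)) = x + (j : ℝ) • v :=
      (g j).symm_apply_apply _
    refine norm_bound e (g j)⁻¹ (g j (x + (j : ℝ) • v)) hr (le_max_right _ _) (norm_nonneg _)
      (le_max_right _ _) ?_ ?_ ((hM _ (hgK j)).trans (le_max_left _ _))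
    · intro y hy
      obtain ⟨h1, h2⟩ := hball _ (hgK j) y hy
      have h3 := D.inv (g j)⁻¹ (D.Γ.inv_mem (hg j)) _ h1
      have h4 := D.inv (g j)⁻¹ (D.Γ.inv_mem (hg j)) _ h2
      rw [hsplit, hback] at h3
      rw [sub_eq_add_neg, hsplit, hback, map_neg, ← sub_eq_add_neg] at h4
      have h5 := hv _ h3 (-(j : ℝ))
      have h6 := hv _ h4 (-(j : ℝ))
      refine (hR' x (Set.mem_singleton x) _ ?_ ?_).trans (le_max_left _ _)
      · convert h5 using 1
        module
      · convert h6 using 1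
        module
    · rw [hback]
      have h1 : ((x + (j : ℝ) • v, 1) : E × ℝ) = (x, 1) + (j : ℝ) • ((v, 0) : E × ℝ) := by
        ext <;> simp
      rw [h1, map_add, map_smul, hlin0 v hv, smul_zero, add_zero]
  set C := max (R₁ / r' * (1 + ‖x‖) + ‖(1 - e)‖ * max M₁ 1)
    (R₂ / r * (1 + M₁) + ‖(1 - e) ((x, 1) : E × ℝ)‖) with hC
  have hfin := hd C
  have hmem : ∀ j, (⟨g j, hg j⟩ : D.Γ) ∈
      {g : D.Γ | ‖(1 - e) * hatHom D.Γ g * (1 - e)‖ ≤ C ∧
        ‖(1 - e) * hatHom D.Γ g⁻¹ * (1 - e)‖ ≤ C} := by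
    intro j
    refine ⟨?_, ?_⟩
    · change ‖(1 - e) * hat (g j) * (1 - e)‖ ≤ C
      rw [hred _ (hg j)]
      exact (hb1 j).trans (le_max_left _ _)
    · change ‖(1 - e) * hat (g j)⁻¹ * (1 - e)‖ ≤ C
      rw [hred _ (D.Γ.inv_mem (hg j))]
      exact (hb2 j).trans (le_max_right _ _)
  -- bound on j
  have hbd : BddAbove ((fun γ : D.Γ => (M + ‖γ.1 x‖) / ‖γ.1.linear v‖) ''
      {g : D.Γ | ‖(1 - e) * hatHom D.Γ g * (1 - e)‖ ≤ C ∧
        ‖(1 - e) * hatHom D.Γ g⁻¹ * (1 - e)‖ ≤ C}) := (hfin.image _).bddAbove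
  obtain ⟨B, hB⟩ := hbd
  obtain ⟨j, hj⟩ := exists_nat_gt B
  have h1 := hB (Set.mem_image_of_mem _ (hmem j))
  have h2 := hM _ (hgK j)
  have hne : (g j).linear v ≠ 0 := by
    intro h0
    apply hv0
    have : Function.Injective (g j).linear := (g j).linear.injective
    apply this
    rw [h0, map_zero]
  have hpos : 0 < ‖(g j).linear v‖ := norm_pos_iff.2 hne
  have h3 : (j : ℝ) * ‖(g j).linear v‖ ≤ M + ‖g j x‖ := by
    rw [hsplit, map_smul] at h2
    have h4 : (j : ℝ) * ‖(g j).linear v‖ = ‖(j : ℝ) • (g j).linear v‖ := by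
      rw [norm_smul, Real.norm_natCast]
    rw [h4]
    calc ‖(j : ℝ) • (g j).linear v‖ = ‖(g j x + (j : ℝ) • (g j).linear v) - g j x‖ := by
          congr 1
          abel
      _ ≤ ‖g j x + (j : ℝ) • (g j).linear v‖ + ‖g j x‖ := norm_sub_le _ _
      _ ≤ M + ‖g j x‖ := by linarith only [h2]
  have h5 : (j : ℝ) ≤ (M + ‖g j x‖) / ‖(g j).linear v‖ := by
    rw [le_div_iff₀ hpos]
    exact h3
  have h6 : (M + ‖g j x‖) / ‖(g j).linear v‖ ≤ B := h1
  linarith only [hj, h5, h6]

end Geometry

end Pool.SV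
end
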