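import Pool.Agent.Helper16.CPG.G01

/- Helper16.LDA.SV.Nu -/
section
open Set MeasureTheory Topology
open scoped Convolution

namespace Pool.SV

namespace Nu

variable {E : Type*} [NormedAddCommGroup E] [NormedSpace ℝ E] [FiniteDimensional ℝ E]

/-- The flow of the commuting generators `T i` at time `s`. -/
noncomputable def fl {k : ℕ} (T : Fin k → Alg E) (s : Fin k → ℝ) (x : E) : E :=
  act (NormedSpace.exp (∑ i, s i • T i)) x

theorem fl_zero {k : ℕ} (T : Fin k → Alg E) (x : E) : fl T 0 x = x := by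
  simp [fl, NormedSpace.exp_zero, act_one]

theorem commute_gen {k : ℕ} {T : Fin k → Alg E} (hcomm : ∀ i i', Commute (T i) (T i'))
    (s t : Fin k → ℝ) : Commute (∑ i, s i • T i) (∑ i, t i • T i) := by
  apply Commute.sum_left
  intro i _
  apply Commute.sum_right
  intro i' _
  exact ((hcomm i i').smul_left _).smul_right _

theorem fl_add {k : ℕ} {T : Fin k → Alg E} (hcomm : ∀ i i', Commute (T i) (T i'))
    (hT : ∀ i v, (T i v).2 = 0) (s t : Fin k → ℝ) (x : E) :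
    fl T (s + t) x = fl T s (fl T t x) := by
  unfold fl
  have h : (∑ i, (s + t) i • T i) = (∑ i, s i • T i) + ∑ i, t i • T i := by
    rw [← Finset.sum_add_distrib]
    apply Finset.sum_congr rfl
    intro i _
    rw [Pi.add_apply, add_smul]
  rw [h, NormedSpace.exp_add_of_commute (commute_gen hcomm s t),
    act_mul (isAff_exp (isGen_sum hT t))]

theorem contDiff_fl {k : ℕ} (T : Fin k → Alg E) (n : ℕ∞) :
    ContDiff ℝ n (fun p : (Fin k → ℝ) × E => fl T p.1 p.2) := by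
  unfold fl act
  have h1 : ContDiff ℝ n (fun A : Alg E => NormedSpace.exp A) := by
    rw [contDiff_iff_contDiffAt]
    intro A
    exact (NormedSpace.exp_analytic (𝕂 := ℝ) A).contDiffAt
  have h2 : ContDiff ℝ n (fun p : (Fin k → ℝ) × E => ∑ i, p.1 i • T i) := by
    fun_prop
  have h3 : ContDiff ℝ n (fun p : (Fin k → ℝ) × E => NormedSpace.exp (∑ i, p.1 i • T i)) :=
    h1.comp h2
  have h4 : ContDiff ℝ n (fun p : (Fin k → ℝ) × E => (p.2, (1 : ℝ))) := by
    fun_prop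
  exact (h3.clm_apply h4).fst

theorem continuous_fl {k : ℕ} (T : Fin k → Alg E) :
    Continuous (fun p : (Fin k → ℝ) × E => fl T p.1 p.2) :=
  (contDiff_fl T 0).continuous

/-- Conjugation of the flow. -/
theorem fl_conj {k : ℕ} {T : Fin k → Alg E} (g : E ≃ᵃ[ℝ] E) (hT : ∀ i v, (T i v).2 = 0)
    (hconj : ∀ i, hat g * T i * hat g⁻¹ ∈ Submodule.span ℝ (Set.range T)) (s : Fin k → ℝ) :
    ∃ s' : Fin k → ℝ, ∀ x, g (fl T s x) = fl T s' (g x) := by
  have h1 : hat g * (∑ i, s i • T i) * hat g⁻¹ ∈ Submodule.span ℝ (Set.range T) := by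
    rw [Finset.mul_sum, Finset.sum_mul]
    apply Submodule.sum_mem
    intro i _
    rw [mul_smul_comm, smul_mul_assoc]
    exact Submodule.smul_mem _ _ (hconj i)
  rw [Submodule.mem_span_range_iff_exists_fun] at h1
  obtain ⟨s', hs'⟩ := h1
  refine ⟨s', fun x => ?_⟩
  unfold fl
  let U : (Alg E)ˣ := ⟨hat g, hat g⁻¹, hat_mul_inv g, hat_inv_mul g⟩
  have h2 := NormedSpace.exp_units_conj U (∑ i, s i • T i)
  have h3 : (U : Alg E) = hat g := rfl
  have h4 : ((U⁻¹ : (Alg E)ˣ) : Alg E) = hat g⁻¹ := rfl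
  rw [h3, h4] at h2
  rw [hs', h2, ← act_hat g (act _ x), ← act_mul (isAff_exp (isGen_sum hT s)),
    ← act_hat g x, ← act_mul (isAff_hat g), mul_assoc (hat g * _), hat_inv_mul, mul_one]

/-- The data of the module, bundled. -/
structure Dat (D : Geo E) (k : ℕ) where
  T : Fin k → Alg E
  hcomm : ∀ i i', Commute (T i) (T i')
  hT : ∀ i v, (T i v).2 = 0
  j : (Fin k → ℤ) → D.Γ
  hj : ∀ a b, j (a + b) = j a * j b
  hinj : Function.Injective j
  N : Subgroup D.Γ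
  hN : ∀ g, g ∈ N ↔ ∃ m, j m = g
  hexp : ∀ m, hat (j m).1 = NormedSpace.exp (∑ i, (m i : ℝ) • T i)
  hconj : ∀ (g : D.Γ) (i : Fin k), hat g.1 * T i * hat (g⁻¹ : D.Γ).1 ∈
      Submodule.span ℝ (Set.range T)
  hU : ∀ (s : Fin k → ℝ), ∀ x ∈ D.X, act (NormedSpace.exp (∑ i, s i • T i)) x ∈ D.X

variable {D : Geo E} {k : ℕ} (A : Dat D k)

theorem j_zero : A.j 0 = 1 := by
  have h := A.hj 0 0
  rw [add_zero] at h
  exact left_eq_mul.1 h

theorem j_neg (m : Fin k → ℤ) : A.j (-m) = (A.j m)⁻¹ := by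
  have h := A.hj (-m) m
  rw [neg_add_cancel, j_zero] at h
  exact eq_inv_of_mul_eq_one_left h.symm

theorem fl_int (m : Fin k → ℤ) (x : E) : fl A.T (fun i => (m i : ℝ)) x = (A.j m).1 x := by
  unfold fl
  rw [← A.hexp, act_hat]

theorem fl_mem (s : Fin k → ℝ) {x : E} (hx : x ∈ D.X) : fl A.T s x ∈ D.X := A.hU s x hx

theorem fl_conj' (g : D.Γ) (s : Fin k → ℝ) :
    ∃ s' : Fin k → ℝ, ∀ x, g.1 (fl A.T s x) = fl A.T s' (g.1 x) :=
  fl_conj g.1 A.hT (A.hconj g) s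

/-- The image of a compact set under the flow with times in `[-1, 0]`. -/
theorem exists_box (C : Set E) (hC : IsCompact C) (hCX : C ⊆ D.X) :
    ∃ C1 : Set E, IsCompact C1 ∧ C1 ⊆ D.X ∧
      ∀ s : Fin k → ℝ, (∀ i, -1 ≤ s i ∧ s i ≤ 0) → ∀ x ∈ C, fl A.T s x ∈ C1 := by
  refine ⟨(fun p : (Fin k → ℝ) × E => fl A.T p.1 p.2) ''
    ((Set.Icc (fun _ => -1) (fun _ => 0)) ×ˢ C), ?_, ?_, ?_⟩
  · exact (isCompact_Icc.prod hC).image (continuous_fl A.T)
  · rintro _ ⟨p, hp, rfl⟩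
    exact fl_mem A _ (hCX hp.2)
  · intro s hs x hx
    exact ⟨(s, x), ⟨⟨fun i => (hs i).1, fun i => (hs i).2⟩, hx⟩, rfl⟩

theorem finite_pd (K : Set E) (hK : IsCompact K) (hKX : K ⊆ D.X) :
    {g : D.Γ | ∃ x ∈ K, g.1 x ∈ K}.Finite := by
  have h := D.pd K hKX hK
  have h2 := h.preimage (f := (Subtype.val : D.Γ → (E ≃ᵃ[ℝ] E))) Subtype.val_injective.injOn
  refine h2.subset ?_
  rintro g ⟨x, hx, hgx⟩
  exact ⟨g.2, x, hx, hgx⟩

/-- Properness. -/
theorem proper (K C : Set E) (hK : IsCompact K) (hKX : K ⊆ D.X) (hC : IsCompact C)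
    (hCX : C ⊆ D.X) :
    ∃ F : Set D.Γ, F.Finite ∧ ∀ (g : D.Γ), ∀ x ∈ K, ∀ s : Fin k → ℝ,
      fl A.T s (g.1 x) ∈ C → ∃ m : Fin k → ℤ, A.j m * g ∈ F ∧
        ∀ i, (m i : ℝ) ≤ s i ∧ s i ≤ m i + 1 := by
  obtain ⟨C1, hC1, hC1X, hbox⟩ := exists_box A C hC hCX
  refine ⟨_, finite_pd (K ∪ C1) (hK.union hC1) (Set.union_subset hKX hC1X), ?_⟩
  intro g x hx s hs
  refine ⟨fun i => ⌊s i⌋, ⟨x, Or.inl hx, Or.inr ?_⟩, fun i => ⟨Int.floor_le _,
    (Int.lt_floor_add_one _).le⟩⟩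
  have h1 := hbox (fun i => (⌊s i⌋ : ℝ) - s i) (fun i => ⟨by
    have := Int.lt_floor_add_one (s i)
    linarith only [this], by
    have := Int.floor_le (s i)
    (clear * - this; linarith only [this])⟩) _ hs
  rw [← fl_add A.hcomm A.hT] at h1
  have h2 : (fun i => (⌊s i⌋ : ℝ) - s i) + s = fun i => ((⌊s i⌋ : ℤ) : ℝ) := by
    funext i
    simp
  rw [h2, fl_int A (fun i => ⌊s i⌋)] at h1
  exact h1

/-- The times at which a compact set meets another one are bounded. -/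
theorem bounded_times (K C : Set E) (hK : IsCompact K) (hKX : K ⊆ D.X) (hC : IsCompact C)
    (hCX : C ⊆ D.X) :
    ∃ B : Set (Fin k → ℝ), IsCompact B ∧ ∀ x ∈ K, ∀ s : Fin k → ℝ,
      fl A.T s x ∈ C → s ∈ B := by
  obtain ⟨F, hF, hp⟩ := proper A K C hK hKX hC hCX
  have hF2 : (A.j ⁻¹' F).Finite := hF.preimage A.hinj.injOn
  refine ⟨⋃ m ∈ A.j ⁻¹' F, Set.Icc (fun i => (m i : ℝ)) (fun i => (m i : ℝ) + 1), ?_, ?_⟩
  · exact hF2.isCompact_biUnion fun m _ => isCompact_Icc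
  · intro x hx s hs
    obtain ⟨m, hm, hs2⟩ := hp 1 x hx s hs
    rw [mul_one] at hm
    exact Set.mem_biUnion hm ⟨fun i => (hs2 i).1, fun i => (hs2 i).2⟩

/-- The average of `χ` along the flow. -/
noncomputable def av (χ : E → ℝ) (x : E) : ℝ := ∫ s : Fin k → ℝ, χ (fl A.T s x)

theorem av_inv (χ : E → ℝ) (t : Fin k → ℝ) (x : E) : av A χ (fl A.T t x) = av A χ x := by
  unfold av
  rw [← integral_add_right_eq_self (fun s : Fin k → ℝ => χ (fl A.T s x)) t]
  congr 1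
  funext s
  rw [fl_add A.hcomm A.hT]

theorem av_nonneg {χ : E → ℝ} (h0 : ∀ x, 0 ≤ χ x) (x : E) : 0 ≤ av A χ x :=
  integral_nonneg fun _ => h0 _

theorem av_ne_zero {χ : E → ℝ} {x : E} (h : av A χ x ≠ 0) : ∃ s, χ (fl A.T s x) ≠ 0 := by
  by_contra hc
  push Not at hc
  apply h
  unfold av
  simp [hc]

theorem av_contDiffOn {χ : E → ℝ} (hχ : ContDiff ℝ 2 χ) (C : Set E) (hC : IsCompact C)
    (hCX : C ⊆ D.X) (hχC : ∀ x, χ x ≠ 0 → x ∈ C) : ContDiffOn ℝ 2 (av A χ) D.X := by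
  intro x hx
  apply ContDiffAt.contDiffWithinAt
  obtain ⟨K', hK', hxK', hK'X⟩ := exists_compact_subset D.isOpen hx
  obtain ⟨B, hB, hBs⟩ := bounded_times A K' C hK' hK'X hC hCX
  have key := contDiffOn_convolution_right_with_param_comp (n := 2) (𝕜 := ℝ)
    (μ := (volume : Measure (Fin k → ℝ))) (ContinuousLinearMap.mul ℝ ℝ)
    (s := interior K') (v := fun _ => (0 : Fin k → ℝ)) contDiffOn_const
    (f := fun _ : Fin k → ℝ => (1 : ℝ)) (g := fun (p : E) (t : Fin k → ℝ) => χ (fl A.T (-t) p))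
    (k := -B) isOpen_interior hB.neg (by
      intro p t hp ht
      by_contra hne
      apply ht
      have h1 := hBs p (interior_subset hp) (-t) (hχC _ hne)
      exact Set.mem_neg.2 h1) (locallyIntegrable_const 1) (by
      apply ContDiff.contDiffOn
      have h1 : ContDiff ℝ 2 (fun q : E × (Fin k → ℝ) => ((-q.2, q.1) : (Fin k → ℝ) × E)) := by
        fun_prop
      exact hχ.comp ((contDiff_fl A.T 2).comp h1))
  have h2 : (fun p => ((fun _ : Fin k → ℝ => (1 : ℝ)) ⋆[ContinuousLinearMap.mul ℝ ℝ, volume]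
      (fun t : Fin k → ℝ => χ (fl A.T (-t) p))) 0) = av A χ := by
    funext p
    unfold av
    simp [convolution]
  rw [← h2]
  exact key.contDiffAt (mem_interior_iff_mem_nhds.1 (by
    rw [interior_interior]
    exact hxK'))

theorem continuous_fl_time (x : E) : Continuous (fun s => fl A.T s x) :=
  (continuous_fl A.T).comp (Continuous.prodMk_left x)

theorem av_pos {χ : E → ℝ} (h0 : ∀ x, 0 ≤ χ x) (hχ : Continuous χ) (C : Set E)
    (hC : IsCompact C) (hCX : C ⊆ D.X) (hχC : ∀ x, χ x ≠ 0 → x ∈ C) {x : E} (hx : x ∈ D.X)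
    (hχx : χ x ≠ 0) : 0 < av A χ x := by
  obtain ⟨B, hB, hBs⟩ := bounded_times A {x} C isCompact_singleton
    (Set.singleton_subset_iff.2 hx) hC hCX
  apply Continuous.integral_pos_of_hasCompactSupport_nonneg_nonzero (x := 0)
  · exact hχ.comp (continuous_fl_time A x)
  · apply HasCompactSupport.intro hB
    intro s hs
    by_contra hne
    exact hs (hBs x rfl s (hχC _ hne))
  · exact fun s => h0 _
  · simpa [fl_zero] using hχx

/-- The function attached to a coset. -/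
noncomputable def fq (χ : E → ℝ) (q : D.Γ ⧸ A.N) (x : E) : ℝ :=
  av A χ ((q.out)⁻¹.1 x)

theorem fq_mk (χ : E → ℝ) (g : D.Γ) (x : E) :
    fq A χ (g : D.Γ ⧸ A.N) x = av A χ ((g⁻¹ : D.Γ).1 x) := by
  obtain ⟨h, hh⟩ := QuotientGroup.mk_out_eq_mul A.N g
  unfold fq
  have h1 : (h⁻¹ : D.Γ) ∈ A.N := A.N.inv_mem h.2
  obtain ⟨m, hm⟩ := (A.hN _).1 h1
  have h2 : ((Quotient.out (g : D.Γ ⧸ A.N))⁻¹ : D.Γ) = A.j m * g⁻¹ := by
    have h3 : (Quotient.out (g : D.Γ ⧸ A.N)) = g * h := hh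
    rw [h3, mul_inv_rev, hm]
  rw [h2]
  have h4 : (A.j m * g⁻¹ : D.Γ).1 x = fl A.T (fun i => (m i : ℝ)) ((g⁻¹ : D.Γ).1 x) := by
    rw [fl_int]
    rfl
  rw [h4, av_inv]

theorem fq_fl (χ : E → ℝ) (q : D.Γ ⧸ A.N) (s : Fin k → ℝ) (x : E) :
    fq A χ q (fl A.T s x) = fq A χ q x := by
  unfold fq
  obtain ⟨s', hs'⟩ := fl_conj' A (q.out)⁻¹ s
  rw [hs', av_inv]

theorem fq_smul (χ : E → ℝ) (g : D.Γ) (q : D.Γ ⧸ A.N) (x : E) :
    fq A χ (g • q) (g.1 x) = fq A χ q x := by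
  induction q using QuotientGroup.induction_on with
  | H a =>
    have h1 : g • (a : D.Γ ⧸ A.N) = ((g * a : D.Γ) : D.Γ ⧸ A.N) := rfl
    rw [h1, fq_mk, fq_mk]
    congr 1
    have h2 : ((g * a)⁻¹ : D.Γ).1 (g.1 x) = ((g * a)⁻¹ * g : D.Γ).1 x := rfl
    rw [h2, mul_inv_rev, inv_mul_cancel_right]

theorem fq_nonneg {χ : E → ℝ} (h0 : ∀ x, 0 ≤ χ x) (q : D.Γ ⧸ A.N) (x : E) :
    0 ≤ fq A χ q x := av_nonneg A h0 _

theorem contDiff_aff (g : E ≃ᵃ[ℝ] E) : ContDiff ℝ 2 (fun x => g x) := by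
  have h1 : (fun x : E => g x) = fun x => (hat g (x, (1 : ℝ))).1 := by
    funext x
    exact (act_hat g x).symm
  rw [h1]
  have h2 : ContDiff ℝ 2 (fun x : E => (x, (1 : ℝ))) := by fun_prop
  exact ((hat g).contDiff.comp h2).fst

theorem fq_contDiffOn {χ : E → ℝ} (hχ : ContDiff ℝ 2 χ) (C : Set E) (hC : IsCompact C)
    (hCX : C ⊆ D.X) (hχC : ∀ x, χ x ≠ 0 → x ∈ C) (q : D.Γ ⧸ A.N) :
    ContDiffOn ℝ 2 (fq A χ q) D.X := by
  unfold fq
  apply (av_contDiffOn A hχ C hC hCX hχC).comp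
  · exact (contDiff_aff (q.out)⁻¹.1).contDiffOn
  · intro x hx
    exact D.inv _ (q.out)⁻¹.2 x hx

/-- Local finiteness. -/
theorem fq_finite {χ : E → ℝ} (C : Set E) (hC : IsCompact C) (hCX : C ⊆ D.X)
    (hχC : ∀ x, χ x ≠ 0 → x ∈ C) (K : Set E) (hK : IsCompact K) (hKX : K ⊆ D.X) :
    {q : D.Γ ⧸ A.N | ∃ x ∈ K, fq A χ q x ≠ 0}.Finite := by
  obtain ⟨F, hF, hp⟩ := proper A K C hK hKX hC hCX
  refine (hF.image (fun h : D.Γ => ((h⁻¹ : D.Γ) : D.Γ ⧸ A.N))).subset ?_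
  rintro q ⟨x, hx, hq⟩
  obtain ⟨s, hs⟩ := av_ne_zero A hq
  obtain ⟨m, hm, -⟩ := hp (q.out)⁻¹ x hx s (hχC _ hs)
  refine ⟨_, hm, ?_⟩
  have h1 : ((A.j m * (q.out)⁻¹ : D.Γ)⁻¹ : D.Γ) = q.out * A.j (-m) := by
    rw [mul_inv_rev, inv_inv, j_neg]
  simp only [h1]
  have h2 : A.j (-m) ∈ A.N := (A.hN _).2 ⟨_, rfl⟩
  rw [QuotientGroup.mk_mul_of_mem _ h2]
  exact q.out_eq

/-- The curve through `x` in the direction of a generator. -/
theorem hasDerivAt_curve (T : Alg E) (x : E) :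
    HasDerivAt (fun t : ℝ => act (NormedSpace.exp (t • T)) x) (T (x, 1)).1 0 := by
  have h1 := hasDerivAt_exp_smul_const' (𝕂 := ℝ) T (0 : ℝ)
  rw [zero_smul, NormedSpace.exp_zero, mul_one] at h1
  have h2 := (ContinuousLinearMap.fst ℝ E ℝ).hasFDerivAt.comp_hasDerivAt (0 : ℝ)
    (h1.clm_apply (hasDerivAt_const (0 : ℝ) ((x, (1 : ℝ)) : E × ℝ)))
  simp only [add_zero, map_zero, ContinuousLinearMap.coe_fst'] at h2
  exact h2

theorem exp_apply_of_ker (T : Alg E) (w : E × ℝ) (hw : T w = 0) (t : ℝ) :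
    NormedSpace.exp (t • T) w = w := by
  have h1 : ∀ t : ℝ, HasDerivAt (fun u : ℝ => NormedSpace.exp (u • T) w) 0 t := by
    intro t
    have h2 := (hasDerivAt_exp_smul_const (𝕂 := ℝ) T t).clm_apply (hasDerivAt_const t w)
    have h3 : (NormedSpace.exp (t • T) * T) w = 0 := by
      rw [mul_apply_eq_comp, hw, map_zero]
    simpa [h3] using h2
  have h4 := is_const_of_deriv_eq_zero (fun t => (h1 t).differentiableAt)
    (fun t => (h1 t).deriv) t 0
  simpa [NormedSpace.exp_zero] using h4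

/-- The representative of the orbit of a point. -/
noncomputable def orep (D : Geo E) (x : D.X) : D.X :=
  Quotient.out (Quotient.mk (MulAction.orbitRel D.Γ D.X) x)

theorem exists_orep (D : Geo E) (x : D.X) : ∃ g : D.Γ, g • orep D x = x := by
  have h : (MulAction.orbitRel D.Γ D.X) (orep D x) x :=
    Quotient.mk_out (s := MulAction.orbitRel D.Γ D.X) x
  rw [MulAction.orbitRel_apply] at h
  obtain ⟨g, hg⟩ := h
  exact ⟨g⁻¹, by rw [← hg]; exact inv_smul_smul g x⟩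

/-- The group element moving the representative of the orbit to the point. -/
noncomputable def grep (D : Geo E) (x : D.X) : D.Γ := (exists_orep D x).choose

theorem grep_spec (D : Geo E) (x : D.X) : grep D x • orep D x = x := (exists_orep D x).choose_spec

theorem orep_smul (D : Geo E) (g : D.Γ) (x : D.X) : orep D (g • x) = orep D x := by
  unfold orep
  congr 1
  apply Quotient.sound
  change (MulAction.orbitRel D.Γ D.X) (g • x) x
  rw [MulAction.orbitRel_apply]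
  exact ⟨g, rfl⟩

theorem free' (D : Geo E) (g : D.Γ) (x : D.X) (h : g • x = x) : g = 1 := by
  have h1 : g.1 x.1 = x.1 := congrArg Subtype.val h
  exact Subtype.ext (D.free g.1 g.2 x.1 x.2 h1)

theorem grep_smul (D : Geo E) (g : D.Γ) (x : D.X) : grep D (g • x) = g * grep D x := by
  have h1 := grep_spec D (g • x)
  rw [orep_smul] at h1
  have h2 : (g * grep D x) • orep D x = g • x := by
    rw [mul_smul, grep_spec]
  have h3 : ((g * grep D x)⁻¹ * grep D (g • x)) • orep D x = orep D x := by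
    rw [mul_smul, h1, ← h2, inv_smul_smul]
  have h4 := free' D _ _ h3
  exact (inv_mul_eq_one.1 h4).symm

/-- The family of values as a finitely supported function. -/
noncomputable def FF (χ : E → ℝ) (hfin : ∀ x : D.X, {q : D.Γ ⧸ A.N | fq A χ q x ≠ 0}.Finite)
    (x : D.X) : (D.Γ ⧸ A.N) →₀ ℝ :=
  Finsupp.ofSupportFinite (fun q => fq A χ q x) (hfin x)

theorem FF_apply (χ : E → ℝ) (hfin : ∀ x : D.X, {q : D.Γ ⧸ A.N | fq A χ q x ≠ 0}.Finite)
    (x : D.X) (q : D.Γ ⧸ A.N) : FF A χ hfin x q = fq A χ q x := rfl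

/-- Total mass. -/
noncomputable def mass {Q : Type*} (f : Q →₀ ℝ) : ℝ := f.sum (fun _ c => c)

theorem mass_smul {Q : Type*} (c : ℝ) (f : Q →₀ ℝ) : mass (c • f) = c * mass f := by
  unfold mass
  rw [Finsupp.sum_smul_index' (fun _ => rfl), Finsupp.sum, Finsupp.sum, Finset.mul_sum]
  rfl

theorem mass_single {Q : Type*} (q : Q) : mass (Finsupp.single q (1 : ℝ)) = 1 := by
  unfold mass
  exact Finsupp.sum_single_index rfl

theorem mass_mapDomain {Q R : Type*} (u : Q → R) (f : Q →₀ ℝ) :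
    mass (f.mapDomain u) = mass f := by
  unfold mass
  exact Finsupp.sum_mapDomain_index (fun _ => rfl) (fun _ _ _ => rfl)

theorem FF_smul (χ : E → ℝ) (hfin : ∀ x : D.X, {q : D.Γ ⧸ A.N | fq A χ q x ≠ 0}.Finite)
    (g : D.Γ) (x : D.X) :
    FF A χ hfin (g • x) = (FF A χ hfin x).mapDomain (fun q => g • q) := by
  ext q
  obtain ⟨q', rfl⟩ : ∃ q', q = g • q' := ⟨g⁻¹ • q, (smul_inv_smul g q).symm⟩
  rw [Finsupp.mapDomain_apply (MulAction.injective g), FF_apply, FF_apply]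
  exact fq_smul A χ g q' x

open Classical in
/-- The partition of unity. -/
noncomputable def nu (χ : E → ℝ) (hfin : ∀ x : D.X, {q : D.Γ ⧸ A.N | fq A χ q x ≠ 0}.Finite)
    (x : D.X) : (D.Γ ⧸ A.N) →₀ ℝ :=
  if 0 < mass (FF A χ hfin x) then (mass (FF A χ hfin x))⁻¹ • FF A χ hfin x
  else Finsupp.single (grep D x : D.Γ ⧸ A.N) 1

theorem nu_normalised (χ : E → ℝ)
    (hfin : ∀ x : D.X, {q : D.Γ ⧸ A.N | fq A χ q x ≠ 0}.Finite) :
    Normalised (nu A χ hfin) := by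
  intro x
  change mass _ = 1
  unfold nu
  split_ifs with h
  · rw [mass_smul, inv_mul_cancel₀ h.ne']
  · exact mass_single _

theorem nu_equiv (χ : E → ℝ)
    (hfin : ∀ x : D.X, {q : D.Γ ⧸ A.N | fq A χ q x ≠ 0}.Finite) :
    Equiv' D.Γ (nu A χ hfin) := by
  intro g x
  have hm : mass (FF A χ hfin (g • x)) = mass (FF A χ hfin x) := by
    rw [FF_smul, mass_mapDomain]
  unfold nu
  rw [hm]
  split_ifs with h
  · rw [FF_smul, Finsupp.mapDomain_smul]
  · rw [Finsupp.mapDomain_single, grep_smul]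
    rfl

theorem main (A : Dat D k) (hk : 0 < k) (K : Set E) (hK : IsCompact K) (hKX : K ⊆ D.X) :
    ∃ ν : D.X → ((D.Γ ⧸ A.N) →₀ ℝ), Normalised ν ∧ Equiv' D.Γ ν ∧
      ∃ (S : Finset (D.Γ ⧸ A.N)) (ν' : E → (D.Γ ⧸ A.N) → ℝ) (O : Set E), IsOpen O ∧ K ⊆ O ∧
        (∀ q ∈ S, ContDiffOn ℝ 2 (fun x => ν' x q) O) ∧
        (∀ x : D.X, (x : E) ∈ K → ∀ q, (q ∈ S → ν x q = ν' x q) ∧ (q ∉ S → ν x q = 0)) ∧
        ∀ x ∈ K, ∃ v : E, v ≠ 0 ∧ ∀ q ∈ S, fderiv ℝ (fun y => ν' y q) x v = 0 := by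
  classical
  obtain ⟨C, hC, hKC, hCX⟩ := exists_compact_between hK D.isOpen hKX
  obtain ⟨χ, hχs, hχ, hχr⟩ := (isOpen_interior (s := C)).exists_contDiff_support_eq (n := 2)
  have h0 : ∀ x, 0 ≤ χ x := fun x => (hχr (mem_range_self x)).1
  have hχC : ∀ x, χ x ≠ 0 → x ∈ C := by
    intro x hx
    have : x ∈ Function.support χ := hx
    rw [hχs] at this
    exact interior_subset this
  have hχK : ∀ x ∈ K, χ x ≠ 0 := by
    intro x hx
    have : x ∈ Function.support χ := by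
      rw [hχs]
      exact hKC hx
    exact this
  have hfin : ∀ x : D.X, {q : D.Γ ⧸ A.N | fq A χ q x ≠ 0}.Finite := by
    intro x
    refine (fq_finite A C hC hCX hχC {x.1} isCompact_singleton
      (Set.singleton_subset_iff.2 x.2)).subset ?_
    intro q hq
    exact ⟨x.1, rfl, hq⟩
  have hSf := fq_finite A C hC hCX hχC C hC hCX
  set S : Finset (D.Γ ⧸ A.N) := hSf.toFinset with hS
  have hSmem : ∀ q, q ∈ S ↔ ∃ x ∈ C, fq A χ q x ≠ 0 := by
    intro q
    rw [hS, Set.Finite.mem_toFinset]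
    rfl
  have hcd : ∀ q, ContDiffOn ℝ 2 (fq A χ q) D.X := fq_contDiffOn A hχ C hC hCX hχC
  set G : E → ℝ := fun x => ∑ q ∈ S, fq A χ q x with hG
  have hGcd : ContDiffOn ℝ 2 G D.X := ContDiffOn.sum fun q _ => hcd q
  have hGfl : ∀ s x, G (fl A.T s x) = G x := by
    intro s x
    simp only [hG, fq_fl]
  set O : Set E := interior C ∩ G ⁻¹' (Set.Ioi 0) with hO
  have hOopen : IsOpen O :=
    (hGcd.continuousOn.mono (interior_subset.trans hCX)).isOpen_inter_preimage isOpen_interior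
      isOpen_Ioi
  have hOX : O ⊆ D.X := fun x hx => hCX (interior_subset hx.1)
  have hGK : ∀ x ∈ K, 0 < G x := by
    intro x hx
    have h1 : 0 < fq A χ ((1 : D.Γ) : D.Γ ⧸ A.N) x := by
      rw [fq_mk]
      have h2 : ((1 : D.Γ)⁻¹ : D.Γ).1 x = x := by
        rw [inv_one]
        rfl
      rw [h2]
      exact av_pos A h0 hχ.continuous C hC hCX hχC (hKX hx) (hχK x hx)
    have h2 : ((1 : D.Γ) : D.Γ ⧸ A.N) ∈ S :=
      (hSmem _).2 ⟨x, interior_subset (hKC hx), h1.ne'⟩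
    exact lt_of_lt_of_le h1 (Finset.single_le_sum
      (f := fun q => fq A χ q x) (fun q _ => fq_nonneg A h0 q x) h2)
  have hKO : K ⊆ O := fun x hx => ⟨hKC hx, hGK x hx⟩
  have hcd' : ∀ q, ContDiffOn ℝ 2 (fun x => fq A χ q x / G x) O := by
    intro q
    exact ((hcd q).mono hOX).div (hGcd.mono hOX) (fun x hx => (ne_of_gt hx.2))
  refine ⟨nu A χ hfin, nu_normalised A χ hfin, nu_equiv A χ hfin, S,
    fun x q => fq A χ q x / G x, O, hOopen, hKO, fun q _ => hcd' q, ?_, ?_⟩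
  · intro x hx q
    have hsub : (FF A χ hfin x).support ⊆ S := by
      intro q' hq'
      rw [Finsupp.mem_support_iff, FF_apply] at hq'
      exact (hSmem _).2 ⟨x.1, interior_subset (hKC hx), hq'⟩
    have hm : mass (FF A χ hfin x) = G x := by
      unfold mass
      rw [Finsupp.sum_of_support_subset _ hsub _ (fun _ _ => rfl)]
      rfl
    have hpos := hGK x.1 hx
    have hnu : nu A χ hfin x q = (G x)⁻¹ * fq A χ q x := by
      unfold nu
      rw [hm, if_pos hpos, Finsupp.smul_apply, FF_apply, smul_eq_mul]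
    constructor
    · intro _
      rw [hnu]
      exact (div_eq_inv_mul _ _).symm
    · intro hq
      rw [hnu]
      have : fq A χ q x = 0 := by
        by_contra hne
        exact hq ((hSmem q).2 ⟨x.1, interior_subset (hKC hx), hne⟩)
      rw [this, mul_zero]
  · intro x hx
    set i0 : Fin k := ⟨0, hk⟩ with hi0
    have hcurve : ∀ t : ℝ, act (NormedSpace.exp (t • A.T i0)) x = fl A.T (Pi.single i0 t) x := by
      intro t
      unfold fl
      congr 2
      rw [Finset.sum_eq_single i0]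
      · rw [Pi.single_eq_same]
      · intro i _ hi
        rw [Pi.single_eq_of_ne hi, zero_smul]
      · intro h
        exact absurd (Finset.mem_univ _) h
    refine ⟨(A.T i0 (x, 1)).1, ?_, ?_⟩
    · intro hv
      have h1 : A.T i0 (x, 1) = 0 := by
        ext
        · exact hv
        · exact A.hT i0 _
      have h2 := exp_apply_of_ker (A.T i0) (x, 1) h1 1
      have h3 : act (NormedSpace.exp ((1 : ℝ) • A.T i0)) x = x := by
        unfold act
        rw [h2]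
      rw [hcurve 1] at h3
      have h4 : (Pi.single i0 (1 : ℝ) : Fin k → ℝ) =
          fun i => (((Pi.single i0 (1 : ℤ) : Fin k → ℤ) i : ℤ) : ℝ) := by
        funext i
        by_cases hi : i = i0
        · subst hi
          simp
        · simp [Pi.single_eq_of_ne hi]
      rw [h4, fl_int] at h3
      have h5 := D.free _ (A.j (Pi.single i0 1)).2 x (hKX hx) h3
      have h6 : A.j (Pi.single i0 1) = A.j 0 := by
        rw [j_zero]
        exact Subtype.ext h5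
      have h7 := congrFun (A.hinj h6) i0
      simp at h7
    · intro q _
      have hxO := hKO hx
      have hdiff : DifferentiableAt ℝ (fun y => fq A χ q y / G y) x :=
        ((hcd' q).contDiffAt (hOopen.mem_nhds hxO)).differentiableAt (by norm_num)
      have hc0 : act (NormedSpace.exp ((0 : ℝ) • A.T i0)) x = x := by
        rw [hcurve 0, Pi.single_zero, fl_zero]
      have h1 : HasFDerivAt (fun y => fq A χ q y / G y)
          (fderiv ℝ (fun y => fq A χ q y / G y) x)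
          ((fun t : ℝ => act (NormedSpace.exp (t • A.T i0)) x) 0) := by
        change HasFDerivAt _ _ (act (NormedSpace.exp ((0 : ℝ) • A.T i0)) x)
        rw [hc0]
        exact hdiff.hasFDerivAt
      have h2 := h1.comp_hasDerivAt (0 : ℝ) (hasDerivAt_curve (A.T i0) x)
      have h3 : ((fun y => fq A χ q y / G y) ∘
          fun t : ℝ => act (NormedSpace.exp (t • A.T i0)) x) = fun _ => fq A χ q x / G x := by
        funext t
        simp only [Function.comp_apply]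
        rw [hcurve t, fq_fl, hGfl]
      rw [h3] at h2
      exact h2.unique (hasDerivAt_const _ _)

end Nu

variable {E : Type*} [NormedAddCommGroup E] [NormedSpace ℝ E] [FiniteDimensional ℝ E]

theorem exists_nu (D : Geo E) (k : ℕ) (hk : 0 < k) (T : Fin k → Alg E)
    (hcomm : ∀ i i', Commute (T i) (T i')) (hT : ∀ i v, (T i v).2 = 0)
    (j : (Fin k → ℤ) → D.Γ) (hj : ∀ a b, j (a + b) = j a * j b) (hinj : Function.Injective j)
    (N : Subgroup D.Γ) [N.Normal] (hN : ∀ g, g ∈ N ↔ ∃ m, j m = g)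
    (hexp : ∀ m, hat (j m).1 = NormedSpace.exp (∑ i, (m i : ℝ) • T i))
    (hconj : ∀ (g : D.Γ) (i : Fin k), hat g.1 * T i * hat (g⁻¹ : D.Γ).1 ∈
      Submodule.span ℝ (Set.range T))
    (hU : ∀ (s : Fin k → ℝ), ∀ x ∈ D.X, act (NormedSpace.exp (∑ i, s i • T i)) x ∈ D.X)
    (K : Set E) (hK : IsCompact K) (hKX : K ⊆ D.X) :
    ∃ ν : D.X → ((D.Γ ⧸ N) →₀ ℝ), Normalised ν ∧ Equiv' D.Γ ν ∧
      ∃ (S : Finset (D.Γ ⧸ N)) (ν' : E → (D.Γ ⧸ N) → ℝ) (O : Set E), IsOpen O ∧ K ⊆ O ∧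
        (∀ q ∈ S, ContDiffOn ℝ 2 (fun x => ν' x q) O) ∧
        (∀ x : D.X, (x : E) ∈ K → ∀ q, (q ∈ S → ν x q = ν' x q) ∧ (q ∉ S → ν x q = 0)) ∧
        ∀ x ∈ K, ∃ v : E, v ≠ 0 ∧ ∀ q ∈ S, fderiv ℝ (fun y => ν' y q) x v = 0 :=
  Nu.main (A := ⟨T, hcomm, hT, j, hj, hinj, N, hN, hexp, hconj, hU⟩) hk K hK hKX

end Pool.SV
end

/- Helper16.LDA.SV.Cone -/
section
set_option autoImplicit false

open Set Finset

namespace Pool.SV

namespace Cone

open Filter Topology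

variable {E : Type*} [NormedAddCommGroup E] [NormedSpace ℝ E]

/-- closeness of points of the cone -/
def N (C : Set E) (r : ℝ) (x y : E) : Prop :=
  Real.exp r • y - x ∈ C ∧ Real.exp r • x - y ∈ C

/-- open convex cone without lines -/
structure IsC (C : Set E) : Prop where
  isOpen : IsOpen C
  convex : Convex ℝ C
  cone : ∀ t : ℝ, 0 < t → ∀ x ∈ C, t • x ∈ C
  sharp : ∀ v : E, v ≠ 0 → ∃ x ∈ C, ∃ t : ℝ, x + t • v ∉ C

variable {C : Set E} (hC : IsC C)

include hC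

theorem add_mem' {x y : E} (hx : x ∈ C) (hy : y ∈ C) : x + y ∈ C := by
  have h := hC.convex hx hy (a := 1 / 2) (b := 1 / 2) (by norm_num) (by norm_num) (by norm_num)
  have h2 := hC.cone 2 (by norm_num) _ h
  rw [smul_add, smul_smul, smul_smul] at h2
  norm_num at h2
  exact h2

theorem add_closure_mem {x c : E} (hx : x ∈ C) (hc : c ∈ closure C) : x + c ∈ C := by
  have h := hC.convex.combo_interior_closure_mem_interior (by rwa [hC.isOpen.interior_eq]) hc
    (a := 1 / 2) (b := 1 / 2) (by norm_num) (by norm_num) (by norm_num)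
  rw [hC.isOpen.interior_eq] at h
  have h2 := hC.cone 2 (by norm_num) _ h
  rw [smul_add, smul_smul, smul_smul] at h2
  norm_num at h2
  exact h2

theorem smul_closure_mem {c : E} (hc : c ∈ closure C) {t : ℝ} (ht : 0 < t) :
    t • c ∈ closure C :=
  map_mem_closure (continuous_const_smul t) hc (fun x hx => hC.cone t ht x hx)

theorem eq_zero_of_closure {v : E} (h1 : v ∈ closure C) (h2 : -v ∈ closure C) : v = 0 := by
  by_contra hv
  obtain ⟨x, hx, t, ht⟩ := hC.sharp v hv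
  apply ht
  rcases lt_trichotomy t 0 with h | h | h
  · have h3 := smul_closure_mem hC h2 (neg_pos.2 h)
    rw [neg_smul, smul_neg, neg_neg] at h3
    exact add_closure_mem hC hx h3
  · rw [h, zero_smul, add_zero]
    exact hx
  · exact add_closure_mem hC hx (smul_closure_mem hC h1 h)

theorem zero_notMem (hne : ∃ v : E, v ≠ 0) : (0 : E) ∉ C := by
  intro h0
  obtain ⟨v, hv⟩ := hne
  -- C is everything
  have h1 : ∀ w : E, w ∈ C := by
    intro w
    have h2 : ∀ᶠ t : ℝ in 𝓝 0, t • w ∈ C := by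
      have : Tendsto (fun t : ℝ => t • w) (𝓝 0) (𝓝 ((0 : ℝ) • w)) :=
        (continuous_id.smul continuous_const).tendsto 0
      rw [zero_smul] at this
      exact this (hC.isOpen.mem_nhds h0)
    have h3 := (h2.filter_mono (nhdsWithin_le_nhds (s := Set.Ioi (0 : ℝ)))).and
      self_mem_nhdsWithin
    obtain ⟨t, ht, ht0⟩ := h3.exists
    have ht0' : (0 : ℝ) < t := ht0
    have := hC.cone t⁻¹ (inv_pos.2 ht0') _ ht
    rwa [smul_smul, inv_mul_cancel₀ ht0'.ne', one_smul] at this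
  obtain ⟨x, _, t, ht⟩ := hC.sharp v hv
  exact ht (h1 _)

omit hC in
theorem N.symm {r : ℝ} {x y : E} (h : N C r x y) : N C r y x := ⟨h.2, h.1⟩

theorem N.trans {r s : ℝ} {x y z : E} (h : N C r x y) (h' : N C s y z) : N C (r + s) x z := by
  constructor
  · have h1 := hC.cone _ (Real.exp_pos r) _ h'.1
    have h2 := add_mem' hC h1 h.1
    rw [Real.exp_add]
    convert h2 using 1
    rw [smul_sub, smul_smul]
    abel
  · have h1 := hC.cone _ (Real.exp_pos s) _ h.2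
    have h2 := add_mem' hC h1 h'.2
    rw [add_comm r s, Real.exp_add]
    convert h2 using 1
    rw [smul_sub, smul_smul]
    abel

theorem N.mono {r s : ℝ} {x y : E} (hx : x ∈ C) (hy : y ∈ C) (hrs : r ≤ s) (h : N C r x y) :
    N C s x y := by
  rcases eq_or_lt_of_le hrs with rfl | hlt
  · exact h
  have h0 : 0 < Real.exp s - Real.exp r := sub_pos.2 (Real.exp_lt_exp.2 hlt)
  constructor
  · have := add_mem' hC (hC.cone _ h0 _ hy) h.1
    convert this using 1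
    rw [sub_smul]
    abel
  · have := add_mem' hC (hC.cone _ h0 _ hx) h.2
    convert this using 1
    rw [sub_smul]
    abel

theorem N.smul {r : ℝ} {x y : E} (h : N C r x y) {t : ℝ} (ht : 0 < t) :
    N C r (t • x) (t • y) := by
  constructor
  · have := hC.cone t ht _ h.1
    rwa [smul_sub, smul_comm] at this
  · have := hC.cone t ht _ h.2
    rwa [smul_sub, smul_comm] at this

theorem N.nhds {r : ℝ} (hr : 0 < r) {x : E} (hx : x ∈ C) : {y | N C r y x} ∈ 𝓝 x := by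
  have h0 : 0 < Real.exp r - 1 := by
    rw [sub_pos, ← Real.exp_zero]
    exact Real.exp_lt_exp.2 hr
  have hopen : IsOpen {y | N C r y x} := by
    have h1 : IsOpen {y : E | Real.exp r • x - y ∈ C} :=
      hC.isOpen.preimage (continuous_const.sub continuous_id)
    have h2 : IsOpen {y : E | Real.exp r • y - x ∈ C} :=
      hC.isOpen.preimage ((continuous_id.const_smul (Real.exp r)).sub continuous_const)
    exact h1.inter h2
  apply hopen.mem_nhds
  have h1 := hC.cone _ h0 x hx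
  rw [sub_smul, one_smul] at h1
  exact ⟨h1, h1⟩

theorem N.not_scale (h0 : (0 : E) ∉ C) {r σ : ℝ} {x : E} (hx : x ∈ C) (hσ : Real.exp r ≤ σ) :
    ¬ N C r (σ • x) x := by
  intro h
  have h1 := h.1
  rcases eq_or_lt_of_le hσ with h2 | h2
  · rw [h2, sub_self] at h1
    exact h0 h1
  · have h3 : (σ - Real.exp r) • x ∈ C := hC.cone _ (sub_pos.2 h2) x hx
    have h4 := add_mem' hC h1 h3
    rw [sub_smul] at h4
    have : Real.exp r • x - σ • x + (σ • x - Real.exp r • x) = 0 := by abel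
    rw [this] at h4
    exact h0 h4

variable [FiniteDimensional ℝ E]

/-- normality of the cone -/
theorem exists_normal : ∃ δ : ℝ, 0 < δ ∧ ∀ u ∈ closure C, ∀ v ∈ closure C,
    δ * ‖u‖ ≤ ‖u + v‖ := by
  have : ProperSpace E := FiniteDimensional.proper ℝ E
  let S : Set (E × E) := {p | p.1 ∈ closure C ∧ ‖p.1‖ = 1 ∧ p.2 ∈ closure C ∧ ‖p.2‖ ≤ 2}
  have hS : IsCompact S := by
    have h1 : IsCompact (Metric.closedBall (0 : E) 1 ×ˢ Metric.closedBall (0 : E) 2) :=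
      (isCompact_closedBall _ _).prod (isCompact_closedBall _ _)
    apply h1.of_isClosed_subset
    · have c1 : IsClosed {p : E × E | p.1 ∈ closure C} :=
        isClosed_closure.preimage continuous_fst
      have c2 : IsClosed {p : E × E | ‖p.1‖ = 1} :=
        isClosed_eq continuous_fst.norm continuous_const
      have c3 : IsClosed {p : E × E | p.2 ∈ closure C} :=
        isClosed_closure.preimage continuous_snd
      have c4 : IsClosed {p : E × E | ‖p.2‖ ≤ 2} :=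
        isClosed_le continuous_snd.norm continuous_const
      exact c1.inter (c2.inter (c3.inter c4))
    · rintro ⟨u, v⟩ ⟨_, h2, _, h4⟩
      exact ⟨by simpa using h2.le, by simpa using h4⟩
  have hkey : ∃ δ : ℝ, 0 < δ ∧ ∀ p ∈ S, δ ≤ ‖p.1 + p.2‖ := by
    rcases S.eq_empty_or_nonempty with h | h
    · exact ⟨1, one_pos, fun p hp => by rw [h] at hp; exact absurd hp (Set.notMem_empty p)⟩
    · obtain ⟨p, hp, hmin⟩ := hS.exists_isMinOn h
        ((continuous_fst.add continuous_snd).norm.continuousOn)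
      refine ⟨‖p.1 + p.2‖, ?_, fun q hq => hmin hq⟩
      rw [norm_pos_iff]
      intro h0
      have h1 : p.2 = -p.1 := (neg_eq_of_add_eq_zero_right h0).symm
      have h2 : p.1 = 0 := eq_zero_of_closure hC hp.1 (h1 ▸ hp.2.2.1)
      have h3 := hp.2.1
      rw [h2, norm_zero] at h3
      exact zero_ne_one h3
  obtain ⟨δ, hδ, hkey⟩ := hkey
  refine ⟨min δ 1, lt_min hδ one_pos, ?_⟩
  intro u hu v hv
  by_cases hu0 : u = 0
  · rw [hu0, norm_zero, mul_zero]
    exact norm_nonneg _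
  have hun : 0 < ‖u‖ := norm_pos_iff.2 hu0
  have h1 : min δ 1 ≤ ‖‖u‖⁻¹ • u + ‖u‖⁻¹ • v‖ := by
    have hu' : ‖‖u‖⁻¹ • u‖ = 1 := by
      rw [norm_smul, norm_inv, norm_norm, inv_mul_cancel₀ hun.ne']
    by_cases h2 : ‖‖u‖⁻¹ • v‖ ≤ 2
    · refine (min_le_left _ _).trans (hkey (‖u‖⁻¹ • u, ‖u‖⁻¹ • v) ⟨?_, hu', ?_, h2⟩)
      · exact smul_closure_mem hC hu (inv_pos.2 hun)
      · exact smul_closure_mem hC hv (inv_pos.2 hun)
    · push Not at h2
      refine (min_le_right _ _).trans ?_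
      have h3 : ‖‖u‖⁻¹ • v‖ ≤ ‖‖u‖⁻¹ • u + ‖u‖⁻¹ • v‖ + ‖‖u‖⁻¹ • u‖ := by
        have := norm_sub_le (‖u‖⁻¹ • u + ‖u‖⁻¹ • v) (‖u‖⁻¹ • u)
        rwa [add_sub_cancel_left] at this
      rw [hu'] at h3
      linarith only [h2, h3]
  rw [← smul_add, norm_smul, norm_inv, norm_norm] at h1
  calc min δ 1 * ‖u‖ ≤ ‖u‖⁻¹ * ‖u + v‖ * ‖u‖ := by (clear * - h1 hu0; gcongr)
    _ = ‖u + v‖ := by field_simp

/-- the points close to a compact set form a relatively compact set -/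
theorem exists_compact {K : Set E} (hK : IsCompact K) (hKC : K ⊆ C) :
    ∃ K' ⊆ C, IsCompact K' ∧ ∀ x ∈ K, ∀ y, N C 1 x y → y ∈ K' := by
  have : ProperSpace E := FiniteDimensional.proper ℝ E
  obtain ⟨δ, hδ, hnorm⟩ := exists_normal hC
  obtain ⟨R, hR⟩ := hK.isBounded.exists_norm_le
  set e := Real.exp 1 with he
  have he0 : 0 < e := Real.exp_pos 1
  set ρ := (e + e⁻¹) * R / δ + e⁻¹ * R with hρ
  let S : Set (E × E) := {p | p.1 ∈ K ∧ p.2 ∈ Metric.closedBall (0 : E) ρ ∧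
    e • p.2 - p.1 ∈ closure C ∧ e • p.1 - p.2 ∈ closure C}
  have hS : IsCompact S := by
    have h1 : IsCompact (K ×ˢ Metric.closedBall (0 : E) ρ) := hK.prod (isCompact_closedBall _ _)
    apply h1.of_isClosed_subset
    · have c1 : IsClosed {p : E × E | p.1 ∈ K} := hK.isClosed.preimage continuous_fst
      have c2 : IsClosed {p : E × E | p.2 ∈ Metric.closedBall (0 : E) ρ} :=
        Metric.isClosed_closedBall.preimage continuous_snd
      have c3 : IsClosed {p : E × E | e • p.2 - p.1 ∈ closure C} :=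
        isClosed_closure.preimage ((continuous_snd.const_smul e).sub continuous_fst)
      have c4 : IsClosed {p : E × E | e • p.1 - p.2 ∈ closure C} :=
        isClosed_closure.preimage ((continuous_fst.const_smul e).sub continuous_snd)
      exact c1.inter (c2.inter (c3.inter c4))
    · rintro ⟨u, v⟩ ⟨h1, h2, _, _⟩
      exact ⟨h1, h2⟩
  refine ⟨Prod.snd '' S, ?_, hS.image continuous_snd, ?_⟩
  · rintro _ ⟨⟨x, y⟩, ⟨hx, _, h3, _⟩, rfl⟩
    have h5 := smul_closure_mem hC h3 (inv_pos.2 he0)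
    have h6 := add_closure_mem hC (hC.cone _ (inv_pos.2 he0) x (hKC hx)) h5
    convert h6 using 1
    change y = e⁻¹ • x + e⁻¹ • (e • y - x)
    rw [smul_sub, smul_smul, inv_mul_cancel₀ he0.ne', one_smul]
    abel
  · intro x hx y hy
    refine ⟨(x, y), ⟨hx, ?_, subset_closure hy.1, subset_closure hy.2⟩, rfl⟩
    have h5 := smul_closure_mem hC (subset_closure hy.1) (inv_pos.2 he0)
    have h6 := hnorm _ h5 _ (subset_closure hy.2)
    have h7 : e⁻¹ • (e • y - x) + (e • x - y) = (e - e⁻¹) • x := by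
      rw [smul_sub, smul_smul, inv_mul_cancel₀ he0.ne', one_smul, sub_smul]
      abel
    rw [h7] at h6
    have h8 : ‖e - e⁻¹‖ ≤ e + e⁻¹ := by
      rw [Real.norm_eq_abs, abs_le]
      have := inv_pos.2 he0
      constructor <;> (clear * - he0 this; linarith only [he0, this])
    have hRx := hR x hx
    have hR0 : 0 ≤ R := (norm_nonneg x).trans hRx
    have h9 : ‖e⁻¹ • (e • y - x)‖ ≤ (e + e⁻¹) * R / δ := by
      rw [le_div_iff₀ hδ, mul_comm]
      refine h6.trans ?_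
      rw [norm_smul]
      (clear * - h8 hRx; gcongr)
    have h10 : y = e⁻¹ • (e • y - x) + e⁻¹ • x := by
      rw [smul_sub, smul_smul, inv_mul_cancel₀ he0.ne', one_smul]
      abel
    rw [mem_closedBall_zero_iff, h10]
    refine (norm_add_le _ _).trans ?_
    rw [hρ]
    refine add_le_add h9 ?_
    rw [norm_smul, Real.norm_eq_abs, abs_of_pos (inv_pos.2 he0)]
    (clear * - hRx; gcongr)

end Cone

section main

open Filter Topology Cone

variable {E : Type*} [NormedAddCommGroup E] [NormedSpace ℝ E] [FiniteDimensional ℝ E]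

namespace Cone

variable (D : Geo E) (hC : IsC D.X) (hlin : ∀ g ∈ D.Γ, g 0 = 0)

include hlin in
theorem map_smul' {g : E ≃ᵃ[ℝ] E} (hg : g ∈ D.Γ) (a : ℝ) (x : E) : g (a • x) = a • g x := by
  rw [aff_eq g, aff_eq g x, hlin g hg, add_zero, add_zero, map_smul]

include hlin in
theorem map_sub' {g : E ≃ᵃ[ℝ] E} (hg : g ∈ D.Γ) (x y : E) : g (x - y) = g x - g y := by
  rw [aff_eq g, aff_eq g x, aff_eq g y, hlin g hg, add_zero, add_zero, add_zero, map_sub]

include hlin in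
theorem N_map {g : E ≃ᵃ[ℝ] E} (hg : g ∈ D.Γ) {r : ℝ} {x y : E} (h : N D.X r x y) :
    N D.X r (g x) (g y) := by
  constructor
  · rw [← map_smul' D hlin hg, ← map_sub' D hlin hg]
    exact D.inv g hg _ h.1
  · rw [← map_smul' D hlin hg, ← map_sub' D hlin hg]
    exact D.inv g hg _ h.2

omit [FiniteDimensional ℝ E] in
include hC in
/-- a single group element moves the points of a compact set by a definite amount -/
theorem exists_r_single {K : Set E} (hK : IsCompact K) (hKX : K ⊆ D.X) {g : E ≃ᵃ[ℝ] E}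
    (hg : g ∈ D.Γ) (hg1 : g ≠ 1) (hcont : Continuous g) :
    ∃ r : ℝ, 0 < r ∧ ∀ x ∈ K, ¬ N D.X r x (g x) := by
  by_contra hcon
  push Not at hcon
  have h1 : ∀ n : ℕ, ∃ x ∈ K, N D.X (1 / ((n : ℝ) + 1)) x (g x) := fun n =>
    hcon _ (by (clear * -; positivity))
  choose x hxK hx using h1
  obtain ⟨a, haK, φ, hφ, hlim⟩ := hK.tendsto_subseq hxK
  have hr : Tendsto (fun n : ℕ => Real.exp (1 / ((φ n : ℝ) + 1))) atTop (𝓝 1) := by
    have h2 : Tendsto (fun n : ℕ => 1 / ((n : ℝ) + 1)) atTop (𝓝 0) :=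
      tendsto_one_div_add_atTop_nhds_zero_nat
    have h3 := (Real.continuous_exp.tendsto 0).comp (h2.comp hφ.tendsto_atTop)
    rw [Real.exp_zero] at h3
    exact h3
  have hgl : Tendsto (fun n => g (x (φ n))) atTop (𝓝 (g a)) := (hcont.tendsto a).comp hlim
  have e1 : g a - a ∈ closure D.X := by
    have h4 := (hr.smul hgl).sub hlim
    rw [one_smul] at h4
    exact mem_closure_of_tendsto h4 (Eventually.of_forall fun n => (hx (φ n)).1)
  have e2 : -(g a - a) ∈ closure D.X := by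
    have h4 := (hr.smul hlim).sub hgl
    rw [one_smul] at h4
    rw [neg_sub]
    exact mem_closure_of_tendsto h4 (Eventually.of_forall fun n => (hx (φ n)).2)
  exact hg1 (D.free g hg a (hKX haK) (sub_eq_zero.1 (eq_zero_of_closure hC e1 e2)))

include hC hlin in
theorem exists_r {K : Set E} (hK : IsCompact K) (hKX : K ⊆ D.X)
    (hcc : ∀ x ∈ D.X, ∃ g ∈ D.Γ, g x ∈ K) :
    ∃ r : ℝ, 0 < r ∧ ∀ x ∈ D.X, ∀ g ∈ D.Γ, N D.X r x (g x) → g = 1 := by
  obtain ⟨K', hK'X, hK', hKK'⟩ := exists_compact hC hK hKX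
  have hfin := D.pd (K ∪ K') (Set.union_subset hKX hK'X) (hK.union hK')
  set F := {g : E ≃ᵃ[ℝ] E | g ∈ D.Γ ∧ ∃ x ∈ K ∪ K', g x ∈ K ∪ K'} with hF
  have hsingle : ∀ g : E ≃ᵃ[ℝ] E, ∃ r : ℝ, 0 < r ∧ r ≤ 1 ∧ (g ∈ D.Γ → g ≠ 1 → ∀ x ∈ K,
      ¬ N D.X r x (g x)) := by
    intro g
    by_cases h : g ∈ D.Γ ∧ g ≠ 1
    · obtain ⟨r, hr, hrK⟩ := exists_r_single D hC hK hKX h.1 h.2
        (AffineMap.continuous_of_finiteDimensional (g : E →ᵃ[ℝ] E))
      refine ⟨min r 1, lt_min hr one_pos, min_le_right _ _, fun _ _ x hx hN => ?_⟩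
      exact hrK x hx (N.mono hC (hKX hx) (D.inv g h.1 x (hKX hx)) (min_le_left _ _) hN)
    · exact ⟨1, one_pos, le_rfl, fun h1 h2 => absurd ⟨h1, h2⟩ h⟩
  choose ρ hρ0 hρ1 hρ using hsingle
  obtain ⟨r, hr0, hr⟩ : ∃ r : ℝ, 0 < r ∧ ∀ g ∈ F, r ≤ ρ g := by
    rcases F.eq_empty_or_nonempty with h | h
    · exact ⟨1, one_pos, fun g hg => by rw [h] at hg; exact absurd hg (Set.notMem_empty g)⟩
    · obtain ⟨g, hg, hmin⟩ := Set.exists_min_image F ρ hfin h
      exact ⟨ρ g, hρ0 g, hmin⟩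
  refine ⟨min r 1, lt_min hr0 one_pos, ?_⟩
  intro x hx g hg hN
  obtain ⟨h, hh, hhx⟩ := hcc x hx
  have hN1 : N D.X (min r 1) (h x) ((h * g * h⁻¹) (h x)) := by
    have h1 := N_map D hlin hh hN
    have h2 : (h * g * h⁻¹) (h x) = h (g x) := by
      change h (g (h⁻¹ (h x))) = h (g x)
      have h3 : h⁻¹ (h x) = x := by
        change (h⁻¹ * h) x = x
        rw [inv_mul_cancel]; rfl
      rw [h3]
    rw [h2]
    exact h1
  have hg' : h * g * h⁻¹ ∈ D.Γ := D.Γ.mul_mem (D.Γ.mul_mem hh hg) (D.Γ.inv_mem hh)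
  have hxh : h x ∈ D.X := D.inv h hh x hx
  have hF' : h * g * h⁻¹ ∈ F := by
    refine ⟨hg', h x, Or.inl hhx, Or.inr (hKK' _ hhx _ ?_)⟩
    exact N.mono hC hxh (D.inv _ hg' _ hxh) (min_le_right _ _) hN1
  have h4 : h * g * h⁻¹ = 1 := by
    by_contra hne
    refine hρ _ hg' hne _ hhx ?_
    exact N.mono hC hxh (D.inv _ hg' _ hxh) ((min_le_left _ _).trans (hr _ hF')) hN1
  have h5 : h * g = h := by
    rw [mul_inv_eq_one] at h4
    exact h4
  exact mul_eq_left.1 h5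

include hC hlin in
/-- recurrence: the homothety by some `σ ≥ 2` is close to group elements -/
theorem exists_sigma {K : Set E} (hK : IsCompact K) (hKX : K ⊆ D.X)
    (hcc : ∀ x ∈ D.X, ∃ g ∈ D.Γ, g x ∈ K) {r : ℝ} (hr : 0 < r) :
    ∃ σ : ℝ, 2 ≤ σ ∧ ∀ x ∈ D.X, ∃ g ∈ D.Γ, N D.X (r + r + (r + r)) (σ • x) (g x) := by
  classical
  obtain ⟨t, htK, hcov⟩ := hK.elim_nhds_subcover (fun x => {y | N D.X r y x})
    (fun x hx => N.nhds hC hr (hKX hx))
  have hcov' : ∀ y ∈ K, ∃ x : t, N D.X r y x := by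
    intro y hy
    have := hcov hy
    rw [Set.mem_iUnion₂] at this
    obtain ⟨x, hx, hxy⟩ := this
    exact ⟨⟨x, hx⟩, hxy⟩
  -- for each time and each point of the net
  have h1 : ∀ (n : ℕ) (x : t), ∃ (j : t) (g : E ≃ᵃ[ℝ] E), g ∈ D.Γ ∧
      N D.X r (g ((2 : ℝ) ^ n • (x : E))) j := by
    intro n x
    obtain ⟨g, hg, hgK⟩ := hcc ((2 : ℝ) ^ n • (x : E))
      (hC.cone _ (by positivity) _ (hKX (htK x x.2)))
    obtain ⟨j, hj⟩ := hcov' _ hgK
    exact ⟨j, g, hg, hj⟩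
  choose J g hg hJ using h1
  obtain ⟨n, n', hne, hJJ⟩ := Finite.exists_ne_map_eq_of_infinite J
  wlog hlt : n < n' generalizing n n'
  · exact this n' n hne.symm hJJ.symm (by omega)
  obtain ⟨m, hm, rfl⟩ : ∃ m, 1 ≤ m ∧ n' = n + m := ⟨n' - n, by omega, by omega⟩
  refine ⟨(2 : ℝ) ^ m, ?_, ?_⟩
  · calc (2 : ℝ) = 2 ^ 1 := (pow_one _).symm
      _ ≤ 2 ^ m := pow_le_pow_right₀ (by norm_num) hm
  -- points of the net
  have hnet : ∀ x : t, N D.X (r + r) ((2 : ℝ) ^ m • (x : E))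
      (((g (n + m) x)⁻¹ * g n x) (x : E)) := by
    intro x
    have a1 := hJ (n + m) x
    have a2 := hJ n x
    rw [← hJJ] at a1
    have a3 := N.trans hC a1 a2.symm
    have hginv : (g (n + m) x)⁻¹ ∈ D.Γ := D.Γ.inv_mem (hg _ _)
    have a4 := N_map D hlin hginv a3
    have e1 : (g (n + m) x)⁻¹ (g (n + m) x ((2 : ℝ) ^ (n + m) • (x : E))) =
        (2 : ℝ) ^ n • ((2 : ℝ) ^ m • (x : E)) := by
      change ((g (n + m) x)⁻¹ * g (n + m) x) _ = _
      rw [inv_mul_cancel, smul_smul, ← pow_add]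
      rfl
    have e2 : (g (n + m) x)⁻¹ (g n x ((2 : ℝ) ^ n • (x : E))) =
        (2 : ℝ) ^ n • ((g (n + m) x)⁻¹ * g n x) (x : E) := by
      have hmem : (g (n + m) x)⁻¹ * g n x ∈ D.Γ := D.Γ.mul_mem hginv (hg _ _)
      rw [← map_smul' D hlin hmem]
      rfl
    rw [e1, e2] at a4
    have a5 := N.smul hC a4 (t := ((2 : ℝ) ^ n)⁻¹) (by positivity)
    have hpow : ((2 : ℝ) ^ n) ≠ 0 := by positivity
    rwa [inv_smul_smul₀ hpow, inv_smul_smul₀ hpow] at a5
  have hKp : ∀ x ∈ K, ∃ h ∈ D.Γ, N D.X (r + r + (r + r)) ((2 : ℝ) ^ m • x) (h x) := by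
    intro x hx
    obtain ⟨y, hy⟩ := hcov' x hx
    have hmem : (g (n + m) y)⁻¹ * g n y ∈ D.Γ :=
      D.Γ.mul_mem (D.Γ.inv_mem (hg _ _)) (hg _ _)
    refine ⟨_, hmem, ?_⟩
    have b1 := N.smul hC hy (t := (2 : ℝ) ^ m) (by positivity)
    have b2 := N_map D hlin hmem hy.symm
    have b3 := N.trans hC (N.trans hC b1 (hnet y)) b2
    convert b3 using 1
    ring
  intro x hx
  obtain ⟨h, hh, hhx⟩ := hcc x hx
  obtain ⟨k, hk, hkx⟩ := hKp _ hhx
  refine ⟨h⁻¹ * k * h, D.Γ.mul_mem (D.Γ.mul_mem (D.Γ.inv_mem hh) hk) hh, ?_⟩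
  have c1 := N_map D hlin (D.Γ.inv_mem hh) hkx
  rw [map_smul' D hlin (D.Γ.inv_mem hh)] at c1
  have e1 : h⁻¹ (h x) = x := by
    change (h⁻¹ * h) x = x
    rw [inv_mul_cancel]; rfl
  rw [e1] at c1
  exact c1

end Cone

theorem cone_center (D : Geo E)
    (hcone : ∀ t : ℝ, 0 < t → ∀ x ∈ D.X, t • x ∈ D.X)
    (hsharp : ∀ v : E, v ≠ 0 → ∃ x ∈ D.X, ∃ t : ℝ, x + t • v ∉ D.X)
    (hlin : ∀ g ∈ D.Γ, g 0 = 0)
    (hcc : ∃ K ⊆ D.X, IsCompact K ∧ ∀ x ∈ D.X, ∃ g ∈ D.Γ, g x ∈ K) (hpos : 0 < Module.finrank ℝ E) :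
    ∃ z ∈ D.Γ, z ≠ 1 ∧ ∀ g ∈ D.Γ, g * z = z * g := by
  have hC : IsC D.X := ⟨D.isOpen, D.convex, hcone, hsharp⟩
  obtain ⟨K, hKX, hK, hcc⟩ := hcc
  have hne : ∃ v : E, v ≠ 0 := by
    have := Module.nontrivial_of_finrank_pos hpos
    exact exists_ne 0
  have h0 := zero_notMem hC hne
  obtain ⟨r₀, hr₀, hfree⟩ := exists_r D hC hlin hK hKX hcc
  -- the small radius
  set r := min (r₀ / 16) (Real.log 2 / 16) with hr
  have hlog2 : 0 < Real.log 2 := Real.log_pos (by norm_num)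
  have hrpos : 0 < r := lt_min (by (clear * - hr₀; positivity)) (by (clear * -; positivity))
  have hr1 : 16 * r ≤ r₀ := by
    have := min_le_left (r₀ / 16) (Real.log 2 / 16)
    linarith only [this]
  have hr2 : 16 * r ≤ Real.log 2 := by
    have := min_le_right (r₀ / 16) (Real.log 2 / 16)
    (clear * - this; linarith only [this])
  obtain ⟨σ, hσ, hδ⟩ := exists_sigma D hC hlin hK hKX hcc hrpos
  have hσ0 : 0 < σ := by linarith only [hσ]
  -- uniqueness
  have huniq : ∀ x ∈ D.X, ∀ g ∈ D.Γ, ∀ h ∈ D.Γ, N D.X (6 * r) (σ • x) (g x) →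
      N D.X (6 * r) (σ • x) (h x) → g = h := by
    intro x hx g hg h hh h1 h2
    have h3 := N.trans hC h1.symm h2
    have h4 := N_map D hlin (D.Γ.inv_mem hg) h3
    have e1 : g⁻¹ (g x) = x := by
      change (g⁻¹ * g) x = x
      rw [inv_mul_cancel]; rfl
    have e2 : g⁻¹ (h x) = (g⁻¹ * h) x := rfl
    rw [e1, e2] at h4
    have hmem : g⁻¹ * h ∈ D.Γ := D.Γ.mul_mem (D.Γ.inv_mem hg) hh
    have h5 := N.mono hC hx (D.inv _ hmem x hx) (by linarith only [hrpos, hr1] : 6 * r + 6 * r ≤ r₀) h4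
    exact inv_mul_eq_one.1 (hfree x hx _ hmem h5)
  have hδ' : ∀ x : E, ∃ g : E ≃ᵃ[ℝ] E, x ∈ D.X → g ∈ D.Γ ∧ N D.X (4 * r) (σ • x) (g x) := by
    intro x
    by_cases hx : x ∈ D.X
    · obtain ⟨g, hg, h⟩ := hδ x hx
      refine ⟨g, fun _ => ⟨hg, ?_⟩⟩
      convert h using 1
      ring
    · exact ⟨1, fun h => absurd h hx⟩
  choose δ hδ' using hδ'
  have hσX : ∀ x ∈ D.X, σ • x ∈ D.X := fun x hx => hcone σ hσ0 x hx
  -- locally constant
  have hloc : ∀ x ∈ D.X, ∀ y ∈ D.X, N D.X r y x → δ y = δ x := by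
    intro x hx y hy hyx
    obtain ⟨hg, hgx⟩ := hδ' x hx
    obtain ⟨hh, hhy⟩ := hδ' y hy
    refine huniq y hy _ hh _ hg ?_ ?_
    · exact N.mono hC (hσX y hy) (D.inv _ hh y hy) (by (clear * - hrpos; linarith only [hrpos])) hhy
    · have a1 := N.smul hC hyx hσ0
      have a2 := N_map D hlin hg hyx.symm
      have a3 := N.trans hC (N.trans hC a1 hgx) a2
      convert a3 using 1
      ring
  obtain ⟨x₀, hx₀⟩ := D.nonempty
  have hconst : ∀ x ∈ D.X, δ x = δ x₀ := by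
    intro x hx
    let i : TopologicalSpace (E ≃ᵃ[ℝ] E) := ⊥
    have i2 : DiscreteTopology (E ≃ᵃ[ℝ] E) := ⟨rfl⟩
    have hcont : ContinuousOn δ D.X := by
      intro y hy
      have h1 : ∀ᶠ z in 𝓝[D.X] y, δ z = δ y := by
        have h2 : ∀ᶠ z in 𝓝[D.X] y, N D.X r z y :=
          nhdsWithin_le_nhds (N.nhds hC hrpos hy)
        filter_upwards [h2, self_mem_nhdsWithin] with z hz hzX
        exact hloc y hy z hzX hz
      exact (tendsto_congr' h1).2 tendsto_const_nhds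
    exact D.convex.isPreconnected.constant hcont hx hx₀
  obtain ⟨hz, hzx⟩ := hδ' x₀ hx₀
  refine ⟨δ x₀, hz, ?_, ?_⟩
  · intro h1
    rw [h1] at hzx
    have : (1 : E ≃ᵃ[ℝ] E) x₀ = x₀ := rfl
    rw [this] at hzx
    refine N.not_scale hC h0 hx₀ ?_ hzx
    have h2 : Real.exp (4 * r) ≤ Real.exp (Real.log 2) := Real.exp_le_exp.2 (by (clear * - hrpos hr2; linarith only [hrpos, hr2]))
    rw [Real.exp_log (by norm_num)] at h2
    linarith only [hσ, h2]
  · intro g hg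
    have hgx : g x₀ ∈ D.X := D.inv g hg x₀ hx₀
    obtain ⟨h1, h2⟩ := hδ' (g x₀) hgx
    have h3 : δ (g x₀) = g * δ x₀ * g⁻¹ := by
      refine huniq (g x₀) hgx _ h1 _ (D.Γ.mul_mem (D.Γ.mul_mem hg hz) (D.Γ.inv_mem hg)) ?_ ?_
      · exact N.mono hC (hσX _ hgx) (D.inv _ h1 _ hgx) (by linarith only [hrpos]) h2
      · have a1 := N_map D hlin hg hzx
        rw [map_smul' D hlin hg] at a1
        have e1 : (g * δ x₀ * g⁻¹) (g x₀) = g (δ x₀ x₀) := by
          change g (δ x₀ (g⁻¹ (g x₀))) = g (δ x₀ x₀)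
          have : g⁻¹ (g x₀) = x₀ := by
            change (g⁻¹ * g) x₀ = x₀
            rw [inv_mul_cancel]; rfl
          rw [this]
        rw [e1]
        exact N.mono hC (hσX _ hgx) (D.inv g hg _ (D.inv _ hz _ hx₀)) (by linarith only [hrpos]) a1
    rw [hconst _ hgx] at h3
    rw [eq_mul_inv_iff_mul_eq] at h3
    exact h3.symm

end main

end Pool.SV
end
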