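import Mathlib
import Pool.Agent.Helper16.CPG.G01

/- Helper16.LDA.H47.HP.Sep -/
section
/-! # Project HP: closed salient cones -/

set_option autoImplicit false

open Set

namespace Pool.Agent.Helper47.HP

private theorem sep_one {Q : Type*} [NormedAddCommGroup Q] [NormedSpace ℝ Q] (S : Set Q)
    (hS : IsClosed S) (h0 : (0 : Q) ∈ S)
    (hadd : ∀ a ∈ S, ∀ b ∈ S, a + b ∈ S) (hsmul : ∀ a ∈ S, ∀ t : ℝ, 0 ≤ t → t • a ∈ S)
    (a : Q) (ha : -a ∉ S) : ∃ f : StrongDual ℝ Q, (∀ b ∈ S, 0 ≤ f b) ∧ 0 < f a := by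
  have hconv : Convex ℝ S := by
    intro x hx y hy s t hs ht _
    exact hadd _ (hsmul x hx s hs) _ (hsmul y hy t ht)
  obtain ⟨f, u, hu, hf⟩ := geometric_hahn_banach_point_closed hconv hS ha
  have hu0 : u < 0 := by
    have := hf 0 h0
    rwa [map_zero] at this
  refine ⟨f, fun b hb => ?_, ?_⟩
  · by_contra hneg
    push Not at hneg
    have h1 := hf _ (hsmul b hb (u / f b) (div_nonneg_of_nonpos hu0.le hneg.le))
    rw [map_smul, smul_eq_mul, div_mul_cancel₀ _ hneg.ne] at h1
    exact lt_irrefl _ h1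
  · rw [map_neg] at hu
    linarith

/-- A closed convex cone without lines in a finite-dimensional space has a strictly positive
linear form. -/
theorem exists_pos_form {Q : Type*} [NormedAddCommGroup Q] [NormedSpace ℝ Q]
    [FiniteDimensional ℝ Q] (S : Set Q) (hS : IsClosed S) (h0 : (0 : Q) ∈ S)
    (hadd : ∀ a ∈ S, ∀ b ∈ S, a + b ∈ S) (hsmul : ∀ a ∈ S, ∀ t : ℝ, 0 ≤ t → t • a ∈ S)
    (hsal : ∀ a ∈ S, -a ∈ S → a = 0) :
    ∃ (f : Q →ₗ[ℝ] ℝ) (c : ℝ), 0 < c ∧ ∀ a ∈ S, c * ‖a‖ ≤ f a := by
  classical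
  have : ProperSpace Q := FiniteDimensional.proper_real Q
  have hcomp : IsCompact (Metric.sphere (0 : Q) 1 ∩ S) := (isCompact_sphere 0 1).inter_right hS
  have hne : ∀ a ∈ Metric.sphere (0 : Q) 1 ∩ S, -a ∉ S := by
    rintro a ⟨ha1, ha2⟩ h
    rw [hsal a ha2 h, mem_sphere_zero_iff_norm, norm_zero] at ha1
    exact zero_ne_one ha1
  choose! f hf1 hf2 using fun (a : Q) (ha : -a ∉ S) => sep_one S hS h0 hadd hsmul a ha
  obtain ⟨t, ht⟩ := hcomp.elim_finite_subcover
    (fun a : (Metric.sphere (0 : Q) 1 ∩ S : Set Q) => {x : Q | 0 < f a x})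
    (fun a => isOpen_lt continuous_const (f a).continuous)
    (fun a ha => mem_iUnion.2 ⟨⟨a, ha⟩, hf2 a (hne a ha)⟩)
  set F : StrongDual ℝ Q := ∑ a ∈ t, f a with hF
  have hFv : ∀ x, F x = ∑ a ∈ t, f a x := by
    intro x
    rw [hF]
    simp
  have hpos : ∀ x ∈ Metric.sphere (0 : Q) 1 ∩ S, 0 < F x := by
    intro x hx
    obtain ⟨a, hat, hax⟩ := mem_iUnion₂.1 (ht hx)
    rw [hFv]
    exact Finset.sum_pos' (fun b _ => hf1 b (hne b b.2) x hx.2) ⟨a, hat, hax⟩
  have key : ∃ c : ℝ, 0 < c ∧ ∀ x ∈ Metric.sphere (0 : Q) 1 ∩ S, c ≤ F x := by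
    rcases (Metric.sphere (0 : Q) 1 ∩ S).eq_empty_or_nonempty with he | hn
    · refine ⟨1, one_pos, fun x hx => ?_⟩
      rw [he] at hx
      exact absurd hx (notMem_empty x)
    · obtain ⟨x₀, hx₀, hmin⟩ := hcomp.exists_isMinOn hn F.continuous.continuousOn
      exact ⟨F x₀, hpos x₀ hx₀, fun x hx => hmin hx⟩
  obtain ⟨c, hc, hcF⟩ := key
  refine ⟨F.toLinearMap, c, hc, ?_⟩
  intro a ha
  by_cases ha0 : a = 0
  · rw [ha0]
    simp
  · have hn : 0 < ‖a‖ := norm_pos_iff.2 ha0
    have h1 : (‖a‖⁻¹ • a) ∈ Metric.sphere (0 : Q) 1 ∩ S := by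
      refine ⟨?_, hsmul a ha _ (inv_nonneg.2 hn.le)⟩
      rw [mem_sphere_zero_iff_norm, norm_smul, norm_inv, norm_norm, inv_mul_cancel₀ hn.ne']
    have h2 := hcF _ h1
    rw [map_smul, smul_eq_mul] at h2
    have h4 := mul_le_mul_of_nonneg_right h2 hn.le
    calc c * ‖a‖ ≤ ‖a‖⁻¹ * F a * ‖a‖ := h4
      _ = F a := by (clear * - ha0; field_simp)

end Pool.Agent.Helper47.HP
end

/- Helper47.HP.Flag -/
section
/-! # Project HP: invariant flags with irreducible quotients -/

set_option autoImplicit false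

open Set

namespace Pool.Agent.Helper47.HP

theorem exists_flag {G E : Type*} [AddCommGroup E] [Module ℝ E] [FiniteDimensional ℝ E]
    (A : G → (E →ₗ[ℝ] E)) (W V : Submodule ℝ E) (hWV : W ≤ V) (hW : ∀ g, ∀ v ∈ W, A g v ∈ W)
    (hV : ∀ g, ∀ v ∈ V, A g v ∈ V) :
    ∃ (s : ℕ) (F : ℕ → Submodule ℝ E), F 0 = W ∧ F s = V ∧ ∀ i < s, F i ≤ F (i + 1) ∧
      (∀ g, ∀ v ∈ F i, A g v ∈ F i) ∧ (∀ g, ∀ v ∈ F (i + 1), A g v ∈ F (i + 1)) ∧
      (W ≤ F i) ∧ (F (i + 1) ≤ V) ∧
      ∀ S, F i ≤ S → S ≤ F (i + 1) → (∀ g, ∀ v ∈ S, A g v ∈ S) → S = F i ∨ S = F (i + 1) := by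
  obtain ⟨n, hn⟩ : ∃ n, n = Module.finrank ℝ V - Module.finrank ℝ W := ⟨_, rfl⟩
  induction n using Nat.strong_induction_on generalizing W with
  | _ n ih =>
    by_cases hVW : W = V
    · exact ⟨0, fun _ => W, rfl, hVW, fun i hi => absurd hi (Nat.not_lt_zero i)⟩
    · have hlt : W < V := lt_of_le_of_ne hWV hVW
      let Q : ℕ → Prop := fun d => ∃ S : Submodule ℝ E, W < S ∧ S ≤ V ∧
        (∀ g, ∀ v ∈ S, A g v ∈ S) ∧ Module.finrank ℝ S = d
      have hQ : ∃ d, Q d := ⟨_, V, hlt, le_rfl, hV, rfl⟩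
      classical
      obtain ⟨S, hS1, hS2, hS3, hS4⟩ := Nat.find_spec hQ
      have hmin : ∀ T : Submodule ℝ E, W < T → T ≤ V → (∀ g, ∀ v ∈ T, A g v ∈ T) →
          Module.finrank ℝ S ≤ Module.finrank ℝ T := by
        intro T h1 h2 h3
        rw [hS4]
        exact Nat.find_min' hQ ⟨T, h1, h2, h3, rfl⟩
      have h5 : Module.finrank ℝ W < Module.finrank ℝ S := Submodule.finrank_lt_finrank_of_lt hS1
      have h6 : Module.finrank ℝ S ≤ Module.finrank ℝ V := Submodule.finrank_mono hS2
      obtain ⟨s, F, hF0, hFs, hF⟩ := ih (Module.finrank ℝ V - Module.finrank ℝ S) (by omega) S hS2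
        hS3 rfl
      refine ⟨s + 1, fun i => Nat.casesOn i W F, rfl, hFs, fun i hi => ?_⟩
      rcases i with _ | i
      · change W ≤ F 0 ∧ (∀ g, ∀ v ∈ W, A g v ∈ W) ∧ (∀ g, ∀ v ∈ F 0, A g v ∈ F 0) ∧ W ≤ W ∧
          F 0 ≤ V ∧ ∀ T, W ≤ T → T ≤ F 0 → (∀ g, ∀ v ∈ T, A g v ∈ T) → T = W ∨ T = F 0
        rw [hF0]
        refine ⟨hS1.le, hW, hS3, le_rfl, hS2, fun T h1 h2 h3 => ?_⟩
        rcases eq_or_lt_of_le h1 with h | h
        · exact Or.inl h.symm
        · right
          exact Submodule.eq_of_le_of_finrank_le h2 (hmin T h (h2.trans hS2) h3)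
      · change F i ≤ F (i + 1) ∧ (∀ g, ∀ v ∈ F i, A g v ∈ F i) ∧
          (∀ g, ∀ v ∈ F (i + 1), A g v ∈ F (i + 1)) ∧ W ≤ F i ∧ F (i + 1) ≤ V ∧
          ∀ T, F i ≤ T → T ≤ F (i + 1) → (∀ g, ∀ v ∈ T, A g v ∈ T) → T = F i ∨ T = F (i + 1)
        obtain ⟨h7, h8, h9, h10, h11, h12⟩ := hF i (by omega)
        exact ⟨h7, h8, h9, hS1.le.trans h10, h11, h12⟩

end Pool.Agent.Helper47.HP
end

/- Helper16.LDA.SV.Sing -/
section
/-!
# Singular chains of a quotient of a convex set and tuple chains

If bounded invariant cocycles on tuples vanish on cycles of top degree, then every singular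
cycle of top degree of the quotient manifold has arbitrarily small norm modulo boundaries.
-/

open Set Finset Topology

set_option linter.unusedSectionVars false

namespace Pool.SV

namespace SingAux

/-! ### Faces of the standard simplex -/

theorem face_self (q : ℕ) (i : Fin (q + 2)) (t : stdSimplex ℝ (Fin (q + 1))) :
    (face q i t) i = 0 := by
  change (stdSimplex.map (Fin.succAbove i) t) i = 0
  rw [stdSimplex.map_coe, FunOnFinite.linearMap_apply_apply]
  apply Finset.sum_eq_zero
  intro x hx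
  rw [Finset.mem_filter] at hx
  exact absurd hx.2 (Fin.succAbove_ne i x)

theorem face_succAbove (q : ℕ) (i : Fin (q + 2)) (t : stdSimplex ℝ (Fin (q + 1)))
    (j : Fin (q + 1)) : (face q i t) (i.succAbove j) = t j := by
  change (stdSimplex.map (Fin.succAbove i) t) (i.succAbove j) = t j
  rw [stdSimplex.map_coe, FunOnFinite.linearMap_apply_apply, Finset.sum_eq_single j]
  · intro b hb hbj
    rw [Finset.mem_filter] at hb
    exact absurd (Fin.succAbove_right_injective hb.2) hbj
  · intro h
    exact absurd (by simp) h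

theorem sum_face {V : Type*} [AddCommMonoid V] [Module ℝ V] (q : ℕ) (i : Fin (q + 2))
    (t : stdSimplex ℝ (Fin (q + 1))) (v : Fin (q + 2) → V) :
    ∑ j, (face q i t) j • v j = ∑ j, t j • v (i.succAbove j) := by
  rw [Fin.sum_univ_succAbove _ i, face_self, zero_smul, zero_add]
  exact Finset.sum_congr rfl fun j _ => by rw [face_succAbove]

theorem face_vertex (q : ℕ) (i : Fin (q + 2)) (j : Fin (q + 1)) :
    face q i (stdSimplex.vertex j) = stdSimplex.vertex (i.succAbove j) := by
  change stdSimplex.map (Fin.succAbove i) (stdSimplex.vertex j) = _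
  rw [stdSimplex.map_vertex]

theorem face_comp_face (q : ℕ) (i : Fin (q + 3)) (j : Fin (q + 2)) :
    (face (q + 1) (i.succAbove j)).comp (face q (j.predAbove i)) =
      (face (q + 1) i).comp (face q j) := by
  ext t : 1
  change stdSimplex.map _ (stdSimplex.map _ t) = stdSimplex.map _ (stdSimplex.map _ t)
  rw [stdSimplex.map_comp_apply, stdSimplex.map_comp_apply]
  congr 1
  funext k
  exact Fin.succAbove_succAbove_succAbove_predAbove i j k

/-! ### Singular chains -/

variable {M : Type*} [TopologicalSpace M]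

theorem bd_single (q : ℕ) (σ : Sing M (q + 1)) :
    bd M q (Finsupp.single σ 1) =
      ∑ i : Fin (q + 2), ((-1 : ℝ) ^ (i : ℕ)) • Finsupp.single (σ.comp (face q i)) (1 : ℝ) := by
  rw [bd, Finsupp.linearCombination_single, one_smul]

theorem bd_bd (q : ℕ) (c : Chain M (q + 2)) : bd M q (bd M (q + 1) c) = 0 := by
  suffices h : (bd M q).comp (bd M (q + 1)) = 0 by
    exact LinearMap.congr_fun h c
  apply Finsupp.lhom_ext'
  intro σ
  apply LinearMap.ext_ring
  change bd M q (bd M (q + 1) (Finsupp.single σ 1)) = 0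
  rw [bd_single, map_sum]
  simp_rw [map_smul, bd_single, Finset.smul_sum, smul_smul, ← pow_add]
  rw [← Finset.sum_product']
  refine Finset.sum_involution
    (fun p _ => (p.1.succAbove p.2, p.2.predAbove p.1)) ?_ ?_ ?_ ?_
  · rintro ⟨i, j⟩ _
    have h := face_comp_face q i j
    simp only [ContinuousMap.comp_assoc]
    rw [h, Fin.neg_one_pow_succAbove_add_predAbove, neg_smul, add_neg_cancel]
  · rintro ⟨i, j⟩ _ _ h
    rw [Prod.mk.injEq] at h
    exact Fin.succAbove_ne _ _ h.1
  · intro _ _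
    exact Finset.mem_univ _
  · rintro ⟨i, j⟩ _
    simp only
    rw [Fin.succAbove_succAbove_predAbove, Fin.predAbove_predAbove_succAbove]

theorem nrm_nonneg {q : ℕ} (c : Chain M q) : 0 ≤ nrm c :=
  Finsupp.sum_nonneg fun _ _ => abs_nonneg _

theorem nrm_smul {q : ℕ} (a : ℝ) (c : Chain M q) : nrm (a • c) = |a| * nrm c := by
  unfold nrm
  rw [Finsupp.sum_smul_index (by simp), Finsupp.mul_sum]
  simp_rw [abs_mul]

theorem nrm_add {q : ℕ} (c c' : Chain M q) : nrm (c + c') ≤ nrm c + nrm c' := by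
  classical
  unfold nrm
  have h1 : ∀ f : Chain M q, f.support ⊆ c.support ∪ c'.support →
      f.sum (fun _ a => |a|) = ∑ σ ∈ c.support ∪ c'.support, |f σ| := fun f hf =>
    Finsupp.sum_of_support_subset _ hf _ (by simp)
  rw [h1 _ Finsupp.support_add, h1 _ Finset.subset_union_left, h1 _ Finset.subset_union_right,
    ← Finset.sum_add_distrib]
  exact Finset.sum_le_sum fun σ _ => abs_add_le _ _

theorem nrm_single {q : ℕ} (σ : Sing M q) (a : ℝ) : nrm (Finsupp.single σ a) = |a| := by
  unfold nrm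
  rw [Finsupp.sum_single_index (by simp)]

theorem exists_functional (q : ℕ) (z : Chain M (q + 1)) (ε : ℝ) (hε : 0 < ε)
    (h : ∀ b : Chain M (q + 2), ε ≤ nrm (z + bd M (q + 1) b)) :
    ∃ ζ : Chain M (q + 1) →ₗ[ℝ] ℝ, (∀ b, ζ (bd M (q + 1) b) = 0) ∧ ζ z = ε ∧
      ∀ σ, |ζ (Finsupp.single σ 1)| ≤ 1 := by
  have hz : z ∉ LinearMap.range (bd M (q + 1)) := by
    rintro ⟨b, hb⟩
    have h1 := h (-b)
    rw [map_neg, hb, add_neg_cancel] at h1
    have h2 : nrm (0 : Chain M (q + 1)) = 0 := by simp [nrm]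
    linarith
  let f0 : Chain M (q + 1) →ₗ.[ℝ] ℝ := ⟨LinearMap.range (bd M (q + 1)), 0⟩
  let f := f0.supSpanSingleton z ε hz
  have hf : ∀ x : f.domain, f x ≤ nrm (x : Chain M (q + 1)) := by
    rintro ⟨x, hx⟩
    have hx' := hx
    change x ∈ LinearMap.range (bd M (q + 1)) ⊔ Submodule.span ℝ {z} at hx'
    obtain ⟨y, hy, w, hw, hyw⟩ := Submodule.mem_sup.1 hx'
    obtain ⟨a, rfl⟩ := Submodule.mem_span_singleton.1 hw
    subst hyw
    have e := LinearPMap.supSpanSingleton_apply_mk f0 z ε hz y hy a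
    change f ⟨y + a • z, hx⟩ = _ at e
    rw [e]
    change (0 : ℝ) + a • ε ≤ nrm (y + a • z)
    obtain ⟨b, rfl⟩ := hy
    rw [zero_add, smul_eq_mul]
    rcases le_or_gt a 0 with ha | ha
    · exact (mul_nonpos_of_nonpos_of_nonneg ha hε.le).trans (nrm_nonneg _)
    · have e2 : bd M (q + 1) b + a • z = a • (z + bd M (q + 1) (a⁻¹ • b)) := by
        rw [smul_add, map_smul, smul_smul, mul_inv_cancel₀ ha.ne', one_smul]
        exact add_comm _ _
      rw [e2, nrm_smul, abs_of_pos ha]
      exact mul_le_mul_of_nonneg_left (h _) ha.le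
  obtain ⟨g, hg1, hg2⟩ := exists_extension_of_le_sublinear f nrm
    (fun c hc x => by rw [nrm_smul, abs_of_pos hc]) nrm_add hf
  refine ⟨g, ?_, ?_, ?_⟩
  · intro b
    have h1 := hg1 ⟨bd M (q + 1) b, Submodule.mem_sup_left ⟨b, rfl⟩⟩
    rw [LinearPMap.supSpanSingleton_apply_mk_of_mem f0 ε hz ⟨b, rfl⟩] at h1
    exact h1
  · have h1 := hg1 ⟨z, Submodule.mem_sup_right (Submodule.mem_span_singleton_self _)⟩
    rw [LinearPMap.supSpanSingleton_apply_self f0 ε hz] at h1
    exact h1
  · intro σ
    rw [abs_le]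
    constructor
    · have h1 := hg2 (-Finsupp.single σ 1)
      have e3 : nrm (-Finsupp.single σ (1 : ℝ)) = 1 := by
        rw [← neg_one_smul ℝ, nrm_smul, nrm_single]
        norm_num
      rw [map_neg, e3] at h1
      linarith only [h1]
    · have h1 := hg2 (Finsupp.single σ 1)
      rw [nrm_single, abs_one] at h1
      exact h1

/-! ### The boundary of a tuple -/

theorem dl_ofFn {B : Type*} : ∀ (n : ℕ) (v : Fin (n + 1) → B),
    dl (List.ofFn v) = ∑ i : Fin (n + 1),
      ((-1 : ℝ) ^ (i : ℕ)) • Finsupp.single (List.ofFn (fun j => v (i.succAbove j))) (1 : ℝ)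
  | 0, v => by
    simp [dl, cone]
  | n + 1, v => by
    have h := dl_ofFn n (fun i => v i.succ)
    rw [List.ofFn_succ, dl, h, map_sum]
    conv_rhs => rw [Fin.sum_univ_succ]
    simp only [map_smul, Fin.val_zero, pow_zero, one_smul, Fin.val_succ, pow_succ,
      Fin.zero_succAbove, mul_neg, mul_one, neg_smul, Finset.sum_neg_distrib, sub_eq_add_neg]
    congr 2
    apply Finset.sum_congr rfl
    intro i _
    congr 1
    rw [cone, Finsupp.lmapDomain_apply, Finsupp.mapDomain_single]
    congr 1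
    rw [List.ofFn_succ]
    simp


/-! ### Cones of singular simplices -/

/-- The join parametrisation of the simplex. -/
noncomputable def joinMap (m : ℕ) :
    C(unitInterval × stdSimplex ℝ (Fin (m + 1)), stdSimplex ℝ (Fin (m + 1 + 1))) :=
  ⟨fun p => ⟨Fin.cons (p.1 : ℝ) (fun j => (1 - (p.1 : ℝ)) * p.2 j), by
      constructor
      · intro j
        refine Fin.cases ?_ (fun j => ?_) j
        · exact p.1.2.1
        · rw [Fin.cons_succ]
          exact mul_nonneg (sub_nonneg.2 p.1.2.2) (stdSimplex.zero_le _ _)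
      · rw [Fin.sum_univ_succ]
        simp only [Fin.cons_zero, Fin.cons_succ]
        rw [← Finset.mul_sum, stdSimplex.sum_eq_one]
        ring⟩, by
    refine Continuous.subtype_mk ?_ _
    refine continuous_pi fun j => ?_
    refine Fin.cases ?_ (fun j => ?_) j
    · simp only [Fin.cons_zero]
      fun_prop
    · simp only [Fin.cons_succ]
      refine Continuous.mul (by fun_prop) ?_
      exact (continuous_apply j).comp (continuous_subtype_val.comp continuous_snd)⟩

theorem joinMap_zero (m : ℕ) (p : unitInterval × stdSimplex ℝ (Fin (m + 1))) :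
    joinMap m p 0 = (p.1 : ℝ) := rfl

theorem joinMap_succ (m : ℕ) (p : unitInterval × stdSimplex ℝ (Fin (m + 1))) (j : Fin (m + 1)) :
    joinMap m p j.succ = (1 - (p.1 : ℝ)) * p.2 j := rfl

theorem joinMap_surjective (m : ℕ) : Function.Surjective (joinMap m) := by
  intro t
  have h0 : 0 ≤ t 0 := stdSimplex.zero_le _ _
  have h1 : t 0 ≤ 1 := stdSimplex.le_one _ _
  have hs : t 0 + ∑ j : Fin (m + 1), t j.succ = 1 := by
    rw [← Fin.sum_univ_succ, stdSimplex.sum_eq_one]
  rcases h1.lt_or_eq with h | h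
  · have hp : 0 < 1 - t 0 := sub_pos.2 h
    refine ⟨(⟨t 0, h0, h1⟩, ⟨fun j => (1 - t 0)⁻¹ * t j.succ, ?_, ?_⟩), ?_⟩
    · intro j
      exact mul_nonneg (inv_nonneg.2 hp.le) (stdSimplex.zero_le _ _)
    · rw [← Finset.mul_sum, inv_mul_eq_one₀ hp.ne']
      (clear * - hs; linarith only [hs])
    · ext j
      refine Fin.cases ?_ (fun j => ?_) j
      · rfl
      · rw [joinMap_succ]
        change (1 - t 0) * ((1 - t 0)⁻¹ * t j.succ) = t j.succ
        rw [← mul_assoc, mul_inv_cancel₀ hp.ne', one_mul]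
  · refine ⟨(⟨t 0, h0, h1⟩, stdSimplex.vertex 0), ?_⟩
    ext j
    refine Fin.cases ?_ (fun j => ?_) j
    · rfl
    · rw [joinMap_succ]
      change (1 - t 0) * (stdSimplex.vertex 0 : stdSimplex ℝ (Fin (m + 1))) j = t j.succ
      have h3 : 1 - t 0 = 0 := by
        rw [h, sub_self]
      rw [h3, zero_mul]
      have h2 : ∑ j : Fin (m + 1), t j.succ = 0 := by (clear * - hs h; linarith only [hs, h])
      exact ((Finset.sum_eq_zero_iff_of_nonneg
        (fun j _ => stdSimplex.zero_le t _)).1 h2 j (Finset.mem_univ _)).symm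

theorem joinMap_isQuotientMap (m : ℕ) : IsQuotientMap (joinMap m) :=
  (joinMap m).continuous.isClosedMap.isQuotientMap (joinMap m).continuous (joinMap_surjective m)

theorem joinMap_face_zero (m : ℕ) (t : stdSimplex ℝ (Fin (m + 1))) :
    face m 0 t = joinMap m (0, t) := by
  ext j
  refine Fin.cases ?_ (fun j => ?_) j
  · rw [face_self]
    rfl
  · have h := face_succAbove m 0 t j
    rw [Fin.zero_succAbove] at h
    rw [h, joinMap_succ]
    change t j = (1 - 0) * t j
    ring

theorem joinMap_face_succ (m : ℕ) (i : Fin (m + 2)) (s : unitInterval)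
    (u : stdSimplex ℝ (Fin (m + 1))) :
    face (m + 1) i.succ (joinMap m (s, u)) = joinMap (m + 1) (s, face m i u) := by
  ext j
  refine Fin.cases ?_ (fun j => ?_) j
  · have h := face_succAbove (m + 1) i.succ (joinMap m (s, u)) 0
    rw [Fin.succ_succAbove_zero] at h
    rw [h]
    rfl
  · rw [joinMap_succ]
    change _ = (1 - (s : ℝ)) * face m i u j
    rcases Fin.eq_self_or_eq_succAbove i j with h | ⟨k, h⟩
    · subst h
      rw [face_self, face_self, mul_zero]
    · subst h
      rw [face_succAbove]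
      have h := face_succAbove (m + 1) i.succ (joinMap m (s, u)) k.succ
      rw [Fin.succ_succAbove_succ] at h
      rw [h]
      rfl

section Geo

variable {E : Type*} [NormedAddCommGroup E] [NormedSpace ℝ E] (D : Geo E)

theorem cone_factors (m : ℕ) (b : D.X) (σ : Sing D.X m) :
    ∃ c : Sing D.X (m + 1), ∀ (s : unitInterval) (u : stdSimplex ℝ (Fin (m + 1))),
      (c (joinMap m (s, u)) : E) = (s : ℝ) • (b : E) + (1 - (s : ℝ)) • (σ u : E) := by
  let g : C(unitInterval × stdSimplex ℝ (Fin (m + 1)), D.X) :=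
    ⟨fun p => ⟨(p.1 : ℝ) • (b : E) + (1 - (p.1 : ℝ)) • (σ p.2 : E),
      D.convex b.2 (σ p.2).2 p.1.2.1 (sub_nonneg.2 p.1.2.2) (by ring)⟩, by fun_prop⟩
  have hg : Function.FactorsThrough g (joinMap m) := by
    rintro ⟨s, u⟩ ⟨s', u'⟩ h
    have h0 : s = s' := by
      have := congrArg (fun t : stdSimplex ℝ (Fin (m + 1 + 1)) => t 0) h
      exact Subtype.ext this
    subst h0
    apply Subtype.ext
    change (s : ℝ) • (b : E) + (1 - (s : ℝ)) • (σ u : E) =
      (s : ℝ) • (b : E) + (1 - (s : ℝ)) • (σ u' : E)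
    by_cases hs : 1 - (s : ℝ) = 0
    · rw [hs, zero_smul, zero_smul]
    · have h1 : u = u' := by
        ext j
        have := congrArg (fun t : stdSimplex ℝ (Fin (m + 1 + 1)) => t j.succ) h
        simp only [joinMap_succ] at this
        exact mul_left_cancel₀ hs this
      rw [h1]
  refine ⟨(joinMap_isQuotientMap m).lift g hg, fun s u => ?_⟩
  have h := (joinMap_isQuotientMap m).lift_comp g hg
  have h2 := congrArg (fun f : C(unitInterval × stdSimplex ℝ (Fin (m + 1)), D.X) => f (s, u)) h
  exact congrArg Subtype.val h2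

/-- The cone of a singular simplex of the convex set `D.X`. -/
noncomputable def coneS (m : ℕ) (b : D.X) (σ : Sing D.X m) : Sing D.X (m + 1) :=
  (cone_factors D m b σ).choose

theorem coneS_apply (m : ℕ) (b : D.X) (σ : Sing D.X m) (s : unitInterval)
    (u : stdSimplex ℝ (Fin (m + 1))) :
    (coneS D m b σ (joinMap m (s, u)) : E) = (s : ℝ) • (b : E) + (1 - (s : ℝ)) • (σ u : E) :=
  (cone_factors D m b σ).choose_spec s u

theorem coneS_face_zero (m : ℕ) (b : D.X) (σ : Sing D.X m) :
    (coneS D m b σ).comp (face m 0) = σ := by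
  ext t
  change ((coneS D m b σ (face m 0 t) : D.X) : E) = σ t
  rw [joinMap_face_zero, coneS_apply]
  change (0 : ℝ) • (b : E) + (1 - (0 : ℝ)) • (σ t : E) = σ t
  rw [zero_smul, sub_zero, one_smul, zero_add]

theorem coneS_face_succ (m : ℕ) (b : D.X) (σ : Sing D.X (m + 1)) (i : Fin (m + 2)) :
    (coneS D (m + 1) b σ).comp (face (m + 1) i.succ) = coneS D m b (σ.comp (face m i)) := by
  ext t
  obtain ⟨⟨s, u⟩, rfl⟩ := joinMap_surjective m t
  change ((coneS D (m + 1) b σ (face (m + 1) i.succ (joinMap m (s, u))) : D.X) : E) = _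
  rw [joinMap_face_succ, coneS_apply, coneS_apply]
  rfl

/-- The straight simplex. -/
noncomputable def straight {m : ℕ} (v : Fin (m + 1) → D.X) : Sing D.X m :=
  ⟨fun t => ⟨∑ j, t j • (v j : E), D.convex.sum_mem (fun j _ => stdSimplex.zero_le t j)
      (stdSimplex.sum_eq_one t) (fun j _ => (v j).2)⟩, by
    refine Continuous.subtype_mk ?_ _
    refine continuous_finsetSum _ fun j _ => Continuous.smul ?_ continuous_const
    exact (continuous_apply j).comp continuous_subtype_val⟩

theorem straight_coe {m : ℕ} (v : Fin (m + 1) → D.X) (t : stdSimplex ℝ (Fin (m + 1))) :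
    (straight D v t : E) = ∑ j, t j • (v j : E) := rfl

theorem straight_face {m : ℕ} (v : Fin (m + 2) → D.X) (i : Fin (m + 2)) :
    (straight D v).comp (face m i) = straight D (fun j => v (i.succAbove j)) := by
  ext t
  change ((straight D v (face m i t) : D.X) : E) = _
  rw [straight_coe, sum_face, straight_coe]

/-- The vertices of a singular simplex. -/
noncomputable def vt {m : ℕ} (σ : Sing D.X m) : Fin (m + 1) → D.X :=
  fun j => σ (stdSimplex.vertex j)

theorem vt_face {m : ℕ} (σ : Sing D.X (m + 1)) (i : Fin (m + 2)) :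
    vt D (σ.comp (face m i)) = fun j => vt D σ (i.succAbove j) := by
  funext j
  unfold vt
  rw [ContinuousMap.comp_apply, face_vertex]

/-- The straightening of a singular simplex. -/
noncomputable def str {m : ℕ} (σ : Sing D.X m) : Sing D.X m := straight D (vt D σ)

theorem str_face {m : ℕ} (σ : Sing D.X (m + 1)) (i : Fin (m + 2)) :
    (str D σ).comp (face m i) = str D (σ.comp (face m i)) := by
  unfold str
  rw [straight_face, vt_face]

theorem str_zero (σ : Sing D.X 0) : str D σ = σ := by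
  ext t
  change ((straight D (vt D σ) t : D.X) : E) = σ t
  rw [straight_coe, Fin.sum_univ_one]
  have h : t = stdSimplex.vertex 0 := Subsingleton.elim _ _
  subst h
  have h1 : (stdSimplex.vertex (0 : Fin 1) : stdSimplex ℝ (Fin 1)) 0 = 1 := by simp
  rw [h1, one_smul]
  rfl

/-! ### The action on singular simplices -/

/-- Continuous maps of the domain that are affine. -/
def AffC (γ : C(D.X, D.X)) : Prop := ∃ g : E ≃ᵃ[ℝ] E, ∀ x : D.X, (γ x : E) = g x

theorem aff_comb (g : E ≃ᵃ[ℝ] E) (s : ℝ) (x y : E) :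
    g (s • x + (1 - s) • y) = s • g x + (1 - s) • g y := by
  have h1 : ∀ x, g x = g.linear x + g 0 := fun x => by
    have h := g.map_vadd 0 x
    simpa using h
  rw [h1 (s • x + (1 - s) • y), h1 x, h1 y, map_add, map_smul, map_smul]
  module

theorem aff_sum (g : E ≃ᵃ[ℝ] E) {m : ℕ} (t : stdSimplex ℝ (Fin (m + 1)))
    (v : Fin (m + 1) → E) : g (∑ j, t j • v j) = ∑ j, t j • g (v j) := by
  have h1 : ∀ x, g x = g.linear x + g 0 := fun x => by
    have h := g.map_vadd 0 x
    simpa using h
  rw [h1, map_sum]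
  simp_rw [map_smul]
  have h2 : ∀ j, t j • g (v j) = t j • g.linear (v j) + t j • g 0 := fun j => by
    rw [h1 (v j), smul_add]
  rw [Finset.sum_congr rfl fun j _ => h2 j, Finset.sum_add_distrib, ← Finset.sum_smul,
    stdSimplex.sum_eq_one, one_smul]

theorem coneS_comp (γ : C(D.X, D.X)) (hγ : AffC D γ) (m : ℕ) (b : D.X) (σ : Sing D.X m) :
    γ.comp (coneS D m b σ) = coneS D m (γ b) (γ.comp σ) := by
  obtain ⟨g, hg⟩ := hγ
  ext t
  obtain ⟨⟨s, u⟩, rfl⟩ := joinMap_surjective m t
  rw [coneS_apply, ContinuousMap.comp_apply, hg, coneS_apply, aff_comb, hg,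
    ContinuousMap.comp_apply, hg]

theorem str_comp (γ : C(D.X, D.X)) (hγ : AffC D γ) {m : ℕ} (σ : Sing D.X m) :
    γ.comp (str D σ) = str D (γ.comp σ) := by
  obtain ⟨g, hg⟩ := hγ
  ext t
  unfold str
  rw [ContinuousMap.comp_apply, hg, straight_coe, aff_sum, straight_coe]
  refine Finset.sum_congr rfl fun j _ => ?_
  unfold vt
  rw [ContinuousMap.comp_apply, hg]

/-! ### Linear versions -/

/-- The cone operator on chains. -/
noncomputable def coneL (m : ℕ) (b : D.X) : Chain D.X m →ₗ[ℝ] Chain D.X (m + 1) :=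
  Finsupp.lmapDomain ℝ ℝ (coneS D m b)

/-- Straightening of chains. -/
noncomputable def strL (m : ℕ) : Chain D.X m →ₗ[ℝ] Chain D.X m :=
  Finsupp.lmapDomain ℝ ℝ (str D)

/-- Push forward of chains. -/
noncomputable def pushL {X Y : Type*} [TopologicalSpace X] [TopologicalSpace Y] (γ : C(X, Y))
    (m : ℕ) : Chain X m →ₗ[ℝ] Chain Y m :=
  Finsupp.lmapDomain ℝ ℝ (fun σ => γ.comp σ)

theorem coneL_single (m : ℕ) (b : D.X) (σ : Sing D.X m) (a : ℝ) :
    coneL D m b (Finsupp.single σ a) = Finsupp.single (coneS D m b σ) a := by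
  rw [coneL, Finsupp.lmapDomain_apply, Finsupp.mapDomain_single]

theorem strL_single (m : ℕ) (σ : Sing D.X m) (a : ℝ) :
    strL D m (Finsupp.single σ a) = Finsupp.single (str D σ) a := by
  rw [strL, Finsupp.lmapDomain_apply, Finsupp.mapDomain_single]

theorem pushL_single {X Y : Type*} [TopologicalSpace X] [TopologicalSpace Y] (γ : C(X, Y))
    (m : ℕ) (σ : Sing X m) (a : ℝ) :
    pushL γ m (Finsupp.single σ a) = Finsupp.single (γ.comp σ) a := by
  rw [pushL, Finsupp.lmapDomain_apply, Finsupp.mapDomain_single]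

theorem bd_pushL {X Y : Type*} [TopologicalSpace X] [TopologicalSpace Y] (γ : C(X, Y))
    (m : ℕ) (c : Chain X (m + 1)) : bd Y m (pushL γ (m + 1) c) = pushL γ m (bd X m c) := by
  suffices h : (bd Y m).comp (pushL γ (m + 1)) = (pushL γ m).comp (bd X m) by
    exact LinearMap.congr_fun h c
  apply Finsupp.lhom_ext'
  intro σ
  apply LinearMap.ext_ring
  change bd Y m (pushL γ (m + 1) (Finsupp.single σ 1)) = pushL γ m (bd X m (Finsupp.single σ 1))
  rw [pushL_single, bd_single, bd_single, map_sum]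
  refine Finset.sum_congr rfl fun i _ => ?_
  rw [map_smul, pushL_single, ContinuousMap.comp_assoc]

theorem bd_strL (m : ℕ) (c : Chain D.X (m + 1)) :
    bd D.X m (strL D (m + 1) c) = strL D m (bd D.X m c) := by
  suffices h : (bd D.X m).comp (strL D (m + 1)) = (strL D m).comp (bd D.X m) by
    exact LinearMap.congr_fun h c
  apply Finsupp.lhom_ext'
  intro σ
  apply LinearMap.ext_ring
  change bd D.X m (strL D (m + 1) (Finsupp.single σ 1)) =
    strL D m (bd D.X m (Finsupp.single σ 1))
  rw [strL_single, bd_single, bd_single, map_sum]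
  refine Finset.sum_congr rfl fun i _ => ?_
  rw [map_smul, strL_single, str_face]

theorem bd_coneL (m : ℕ) (b : D.X) (c : Chain D.X (m + 1)) :
    bd D.X (m + 1) (coneL D (m + 1) b c) = c - coneL D m b (bd D.X m c) := by
  suffices h : (bd D.X (m + 1)).comp (coneL D (m + 1) b) =
      LinearMap.id - (coneL D m b).comp (bd D.X m) by
    exact LinearMap.congr_fun h c
  apply Finsupp.lhom_ext'
  intro σ
  apply LinearMap.ext_ring
  change bd D.X (m + 1) (coneL D (m + 1) b (Finsupp.single σ 1)) =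
    Finsupp.single σ 1 - coneL D m b (bd D.X m (Finsupp.single σ 1))
  rw [coneL_single, bd_single, bd_single, Fin.sum_univ_succ, coneS_face_zero, map_sum]
  rw [Fin.val_zero, pow_zero, one_smul, sub_eq_add_neg, ← Finset.sum_neg_distrib]
  congr 1
  refine Finset.sum_congr rfl fun i _ => ?_
  rw [coneS_face_succ, map_smul, coneL_single, Fin.val_succ, pow_succ, mul_neg_one, neg_smul]

theorem strL_zero (c : Chain D.X 0) : strL D 0 c = c := by
  suffices h : strL D 0 = LinearMap.id by
    exact LinearMap.congr_fun h c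
  apply Finsupp.lhom_ext'
  intro σ
  apply LinearMap.ext_ring
  change strL D 0 (Finsupp.single σ 1) = Finsupp.single σ 1
  rw [strL_single, str_zero]

/-! ### The straightening homotopy -/

/-- The homotopy between the straightening and the identity. -/
noncomputable def htpy : (m : ℕ) → Chain D.X m →ₗ[ℝ] Chain D.X (m + 1)
  | 0 => 0
  | m + 1 => Finsupp.linearCombination ℝ (fun σ : Sing D.X (m + 1) =>
      coneL D (m + 1) (σ (stdSimplex.vertex 0))
        (Finsupp.single (str D σ) 1 - Finsupp.single σ 1 -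
          htpy m (bd D.X m (Finsupp.single σ 1))))

theorem htpy_single (m : ℕ) (σ : Sing D.X (m + 1)) :
    htpy D (m + 1) (Finsupp.single σ 1) =
      coneL D (m + 1) (σ (stdSimplex.vertex 0))
        (Finsupp.single (str D σ) 1 - Finsupp.single σ 1 -
          htpy D m (bd D.X m (Finsupp.single σ 1))) := by
  rw [htpy, Finsupp.linearCombination_single, one_smul]

theorem bd_htpy : ∀ (m : ℕ) (c : Chain D.X (m + 1)),
    bd D.X (m + 1) (htpy D (m + 1) c) + htpy D m (bd D.X m c) = strL D (m + 1) c - c := by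
  intro m
  induction m with
  | zero =>
    intro c
    suffices h : (bd D.X 1).comp (htpy D 1) + (htpy D 0).comp (bd D.X 0) =
        strL D 1 - LinearMap.id by
      exact LinearMap.congr_fun h c
    apply Finsupp.lhom_ext'
    intro σ
    apply LinearMap.ext_ring
    change bd D.X 1 (htpy D 1 (Finsupp.single σ 1)) + htpy D 0 (bd D.X 0 (Finsupp.single σ 1)) =
      strL D 1 (Finsupp.single σ 1) - Finsupp.single σ 1
    have h0 : ∀ c, htpy D 0 c = 0 := fun c => rfl
    have hY : bd D.X 0 (Finsupp.single (str D σ) 1 - Finsupp.single σ 1 -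
        htpy D 0 (bd D.X 0 (Finsupp.single σ 1))) = 0 := by
      rw [← strL_single, map_sub, map_sub, bd_strL, strL_zero, sub_self, h0, map_zero, sub_zero]
    rw [htpy_single, bd_coneL, hY, map_zero, sub_zero, ← strL_single]
    abel
  | succ m ih =>
    intro c
    suffices h : (bd D.X (m + 2)).comp (htpy D (m + 2)) + (htpy D (m + 1)).comp (bd D.X (m + 1)) =
        strL D (m + 2) - LinearMap.id by
      exact LinearMap.congr_fun h c
    apply Finsupp.lhom_ext'
    intro σ
    apply LinearMap.ext_ring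
    change bd D.X (m + 2) (htpy D (m + 2) (Finsupp.single σ 1)) +
      htpy D (m + 1) (bd D.X (m + 1) (Finsupp.single σ 1)) =
      strL D (m + 2) (Finsupp.single σ 1) - Finsupp.single σ 1
    have h := ih (bd D.X (m + 1) (Finsupp.single σ 1))
    rw [bd_bd, map_zero, add_zero] at h
    have hY : bd D.X (m + 1) (Finsupp.single (str D σ) 1 - Finsupp.single σ 1 -
        htpy D (m + 1) (bd D.X (m + 1) (Finsupp.single σ 1))) = 0 := by
      rw [← strL_single, map_sub, map_sub, bd_strL, h, sub_self]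
    rw [htpy_single, bd_coneL, hY, map_zero, sub_zero, ← strL_single]
    abel

theorem htpy_pushL (γ : C(D.X, D.X)) (hγ : AffC D γ) : ∀ (m : ℕ) (c : Chain D.X m),
    htpy D m (pushL γ m c) = pushL γ (m + 1) (htpy D m c) := by
  intro m
  induction m with
  | zero =>
    intro c
    have h0 : ∀ c, htpy D 0 c = 0 := fun c => rfl
    rw [h0, h0, map_zero]
  | succ m ih =>
    intro c
    suffices h : (htpy D (m + 1)).comp (pushL γ (m + 1)) =
        (pushL γ (m + 2)).comp (htpy D (m + 1)) by
      exact LinearMap.congr_fun h c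
    apply Finsupp.lhom_ext'
    intro σ
    apply LinearMap.ext_ring
    change htpy D (m + 1) (pushL γ (m + 1) (Finsupp.single σ 1)) =
      pushL γ (m + 2) (htpy D (m + 1) (Finsupp.single σ 1))
    rw [pushL_single, htpy_single, htpy_single, ← pushL_single, bd_pushL, ih,
      ← str_comp D γ hγ, ← pushL_single, ← map_sub, ← map_sub]
    generalize (Finsupp.single (str D σ) (1 : ℝ) - Finsupp.single σ 1 -
      htpy D m (bd D.X m (Finsupp.single σ 1))) = c
    suffices h : (coneL D (m + 1) (γ.comp σ (stdSimplex.vertex 0))).comp (pushL γ (m + 1)) =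
        (pushL γ (m + 2)).comp (coneL D (m + 1) (σ (stdSimplex.vertex 0))) by
      exact LinearMap.congr_fun h c
    apply Finsupp.lhom_ext'
    intro τ
    apply LinearMap.ext_ring
    change coneL D (m + 1) _ (pushL γ (m + 1) (Finsupp.single τ 1)) =
      pushL γ (m + 2) (coneL D (m + 1) _ (Finsupp.single τ 1))
    rw [pushL_single, coneL_single, coneL_single, pushL_single, coneS_comp D γ hγ]
    rfl

end Geo


/-! ### Lifting singular simplices -/

instance instCt (m : ℕ) : ContractibleSpace (stdSimplex ℝ (Fin (m + 1))) :=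
  (convex_stdSimplex ℝ (Fin (m + 1))).contractibleSpace ⟨_, single_mem_stdSimplex ℝ 0⟩

instance instLpc (m : ℕ) : LocallyPathConnectedSpace (stdSimplex ℝ (Fin (m + 1))) :=
  (convex_stdSimplex ℝ (Fin (m + 1))).locallyPathConnectedSpace

section Cov

variable {E : Type*} [NormedAddCommGroup E] [NormedSpace ℝ E] [FiniteDimensional ℝ E] (D : Geo E)

theorem continuous_act (g : D.Γ) : Continuous (fun x : D.X => g • x) := by
  refine Continuous.subtype_mk ?_ _
  have h : Continuous (g.1 : E → E) := AffineEquiv.continuous_of_finiteDimensional g.1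
  exact h.comp continuous_subtype_val

/-- The action by continuous maps. -/
def actC (g : D.Γ) : C(D.X, D.X) := ⟨fun x => g • x, continuous_act D g⟩

theorem actC_aff (g : D.Γ) : AffC D (actC D g) := ⟨g.1, fun _ => rfl⟩

theorem isCoveringMap (π : D.X → M) (hπ : Topology.IsQuotientMap π)
    (hfib : ∀ x y : D.X, π x = π y ↔ ∃ g : D.Γ, g • x = y) : IsCoveringMap π := by
  have : ContinuousConstSMul D.Γ D.X := ⟨continuous_act D⟩
  have : ProperSpace E := FiniteDimensional.proper ℝ E
  have : LocallyCompactSpace D.X := D.isOpen.locallyCompactSpace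
  have : IsCancelSMul D.Γ D.X := by
    refine isCancelSMul_iff_eq_one_of_smul_eq.2 ?_
    intro g x h
    apply Subtype.ext
    exact D.free g.1 g.2 x.1 x.2 (congrArg Subtype.val h)
  have : ProperlyDiscontinuousSMul D.Γ D.X := by
    constructor
    intro K L hK hL
    have hKL : IsCompact (Subtype.val '' (K ∪ L) : Set E) :=
      (hK.union hL).image continuous_subtype_val
    have hfin := D.pd _ (by rintro _ ⟨x, _, rfl⟩; exact x.2) hKL
    refine Set.Finite.of_injOn (f := fun g : D.Γ => g.1) ?_ (Subtype.val_injective.injOn) hfin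
    intro g hg
    refine ⟨g.2, ?_⟩
    obtain ⟨y, ⟨x, hx, hxy⟩, hy⟩ := hg
    refine ⟨x, ⟨x, Or.inl hx, rfl⟩, ⟨y, Or.inr hy, ?_⟩⟩
    rw [← hxy]
    rfl
  refine (hπ.isQuotientCoveringMap_of_properlyDiscontinuousSMul (G := D.Γ) ?_).isCoveringMap
  intro x y
  rw [eq_comm, hfib]
  rfl

theorem exists_lift {π : D.X → M} (hc : IsCoveringMap π) (hs : Function.Surjective π) (m : ℕ)
    (σ : Sing M m) : ∃ τ : Sing D.X m, ∀ t, π (τ t) = σ t := by
  obtain ⟨e, he⟩ := hs (σ (stdSimplex.vertex 0))
  obtain ⟨F, ⟨_, hF⟩, _⟩ := hc.existsUnique_continuousMap_lifts σ (stdSimplex.vertex 0) e he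
  exact ⟨F, fun t => congrFun hF t⟩

theorem lift_unique {π : D.X → M} (hc : IsCoveringMap π)
    (hfib : ∀ x y : D.X, π x = π y ↔ ∃ g : D.Γ, g • x = y) (m : ℕ)
    (τ τ' : Sing D.X m) (h : ∀ t, π (τ t) = π (τ' t)) : ∃ g : D.Γ, (actC D g).comp τ = τ' := by
  obtain ⟨g, hg⟩ := (hfib _ _).1 (h (stdSimplex.vertex 0))
  refine ⟨g, ?_⟩
  let σ : Sing M m := ⟨fun t => π (τ' t), hc.continuous.comp τ'.continuous⟩
  obtain ⟨F, _, hu⟩ := hc.existsUnique_continuousMap_lifts σ (stdSimplex.vertex 0)
    (τ' (stdSimplex.vertex 0)) rfl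
  have h1 : (actC D g).comp τ = F := by
    refine hu _ ⟨hg, ?_⟩
    funext t
    change π (g • τ t) = π (τ' t)
    rw [← h t]
    exact ((hfib _ _).2 ⟨g, rfl⟩).symm
  have h2 : τ' = F := hu _ ⟨rfl, rfl⟩
  rw [h1, h2]

theorem straight_comp (γ : C(D.X, D.X)) (hγ : AffC D γ) {m : ℕ} (v : Fin (m + 1) → D.X) :
    γ.comp (straight D v) = straight D (fun j => γ (v j)) := by
  obtain ⟨g, hg⟩ := hγ
  ext t
  rw [ContinuousMap.comp_apply, hg, straight_coe, aff_sum, straight_coe]
  exact Finset.sum_congr rfl fun j _ => by rw [hg]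

/-- Vertices of chains. -/
noncomputable def vL (m : ℕ) : Chain D.X m →ₗ[ℝ] L D.X :=
  Finsupp.lmapDomain ℝ ℝ (fun τ => List.ofFn (vt D τ))

theorem vL_single (m : ℕ) (σ : Sing D.X m) (a : ℝ) :
    vL D m (Finsupp.single σ a) = Finsupp.single (List.ofFn (vt D σ)) a := by
  rw [vL, Finsupp.lmapDomain_apply, Finsupp.mapDomain_single]

theorem pair_single {B : Type*} (β : List B → ℝ) (l : List B) (a : ℝ) :
    pair β (Finsupp.single l a) = a * β l := by
  rw [pair, Finsupp.linearCombination_single, smul_eq_mul]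

theorem pair_cob_vL (m : ℕ) (α : List D.X → ℝ) (c : Chain D.X (m + 1)) :
    pair (cob α) (vL D (m + 1) c) = pair α (vL D m (bd D.X m c)) := by
  suffices h : (pair (cob α)).comp (vL D (m + 1)) =
      (pair α).comp ((vL D m).comp (bd D.X m)) by
    exact LinearMap.congr_fun h c
  apply Finsupp.lhom_ext'
  intro σ
  apply LinearMap.ext_ring
  change pair (cob α) (vL D (m + 1) (Finsupp.single σ 1)) =
    pair α (vL D m (bd D.X m (Finsupp.single σ 1)))
  rw [vL_single, bd_single, pair_single, one_mul, cob, dl_ofFn, map_sum, map_sum, map_sum]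
  refine Finset.sum_congr rfl fun i _ => ?_
  rw [map_smul, map_smul, map_smul, vL_single, vt_face]

theorem desc {π : D.X → M} (hc : IsCoveringMap π)
    (hfib : ∀ x y : D.X, π x = π y ↔ ∃ g : D.Γ, g • x = y)
    (lft : (m : ℕ) → Sing M m → Sing D.X m) (hlft : ∀ m σ t, π (lft m σ t) = σ t)
    (q : ℕ) (F : Chain D.X q →ₗ[ℝ] ℝ)
    (hF : ∀ (g : D.Γ) (τ : Sing D.X q), F (Finsupp.single ((actC D g).comp τ) 1) =
      F (Finsupp.single τ 1)) (z : Chain M (q + 1)) (hz : bd M q z = 0) :
    F (bd D.X q (Finsupp.lmapDomain ℝ ℝ (lft (q + 1)) z)) = 0 := by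
  have h : F.comp ((bd D.X q).comp (Finsupp.lmapDomain ℝ ℝ (lft (q + 1)))) =
      (F.comp (Finsupp.lmapDomain ℝ ℝ (lft q))).comp (bd M q) := by
    apply Finsupp.lhom_ext'
    intro σ
    apply LinearMap.ext_ring
    change F (bd D.X q (Finsupp.lmapDomain ℝ ℝ (lft (q + 1)) (Finsupp.single σ 1))) =
      F (Finsupp.lmapDomain ℝ ℝ (lft q) (bd M q (Finsupp.single σ 1)))
    rw [Finsupp.lmapDomain_apply, Finsupp.mapDomain_single, bd_single, bd_single, map_sum,
      map_sum, map_sum]
    refine Finset.sum_congr rfl fun i _ => ?_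
    rw [map_smul, map_smul, map_smul, Finsupp.lmapDomain_apply, Finsupp.mapDomain_single]
    congr 1
    obtain ⟨g, hg⟩ := lift_unique D hc hfib q (lft q (σ.comp (face q i)))
      ((lft (q + 1) σ).comp (face q i)) (fun t => by
        rw [hlft, ContinuousMap.comp_apply, ContinuousMap.comp_apply, hlft])
    rw [← hg, hF]
  have h2 := LinearMap.congr_fun h z
  change F (bd D.X q (Finsupp.lmapDomain ℝ ℝ (lft (q + 1)) z)) =
    F (Finsupp.lmapDomain ℝ ℝ (lft q) (bd M q z)) at h2
  rw [h2, hz, map_zero, map_zero]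

theorem main (hV : Vanish D) (π : D.X → M)
    (hπ : Topology.IsQuotientMap π) (hfib : ∀ x y : D.X, π x = π y ↔ ∃ g : D.Γ, g • x = y)
    (q : ℕ) (hq : Module.finrank ℝ E = q + 1) (z : Chain M (q + 1)) (hz : bd M q z = 0)
    (ε : ℝ) (hε : 0 < ε) : ∃ b : Chain M (q + 2), nrm (z + bd M (q + 1) b) < ε := by
  by_contra hcon
  push Not at hcon
  obtain ⟨ζ, hζb, hζz, hζ1⟩ := exists_functional q z ε hε hcon
  have hc := isCoveringMap D π hπ hfib
  have hs := hπ.surjective
  let P : C(D.X, M) := ⟨π, hπ.continuous⟩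
  have hPg : ∀ g : D.Γ, P.comp (actC D g) = P := by
    intro g
    ext x
    exact ((hfib _ _).2 ⟨g, rfl⟩).symm
  choose lft hlft using fun (m : ℕ) (σ : Sing M m) => exists_lift D hc hs m σ
  have hPl : ∀ m (σ : Sing M m), P.comp (lft m σ) = σ := fun m σ => by
    ext t
    exact hlft m σ t
  -- the cochain
  let β : List D.X → ℝ := fun l =>
    if h : l.length = q + 2 then
      ζ (Finsupp.single (P.comp (straight D (fun j : Fin (q + 2) => l.get (j.cast h.symm)))) 1)
    else 0
  have hβ1 : ∀ v : Fin (q + 2) → D.X,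
      β (List.ofFn v) = ζ (Finsupp.single (P.comp (straight D v)) 1) := by
    intro v
    have h : (List.ofFn v).length = q + 2 := List.length_ofFn
    simp only [β]
    rw [dif_pos h]
    congr 4
    funext j
    rw [List.get_ofFn]
    congr 1
  have hβ2 : ∀ l : List D.X, l.length ≠ q + 2 → β l = 0 := by
    intro l h
    simp only [β]
    rw [dif_neg h]
  have hofFn : ∀ (n : ℕ) (l : List D.X), l.length = n → ∃ v : Fin n → D.X, l = List.ofFn v := by
    intro n l hl
    subst hl
    exact ⟨l.get, (List.ofFn_get l).symm⟩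
  have hBdd : Bdd β := by
    refine ⟨1, fun l => ?_⟩
    by_cases h : l.length = q + 2
    · obtain ⟨v, rfl⟩ := hofFn _ l h
      rw [hβ1]
      exact hζ1 _
    · rw [hβ2 l h, abs_zero]
      exact zero_le_one
  have hInv : Inv D.Γ β := by
    intro g l
    by_cases h : l.length = q + 2
    · obtain ⟨v, rfl⟩ := hofFn _ l h
      rw [List.map_ofFn, hβ1, hβ1]
      have h1 := straight_comp D (actC D g) (actC_aff D g) v
      change ζ (Finsupp.single (P.comp (straight D (fun j => actC D g (v j)))) 1) = _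
      rw [← h1, ← ContinuousMap.comp_assoc, hPg]
    · rw [hβ2 l h, hβ2]
      rw [List.length_map]
      exact h
  have hcob : cob β = 0 := by
    funext l
    rw [Pi.zero_apply]
    cases hl : l.length with
    | zero =>
      rw [List.length_eq_zero_iff] at hl
      subst hl
      rw [cob, dl, map_zero]
    | succ n =>
      obtain ⟨v, rfl⟩ := hofFn _ l hl
      rw [cob, dl_ofFn, map_sum]
      by_cases hn : n = q + 2
      · subst hn
        have h1 := hζb (Finsupp.single (P.comp (straight D v)) 1)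
        rw [bd_single, map_sum] at h1
        rw [← h1]
        refine Finset.sum_congr rfl fun i _ => ?_
        rw [map_smul, map_smul, pair_single, one_mul, hβ1, ContinuousMap.comp_assoc,
          straight_face]
      · refine Finset.sum_eq_zero fun i _ => ?_
        rw [map_smul, pair_single, hβ2, mul_zero, smul_zero]
        rw [List.length_ofFn]
        exact hn
  -- the lifted chain
  set c : Chain D.X (q + 1) := Finsupp.lmapDomain ℝ ℝ (lft (q + 1)) z with hcdef
  have hCyc : Cyc D.Γ (vL D (q + 1) c) := by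
    intro α hα
    rw [pair_cob_vL]
    refine desc D hc hfib lft hlft q ((pair α).comp (vL D q)) ?_ z hz
    intro g τ
    rw [LinearMap.comp_apply, LinearMap.comp_apply, vL_single, vL_single, pair_single,
      pair_single, one_mul, one_mul, ← hα g (List.ofFn (vt D τ)), List.map_ofFn]
    rfl
  have hsupp : ∀ l ∈ (vL D (q + 1) c).support, l.length = Module.finrank ℝ E + 1 := by
    classical
    intro l hl
    have h1 := Finsupp.mapDomain_support hl
    rw [Finset.mem_image] at h1
    obtain ⟨τ, _, rfl⟩ := h1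
    rw [List.length_ofFn, hq]
  have h0 := hV β hBdd hInv hcob (vL D (q + 1) c) hCyc hsupp
  -- evaluation
  have h1 : pair β (vL D (q + 1) c) = ζ (pushL P (q + 1) (strL D (q + 1) c)) := by
    suffices h : (pair β).comp (vL D (q + 1)) =
        ζ.comp ((pushL P (q + 1)).comp (strL D (q + 1))) by
      exact LinearMap.congr_fun h c
    apply Finsupp.lhom_ext'
    intro σ
    apply LinearMap.ext_ring
    change pair β (vL D (q + 1) (Finsupp.single σ 1)) =
      ζ (pushL P (q + 1) (strL D (q + 1) (Finsupp.single σ 1)))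
    rw [vL_single, strL_single, pushL_single, pair_single, one_mul, hβ1]
    rfl
  have h2 : pushL P (q + 1) c = z := by
    suffices h : (pushL P (q + 1)).comp (Finsupp.lmapDomain ℝ ℝ (lft (q + 1))) =
        LinearMap.id by
      exact LinearMap.congr_fun h z
    apply Finsupp.lhom_ext'
    intro σ
    apply LinearMap.ext_ring
    change pushL P (q + 1) (Finsupp.lmapDomain ℝ ℝ (lft (q + 1)) (Finsupp.single σ 1)) =
      Finsupp.single σ 1
    rw [Finsupp.lmapDomain_apply, Finsupp.mapDomain_single, pushL_single, hPl]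
  have h3 : ζ (pushL P (q + 1) (htpy D q (bd D.X q c))) = 0 := by
    refine desc D hc hfib lft hlft q (ζ.comp ((pushL P (q + 1)).comp (htpy D q))) ?_ z hz
    intro g τ
    change ζ (pushL P (q + 1) (htpy D q (Finsupp.single ((actC D g).comp τ) 1))) =
      ζ (pushL P (q + 1) (htpy D q (Finsupp.single τ 1)))
    rw [← pushL_single, htpy_pushL D _ (actC_aff D g)]
    generalize htpy D q (Finsupp.single τ 1) = e
    congr 1
    suffices h : (pushL P (q + 1)).comp (pushL (actC D g) (q + 1)) = pushL P (q + 1) by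
      exact LinearMap.congr_fun h e
    apply Finsupp.lhom_ext'
    intro σ
    apply LinearMap.ext_ring
    change pushL P (q + 1) (pushL (actC D g) (q + 1) (Finsupp.single σ 1)) =
      pushL P (q + 1) (Finsupp.single σ 1)
    rw [pushL_single, pushL_single, pushL_single, ← ContinuousMap.comp_assoc, hPg]
  have h4 := congrArg (fun e => ζ (pushL P (q + 1) e)) (bd_htpy D q c)
  simp only [map_add, map_sub] at h4
  rw [← bd_pushL, hζb, h3, ← h1, h0, h2, hζz] at h4
  linarith only [hε, h4]

end Cov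

end SingAux

section Geometry

variable {E : Type*} [NormedAddCommGroup E] [NormedSpace ℝ E] [FiniteDimensional ℝ E]

theorem of_vanish (D : Geo E) (hV : Vanish D) (M : Type*) [TopologicalSpace M] (π : D.X → M)
    (hπ : Topology.IsQuotientMap π) (hfib : ∀ x y : D.X, π x = π y ↔ ∃ g : D.Γ, g • x = y)
    (q : ℕ) (hq : Module.finrank ℝ E = q + 1) (z : Chain M (q + 1)) (hz : bd M q z = 0)
    (ε : ℝ) (hε : 0 < ε) : ∃ b : Chain M (q + 2), nrm (z + bd M (q + 1) b) < ε :=
  SingAux.main D hV π hπ hfib q hq z hz ε hε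

end Geometry

end Pool.SV
end

/- Helper16.LDA.SV.Spline -/
section
set_option autoImplicit false

open Set Finset

namespace Pool.SV

namespace Spline

open MeasureTheory intervalIntegral

variable {E : Type*} [NormedAddCommGroup E] [NormedSpace ℝ E] [FiniteDimensional ℝ E]

/-- the flow -/
noncomputable def G (T : Alg E) (t : ℝ) : Alg E := NormedSpace.exp (t • T)

omit [FiniteDimensional ℝ E] in
theorem G_zero (T : Alg E) : G T 0 = 1 := by
  unfold G
  rw [zero_smul, NormedSpace.exp_zero]

theorem G_add (T : Alg E) (s t : ℝ) : G T (s + t) = G T s * G T t := by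
  unfold G
  rw [add_smul, NormedSpace.exp_add_of_commute]
  exact ((Commute.refl T).smul_left s).smul_right t

theorem G_comm (T : Alg E) (s t : ℝ) : G T s * G T t = G T t * G T s := by
  rw [← G_add, ← G_add, add_comm]

omit [FiniteDimensional ℝ E] in
theorem G_commute (T : Alg E) (t : ℝ) : Commute T (G T t) := by
  unfold G
  exact ((Commute.refl T).smul_right t).exp_right

theorem hasDerivAt_G (T : Alg E) (t : ℝ) : HasDerivAt (G T) (T * G T t) t :=
  hasDerivAt_exp_smul_const' T t

theorem continuous_G (T : Alg E) : Continuous (G T) :=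
  continuous_iff_continuousAt.2 fun t => (hasDerivAt_G T t).continuousAt

theorem hasDerivAt_G_apply (T : Alg E) (t : ℝ) (x : E × ℝ) :
    HasDerivAt (fun s => G T s x) (G T t (T x)) t := by
  have h := (hasDerivAt_G T t)
  have h2 := (ContinuousLinearMap.apply ℝ (E × ℝ) x).hasFDerivAt.comp_hasDerivAt t h
  have h3 : (ContinuousLinearMap.apply ℝ (E × ℝ) x) (T * G T t) = G T t (T x) := by
    rw [(G_commute T t).eq]
    rfl
  rw [h3] at h2
  exact h2

theorem continuous_G_apply (T : Alg E) (x : E × ℝ) : Continuous (fun s => G T s x) :=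
  continuous_iff_continuousAt.2 fun t => (hasDerivAt_G_apply T t x).continuousAt

/-- vectors killed by `T` are fixed by the flow -/
theorem G_fix {T : Alg E} {x : E × ℝ} (hx : T x = 0) (t : ℝ) : G T t x = x := by
  have h : ∀ s, HasDerivAt (fun s => G T s x) 0 s := by
    intro s
    have := hasDerivAt_G_apply T s x
    rwa [hx, map_zero] at this
  have h2 := is_const_of_deriv_eq_zero (fun s => (h s).differentiableAt)
    (fun s => (h s).deriv) t 0
  simp only [G_zero] at h2
  exact h2

theorem integral_G_apply (T : Alg E) (x : E × ℝ) (a b : ℝ) :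
    ∫ s in a..b, G T s (T x) = G T b x - G T a x :=
  integral_eq_sub_of_hasDerivAt (fun s _ => hasDerivAt_G_apply T s x)
    ((continuous_G_apply T (T x)).intervalIntegrable a b)

/-- the averages -/
noncomputable def P (T : Alg E) (v : E × ℝ) : ℕ → ℝ → E × ℝ
  | 0 => fun t => G T (⌊t⌋ : ℝ) v
  | k + 1 => fun t => ∫ s in (t - 1)..t, P T v k s

variable (T : Alg E) (v : E × ℝ)

omit [FiniteDimensional ℝ E] in
theorem P_int (k : ℕ) : ∀ a b, IntervalIntegrable (P T v k) volume a b := by
  induction k with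
  | zero =>
    intro a b
    have hm : StronglyMeasurable (P T v 0) := by
      have h1 : StronglyMeasurable (fun m : ℤ => G T (m : ℝ) v) :=
        StronglyMeasurable.of_discrete
      exact h1.comp_measurable Int.measurable_floor
    obtain ⟨C, hC⟩ : ∃ C : ℝ, ∀ s ∈ uIoc a b, ‖P T v 0 s‖ ≤ C := by
      obtain ⟨C, hC⟩ := ((Set.finite_Icc (⌊min a b⌋) (⌊max a b⌋)).image
        (fun m : ℤ => ‖G T (m : ℝ) v‖)).bddAbove
      refine ⟨C, fun s hs => hC ?_⟩
      have hs : s ∈ Set.Ioc (min a b) (max a b) := hs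
      refine ⟨⌊s⌋, ⟨?_, ?_⟩, rfl⟩
      · exact Int.floor_le_floor hs.1.le
      · exact Int.floor_le_floor hs.2
    rw [intervalIntegrable_iff]
    apply Measure.integrableOn_of_bounded (M := C) measure_Ioc_lt_top.ne hm.aestronglyMeasurable
    filter_upwards [ae_restrict_mem measurableSet_uIoc] with s hs using hC s hs
  | succ k ih =>
    intro a b
    apply Continuous.intervalIntegrable
    have h1 : P T v (k + 1) = fun t => (∫ s in (0 : ℝ)..t, P T v k s) -
        ∫ s in (0 : ℝ)..(t - 1), P T v k s := by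
      funext t
      change (∫ s in (t - 1)..t, P T v k s) = _
      rw [integral_interval_sub_left (ih _ _) (ih _ _)]
    rw [h1]
    exact (continuous_primitive ih 0).sub ((continuous_primitive ih 0).comp
      (continuous_id.sub continuous_const))

theorem P_shift (k : ℕ) : ∀ t, P T v k (t + 1) = G T 1 (P T v k t) := by
  induction k with
  | zero =>
    intro t
    change G T ((⌊t + 1⌋ : ℤ) : ℝ) v = G T 1 (G T (⌊t⌋ : ℝ) v)
    rw [Int.floor_add_one, Int.cast_add, Int.cast_one, add_comm, G_add]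
    rfl
  | succ k ih =>
    intro t
    change (∫ s in (t + 1 - 1)..(t + 1), P T v k s) = G T 1 (∫ s in (t - 1)..t, P T v k s)
    rw [← ContinuousLinearMap.intervalIntegral_comp_comm _ (P_int T v k _ _)]
    rw [← intervalIntegral.integral_congr (fun s _ => ih s)]
    rw [integral_comp_add_right (fun s => P T v k s) 1]
    congr 1
    ring

theorem P_mem (C : Set (E × ℝ)) (hC : Convex ℝ C) (hv : ∀ m : ℤ, G T (m : ℝ) v ∈ C) (k : ℕ)
    (t : ℝ) : P T v k t ∈ C := by
  -- a finite hull
  have key : ∀ (M : ℤ) (k : ℕ) (t : ℝ), |t| + k ≤ M → P T v k t ∈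
      convexHull ℝ ((fun m : ℤ => G T (m : ℝ) v) '' Set.Icc (-M - 1) M) := by
    intro M k
    induction k with
    | zero =>
      intro t ht
      apply subset_convexHull
      refine ⟨⌊t⌋, ⟨?_, ?_⟩, rfl⟩
      · rw [Int.le_floor]
        have := neg_abs_le t
        push_cast at ht ⊢
        linarith only [this, ht]
      · rw [← Int.lt_add_one_iff, Int.floor_lt]
        have := le_abs_self t
        push_cast at ht ⊢
        linarith
    | succ k ih =>
      intro t ht
      change (∫ s in (t - 1)..t, P T v k s) ∈ _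
      rw [integral_of_le (by linarith)]
      have hprob : IsProbabilityMeasure (volume.restrict (Set.Ioc (t - 1) t)) := by
        constructor
        rw [Measure.restrict_apply_univ, Real.volume_Ioc]
        simp
      refine Convex.integral_mem (convex_convexHull ℝ _) ?_ ?_ ?_
      · exact (((Set.finite_Icc (-M - 1) M).image _).isCompact_convexHull ℝ).isClosed
      · filter_upwards [ae_restrict_mem measurableSet_Ioc] with s hs
        apply ih
        push_cast at ht
        have h1 : |s| ≤ |t| + 1 := by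
          rw [abs_le]
          have h2 := neg_abs_le t
          have h3 := le_abs_self t
          constructor
          · linarith [hs.1]
          · linarith [hs.2]
        linarith
      · have := P_int T v k (t - 1) t
        rw [intervalIntegrable_iff_integrableOn_Ioc_of_le (by linarith)] at this
        exact this
  obtain ⟨M, hM⟩ := exists_int_gt (|t| + k)
  refine (convexHull_min ?_ hC) (key M k t hM.le)
  rintro _ ⟨m, _, rfl⟩
  exact hv m

omit [FiniteDimensional ℝ E] in
theorem T_pow_comm (e : ℕ) (t : ℝ) (x : E × ℝ) : (T ^ e) (G T t x) = G T t ((T ^ e) x) := by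
  have h : Commute (T ^ e) (G T t) := (G_commute T t).pow_left e
  exact congrArg (fun U : Alg E => U x) h.eq

theorem T_int_pow (e k : ℕ) (t : ℝ) : (T ^ e) (P T v (k + 1) t) =
    ∫ s in (t - 1)..t, (T ^ e) (P T v k s) := by
  change (T ^ e) (∫ s in (t - 1)..t, P T v k s) = _
  rw [ContinuousLinearMap.intervalIntegral_comp_comm _ (P_int T v k _ _)]

theorem G_int (c : E × ℝ) (s : ℝ) :
    ∫ r in (-1 : ℝ)..0, G T r (G T s c) = G T s (∫ r in (-1 : ℝ)..0, G T r c) := by
  rw [← ContinuousLinearMap.intervalIntegral_comp_comm _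
    ((continuous_G_apply T c).intervalIntegrable _ _)]
  apply intervalIntegral.integral_congr
  intro r _
  exact congrArg (fun U : Alg E => U c) (G_comm T r s)

/-- the inductive step -/
theorem step (e k : ℕ)
    (H : ∀ s, (T ^ (e + 1)) (P T v k s) = G T s ((T ^ (e + 1)) (P T v k 0))) (t : ℝ) :
    (T ^ e) (P T v (k + 1) t) = G T t ((T ^ e) (P T v (k + 1) 0)) := by
  set c := (T ^ (e + 1)) (P T v k 0) with hc
  set b := P T v (k + 1) 0 with hb
  have hTpow : ∀ x : E × ℝ, T ((T ^ e) x) = (T ^ (e + 1)) x := by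
    intro x
    rw [pow_succ']
    rfl
  have hTpow' : ∀ x : E × ℝ, (T ^ e) (T x) = (T ^ (e + 1)) x := by
    intro x
    rw [pow_succ]
    rfl
  -- 1
  have h1 : (T ^ (e + 1)) b = ∫ s in (-1 : ℝ)..0, G T s c := by
    rw [hb, T_int_pow]
    have : (0 : ℝ) - 1 = -1 := by norm_num
    rw [this]
    exact intervalIntegral.integral_congr (fun s _ => H s)
  -- 2
  have h2 : ∀ s, (T ^ e) (P T v k s - P T v k (s - 1)) = G T s ((T ^ (e + 1)) b) := by
    intro s
    have e1 : P T v k (s - 1) = G T (-1) (P T v k s) := by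
      have h := P_shift T v k (s - 1)
      rw [sub_add_cancel] at h
      rw [h]
      have h' : G T (-1) (G T 1 (P T v k (s - 1))) = (G T (-1) * G T 1) (P T v k (s - 1)) := rfl
      rw [h', ← G_add]
      norm_num
      rw [G_zero]
      rfl
    have e2 := integral_G_apply T (P T v k s) (-1) 0
    rw [e1]
    have e3 : P T v k s = G T 0 (P T v k s) := by rw [G_zero]; rfl
    nth_rewrite 1 [e3]
    rw [← e2, ← ContinuousLinearMap.intervalIntegral_comp_comm _
      ((continuous_G_apply T _).intervalIntegrable _ _)]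
    rw [h1, ← G_int]
    apply intervalIntegral.integral_congr
    intro r _
    change (T ^ e) (G T r (T (P T v k s))) = G T r (G T s c)
    rw [T_pow_comm, hTpow', H s]
  -- 3
  have h3 : P T v (k + 1) t - b = ∫ s in (0 : ℝ)..t, (P T v k s - P T v k (s - 1)) := by
    have i1 : ∀ a b, IntervalIntegrable (fun s => P T v k (s - 1)) volume a b := by
      intro a b
      have := (P_int T v k (a - 1) (b - 1)).comp_sub_right 1
      simpa using this
    rw [intervalIntegral.integral_sub (P_int T v k _ _) (i1 _ _),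
      integral_comp_sub_right (fun s => P T v k s) 1]
    change (∫ s in (t - 1)..t, P T v k s) - (∫ s in ((0 : ℝ) - 1)..0, P T v k s) = _
    rw [← integral_add_adjacent_intervals (P_int T v k (t - 1) 0) (P_int T v k 0 t),
      ← integral_add_adjacent_intervals (P_int T v k (0 - 1) 0) (P_int T v k 0 (t - 1)),
      integral_symm (t - 1) 0]
    abel
  -- 4
  have h4 : (T ^ e) (P T v (k + 1) t - b) = G T t ((T ^ e) b) - (T ^ e) b := by
    rw [h3, ← ContinuousLinearMap.intervalIntegral_comp_comm]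
    · rw [intervalIntegral.integral_congr (fun s _ => h2 s)]
      have := integral_G_apply T ((T ^ e) b) 0 t
      rw [hTpow, G_zero] at this
      exact this
    · have i1 : IntervalIntegrable (fun s => P T v k (s - 1)) volume 0 t := by
        have := (P_int T v k (0 - 1) (t - 1)).comp_sub_right 1
        simpa using this
      exact (P_int T v k _ _).sub i1
  rw [map_sub] at h4
  exact sub_left_injective h4

/-- one variable -/
theorem one_var (hT : IsNilpotent T) (C : Set (E × ℝ)) (hC : Convex ℝ C)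
    (hv : ∀ m : ℤ, G T (m : ℝ) v ∈ C) : ∃ y : E × ℝ, ∀ t, G T t y ∈ C := by
  obtain ⟨n, hn⟩ := hT
  have hn1 : T ^ (n + 1) = 0 := by rw [pow_succ, hn, zero_mul]
  have key : ∀ k ≤ n, ∀ s, (T ^ (n - k)) (P T v k s) = G T s ((T ^ (n - k)) (P T v k 0)) := by
    intro k
    induction k with
    | zero =>
      intro _ s
      rw [Nat.sub_zero, hn]
      simp
    | succ k ih =>
      intro hk s
      have e1 : n - k = (n - (k + 1)) + 1 := by omega
      have := ih (by omega)
      rw [e1] at this
      exact step T v _ k this s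
  refine ⟨P T v n 0, fun t => ?_⟩
  have := key n le_rfl t
  rw [Nat.sub_self, pow_zero] at this
  have h2 : P T v n t = G T t (P T v n 0) := this
  rw [← h2]
  exact P_mem T v C hC hv n t

section several

variable {k : ℕ} (T : Fin k → Alg E)

/-- the generator with coordinates `s` -/
noncomputable def S (s : Fin k → ℝ) : Alg E := ∑ i, s i • T i

omit [FiniteDimensional ℝ E] in
theorem S_add (s s' : Fin k → ℝ) : S T (s + s') = S T s + S T s' := by
  unfold S
  rw [← Finset.sum_add_distrib]
  apply Finset.sum_congr rfl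
  intro i _
  rw [Pi.add_apply, add_smul]

omit [FiniteDimensional ℝ E] in
theorem S_single (j : Fin k) (t : ℝ) : S T (Pi.single j t) = t • T j := by
  unfold S
  rw [Finset.sum_eq_single j]
  · rw [Pi.single_eq_same]
  · intro i _ hi
    rw [Pi.single_eq_of_ne hi, zero_smul]
  · intro h; exact absurd (Finset.mem_univ _) h

omit [FiniteDimensional ℝ E] in
theorem S_commute (hcomm : ∀ i i', Commute (T i) (T i')) (s s' : Fin k → ℝ) :
    Commute (S T s) (S T s') := by
  unfold S
  apply Commute.sum_left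
  intro i _
  apply Commute.sum_right
  intro j _
  exact ((hcomm i j).smul_left _).smul_right _

theorem act_add (hcomm : ∀ i i', Commute (T i) (T i')) (hT : ∀ i v, (T i v).2 = 0)
    (s s' : Fin k → ℝ) (x : E) : act (NormedSpace.exp (S T (s + s'))) x =
      act (NormedSpace.exp (S T s)) (act (NormedSpace.exp (S T s')) x) := by
  have h : IsAff (NormedSpace.exp (S T s')) := isAff_exp (isGen_sum hT s')
  rw [S_add, NormedSpace.exp_add_of_commute (S_commute T hcomm s s'), act_mul h]

/-- points whose orbit stays in `X` when the first `j` coordinates are real, the others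
integral -/
def XX (X : Set E) (j : ℕ) : Set E :=
  {y | ∀ s : Fin k → ℝ, (∀ i : Fin k, j ≤ (i : ℕ) → ∃ m : ℤ, s i = m) →
    act (NormedSpace.exp (S T s)) y ∈ X}

omit [FiniteDimensional ℝ E] in
theorem XX_convex (X : Set E) (hX : Convex ℝ X) (j : ℕ) : Convex ℝ (XX T X j) := by
  intro x hx y hy a b ha hb hab s hs
  rw [act_convex x y a b hab]
  exact hX (hx s hs) (hy s hs) ha hb hab

theorem XX_nonempty (X : Set E) (hX : Convex ℝ X) (hne : X.Nonempty)
    (hcomm : ∀ i i', Commute (T i) (T i')) (hnil : ∀ i, IsNilpotent (T i))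
    (hT : ∀ i v, (T i v).2 = 0)
    (hinv : ∀ m : Fin k → ℤ, ∀ x ∈ X, act (NormedSpace.exp (∑ i, (m i : ℝ) • T i)) x ∈ X)
    (j : ℕ) (hj : j ≤ k) : (XX T X j).Nonempty := by
  induction j with
  | zero =>
    obtain ⟨x, hx⟩ := hne
    refine ⟨x, ?_⟩
    intro s hs
    have h1 : ∀ i, ∃ m : ℤ, s i = m := fun i => hs i (Nat.zero_le _)
    choose m hm using h1
    have h2 : S T s = ∑ i, (m i : ℝ) • T i := by
      unfold S
      exact Finset.sum_congr rfl (fun i _ => by rw [hm])
    rw [h2]
    exact hinv m x hx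
  | succ j ih =>
    obtain ⟨x, hx⟩ := ih (by omega)
    let j' : Fin k := ⟨j, by omega⟩
    let C : Set (E × ℝ) := {p | p.1 ∈ XX T X j ∧ p.2 = 1}
    have hC : Convex ℝ C := by
      intro p hp q hq a b ha hb hab
      refine ⟨XX_convex T X hX j hp.1 hq.1 ha hb hab, ?_⟩
      change a * p.2 + b * q.2 = 1
      rw [hp.2, hq.2, mul_one, mul_one, hab]
    have haff : ∀ t, IsAff (G (T j') t) := by
      intro t
      exact isAff_exp (IsGen.smul (fun v => hT j' v) t)
    have hv : ∀ m : ℤ, G (T j') (m : ℝ) (x, 1) ∈ C := by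
      intro m
      refine ⟨?_, haff _ _⟩
      intro s hs
      have h1 : (G (T j') (m : ℝ) (x, 1)).1 = act (NormedSpace.exp (S T (Pi.single j' (m : ℝ)))) x := by
        rw [S_single]; rfl
      rw [h1, ← act_add T hcomm hT]
      apply hx
      intro i hi
      obtain ⟨n, hn⟩ := hs i hi
      by_cases hij : i = j'
      · subst hij
        exact ⟨n + m, by rw [Pi.add_apply, Pi.single_eq_same, hn]; push_cast; rfl⟩
      · exact ⟨n, by rw [Pi.add_apply, Pi.single_eq_of_ne hij, hn, add_zero]⟩
    obtain ⟨y, hy⟩ := one_var (T j') (x, 1) (hnil j') C hC hv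
    have hy0 : y = (y.1, 1) := by
      have := hy 0
      rw [G_zero] at this
      ext
      · rfl
      · exact this.2
    refine ⟨y.1, ?_⟩
    intro s hs
    have h1 : s = (fun i => if i = j' then 0 else s i) + Pi.single j' (s j') := by
      funext i
      rw [Pi.add_apply]
      by_cases hij : i = j'
      · subst hij
        rw [Pi.single_eq_same, if_pos rfl, zero_add]
      · rw [Pi.single_eq_of_ne hij, if_neg hij, add_zero]
    rw [h1, act_add T hcomm hT]
    have h2 : act (NormedSpace.exp (S T (Pi.single j' (s j')))) y.1 ∈ XX T X j := by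
      rw [S_single]
      have h3 := (hy (s j')).1
      rw [hy0] at h3
      exact h3
    apply h2
    intro i hi
    by_cases hij : i = j'
    · exact ⟨0, by rw [if_pos hij]; simp⟩
    · have hi2 : j + 1 ≤ (i : ℕ) := by
        have : (i : ℕ) ≠ j := fun h => hij (Fin.ext h)
        omega
      obtain ⟨m, hm⟩ := hs i hi2
      exact ⟨m, by rw [if_neg hij, hm]⟩

end several

end Spline

section Geometry

variable {E : Type*} [NormedAddCommGroup E] [NormedSpace ℝ E] [FiniteDimensional ℝ E]

theorem exists_spline_point (X : Set E) (hX : Convex ℝ X) (hne : X.Nonempty) (k : ℕ)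
    (T : Fin k → Alg E) (hcomm : ∀ i i', Commute (T i) (T i')) (hnil : ∀ i, IsNilpotent (T i))
    (hT : ∀ i v, (T i v).2 = 0)
    (hinv : ∀ m : Fin k → ℤ, ∀ x ∈ X, act (NormedSpace.exp (∑ i, (m i : ℝ) • T i)) x ∈ X) :
    ∃ y, ∀ s : Fin k → ℝ, act (NormedSpace.exp (∑ i, s i • T i)) y ∈ X := by
  obtain ⟨y, hy⟩ := Spline.XX_nonempty T X hX hne hcomm hnil hT hinv k le_rfl
  refine ⟨y, fun s => ?_⟩
  exact hy s (fun i hi => absurd i.2 (by omega))

end Geometry

end Pool.SV
end
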