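import Pool.Agent.Helper16.LD.SV.Stmt
import Pool.Agent.Helper16.LD.AG.Defs
import Pool.Agent.Helper16.LD.AS.Defs
import Pool.Agent.Helper16.CPG.G03
import Pool.Agent.Helper16.CPG.G06
import Pool.Agent.Helper16.CPG.G07

/- Helper16.LDA.H84.SV.Final -/
section
open Set Finset

set_option linter.unusedSectionVars false

namespace Pool.SV

/-- A nontrivial torsion free normal subgroup that is virtually solvable contains a nontrivial
solvable subgroup that is normal in the whole group. -/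
theorem exists_solvable_normal {G : Type*} [Group G] (N S : Subgroup G) [hNn : N.Normal]
    (hfin : S.relIndex N ≠ 0) (hS : Group.IsSolvable S)
    (htf : ∀ g : G, ∀ m : ℕ, 0 < m → g ^ m = 1 → g = 1) (hN : N ≠ ⊥) :
    ∃ R : Subgroup G, R.Normal ∧ R ≠ ⊥ ∧ Group.IsSolvable R := by
  have hMpos : 0 < (S.relIndex N).factorial := Nat.factorial_pos _
  set M := (S.relIndex N).factorial with hM
  have hdvd : ∀ m, 0 < m → m ≤ S.relIndex N → m ∣ M := fun m h0 h1 => Nat.dvd_factorial h0 h1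
  refine ⟨Subgroup.closure {y | ∃ x ∈ N, x ^ M = y}, ?_, ?_, ?_⟩
  · constructor
    intro n hn g
    induction hn using Subgroup.closure_induction with
    | mem y hy =>
      obtain ⟨x, hx, rfl⟩ := hy
      apply Subgroup.subset_closure
      exact ⟨g * x * g⁻¹, hNn.conj_mem x hx g, by rw [conj_pow]⟩
    | one =>
      rw [mul_one, mul_inv_cancel]
      exact Subgroup.one_mem _
    | mul x y _ _ hx hy =>
      have : g * (x * y) * g⁻¹ = (g * x * g⁻¹) * (g * y * g⁻¹) := by group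
      rw [this]
      exact Subgroup.mul_mem _ hx hy
    | inv x _ hx =>
      have : g * x⁻¹ * g⁻¹ = (g * x * g⁻¹)⁻¹ := by group
      rw [this]
      exact Subgroup.inv_mem _ hx
  · obtain ⟨a, ha⟩ := Subgroup.ne_bot_iff_exists_ne_one.mp hN
    intro h
    have h1 : (a : G) ^ M ∈ Subgroup.closure {y | ∃ x ∈ N, x ^ M = y} :=
      Subgroup.subset_closure ⟨a, a.2, rfl⟩
    rw [h, Subgroup.mem_bot] at h1
    exact ha (Subtype.ext (htf a M hMpos h1))
  · have hle : Subgroup.closure {y | ∃ x ∈ N, x ^ M = y} ≤ S := by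
      rw [Subgroup.closure_le]
      rintro y ⟨x, hx, rfl⟩
      exact (Subgroup.pow_mem_of_relIndex_ne_zero_of_dvd hfin hx hdvd).1
    exact Group.isSolvable_of_isSolvable_injective (Subgroup.inclusion_injective hle)

/-- Closed convex affine manifolds whose fundamental group has a nontrivial virtually solvable
normal subgroup: every cycle of top degree has zero seminorm. -/
theorem main (n : ℕ)
    (Γ : Subgroup (EuclideanSpace ℝ (Fin (n + 1)) ≃ᵃ[ℝ] EuclideanSpace ℝ (Fin (n + 1))))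
    (X : Set (EuclideanSpace ℝ (Fin (n + 1))))
    (hopen : IsOpen X) (hconv : Convex ℝ X) (hne : X.Nonempty)
    (hinv : ∀ g ∈ Γ, ∀ x ∈ X, g x ∈ X)
    (hfree : ∀ g ∈ Γ, ∀ x ∈ X, g x = x → g = 1)
    (hpd : ∀ K ⊆ X, IsCompact K → {g | g ∈ Γ ∧ ∃ x ∈ K, g x ∈ K}.Finite)
    (hcc : ∃ K ⊆ X, IsCompact K ∧ ∀ x ∈ X, ∃ g ∈ Γ, g x ∈ K)
    (N S : Subgroup (EuclideanSpace ℝ (Fin (n + 1)) ≃ᵃ[ℝ] EuclideanSpace ℝ (Fin (n + 1))))
    (hNΓ : N ≤ Γ) (hNn : ∀ g ∈ Γ, ∀ a ∈ N, g * a * g⁻¹ ∈ N) (hN : N ≠ ⊥)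
    (hSfin : S.relIndex N ≠ 0) (hS : Group.IsSolvable S)
    (M : Type*) [TopologicalSpace M] (π : X → M) (hπ : Topology.IsQuotientMap π)
    (hfib : ∀ x y : X, π x = π y ↔ ∃ g ∈ Γ, g (x : EuclideanSpace ℝ (Fin (n + 1))) = y)
    (z : Chain M (n + 1)) (hz : bd M n z = 0) (ε : ℝ) (hε : 0 < ε) :
    ∃ b : Chain M (n + 2), nrm (z + bd M (n + 1) b) < ε := by
  let D : Geo (EuclideanSpace ℝ (Fin (n + 1))) :=
    { Γ := Γ
      X := X
      isOpen := hopen
      convex := hconv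
      nonempty := hne
      inv := hinv
      free := hfree
      pd := fun K hK hc => hpd K hK hc }
  have hrank : Module.finrank ℝ (EuclideanSpace ℝ (Fin (n + 1))) = n + 1 := by
    simp
  have htf : ∀ g : D.Γ, ∀ m : ℕ, 0 < m → g ^ m = 1 → g = 1 := by
    intro g m hm h
    apply Subtype.ext
    apply eq_one_of_pow D g.1 g.2 m hm
    exact congrArg Subtype.val h
  have hNn' : (N.subgroupOf D.Γ).Normal := by
    constructor
    intro a ha g
    rw [Subgroup.mem_subgroupOf] at ha ⊢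
    exact hNn g.1 g.2 a.1 ha
  have hN' : N.subgroupOf D.Γ ≠ ⊥ := by
    obtain ⟨a, ha⟩ := Subgroup.ne_bot_iff_exists_ne_one.mp hN
    intro h
    have h1 : (⟨a.1, hNΓ a.2⟩ : D.Γ) ∈ N.subgroupOf D.Γ := by
      rw [Subgroup.mem_subgroupOf]
      exact a.2
    rw [h, Subgroup.mem_bot] at h1
    exact ha (Subtype.ext (congrArg (fun w : D.Γ => w.1) h1))
  have hSfin' : (S.subgroupOf D.Γ).relIndex (N.subgroupOf D.Γ) ≠ 0 := by
    rw [Subgroup.relIndex_subgroupOf hNΓ]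
    exact hSfin
  have hS' : Group.IsSolvable (S.subgroupOf D.Γ) := by
    let f : S.subgroupOf D.Γ →* S :=
      { toFun := fun x => ⟨x.1.1, x.2⟩
        map_one' := rfl
        map_mul' := fun _ _ => rfl }
    have hf : Function.Injective f := by
      intro x y hxy
      apply Subtype.ext
      apply Subtype.ext
      exact congrArg (fun w : S => w.1) hxy
    exact Group.isSolvable_of_isSolvable_injective hf
  obtain ⟨R, hRn, hR1, hRs⟩ := exists_solvable_normal (N.subgroupOf D.Γ) (S.subgroupOf D.Γ)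
    hSfin' hS' htf hN'
  have hV : Vanish D := vanish_of_solvable D (by rw [hrank]; omega) R hR1 hcc
  refine of_vanish D hV M π hπ ?_ n hrank z hz ε hε
  intro x y
  rw [hfib]
  constructor
  · rintro ⟨g, hg, h⟩
    exact ⟨⟨g, hg⟩, Subtype.ext h⟩
  · rintro ⟨g, h⟩
    exact ⟨g.1, g.2, congrArg Subtype.val h⟩

/-- Quotients of sharp convex cones by discrete groups of linear maps. -/
theorem main_cone (n : ℕ)
    (Γ : Subgroup (EuclideanSpace ℝ (Fin (n + 1)) ≃ᵃ[ℝ] EuclideanSpace ℝ (Fin (n + 1))))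
    (C : Set (EuclideanSpace ℝ (Fin (n + 1))))
    (hopen : IsOpen C) (hconv : Convex ℝ C) (hne : C.Nonempty)
    (hcone : ∀ t : ℝ, 0 < t → ∀ x ∈ C, t • x ∈ C)
    (hsharp : ∀ v : EuclideanSpace ℝ (Fin (n + 1)), v ≠ 0 → ∃ x ∈ C, ∃ t : ℝ, x + t • v ∉ C)
    (hlin : ∀ g ∈ Γ, g 0 = 0)
    (hinv : ∀ g ∈ Γ, ∀ x ∈ C, g x ∈ C)
    (hfree : ∀ g ∈ Γ, ∀ x ∈ C, g x = x → g = 1)
    (hpd : ∀ K ⊆ C, IsCompact K → {g | g ∈ Γ ∧ ∃ x ∈ K, g x ∈ K}.Finite)
    (hcc : ∃ K ⊆ C, IsCompact K ∧ ∀ x ∈ C, ∃ g ∈ Γ, g x ∈ K)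
    (M : Type*) [TopologicalSpace M] (π : C → M) (hπ : Topology.IsQuotientMap π)
    (hfib : ∀ x y : C, π x = π y ↔ ∃ g ∈ Γ, g (x : EuclideanSpace ℝ (Fin (n + 1))) = y)
    (z : Chain M (n + 1)) (hz : bd M n z = 0) (ε : ℝ) (hε : 0 < ε) :
    ∃ b : Chain M (n + 2), nrm (z + bd M (n + 1) b) < ε := by
  let D : Geo (EuclideanSpace ℝ (Fin (n + 1))) :=
    { Γ := Γ
      X := C
      isOpen := hopen
      convex := hconv
      nonempty := hne
      inv := hinv
      free := hfree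
      pd := fun K hK hc => hpd K hK hc }
  obtain ⟨w, hwΓ, hw1, hwc⟩ := cone_center D hcone hsharp hlin hcc (by simp)
  have hsolv : Group.IsSolvable (Subgroup.zpowers w) :=
    Group.isSolvable_of_comm (by
      rintro ⟨_, m, rfl⟩ ⟨_, m', rfl⟩
      exact Subtype.ext (zpow_mul_comm w m m'))
  refine main n Γ C hopen hconv hne hinv hfree hpd hcc (Subgroup.zpowers w) (Subgroup.zpowers w)
    (by rw [Subgroup.zpowers_le]; exact hwΓ) ?_ ?_ (by rw [Subgroup.relIndex_self]; exact one_ne_zero)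
    hsolv M π hπ hfib z hz ε hε
  · rintro g hg _ ⟨m, rfl⟩
    have hc : Commute g w := hwc g hg
    refine ⟨m, ?_⟩
    change w ^ m = g * w ^ m * g⁻¹
    rw [(hc.zpow_right m).eq, mul_inv_cancel_right]
  · rw [Ne, Subgroup.zpowers_eq_bot]
    exact hw1

end Pool.SV
end

/- Helper16.LDA.H84.SV.Stmt -/
section

end

/- Helper16.LDA.SV.Flag -/
section
open Set Finset

set_option linter.unusedSectionVars false

namespace Pool.SV

/-! ## K-5 FLAG (uses step, disc_of_geo, eq_one_of_pow) -/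

namespace Flag

variable {E : Type*} [NormedAddCommGroup E] [NormedSpace ℝ E] [FiniteDimensional ℝ E]

theorem continuous_seminorm (p : Seminorm ℝ E) : Continuous p :=
  (p.convexOn.locallyLipschitz).continuous

/-- A seminorm which is positive on the fixed vectors of `f` bounds the norm there. -/
theorem exists_bound (f : Alg E) (p : Seminorm ℝ E)
    (h : ∀ v, f v = v → p v.1 = 0 → v = 0) :
    ∃ C : ℝ, 0 ≤ C ∧ ∀ v, f v = v → ‖v‖ ≤ C * p v.1 := by
  have hpc : Continuous (fun v : E × ℝ => p v.1) := (continuous_seminorm p).comp continuous_fst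
  have hcomp : IsCompact {v : E × ℝ | f v = v ∧ ‖v‖ = 1} := by
    have h1 : {v : E × ℝ | f v = v ∧ ‖v‖ = 1} = {v | f v = v} ∩ Metric.sphere (0 : E × ℝ) 1 := by
      ext v
      simp
    rw [h1]
    exact (isCompact_sphere (0 : E × ℝ) 1).inter_left (isClosed_eq f.continuous continuous_id)
  by_cases hne : {v : E × ℝ | f v = v ∧ ‖v‖ = 1}.Nonempty
  · obtain ⟨w, ⟨hw, hw1⟩, hmin⟩ := hcomp.exists_isMinOn hne hpc.continuousOn
    have hpos : 0 < p w.1 := by
      rcases (apply_nonneg p w.1).lt_or_eq with h1 | h1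
      · exact h1
      · have := h w hw h1.symm
        rw [this, norm_zero] at hw1
        exact absurd hw1 (by norm_num)
    refine ⟨(p w.1)⁻¹, by positivity, fun v hv => ?_⟩
    by_cases hv0 : v = 0
    · rw [hv0, norm_zero]
      have := apply_nonneg p (0 : E × ℝ).1
      positivity
    · have hn : 0 < ‖v‖ := norm_pos_iff.mpr hv0
      have h1 : f (‖v‖⁻¹ • v) = ‖v‖⁻¹ • v := by rw [map_smul, hv]
      have h2 : ‖‖v‖⁻¹ • v‖ = 1 := by
        rw [norm_smul, norm_inv, norm_norm, inv_mul_cancel₀ hn.ne']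
      have h3 : p w.1 ≤ p (‖v‖⁻¹ • v).1 := hmin ⟨h1, h2⟩
      have h4 : p (‖v‖⁻¹ • v).1 = ‖v‖⁻¹ * p v.1 := by
        rw [Prod.smul_fst, map_smul_eq_mul, norm_inv, norm_norm]
      rw [h4] at h3
      have h5 : p w.1 * ‖v‖ ≤ p v.1 := by
        calc p w.1 * ‖v‖ ≤ (‖v‖⁻¹ * p v.1) * ‖v‖ := by gcongr
          _ = p v.1 := by (clear * - hv0; field_simp)
      rw [inv_mul_eq_div, le_div_iff₀ hpos]
      (clear * - h5; linarith only [h5])
  · refine ⟨0, le_rfl, fun v hv => ?_⟩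
    by_cases hv0 : v = 0
    · rw [hv0, norm_zero, zero_mul]
    · exfalso
      apply hne
      have hn : 0 < ‖v‖ := norm_pos_iff.mpr hv0
      refine ⟨‖v‖⁻¹ • v, by rw [map_smul, hv], ?_⟩
      rw [norm_smul, norm_inv, norm_norm, inv_mul_cancel₀ hn.ne']

/-- Enlarging an idempotent. -/
theorem exists_idem (e : Alg E) (he : e * e = e) (W : Submodule ℝ (E × ℝ))
    (hW : ∀ v, e v ∈ W) : ∃ e' : Alg E, e' * e' = e' ∧ e * e' = e ∧ e' * e = e ∧
      ∀ v, e' v = v ↔ v ∈ W := by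
  obtain ⟨q₀, hq₀⟩ := W.subtype.exists_leftInverse_of_injective W.ker_subtype
  set q : Alg E := LinearMap.toContinuousLinearMap (W.subtype ∘ₗ q₀) with hq
  have hqW : ∀ v, q v ∈ W := fun v => (q₀ v).2
  have hqf : ∀ v ∈ W, q v = v := by
    intro v hv
    have h1 : q₀ (W.subtype ⟨v, hv⟩) = ⟨v, hv⟩ := by
      rw [← LinearMap.comp_apply, hq₀]
      rfl
    exact congrArg Subtype.val h1
  have hqe : q * e = e := by
    apply ContinuousLinearMap.ext
    intro v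
    exact hqf _ (hW v)
  have hqq : q * q = q := by
    apply ContinuousLinearMap.ext
    intro v
    exact hqf _ (hqW v)
  have h01 : (1 - e) * (1 - e) = 1 - e := by
    rw [mul_sub, mul_one, sub_mul, one_mul, he, sub_self, sub_zero]
  have h02 : e * (1 - e) = 0 := by rw [mul_sub, mul_one, he, sub_self]
  have h03 : (1 - e) * e = 0 := by rw [sub_mul, one_mul, he, sub_self]
  have hmid : q * (1 - e) * q = (1 - e) * q := by
    rw [mul_sub, mul_one, sub_mul, hqq, hqe, sub_mul, one_mul]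
  have hff : ((1 - e) * q * (1 - e)) * ((1 - e) * q * (1 - e)) = (1 - e) * q * (1 - e) := by
    calc ((1 - e) * q * (1 - e)) * ((1 - e) * q * (1 - e))
        = (1 - e) * (q * ((1 - e) * (1 - e)) * q) * (1 - e) := by simp only [mul_assoc]
      _ = (1 - e) * (q * (1 - e) * q) * (1 - e) := congrArg
          (fun T : Alg E => (1 - e) * (q * T * q) * (1 - e)) h01
      _ = (1 - e) * ((1 - e) * q) * (1 - e) := by rw [hmid]
      _ = (1 - e) * q * (1 - e) := by rw [← mul_assoc (1 - e) (1 - e) q, h01]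
  refine ⟨e + (1 - e) * q * (1 - e), ?_, ?_, ?_, ?_⟩
  · rw [mul_add, add_mul, add_mul, he, hff]
    have h1 : (1 - e) * q * (1 - e) * e = 0 := by rw [mul_assoc, h03, mul_zero]
    have h2 : e * ((1 - e) * q * (1 - e)) = 0 := by
      rw [← mul_assoc, ← mul_assoc, h02, zero_mul, zero_mul]
    rw [h1, h2, add_zero, zero_add]
  · have h2 : e * ((1 - e) * q * (1 - e)) = 0 := by
      rw [← mul_assoc, ← mul_assoc, h02, zero_mul, zero_mul]
    rw [mul_add, he, h2, add_zero]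
  · have h1 : (1 - e) * q * (1 - e) * e = 0 := by rw [mul_assoc, h03, mul_zero]
    rw [add_mul, he, h1, add_zero]
  · intro v
    have h1 : (e + (1 - e) * q * (1 - e)) v = e v + (q (v - e v) - e (q (v - e v))) := rfl
    constructor
    · intro h
      rw [← h, h1]
      exact W.add_mem (hW _) (W.sub_mem (hqW _) (hW _))
    · intro h
      have h2 : q (v - e v) = v - e v := hqf _ (W.sub_mem h (hW _))
      have h3 : e (e v) = e v := congrArg (fun T : Alg E => T v) he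
      rw [h1, h2, map_sub, h3, sub_self, sub_zero]
      abel

theorem invariant (D : Geo E) (r : ℕ) (F : ℕ → Submodule ℝ E) (h0 : F 0 = ⊥)
    (hF : ∀ i < r, F i ≤ F (i + 1) ∧ ∃ p : Seminorm ℝ E, (∀ v ∈ F (i + 1), p v = 0 ↔ v ∈ F i) ∧
      ∀ g ∈ D.Γ, ∃ c : ℝ, ∀ v ∈ F (i + 1), g.linear v ∈ F (i + 1) ∧ p (g.linear v) = c * p v)
    (i : ℕ) (hi : i ≤ r) (g : E ≃ᵃ[ℝ] E) (hg : g ∈ D.Γ) (v : E) (hv : v ∈ F i) :
    g.linear v ∈ F i := by
  cases i with
  | zero =>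
    rw [h0, Submodule.mem_bot] at hv ⊢
    rw [hv, map_zero]
  | succ i =>
    obtain ⟨_, p, _, h2⟩ := hF i (by omega)
    obtain ⟨c, hc⟩ := h2 g hg
    exact (hc v hv).1

/-- The idempotent `e` is invariant. -/
theorem hinv_of_range (D : Geo E) (G : Submodule ℝ E) (e : Alg E) (he : e * e = e)
    (hr : ∀ v : E × ℝ, e v = v ↔ v.2 = 0 ∧ v.1 ∈ G)
    (hG : ∀ g ∈ D.Γ, ∀ v ∈ G, g.linear v ∈ G) (g : D.Γ) :
    (1 - e) * hatHom D.Γ g * e = 0 := by
  apply ContinuousLinearMap.ext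
  intro v
  have h1 : e (e v) = e v := congrArg (fun T : Alg E => T v) he
  have h2 := (hr (e v)).mp h1
  have h3 : e (hat g.1 (e v)) = hat g.1 (e v) := by
    rw [hr, hat_apply]
    refine ⟨h2.1, ?_⟩
    change g.1.linear (e v).1 + (e v).2 • g.1 0 ∈ G
    rw [h2.1, zero_smul, add_zero]
    exact hG g.1 g.2 _ h2.2
  change hat g.1 (e v) - e (hat g.1 (e v)) = 0
  rw [h3, sub_self]

theorem flag_step (D : Geo E) (A B : Submodule ℝ E) (hAB : A ≤ B)
    (hA : ∀ g ∈ D.Γ, ∀ v ∈ A, g.linear v ∈ A)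
    (p : Seminorm ℝ E) (hp : ∀ v ∈ B, p v = 0 ↔ v ∈ A)
    (hc : ∀ g ∈ D.Γ, ∃ c : ℝ, ∀ v ∈ B, g.linear v ∈ B ∧ p (g.linear v) = c * p v)
    (e : Alg E) (he : e * e = e) (hr : ∀ v : E × ℝ, e v = v ↔ v.2 = 0 ∧ v.1 ∈ A)
    (hd : DiscMod (hatHom D.Γ) e) :
    HasAbNormal D.Γ ∨ ∃ e' : Alg E, e' * e' = e' ∧
      (∀ v : E × ℝ, e' v = v ↔ v.2 = 0 ∧ v.1 ∈ B) ∧ DiscMod (hatHom D.Γ) e' := by
  by_cases hBA : B ≤ A
  · have hEq : A = B := le_antisymm hAB hBA
    subst hEq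
    exact Or.inr ⟨e, he, hr, hd⟩
  obtain ⟨v₀, hv₀, hv₀'⟩ := Set.not_subset.mp hBA
  have hv₀ : v₀ ∈ B := hv₀
  have hv₀' : v₀ ∉ A := hv₀'
  have hpv₀ : 0 < p v₀ := by
    rcases (apply_nonneg p v₀).lt_or_eq with h1 | h1
    · exact h1
    · exact absurd ((hp v₀ hv₀).mp h1.symm) hv₀'
  -- the multipliers
  have hc' : ∀ g : D.Γ, ∃ c : ℝ, ∀ v ∈ B, g.1.linear v ∈ B ∧ p (g.1.linear v) = c * p v :=
    fun g => hc g.1 g.2
  choose c hcs using hc'
  have hcm : ∀ g h : D.Γ, c (g * h) = c g * c h := by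
    intro g h
    have h1 := (hcs (g * h) v₀ hv₀).2
    have h2 : (g * h : D.Γ).1.linear v₀ = g.1.linear (h.1.linear v₀) := rfl
    rw [h2, (hcs g _ (hcs h v₀ hv₀).1).2, (hcs h v₀ hv₀).2, ← mul_assoc] at h1
    exact (mul_right_cancel₀ hpv₀.ne' h1).symm
  have hc1 : c 1 = 1 := by
    have h1 := (hcs 1 v₀ hv₀).2
    have h2 : (1 : D.Γ).1.linear v₀ = v₀ := rfl
    rw [h2] at h1
    nth_rewrite 1 [← one_mul (p v₀)] at h1
    exact (mul_right_cancel₀ hpv₀.ne' h1).symm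
  have hc0 : ∀ g : D.Γ, 0 < c g := by
    intro g
    have h1 := (hcs g v₀ hv₀).2
    have h2 : 0 ≤ c g := by
      have h3 : 0 ≤ c g * p v₀ := h1 ▸ apply_nonneg p _
      exact nonneg_of_mul_nonneg_left h3 hpv₀
    rcases h2.lt_or_eq with h3 | h3
    · exact h3
    · have h4 := hcm g g⁻¹
      rw [mul_inv_cancel, hc1, ← h3, zero_mul] at h4
      exact absurd h4 one_ne_zero
  -- the new idempotent
  have hrange : ∀ v, (e v).2 = 0 ∧ (e v).1 ∈ A := by
    intro v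
    have h1 : e (e v) = e v := congrArg (fun T : Alg E => T v) he
    exact (hr _).mp h1
  obtain ⟨e', he', h1, h2, hW⟩ := exists_idem e he (B.prod ⊥) (by
    intro v
    obtain ⟨h3, h4⟩ := hrange v
    exact ⟨hAB h4, h3⟩)
  have hr' : ∀ v : E × ℝ, e' v = v ↔ v.2 = 0 ∧ v.1 ∈ B := by
    intro v
    rw [hW, Submodule.mem_prod, Submodule.mem_bot, and_comm]
  have hrange' : ∀ v, (e' v).2 = 0 ∧ (e' v).1 ∈ B := by
    intro v
    have h1 : e' (e' v) = e' v := congrArg (fun T : Alg E => T v) he'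
    exact (hr' _).mp h1
  have hB : ∀ g ∈ D.Γ, ∀ v ∈ B, g.linear v ∈ B := by
    intro g hg v hv
    obtain ⟨c, hc⟩ := hc g hg
    exact (hc v hv).1
  -- the projection onto the new block
  have hfW : ∀ v : E × ℝ, v.2 = 0 → v.1 ∈ B → p ((e' - e) v).1 = p v.1 := by
    intro v hv2 hv1
    have h3 : e' v = v := (hr' v).mpr ⟨hv2, hv1⟩
    have h4 : ((e' - e) v).1 = v.1 - (e v).1 := by
      change (e' v).1 - (e v).1 = _
      rw [h3]
    have h5 : p (e v).1 = 0 := (hp _ (hAB (hrange v).2)).mpr (hrange v).2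
    rw [h4]
    apply le_antisymm
    · calc p (v.1 - (e v).1) ≤ p v.1 + p (e v).1 := map_sub_le_add p _ _
        _ = p v.1 := by rw [h5, add_zero]
    · calc p v.1 = p ((v.1 - (e v).1) + (e v).1) := by rw [sub_add_cancel]
        _ ≤ p (v.1 - (e v).1) + p (e v).1 := map_add_le_add p _ _
        _ = p (v.1 - (e v).1) := by rw [h5, add_zero]
  have hfB : ∀ v : E × ℝ, ((e' - e) v).2 = 0 ∧ ((e' - e) v).1 ∈ B := by
    intro v
    refine ⟨?_, ?_⟩
    · change (e' v).2 - (e v).2 = 0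
      rw [(hrange' v).1, (hrange v).1, sub_self]
    · exact B.sub_mem (hrange' v).2 (hAB (hrange v).2)
  have hef : e * (e' - e) = 0 := by rw [mul_sub, h1, he, sub_self]
  have hff : (e' - e) * (e' - e) = e' - e := by
    rw [sub_mul, hef, sub_zero, mul_sub, he', h2]
  obtain ⟨C₁, hC₁, hC₁'⟩ := exists_bound (e' - e) p (by
    intro v hv hpv
    have h3 := hfB v
    rw [hv] at h3
    have h4 : v.1 ∈ A := (hp _ h3.2).mp hpv
    have h5 : e v = v := (hr v).mpr ⟨h3.1, h4⟩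
    have h6 : e ((e' - e) v) = 0 := congrArg (fun T : Alg E => T v) hef
    rw [hv, h5] at h6
    exact h6)
  obtain ⟨C₂, hC₂, hC₂'⟩ := Seminorm.bound_of_continuous_normedSpace p (continuous_seminorm p)
  -- apply the step
  have hbound : ∀ g : D.Γ, ‖(e' - e) * hatHom D.Γ g * (e' - e)‖ ≤
      (C₁ * (C₂ * ‖e' - e‖)) * c g := by
    intro g
    have hcg := hc0 g
    refine ContinuousLinearMap.opNorm_le_bound _ (by (clear * - hC₁ hC₂ hcg; positivity)) fun z => ?_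
    set y : E × ℝ := (e' - e) z with hy
    have hyB := hfB z
    rw [← hy] at hyB
    have h3 : ((e' - e) * hatHom D.Γ g * (e' - e)) z = (e' - e) (hat g.1 y) := rfl
    rw [h3]
    have h4 : (e' - e) ((e' - e) (hat g.1 y)) = (e' - e) (hat g.1 y) :=
      congrArg (fun T : Alg E => T (hat g.1 y)) hff
    have h5 : (hat g.1 y).1 = g.1.linear y.1 := by
      change g.1.linear y.1 + y.2 • g.1 0 = _
      rw [hyB.1, zero_smul, add_zero]
    have h6 : p ((e' - e) (hat g.1 y)).1 = c g * p y.1 := by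
      rw [hfW (hat g.1 y) hyB.1 (by rw [h5]; exact hB g.1 g.2 _ hyB.2), h5,
        (hcs g y.1 hyB.2).2]
    calc ‖(e' - e) (hat g.1 y)‖ ≤ C₁ * p ((e' - e) (hat g.1 y)).1 := hC₁' _ h4
      _ = C₁ * (c g * p y.1) := by rw [h6]
      _ ≤ C₁ * (c g * (C₂ * ‖y.1‖)) := by
          gcongr
          exact hC₂' _
      _ ≤ C₁ * (c g * (C₂ * (‖e' - e‖ * ‖z‖))) := by
          gcongr
          calc ‖y.1‖ ≤ ‖y‖ := norm_fst_le y
            _ ≤ ‖e' - e‖ * ‖z‖ := (e' - e).le_opNorm z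
      _ = (C₁ * (C₂ * ‖e' - e‖)) * c g * ‖z‖ := by ring
  have htf : ∀ (g : D.Γ) (m : ℕ), 0 < m → g ^ m = 1 → g = 1 := by
    intro g m hm h
    apply Subtype.ext
    exact eq_one_of_pow D g.1 g.2 m hm (congrArg Subtype.val h)
  have : FiniteDimensional ℝ (Alg E) := ContinuousLinearMap.finiteDimensional
  rcases step (hatHom D.Γ) htf e e' he he' h1 h2 (hinv_of_range D A e he hr hA)
    (hinv_of_range D B e' he' hr' hB) c hcm hc0 _ hbound hd with h | h
  · exact Or.inl h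
  · exact Or.inr ⟨e', he', hr', h⟩

end Flag

section Geometry

variable {E : Type*} [NormedAddCommGroup E] [NormedSpace ℝ E] [FiniteDimensional ℝ E]

theorem flag_disc (D : Geo E) (h : SimFlag D.Γ D.X) :
    HasAbNormal D.Γ ∨ ∃ e : Alg E, e * e = e ∧
      (∀ v : E × ℝ, e v = v ↔ v.2 = 0 ∧ ∀ x ∈ D.X, ∀ t : ℝ, x + t • v.1 ∈ D.X) ∧
      DiscMod (hatHom D.Γ) e := by
  obtain ⟨r, F, h0, hr, hF⟩ := h
  have key : ∀ i ≤ r, HasAbNormal D.Γ ∨ ∃ e : Alg E, e * e = e ∧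
      (∀ v : E × ℝ, e v = v ↔ v.2 = 0 ∧ v.1 ∈ F i) ∧ DiscMod (hatHom D.Γ) e := by
    intro i
    induction i with
    | zero =>
      intro _
      refine Or.inr ⟨0, mul_zero _, fun v => ?_, disc_of_geo D⟩
      rw [h0, Submodule.mem_bot, zero_apply]
      constructor
      · intro h
        rw [← h]
        exact ⟨rfl, rfl⟩
      · rintro ⟨h1, h2⟩
        exact (Prod.ext h2 h1).symm
    | succ i ih =>
      intro hi
      rcases ih (by omega) with h | ⟨e, he, hre, hd⟩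
      · exact Or.inl h
      · obtain ⟨hle, p, hp, hc⟩ := hF i (by omega)
        exact Flag.flag_step D (F i) (F (i + 1)) hle
          (Flag.invariant D r F h0 hF i (by omega)) p hp hc e he hre hd
  rcases key r le_rfl with h | ⟨e, he, hre, hd⟩
  · exact Or.inl h
  · refine Or.inr ⟨e, he, fun v => ?_, hd⟩
    rw [hre, hr]

end Geometry

end Pool.SV
end

/- Helper16.LDA.H84.SV.FinalK -/
section
open Set Finset

set_option linter.unusedSectionVars false

namespace Pool.SV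

variable {E : Type*} [NormedAddCommGroup E] [NormedSpace ℝ E] [FiniteDimensional ℝ E]

theorem vanish_of_hasAbNormal (D : Geo E) (hpos : 0 < Module.finrank ℝ E)
    (h : HasAbNormal D.Γ)
    (hcc : ∃ K ⊆ D.X, IsCompact K ∧ ∀ x ∈ D.X, ∃ g ∈ D.Γ, g x ∈ K) : Vanish D := by
  obtain ⟨A, hA, hA1, hab⟩ := h
  have hs : Group.IsSolvable A := Group.isSolvable_of_comm (fun a b =>
    Subtype.ext (hab a.1 a.2 b.1 b.2))
  exact vanish_of_solvable D hpos A hA1 hcc

theorem vanish_of_simFlag (D : Geo E) (hpos : 0 < Module.finrank ℝ E)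
    (hcc : ∃ K ⊆ D.X, IsCompact K ∧ ∀ x ∈ D.X, ∃ g ∈ D.Γ, g x ∈ K)
    (hline : ∃ v : E, v ≠ 0 ∧ ∀ x ∈ D.X, ∀ t : ℝ, x + t • v ∈ D.X)
    (hflag : SimFlag D.Γ D.X) : Vanish D := by
  rcases flag_disc D hflag with h | ⟨e, he, hrange, hd⟩
  · exact vanish_of_hasAbNormal D hpos h hcc
  · exact absurd hd (not_discMod D hcc hline e he hrange)

/-- The statement with a subgroup of finite index. -/
theorem vanish_of_virtual_simFlag (D : Geo E) (hpos : 0 < Module.finrank ℝ E)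
    (hcc : ∃ K ⊆ D.X, IsCompact K ∧ ∀ x ∈ D.X, ∃ g ∈ D.Γ, g x ∈ K)
    (hline : ∃ v : E, v ≠ 0 ∧ ∀ x ∈ D.X, ∀ t : ℝ, x + t • v ∈ D.X)
    (Γ₁ : Subgroup (E ≃ᵃ[ℝ] E)) (hΓ₁ : Γ₁ ≤ D.Γ) (hfin : Γ₁.relIndex D.Γ ≠ 0)
    (hflag : SimFlag Γ₁ D.X) : Vanish D := by
  have heq : (geoSub D (Γ₁.subgroupOf D.Γ)).Γ = Γ₁ := by
    change (Γ₁.subgroupOf D.Γ).map D.Γ.subtype = Γ₁
    rw [Subgroup.map_subgroupOf_eq_of_le hΓ₁]
  have hfi : (Γ₁.subgroupOf D.Γ).FiniteIndex := ⟨hfin⟩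
  have hV : Vanish (geoSub D (Γ₁.subgroupOf D.Γ)) := by
    refine vanish_of_simFlag _ hpos (cocompact_geoSub D _ hcc) hline ?_
    rw [heq]
    exact hflag
  refine vanish_transfer D (geoSub D (Γ₁.subgroupOf D.Γ)) (Subgroup.map_subtype_le _) ?_
    subset_rfl hV
  rw [relIndex_geoSub]
  exact hfin

/-- If the lineality space has dimension at most one the flag exists. -/
theorem simFlag_of_finrank_le_one (Γ : Subgroup (E ≃ᵃ[ℝ] E)) (X : Set E)
    (hinv : ∀ g ∈ Γ, ∀ x ∈ X, g x ∈ X) (L : Submodule ℝ E)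
    (hL : ∀ v, v ∈ L ↔ ∀ x ∈ X, ∀ t : ℝ, x + t • v ∈ X) (h1 : Module.finrank ℝ L ≤ 1) :
    SimFlag Γ X := by
  obtain ⟨w, hw⟩ := finrank_le_one_iff.mp h1
  refine ⟨1, fun i => if i = 0 then ⊥ else L, by simp, by simpa using hL, ?_⟩
  intro i hi
  have h0 : i = 0 := by omega
  subst h0
  simp only [↓reduceIte, zero_add, one_ne_zero, bot_le, true_and]
  refine ⟨normSeminorm ℝ E, fun v _ => by simp, fun g hg => ?_⟩
  have hlin : ∀ v ∈ L, g.linear v ∈ L := by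
    intro v hv
    rw [hL] at hv ⊢
    intro x hx t
    have h2 := hinv g hg _ (hv (g⁻¹ x) (hinv g⁻¹ (Γ.inv_mem hg) x hx) t)
    rw [aff_eq' g, map_add, map_smul] at h2
    have h3 : x = g.linear (g⁻¹ x) + g 0 := by
      rw [← aff_eq']
      exact (g.apply_symm_apply x).symm
    nth_rewrite 1 [h3]
    convert h2 using 1
    abel
  obtain ⟨c, hc⟩ := hw ⟨g.linear w, hlin w w.2⟩
  refine ⟨|c|, fun v hv => ⟨hlin v hv, ?_⟩⟩
  obtain ⟨a, ha⟩ := hw ⟨v, hv⟩
  have ha' : v = a • (w : E) := (congrArg Subtype.val ha).symm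
  have hc' : g.linear (w : E) = c • (w : E) := (congrArg Subtype.val hc).symm
  simp only [coe_normSeminorm]
  rw [ha', map_smul, hc', norm_smul, norm_smul, norm_smul, Real.norm_eq_abs, Real.norm_eq_abs]
  ring

end Pool.SV
end

/- Helper16.LDA.H94.AF.Defs -/
section
/-!
# Project AF: flags of the lineality space with quotients of cone type or of quadratic type

Definitions.
-/

open Set Finset

namespace Pool.AF

open Pool.SV

/-! ### The flag (definitions used in the final statement) -/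

section Flag

variable {E : Type*} [NormedAddCommGroup E] [NormedSpace ℝ E]

/-- `Γ` acts on `B / A` through a group preserving a linear space `L` of quadratic forms on `B / A`
with `dim L ≤ dim (B / A) + k` that contains a positive definite form. -/
def QuadType (Γ : Subgroup (E ≃ᵃ[ℝ] E)) (A B : Submodule ℝ E) (k : ℕ) : Prop :=
  ∃ L : Submodule ℝ (QuadraticForm ℝ B),
    Module.finrank ℝ L + Module.finrank ℝ A ≤ Module.finrank ℝ B + k ∧
    (∀ q ∈ L, ∀ a b : B, (a : E) ∈ A → q (b + a) = q b) ∧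
    (∃ q ∈ L, ∀ b : B, (b : E) ∉ A → 0 < q b) ∧
    ∀ g ∈ Γ, ∀ q ∈ L, ∃ q' ∈ L, ∀ b b' : B, (b' : E) = g.linear (b : E) → q' b = q b'

/-- `Γ` preserves an open convex cone of `B / A` that contains no line; `C` is its preimage. -/
def ConeType (Γ : Subgroup (E ≃ᵃ[ℝ] E)) (A B : Submodule ℝ E) : Prop :=
  ∃ C U : Set E, IsOpen U ∧ C = U ∩ (B : Set E) ∧ C.Nonempty ∧ Convex ℝ C ∧
    (∀ x ∈ C, ∀ t : ℝ, 0 < t → t • x ∈ C) ∧
    (∀ v ∈ B, v ∈ A ↔ ∀ x ∈ C, ∀ t : ℝ, x + t • v ∈ C) ∧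
    ∀ g ∈ Γ, ∀ x ∈ C, g.linear x ∈ C

/-- `Γ` preserves a flag of the lineality space of `X` whose quotients are of quadratic type or
of cone type; if `X` is the whole space one of them is of cone type or of quadratic type with
`dim L ≤ dim (B / A)`. -/
def ConeFlag (Γ : Subgroup (E ≃ᵃ[ℝ] E)) (X : Set E) : Prop :=
  ∃ (r : ℕ) (F : ℕ → Submodule ℝ E), F 0 = ⊥ ∧
    (∀ v, v ∈ F r ↔ ∀ x ∈ X, ∀ t : ℝ, x + t • v ∈ X) ∧
    (∀ i < r, F i < F (i + 1) ∧ (∀ g ∈ Γ, ∀ v ∈ F (i + 1), g.linear v ∈ F (i + 1)) ∧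
      (QuadType Γ (F i) (F (i + 1)) 1 ∨ ConeType Γ (F i) (F (i + 1)))) ∧
    (X = Set.univ → ∃ i < r, QuadType Γ (F i) (F (i + 1)) 0 ∨ ConeType Γ (F i) (F (i + 1)))

end Flag

/-! ### Partitions -/

/-- An equivariant map to the probability measures on the group: first order differentiable on `K`
with derivative bounded by `C`, small by `ε` in some direction. -/
def GoodPart {E : Type*} [NormedAddCommGroup E] [NormedSpace ℝ E] (D : Geo E) (K : Set E)
    (C ε : ℝ) : Prop :=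
  ∃ (P : E → D.Γ → ℝ) (P' : E → D.Γ → (E →ₗ[ℝ] ℝ)) (C' : ℝ),
    (∀ x ∈ D.X, (∀ γ, 0 ≤ P x γ) ∧ HasSum (P x) 1) ∧
    (∀ g : D.Γ, ∀ x ∈ D.X, ∀ γ, P (g.1 x) (g * γ) = P x γ) ∧
    (∀ x ∈ K, ∀ S : Finset D.Γ, ∀ u, ∑ γ ∈ S, |P' x γ u| ≤ C * ‖u‖) ∧
    (∀ x ∈ K, ∃ u, ‖u‖ = 1 ∧ ∀ S : Finset D.Γ, ∑ γ ∈ S, |P' x γ u| ≤ ε) ∧
    (∀ x ∈ K, ∀ y ∈ K, ∀ S : Finset D.Γ,
      ∑ γ ∈ S, |P y γ - P x γ - P' x γ (y - x)| ≤ C' * ‖y - x‖ ^ 2)

/-! ### Kernels -/

section Kernel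

variable {ι G : Type*} [Fintype ι]

/-- The product kernel. -/
noncomputable def kern (N : ℕ) (a : ι → G → ℝ) (g : G) : ℝ := ∏ i, (a i g)⁻¹ ^ N

/-- The normalised kernel. -/
noncomputable def PP (N : ℕ) (a : ι → G → ℝ) (g : G) : ℝ := kern N a g / ∑' h, kern N a h

/-- The logarithmic derivative of the kernel at `a` in the direction `b`. -/
noncomputable def ld (N : ℕ) (a b : ι → G → ℝ) (g : G) : ℝ := -(N : ℝ) * ∑ i, b i g / a i g

/-- The derivative of the normalised kernel at `a` in the direction `b`. -/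
noncomputable def dP (N : ℕ) (a b : ι → G → ℝ) (g : G) : ℝ :=
  PP N a g * (ld N a b g - ∑' h, PP N a h * ld N a b h)

end Kernel

/-! ### Blocks -/

/-- A linear representation of `G` with an invariant open convex cone `C` and a linear functional
`ξ` that is positive on `C`. -/
structure Blk (G : Type*) [Group G] where
  /-- the dimension -/
  d : ℕ
  /-- the representation -/
  ρ : G →* ((Fin d → ℝ) →ₗ[ℝ] (Fin d → ℝ))
  /-- the cone -/
  C : Set (Fin d → ℝ)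
  /-- the functional -/
  ξ : (Fin d → ℝ) →ₗ[ℝ] ℝ
  isOpen : IsOpen C
  convex : Convex ℝ C
  nonempty : C.Nonempty
  smul_mem : ∀ v ∈ C, ∀ t : ℝ, 0 < t → t • v ∈ C
  inv : ∀ g, ∀ v ∈ C, ρ g v ∈ C
  pos : ∀ v ∈ C, 0 < ξ v

/-- The functional of the group element `g`. -/
def Blk.ev {G : Type*} [Group G] (B : Blk G) (g : G) (v : Fin B.d → ℝ) : ℝ := B.ξ (B.ρ g⁻¹ v)

/-- `T` grows at most polynomially in `s`. -/
def Grow {G R : Type*} [Group G] [NormedRing R] (T : G → R) (s : G → ℝ) (b : ℕ) : Prop :=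
  ∃ A : ℝ, 0 < A ∧ ∀ g, A⁻¹ ≤ s g ∧ ‖T g‖ ≤ A * s g ^ b ∧ ‖T g⁻¹‖ ≤ A * s g ^ b

/-- The representation is discrete. -/
def Disc {G R : Type*} [Group G] [NormedRing R] (τ : G → R) : Prop :=
  ∀ C : ℝ, {g : G | ‖τ g‖ ≤ C ∧ ‖τ g⁻¹‖ ≤ C}.Finite

/-- The block of `g` cut out by the idempotent `f`, divided by `c g`. -/
noncomputable def cut {G R : Type*} [Group G] [NormedRing R] [NormedAlgebra ℝ R] (φ : G →* R)
    (f : R) (c : G → ℝ) (g : G) : R := (c g)⁻¹ • (f * φ g * f)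

/-- A positive multiplicative function. -/
def PosMul {G : Type*} [Group G] (c : G → ℝ) : Prop :=
  (∀ g, 0 < c g) ∧ ∀ g h, c (g * h) = c g * c h

/-! ### The convex domain -/

section Domain

variable {E : Type*} [NormedAddCommGroup E] [NormedSpace ℝ E]

/-- The recession cone. -/
def Rec (X : Set E) : Set E := {u | ∀ x ∈ X, ∀ t : ℝ, 0 ≤ t → x + t • u ∈ X}

/-- The lineality space. -/
def Lin (X : Set E) : Set E := {v | ∀ x ∈ X, ∀ t : ℝ, x + t • v ∈ X}

/-- The points of the recession cone that are interior in its linear span. -/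
def RecInt (X : Set E) : Set E :=
  {u | ∃ δ : ℝ, 0 < δ ∧ ∀ w ∈ Submodule.span ℝ (Rec X), ‖w‖ ≤ δ → u + w ∈ Rec X}

end Domain

/-! ### Families of kernels -/

/-- The hypothesis of the criterion `goodPart_of_family` for the step `δ`: a finite sequence of
points `a l x` of the index space `ι → Γ → ℝ` of positive functions, depending equivariantly on
`x`. -/
def FamHyp {E : Type*} [NormedAddCommGroup E] [NormedSpace ℝ E] (D : Geo E) (K : Set E)
    (ι : Type) [Fintype ι] (N : ℕ) (C δ : ℝ) : Prop :=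
  ∃ (Ln : ℕ) (a : ℕ → E → ι → D.Γ → ℝ) (a' : ℕ → E → ι → D.Γ → (E →ₗ[ℝ] ℝ)) (C' : ℝ),
    1 ≤ δ ^ 2 * (Ln : ℝ) ∧
    (∀ l, ∀ x ∈ D.X, (∀ i g, 0 < a l x i g) ∧ Summable (kern N (a l x))) ∧
    (∀ l, ∀ h : D.Γ, ∀ x ∈ D.X, ∀ i, ∃ c : ℝ, 0 < c ∧
      ∀ g, a l (h.1 x) i (h * g) = c * a l x i g) ∧
    (∀ l < Ln, ∀ x ∈ K, ∀ u, ∀ i g, |a' l x i g u| ≤ C * ‖u‖ * a l x i g) ∧
    (∀ l < Ln, ∀ x ∈ K, ∀ y ∈ K, ∀ i g, |a l y i g - a l x i g| ≤ C' * ‖y - x‖ * a l x i g ∧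
      |a l y i g - a l x i g - a' l x i g (y - x)| ≤ C' * ‖y - x‖ ^ 2 * a l x i g) ∧
    (∀ x ∈ K, ∃ u, ‖u‖ = 1 ∧ ∃ (lam : ι → ℝ) (μ : ℝ) (y w : ℕ → ι → D.Γ → ℝ) (s : ℕ → ℝ),
      |μ| ≤ C ∧
      (∀ l < Ln, 0 ≤ s l ∧ ∀ i g, a' l x i g u = lam i * a l x i g + w l i g + μ * y l i g ∧
        a (l + 1) x i g = a l x i g + δ * y l i g ∧ |y l i g| ≤ a l x i g ∧
        |w l i g| ≤ s l * a l x i g) ∧
      ∑ l ∈ Finset.range Ln, s l ≤ C * δ * (Ln : ℝ))

end Pool.AF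
end

/- Helper16.LDA.H94.AG.Defs -/
section

end

/- Helper16.LDA.H94.AS.Defs -/
section

end

/- Helper16.LDA.H94.AF.Seq -/
section
open Set Finset

set_option linter.unusedSectionVars false

namespace Pool.AF

open Pool.SV

/-! ## AF-2 SEQ: the sequence of subdivided cycles (cf. the proof of `pair_eq_zero_of_small`) -/

theorem exists_subdiv_seq {E : Type*} [NormedAddCommGroup E] [NormedSpace ℝ E] (D : Geo E)
    (n : ℕ) (K : Set E) (hKc : Convex ℝ K) (w : L D.X) (hw : Cyc D.Γ w)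
    (hlen : ∀ l ∈ w.support, l.length = n + 1)
    (hwK : ∀ l ∈ w.support, ∀ x ∈ l, (x : E) ∈ K) :
    ∃ V : ℝ, 0 ≤ V ∧ ∀ k : ℕ, ∃ w' : L D.X, Cyc D.Γ w' ∧
      (∀ β : List D.X → ℝ, Inv D.Γ β → cob β = 0 → pair β w' = pair β w) ∧
      nr w' ≤ nr w * (2 ^ n) ^ k ∧
      ∀ l ∈ w'.support, l.length = n + 1 ∧ (∀ x ∈ l, (x : E) ∈ K) ∧
        tv (l.map (fun x : D.X => (x : E))) ≤ V / 2 ^ k := by
  classical
  obtain ⟨S, h0, h1, hd, heq, hcount, hsupp⟩ := exists_subdivision (mid D) (mid_self D)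
    (fun x : D.X => (x : E)) (mid_coe D)
  have heq' : ∀ (g : D.Γ) (l : List D.X),
      S (l.map (fun b => g • b)) = (S l).mapDomain (List.map (fun b => g • b)) := by
    intro g l
    exact heq (fun b => g • b) (fun x y => smul_mid D g x y) l
  have hV : ∀ l ∈ w.support, tv (l.map (fun x : D.X => (x : E))) ≤
      ∑ l ∈ w.support, tv (l.map (fun x : D.X => (x : E))) := fun l hl =>
    Finset.single_le_sum (f := fun l : List D.X => tv (l.map (fun x : D.X => (x : E))))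
      (fun i _ => tv_nonneg _) hl
  refine ⟨∑ l ∈ w.support, tv (l.map (fun x : D.X => (x : E))),
    Finset.sum_nonneg fun i _ => tv_nonneg _, fun k => ?_⟩
  induction k with
  | zero =>
    exact ⟨w, hw, fun β _ _ => rfl, by simp, fun l hl => ⟨hlen l hl, hwK l hl,
      by simpa using hV l hl⟩⟩
  | succ k ih =>
    obtain ⟨w', hw', hpair, hnr, hs⟩ := ih
    have hcyc : Cyc D.Γ (lin S w') :=
      (pair_lin_of_natural D.Γ S h0 h1 hd heq' (fun _ => (0 : ℝ)) (fun _ _ => rfl)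
        (by
          funext l
          change pair (fun _ => (0 : ℝ)) (dl l) = 0
          rw [pair_eq_sum]
          simp [Finsupp.sum]) w' hw').1
    refine ⟨lin S w', hcyc, fun β hβ hc => ?_, ?_, ?_⟩
    · exact (pair_lin_of_natural D.Γ S h0 h1 hd heq' β hβ hc w' hw').2.trans (hpair β hβ hc)
    · have h3 : nr (lin S w') ≤ nr w' * 2 ^ n := by
        apply nr_lin_le
        intro l hl
        have := hcount l
        rwa [(hs l hl).1, Nat.add_sub_cancel] at this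
      calc nr (lin S w') ≤ nr w' * 2 ^ n := h3
        _ ≤ (nr w * (2 ^ n) ^ k) * 2 ^ n := mul_le_mul_of_nonneg_right hnr (by positivity)
        _ = nr w * (2 ^ n) ^ (k + 1) := by rw [pow_succ]; ring
    · intro l' hl'
      obtain ⟨l, hl, hl2⟩ := mem_support_lin S w' l' hl'
      obtain ⟨a1, a2, a3⟩ := hs l hl
      obtain ⟨b1, b2, b3⟩ := hsupp l l' hl2
      refine ⟨b1.trans a1, ?_, ?_⟩
      · intro y hy
        obtain ⟨a, ha, b, hb, rfl⟩ := b2 y hy
        rw [mid_coe, smul_add]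
        exact hKc (a2 a ha) (a2 b hb) (by norm_num) (by norm_num) (by norm_num)
      · calc tv (l'.map (fun x : D.X => (x : E))) ≤ tv (l.map (fun x : D.X => (x : E))) / 2 := b3
          _ ≤ ((∑ l ∈ w.support, tv (l.map (fun x : D.X => (x : E)))) / 2 ^ k) / 2 := by linarith only [a3]
          _ = (∑ l ∈ w.support, tv (l.map (fun x : D.X => (x : E)))) / 2 ^ (k + 1) := by
              rw [pow_succ]; ring

end Pool.AF
end

/- Helper16.LDA.H94.AF.Grow -/
section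
open Set Finset

set_option linter.unusedSectionVars false

namespace Pool.AF

/-! ## AF-19 GROW: elementary facts on growth -/

/-- `T` grows at most like `A * s ^ b`. -/
private def GrowWith {G R : Type*} [Group G] [NormedRing R] (T : G → R) (s : G → ℝ) (b : ℕ)
    (A : ℝ) : Prop :=
  0 < A ∧ ∀ g, A⁻¹ ≤ s g ∧ ‖T g‖ ≤ A * s g ^ b ∧ ‖T g⁻¹‖ ≤ A * s g ^ b

private lemma GrowWith.le {G R : Type*} [Group G] [NormedRing R] {T : G → R} {s : G → ℝ} {b : ℕ}
    {A A' : ℝ} (h : GrowWith T s b A) (hA : A ≤ A') : GrowWith T s b A' := by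
  obtain ⟨h0, h1⟩ := h
  refine ⟨h0.trans_le hA, fun g => ?_⟩
  obtain ⟨h2, h3, h4⟩ := h1 g
  have hs : 0 ≤ s g := (inv_pos.2 h0).le.trans h2
  exact ⟨(inv_anti₀ h0 hA).trans h2, h3.trans (by gcongr), h4.trans (by (clear * - hA hs; gcongr))⟩

private lemma pow_bound {A s : ℝ} (hA : 0 < A) (hs : A⁻¹ ≤ s) {b b' : ℕ} (hb : b ≤ b') :
    s ^ b ≤ A ^ (b' - b) * s ^ b' := by
  have hs0 : 0 < s := (inv_pos.2 hA).trans_le hs
  have h1 : 1 ≤ A * s := by
    calc (1 : ℝ) = A * A⁻¹ := (mul_inv_cancel₀ hA.ne').symm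
      _ ≤ A * s := by (clear * - hs hA; gcongr)
  have h2 : 1 ≤ (A * s) ^ (b' - b) := one_le_pow₀ h1
  calc s ^ b = 1 * s ^ b := (one_mul _).symm
    _ ≤ (A * s) ^ (b' - b) * s ^ b := by (clear * - h2 hs0; gcongr)
    _ = A ^ (b' - b) * (s ^ (b' - b) * s ^ b) := by rw [mul_pow]; ring
    _ = A ^ (b' - b) * s ^ b' := by rw [← pow_add, Nat.sub_add_cancel hb]

theorem Grow.mono {G R : Type*} [Group G] [NormedRing R] {T : G → R} {s : G → ℝ} {b b' : ℕ}
    (h : Grow T s b) (hb : b ≤ b') : Grow T s b' := by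
  obtain ⟨A, h0, h1⟩ := h
  have h5 : 0 < A * A ^ (b' - b) := by positivity
  have hle : A ≤ A + A * A ^ (b' - b) := by (clear * - h5; linarith only [h5])
  refine ⟨A + A * A ^ (b' - b), by positivity, fun g => ?_⟩
  obtain ⟨h2, h3, h4⟩ := h1 g
  have hs : 0 < s g := (inv_pos.2 h0).trans_le h2
  have key : A * s g ^ b ≤ (A + A * A ^ (b' - b)) * s g ^ b' := by
    calc A * s g ^ b ≤ A * (A ^ (b' - b) * s g ^ b') := by
          gcongr
          exact pow_bound h0 h2 hb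
      _ = (A * A ^ (b' - b)) * s g ^ b' := by ring
      _ ≤ (A + A * A ^ (b' - b)) * s g ^ b' := by
          gcongr
          (clear * - h0; linarith only [h0])
  exact ⟨(inv_anti₀ h0 hle).trans h2, h3.trans key, h4.trans key⟩

/-- Growth of the whole representation from the growth of the blocks. -/
theorem grow_sum {G R : Type*} [Group G] [NormedRing R] (r : ℕ) (T : ℕ → G → R) (T₀ : G → R)
    (s : Fin r → G → ℝ) (s₀ : G → ℝ) (b : ℕ)
    (hT : ∀ i : Fin r, Grow (T i) (s i) b) (hT₀ : Grow T₀ s₀ b) :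
    Grow (fun g => ∑ i ∈ Finset.range r, T i g + T₀ g) (fun g => s₀ g * ∏ i, s i g) b := by
  obtain ⟨A₀, hA₀⟩ := hT₀
  choose A hA using hT
  have hA0 : ∀ i, 0 < A i := fun i => (hA i).1
  set B : ℝ := A₀ + ∑ i, A i with hB
  have hsum : 0 ≤ ∑ i, A i := Finset.sum_nonneg fun i _ => (hA0 i).le
  have hBpos : 0 < B := by
    have := hA₀.1
    linarith only [hsum, this]
  have g₀ : GrowWith T₀ s₀ b B := GrowWith.le ⟨hA₀.1, hA₀.2⟩ (by (clear * - hsum; linarith))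
  have gi : ∀ i : Fin r, GrowWith (T i) (s i) b B := fun i =>
    GrowWith.le ⟨(hA i).1, (hA i).2⟩ (by
      have h1 : A i ≤ ∑ i, A i := Finset.single_le_sum (fun j _ => (hA0 j).le) (Finset.mem_univ i)
      have := hA₀.1
      linarith)
  have hBi : 0 < B⁻¹ := inv_pos.2 hBpos
  have s₀pos : ∀ g, 0 < s₀ g := fun g => hBi.trans_le (g₀.2 g).1
  have sipos : ∀ i g, 0 < s i g := fun i g => hBi.trans_le ((gi i).2 g).1
  have hprod : ∀ g, B⁻¹ ^ r ≤ ∏ i, s i g := by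
    intro g
    calc B⁻¹ ^ r = ∏ _i : Fin r, B⁻¹ := by rw [Finset.prod_const, Finset.card_univ,
          Fintype.card_fin]
      _ ≤ ∏ i, s i g := Finset.prod_le_prod (fun _ _ => hBi.le) fun i _ => ((gi i).2 g).1
  have hBr : B ^ r * B⁻¹ ^ r = 1 := by
    rw [← mul_pow, mul_inv_cancel₀ hBpos.ne', one_pow]
  -- each factor is at most `B ^ r` times the product
  have b₀ : ∀ g, s₀ g ≤ B ^ r * (s₀ g * ∏ i, s i g) := by
    intro g
    have h1 := s₀pos g
    calc s₀ g = (B ^ r * B⁻¹ ^ r) * s₀ g := by rw [hBr, one_mul]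
      _ = B ^ r * (s₀ g * B⁻¹ ^ r) := by ring
      _ ≤ B ^ r * (s₀ g * ∏ i, s i g) := by
          gcongr
          exact hprod g
  have bi : ∀ i g, s i g ≤ B ^ r * (s₀ g * ∏ j, s j g) := by
    intro i g
    have h1 := s₀pos g
    have h2 := sipos i g
    have h3 : B⁻¹ ^ (r - 1) ≤ ∏ j ∈ Finset.univ.erase i, s j g := by
      calc B⁻¹ ^ (r - 1) = ∏ _j ∈ Finset.univ.erase i, B⁻¹ := by
            rw [Finset.prod_const, Finset.card_erase_of_mem (Finset.mem_univ i),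
              Finset.card_univ, Fintype.card_fin]
        _ ≤ ∏ j ∈ Finset.univ.erase i, s j g :=
            Finset.prod_le_prod (fun _ _ => hBi.le) fun j _ => ((gi j).2 g).1
    have h4 : ∏ j, s j g = s i g * ∏ j ∈ Finset.univ.erase i, s j g :=
      (Finset.mul_prod_erase _ _ (Finset.mem_univ i)).symm
    have hr : r = (r - 1) + 1 := by
      have := i.pos
      omega
    have h5 : B⁻¹ ^ r = B⁻¹ * B⁻¹ ^ (r - 1) := by
      conv_lhs => rw [hr]
      rw [pow_succ]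
      ring
    calc s i g = (B ^ r * B⁻¹ ^ r) * s i g := by rw [hBr, one_mul]
      _ = B ^ r * (B⁻¹ * (s i g * B⁻¹ ^ (r - 1))) := by rw [h5]; ring
      _ ≤ B ^ r * (s₀ g * (s i g * ∏ j ∈ Finset.univ.erase i, s j g)) := by
          gcongr
          exact (g₀.2 g).1
      _ = B ^ r * (s₀ g * ∏ j, s j g) := by rw [h4]
  set M : ℝ := ((r : ℝ) + 1) * (B * (B ^ r) ^ b) with hM
  have hMpos : 0 < M := by (clear * - hBpos; positivity)
  have hC : 0 < B ^ (r + 1) := by positivity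
  have hle2 : B ^ (r + 1) ≤ M + B ^ (r + 1) := by (clear * - hMpos; linarith)
  refine ⟨M + B ^ (r + 1), by (clear * - hBpos; positivity), fun g => ?_⟩
  have hS : 0 < s₀ g * ∏ i, s i g :=
    mul_pos (s₀pos g) (Finset.prod_pos fun i _ => sipos i g)
  have term : ∀ x : ℝ, 0 ≤ x → x ≤ B ^ r * (s₀ g * ∏ i, s i g) →
      B * x ^ b ≤ (B * (B ^ r) ^ b) * (s₀ g * ∏ i, s i g) ^ b := by
    intro x hx0 hx
    calc B * x ^ b ≤ B * (B ^ r * (s₀ g * ∏ i, s i g)) ^ b := by (clear * - hx0 hx hBpos; gcongr)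
      _ = (B * (B ^ r) ^ b) * (s₀ g * ∏ i, s i g) ^ b := by rw [mul_pow]; ring
  have est : ∀ h : G, (∀ i : Fin r, ‖T i h‖ ≤ B * s i g ^ b) → ‖T₀ h‖ ≤ B * s₀ g ^ b →
      ‖∑ i ∈ Finset.range r, T i h + T₀ h‖ ≤ (M + B ^ (r + 1)) * (s₀ g * ∏ i, s i g) ^ b := by
    intro h h1 h2
    have e1 : ‖∑ i ∈ Finset.range r, T i h‖ ≤
        ∑ _i ∈ Finset.range r, (B * (B ^ r) ^ b) * (s₀ g * ∏ i, s i g) ^ b := by
      refine norm_sum_le_of_le _ fun i hi => ?_
      rw [Finset.mem_range] at hi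
      exact (h1 ⟨i, hi⟩).trans (term _ (sipos _ g).le (bi _ g))
    rw [Finset.sum_const, Finset.card_range, nsmul_eq_mul] at e1
    have e2 : ‖T₀ h‖ ≤ (B * (B ^ r) ^ b) * (s₀ g * ∏ i, s i g) ^ b :=
      h2.trans (term _ (s₀pos g).le (b₀ g))
    calc ‖∑ i ∈ Finset.range r, T i h + T₀ h‖ ≤ ‖∑ i ∈ Finset.range r, T i h‖ + ‖T₀ h‖ :=
          norm_add_le _ _
      _ ≤ (r : ℝ) * ((B * (B ^ r) ^ b) * (s₀ g * ∏ i, s i g) ^ b) +
          (B * (B ^ r) ^ b) * (s₀ g * ∏ i, s i g) ^ b := add_le_add e1 e2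
      _ = M * (s₀ g * ∏ i, s i g) ^ b := by rw [hM]; ring
      _ ≤ (M + B ^ (r + 1)) * (s₀ g * ∏ i, s i g) ^ b := by
          gcongr
          (clear * - hC; linarith)
  refine ⟨?_, ?_, ?_⟩
  · calc (M + B ^ (r + 1))⁻¹ ≤ (B ^ (r + 1))⁻¹ := inv_anti₀ hC hle2
      _ = B⁻¹ * B⁻¹ ^ r := by rw [pow_succ, mul_inv, inv_pow, mul_comm]
      _ ≤ s₀ g * ∏ i, s i g := by
          have := hprod g
          have h1 := (g₀.2 g).1
          have h2 := s₀pos g
          (clear * - h1 this hBpos h2; gcongr)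
  · exact est g (fun i => ((gi i).2 g).2.1) (g₀.2 g).2.1
  · exact est g⁻¹ (fun i => ((gi i).2 g).2.2) (g₀.2 g).2.2

end Pool.AF
end

/- Helper16.LDA.H94.AF.Stmt -/
section
open Set

namespace Pool.AF

open Pool.SV

/-- A subgroup of finite index of `Γ` preserves a flag of the lineality space of `X` with quotients
of cone type or of quadratic type. -/
def VirtuallyConeFlag {m : ℕ} (Γ : Subgroup (Aff m)) (X : Set (EuclideanSpace ℝ (Fin m))) : Prop :=
  ∃ Γ₁ : Subgroup (Aff m), Γ₁ ≤ Γ ∧ Γ₁.relIndex Γ ≠ 0 ∧ ConeFlag Γ₁ X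

end Pool.AF
end
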