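import Pool.Agent.Helper16.LD.AS.Stmt
import Pool.Agent.Helper16.LD.HP.Stmt
import Pool.Agent.Helper16.CPG.G02
import Pool.Agent.Helper16.CPG.G06
import Pool.Agent.Helper16.CPG.G08

/- Helper16.LDA.H47.HP.Ineq -/
section
/-! # Project HP: the main inequality -/

set_option autoImplicit false

open Set

namespace Pool.Agent.Helper47.HP

variable {E : Type*} [NormedAddCommGroup E] [NormedSpace ℝ E] [FiniteDimensional ℝ E] (P : Pot E)

/-- `φ (x₀ + v) - φ x₀ - p v`. -/
def Pot.psi (x₀ : E) (p : E →ₗ[ℝ] ℝ) (v : E) : ℝ := P.φ (x₀ + v) - P.φ x₀ - p v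

/-- The form `p₂` with `p = (1 - m) p₁ + m p₂`. -/
private noncomputable def ineq_p2 (p p₁ : E →ₗ[ℝ] ℝ) (m : ℝ) : E →ₗ[ℝ] ℝ :=
  m⁻¹ • (p - (1 - m) • p₁)

omit [FiniteDimensional ℝ E] in
private theorem ineq_p2_apply (p p₁ : E →ₗ[ℝ] ℝ) {m : ℝ} (hm : 0 < m) (v : E) :
    m * ineq_p2 p p₁ m v = p v - (1 - m) * p₁ v := by
  rw [ineq_p2, LinearMap.smul_apply, LinearMap.sub_apply, LinearMap.smul_apply, smul_eq_mul,
    smul_eq_mul, ← mul_assoc, mul_inv_cancel₀ hm.ne', one_mul]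

omit [FiniteDimensional ℝ E] in
private theorem ineq_supp (p p₁ : E →ₗ[ℝ] ℝ) (hp : P.Supp p) {m C : ℝ} (hm0 : 0 < m)
    (hm1 : m < 1) (hmC : (1 - m) * C < 1)
    (hC : ∀ e ∈ P.epi, e.2 - p₁ e.1 ≤ C * (e.2 - p e.1)) : P.Supp (ineq_p2 p p₁ m) := by
  intro e he
  have h0 := ineq_p2_apply p p₁ hm0 e.1
  have h1 := hC e he
  have h2 : 0 < 1 - m := by (clear * - hm1; linarith only [hm1])
  refine ⟨fun hne => ?_, fun hmem => ?_⟩
  · have h3 := (hp e he).1 hne
    have h4 : (1 - m) * (e.2 - p₁ e.1) ≤ (1 - m) * (C * (e.2 - p e.1)) :=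
      mul_le_mul_of_nonneg_left h1 h2.le
    have h5 : (1 - m) * C * (e.2 - p e.1) < 1 * (e.2 - p e.1) :=
      mul_lt_mul_of_pos_right hmC (by linarith)
    have h6 : m * ineq_p2 p p₁ m e.1 < m * e.2 := by
      rw [h0]
      linarith only [h4, h5]
    exact lt_of_mul_lt_mul_left h6 hm0.le
  · have h3 := (hp e he).2 hmem
    have h4 := hC (-e) hmem
    rw [Prod.fst_neg, Prod.snd_neg, map_neg, map_neg] at h4
    have h5 : e.2 - p₁ e.1 = 0 := by
      apply le_antisymm
      · rw [h3, sub_self, mul_zero] at h1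
        exact h1
      · rw [h3] at h4
        have h6 : C * (-e.2 - -e.2) = 0 := by ring
        rw [h6] at h4
        linarith
    have h7 : p₁ e.1 = e.2 := by linarith
    have h6 : m * ineq_p2 p p₁ m e.1 = m * e.2 := by
      rw [h0, h7, h3]
      ring
    exact mul_left_cancel₀ hm0.ne' h6

omit [FiniteDimensional ℝ E] in
private theorem ineq_mem {x v : E} (hx : x ∈ P.X) (hv : v ∈ P.V) : x + v ∈ P.X := by
  have h := (P.mem_V v).1 hv x hx 1
  rwa [one_smul] at h

theorem Pot.main_ineq (W : Submodule ℝ E) (hW : P.IsFlat W) {x₀ : E} (hx₀ : x₀ ∈ P.X)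
    (p : E →ₗ[ℝ] ℝ) (hp : P.Supp p) (g : E ≃ᵃ[ℝ] E) (a : E →ᵃ[ℝ] ℝ)
    (hg : ∀ x ∈ P.X, g x ∈ P.X) (hg' : ∀ x ∈ P.X, g⁻¹ x ∈ P.X)
    (ha : ∀ x ∈ P.X, P.φ (g x) = P.φ x + a x) {l : ℝ} (hl0 : 0 < l) (hl1 : l < 1)
    (hz : x₀ + l⁻¹ • (g⁻¹ x₀ - x₀) ∈ P.X) {m C : ℝ} (hm0 : 0 < m) (hm1 : m < 1)
    (hmC : (1 - m) * C < 1)
    (hC : ∀ e ∈ P.epi, e.2 + a.linear e.1 - p (g.linear e.1) ≤ C * (e.2 - p e.1)) :
    ∃ c : ℝ, ∀ w ∈ P.V, P.psi x₀ p (g.linear ((1 - l) • w)) ≤
      (1 - l) / (1 - m) * P.psi x₀ p w + c := by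
  obtain ⟨y, hy⟩ : ∃ y : E, y = g⁻¹ x₀ := ⟨_, rfl⟩
  obtain ⟨z, hzz⟩ : ∃ z : E, z = x₀ + l⁻¹ • (g⁻¹ x₀ - x₀) := ⟨_, rfl⟩
  have hyX : y ∈ P.X := hy ▸ hg' x₀ hx₀
  have hzX : z ∈ P.X := hzz ▸ hz
  have hgy : g y = x₀ := by
    rw [hy]
    exact g.apply_symm_apply x₀
  have hlz : l • z = l • x₀ + (y - x₀) := by
    rw [hzz, ← hy, smul_add, smul_smul, mul_inv_cancel₀ hl0.ne', one_smul]
  obtain ⟨p₁, hp₁⟩ : ∃ p₁ : E →ₗ[ℝ] ℝ, ∀ v, p₁ v = p (g.linear v) - a.linear v :=
    ⟨p ∘ₗ (g.linear : E →ₗ[ℝ] E) - a.linear, fun v => rfl⟩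
  have hsupp : P.Supp (ineq_p2 p p₁ m) := by
    refine ineq_supp P p p₁ hp hm0 hm1 hmC fun e he => ?_
    have h1 := hC e he
    rw [hp₁]
    linarith
  obtain ⟨c2, hc2⟩ := P.bdd_below W hW hx₀ _ hsupp
  have h1m : 0 < 1 - m := by linarith
  refine ⟨((1 - l) * P.φ x₀ + (1 - m) * (l * P.φ z - P.φ y) + m * (l * P.φ x₀ + c2)) / (1 - m),
    fun w hw => ?_⟩
  have hvV : (1 - l) • w ∈ P.V := P.V.smul_mem _ hw
  have e1 : g (y + (1 - l) • w) = x₀ + g.linear ((1 - l) • w) := by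
    have h1 := g.map_vadd y ((1 - l) • w)
    rw [vadd_eq_add, vadd_eq_add, hgy] at h1
    rw [add_comm y, h1, add_comm]
  have e2 : a (y + (1 - l) • w) = a y + a.linear ((1 - l) • w) := by
    have h1 := a.map_vadd y ((1 - l) • w)
    rw [vadd_eq_add, vadd_eq_add] at h1
    rw [add_comm y, h1, add_comm]
  have e3 := ha (y + (1 - l) • w) (ineq_mem P hyX hvV)
  have e4 := ha y hyX
  rw [hgy] at e4
  rw [e1, e2] at e3
  have e5 := P.conv.2 (ineq_mem P hx₀ hw) hzX (sub_nonneg.2 hl1.le) hl0.le (by ring)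
  have e6 : (1 - l) • (x₀ + w) + l • z = y + (1 - l) • w := by
    rw [hlz]
    module
  rw [e6, smul_eq_mul, smul_eq_mul] at e5
  have e7 := P.conv.2 (ineq_mem P hx₀ hw) hx₀ (sub_nonneg.2 hl1.le) hl0.le (by ring)
  have e8 : (1 - l) • (x₀ + w) + l • x₀ = x₀ + (1 - l) • w := by
    module
  rw [e8, smul_eq_mul, smul_eq_mul] at e7
  have e9 := hc2 _ hvV
  have e10 := ineq_p2_apply p p₁ hm0 ((1 - l) • w)
  have e11 := hp₁ ((1 - l) • w)
  have e12 : p ((1 - l) • w) = (1 - l) * p w := by rw [map_smul, smul_eq_mul]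
  have e13 : P.psi x₀ p (g.linear ((1 - l) • w)) =
      P.φ (y + (1 - l) • w) - P.φ y - p₁ ((1 - l) • w) := by
    rw [Pot.psi, e3, e11]
    rw [e4]
    ring
  have e14 : P.psi x₀ p w = P.φ (x₀ + w) - P.φ x₀ - p w := rfl
  rw [e13, e14]
  have e15 : (1 - l) / (1 - m) * (P.φ (x₀ + w) - P.φ x₀ - p w) +
      ((1 - l) * P.φ x₀ + (1 - m) * (l * P.φ z - P.φ y) + m * (l * P.φ x₀ + c2)) / (1 - m) =
      ((1 - l) * (P.φ (x₀ + w) - P.φ x₀ - p w) +
      ((1 - l) * P.φ x₀ + (1 - m) * (l * P.φ z - P.φ y) + m * (l * P.φ x₀ + c2))) / (1 - m) := by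
    (clear * - h1m; field_simp)
  rw [e15, le_div_iff₀ h1m]
  have e16 : (1 - m) * P.φ (y + (1 - l) • w) ≤ (1 - m) * ((1 - l) * P.φ (x₀ + w) + l * P.φ z) :=
    mul_le_mul_of_nonneg_left e5 h1m.le
  have e17 : m * P.φ (x₀ + (1 - l) • w) ≤ m * ((1 - l) * P.φ (x₀ + w) + l * P.φ x₀) :=
    mul_le_mul_of_nonneg_left e7 hm0.le
  have e18 : m * ineq_p2 p p₁ m ((1 - l) • w) ≤ m * (P.φ (x₀ + (1 - l) • w) + c2) :=
    mul_le_mul_of_nonneg_left e9 hm0.le
  rw [e10, e12] at e18
  linarith only [e16, e17, e18]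

end Pool.Agent.Helper47.HP
end

/- Helper16.LDA.H94.AS.Stmt -/
section

end

/- Helper16.LDA.H47.HP.Stmt -/
section

end

/- Helper16.LDA.H94.AF.AltEst -/
section
open Set Finset

set_option linter.unusedSectionVars false

namespace Pool.AF

open Pool.SV

/-! ## AF-1 ALT: the alternating estimate -/

namespace AltAux

/-- The `l¹` norm. -/
noncomputable def n1 {S : Type*} [Fintype S] (m : S → ℝ) : ℝ := ∑ s, |m s|

theorem n1_nonneg {S : Type*} [Fintype S] (m : S → ℝ) : 0 ≤ n1 m :=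
  Finset.sum_nonneg fun _ _ => abs_nonneg _

theorem n1_add {S : Type*} [Fintype S] (m m' : S → ℝ) : n1 (m + m') ≤ n1 m + n1 m' := by
  unfold n1
  rw [← Finset.sum_add_distrib]
  exact Finset.sum_le_sum fun s _ => abs_add_le _ _

/-- Change of all the arguments of an alternating form. -/
theorem tele {S : Type*} [Fintype S] {n : ℕ} (Ψ : (S → ℝ) [⋀^Fin n]→ₗ[ℝ] ℝ) {B : ℝ}
    (hB : 0 ≤ B) (hΨ : ∀ m : Fin n → S → ℝ, |Ψ m| ≤ B * ∏ i, n1 (m i)) (p q : Fin n → S → ℝ)
    {a d : ℝ} (hd : 0 ≤ d) (hp : ∀ i, n1 (p i) ≤ a) (hq : ∀ i, n1 (q i) ≤ a)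
    (hpq : ∀ i, n1 (p i - q i) ≤ d) :
    |Ψ p - Ψ q| ≤ n * (B * (d * a ^ (n - 1))) := by
  classical
  have key : ∀ s : Finset (Fin n),
      |Ψ p - Ψ (fun i => if i ∈ s then q i else p i)| ≤ s.card * (B * (d * a ^ (n - 1))) := by
    intro s
    induction s using Finset.induction_on with
    | empty => simp
    | insert i s hi ih =>
      set y : Fin n → S → ℝ := fun i => if i ∈ s then q i else p i with hy
      have e1 : (fun j => if j ∈ insert i s then q j else p j) = Function.update y i (q i) := by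
        funext j
        by_cases hj : j = i
        · subst hj
          simp
        · rw [Function.update_of_ne hj]
          simp [Finset.mem_insert, hj, hy]
      have e2 : y = Function.update y i (p i) := by
        symm
        rw [Function.update_eq_self_iff]
        simp [hi, hy]
      have e3 : Ψ y - Ψ (Function.update y i (q i)) = Ψ (Function.update y i (p i - q i)) := by
        rw [AlternatingMap.map_update_sub, ← e2]
      have e4 : |Ψ (Function.update y i (p i - q i))| ≤ B * (d * a ^ (n - 1)) := by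
        refine (hΨ _).trans (mul_le_mul_of_nonneg_left ?_ hB)
        rw [← Finset.mul_prod_erase Finset.univ _ (Finset.mem_univ i), Function.update_self]
        refine mul_le_mul (hpq i) ?_ (Finset.prod_nonneg fun j _ => n1_nonneg _) hd
        have h1 : ∏ j ∈ Finset.univ.erase i, n1 (Function.update y i (p i - q i) j) ≤
            ∏ j ∈ Finset.univ.erase i, a := by
          refine Finset.prod_le_prod (fun j _ => n1_nonneg _) fun j hj => ?_
          rw [Function.update_of_ne (Finset.ne_of_mem_erase hj)]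
          simp only [hy]
          split_ifs
          · exact hq j
          · exact hp j
        rw [Finset.prod_const, Finset.card_erase_of_mem (Finset.mem_univ i), Finset.card_univ,
          Fintype.card_fin] at h1
        exact h1
      rw [e1, Finset.card_insert_of_notMem hi]
      have e5 : Ψ p - Ψ (Function.update y i (q i)) =
          (Ψ p - Ψ y) + (Ψ y - Ψ (Function.update y i (q i))) := by ring
      rw [e5, e3]
      refine (abs_add_le _ _).trans ?_
      push_cast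
      rw [add_mul, one_mul]
      exact add_le_add ih e4
  have h := key Finset.univ
  simpa using h

end AltAux

open AltAux

/-- An alternating `(n+1)`-form on `n`-dimensional families: estimate of order `n` with a small
constant and of order `n + 1`. -/
theorem alt_est {E : Type*} [NormedAddCommGroup E] [NormedSpace ℝ E] [FiniteDimensional ℝ E]
    (n : ℕ) (hn : Module.finrank ℝ E = n) (hn0 : 0 < n) {S : Type*} [Fintype S]
    (Φ : (S → ℝ) [⋀^Fin (n + 1)]→ₗ[ℝ] ℝ) (B : ℝ) (hB : 0 ≤ B)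
    (hΦ : ∀ m : Fin (n + 1) → S → ℝ, |Φ m| ≤ B * ∏ i, ∑ s, |m i s|)
    (K : Set E) (R : ℝ) (hR : ∀ x ∈ K, ∀ y ∈ K, ‖y - x‖ ≤ R) (C ε C' : ℝ) (hC : 0 ≤ C)
    (hε : 0 ≤ ε) (hC' : 0 ≤ C') (P : E → S → ℝ) (P' : E → S → (E →ₗ[ℝ] ℝ))
    (h0 : ∀ x ∈ K, ∑ s, |P x s| ≤ 1)
    (h1 : ∀ x ∈ K, ∀ u, ∑ s, |P' x s u| ≤ C * ‖u‖)
    (h2 : ∀ x ∈ K, ∃ u, ‖u‖ = 1 ∧ ∑ s, |P' x s u| ≤ ε)
    (h3 : ∀ x ∈ K, ∀ y ∈ K, ∑ s, |P y s - P x s - P' x s (y - x)| ≤ C' * ‖y - x‖ ^ 2)
    (x : Fin (n + 1) → E) (hx : ∀ i, x i ∈ K) :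
    |Φ (fun i => P (x i))| ≤
      B * (n * 2 ^ n * ε * C ^ (n - 1)) * (tv (List.ofFn x)) ^ n +
      B * (2 ^ n * C' * (C + C' * R) ^ (n - 1)) * (tv (List.ofFn x)) ^ (n + 1) := by
  classical
  set t := tv (List.ofFn x) with ht
  have ht0 : 0 ≤ t := Rank.tv_nonneg _
  have hxK := hx 0
  have hR0 : 0 ≤ R := by
    have := hR _ hxK _ hxK
    rwa [sub_self, norm_zero] at this
  set h : Fin n → E := fun i => x i.succ - x 0 with hh
  have hht : ∀ i, ‖h i‖ ≤ t := by
    intro i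
    have e : List.ofFn x = x 0 :: List.ofFn (fun i : Fin n => x i.succ) := List.ofFn_succ
    rw [ht, e]
    exact Rank.norm_le_tv _ _ _ (List.mem_ofFn.2 ⟨i, rfl⟩)
  have hhR : ∀ i, ‖h i‖ ≤ R := fun i => hR _ hxK _ (hx _)
  -- the form in `n` variables
  set Ψ : (S → ℝ) [⋀^Fin n]→ₗ[ℝ] ℝ := Φ.curryLeft (P (x 0)) with hΨdef
  have hΨ : ∀ m : Fin n → S → ℝ, |Ψ m| ≤ B * ∏ i, n1 (m i) := by
    intro m
    have e : Ψ m = Φ (Matrix.vecCons (P (x 0)) m) := rfl
    rw [e]
    refine (hΦ _).trans (mul_le_mul_of_nonneg_left ?_ hB)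
    rw [Fin.prod_univ_succ]
    have e1 : ∏ i : Fin n, ∑ s, |Matrix.vecCons (P (x 0)) m i.succ s| = ∏ i, n1 (m i) := rfl
    rw [e1]
    have e2 : (∑ s, |Matrix.vecCons (P (x 0)) m 0 s|) ≤ 1 := h0 _ hxK
    exact mul_le_of_le_one_left (Finset.prod_nonneg fun i _ => n1_nonneg _) e2
  set L : E →ₗ[ℝ] (S → ℝ) := LinearMap.pi (fun s => P' (x 0) s) with hL
  have hL1 : ∀ u, n1 (L u) ≤ C * ‖u‖ := fun u => h1 _ hxK u
  set Q : Fin n → S → ℝ := fun i => P (x i.succ) - P (x 0) with hQ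
  have eΦ : Φ (fun i => P (x i)) = Ψ Q := by
    have e : (fun i => P (x i)) = Matrix.vecCons (P (x 0)) (fun i : Fin n => P (x i.succ)) := by
      funext i
      refine Fin.cases ?_ (fun j => ?_) i
      · rfl
      · rfl
    rw [e, Rank.alt_sub]
    rfl
  have hQL : ∀ i, n1 (Q i - L (h i)) ≤ C' * ‖h i‖ ^ 2 := fun i => h3 _ hxK _ (hx _)
  -- first comparison
  have hT := mul_nonneg hC' hR0
  have c1 := tele Ψ hB hΨ Q (fun i => L (h i)) (a := (C + C' * R) * t) (d := C' * t ^ 2)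
    (by (clear * - hC'; positivity)) (fun i => ?_) (fun i => ?_) (fun i => ?_)
  rotate_left
  · have e : Q i = (Q i - L (h i)) + L (h i) := by abel
    rw [e]
    refine (n1_add _ _).trans ?_
    have g1 := hQL i
    have g2 := hL1 (h i)
    have g3 : ‖h i‖ ^ 2 ≤ R * ‖h i‖ := by
      rw [sq]
      exact mul_le_mul_of_nonneg_right (hhR i) (norm_nonneg _)
    have g4 : C' * ‖h i‖ ^ 2 ≤ C' * (R * ‖h i‖) := mul_le_mul_of_nonneg_left g3 hC'
    have g5 : (C + C' * R) * ‖h i‖ ≤ (C + C' * R) * t :=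
      mul_le_mul_of_nonneg_left (hht i) (by (clear * - hC hC' hR0; positivity))
    linarith only [g1, g2, g4, g5]
  · have g2 := hL1 (h i)
    have g5 : C * ‖h i‖ ≤ C * t := mul_le_mul_of_nonneg_left (hht i) hC
    have g6 : 0 ≤ C' * R * t := by (clear * - hC' hR0 ht0; positivity)
    linarith only [g2, g5, g6]
  · refine (hQL i).trans (mul_le_mul_of_nonneg_left ?_ hC')
    exact pow_le_pow_left₀ (norm_nonneg _) (hht i) 2
  -- the direction
  obtain ⟨u, hu1, hu2⟩ := h2 _ hxK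
  have hu0 : u ≠ 0 := by
    rintro rfl
    rw [norm_zero] at hu1
    exact zero_ne_one hu1
  obtain ⟨f, hf1, hf2⟩ := exists_dual_vector ℝ u (norm_ne_zero_iff.2 hu0)
  rw [hu1] at hf2
  have hf2' : f u = 1 := by simpa using hf2
  set h' : Fin n → E := fun i => h i - f (h i) • u with hh'
  have hfh : ∀ i, |f (h i)| ≤ ‖h i‖ := by
    intro i
    have := f.le_opNorm (h i)
    rwa [hf1, one_mul, Real.norm_eq_abs] at this
  have hh'n : ∀ i, ‖h' i‖ ≤ 2 * t := by
    intro i
    refine (norm_sub_le _ _).trans ?_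
    rw [norm_smul, hu1, mul_one, Real.norm_eq_abs]
    have := hfh i
    have := hht i
    linarith
  have c2 := tele Ψ hB hΨ (fun i => L (h i)) (fun i => L (h' i)) (a := 2 * C * t) (d := t * ε)
    (by (clear * - ht0 hε; positivity)) (fun i => ?_) (fun i => ?_) (fun i => ?_)
  rotate_left
  · have g2 := hL1 (h i)
    have g5 : C * ‖h i‖ ≤ C * t := mul_le_mul_of_nonneg_left (hht i) hC
    have g6 : 0 ≤ C * t := by (clear * - hC ht0; positivity)
    (clear * - g2 g5 g6; linarith)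
  · have g2 := hL1 (h' i)
    have g5 : C * ‖h' i‖ ≤ C * (2 * t) := mul_le_mul_of_nonneg_left (hh'n i) hC
    (clear * - g2 g5; linarith)
  · have e : L (h i) - L (h' i) = f (h i) • L u := by
      rw [← map_sub, ← map_smul]
      congr 1
      simp only [hh']
      abel
    rw [e]
    have e2 : n1 (f (h i) • L u) = |f (h i)| * n1 (L u) := by
      unfold n1
      rw [Finset.mul_sum]
      refine Finset.sum_congr rfl fun s _ => ?_
      rw [Pi.smul_apply, smul_eq_mul, abs_mul]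
    rw [e2]
    exact mul_le_mul ((hfh i).trans (hht i)) hu2 (n1_nonneg _) ht0
  -- the last term vanishes
  have hz : Ψ (fun i => L (h' i)) = 0 := by
    apply AlternatingMap.map_linearDependent
    intro hli
    have hli2 : LinearIndependent ℝ h' := LinearIndependent.of_comp L hli
    have hmem : ∀ i, h' i ∈ LinearMap.ker (f : E →ₗ[ℝ] ℝ) := by
      intro i
      rw [LinearMap.mem_ker]
      show f (h i - f (h i) • u) = 0
      rw [map_sub, map_smul, hf2', smul_eq_mul, mul_one, sub_self]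
    have hli3 : LinearIndependent ℝ
        (fun i => (⟨h' i, hmem i⟩ : LinearMap.ker (f : E →ₗ[ℝ] ℝ))) := by
      apply LinearIndependent.of_comp (LinearMap.ker (f : E →ₗ[ℝ] ℝ)).subtype
      exact hli2
    have g1 := hli3.fintype_card_le_finrank
    rw [Fintype.card_fin] at g1
    have g2 := LinearMap.finrank_range_add_finrank_ker (f : E →ₗ[ℝ] ℝ)
    have g3 : 0 < Module.finrank ℝ (LinearMap.range (f : E →ₗ[ℝ] ℝ)) := by
      rw [Module.finrank_pos_iff_exists_ne_zero]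
      refine ⟨⟨1, ⟨u, hf2'⟩⟩, fun hc => ?_⟩
      have := congrArg Subtype.val hc
      exact one_ne_zero this
    omega
  rw [hz, sub_zero] at c2
  rw [eΦ]
  have e1 : Ψ Q = (Ψ Q - Ψ (fun i => L (h i))) + Ψ (fun i => L (h i)) := by ring
  rw [e1]
  refine (abs_add_le _ _).trans ?_
  have hn2 : (n : ℝ) ≤ 2 ^ n := by exact_mod_cast Nat.lt_two_pow_self.le
  obtain ⟨k, rfl⟩ : ∃ k, n = k + 1 := ⟨n - 1, by omega⟩
  rw [Nat.add_sub_cancel] at c1 c2 ⊢
  have a1 : ((k + 1 : ℕ) : ℝ) * (B * (C' * t ^ 2 * ((C + C' * R) * t) ^ k)) ≤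
      B * (2 ^ (k + 1) * C' * (C + C' * R) ^ k) * t ^ (k + 1 + 1) := by
    calc ((k + 1 : ℕ) : ℝ) * (B * (C' * t ^ 2 * ((C + C' * R) * t) ^ k)) =
        ((k + 1 : ℕ) : ℝ) * (B * (C' * (C + C' * R) ^ k) * t ^ (k + 1 + 1)) := by
          rw [mul_pow]; ring
      _ ≤ 2 ^ (k + 1) * (B * (C' * (C + C' * R) ^ k) * t ^ (k + 1 + 1)) :=
          mul_le_mul_of_nonneg_right hn2 (by (clear * - hB hC' hC hR0 ht0; positivity))
      _ = _ := by ring
  have a2 : ((k + 1 : ℕ) : ℝ) * (B * (t * ε * (2 * C * t) ^ k)) ≤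
      B * (((k + 1 : ℕ) : ℝ) * 2 ^ (k + 1) * ε * C ^ k) * t ^ (k + 1) := by
    calc ((k + 1 : ℕ) : ℝ) * (B * (t * ε * (2 * C * t) ^ k)) =
        1 * (((k + 1 : ℕ) : ℝ) * 2 ^ k * (B * ε * C ^ k * t ^ (k + 1))) := by
          rw [mul_pow, mul_pow]; ring
      _ ≤ 2 * (((k + 1 : ℕ) : ℝ) * 2 ^ k * (B * ε * C ^ k * t ^ (k + 1))) :=
          mul_le_mul_of_nonneg_right one_le_two (by (clear * - hB hε hC ht0; positivity))
      _ = _ := by ring
  linarith only [c1, c2, a1, a2]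

end Pool.AF
end

/- Helper16.LDA.H94.AF.PairLe -/
section
open Set Finset

set_option linter.unusedSectionVars false

namespace Pool.AF

open Pool.SV

/-! ## AF-3 PAIR: evaluation of a bounded cocycle through an equivariant map to the probability
measures on the group with infinite supports (truncate, and let the truncation tend to the
whole group) -/

namespace PairLe

/-- The truncation of a measure on the group. -/
noncomputable def trunc {X Γ : Type*} [Group Γ] (κ : X → Γ) (Q : X → Γ → ℝ) (T : Finset Γ)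
    (x : X) : Γ →₀ ℝ :=
  ∑ τ ∈ T, Finsupp.single (κ x * τ) (Q x (κ x * τ)) +
    Finsupp.single (κ x) (1 - ∑ τ ∈ T, Q x (κ x * τ))

theorem mass_eq {Γ : Type*} (p : Γ →₀ ℝ) :
    p.sum (fun _ c => c) = Finsupp.linearCombination ℝ (fun _ : Γ => (1 : ℝ)) p := by
  rw [Finsupp.linearCombination_apply]
  simp

theorem trunc_normalised {X Γ : Type*} [Group Γ] (κ : X → Γ) (Q : X → Γ → ℝ) (T : Finset Γ) :
    Normalised (trunc κ Q T) := by
  intro x
  rw [mass_eq]
  unfold trunc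
  rw [map_add, map_sum]
  simp only [Finsupp.linearCombination_single, smul_eq_mul, mul_one]
  ring

theorem trunc_equiv {X Γ : Type*} [Group Γ] [MulAction Γ X] (κ : X → Γ) (Q : X → Γ → ℝ)
    (T : Finset Γ) (hκ : ∀ (g : Γ) (x : X), κ (g • x) = g * κ x)
    (hQ : ∀ (g : Γ) (x : X) (γ : Γ), Q (g • x) (g * γ) = Q x γ) :
    Equiv' Γ (trunc κ Q T) := by
  intro g x
  unfold trunc
  rw [Finsupp.mapDomain_add, Finsupp.mapDomain_finsetSum, Finsupp.mapDomain_single]
  simp only [Finsupp.mapDomain_single, hκ, smul_eq_mul, mul_assoc, hQ]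

theorem trunc_apply {X Γ : Type*} [Group Γ] [DecidableEq Γ] (κ : X → Γ) (Q : X → Γ → ℝ)
    (T : Finset Γ) (x : X) (s : Γ) :
    trunc κ Q T x s = (if (κ x)⁻¹ * s ∈ T then Q x s else 0) +
      (if s = κ x then 1 - ∑ τ ∈ T, Q x (κ x * τ) else 0) := by
  unfold trunc
  rw [Finsupp.add_apply, Finsupp.finsetSum_apply]
  congr 1
  · have h1 : ∀ τ ∈ T, (Finsupp.single (κ x * τ) (Q x (κ x * τ))) s =
        if τ = (κ x)⁻¹ * s then Q x s else 0 := by
      intro τ _
      rw [Finsupp.single_apply]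
      by_cases h : τ = (κ x)⁻¹ * s
      · subst h
        simp
      · rw [if_neg h, if_neg]
        intro h2
        apply h
        rw [← h2]
        group
    rw [Finset.sum_congr rfl h1, Finset.sum_ite_eq']
  · rw [Finsupp.single_apply]
    by_cases h : s = κ x
    · rw [if_pos h, if_pos h.symm]
    · rw [if_neg h, if_neg (fun h2 => h h2.symm)]

/-- The remaining mass. -/
noncomputable def rem {X Γ : Type*} [Group Γ] (κ : X → Γ) (Q : X → Γ → ℝ) (T : Finset Γ)
    (x : X) : ℝ := 1 - ∑ τ ∈ T, Q x (κ x * τ)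

section

variable {X Γ : Type*} [Group Γ] (κ : X → Γ) (Q : X → Γ → ℝ) (T : Finset Γ)
  (hQ0 : ∀ x γ, 0 ≤ Q x γ) (hQ1 : ∀ x, HasSum (Q x) 1)

include hQ0 hQ1

theorem sum_image_le [DecidableEq Γ] (x : X) (S : Finset Γ) :
    ∑ s ∈ S, (if (κ x)⁻¹ * s ∈ T then 0 else Q x s) ≤ rem κ Q T x := by
  have h1 : ∑ τ ∈ T, Q x (κ x * τ) = ∑ s ∈ T.image (fun τ => κ x * τ), Q x s := by
    rw [Finset.sum_image]
    intro a _ b _ h
    exact mul_left_cancel h
  have h2 : ∑ s ∈ S, (if (κ x)⁻¹ * s ∈ T then 0 else Q x s) =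
      ∑ s ∈ S.filter (fun s => ¬ (κ x)⁻¹ * s ∈ T), Q x s := by
    rw [Finset.sum_filter]
    refine Finset.sum_congr rfl fun s _ => ?_
    by_cases h : (κ x)⁻¹ * s ∈ T
    · rw [if_pos h, if_neg (not_not.2 h)]
    · rw [if_neg h, if_pos h]
  have h3 : Disjoint (S.filter (fun s => ¬ (κ x)⁻¹ * s ∈ T)) (T.image (fun τ => κ x * τ)) := by
    rw [Finset.disjoint_left]
    intro s hs hs'
    obtain ⟨τ, hτ, rfl⟩ := Finset.mem_image.1 hs'
    apply (Finset.mem_filter.1 hs).2
    rwa [inv_mul_cancel_left]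
  have h4 := sum_le_hasSum (S.filter (fun s => ¬ (κ x)⁻¹ * s ∈ T) ∪ T.image (fun τ => κ x * τ))
    (fun i _ => hQ0 x i) (hQ1 x)
  rw [Finset.sum_union h3] at h4
  unfold rem
  rw [h1, h2]
  linarith

theorem rem_nonneg (x : X) : 0 ≤ rem κ Q T x := by
  classical
  have h := sum_image_le κ Q T hQ0 hQ1 x ∅
  simpa using h

theorem diff_le [DecidableEq Γ] (x : X) (S : Finset Γ) :
    ∑ s ∈ S, |trunc κ Q T x s - Q x s| ≤ 2 * rem κ Q T x := by
  have h1 : ∀ s ∈ S, |trunc κ Q T x s - Q x s| ≤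
      (if (κ x)⁻¹ * s ∈ T then 0 else Q x s) + (if s = κ x then rem κ Q T x else 0) := by
    intro s _
    rw [trunc_apply]
    have h2 := rem_nonneg κ Q T hQ0 hQ1 x
    have h3 := hQ0 x s
    unfold rem at h2 ⊢
    split_ifs
    · rw [add_sub_cancel_left, abs_of_nonneg h2, zero_add]
    · simp
    · rw [abs_le]
      constructor <;> linarith
    · rw [abs_le]
      constructor <;> linarith
  refine (Finset.sum_le_sum h1).trans ?_
  rw [Finset.sum_add_distrib]
  have h4 := sum_image_le κ Q T hQ0 hQ1 x S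
  have h5 : ∑ s ∈ S, (if s = κ x then rem κ Q T x else 0) ≤ rem κ Q T x := by
    rw [Finset.sum_ite_eq']
    split_ifs
    · exact le_rfl
    · exact rem_nonneg κ Q T hQ0 hQ1 x
  linarith

theorem trunc_nonneg (x : X) (s : Γ) : 0 ≤ trunc κ Q T x s := by
  classical
  rw [trunc_apply]
  have h2 := rem_nonneg κ Q T hQ0 hQ1 x
  unfold rem at h2
  refine add_nonneg ?_ ?_
  · split_ifs
    · exact hQ0 x s
    · exact le_rfl
  · split_ifs
    · exact h2
    · exact le_rfl

end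

/-- The alternating form of an alternating cochain. -/
theorem exists_form {Γ : Type*} (S : Finset Γ) (n : ℕ) (β : List Γ → ℝ)
    (halt : ∀ (x : Fin n → Γ) (π : Equiv.Perm (Fin n)),
      β (List.ofFn (fun i => x (π i))) = ((Equiv.Perm.sign π : ℤ) : ℝ) * β (List.ofFn x))
    (B : ℝ) (hB : ∀ l, |β l| ≤ B) :
    ∃ Φ : (S → ℝ) [⋀^Fin n]→ₗ[ℝ] ℝ,
      (∀ m : Fin n → S → ℝ, |Φ m| ≤ B * ∏ i, ∑ s, |m i s|) ∧
      ∀ m : Fin n → S → ℝ, Φ m = ∑ q : Fin n → S, (∏ i, m i (q i)) *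
        β (List.ofFn fun i => (q i : Γ)) := by
  classical
  obtain ⟨Φ, hΦ⟩ := exists_altMap S n β halt (Γ →₀ ℝ)
  have key : ∀ m : Fin n → S → ℝ, Φ m = ∑ q : Fin n → S, (∏ i, m i (q i)) *
        β (List.ofFn fun i => (q i : Γ)) := by
    intro m
    set x : Fin n → (Γ →₀ ℝ) := fun i => Finsupp.onFinset S
      (fun γ => if h : γ ∈ S then m i ⟨γ, h⟩ else 0) (by
        intro a ha
        by_contra h
        exact ha (dif_neg h)) with hx
    have hxm : ∀ i, ∀ q : S, x i q = m i q := by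
      intro i q
      rw [hx]
      simp
    have hs : ∀ i, (id (x i)).support ⊆ S := by
      intro i γ hγ
      by_contra h
      apply Finsupp.mem_support_iff.1 hγ
      rw [id, hx, Finsupp.onFinset_apply]
      exact dif_neg h
    have h1 := hΦ id x hs
    have h2 := Alt.dual_push_ofFn S id n β x hs
    rw [h1] at h2
    have h3 : (fun i => fun q : S => (id (x i)) q) = m := by
      funext i q
      exact hxm i q
    rw [h3] at h2
    rw [h2]
    refine Finset.sum_congr rfl fun q _ => ?_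
    congr 1
    refine Finset.prod_congr rfl fun i _ => ?_
    exact hxm i (q i)
  refine ⟨Φ, fun m => ?_, key⟩
  rw [key]
  have hp : ∏ i, ∑ s, |m i s| = ∑ q : Fin n → S, ∏ i, |m i (q i)| := by
    rw [Finset.prod_univ_sum, Fintype.piFinset_univ]
  rw [hp, Finset.mul_sum]
  refine (Finset.abs_sum_le_sum_abs _ _).trans (Finset.sum_le_sum fun q _ => ?_)
  rw [abs_mul, Finset.abs_prod, mul_comm]
  exact mul_le_mul_of_nonneg_right (hB _) (Finset.prod_nonneg fun _ _ => abs_nonneg _)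

/-- Telescoping for a multilinear form. -/
theorem tele {S : Type*} [Fintype S] (n : ℕ) (Φ : (S → ℝ) [⋀^Fin n]→ₗ[ℝ] ℝ) (B : ℝ)
    (hB0 : 0 ≤ B) (hΦ : ∀ m : Fin n → S → ℝ, |Φ m| ≤ B * ∏ i, ∑ s, |m i s|)
    (a b : Fin n → S → ℝ) (ha : ∀ i, ∑ s, |a i s| ≤ 1) (hb : ∀ i, ∑ s, |b i s| ≤ 1) :
    |Φ a - Φ b| ≤ B * ∑ i, ∑ s, |a i s - b i s| := by
  classical
  have key : ∀ A : Finset (Fin n), |Φ (fun i => if i ∈ A then a i else b i) - Φ b| ≤
      B * ∑ i ∈ A, ∑ s, |a i s - b i s| := by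
    intro A
    induction A using Finset.induction with
    | empty => simp
    | insert j A hj ih =>
      set c : Fin n → S → ℝ := fun i => if i ∈ A then a i else b i with hc
      have hc1 : ∀ i, ∑ s, |c i s| ≤ 1 := by
        intro i
        rw [hc]
        by_cases h : i ∈ A
        · simp only [if_pos h]
          exact ha i
        · simp only [if_neg h]
          exact hb i
      have e1 : (fun i => if i ∈ insert j A then a i else b i) = Function.update c j (a j) := by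
        funext i
        by_cases h : i = j
        · subst h
          rw [Function.update_self, if_pos (Finset.mem_insert_self _ _)]
        · rw [Function.update_of_ne h, hc]
          simp only [Finset.mem_insert, h, false_or]
      have e2 : c = Function.update c j (b j) := by
        rw [eq_comm, Function.update_eq_self_iff, hc]
        simp only [if_neg hj]
      have e3 : Φ (Function.update c j (a j)) - Φ c = Φ (Function.update c j (a j - b j)) := by
        rw [AlternatingMap.map_update_sub]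
        congr 1
        exact congrArg Φ e2
      have e4 : |Φ (Function.update c j (a j - b j))| ≤ B * ∑ s, |a j s - b j s| := by
        refine (hΦ _).trans (mul_le_mul_of_nonneg_left ?_ hB0)
        rw [← Finset.mul_prod_erase Finset.univ _ (Finset.mem_univ j), Function.update_self]
        have e5 : ∏ i ∈ Finset.univ.erase j, ∑ s, |Function.update c j (a j - b j) i s| ≤ 1 := by
          refine Finset.prod_le_one (fun i _ => Finset.sum_nonneg fun _ _ => abs_nonneg _) ?_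
          intro i hi
          rw [Function.update_of_ne (Finset.ne_of_mem_erase hi)]
          exact hc1 i
        calc (∑ s, |(a j - b j) s|) *
              ∏ i ∈ Finset.univ.erase j, ∑ s, |Function.update c j (a j - b j) i s|
            ≤ (∑ s, |(a j - b j) s|) * 1 :=
              mul_le_mul_of_nonneg_left e5 (Finset.sum_nonneg fun _ _ => abs_nonneg _)
          _ = ∑ s, |a j s - b j s| := by simp
      rw [e1, Finset.sum_insert hj, mul_add]
      calc |Φ (Function.update c j (a j)) - Φ b|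
          = |(Φ (Function.update c j (a j)) - Φ c) + (Φ c - Φ b)| := by
            congr 1
            ring
        _ ≤ |Φ (Function.update c j (a j)) - Φ c| + |Φ c - Φ b| := abs_add_le _ _
        _ ≤ B * ∑ s, |a j s - b j s| + B * ∑ i ∈ A, ∑ s, |a i s - b i s| := by
            rw [e3]
            exact add_le_add e4 ih
  have h := key Finset.univ
  simpa using h

theorem simplex_bound {X Γ : Type*} [Group Γ] (κ : X → Γ) (Q : X → Γ → ℝ) (T : Finset Γ)
    (hQ0 : ∀ x γ, 0 ≤ Q x γ) (hQ1 : ∀ x, HasSum (Q x) 1) (n : ℕ) (β : List Γ → ℝ)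
    (halt : ∀ (x : Fin n → Γ) (π : Equiv.Perm (Fin n)),
      β (List.ofFn (fun i => x (π i))) = ((Equiv.Perm.sign π : ℤ) : ℝ) * β (List.ofFn x))
    (B : ℝ) (hB0 : 0 ≤ B) (hB : ∀ l, |β l| ≤ B) (x : Fin n → X) (c ε : ℝ)
    (hc : ∀ (S : Finset Γ) (Φ : (S → ℝ) [⋀^Fin n]→ₗ[ℝ] ℝ),
      (∀ m : Fin n → S → ℝ, |Φ m| ≤ B * ∏ i, ∑ s, |m i s|) →
        |Φ (fun i s => Q (x i) s)| ≤ c)
    (hε : ∀ i, rem κ Q T (x i) ≤ ε) :
    |dual (push (trunc κ Q T)) β (List.ofFn x)| ≤ c + B * (n * (2 * ε)) := by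
  classical
  set S : Finset Γ := Finset.univ.biUnion fun i => (trunc κ Q T (x i)).support with hS
  have hsup : ∀ i, (trunc κ Q T (x i)).support ⊆ S := fun i =>
    Finset.subset_biUnion_of_mem (fun i => (trunc κ Q T (x i)).support) (Finset.mem_univ i)
  obtain ⟨Φ, h1, h2⟩ := exists_form S n β halt B hB
  have h3 : dual (push (trunc κ Q T)) β (List.ofFn x) =
      Φ (fun i s => trunc κ Q T (x i) s) := by
    rw [h2, Alt.dual_push_ofFn S _ n β x hsup]
  have ha : ∀ i, ∑ s : S, |trunc κ Q T (x i) s| ≤ 1 := by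
    intro i
    have h4 : ∑ s : S, |trunc κ Q T (x i) s| = ∑ s ∈ S, trunc κ Q T (x i) s := by
      rw [← Finset.sum_coe_sort S]
      refine Finset.sum_congr rfl fun s _ => ?_
      exact abs_of_nonneg (trunc_nonneg κ Q T hQ0 hQ1 (x i) s)
    have h5 := trunc_normalised κ Q T (x i)
    rw [Finsupp.sum_of_support_subset _ (hsup i) _ (by simp)] at h5
    rw [h4, h5]
  have hb : ∀ i, ∑ s : S, |Q (x i) s| ≤ 1 := by
    intro i
    have h4 : ∑ s : S, |Q (x i) s| = ∑ s ∈ S, Q (x i) s := by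
      rw [← Finset.sum_coe_sort S]
      refine Finset.sum_congr rfl fun s _ => ?_
      exact abs_of_nonneg (hQ0 (x i) s)
    rw [h4]
    exact sum_le_hasSum S (fun i' _ => hQ0 (x i) i') (hQ1 (x i))
  have h6 := tele n Φ B hB0 h1 (fun i s => trunc κ Q T (x i) s) (fun i s => Q (x i) s) ha hb
  have h7 := hc S Φ h1
  have h8 : ∑ i, ∑ s : S, |trunc κ Q T (x i) s - Q (x i) s| ≤ n * (2 * ε) := by
    have h9 : ∀ i ∈ (Finset.univ : Finset (Fin n)),
        ∑ s : S, |trunc κ Q T (x i) s - Q (x i) s| ≤ 2 * ε := by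
      intro i _
      have h10 := diff_le κ Q T hQ0 hQ1 (x i) S
      rw [← Finset.sum_coe_sort S] at h10
      have h11 := hε i
      linarith
    have h12 := Finset.sum_le_sum h9
    rw [Finset.sum_const, Finset.card_univ, Fintype.card_fin, nsmul_eq_mul] at h12
    exact h12
  rw [h3]
  have h13 : B * ∑ i, ∑ s : S, |trunc κ Q T (x i) s - Q (x i) s| ≤ B * (n * (2 * ε)) :=
    mul_le_mul_of_nonneg_left h8 hB0
  have h14 := abs_sub_abs_le_abs_sub (Φ (fun i s => trunc κ Q T (x i) s))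
    (Φ (fun i s => Q (x i) s))
  linarith

theorem rem_tendsto {X Γ : Type*} [Group Γ] (κ : X → Γ) (Q : X → Γ → ℝ)
    (hQ1 : ∀ x, HasSum (Q x) 1) (x : X) (ε : ℝ) (hε : 0 < ε) :
    ∀ᶠ T in Filter.atTop, rem κ Q T x ≤ ε := by
  have h1 : HasSum (fun τ => Q x (κ x * τ)) 1 := (Equiv.mulLeft (κ x)).hasSum_iff.2 (hQ1 x)
  have h2 : Filter.Tendsto (fun T : Finset Γ => ∑ τ ∈ T, Q x (κ x * τ)) Filter.atTop
      (nhds 1) := h1
  have h3 : ∀ᶠ T : Finset Γ in Filter.atTop, 1 - ε < ∑ τ ∈ T, Q x (κ x * τ) :=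
    h2.eventually (lt_mem_nhds (by linarith))
  filter_upwards [h3] with T hT
  unfold rem
  linarith

end PairLe

open PairLe

theorem pair_le {E : Type*} [NormedAddCommGroup E] [NormedSpace ℝ E] (D : Geo E) (n : ℕ)
    (β : List D.X → ℝ) (hb : Bdd β) (hβ : Inv D.Γ β) (hc : cob β = 0) :
    ∃ B : ℝ, 0 ≤ B ∧ ∀ (P : E → D.Γ → ℝ),
      (∀ x ∈ D.X, (∀ γ, 0 ≤ P x γ) ∧ HasSum (P x) 1) →
      (∀ g : D.Γ, ∀ x ∈ D.X, ∀ γ, P (g.1 x) (g * γ) = P x γ) →
      ∀ w : L D.X, Cyc D.Γ w → (∀ l ∈ w.support, l.length = n + 1) →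
      ∀ bd : List D.X → ℝ,
      (∀ x : Fin (n + 1) → D.X, List.ofFn x ∈ w.support →
        ∀ (S : Finset D.Γ) (Φ : (S → ℝ) [⋀^Fin (n + 1)]→ₗ[ℝ] ℝ),
          (∀ m : Fin (n + 1) → S → ℝ, |Φ m| ≤ B * ∏ i, ∑ s, |m i s|) →
          |Φ (fun i s => P (x i : E) s)| ≤ bd (List.ofFn x)) →
      |pair β w| ≤ w.sum (fun l a => |a| * bd l) := by
  classical
  obtain ⟨κ, hκ⟩ := exists_kappa D
  obtain ⟨y₀, hy₀⟩ := D.nonempty
  set βΓ : List D.Γ → ℝ := fun l => β (l.map (fun g => g • (⟨y₀, hy₀⟩ : D.X))) with hβΓ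
  have hβΓ' : βΓ = dual (push (fun g : D.Γ => Finsupp.single (g • (⟨y₀, hy₀⟩ : D.X)) (1 : ℝ)))
      β := by
    funext l
    rw [dual_push_single (fun g : D.Γ => g • (⟨y₀, hy₀⟩ : D.X))]
  have heqo : ∀ (g : D.Γ) (a : D.Γ), (fun g : D.Γ => g • (⟨y₀, hy₀⟩ : D.X)) (g • a) =
      g • (fun g : D.Γ => g • (⟨y₀, hy₀⟩ : D.X)) a := by
    intro g a
    simp only [smul_eq_mul, mul_smul]
  have hΓb : Bdd βΓ := by
    obtain ⟨C, hC⟩ := hb
    exact ⟨C, fun l => hC _⟩
  have hΓi : Inv D.Γ βΓ := by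
    rw [hβΓ']
    exact inv_push D.Γ _ (equiv_single D.Γ _ heqo) β hβ
  have hΓc : cob βΓ = 0 := by
    rw [hβΓ', cob_push _ (normalised_single _), hc]
    funext l
    simp [dual, pair]
  obtain ⟨β₂, ⟨B₀, hB₀⟩, hi₂, hc₂, halt, he₂⟩ := exists_alt D.Γ n βΓ hΓb hΓi hΓc
  have hB0 : 0 ≤ B₀ := (abs_nonneg _).trans (hB₀ [])
  refine ⟨B₀, hB0, ?_⟩
  intro P hP hPe w hw hlen bd hbd
  have hκe : Equiv' D.Γ (fun x : D.X => Finsupp.single (κ x) (1 : ℝ)) :=
    equiv_single D.Γ κ (fun g a => by rw [hκ, smul_eq_mul])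
  have hwΓ : Cyc D.Γ (lin (push (fun x : D.X => Finsupp.single (κ x) (1 : ℝ))) w) :=
    cyc_push D.Γ _ (normalised_single κ) hκe w hw
  have e1 : pair β w = pair βΓ (lin (push (fun x : D.X => Finsupp.single (κ x) (1 : ℝ))) w) := by
    have h1 := push_homotopic D.Γ (fun x : D.X => Finsupp.single (id x) (1 : ℝ))
      (fun x : D.X => Finsupp.single (κ x • (⟨y₀, hy₀⟩ : D.X)) (1 : ℝ)) (normalised_single _)
      (normalised_single (fun x : D.X => κ x • (⟨y₀, hy₀⟩ : D.X)))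
      (equiv_single D.Γ _ (fun _ _ => rfl))
      (equiv_single D.Γ (fun x : D.X => κ x • (⟨y₀, hy₀⟩ : D.X))
        (fun g a => by simp only [hκ, mul_smul])) β hβ hc w hw
    have h2 : dual (push (fun x : D.X => Finsupp.single (id x) (1 : ℝ))) β = β := by
      funext l
      rw [dual_push_single id, List.map_id]
    rw [h2] at h1
    rw [h1, ← pair_dual]
    congr 2
    funext l
    rw [dual_push_single (fun x : D.X => κ x • (⟨y₀, hy₀⟩ : D.X)), dual_push_single κ, hβΓ]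
    simp only [List.map_map]
    rfl
  -- the measures on the points of the domain
  set Q : D.X → D.Γ → ℝ := fun x => P (x : E) with hQ
  have hQ0 : ∀ x γ, 0 ≤ Q x γ := fun x γ => (hP x x.2).1 γ
  have hQ1 : ∀ x, HasSum (Q x) 1 := fun x => (hP x x.2).2
  have hQe : ∀ (g : D.Γ) (x : D.X) (γ : D.Γ), Q (g • x) (g * γ) = Q x γ := fun g x γ =>
    hPe g x x.2 γ
  have e2 : ∀ T : Finset D.Γ, pair β w = pair (dual (push (trunc κ Q T)) β₂) w := by
    intro T
    rw [e1, ← he₂ _ hwΓ, ← pair_dual]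
    exact push_homotopic D.Γ (fun x : D.X => Finsupp.single (κ x) (1 : ℝ)) (trunc κ Q T)
      (normalised_single κ) (trunc_normalised κ Q T) hκe (trunc_equiv κ Q T hκ hQe) β₂ hi₂ hc₂
      w hw
  -- the limit
  set M : ℝ := (w.sum fun _ a => |a|) * (B₀ * ((n + 1 : ℕ) * 2)) with hM
  have hM0 : 0 ≤ M := by
    rw [hM]
    refine mul_nonneg ?_ (by positivity)
    exact Finset.sum_nonneg fun _ _ => abs_nonneg _
  have key : ∀ ε : ℝ, 0 < ε → |pair β w| ≤ w.sum (fun l a => |a| * bd l) + M * ε := by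
    intro ε hε
    have h1 : ∀ᶠ T : Finset D.Γ in Filter.atTop, ∀ l ∈ w.support, ∀ x ∈ l.toFinset,
        rem κ Q T x ≤ ε := by
      rw [Filter.eventually_all_finset]
      intro l _
      rw [Filter.eventually_all_finset]
      intro x _
      exact rem_tendsto κ Q hQ1 x ε hε
    obtain ⟨T, hT⟩ := h1.exists
    rw [e2 T, pair_eq_sum, Finsupp.sum, Finsupp.sum]
    refine (Finset.abs_sum_le_sum_abs _ _).trans ?_
    rw [hM, Finsupp.sum, Finset.sum_mul, Finset.sum_mul, ← Finset.sum_add_distrib]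
    refine Finset.sum_le_sum fun l hl => ?_
    obtain ⟨x, rfl⟩ : ∃ x : Fin (n + 1) → D.X, l = List.ofFn x := by
      refine ⟨fun i => l.get (i.cast (hlen l hl).symm), ?_⟩
      apply List.ext_get
      · simp [hlen l hl]
      · intro i h1 h2
        rw [List.get_ofFn]
        rfl
    have h2 := simplex_bound κ Q T hQ0 hQ1 (n + 1) β₂ halt B₀ hB0 hB₀ x (bd (List.ofFn x)) ε
      (fun S Φ hΦ => hbd x hl S Φ hΦ)
      (fun i => hT _ hl (x i) (List.mem_toFinset.2 (List.mem_ofFn.2 ⟨i, rfl⟩)))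
    rw [abs_mul]
    calc |w (List.ofFn x)| * |dual (push (trunc κ Q T)) β₂ (List.ofFn x)|
        ≤ |w (List.ofFn x)| * (bd (List.ofFn x) + B₀ * ((n + 1 : ℕ) * (2 * ε))) :=
          mul_le_mul_of_nonneg_left h2 (abs_nonneg _)
      _ = _ := by ring
  refine le_of_forall_pos_le_add fun δ hδ => ?_
  have h1 := key (δ / (M + 1)) (by positivity)
  have h2 : M * (δ / (M + 1)) ≤ δ := by
    rw [mul_div_assoc', div_le_iff₀ (by positivity)]
    nlinarith
  linarith

end Pool.AF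
end

/- Helper16.LDA.H94.AF.Crit -/
section
open Set Finset

set_option linter.unusedSectionVars false

namespace Pool.AF

open Pool.SV

/-! ## AF-4 CRIT: the criterion (uses `alt_est`, `exists_subdiv_seq`, `pair_le`) -/

private theorem crit_lim {a b c : ℝ} (h : ∀ k : ℕ, a ≤ b + c / 2 ^ k) : a ≤ b := by
  have h1 : Filter.Tendsto (fun k : ℕ => b + c * (1 / 2 : ℝ) ^ k) Filter.atTop
      (nhds (b + c * 0)) :=
    tendsto_const_nhds.add
      ((tendsto_pow_atTop_nhds_zero_of_lt_one (by norm_num) (by norm_num)).const_mul c)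
  rw [mul_zero, add_zero] at h1
  refine ge_of_tendsto' h1 fun k => (h k).trans (le_of_eq ?_)
  rw [one_div, inv_pow, div_eq_mul_inv]

private theorem crit_eps {a c : ℝ} (hc : 0 ≤ c) (h : ∀ ε : ℝ, 0 < ε → a ≤ c * ε) : a ≤ 0 := by
  by_contra hlt
  rw [not_le] at hlt
  have h1 := h (a / (2 * (c + 1))) (by (clear * - hlt hc; positivity))
  have h2 : c * (a / (2 * (c + 1))) < a := by
    rw [← mul_div_assoc, div_lt_iff₀ (by (clear * - hc; positivity))]
    nlinarith only [hc, hlt]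
  linarith only [h1, h2]

theorem vanish_of_goodPart {E : Type*} [NormedAddCommGroup E] [NormedSpace ℝ E]
    [FiniteDimensional ℝ E] (D : Geo E) (hpos : 0 < Module.finrank ℝ E)
    (H : ∀ K ⊆ D.X, IsCompact K → Convex ℝ K → ∃ C : ℝ, ∀ ε : ℝ, 0 < ε → GoodPart D K C ε) :
    Vanish D := by
  classical
  intro β hb hβ hc w hw hlen
  set n := Module.finrank ℝ E with hn
  -- the convex hull of the vertices
  let W : Finset E := (w.support.biUnion fun l => l.toFinset).image (fun x : D.X => (x : E))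
  let K : Set E := convexHull ℝ (W : Set E)
  have hWX : (W : Set E) ⊆ D.X := by
    intro e he
    obtain ⟨x, -, rfl⟩ := Finset.mem_image.1 (Finset.mem_coe.1 he)
    exact x.2
  have hKX : K ⊆ D.X := convexHull_min hWX D.convex
  have hKcomp : IsCompact K := Set.Finite.isCompact_convexHull (𝕜 := ℝ) W.finite_toSet
  have hKc : Convex ℝ K := convex_convexHull ℝ _
  have hwK : ∀ l ∈ w.support, ∀ x ∈ l, (x : E) ∈ K := by
    intro l hl x hx
    refine subset_convexHull ℝ _ (Finset.mem_coe.2 (Finset.mem_image.2 ⟨x, ?_, rfl⟩))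
    exact Finset.mem_biUnion.2 ⟨l, hl, List.mem_toFinset.2 hx⟩
  obtain ⟨R0, hR0⟩ := Metric.isBounded_iff.1 hKcomp.isBounded
  obtain ⟨C0, hC0⟩ := H K hKX hKcomp hKc
  obtain ⟨B, hB, hpair⟩ := pair_le D n β hb hβ hc
  obtain ⟨V, hV, hseq⟩ := exists_subdiv_seq D n K hKc w hw hlen hwK
  set R := max R0 0 with hRdef
  set C := max C0 0 with hCdef
  have hRnn : 0 ≤ R := le_max_right _ _
  have hCnn : 0 ≤ C := le_max_right _ _
  have hR : ∀ x ∈ K, ∀ y ∈ K, ‖y - x‖ ≤ R := by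
    intro x hx y hy
    rw [← dist_eq_norm]
    exact (hR0 hy hx).trans (le_max_left _ _)
  have hnr := nr_nonneg w
  -- the estimate for a given partition
  have main : ∀ ε : ℝ, 0 < ε →
      |pair β w| ≤ (nr w * (B * (n * 2 ^ n * C ^ (n - 1))) * V ^ n) * ε := by
    intro ε hε
    obtain ⟨P, P', C1, hP, hPe, hP1, hP2, hP3⟩ := hC0 ε hε
    set C' := max C1 0 with hC'def
    have hC'nn : 0 ≤ C' := le_max_right _ _
    set c2 := B * (2 ^ n * C' * (C + C' * R) ^ (n - 1)) with hc2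
    have hc2nn : 0 ≤ c2 := by (clear * - hB; positivity)
    set c1 := B * (n * 2 ^ n * ε * C ^ (n - 1)) with hc1
    have hc1nn : 0 ≤ c1 := by (clear * - hB hpos hε; positivity)
    refine crit_lim (c := nr w * c2 * V ^ (n + 1)) fun k => ?_
    obtain ⟨w', hw', hpw, hnr', hs⟩ := hseq k
    let bd : List D.X → ℝ := fun l =>
      c1 * (tv (l.map (fun x : D.X => (x : E)))) ^ n +
        c2 * (tv (l.map (fun x : D.X => (x : E)))) ^ (n + 1)
    have h1 : |pair β w'| ≤ w'.sum (fun l a => |a| * bd l) := by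
      refine hpair P hP hPe w' hw' (fun l hl => (hs l hl).1) bd ?_
      intro x hx S Φ hΦ
      have hxK : ∀ i, (x i : E) ∈ K := fun i =>
        (hs _ hx).2.1 (x i) (List.mem_ofFn.2 ⟨i, rfl⟩)
      have h2 := alt_est n hn.symm hpos (S := S) Φ B hB hΦ K R hR C ε C' hCnn hε.le hC'nn
        (fun e s => P e s) (fun e s => P' e s)
        (by
          intro y hy
          obtain ⟨hy0, hy1⟩ := hP y (hKX hy)
          rw [Finset.sum_coe_sort S (fun s => |P y s|)]
          have : ∑ s ∈ S, |P y s| = ∑ s ∈ S, P y s :=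
            Finset.sum_congr rfl fun s _ => abs_of_nonneg (hy0 s)
          rw [this]
          exact sum_le_hasSum S (fun s _ => hy0 s) hy1)
        (by
          intro y hy u
          rw [Finset.sum_coe_sort S (fun s => |P' y s u|)]
          exact (hP1 y hy S u).trans
            (mul_le_mul_of_nonneg_right (le_max_left _ _) (norm_nonneg _)))
        (by
          intro y hy
          obtain ⟨u, hu, hu2⟩ := hP2 y hy
          refine ⟨u, hu, ?_⟩
          rw [Finset.sum_coe_sort S (fun s => |P' y s u|)]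
          exact hu2 S)
        (by
          intro y hy z hz
          rw [Finset.sum_coe_sort S (fun s => |P z s - P y s - P' y s (z - y)|)]
          exact (hP3 y hy z hz S).trans
            (mul_le_mul_of_nonneg_right (le_max_left _ _) (sq_nonneg _)))
        (fun i => (x i : E)) hxK
      have h3 : (List.ofFn x).map (fun x : D.X => (x : E)) = List.ofFn fun i => (x i : E) := by
        rw [List.map_ofFn]
        rfl
      show _ ≤ c1 * (tv ((List.ofFn x).map (fun x : D.X => (x : E)))) ^ n +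
        c2 * (tv ((List.ofFn x).map (fun x : D.X => (x : E)))) ^ (n + 1)
      rw [h3]
      exact h2
    rw [hpw β hβ hc] at h1
    have hVk : 0 ≤ V / 2 ^ k := by (clear * - hV; positivity)
    have h4 : w'.sum (fun l a => |a| * bd l) ≤
        nr w' * (c1 * (V / 2 ^ k) ^ n + c2 * (V / 2 ^ k) ^ (n + 1)) := by
      unfold nr
      rw [Finsupp.sum, Finsupp.sum, Finset.sum_mul]
      refine Finset.sum_le_sum fun l hl => mul_le_mul_of_nonneg_left ?_ (abs_nonneg _)
      have h5 := (hs l hl).2.2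
      have h6 := tv_nonneg (l.map (fun x : D.X => (x : E)))
      exact add_le_add
        (mul_le_mul_of_nonneg_left (pow_le_pow_left₀ h6 h5 n) hc1nn)
        (mul_le_mul_of_nonneg_left (pow_le_pow_left₀ h6 h5 (n + 1)) hc2nn)
    have h7 : nr w' * (c1 * (V / 2 ^ k) ^ n + c2 * (V / 2 ^ k) ^ (n + 1)) ≤
        nr w * (2 ^ n) ^ k * (c1 * (V / 2 ^ k) ^ n + c2 * (V / 2 ^ k) ^ (n + 1)) :=
      mul_le_mul_of_nonneg_right hnr' (by (clear * - hB hpos hε hV; positivity))
    refine (h1.trans (h4.trans h7)).trans (le_of_eq ?_)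
    have e1 : ((2 : ℝ) ^ n) ^ k * (V / 2 ^ k) ^ n = V ^ n := by
      rw [div_pow, ← pow_mul, ← pow_mul, mul_comm k n]
      field_simp
    have e2 : ((2 : ℝ) ^ n) ^ k * (V / 2 ^ k) ^ (n + 1) = V ^ (n + 1) / 2 ^ k := by
      rw [pow_succ (V / 2 ^ k) n, ← mul_assoc, e1, pow_succ]
      ring
    calc nr w * (2 ^ n) ^ k * (c1 * (V / 2 ^ k) ^ n + c2 * (V / 2 ^ k) ^ (n + 1))
        = nr w * c1 * ((2 ^ n) ^ k * (V / 2 ^ k) ^ n) +
          nr w * c2 * ((2 ^ n) ^ k * (V / 2 ^ k) ^ (n + 1)) := by ring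
      _ = nr w * c1 * V ^ n + nr w * c2 * (V ^ (n + 1) / 2 ^ k) := by rw [e1, e2]
      _ = _ := by rw [hc1]; ring
  have hfin := crit_eps (by (clear * - hnr hB hpos hV; positivity)) main
  exact abs_eq_zero.1 (le_antisymm hfin (abs_nonneg _))

end Pool.AF
end

/- Helper16.LDA.H94.AF.Strip -/
section
open Set Finset

set_option linter.unusedSectionVars false

namespace Pool.AF

open Pool.SV

/-! ## AF-12 STRIP: splitting off a block and dividing it by a character (uses `aus1`, `aus2`) -/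

private theorem inj_of_disc {Γ R : Type*} [Group Γ] [NormedRing R] (φ : Γ →* R)
    (htf : ∀ (g : Γ) (m : ℕ), 0 < m → g ^ m = 1 → g = 1) (hd : Disc φ) :
    Function.Injective φ := by
  rw [injective_iff_map_eq_one]
  intro g hg
  have hfin := hd ‖(1 : R)‖
  by_contra hne
  have hinf : (Set.range fun n : ℕ => g ^ n).Infinite := by
    apply Set.infinite_range_of_injective
    intro m n hmn
    rcases lt_trichotomy m n with h | h | h
    · exfalso
      apply hne
      apply htf g (n - m) (by omega)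
      have h6 : g ^ m * g ^ (n - m) = g ^ m * 1 := by
        rw [← pow_add, mul_one, show m + (n - m) = n by omega]; exact hmn.symm
      exact mul_left_cancel h6
    · exact h
    · exfalso
      apply hne
      apply htf g (m - n) (by omega)
      have h6 : g ^ n * g ^ (m - n) = g ^ n * 1 := by
        rw [← pow_add, mul_one, show n + (m - n) = m by omega]; exact hmn
      exact mul_left_cancel h6
  apply hinf
  apply hfin.subset
  rintro x ⟨n, rfl⟩
  have h3 : φ (g ^ n) = 1 := by rw [map_pow, hg, one_pow]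
  have h4 : φ (g ^ n)⁻¹ = 1 := by
    have h5 : φ (g ^ n) * φ (g ^ n)⁻¹ = 1 := by rw [← map_mul, mul_inv_cancel, map_one]
    rwa [h3, one_mul] at h5
  refine ⟨?_, ?_⟩
  · show ‖φ (g ^ n)‖ ≤ _
    rw [h3]
  · show ‖φ (g ^ n)⁻¹‖ ≤ _
    rw [h4]

theorem strip {Γ R : Type*} [Group Γ] [NormedRing R] [NormedAlgebra ℝ R] [FiniteDimensional ℝ R]
    (φ : Γ →* R) (htf : ∀ (g : Γ) (m : ℕ), 0 < m → g ^ m = 1 → g = 1) (hd : Disc φ) (f : R)
    (hf : f * f = f) (hinv : ∀ g, (1 - f) * φ g * f = 0) (c : Γ → ℝ) (hc : PosMul c) :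
    HasAbNormal Γ ∨ ∃ τ : Γ →* R, (∀ g, τ g = cut φ f c g + (1 - f) * φ g * (1 - f)) ∧
      Disc τ := by
  classical
  obtain ⟨hc0, hc⟩ := hc
  have hinj := inj_of_disc φ htf hd
  by_cases hsmall : ∀ ε : ℝ, 0 < ε → ∃ g : Γ, g ≠ 1 ∧
      ‖f * φ g * f + (1 - f) * φ g * (1 - f) - 1‖ < ε
  · exact Or.inl (aus1 φ hinj hd f hf hinv hsmall)
  push Not at hsmall
  obtain ⟨ε₀, hε₀, hrho0⟩ := hsmall
  have hc1 : c 1 = 1 := by
    have h3 := hc 1 1
    rw [mul_one] at h3
    have h4 := hc0 1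
    have h5 : c 1 * (c 1 - 1) = 0 := by (clear * - h3; linarith)
    rcases mul_eq_zero.1 h5 with h6 | h6
    · linarith
    · linarith
  -- the block-diagonal parts
  have q1 : f * (1 - f) = 0 := by rw [mul_sub, hf, mul_one, sub_self]
  have q2 : (1 - f) * f = 0 := by rw [sub_mul, hf, one_mul, sub_self]
  have q3 : (1 - f) * (1 - f) = 1 - f := by rw [sub_mul, q1, one_mul, sub_zero]
  have hA : ∀ g h, f * φ (g * h) * f = (f * φ g * f) * (f * φ h * f) := by
    intro g h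
    have e1 : f * φ (g * h) * f
        = f * φ g * (f * (φ h * f)) + f * φ g * ((1 - f) * φ h * f) := by
      rw [map_mul]; noncomm_ring
    rw [e1, hinv, mul_zero, add_zero]
    have e2 : (f * φ g * f) * (f * φ h * f) = f * φ g * ((f * f) * (φ h * f)) := by
      noncomm_ring
    rw [e2, hf]
  have hB : ∀ g h, (1 - f) * φ (g * h) * (1 - f)
      = ((1 - f) * φ g * (1 - f)) * ((1 - f) * φ h * (1 - f)) := by
    intro g h
    exact Step.comp_mul φ f hf hinv g h
  -- the second representation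
  let τ : Γ →* R :=
    { toFun := fun g => (c g)⁻¹ • (f * φ g * f) + (1 - f) * φ g * (1 - f)
      map_one' := by
        rw [map_one, mul_one, mul_one, hf, q3, hc1]; simp
      map_mul' := by
        intro g h
        rw [hA, hB, hc]
        set a := (c g)⁻¹
        set b := (c h)⁻¹
        have ha : (c g * c h)⁻¹ = a * b := mul_inv _ _
        rw [ha]
        symm
        calc (a • (f * φ g * f) + (1 - f) * φ g * (1 - f)) *
              (b • (f * φ h * f) + (1 - f) * φ h * (1 - f))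
            = (a * b) • ((f * φ g * f) * (f * φ h * f))
              + a • (f * φ g * (f * (1 - f)) * φ h * (1 - f))
              + b • ((1 - f) * φ g * ((1 - f) * f) * φ h * f)
              + ((1 - f) * φ g * (1 - f)) * ((1 - f) * φ h * (1 - f)) := by
              simp only [add_mul, mul_add, smul_mul_assoc, mul_smul_comm]
              simp only [mul_assoc]
              module
          _ = _ := by rw [q1, q2]; simp }
  have hτ : ∀ g, τ g = (c g)⁻¹ • (f * φ g * f) + (1 - f) * φ g * (1 - f) :=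
    fun g => rfl
  have hw : ∀ g h : Γ, ‖τ ((h * g)⁻¹ * (g * h)) - 1‖ < ε₀ → g * h = h * g := by
    intro g h hlt
    by_contra hne
    have h3 : (h * g)⁻¹ * (g * h) ≠ 1 := by
      intro h4
      apply hne
      rw [inv_mul_eq_one] at h4
      exact h4.symm
    have h4 := hrho0 _ h3
    have h5 : c ((h * g)⁻¹ * (g * h)) = 1 := by
      have h6 : c ((h * g)⁻¹ * (h * g)) = 1 := by rw [inv_mul_cancel, hc1]
      rw [hc] at h6 ⊢
      rw [hc g h, mul_comm (c g) (c h), ← hc h g]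
      exact h6
    rw [hτ, h5, inv_one, one_smul] at hlt
    linarith
  have h1' : ∀ g h : Γ, τ (g * h) = τ (h * g) → g * h = h * g := by
    intro g h heq
    apply hw
    rw [map_mul, heq, ← map_mul, inv_mul_cancel, map_one, sub_self, norm_zero]
    exact hε₀
  have h1'' : ∃ ε₁ : ℝ, 0 < ε₁ ∧ ∀ g h : Γ, ‖τ g - 1‖ < ε₁ → ‖τ h - 1‖ < ε₁ → g * h = h * g := by
    set K : ℝ := ‖(1 : R)‖ with hK
    have hK0 : 0 ≤ K := norm_nonneg _
    refine ⟨min (1 / 2) (ε₀ / (8 * K ^ 2 + 1)), lt_min (by norm_num) (by (clear * - hε₀; positivity)), ?_⟩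
    intro g h hg hh
    have hinvb : ∀ x : Γ, ‖τ x - 1‖ < 1 / 2 → ‖τ x⁻¹‖ ≤ 2 * K := by
      intro x hx
      have e1 : τ x⁻¹ = 1 - τ x⁻¹ * (τ x - 1) := by
        rw [mul_sub, mul_one, ← map_mul, inv_mul_cancel, map_one]; abel
      have e2 : ‖τ x⁻¹‖ ≤ K + ‖τ x⁻¹‖ * ‖τ x - 1‖ := by
        calc ‖τ x⁻¹‖ = ‖1 - τ x⁻¹ * (τ x - 1)‖ := by rw [← e1]
          _ ≤ ‖(1 : R)‖ + ‖τ x⁻¹ * (τ x - 1)‖ := norm_sub_le _ _
          _ ≤ _ := by gcongr; exact norm_mul_le _ _
      have e3 : ‖τ x⁻¹‖ * ‖τ x - 1‖ ≤ ‖τ x⁻¹‖ * (1 / 2) := by gcongr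
      linarith only [e2, e3]
    have hg1 := hinvb g (hg.trans_le (min_le_left _ _))
    have hh1 := hinvb h (hh.trans_le (min_le_left _ _))
    have hg2 : ‖τ g - 1‖ < 1 / 2 := hg.trans_le (min_le_left _ _)
    have hg3 : ‖τ g - 1‖ < ε₀ / (8 * K ^ 2 + 1) := hg.trans_le (min_le_right _ _)
    have hh2 : ‖τ h - 1‖ < 1 / 2 := hh.trans_le (min_le_left _ _)
    apply hw
    have e4 : τ ((h * g)⁻¹ * (g * h)) - 1 =
        τ g⁻¹ * τ h⁻¹ * ((τ g - 1) * (τ h - 1) - (τ h - 1) * (τ g - 1)) := by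
      have e5 : (τ g - 1) * (τ h - 1) - (τ h - 1) * (τ g - 1) = τ (g * h) - τ (h * g) := by
        rw [map_mul, map_mul]; noncomm_ring
      rw [e5, mul_sub, ← map_mul, ← map_mul, ← map_mul]
      congr 1
      · congr 1; group
      · rw [show g⁻¹ * h⁻¹ * (h * g) = 1 by group, map_one]
    rw [e4]
    have e6 : ‖(τ g - 1) * (τ h - 1) - (τ h - 1) * (τ g - 1)‖ ≤ 2 * (‖τ g - 1‖ * ‖τ h - 1‖) := by
      calc _ ≤ ‖(τ g - 1) * (τ h - 1)‖ + ‖(τ h - 1) * (τ g - 1)‖ := norm_sub_le _ _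
        _ ≤ ‖τ g - 1‖ * ‖τ h - 1‖ + ‖τ h - 1‖ * ‖τ g - 1‖ :=
          add_le_add (norm_mul_le _ _) (norm_mul_le _ _)
        _ = _ := by ring
    have e7 : 2 * (‖τ g - 1‖ * ‖τ h - 1‖) ≤ ‖τ g - 1‖ := by
      nlinarith only [norm_nonneg (τ g - 1), hh2]
    calc ‖τ g⁻¹ * τ h⁻¹ * ((τ g - 1) * (τ h - 1) - (τ h - 1) * (τ g - 1))‖
        ≤ ‖τ g⁻¹ * τ h⁻¹‖ * ‖(τ g - 1) * (τ h - 1) - (τ h - 1) * (τ g - 1)‖ := norm_mul_le _ _
      _ ≤ (2 * K * (2 * K)) * ‖τ g - 1‖ := by
          gcongr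
          · exact (norm_mul_le _ _).trans (by (clear * - hg1 hh1; gcongr))
          · exact e6.trans e7
      _ ≤ (8 * K ^ 2 + 1) * ‖τ g - 1‖ := by
          gcongr
          (clear * -; nlinarith only [])
      _ < ε₀ := by
          rw [lt_div_iff₀ (by (clear * -; positivity))] at hg3
          linarith only [hg3]
  by_cases hD : Disc τ
  · refine Or.inr ⟨τ, fun g => ?_, hD⟩
    rw [hτ, cut]
  left
  refine aus2 τ h1'' h1' ?_
  intro ε hε
  -- compactness
  have : ProperSpace R := FiniteDimensional.proper_real R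
  unfold Disc at hD
  push Not at hD
  obtain ⟨M, hC⟩ := hD
  have hinf : Set.Infinite {g : Γ | ‖τ g‖ ≤ M ∧ ‖τ g⁻¹‖ ≤ M} := hC
  set u := hinf.natEmbedding with hu
  have hu1 : ∀ n, ‖τ (u n : Γ)‖ ≤ M := fun n => (u n).2.1
  have hu2 : ∀ n, ‖τ (u n : Γ)⁻¹‖ ≤ M := fun n => (u n).2.2
  have hM0 : 0 ≤ M := (norm_nonneg _).trans (hu1 0)
  obtain ⟨a, -, ψ, hψ, hlim⟩ := tendsto_subseq_of_bounded (s := Metric.closedBall (0 : R) M)
    Metric.isBounded_closedBall (x := fun n => τ (u n : Γ)) (fun n => by simpa using hu1 n)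
  have hcau := hlim.cauchySeq
  rw [Metric.cauchySeq_iff'] at hcau
  obtain ⟨N, hN⟩ := hcau (ε / (M + 1)) (by positivity)
  have h3 := hN (N + 1) (by omega)
  simp only [Function.comp] at h3
  rw [dist_eq_norm] at h3
  refine ⟨(u (ψ N) : Γ)⁻¹ * (u (ψ (N + 1)) : Γ), ?_, ?_⟩
  · intro h4
    rw [inv_mul_eq_one] at h4
    have h5 : ψ N = ψ (N + 1) := u.injective (Subtype.ext h4)
    have h6 : ψ N < ψ (N + 1) := hψ (by omega)
    omega
  · have e1 : τ ((u (ψ N) : Γ)⁻¹ * (u (ψ (N + 1)) : Γ)) - 1 =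
        τ (u (ψ N) : Γ)⁻¹ * (τ (u (ψ (N + 1)) : Γ) - τ (u (ψ N) : Γ)) := by
      rw [mul_sub, ← map_mul, ← map_mul, inv_mul_cancel, map_one]
    rw [e1]
    calc _ ≤ ‖τ (u (ψ N) : Γ)⁻¹‖ * ‖τ (u (ψ (N + 1)) : Γ) - τ (u (ψ N) : Γ)‖ := norm_mul_le _ _
      _ ≤ (M + 1) * ‖τ (u (ψ (N + 1)) : Γ) - τ (u (ψ N) : Γ)‖ := by
          gcongr
          linarith only [hu2 (ψ N)]
      _ < ε := by
          rw [lt_div_iff₀ (by positivity)] at h3
          linarith

end Pool.AF
end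

/- Helper16.LDA.H94.AF.FlagTau -/
section
open Set Finset

set_option linter.unusedSectionVars false

namespace Pool.AF

open Pool.SV

/-! ## AF-13 TAU: induction along the flag (uses `strip`, `Flag.exists_idem`, `disc_of_geo`) -/

section

variable {E : Type*} [NormedAddCommGroup E] [NormedSpace ℝ E] [FiniteDimensional ℝ E]

/-- Idempotents adapted to a flag. -/
structure Adapted (r : ℕ) (F : ℕ → Submodule ℝ E) (e : ℕ → Alg E) : Prop where
  idem : ∀ i ≤ r, e i * e i = e i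
  range : ∀ i ≤ r, ∀ v : E × ℝ, e i v = v ↔ v.2 = 0 ∧ v.1 ∈ F i
  up : ∀ i < r, e i * e (i + 1) = e i
  down : ∀ i < r, e (i + 1) * e i = e i

theorem exists_adapted (r : ℕ) (F : ℕ → Submodule ℝ E) (hle : ∀ i < r, F i ≤ F (i + 1)) :
    ∃ e : ℕ → Alg E, Adapted r F e := by
  have key : ∀ n ≤ r, ∃ e : ℕ → Alg E, Adapted n F e := by
    intro n
    induction n with
    | zero =>
      intro _
      obtain ⟨e', h1, _, _, h4⟩ := Flag.exists_idem (0 : Alg E) (mul_zero _) ((F 0).prod ⊥)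
        (fun v => Submodule.zero_mem _)
      refine ⟨fun _ => e', fun i _ => h1, ?_, ?_, ?_⟩
      · intro i hi v
        have hi0 : i = 0 := by omega
        subst hi0
        rw [h4, Submodule.mem_prod, Submodule.mem_bot, and_comm]
      · intro i hi; omega
      · intro i hi; omega
    | succ n ih =>
      intro hn
      obtain ⟨e, he⟩ := ih (by omega)
      obtain ⟨e', h1, h2, h3, h4⟩ := Flag.exists_idem (e n) (he.idem n le_rfl)
        ((F (n + 1)).prod ⊥) (by
          intro v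
          have h5 : e n (e n v) = e n v :=
            congrArg (fun T : Alg E => T v) (he.idem n le_rfl)
          have h6 := (he.range n le_rfl _).mp h5
          exact ⟨hle n (by omega) h6.2, h6.1⟩)
      have hne : ∀ i ≤ n, Function.update e (n + 1) e' i = e i := fun i hi =>
        Function.update_of_ne (by omega) _ _
      have heq : Function.update e (n + 1) e' (n + 1) = e' := Function.update_self _ _ _
      refine ⟨Function.update e (n + 1) e', ?_, ?_, ?_, ?_⟩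
      · intro i hi
        rcases Nat.lt_or_ge n i with h | h
        · have : i = n + 1 := by omega
          rw [this, heq, h1]
        · rw [hne i h, he.idem i h]
      · intro i hi v
        rcases Nat.lt_or_ge n i with h | h
        · have : i = n + 1 := by omega
          rw [this, heq, h4, Submodule.mem_prod, Submodule.mem_bot, and_comm]
        · rw [hne i h, he.range i h]
      · intro i hi
        rcases Nat.lt_or_ge i n with h | h
        · rw [hne i (by omega), hne (i + 1) (by omega), he.up i h]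
        · have : i = n := by omega
          rw [this, hne n le_rfl, heq, h2]
      · intro i hi
        rcases Nat.lt_or_ge i n with h | h
        · rw [hne i (by omega), hne (i + 1) (by omega), he.down i h]
        · have : i = n := by omega
          rw [this, hne n le_rfl, heq, h3]
  exact key r le_rfl

private theorem Adapted.up' {r : ℕ} {F : ℕ → Submodule ℝ E} {e : ℕ → Alg E}
    (he : Adapted r F e) (i : ℕ) : ∀ k, i + k ≤ r → e i * e (i + k) = e i := by
  intro k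
  induction k with
  | zero => intro h; exact he.idem i h
  | succ k ih =>
    intro h
    have h1 := ih (by omega)
    have h2 := he.up (i + k) (by omega)
    calc e i * e (i + (k + 1)) = e i * e (i + k) * e (i + k + 1) := by rw [h1]; rfl
      _ = e i * (e (i + k) * e (i + k + 1)) := by rw [mul_assoc]
      _ = e i := by rw [h2, h1]

private theorem Adapted.down' {r : ℕ} {F : ℕ → Submodule ℝ E} {e : ℕ → Alg E}
    (he : Adapted r F e) (i : ℕ) : ∀ k, i + k ≤ r → e (i + k) * e i = e i := by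
  intro k
  induction k with
  | zero => intro h; exact he.idem i h
  | succ k ih =>
    intro h
    have h1 := ih (by omega)
    have h2 := he.down (i + k) (by omega)
    calc e (i + (k + 1)) * e i = e (i + k + 1) * (e (i + k) * e i) := by rw [h1]; rfl
      _ = (e (i + k + 1) * e (i + k)) * e i := by rw [mul_assoc]
      _ = e i := by rw [h2, h1]

/-- The algebra of one step of the induction. -/
private theorem step_alg {R : Type*} [Ring R] (e e' S φ : R) (he : e * e = e) (he' : e' * e' = e')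
    (h1 : e * e' = e) (h2 : e' * e = e) (hS1 : (e' - e) * S = 0) (hS2 : S * (e' - e) = 0)
    (hinv : (1 - e') * φ * e' = 0) :
    (e' - e) * (S + (1 - e) * φ * (1 - e)) * (e' - e) = (e' - e) * φ * (e' - e) ∧
    (1 - (e' - e)) * (S + (1 - e) * φ * (1 - e)) * (e' - e) = 0 ∧
    (1 - (e' - e)) * (S + (1 - e) * φ * (1 - e)) * (1 - (e' - e)) =
      S + (1 - e') * φ * (1 - e') := by
  have a1 : (e' - e) * (1 - e) = e' - e := by
    rw [mul_sub, mul_one, sub_mul, h2, he, sub_self, sub_zero]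
  have a2 : (1 - e) * (e' - e) = e' - e := by
    rw [sub_mul, one_mul, mul_sub, h1, he, sub_self, sub_zero]
  have a3 : (1 - (e' - e)) * (1 - e) = 1 - e' := by
    rw [sub_mul, one_mul, a1]; abel
  have a4 : (1 - e) * (1 - (e' - e)) = 1 - e' := by
    rw [mul_sub, mul_one, a2]; abel
  have a5 : e' * (e' - e) = e' - e := by rw [mul_sub, he', h2]
  have a6 : (1 - e') * φ * (e' - e) = 0 := by
    calc (1 - e') * φ * (e' - e) = (1 - e') * φ * (e' * (e' - e)) := by rw [a5]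
      _ = (1 - e') * φ * e' * (e' - e) := by rw [← mul_assoc]
      _ = 0 := by rw [hinv, zero_mul]
  refine ⟨?_, ?_, ?_⟩
  · calc (e' - e) * (S + (1 - e) * φ * (1 - e)) * (e' - e)
        = (e' - e) * S * (e' - e) + ((e' - e) * (1 - e)) * φ * ((1 - e) * (e' - e)) := by
          rw [mul_add, add_mul]; simp only [mul_assoc]
      _ = _ := by rw [hS1, zero_mul, zero_add, a1, a2]
  · calc (1 - (e' - e)) * (S + (1 - e) * φ * (1 - e)) * (e' - e)
        = (1 - (e' - e)) * (S * (e' - e)) +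
          ((1 - (e' - e)) * (1 - e)) * φ * ((1 - e) * (e' - e)) := by
          rw [mul_add, add_mul]; simp only [mul_assoc]
      _ = _ := by rw [hS2, mul_zero, zero_add, a3, a2, a6]
  · calc (1 - (e' - e)) * (S + (1 - e) * φ * (1 - e)) * (1 - (e' - e))
        = (1 - (e' - e)) * S * (1 - (e' - e)) +
          ((1 - (e' - e)) * (1 - e)) * φ * ((1 - e) * (1 - (e' - e))) := by
          rw [mul_add, add_mul]; simp only [mul_assoc]
      _ = _ := by
          rw [sub_mul 1 (e' - e) S, hS1, one_mul, sub_zero, mul_sub S, hS2, mul_one, sub_zero,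
            a3, a4]

theorem flag_tau (D : Geo E) (r : ℕ) (F : ℕ → Submodule ℝ E) (h0 : F 0 = ⊥) (e : ℕ → Alg E)
    (he : Adapted r F e) (hinv : ∀ i ≤ r, ∀ g ∈ D.Γ, ∀ v ∈ F i, g.linear v ∈ F i)
    (c : ℕ → D.Γ → ℝ) (hc : ∀ i < r, PosMul (c i)) :
    HasAbNormal D.Γ ∨ ∃ τ : D.Γ →* Alg E,
      (∀ g, τ g = ∑ i ∈ Finset.range r, cut (hatHom D.Γ) (e (i + 1) - e i) (c i) g +
        (1 - e r) * hatHom D.Γ g * (1 - e r)) ∧ Disc τ := by
  have htf : ∀ (g : D.Γ) (m : ℕ), 0 < m → g ^ m = 1 → g = 1 := by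
    intro g m hm h
    apply Subtype.ext
    exact eq_one_of_pow D g.1 g.2 m hm (congrArg Subtype.val h)
  have : FiniteDimensional ℝ (Alg E) := ContinuousLinearMap.finiteDimensional
  have key : ∀ n ≤ r, HasAbNormal D.Γ ∨ ∃ τ : D.Γ →* Alg E,
      (∀ g, τ g = ∑ i ∈ Finset.range n, cut (hatHom D.Γ) (e (i + 1) - e i) (c i) g +
        (1 - e n) * hatHom D.Γ g * (1 - e n)) ∧ Disc τ := by
    intro n
    induction n with
    | zero =>
      intro _
      have he0 : e 0 = 0 := by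
        apply ContinuousLinearMap.ext
        intro v
        have h5 : e 0 (e 0 v) = e 0 v :=
          congrArg (fun T : Alg E => T v) (he.idem 0 (Nat.zero_le _))
        have h6 := (he.range 0 (Nat.zero_le _) _).mp h5
        rw [h0, Submodule.mem_bot] at h6
        exact Prod.ext h6.2 h6.1
      refine Or.inr ⟨hatHom D.Γ, ?_, ?_⟩
      · intro g
        rw [he0, Finset.sum_range_zero, sub_zero, one_mul, mul_one, zero_add]
      · intro C
        have := disc_of_geo D C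
        simp only [sub_zero, one_mul, mul_one] at this
        exact this
    | succ n ih =>
      intro hn
      rcases ih (by omega) with h | ⟨τ, hτ, hd⟩
      · exact Or.inl h
      have hnn : e n * e n = e n := he.idem n (by omega)
      have hn1 : e (n + 1) * e (n + 1) = e (n + 1) := he.idem (n + 1) hn
      have hup : e n * e (n + 1) = e n := he.up n (by omega)
      have hdown : e (n + 1) * e n = e n := he.down n (by omega)
      set f : Alg E := e (n + 1) - e n with hf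
      have hfe : f * e n = 0 := by rw [hf, sub_mul, hdown, hnn, sub_self]
      have hef : e n * f = 0 := by rw [hf, mul_sub, hup, hnn, sub_self]
      have hff : f * f = f := by
        have h3 : f * (e (n + 1) - e n) = f := by
          rw [mul_sub, hfe, sub_zero, hf, sub_mul, hn1, hup]
        exact h3
      have hS1 : ∀ g, f * ∑ i ∈ Finset.range n, cut (hatHom D.Γ) (e (i + 1) - e i) (c i) g
          = 0 := by
        intro g
        rw [Finset.mul_sum]
        refine Finset.sum_eq_zero fun j hj => ?_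
        rw [Finset.mem_range] at hj
        obtain ⟨k, rfl⟩ : ∃ k, n = j + 1 + k := ⟨n - (j + 1), by omega⟩
        have h3 : e (j + 1 + k) * e (j + 1) = e (j + 1) := he.down' (j + 1) k (by omega)
        have h4 : e (j + 1 + k) * e j = e j := by
          have := he.down' j (1 + k) (by omega)
          rw [← add_assoc] at this
          exact this
        have h5 : f * (e (j + 1) - e j) = 0 := by
          calc f * (e (j + 1) - e j) = f * (e (j + 1 + k) * (e (j + 1) - e j)) := by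
                rw [mul_sub (e (j + 1 + k)), h3, h4]
            _ = f * e (j + 1 + k) * (e (j + 1) - e j) := by rw [mul_assoc]
            _ = 0 := by rw [hfe, zero_mul]
        rw [cut, mul_smul_comm, ← mul_assoc, ← mul_assoc, h5, zero_mul, zero_mul, smul_zero]
      have hS2 : ∀ g, (∑ i ∈ Finset.range n, cut (hatHom D.Γ) (e (i + 1) - e i) (c i) g) * f
          = 0 := by
        intro g
        rw [Finset.sum_mul]
        refine Finset.sum_eq_zero fun j hj => ?_
        rw [Finset.mem_range] at hj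
        obtain ⟨k, rfl⟩ : ∃ k, n = j + 1 + k := ⟨n - (j + 1), by omega⟩
        have h3 : e (j + 1) * e (j + 1 + k) = e (j + 1) := he.up' (j + 1) k (by omega)
        have h4 : e j * e (j + 1 + k) = e j := by
          have := he.up' j (1 + k) (by omega)
          rw [← add_assoc] at this
          exact this
        have h5 : (e (j + 1) - e j) * f = 0 := by
          calc (e (j + 1) - e j) * f = (e (j + 1) - e j) * e (j + 1 + k) * f := by
                rw [sub_mul _ _ (e (j + 1 + k)), h3, h4]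
            _ = (e (j + 1) - e j) * (e (j + 1 + k) * f) := by rw [mul_assoc]
            _ = 0 := by rw [hef, mul_zero]
        rw [cut, smul_mul_assoc, mul_assoc, h5, mul_zero, smul_zero]
      have hinvn : ∀ g : D.Γ, (1 - e (n + 1)) * hatHom D.Γ g * e (n + 1) = 0 := fun g =>
        Flag.hinv_of_range D (F (n + 1)) (e (n + 1)) hn1 (he.range (n + 1) hn)
          (hinv (n + 1) hn) g
      have halg := fun g : D.Γ => step_alg (e n) (e (n + 1))
        (∑ i ∈ Finset.range n, cut (hatHom D.Γ) (e (i + 1) - e i) (c i) g) (hatHom D.Γ g)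
        hnn hn1 hup hdown (hS1 g) (hS2 g) (hinvn g)
      rcases strip τ htf hd f hff (fun g => by rw [hτ g]; exact (halg g).2.1) (c n)
        (hc n (by omega)) with h | ⟨τ', hτ', hd'⟩
      · exact Or.inl h
      · refine Or.inr ⟨τ', ?_, hd'⟩
        intro g
        have h3 : cut τ f (c n) g = cut (hatHom D.Γ) f (c n) g := by
          unfold cut
          rw [hτ g, (halg g).1]
        rw [hτ' g, h3, hτ g, (halg g).2.2, Finset.sum_range_succ]
        abel
  exact key r le_rfl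

end

end Pool.AF
end

/- Helper16.LDA.H94.AF.Count -/
section
open Set Finset

set_option linter.unusedSectionVars false

namespace Pool.AF

/-! ## AF-14 COUNT: polynomial growth of a discrete linear group -/

/-- Counting: `#{g | ‖τ g‖ ≤ R, ‖τ g⁻¹‖ ≤ R}` grows at most polynomially in `R` (points at mutual
distance at least `δ / R` in a ball of radius `R`). -/
theorem exists_count {Γ R : Type*} [Group Γ] [NormedRing R] [NormedAlgebra ℝ R]
    [FiniteDimensional ℝ R] (τ : Γ →* R) (hd : Disc τ) :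
    ∃ (A : ℝ) (M : ℕ), ∀ C : ℝ, 1 ≤ C →
      (Set.ncard {g : Γ | ‖τ g‖ ≤ C ∧ ‖τ g⁻¹‖ ≤ C} : ℝ) ≤ A * C ^ M := by
  classical
  have hinv : ∀ g, τ g * τ g⁻¹ = 1 := fun g => by rw [← map_mul, mul_inv_cancel, map_one]
  have hinv' : ∀ g, τ g⁻¹ * τ g = 1 := fun g => by rw [← map_mul, inv_mul_cancel, map_one]
  have hker : {g : Γ | τ g = 1}.Finite := by
    refine (hd ‖(1 : R)‖).subset (fun g hg => ?_)
    have hg' : τ g = 1 := hg
    have h1 : τ g⁻¹ = 1 := by
      have := hinv g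
      rwa [hg', one_mul] at this
    exact ⟨by rw [hg'], by rw [h1]⟩
  obtain ⟨δ, hδ0, hδ⟩ : ∃ δ : ℝ, 0 < δ ∧ ∀ g, ‖τ g - 1‖ < δ → τ g = 1 := by
    have hF : {g : Γ | ‖τ g‖ ≤ 2 * ‖(1 : R)‖ + 1 ∧ ‖τ g⁻¹‖ ≤ 2 * ‖(1 : R)‖ + 1}.Finite := hd _
    have hmem : ∀ g, ‖τ g - 1‖ < 1 / 2 →
        g ∈ {g : Γ | ‖τ g‖ ≤ 2 * ‖(1 : R)‖ + 1 ∧ ‖τ g⁻¹‖ ≤ 2 * ‖(1 : R)‖ + 1} := by
      intro g hg
      have h0 : 0 ≤ ‖(1 : R)‖ := norm_nonneg _
      constructor
      · have : τ g = 1 + (τ g - 1) := by abel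
        rw [this]
        have := norm_add_le (1 : R) (τ g - 1)
        (clear * - hg h0 this; linarith only [hg, h0, this])
      · have e : τ g⁻¹ = 1 + (1 - τ g) * τ g⁻¹ := by
          rw [sub_mul, one_mul, hinv]
          abel
        have h1 : ‖τ g⁻¹‖ ≤ ‖(1 : R)‖ + ‖(1 - τ g) * τ g⁻¹‖ := by
          conv_lhs => rw [e]
          exact norm_add_le _ _
        have h2 : ‖(1 - τ g) * τ g⁻¹‖ ≤ 1 / 2 * ‖τ g⁻¹‖ := by
          refine (norm_mul_le _ _).trans ?_
          refine mul_le_mul_of_nonneg_right ?_ (norm_nonneg _)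
          rw [norm_sub_rev]
          exact hg.le
        linarith only [h1, h2]
    set T : Finset Γ := hF.toFinset.filter (fun g => τ g ≠ 1) with hT
    rcases T.eq_empty_or_nonempty with hTe | hTn
    · refine ⟨1 / 2, by norm_num, fun g hg => ?_⟩
      by_contra hne
      have : g ∈ T := by
        rw [hT, Finset.mem_filter, Set.Finite.mem_toFinset]
        exact ⟨hmem g hg, hne⟩
      rw [hTe] at this
      simp at this
    · obtain ⟨g₀, hg₀, hmin⟩ := Finset.exists_min_image T (fun g => ‖τ g - 1‖) hTn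
      have hpos : 0 < ‖τ g₀ - 1‖ := by
        rw [hT, Finset.mem_filter] at hg₀
        exact norm_pos_iff.mpr (sub_ne_zero.mpr hg₀.2)
      refine ⟨min (1 / 2) ‖τ g₀ - 1‖, lt_min (by norm_num) hpos, fun g hg => ?_⟩
      by_contra hne
      have : g ∈ T := by
        rw [hT, Finset.mem_filter, Set.Finite.mem_toFinset]
        exact ⟨hmem g (hg.trans_le (min_le_left _ _)), hne⟩
      have h1 := hmin g this
      have h2 := hg.trans_le (min_le_right _ _)
      linarith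
  set D := Module.finrank ℝ R with hD
  let e : R ≃L[ℝ] (Fin D → ℝ) := ContinuousLinearEquiv.ofFinrankEq (by simp [hD])
  set K₁ : ℝ := ‖(e : R →L[ℝ] (Fin D → ℝ))‖ with hK₁
  set K₂' : ℝ := ‖(e.symm : (Fin D → ℝ) →L[ℝ] R)‖ with hK₂'
  have hK₁0 : 0 ≤ K₁ := norm_nonneg _
  have hK₂0 : 0 ≤ K₂' := norm_nonneg _
  set c : ℝ := (K₂' + 1) / δ with hc
  have hc0 : 0 < c := by (clear * - hδ0; positivity)
  set k : ℕ := hker.toFinset.card with hk
  refine ⟨k * (2 * K₁ * c + 5) ^ D, 2 * D, fun C hC => ?_⟩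
  have hC0 : 0 < C := by linarith
  have hfin : {g : Γ | ‖τ g‖ ≤ C ∧ ‖τ g⁻¹‖ ≤ C}.Finite := hd C
  rw [Set.ncard_eq_toFinset_card _ hfin]
  set S := hfin.toFinset with hS
  have hSmem : ∀ g, g ∈ S ↔ ‖τ g‖ ≤ C ∧ ‖τ g⁻¹‖ ≤ C := fun g => by
    rw [hS, Set.Finite.mem_toFinset]
    rfl
  let f : Γ → (Fin D → ℤ) := fun g i => ⌊(e (τ g)) i * (c * C)⌋
  have hfib : ∀ g ∈ S, ∀ g' ∈ S, f g = f g' → τ (g⁻¹ * g') = 1 := by
    intro g hg g' hg' hff
    apply hδ
    have h1 : ‖e (τ g') - e (τ g)‖ ≤ 1 / (c * C) := by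
      rw [pi_norm_le_iff_of_nonneg (by (clear * - hδ0 hC; positivity))]
      intro i
      rw [Real.norm_eq_abs, Pi.sub_apply, le_div_iff₀ (by (clear * - hδ0 hC; positivity))]
      have h2 : ⌊(e (τ g)) i * (c * C)⌋ = ⌊(e (τ g')) i * (c * C)⌋ := congrFun hff i
      have h3 := Int.abs_sub_lt_one_of_floor_eq_floor h2
      have h4 : |e (τ g') i - e (τ g) i| * (c * C) =
          |(e (τ g)) i * (c * C) - (e (τ g')) i * (c * C)| := by
        rw [← sub_mul, abs_mul, abs_of_pos (show 0 < c * C by (clear * - hδ0 hC; positivity)), abs_sub_comm]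
      rw [h4]
      exact h3.le
    have h2 : ‖τ g' - τ g‖ ≤ K₂' * (1 / (c * C)) := by
      have h3 : τ g' - τ g = e.symm (e (τ g') - e (τ g)) := by
        rw [map_sub, e.symm_apply_apply, e.symm_apply_apply]
      rw [h3]
      exact ((e.symm : (Fin D → ℝ) →L[ℝ] R).le_opNorm _).trans
        (mul_le_mul_of_nonneg_left h1 hK₂0)
    have h3 : τ (g⁻¹ * g') - 1 = τ g⁻¹ * (τ g' - τ g) := by
      rw [map_mul, mul_sub, hinv']
    rw [h3]
    calc ‖τ g⁻¹ * (τ g' - τ g)‖ ≤ ‖τ g⁻¹‖ * ‖τ g' - τ g‖ := norm_mul_le _ _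
      _ ≤ C * (K₂' * (1 / (c * C))) :=
          mul_le_mul ((hSmem g).mp hg).2 h2 (norm_nonneg _) hC0.le
      _ = δ * (K₂' / (K₂' + 1)) := by
          rw [hc]
          (clear * - hC hδ0 hK₂0; field_simp)
      _ < δ * 1 := by
          refine mul_lt_mul_of_pos_left ?_ hδ0
          rw [div_lt_one (by linarith only [hK₂0])]
          (clear * -; linarith)
      _ = δ := mul_one _
  set n : ℕ := ⌈K₁ * c * C ^ 2⌉₊ + 1 with hn
  have himg : S.image f ⊆ Fintype.piFinset (fun _ : Fin D => Finset.Icc (-(n : ℤ)) n) := by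
    intro v hv
    obtain ⟨g, hg, rfl⟩ := Finset.mem_image.mp hv
    rw [Fintype.mem_piFinset]
    intro i
    have h1 : |(e (τ g)) i * (c * C)| ≤ K₁ * c * C ^ 2 := by
      rw [abs_mul, abs_of_pos (show 0 < c * C by (clear * - hδ0 hC; positivity))]
      have h2 : |(e (τ g)) i| ≤ K₁ * C := by
        rw [← Real.norm_eq_abs]
        refine (norm_le_pi_norm _ i).trans ?_
        exact ((e : R →L[ℝ] (Fin D → ℝ)).le_opNorm _).trans
          (mul_le_mul_of_nonneg_left ((hSmem g).mp hg).1 hK₁0)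
      calc |(e (τ g)) i| * (c * C) ≤ K₁ * C * (c * C) :=
            mul_le_mul_of_nonneg_right h2 (by (clear * - hδ0 hC; positivity))
        _ = K₁ * c * C ^ 2 := by ring
    have h3 : K₁ * c * C ^ 2 ≤ (⌈K₁ * c * C ^ 2⌉₊ : ℝ) := Nat.le_ceil _
    have h4 := abs_le.mp h1
    rw [Finset.mem_Icc]
    constructor
    · rw [Int.le_floor]
      push_cast [hn]
      linarith only [h3, h4]
    · have h5 : ((f g i : ℤ) : ℝ) ≤ (e (τ g)) i * (c * C) := Int.floor_le _
      have h6 : ((f g i : ℤ) : ℝ) ≤ ((n : ℤ) : ℝ) := by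
        push_cast [hn]
        (clear * - h3 h4 h5; linarith only [h3, h4, h5])
      exact_mod_cast h6
  have hcard1 : (S.image f).card ≤ (2 * n + 1) ^ D := by
    refine (Finset.card_le_card himg).trans ?_
    rw [Fintype.card_piFinset]
    simp only [Int.card_Icc, Finset.prod_const, Finset.card_univ, Fintype.card_fin]
    refine Nat.pow_le_pow_left ?_ D
    omega
  have hcard2 : S.card ≤ k * (S.image f).card := by
    refine Finset.card_le_mul_card_image S k ?_
    intro v hv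
    obtain ⟨g, hg, rfl⟩ := Finset.mem_image.mp hv
    rw [hk]
    refine Finset.card_le_card_of_injOn (fun g' => g⁻¹ * g') ?_ ?_
    · intro g' hg'
      have hg'' := Finset.mem_filter.mp hg'
      rw [Finset.mem_coe, Set.Finite.mem_toFinset]
      exact hfib g hg g' hg''.1 hg''.2.symm
    · intro x _ y _ hxy
      exact mul_left_cancel hxy
  have hn1 : (n : ℝ) ≤ K₁ * c * C ^ 2 + 2 := by
    have := Nat.ceil_lt_add_one (show 0 ≤ K₁ * c * C ^ 2 by (clear * - hδ0 hC; positivity))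
    rw [hn]
    push_cast
    linarith only [this]
  have hC2 : 1 ≤ C ^ 2 := by (clear * - hC; nlinarith only [hC])
  calc (S.card : ℝ) ≤ ((k * (S.image f).card : ℕ) : ℝ) := by exact_mod_cast hcard2
    _ = k * ((S.image f).card : ℝ) := by push_cast; ring
    _ ≤ k * ((2 * n + 1 : ℝ) ^ D) := by
        refine mul_le_mul_of_nonneg_left ?_ (Nat.cast_nonneg k)
        exact_mod_cast hcard1
    _ ≤ k * (((2 * K₁ * c + 5) * C ^ 2) ^ D) := by
        refine mul_le_mul_of_nonneg_left ?_ (Nat.cast_nonneg k)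
        refine pow_le_pow_left₀ (by (clear * -; positivity)) ?_ D
        linarith only [hn1, hC2]
    _ = k * (2 * K₁ * c + 5) ^ D * C ^ (2 * D) := by
        rw [mul_pow, ← pow_mul]
        ring

end Pool.AF
end

/- Helper16.LDA.H94.AF.Summ -/
section
open Set Finset

set_option linter.unusedSectionVars false

namespace Pool.AF

/-! ## AF-14b SUMM: summability (uses `exists_count`) -/

theorem summable_of_grow {Γ R : Type*} [Group Γ] [NormedRing R] [NormedAlgebra ℝ R]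
    [FiniteDimensional ℝ R] (τ : Γ →* R) (hd : Disc τ) (b : ℕ) :
    ∃ N₀ : ℕ, ∀ N ≥ N₀, ∀ s : Γ → ℝ, Grow τ s b → Summable (fun g => (s g)⁻¹ ^ N) := by
  classical
  obtain ⟨A, M, hA⟩ := exists_count τ hd
  refine ⟨b * M + 2, ?_⟩
  intro N hN s hs
  obtain ⟨A', hA', hg⟩ := hs
  have hspos : ∀ g, 0 < s g := fun g => lt_of_lt_of_le (inv_pos.mpr hA') (hg g).1
  set A'' : ℝ := max A' 1 with hA''
  have hA1 : 1 ≤ A'' := le_max_right _ _
  have hA2 : A' ≤ A'' := le_max_left _ _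
  set D : ℝ := |A| * A'' ^ M * (1 + A') ^ N with hD
  have hD0 : 0 ≤ D := by positivity
  have hsum0 : Summable (fun k : ℕ => (1 : ℝ) / ((k : ℝ) + 1) ^ 2) := by
    have h1 : Summable (fun k : ℕ => (1 : ℝ) / (k : ℝ) ^ 2) :=
      Real.summable_one_div_nat_pow.mpr (by norm_num)
    have h2 := (summable_nat_add_iff 1).mpr h1
    refine h2.congr fun k => ?_
    push_cast
    rfl
  have hsum : Summable (fun k : ℕ => D * ((1 : ℝ) / ((k : ℝ) + 1) ^ 2)) := hsum0.mul_left D
  refine summable_of_sum_le (c := ∑' k : ℕ, D * ((1 : ℝ) / ((k : ℝ) + 1) ^ 2)) ?_ ?_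
  · intro g
    have := hspos g
    positivity
  · intro u
    have hfib : ∀ k : ℕ, (((u.filter fun g => ⌊s g⌋₊ = k).card : ℕ) : ℝ) ≤
        |A| * A'' ^ M * ((k : ℝ) + 1) ^ (b * M) := by
      intro k
      have hk1 : (1 : ℝ) ≤ (k : ℝ) + 1 := by
        have : (0 : ℝ) ≤ k := Nat.cast_nonneg k
        linarith
      have hC1 : 1 ≤ A'' * ((k : ℝ) + 1) ^ b :=
        one_le_mul_of_one_le_of_one_le hA1 (one_le_pow₀ hk1)
      have h1 := hA (A'' * ((k : ℝ) + 1) ^ b) hC1
      have h2 : ((u.filter fun g => ⌊s g⌋₊ = k : Finset Γ) : Set Γ) ⊆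
          {g : Γ | ‖τ g‖ ≤ A'' * ((k : ℝ) + 1) ^ b ∧ ‖τ g⁻¹‖ ≤ A'' * ((k : ℝ) + 1) ^ b} := by
        intro g hgu
        rw [Finset.mem_coe, Finset.mem_filter] at hgu
        have h3 : s g ≤ (k : ℝ) + 1 := by
          have := Nat.lt_floor_add_one (s g)
          rw [hgu.2] at this
          exact this.le
        have h4 : s g ^ b ≤ ((k : ℝ) + 1) ^ b := pow_le_pow_left₀ (hspos g).le h3 b
        have h5 : A' * s g ^ b ≤ A'' * ((k : ℝ) + 1) ^ b := by
          have := (hspos g).le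
          (clear * - hA2 h4 this hA'; gcongr)
        exact ⟨(hg g).2.1.trans h5, (hg g).2.2.trans h5⟩
      have h6 := Set.ncard_le_ncard h2 (hd _)
      rw [Set.ncard_coe_finset] at h6
      have h7 : (((u.filter fun g => ⌊s g⌋₊ = k).card : ℕ) : ℝ) ≤
          A * (A'' * ((k : ℝ) + 1) ^ b) ^ M := by
        refine le_trans ?_ h1
        exact_mod_cast h6
      refine h7.trans ?_
      have h8 : A * (A'' * ((k : ℝ) + 1) ^ b) ^ M ≤ |A| * (A'' * ((k : ℝ) + 1) ^ b) ^ M := by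
        gcongr
        exact le_abs_self A
      refine h8.trans (le_of_eq ?_)
      rw [mul_pow, ← pow_mul, mul_assoc]
    have hterm : ∀ g, (s g)⁻¹ ^ N ≤ ((1 + A') / ((⌊s g⌋₊ : ℝ) + 1)) ^ N := by
      intro g
      have hs0 := hspos g
      have hpos : (0 : ℝ) < (⌊s g⌋₊ : ℝ) + 1 := by positivity
      refine pow_le_pow_left₀ (inv_nonneg.mpr hs0.le) ?_ N
      rw [le_div_iff₀ hpos, inv_mul_le_iff₀ hs0]
      have h1 : (⌊s g⌋₊ : ℝ) ≤ s g := Nat.floor_le hs0.le
      have h2 : 1 ≤ s g * A' := by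
        have := (hg g).1
        rw [inv_le_iff_one_le_mul₀ hA'] at this
        exact this
      linarith only [h1, h2]
    calc ∑ g ∈ u, (s g)⁻¹ ^ N ≤ ∑ g ∈ u, ((1 + A') / ((⌊s g⌋₊ : ℝ) + 1)) ^ N :=
          Finset.sum_le_sum fun g _ => hterm g
      _ = ∑ k ∈ u.image (fun g => ⌊s g⌋₊), ∑ g ∈ u with ⌊s g⌋₊ = k,
            ((1 + A') / ((⌊s g⌋₊ : ℝ) + 1)) ^ N :=
          (Finset.sum_fiberwise_of_maps_to (fun g hg => Finset.mem_image_of_mem _ hg) _).symm
      _ ≤ ∑ k ∈ u.image (fun g => ⌊s g⌋₊), D * ((1 : ℝ) / ((k : ℝ) + 1) ^ 2) := by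
          refine Finset.sum_le_sum fun k _ => ?_
          have hk1 : (1 : ℝ) ≤ (k : ℝ) + 1 := by
            have : (0 : ℝ) ≤ k := Nat.cast_nonneg k
            linarith
          have hk0 : (0 : ℝ) < (k : ℝ) + 1 := by linarith
          have h1 : ∑ g ∈ u with ⌊s g⌋₊ = k, ((1 + A') / ((⌊s g⌋₊ : ℝ) + 1)) ^ N =
              ((u.filter fun g => ⌊s g⌋₊ = k).card : ℝ) * ((1 + A') / ((k : ℝ) + 1)) ^ N := by
            rw [← nsmul_eq_mul, ← Finset.sum_const]
            refine Finset.sum_congr rfl fun g hgu => ?_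
            rw [Finset.mem_filter] at hgu
            rw [hgu.2]
          rw [h1]
          have h2 : ((k : ℝ) + 1) ^ (b * M) * ((1 : ℝ) / ((k : ℝ) + 1)) ^ N ≤
              1 / ((k : ℝ) + 1) ^ 2 := by
            rw [div_pow, one_pow, mul_one_div, div_le_div_iff₀ (by positivity) (by positivity),
              one_mul, ← pow_add]
            exact pow_le_pow_right₀ hk1 hN
          calc ((u.filter fun g => ⌊s g⌋₊ = k).card : ℝ) * ((1 + A') / ((k : ℝ) + 1)) ^ N
              ≤ (|A| * A'' ^ M * ((k : ℝ) + 1) ^ (b * M)) * ((1 + A') / ((k : ℝ) + 1)) ^ N := by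
                gcongr
                exact hfib k
            _ = D * (((k : ℝ) + 1) ^ (b * M) * ((1 : ℝ) / ((k : ℝ) + 1)) ^ N) := by
                rw [hD, div_pow, div_pow, one_pow]; ring
            _ ≤ D * (1 / ((k : ℝ) + 1) ^ 2) := by gcongr
      _ ≤ ∑' k : ℕ, D * ((1 : ℝ) / ((k : ℝ) + 1) ^ 2) :=
          hsum.sum_le_tsum _ (fun k _ => by (clear * - hA'; positivity))

end Pool.AF
end

/- Helper16.LDA.H94.AG.DomSum -/
section
open Set Finset

set_option linter.unusedSectionVars false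

namespace Pool.AF

/-! ## AG-3 DOMSUM: summability from several representations (apply `summable_of_grow` to the
homomorphism into the product algebra `(∀ j, ℝ^{d_j} →L ℝ^{d_j}) × R₀`; cf. `grow_sum`) -/

/-- the homomorphism of a representation into the continuous linear maps -/
private noncomputable def contHom {G : Type*} [Group G] (n : ℕ)
    (ρ : G →* ((Fin n → ℝ) →ₗ[ℝ] (Fin n → ℝ))) : G →* ((Fin n → ℝ) →L[ℝ] (Fin n → ℝ)) where
  toFun g := LinearMap.toContinuousLinearMap (ρ g)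
  map_one' := by
    ext v i
    simp
  map_mul' g h := by
    ext v i
    simp

private lemma prod_le_pow {k : ℕ} {s : Fin k → ℝ} {s₀ A : ℝ} (hA : 1 ≤ A)
    (hs : ∀ j, A⁻¹ ≤ s j) (hs₀ : A⁻¹ ≤ s₀) :
    (A ^ (k + 1))⁻¹ ≤ s₀ * ∏ j, s j ∧ s₀ ≤ A ^ (k + 1) * (s₀ * ∏ j, s j) ∧
      ∀ j, s j ≤ A ^ (k + 1) * (s₀ * ∏ i, s i) := by
  have hA0 : 0 < A := by (clear * - hA; linarith only [hA])
  have hi : 0 < A⁻¹ := inv_pos.2 hA0
  have s0 : 0 < s₀ := hi.trans_le hs₀
  have sj : ∀ j, 0 < s j := fun j => hi.trans_le (hs j)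
  have hprod : (A ^ k)⁻¹ ≤ ∏ j, s j := by
    calc (A ^ k)⁻¹ = ∏ _j : Fin k, A⁻¹ := by
          rw [Finset.prod_const, Finset.card_univ, Fintype.card_fin, inv_pow]
      _ ≤ ∏ j, s j := Finset.prod_le_prod (fun _ _ => hi.le) fun j _ => hs j
  have hprod0 : 0 < ∏ j, s j := Finset.prod_pos fun j _ => sj j
  have hk0 : 0 < A ^ k := by positivity
  have h1 : 1 ≤ A ^ k * ∏ j, s j := by
    calc (1 : ℝ) = A ^ k * (A ^ k)⁻¹ := (mul_inv_cancel₀ hk0.ne').symm
      _ ≤ A ^ k * ∏ j, s j := by gcongr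
  refine ⟨?_, ?_, ?_⟩
  · rw [pow_succ, mul_inv, mul_comm]
    gcongr
  · calc s₀ = 1 * s₀ * 1 := by ring
      _ ≤ (A ^ k * ∏ j, s j) * s₀ * A := by gcongr
      _ = A ^ (k + 1) * (s₀ * ∏ j, s j) := by ring
  · intro j
    have hk : k = (k - 1) + 1 := by
      have := j.pos
      omega
    have h3 : (A ^ (k - 1))⁻¹ ≤ ∏ i ∈ Finset.univ.erase j, s i := by
      calc (A ^ (k - 1))⁻¹ = ∏ _i ∈ Finset.univ.erase j, A⁻¹ := by
            rw [Finset.prod_const, Finset.card_erase_of_mem (Finset.mem_univ j),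
              Finset.card_univ, Fintype.card_fin, inv_pow]
        _ ≤ ∏ i ∈ Finset.univ.erase j, s i :=
            Finset.prod_le_prod (fun _ _ => hi.le) fun i _ => hs i
    have h4 : ∏ i, s i = s j * ∏ i ∈ Finset.univ.erase j, s i :=
      (Finset.mul_prod_erase _ _ (Finset.mem_univ j)).symm
    have h30 : 0 < ∏ i ∈ Finset.univ.erase j, s i := Finset.prod_pos fun i _ => sj i
    have hk1 : 0 < A ^ (k - 1) := by positivity
    have h5 : 1 ≤ A ^ (k - 1) * ∏ i ∈ Finset.univ.erase j, s i := by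
      calc (1 : ℝ) = A ^ (k - 1) * (A ^ (k - 1))⁻¹ := (mul_inv_cancel₀ hk1.ne').symm
        _ ≤ A ^ (k - 1) * ∏ i ∈ Finset.univ.erase j, s i := by gcongr
    have h6 : 1 ≤ A * s₀ := by
      calc (1 : ℝ) = A * A⁻¹ := (mul_inv_cancel₀ hA0.ne').symm
        _ ≤ A * s₀ := by (clear * - hs₀ hA; gcongr)
    have h7 : A ^ (k + 1) = A ^ (k - 1) * A * A := by
      conv_lhs => rw [hk]
      rw [pow_succ, pow_succ]
    have hsj := sj j
    calc s j = 1 * 1 * 1 * s j := by ring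
      _ ≤ A * (A * s₀) * (A ^ (k - 1) * ∏ i ∈ Finset.univ.erase j, s i) * s j := by (clear * - hA h6 h5 s0 hsj; gcongr)
      _ = A ^ (k + 1) * (s₀ * ∏ i, s i) := by
          rw [h7, h4]
          ring

theorem summable_total {G R₀ : Type*} [Group G] [NormedRing R₀] [NormedAlgebra ℝ R₀]
    [FiniteDimensional ℝ R₀] (k : ℕ) (d : Fin k → ℕ)
    (ρ : ∀ j, G →* ((Fin (d j) → ℝ) →ₗ[ℝ] (Fin (d j) → ℝ))) (T : G →* R₀)
    (hfin : ∀ C : ℝ, {g : G | (∀ j, ‖LinearMap.toContinuousLinearMap (ρ j g)‖ ≤ C ∧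
      ‖LinearMap.toContinuousLinearMap (ρ j g⁻¹)‖ ≤ C) ∧ ‖T g‖ ≤ C ∧ ‖T g⁻¹‖ ≤ C}.Finite)
    (b : ℕ) :
    ∃ N₀ : ℕ, ∀ N ≥ N₀, ∀ (s : Fin k → G → ℝ) (s₀ : G → ℝ),
      (∀ j, Grow (fun g => LinearMap.toContinuousLinearMap (ρ j g)) (s j) b) → Grow T s₀ b →
      Summable (fun g => (s₀ g * ∏ j, s j g)⁻¹ ^ N) := by
  classical
  let R : Type _ := (∀ j : Fin k, (Fin (d j) → ℝ) →L[ℝ] (Fin (d j) → ℝ)) × R₀
  let τ : G →* (∀ j : Fin k, (Fin (d j) → ℝ) →L[ℝ] (Fin (d j) → ℝ)) × R₀ :=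
    (Pi.monoidHom fun j => contHom (d j) (ρ j)).prod T
  have hτ : ∀ g, τ g = (fun j => LinearMap.toContinuousLinearMap (ρ j g), T g) := fun g => rfl
  have hnorm : ∀ g (C : ℝ), 0 ≤ C → (‖τ g‖ ≤ C ↔
      (∀ j, ‖LinearMap.toContinuousLinearMap (ρ j g)‖ ≤ C) ∧ ‖T g‖ ≤ C) := by
    intro g C hC
    rw [hτ g, Prod.norm_mk, max_le_iff, pi_norm_le_iff_of_nonneg hC]
  have hd : Disc τ := by
    intro C
    refine (hfin (max C 0)).subset ?_
    rintro g ⟨h1, h2⟩
    have h3 := (hnorm g _ (le_max_right C 0)).1 (h1.trans (le_max_left _ _))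
    have h4 := (hnorm g⁻¹ _ (le_max_right C 0)).1 (h2.trans (le_max_left _ _))
    exact ⟨fun j => ⟨h3.1 j, h4.1 j⟩, h3.2, h4.2⟩
  obtain ⟨N₀, hN₀⟩ := summable_of_grow τ hd b
  refine ⟨N₀, fun N hN s s₀ hs hs₀ => hN₀ N hN _ ?_⟩
  obtain ⟨A₀, hA₀, hg₀⟩ := hs₀
  choose A hA hg using hs
  have hsum : 0 ≤ ∑ i, A i := Finset.sum_nonneg fun i _ => (hA i).le
  set B : ℝ := 1 + A₀ + ∑ i, A i with hB
  have hB1 : 1 ≤ B := by linarith
  have hB0 : 0 < B := by linarith
  have hAB : ∀ i, A i ≤ B := fun i => by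
    have h1 : A i ≤ ∑ i, A i := Finset.single_le_sum (fun j _ => (hA j).le) (Finset.mem_univ i)
    linarith
  have hA₀B : A₀ ≤ B := by linarith
  have key : ∀ g, (B ^ (k + 1))⁻¹ ≤ s₀ g * ∏ j, s j g ∧
      s₀ g ≤ B ^ (k + 1) * (s₀ g * ∏ j, s j g) ∧
      ∀ j, s j g ≤ B ^ (k + 1) * (s₀ g * ∏ i, s i g) := fun g =>
    prod_le_pow hB1 (fun j => (inv_anti₀ (hA j) (hAB j)).trans (hg j g).1)
      ((inv_anti₀ hA₀ hA₀B).trans (hg₀ g).1)
  have hBk : 0 < B ^ (k + 1) := by positivity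
  have hpos : ∀ g, 0 < s₀ g * ∏ j, s j g := fun g => (inv_pos.2 hBk).trans_le (key g).1
  have hs₀p : ∀ g, 0 < s₀ g := fun g => (inv_pos.2 hA₀).trans_le (hg₀ g).1
  have hsp : ∀ j g, 0 < s j g := fun j g => (inv_pos.2 (hA j)).trans_le (hg j g).1
  have est : ∀ g h : G, (∀ j, ‖LinearMap.toContinuousLinearMap (ρ j h)‖ ≤ A j * s j g ^ b) →
      ‖T h‖ ≤ A₀ * s₀ g ^ b →
      ‖τ h‖ ≤ (B ^ (k + 1) + B * (B ^ (k + 1)) ^ b) * (s₀ g * ∏ j, s j g) ^ b := by
    intro g h h1 h2
    have hP := hpos g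
    have h3 : ∀ x : ℝ, 0 ≤ x → x ≤ B ^ (k + 1) * (s₀ g * ∏ j, s j g) → ∀ a : ℝ, 0 ≤ a → a ≤ B →
        a * x ^ b ≤ (B ^ (k + 1) + B * (B ^ (k + 1)) ^ b) * (s₀ g * ∏ j, s j g) ^ b := by
      intro x hx0 hx a ha0 ha
      calc a * x ^ b ≤ B * (B ^ (k + 1) * (s₀ g * ∏ j, s j g)) ^ b := by (clear * - ha hx0 hx hA₀ hsum; gcongr)
        _ = (0 + B * (B ^ (k + 1)) ^ b) * (s₀ g * ∏ j, s j g) ^ b := by rw [mul_pow]; ring
        _ ≤ (B ^ (k + 1) + B * (B ^ (k + 1)) ^ b) * (s₀ g * ∏ j, s j g) ^ b := by (clear * - hBk hP; gcongr)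
    refine (hnorm h _ (by (clear * - hA₀ hsum hP; positivity))).2 ⟨fun j => ?_, ?_⟩
    · exact (h1 j).trans (h3 _ (hsp j g).le ((key g).2.2 j) _ (hA j).le (hAB j))
    · exact h2.trans (h3 _ (hs₀p g).le (key g).2.1 _ hA₀.le hA₀B)
  refine ⟨B ^ (k + 1) + B * (B ^ (k + 1)) ^ b, by (clear * - hA₀ hsum; positivity), fun g => ⟨?_, ?_, ?_⟩⟩
  · refine (inv_anti₀ hBk ?_).trans (key g).1
    have : 0 ≤ B * (B ^ (k + 1)) ^ b := by (clear * - hA₀ hsum; positivity)
    linarith
  · exact est g g (fun j => (hg j g).2.1) (hg₀ g).2.1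
  · exact est g g⁻¹ (fun j => (hg j g).2.2) (hg₀ g).2.2

end Pool.AF
end
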