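import Pool.Agent.Helper16.CPG.G05
import Pool.Agent.Helper16.CPG.G08

/- Helper16.LDA.H47.HP.Quo -/
section
/-! # Project HP: the quotient of a closed convex cone by its lineality space -/

set_option autoImplicit false

open Set

namespace Pool.Agent.Helper47.HP

/-- The lineality space of a convex cone. -/
private def quo_lin {F : Type*} [NormedAddCommGroup F] [NormedSpace ℝ F] (S : Set F)
    (h0 : (0 : F) ∈ S) (hadd : ∀ a ∈ S, ∀ b ∈ S, a + b ∈ S)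
    (hsmul : ∀ a ∈ S, ∀ t : ℝ, 0 ≤ t → t • a ∈ S) : Submodule ℝ F where
  carrier := {a | a ∈ S ∧ -a ∈ S}
  zero_mem' := ⟨h0, by simpa using h0⟩
  add_mem' := by
    rintro a b ⟨ha, ha'⟩ ⟨hb, hb'⟩
    refine ⟨hadd a ha b hb, ?_⟩
    have h := hadd _ ha' _ hb'
    have e : -(a + b) = -a + -b := by abel
    rw [e]; exact h
  smul_mem' := by
    rintro t a ⟨ha, ha'⟩
    rcases le_total 0 t with ht | ht
    · refine ⟨hsmul a ha t ht, ?_⟩
      have h := hsmul _ ha' t ht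
      rwa [smul_neg] at h
    · have ht' : 0 ≤ -t := by linarith
      refine ⟨?_, ?_⟩
      · have h := hsmul _ ha' (-t) ht'
        rwa [smul_neg, neg_smul, neg_neg] at h
      · have h := hsmul _ ha (-t) ht'
        rwa [neg_smul] at h

/-- Coordinates on the quotient `T / L`, extended to the whole space, with a section. -/
private theorem quo_coord {F : Type*} [NormedAddCommGroup F] [NormedSpace ℝ F]
    [FiniteDimensional ℝ F] (L T : Submodule ℝ F) (hLT : L ≤ T) :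
    ∃ (d : ℕ) (π : F →ₗ[ℝ] (Fin d → ℝ)) (s : (Fin d → ℝ) → F),
      (∀ v, s v ∈ T) ∧ (∀ v, π (s v) = v) ∧ (∀ x ∈ T, π x = 0 ↔ x ∈ L) ∧
      d + Module.finrank ℝ L = Module.finrank ℝ T := by
  classical
  set N : Submodule ℝ T := L.submoduleOf T with hN
  set b := Module.finBasis ℝ (T ⧸ N) with hb
  obtain ⟨π, hπ⟩ := LinearMap.exists_extend
    (b.equivFun.toLinearMap ∘ₗ N.mkQ : T →ₗ[ℝ] (Fin (Module.finrank ℝ (T ⧸ N)) → ℝ))
  have hπT : ∀ x : T, π (x : F) = b.equivFun (N.mkQ x) := by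
    intro x
    have h := LinearMap.congr_fun hπ x
    exact h
  have hsurj : ∀ v : Fin (Module.finrank ℝ (T ⧸ N)) → ℝ, ∃ x : T, π (x : F) = v := by
    intro v
    obtain ⟨x, hx⟩ := N.mkQ_surjective (b.equivFun.symm v)
    refine ⟨x, ?_⟩
    rw [hπT, hx]
    exact b.equivFun.apply_symm_apply v
  choose s hs using hsurj
  refine ⟨Module.finrank ℝ (T ⧸ N), π, fun v => (s v : F), fun v => (s v).2, hs, ?_, ?_⟩
  · intro x hx
    have h := hπT ⟨x, hx⟩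
    have h' : π x = b.equivFun (N.mkQ ⟨x, hx⟩) := h
    rw [h', LinearEquiv.map_eq_zero_iff, Submodule.mkQ_apply, Submodule.Quotient.mk_eq_zero]
    exact Iff.rfl
  · have h1 := Submodule.finrank_quotient_add_finrank N
    have h2 : Module.finrank ℝ N = Module.finrank ℝ L :=
      LinearEquiv.finrank_eq (Submodule.submoduleOfEquivOfLe hLT)
    rw [h2] at h1
    exact h1

/-- A direction in which a closed cone contains a half-line belongs to the cone. -/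
private theorem quo_dir {Q : Type*} [NormedAddCommGroup Q] [NormedSpace ℝ Q] (S : Set Q)
    (hS : IsClosed S) (hsmul : ∀ a ∈ S, ∀ t : ℝ, 0 ≤ t → t • a ∈ S) (x v : Q)
    (h : ∀ t : ℝ, 0 < t → x + t • v ∈ S) : v ∈ S := by
  have hlim : Filter.Tendsto (fun n : ℕ => ((n : ℝ) + 1)⁻¹ • x + v) Filter.atTop
      (nhds ((0 : ℝ) • x + v)) := by
    refine Filter.Tendsto.add (Filter.Tendsto.smul_const ?_ x) tendsto_const_nhds
    have h1 := tendsto_one_div_add_atTop_nhds_zero_nat (𝕜 := ℝ)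
    simpa [one_div] using h1
  rw [zero_smul, zero_add] at hlim
  refine hS.mem_of_tendsto hlim (Filter.Eventually.of_forall ?_)
  intro n
  have hn : (0 : ℝ) < (n : ℝ) + 1 := by positivity
  have h1 := hsmul _ (h ((n : ℝ) + 1) hn) (((n : ℝ) + 1)⁻¹) (by positivity)
  have e : ((n : ℝ) + 1)⁻¹ • (x + ((n : ℝ) + 1) • v) = ((n : ℝ) + 1)⁻¹ • x + v := by
    rw [smul_add, smul_smul, inv_mul_cancel₀ hn.ne', one_smul]
  rw [e] at h1
  exact h1

open scoped Pointwise in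
/-- The interior of a cone is a cone. -/
private theorem quo_int {Q : Type*} [NormedAddCommGroup Q] [NormedSpace ℝ Q] (S : Set Q)
    (hsmul : ∀ a ∈ S, ∀ t : ℝ, 0 ≤ t → t • a ∈ S) (v : Q) (hv : v ∈ interior S) (t : ℝ)
    (ht : 0 < t) : t • v ∈ interior S := by
  have h1 : t • v ∈ interior (t • S) := by
    rw [interior_smul₀ ht.ne']
    exact Set.smul_mem_smul_set hv
  refine interior_mono ?_ h1
  rintro _ ⟨a, ha, rfl⟩
  exact hsmul a ha t ht.le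

theorem exists_quot {G F : Type*} [Group G] [NormedAddCommGroup F] [NormedSpace ℝ F]
    [FiniteDimensional ℝ F] (ρ : G →* (F →ₗ[ℝ] F)) (S : Set F) (hS : IsClosed S)
    (h0 : (0 : F) ∈ S) (hadd : ∀ a ∈ S, ∀ b ∈ S, a + b ∈ S)
    (hsmul : ∀ a ∈ S, ∀ t : ℝ, 0 ≤ t → t • a ∈ S) (hinv : ∀ g, ∀ a ∈ S, ρ g a ∈ S)
    (e₁ : F) (he₁ : e₁ ∈ S) (he₁' : -e₁ ∉ S) :
    ∃ (d : ℕ) (σ : G →* ((Fin d → ℝ) →ₗ[ℝ] (Fin d → ℝ))) (π : F →ₗ[ℝ] (Fin d → ℝ))
      (C : Set (Fin d → ℝ)) (f : (Fin d → ℝ) →ₗ[ℝ] ℝ) (c : ℝ),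
      0 < d ∧ (∀ L T : Submodule ℝ F, (∀ a, a ∈ L ↔ a ∈ S ∧ -a ∈ S) → (∀ a ∈ S, a ∈ T) →
        d + Module.finrank ℝ L ≤ Module.finrank ℝ T) ∧
      (∀ g, ∀ a ∈ S, π (ρ g a) = σ g (π a)) ∧ (∀ a ∈ S, π a = 0 ↔ -a ∈ S) ∧
      IsOpen C ∧ Convex ℝ C ∧ C.Nonempty ∧ (∀ v ∈ C, ∀ t : ℝ, 0 < t → t • v ∈ C) ∧
      (∀ v, v ≠ 0 → ∃ x ∈ C, ∃ t : ℝ, x + t • v ∉ C) ∧ (∀ g, ∀ v ∈ C, σ g v ∈ C) ∧
      0 < c ∧ ∀ a ∈ S, c * ‖π a‖ ≤ f (π a) := by
  classical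
  set L0 : Submodule ℝ F := quo_lin S h0 hadd hsmul with hL0
  have memL : ∀ a, a ∈ L0 ↔ a ∈ S ∧ -a ∈ S := fun a => Iff.rfl
  set T0 : Submodule ℝ F := Submodule.span ℝ S with hT0
  have hST : ∀ a ∈ S, a ∈ T0 := fun a ha => Submodule.subset_span ha
  have hLT : L0 ≤ T0 := fun a ha => hST a ((memL a).1 ha).1
  obtain ⟨d, π, s, hsT, hsπ, hker, hdim⟩ := quo_coord L0 T0 hLT
  -- invariance
  have hinvT : ∀ g, ∀ a ∈ T0, ρ g a ∈ T0 := by
    intro g a ha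
    have h1 : T0 ≤ T0.comap (ρ g) := by
      rw [hT0]
      refine Submodule.span_le.2 ?_
      intro b hb
      exact hST _ (hinv g b hb)
    exact h1 ha
  have hinvL : ∀ g, ∀ a ∈ L0, ρ g a ∈ L0 := by
    intro g a ha
    obtain ⟨h1, h2⟩ := (memL a).1 ha
    refine (memL _).2 ⟨hinv g a h1, ?_⟩
    have h3 := hinv g _ h2
    rwa [map_neg] at h3
  -- equality of images
  have hsub : ∀ x ∈ T0, ∀ y ∈ T0, π x = π y → ∀ g, π (ρ g x) = π (ρ g y) := by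
    intro x hx y hy hxy g
    have h1 : x - y ∈ L0 := by
      refine (hker (x - y) (T0.sub_mem hx hy)).1 ?_
      rw [map_sub, hxy, sub_self]
    have h2 := hinvL g _ h1
    have h3 := (hker _ (hLT h2)).2 h2
    rw [map_sub, map_sub, sub_eq_zero] at h3
    exact h3
  -- the induced action
  let σf : G → ((Fin d → ℝ) →ₗ[ℝ] (Fin d → ℝ)) := fun g =>
    { toFun := fun v => π (ρ g (s v))
      map_add' := by
        intro v w
        have h1 := hsub (s (v + w)) (hsT _) (s v + s w) (T0.add_mem (hsT _) (hsT _)) (by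
          rw [map_add, hsπ, hsπ, hsπ]) g
        rw [h1, map_add, map_add]
      map_smul' := by
        intro t v
        have h1 := hsub (s (t • v)) (hsT _) (t • s v) (T0.smul_mem t (hsT _)) (by
          rw [map_smul, hsπ, hsπ]) g
        rw [h1, map_smul, map_smul]
        rfl }
  have hσf : ∀ g v, σf g v = π (ρ g (s v)) := fun g v => rfl
  have hσT : ∀ g, ∀ a ∈ T0, π (ρ g a) = σf g (π a) := by
    intro g a ha
    rw [hσf]
    exact hsub a ha _ (hsT _) (by rw [hsπ]) g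
  let σ : G →* ((Fin d → ℝ) →ₗ[ℝ] (Fin d → ℝ)) :=
    { toFun := σf
      map_one' := by
        refine LinearMap.ext ?_
        intro v
        rw [hσf, map_one]
        change π (s v) = v
        exact hsπ v
      map_mul' := by
        intro g h
        refine LinearMap.ext ?_
        intro v
        rw [hσf, map_mul]
        change π (ρ g (ρ h (s v))) = σf g (σf h v)
        rw [hσT g _ (hinvT h _ (hsT v)), hσf h v] }
  have hσ : ∀ g, ∀ a ∈ T0, π (ρ g a) = σ g (π a) := hσT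
  -- the image cone
  set Sq : Set (Fin d → ℝ) := π '' S with hSq
  have hpre : ∀ x ∈ T0, π x ∈ Sq → x ∈ S := by
    rintro x hx ⟨a, ha, hax⟩
    have h1 : x - a ∈ L0 := by
      refine (hker _ (T0.sub_mem hx (hST a ha))).1 ?_
      rw [map_sub, hax, sub_self]
    have h2 := hadd a ha _ ((memL _).1 h1).1
    rwa [add_sub_cancel] at h2
  have hclosed : IsClosed Sq := by
    let p : T0 →ₗ[ℝ] (Fin d → ℝ) := π ∘ₗ T0.subtype
    have hpsurj : Function.Surjective p := fun v => ⟨⟨s v, hsT v⟩, hsπ v⟩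
    have hpopen : IsOpenMap p := LinearMap.isOpenMap_of_finiteDimensional p hpsurj
    have hpcont : Continuous p := LinearMap.continuous_of_finiteDimensional p
    have hq := hpopen.isQuotientMap hpcont hpsurj
    rw [← hq.isClosed_preimage]
    have e : p ⁻¹' Sq = (fun x : T0 => (x : F)) ⁻¹' S := by
      ext x
      constructor
      · intro hx
        exact hpre x x.2 hx
      · intro hx
        exact ⟨(x : F), hx, rfl⟩
    rw [e]
    exact hS.preimage continuous_subtype_val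
  have h0q : (0 : Fin d → ℝ) ∈ Sq := ⟨0, h0, map_zero π⟩
  have haddq : ∀ a ∈ Sq, ∀ b ∈ Sq, a + b ∈ Sq := by
    rintro _ ⟨a, ha, rfl⟩ _ ⟨b, hb, rfl⟩
    exact ⟨a + b, hadd a ha b hb, map_add π a b⟩
  have hsmulq : ∀ a ∈ Sq, ∀ t : ℝ, 0 ≤ t → t • a ∈ Sq := by
    rintro _ ⟨a, ha, rfl⟩ t ht
    exact ⟨t • a, hsmul a ha t ht, map_smul π t a⟩
  have hsalq : ∀ a ∈ Sq, -a ∈ Sq → a = 0 := by
    rintro _ ⟨a, ha, rfl⟩ ⟨b, hb, hab⟩
    have h1 : a + b ∈ L0 := by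
      refine (hker _ (T0.add_mem (hST a ha) (hST b hb))).1 ?_
      rw [map_add, hab, add_neg_cancel]
    have h2 := hadd b hb _ ((memL _).1 h1).2
    have e : b + -(a + b) = -a := by abel
    rw [e] at h2
    exact (hker a (hST a ha)).2 ((memL a).2 ⟨ha, h2⟩)
  have hconvq : Convex ℝ Sq := by
    intro a ha b hb s' t' hs' ht' _
    exact haddq _ (hsmulq a ha s' hs') _ (hsmulq b hb t' ht')
  have hker' : ∀ a ∈ S, π a = 0 ↔ -a ∈ S := by
    intro a ha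
    rw [hker a (hST a ha), memL]
    exact ⟨fun h => h.2, fun h => ⟨ha, h⟩⟩
  have hspan : Submodule.span ℝ Sq = ⊤ := by
    rw [hSq, ← Submodule.map_span, ← hT0, eq_top_iff]
    intro v _
    exact ⟨s v, hsT v, hsπ v⟩
  have hintne : (interior Sq).Nonempty := by
    rw [hconvq.interior_nonempty_iff_affineSpan_eq_top,
      AffineSubspace.affineSpan_eq_top_iff_vectorSpan_eq_top_of_nonempty ℝ _ _ ⟨0, h0q⟩,
      eq_top_iff, ← hspan]
    refine Submodule.span_le.2 ?_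
    intro v hv
    have h1 := vsub_mem_vectorSpan ℝ hv h0q
    rw [vsub_eq_sub, sub_zero] at h1
    exact h1
  obtain ⟨f, c, hc, hf⟩ := exists_pos_form Sq hclosed h0q haddq hsmulq hsalq
  refine ⟨d, σ, π, interior Sq, f, c, ?_, ?_, ?_, hker', isOpen_interior, hconvq.interior,
    hintne, ?_, ?_, ?_, hc, ?_⟩
  · -- `0 < d`
    rcases Nat.eq_zero_or_pos d with hd | hd
    · exfalso
      subst hd
      have h1 : π e₁ = 0 := Subsingleton.elim _ _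
      exact he₁' ((hker' e₁ he₁).1 h1)
    · exact hd
  · -- dimension
    intro L T hL hT
    have hLL : L = L0 := by
      ext a
      rw [hL a, memL a]
    have hTT : T0 ≤ T := Submodule.span_le.2 hT
    rw [hLL, hdim]
    exact Submodule.finrank_mono hTT
  · intro g a ha
    exact hσ g a (hST a ha)
  · -- cone
    intro v hv t ht
    exact quo_int Sq hsmulq v hv t ht
  · -- no line
    intro v hv
    by_contra hcon
    push Not at hcon
    obtain ⟨x, hx⟩ := hintne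
    have h1 : v ∈ Sq := quo_dir Sq hclosed hsmulq x v
      (fun t _ => interior_subset (hcon x hx t))
    have h2 : -v ∈ Sq := quo_dir Sq hclosed hsmulq x (-v) (by
      intro t _
      have h3 := interior_subset (hcon x hx (-t))
      rwa [neg_smul, ← smul_neg] at h3)
    exact hv (hsalq v h1 h2)
  · -- invariance
    intro g v hv
    have hsg : Function.Surjective (σ g) := by
      intro w
      refine ⟨σ g⁻¹ w, ?_⟩
      have h1 : (σ g * σ g⁻¹) w = w := by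
        rw [← map_mul, mul_inv_cancel, map_one]
        rfl
      exact h1
    have hopen : IsOpenMap (σ g) := LinearMap.isOpenMap_of_finiteDimensional (σ g) hsg
    have h2 : σ g '' interior Sq ⊆ interior Sq := by
      refine interior_maximal ?_ (hopen _ isOpen_interior)
      rintro _ ⟨w, hw, rfl⟩
      obtain ⟨a, ha, rfl⟩ := interior_subset hw
      exact ⟨ρ g a, hinv g a ha, hσ g a (hST a ha)⟩
    exact h2 ⟨v, hv, rfl⟩
  · intro a ha
    exact hf _ ⟨a, ha, rfl⟩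

end Pool.Agent.Helper47.HP
end

/- Helper16.LDA.H94.AF.Gauge -/
section
open Set Finset

set_option linter.unusedSectionVars false

namespace Pool.AF

open Pool.SV

/-! ## AF-9a GAUGE: uniform gauge bounds on compact sets -/

section

variable {E : Type*} [NormedAddCommGroup E] [NormedSpace ℝ E] [FiniteDimensional ℝ E]

/-- First order expansion on a compact convex subset of the domain. -/
theorem c2_est {F : Type*} [NormedAddCommGroup F] [NormedSpace ℝ F] (D : Geo E) (K : Set E)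
    (hK : IsCompact K) (hKX : K ⊆ D.X) (hKc : Convex ℝ K) (v : E → F)
    (hv : ContDiffOn ℝ 2 v D.X) :
    ∃ C : ℝ, 0 ≤ C ∧ (∀ x ∈ K, ∀ u, ‖fderiv ℝ v x u‖ ≤ C * ‖u‖) ∧
      (∀ x ∈ K, ∀ y ∈ K, ‖v y - v x‖ ≤ C * ‖y - x‖) ∧
      (∀ x ∈ K, ∀ y ∈ K, ‖v y - v x - fderiv ℝ v x (y - x)‖ ≤ C * ‖y - x‖ ^ 2) := by
  obtain ⟨C, hC, -, h1, h2, h3⟩ := Rank.taylor K D.X hK hKc D.isOpen hKX v hv
  refine ⟨C, hC, fun x hx u => ?_, h2, fun x hx y hy => ?_⟩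
  · exact (ContinuousLinearMap.le_opNorm _ _).trans
      (mul_le_mul_of_nonneg_right (h1 x hx) (norm_nonneg _))
  · rw [pow_two, ← mul_assoc]
    exact h3 x hx y hy

private theorem gauge_aux {V : Type*} [NormedAddCommGroup V] [NormedSpace ℝ V] (L : V →ₗ[ℝ] ℝ)
    (a δ : ℝ) (hδ : 0 < δ) (w : V)
    (h : ∀ s : ℝ, ‖s • w‖ ≤ δ → 0 ≤ a + L (s • w)) : |L w| ≤ δ⁻¹ * ‖w‖ * a := by
  rcases eq_or_ne w 0 with rfl | hw
  · simp
  · have hn : 0 < ‖w‖ := norm_pos_iff.2 hw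
    have hs : ‖(δ / ‖w‖) • w‖ ≤ δ := by
      rw [norm_smul, Real.norm_eq_abs, abs_of_pos (div_pos hδ hn), div_mul_cancel₀ _ hn.ne']
    have h1 := h (δ / ‖w‖) hs
    have h2 := h (-(δ / ‖w‖)) (by rw [neg_smul, norm_neg]; exact hs)
    rw [map_smul, smul_eq_mul] at h1 h2
    have h3 : δ / ‖w‖ * |L w| ≤ a := by
      rcases abs_cases (L w) with ⟨h4, -⟩ | ⟨h4, -⟩ <;> rw [h4] <;> (clear * - h2 h1; linarith only [h2, h1])
    have h5 : |L w| = δ⁻¹ * ‖w‖ * (δ / ‖w‖ * |L w|) := by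
      (clear * - hδ hw; field_simp)
    rw [h5]
    exact mul_le_mul_of_nonneg_left h3 (by (clear * - hδ hw; positivity))

/-- Uniform gauge bound for the functionals of a block. -/
theorem blk_gauge {G : Type*} [Group G] (B : Blk G) (K : Set (Fin B.d → ℝ)) (hK : IsCompact K)
    (hKC : K ⊆ B.C) :
    ∃ C : ℝ, 0 ≤ C ∧ ∀ z ∈ K, ∀ w : Fin B.d → ℝ, ∀ g, |B.ev g w| ≤ C * ‖w‖ * B.ev g z := by
  obtain ⟨δ, hδ, hsub⟩ := hK.exists_cthickening_subset_open B.isOpen hKC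
  refine ⟨δ⁻¹, by positivity, fun z hz w g => ?_⟩
  refine gauge_aux (B.ξ.comp (B.ρ g⁻¹)) (B.ev g z) δ hδ w fun s hs => ?_
  have h1 : z + s • w ∈ B.C := by
    refine hsub (Metric.mem_cthickening_of_dist_le _ z δ K hz ?_)
    rw [dist_eq_norm, add_sub_cancel_left]
    exact hs
  have h2 := B.pos _ (B.inv g⁻¹ _ h1)
  rw [map_add, map_add] at h2
  exact h2.le

private theorem hatHom_one_coord (D : Geo E) (g : D.Γ) (x : E) :
    hatHom D.Γ g (x, 1) = (g.1 x, 1) := by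
  show hat g.1 (x, 1) = (g.1 x, 1)
  have h := act_hat g.1 x
  rw [hat_apply]
  rw [act, hat_apply] at h
  exact Prod.ext h rfl

/-- Uniform gauge bound for the domain. -/
theorem dom_gauge (D : Geo E) (ξ : (E × ℝ) →ₗ[ℝ] ℝ) (hξ : ∀ x ∈ D.X, 0 < ξ (x, 1)) (K : Set E)
    (hK : IsCompact K) (hKX : K ⊆ D.X) :
    ∃ C : ℝ, 0 ≤ C ∧ ∀ x ∈ K, ∀ u : E, ∀ g : D.Γ,
      |ξ (hatHom D.Γ g (u, 0))| ≤ C * ‖u‖ * ξ (hatHom D.Γ g (x, 1)) := by
  obtain ⟨δ, hδ, hsub⟩ := hK.exists_cthickening_subset_open D.isOpen hKX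
  refine ⟨δ⁻¹, by positivity, fun x hx u g => ?_⟩
  refine gauge_aux ((ξ.comp ((hatHom D.Γ g : Alg E) : (E × ℝ) →ₗ[ℝ] (E × ℝ))).comp
    (LinearMap.inl ℝ E ℝ)) (ξ (hatHom D.Γ g (x, 1))) δ hδ u fun s hs => ?_
  have h1 : x + s • u ∈ D.X := by
    refine hsub (Metric.mem_cthickening_of_dist_le _ x δ K hx ?_)
    rw [dist_eq_norm, add_sub_cancel_left]
    exact hs
  have h2 := hξ _ (D.inv g.1 g.2 _ h1)
  rw [← hatHom_one_coord D g] at h2
  have h3 : ((x + s • u, 1) : E × ℝ) = (x, 1) + (s • u, 0) := by simp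
  rw [h3, map_add, map_add] at h2
  exact h2.le

/-- The recession cone is invariant, and the functional is nonnegative on it. -/
theorem rec_nonneg (D : Geo E) (ξ : (E × ℝ) →ₗ[ℝ] ℝ) (hξ : ∀ x ∈ D.X, 0 < ξ (x, 1)) (u : E)
    (hu : u ∈ Rec D.X) (g : D.Γ) :
    g.1.linear u ∈ Rec D.X ∧ 0 ≤ ξ (hatHom D.Γ g (u, 0)) := by
  constructor
  · intro x hx t ht
    have h1 : (g⁻¹ : D.Γ).1 x ∈ D.X := D.inv _ (g⁻¹ : D.Γ).2 x hx
    have h2 := D.inv g.1 g.2 _ (hu _ h1 t ht)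
    have h3 : g.1 ((g⁻¹ : D.Γ).1 x) = x := by
      have : (g.1 * (g⁻¹ : D.Γ).1) x = x := by
        rw [← Subgroup.coe_mul, mul_inv_cancel]
        rfl
      exact this
    have h4 : g.1 ((g⁻¹ : D.Γ).1 x + t • u) = x + t • g.1.linear u := by
      have := g.1.map_vadd ((g⁻¹ : D.Γ).1 x) (t • u)
      rw [vadd_eq_add, vadd_eq_add, h3, map_smul] at this
      rw [add_comm, this, add_comm]
    rwa [h4] at h2
  · obtain ⟨x, hx⟩ := D.nonempty
    by_contra hneg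
    rw [not_le] at hneg
    set a := ξ (hatHom D.Γ g (x, 1)) with ha
    set b := ξ (hatHom D.Γ g (u, 0)) with hb
    have hpos : ∀ t : ℝ, 0 ≤ t → 0 < a + t * b := by
      intro t ht
      have h2 := hξ _ (D.inv g.1 g.2 _ (hu x hx t ht))
      rw [← hatHom_one_coord D g] at h2
      have h3 : ((x + t • u, 1) : E × ℝ) = (x, 1) + t • (u, (0 : ℝ)) := by simp
      rw [h3, map_add, map_add, map_smul, map_smul, smul_eq_mul] at h2
      exact h2
    have ha0 : 0 < a := by simpa using hpos 0 le_rfl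
    have := hpos (a / (-b)) (by have : 0 < -b := by linarith
                                (clear * - ha0 this; positivity))
    have h5 : a / (-b) * b = -a := by
      rw [div_mul_eq_mul_div, div_eq_iff (by (clear * - hneg; linarith only [hneg]))]
      ring
    rw [h5] at this
    (clear * - this; linarith only [this])

/-- Uniform gauge bound for the recession cone. -/
theorem rec_gauge (D : Geo E) (ξ : (E × ℝ) →ₗ[ℝ] ℝ) (hξ : ∀ x ∈ D.X, 0 < ξ (x, 1)) (K : Set E)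
    (hK : IsCompact K) (hKR : K ⊆ RecInt D.X) :
    ∃ C : ℝ, 0 ≤ C ∧ ∀ z ∈ K, ∀ w ∈ Submodule.span ℝ (Rec D.X), ∀ g : D.Γ,
      |ξ (hatHom D.Γ g (w, 0))| ≤ C * ‖w‖ * ξ (hatHom D.Γ g (z, 0)) := by
  have hKS : ∀ z ∈ K, z ∈ Submodule.span ℝ (Rec D.X) := by
    intro z hz
    obtain ⟨δ, hδ, h⟩ := hKR hz
    have := h 0 (Submodule.zero_mem _) (by simpa using hδ.le)
    rw [add_zero] at this
    exact Submodule.subset_span this
  have huni : ∃ δ : ℝ, 0 < δ ∧ ∀ z ∈ K, ∀ w ∈ Submodule.span ℝ (Rec D.X), ‖w‖ ≤ δ →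
      z + w ∈ Rec D.X := by
    refine hK.induction_on (p := fun s => ∃ δ : ℝ, 0 < δ ∧ ∀ z ∈ s,
      ∀ w ∈ Submodule.span ℝ (Rec D.X), ‖w‖ ≤ δ → z + w ∈ Rec D.X) ?_ ?_ ?_ ?_
    · exact ⟨1, one_pos, fun z hz => absurd hz (Set.notMem_empty z)⟩
    · rintro s t hst ⟨δ, hδ, h⟩
      exact ⟨δ, hδ, fun z hz => h z (hst hz)⟩
    · rintro s t ⟨δ, hδ, h⟩ ⟨δ', hδ', h'⟩
      refine ⟨min δ δ', lt_min hδ hδ', fun z hz w hw hn => ?_⟩
      rcases hz with hz | hz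
      · exact h z hz w hw (hn.trans (min_le_left _ _))
      · exact h' z hz w hw (hn.trans (min_le_right _ _))
    · intro x hx
      obtain ⟨δ, hδ, h⟩ := hKR hx
      refine ⟨Metric.ball x (δ / 2) ∩ K, ?_, δ / 2, by (clear * - hδ; positivity), ?_⟩
      · rw [mem_nhdsWithin]
        exact ⟨Metric.ball x (δ / 2), Metric.isOpen_ball, Metric.mem_ball_self (by positivity),
          Subset.rfl⟩
      · rintro z ⟨hz1, hz2⟩ w hw hn
        have h1 : z + w = x + ((z - x) + w) := by abel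
        rw [h1]
        refine h _ (Submodule.add_mem _ (Submodule.sub_mem _ (hKS z hz2) (hKS x hx)) hw) ?_
        refine (norm_add_le _ _).trans ?_
        rw [Metric.mem_ball, dist_eq_norm] at hz1
        linarith
  obtain ⟨δ, hδ, hd⟩ := huni
  refine ⟨δ⁻¹, by positivity, fun z hz w hw g => ?_⟩
  refine gauge_aux ((ξ.comp ((hatHom D.Γ g : Alg E) : (E × ℝ) →ₗ[ℝ] (E × ℝ))).comp
    (LinearMap.inl ℝ E ℝ)) (ξ (hatHom D.Γ g (z, 0))) δ hδ w fun s hs => ?_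
  have h1 := hd z hz (s • w) (Submodule.smul_mem _ _ hw) hs
  have h2 := (rec_nonneg D ξ hξ _ h1 g).2
  have h3 : ((z + s • w, 0) : E × ℝ) = (z, 0) + (s • w, 0) := by simp
  rw [h3, map_add, map_add] at h2
  exact h2

end

end Pool.AF
end

/- Helper16.LDA.H94.AF.Dir -/
section
open Set Finset

set_option linter.unusedSectionVars false

namespace Pool.AF

open Pool.SV

/-! ## AF-9b DIR: the dimension count -/

section

variable {E : Type*} [NormedAddCommGroup E] [NormedSpace ℝ E] [FiniteDimensional ℝ E]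

private theorem rec_add_pv1 {X : Set E} {u v : E} (hu : u ∈ Rec X) (hv : v ∈ Rec X) :
    u + v ∈ Rec X := by
  intro x hx t ht
  have h := hv _ (hu x hx t ht) t ht
  rwa [add_assoc, ← smul_add] at h

private theorem lin_rec_pv1 {X : Set E} {u : E} (hu : u ∈ Lin X) : u ∈ Rec X :=
  fun x hx t _ => hu x hx t

private theorem lin_of_rec_pv1 {X : Set E} {u : E} (hu : u ∈ Rec X) (hu' : -u ∈ Rec X) :
    u ∈ Lin X := by
  intro x hx t
  rcases le_total 0 t with ht | ht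
  · exact hu x hx t ht
  · have h := hu' x hx (-t) (by linarith only [ht])
    rwa [neg_smul_neg] at h

private theorem not_mem_of_recInt_pv1 {X : Set E} (V : Submodule ℝ E) (hV : ∀ v, v ∈ V ↔ v ∈ Lin X)
    (hVR : (V : Set E) ≠ Rec X) {e : E} (he : e ∈ RecInt X) : e ∉ V := by
  intro heV
  apply hVR
  obtain ⟨δ, hδ, h⟩ := he
  have hneg : -e ∈ Rec X := lin_rec_pv1 ((hV _).1 (V.neg_mem heV))
  have h1 : ∀ w ∈ Submodule.span ℝ (Rec X), ‖w‖ ≤ δ → w ∈ Rec X := by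
    intro w hw hwδ
    have := rec_add_pv1 hneg (h w hw hwδ)
    rwa [neg_add_cancel_left] at this
  have h2 : ∀ w ∈ Submodule.span ℝ (Rec X), ‖w‖ ≤ δ → w ∈ V := by
    intro w hw hwδ
    rw [hV]
    exact lin_of_rec_pv1 (h1 w hw hwδ) (h1 (-w) (Submodule.neg_mem _ hw) (by rwa [norm_neg]))
  have h3 : ∀ w ∈ Submodule.span ℝ (Rec X), w ∈ V := by
    intro w hw
    by_cases hw0 : w = 0
    · rw [hw0]; exact V.zero_mem
    have hn : 0 < ‖w‖ := norm_pos_iff.2 hw0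
    have h4 : (δ / ‖w‖) • w ∈ V := by
      refine h2 _ (Submodule.smul_mem _ _ hw) ?_
      rw [norm_smul, Real.norm_of_nonneg (by (clear * - hδ hw0; positivity)), div_mul_cancel₀ _ hn.ne']
    have h5 := V.smul_mem (δ / ‖w‖)⁻¹ h4
    rwa [smul_smul, inv_mul_cancel₀ (by (clear * - hδ hw0; positivity)), one_smul] at h5
  refine Set.Subset.antisymm (fun v hv => lin_rec_pv1 ((hV v).1 hv)) (fun w hw => ?_)
  exact h3 w (Submodule.subset_span hw)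

/-- The direction: dimension count inside the span of the recession cone. -/
theorem exists_dir (D : Geo E) (r : ℕ) (B : Fin r → Blk D.Γ) (V : Submodule ℝ E)
    (hV : ∀ v, v ∈ V ↔ v ∈ Lin D.X) (hVR : (V : Set E) ≠ Rec D.X) (z : ∀ i, Fin (B i).d → ℝ)
    (hz : ∀ i, z i ∈ (B i).C) (z' : ∀ i, E →ₗ[ℝ] (Fin (B i).d → ℝ)) (e : E)
    (he : e ∈ RecInt D.X) (e' : E →ₗ[ℝ] E) (he' : ∀ u, e' u ∈ Submodule.span ℝ (Rec D.X))
    (hdim : ∑ i, ((B i).d - 1) ≤ Module.finrank ℝ V) :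
    e ∉ V ∧ ∃ u ∈ Submodule.span ℝ (Rec D.X), ‖u‖ = 1 ∧ ∃ (lam : Fin r → ℝ) (μ : ℝ),
      (∀ i, z' i u = lam i • z i) ∧ e' u - μ • e ∈ V := by
  have heV := not_mem_of_recInt_pv1 V hV hVR he
  refine ⟨heV, ?_⟩
  set S : Submodule ℝ E := Submodule.span ℝ (Rec D.X) with hS
  have heS : e ∈ S := by
    obtain ⟨δ, hδ, h⟩ := he
    have h0 := h 0 (Submodule.zero_mem _) (by rw [norm_zero]; exact hδ.le)
    rw [add_zero] at h0
    exact Submodule.subset_span h0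
  have hVS : V ≤ S := fun v hv => Submodule.subset_span (lin_rec_pv1 ((hV v).1 hv))
  let V' : Submodule ℝ E := V ⊔ Submodule.span ℝ {e}
  have hV'S : V' ≤ S := sup_le hVS (by
    rw [Submodule.span_le, Set.singleton_subset_iff]; exact heS)
  have hlt : V < V' := by
    refine lt_of_le_of_ne le_sup_left fun h => heV ?_
    rw [h]
    exact (le_sup_right : Submodule.span ℝ {e} ≤ V') (Submodule.mem_span_singleton_self e)
  have hfr : Module.finrank ℝ V < Module.finrank ℝ V' := Submodule.finrank_lt_finrank_of_lt hlt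
  let W : Submodule ℝ S := V'.comap S.subtype
  have hW : Module.finrank ℝ W = Module.finrank ℝ V' :=
    (Submodule.comapSubtypeEquivOfLe hV'S).finrank_eq
  let Ψ : S →ₗ[ℝ] ((∀ i, (Fin (B i).d → ℝ) ⧸ (Submodule.span ℝ {z i})) × (S ⧸ W)) :=
    LinearMap.prod (LinearMap.pi fun i => (Submodule.mkQ _).comp ((z' i).comp S.subtype))
      ((Submodule.mkQ W).comp (LinearMap.codRestrict S (e'.comp S.subtype) fun u => he' u))
  have hz0 : ∀ i, z i ≠ 0 := by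
    intro i h
    have := (B i).pos _ (hz i)
    rw [h, map_zero] at this
    exact lt_irrefl _ this
  have hq : ∀ i, Module.finrank ℝ ((Fin (B i).d → ℝ) ⧸ (Submodule.span ℝ {z i})) = (B i).d - 1 := by
    intro i
    have h1 := Submodule.finrank_quotient_add_finrank (Submodule.span ℝ {z i})
    rw [finrank_span_singleton (hz0 i), Module.finrank_fin_fun] at h1
    omega
  have hfin : Module.finrank ℝ ((∀ i, (Fin (B i).d → ℝ) ⧸ (Submodule.span ℝ {z i})) × (S ⧸ W)) <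
      Module.finrank ℝ S := by
    rw [Module.finrank_prod, Module.finrank_pi_fintype]
    simp only [hq]
    have h1 := Submodule.finrank_quotient_add_finrank W
    omega
  obtain ⟨u, hu, hu0⟩ := (Submodule.ne_bot_iff _).1 (LinearMap.ker_ne_bot_of_finrank_lt hfin)
  have hu1 : Ψ u = 0 := hu
  have h2 : ∀ i, z' i u ∈ Submodule.span ℝ {z i} := by
    intro i
    have := congrFun (congrArg Prod.fst hu1) i
    exact (Submodule.Quotient.mk_eq_zero _).1 this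
  have h3 : e' u ∈ V' := by
    have := congrArg Prod.snd hu1
    exact (Submodule.Quotient.mk_eq_zero W).1 this
  have hun : (u : E) ≠ 0 := fun h => hu0 (Subtype.ext h)
  have hn : 0 < ‖(u : E)‖ := norm_pos_iff.2 hun
  have h4 : ∀ i, ∃ l : ℝ, l • z i = z' i u := fun i => Submodule.mem_span_singleton.1 (h2 i)
  choose l hl using h4
  obtain ⟨v, hv, w, hw, hvw⟩ := Submodule.mem_sup.1 h3
  obtain ⟨m, rfl⟩ := Submodule.mem_span_singleton.1 hw
  refine ⟨‖(u : E)‖⁻¹ • (u : E), S.smul_mem _ u.2, ?_, fun i => ‖(u : E)‖⁻¹ * l i,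
    ‖(u : E)‖⁻¹ * m, fun i => ?_, ?_⟩
  · rw [norm_smul, norm_inv, norm_norm, inv_mul_cancel₀ hn.ne']
  · rw [map_smul, ← hl i, smul_smul]
  · rw [map_smul, ← hvw, smul_add, smul_smul, add_sub_cancel_right]
    exact V.smul_mem _ hv

end

end Pool.AF
end

/- Helper16.LDA.H94.AF.FamA -/
section
open Set Finset

set_option linter.unusedSectionVars false

namespace Pool.AF

open Pool.SV

/-! ## AF-9c FAMA: the family of kernels when the recession cone is not the lineality space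
(uses AF-9a, AF-9b)

Index set `Option (Fin r)`; `some i` is the block `i`, `none` the domain itself:
`a l x (some i) g = (B i).ev g (v i x)`,
`a l x none g = c g * ξ (hatHom D.Γ g⁻¹ (x + (1 + δ) ^ l • e x, 1))`. -/

section

variable {E : Type*} [NormedAddCommGroup E] [NormedSpace ℝ E] [FiniteDimensional ℝ E]

private theorem deriv_mem_sub_pv1 (D : Geo E) (S : Submodule ℝ E) (e : E → E)
    (he : ContDiffOn ℝ 2 e D.X) (heS : ∀ x ∈ D.X, e x ∈ S) (x : E) (hx : x ∈ D.X) (u : E) :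
    fderiv ℝ e x u ∈ S := by
  by_contra hne
  obtain ⟨f, hf1, hf2⟩ := Submodule.exists_dual_map_eq_bot_of_notMem hne inferInstance
  have hda : DifferentiableAt ℝ e x :=
    (he.differentiableOn (by norm_num)).differentiableAt (D.isOpen.mem_nhds hx)
  have h1 : HasFDerivAt (fun y => LinearMap.toContinuousLinearMap f (e y))
      ((LinearMap.toContinuousLinearMap f).comp (fderiv ℝ e x)) x :=
    (LinearMap.toContinuousLinearMap f).hasFDerivAt.comp x hda.hasFDerivAt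
  have h2 : (fun y => LinearMap.toContinuousLinearMap f (e y)) =ᶠ[nhds x] fun _ => (0 : ℝ) := by
    filter_upwards [D.isOpen.mem_nhds hx] with y hy
    have h3 : f (e y) ∈ S.map f := Submodule.mem_map_of_mem (heS y hy)
    rw [hf2, Submodule.mem_bot] at h3
    exact h3
  have h4 : HasFDerivAt (fun y => LinearMap.toContinuousLinearMap f (e y))
      (0 : E →L[ℝ] ℝ) x := (hasFDerivAt_const (0 : ℝ) x).congr_of_eventuallyEq h2
  have h5 := h1.unique h4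
  apply hf1
  have h6 := congrArg (fun T : E →L[ℝ] ℝ => T u) h5
  exact h6

/-- the functional on vectors -/
private noncomputable def qf_pv1 (D : Geo E) (ξ : (E × ℝ) →ₗ[ℝ] ℝ) (g : D.Γ) : E →ₗ[ℝ] ℝ :=
  ξ ∘ₗ ((hatHom D.Γ g : Alg E) : (E × ℝ) →ₗ[ℝ] (E × ℝ)) ∘ₗ (LinearMap.inl ℝ E ℝ)

private theorem qf_apply_pv1 (D : Geo E) (ξ : (E × ℝ) →ₗ[ℝ] ℝ) (g : D.Γ) (w : E) :
    qf_pv1 D ξ g w = ξ (hatHom D.Γ g (w, 0)) := rfl

/-- the functional on points -/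
private noncomputable def pf_pv1 (D : Geo E) (ξ : (E × ℝ) →ₗ[ℝ] ℝ) (g : D.Γ) (x : E) : ℝ :=
  ξ (hatHom D.Γ g (x, 1))

private theorem pf_add_pv1 (D : Geo E) (ξ : (E × ℝ) →ₗ[ℝ] ℝ) (g : D.Γ) (x w : E) :
    pf_pv1 D ξ g (x + w) = pf_pv1 D ξ g x + qf_pv1 D ξ g w := by
  unfold pf_pv1
  rw [qf_apply_pv1, ← map_add, ← map_add]
  congr 2
  ext
  · rfl
  · simp

private theorem hat_pt_pv1 (D : Geo E) (g : D.Γ) (x : E) : hatHom D.Γ g (x, 1) = (g.1 x, 1) := by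
  have h : hatHom D.Γ g (x, 1) = (g.1.linear x + (1 : ℝ) • g.1 0, (1 : ℝ)) := rfl
  rw [h, one_smul, ← aff_eq]

private theorem hat_vec_pv1 (D : Geo E) (g : D.Γ) (w : E) :
    hatHom D.Γ g (w, 0) = (g.1.linear w, 0) := by
  have h : hatHom D.Γ g (w, 0) = (g.1.linear w + (0 : ℝ) • g.1 0, (0 : ℝ)) := rfl
  rw [h, zero_smul, add_zero]

private theorem hat_inv_pv1 (D : Geo E) (h g : D.Γ) (z : E × ℝ) :
    hatHom D.Γ (h * g)⁻¹ (hatHom D.Γ h z) = hatHom D.Γ g⁻¹ z := by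
  have h1 : hatHom D.Γ (h * g)⁻¹ * hatHom D.Γ h = hatHom D.Γ g⁻¹ := by
    rw [← map_mul]
    congr 1
    group
  rw [← h1]
  rfl

private theorem pf_pos_pv1 (D : Geo E) (ξ : (E × ℝ) →ₗ[ℝ] ℝ) (hξ : ∀ x ∈ D.X, 0 < ξ (x, 1))
    (g : D.Γ) (x : E) (hx : x ∈ D.X) : 0 < pf_pv1 D ξ g x := by
  unfold pf_pv1
  rw [hat_pt_pv1]
  exact hξ _ (D.inv _ g.2 x hx)

private theorem recInt_sub_pv1 (D : Geo E) : RecInt D.X ⊆ Rec D.X := by
  rintro u ⟨δ, hδ, h⟩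
  have := h 0 (Submodule.zero_mem _) (by rw [norm_zero]; exact hδ.le)
  rwa [add_zero] at this

private theorem lin_inv_pv1 (D : Geo E) (g : D.Γ) (w : E) (hw : w ∈ Lin D.X) :
    g.1.linear w ∈ Lin D.X := by
  intro x hx t
  have h1 : (g⁻¹ : D.Γ).1 x ∈ D.X := D.inv _ (g⁻¹ : D.Γ).2 x hx
  have h2 := D.inv _ g.2 _ (hw _ h1 t)
  have h3 : g.1 ((g⁻¹ : D.Γ).1 x + t • w) = x + t • g.1.linear w := by
    rw [aff_eq g.1, map_add, map_smul, add_right_comm, ← aff_eq]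
    congr 1
    have h4 : g.1 ((g⁻¹ : D.Γ).1 x) = ((g * g⁻¹ : D.Γ).1) x := rfl
    rw [h4, mul_inv_cancel]
    rfl
  rwa [h3] at h2

private theorem evv_sub_pv1 {G : Type*} [Group G] (B : Blk G) (g : G) (v w : Fin B.d → ℝ) :
    B.ev g (v - w) = B.ev g v - B.ev g w := by
  unfold Blk.ev
  rw [map_sub, map_sub]

private theorem evv_smul_pv1 {G : Type*} [Group G] (B : Blk G) (g : G) (c : ℝ) (v : Fin B.d → ℝ) :
    B.ev g (c • v) = c * B.ev g v := by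
  unfold Blk.ev
  rw [map_smul, map_smul, smul_eq_mul]

/-- the family -/
private noncomputable def aa_pv1 (D : Geo E) {r : ℕ} (B : Fin r → Blk D.Γ)
    (v : ∀ i, E → (Fin (B i).d → ℝ)) (e : E → E) (c : D.Γ → ℝ) (ξ : (E × ℝ) →ₗ[ℝ] ℝ) (δ : ℝ)
    (l : ℕ) (x : E) : Option (Fin r) → D.Γ → ℝ
  | none, g => c g * (pf_pv1 D ξ g⁻¹ x + (1 + δ) ^ l * qf_pv1 D ξ g⁻¹ (e x))
  | some i, g => (B i).ev g (v i x)

/-- the derivative of the family -/
private noncomputable def aa'_pv1 (D : Geo E) {r : ℕ} (B : Fin r → Blk D.Γ)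
    (v : ∀ i, E → (Fin (B i).d → ℝ)) (e : E → E) (c : D.Γ → ℝ) (ξ : (E × ℝ) →ₗ[ℝ] ℝ) (δ : ℝ)
    (l : ℕ) (x : E) : Option (Fin r) → D.Γ → (E →ₗ[ℝ] ℝ)
  | none, g => c g • (qf_pv1 D ξ g⁻¹ + (1 + δ) ^ l • (qf_pv1 D ξ g⁻¹ ∘ₗ (fderiv ℝ e x : E →ₗ[ℝ] E)))
  | some i, g => (B i).ξ ∘ₗ ((B i).ρ g⁻¹) ∘ₗ (fderiv ℝ (v i) x : E →ₗ[ℝ] (Fin (B i).d → ℝ))

private theorem geo_sum_pv1 (δ : ℝ) (hδ : 0 < δ) (n : ℕ) :
    δ * ∑ l ∈ Finset.range n, ((1 + δ) ^ l)⁻¹ = (1 + δ) * (1 - ((1 + δ) ^ n)⁻¹) := by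
  have h1 : (1 + δ) ≠ 0 := by (clear * - hδ; positivity)
  induction n with
  | zero => simp
  | succ n ih =>
    rw [Finset.sum_range_succ, mul_add, ih, pow_succ]
    have h2 : (1 + δ) ^ n ≠ 0 := pow_ne_zero _ h1
    field_simp
    ring

theorem fam_A (D : Geo E) (K : Set E) (hK : IsCompact K) (hKX : K ⊆ D.X) (hKc : Convex ℝ K)
    (r : ℕ) (B : Fin r → Blk D.Γ) (v : ∀ i, E → (Fin (B i).d → ℝ))
    (hv : ∀ i, ContDiffOn ℝ 2 (v i) D.X) (hvC : ∀ i, ∀ x ∈ D.X, v i x ∈ (B i).C)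
    (hve : ∀ i, ∀ g : D.Γ, ∀ x ∈ D.X, v i (g.1 x) = (B i).ρ g (v i x))
    (e : E → E) (he : ContDiffOn ℝ 2 e D.X) (heR : ∀ x ∈ D.X, e x ∈ RecInt D.X)
    (hee : ∀ g : D.Γ, ∀ x ∈ D.X, e (g.1 x) = g.1.linear (e x))
    (V : Submodule ℝ E) (hV : ∀ v, v ∈ V ↔ v ∈ Lin D.X) (hVR : (V : Set E) ≠ Rec D.X)
    (c : D.Γ → ℝ) (hc : PosMul c) (ξ : (E × ℝ) →ₗ[ℝ] ℝ) (hξV : ∀ v ∈ V, ξ (v, 0) = 0)
    (hξ : ∀ x ∈ D.X, 0 < ξ (x, 1)) (hξR : ∀ u ∈ Rec D.X, u ∉ V → 0 < ξ (u, 0)) (N : ℕ)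
    (hN : ∀ x ∈ D.X, ∀ y ∈ D.X, Summable (fun g : D.Γ =>
      (c g * ξ (hatHom D.Γ g⁻¹ (y, 1)))⁻¹ ^ N * ∏ i, ((B i).ev g (v i x))⁻¹ ^ N))
    (hdim : ∑ i, ((B i).d - 1) ≤ Module.finrank ℝ V) :
    ∃ C : ℝ, 0 ≤ C ∧ ∀ δ : ℝ, 0 < δ → δ ≤ 1 → FamHyp D K (Option (Fin r)) N C δ := by
  classical
  -- constants of the blocks
  have h1 : ∀ i, ∃ C : ℝ, 0 ≤ C ∧ ∀ z ∈ v i '' K, ∀ w : Fin (B i).d → ℝ, ∀ g,
      |(B i).ev g w| ≤ C * ‖w‖ * (B i).ev g z := fun i =>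
    blk_gauge (B i) (v i '' K) (hK.image_of_continuousOn ((hv i).continuousOn.mono hKX))
      (by rintro _ ⟨x, hx, rfl⟩; exact hvC i x (hKX hx))
  choose C1 hC1 hg1 using h1
  have h2 := fun i => c2_est D K hK hKX hKc (v i) (hv i)
  choose C2 hC2 hd2 hl2 ht2 using h2
  have hev : ∀ i (g : D.Γ), ∀ x ∈ D.X, 0 < (B i).ev g (v i x) := fun i g x hx =>
    (B i).pos _ ((B i).inv _ _ (hvC i x hx))
  have hCnn : ∀ i ∈ (Finset.univ : Finset (Fin r)), 0 ≤ C1 i * C2 i := fun i _ =>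
    mul_nonneg (hC1 i) (hC2 i)
  -- constants of the domain
  obtain ⟨Cd, hCd, hgd⟩ := dom_gauge D ξ hξ K hK hKX
  obtain ⟨Cr, hCr, hgr⟩ := rec_gauge D ξ hξ (e '' K)
    (hK.image_of_continuousOn (he.continuousOn.mono hKX))
    (by rintro _ ⟨x, hx, rfl⟩; exact heR x (hKX hx))
  obtain ⟨Ce, hCe, hde, hle, hte⟩ := c2_est D K hK hKX hKc e he
  set S : Submodule ℝ E := Submodule.span ℝ (Rec D.X) with hS
  have heS : ∀ x ∈ D.X, e x ∈ S := fun x hx => Submodule.subset_span (recInt_sub_pv1 D (heR x hx))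
  have hdS : ∀ x ∈ D.X, ∀ u, fderiv ℝ e x u ∈ S := fun x hx u =>
    deriv_mem_sub_pv1 D S e he heS x hx u
  have hqe : ∀ x ∈ D.X, ∀ g : D.Γ, 0 ≤ qf_pv1 D ξ g (e x) := fun x hx g =>
    (rec_nonneg D ξ hξ (e x) (recInt_sub_pv1 D (heR x hx)) g).2
  have hpp : ∀ x ∈ D.X, ∀ g : D.Γ, 0 < pf_pv1 D ξ g x := fun x hx g => pf_pos_pv1 D ξ hξ g x hx
  have hqd : ∀ x ∈ K, ∀ u (g : D.Γ), |qf_pv1 D ξ g u| ≤ Cd * ‖u‖ * pf_pv1 D ξ g x := fun x hx u g =>
    hgd x hx u g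
  have hqr : ∀ x ∈ K, ∀ w ∈ S, ∀ g : D.Γ, |qf_pv1 D ξ g w| ≤ Cr * ‖w‖ * qf_pv1 D ξ g (e x) :=
    fun x hx w hw g => hgr (e x) ⟨x, hx, rfl⟩ w hw g
  -- the constant
  set CB : ℝ := ∑ i, C1 i * C2 i with hCB
  have hCB0 : 0 ≤ CB := Finset.sum_nonneg hCnn
  have hCi : ∀ i, C1 i * C2 i ≤ CB := fun i => Finset.single_le_sum hCnn (Finset.mem_univ i)
  have hCrCe : 0 ≤ Cr * Ce := mul_nonneg hCr hCe
  set C : ℝ := CB + Cd + Cr * Ce + 2 * Cr with hC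
  have hC0 : 0 ≤ C := by (clear * - hCB0 hCd hCr hCe; positivity)
  have hkey : ∀ i, ∀ x ∈ K, ∀ (w : Fin (B i).d → ℝ) (g : D.Γ) (t : ℝ), 0 ≤ t →
      ‖w‖ ≤ C2 i * t → |(B i).ev g w| ≤ C * t * (B i).ev g (v i x) := by
    intro i x hx w g t ht hw
    have h3 := hg1 i (v i x) ⟨x, hx, rfl⟩ w g
    have h4 := hev i g x (hKX hx)
    have h5 : C1 i * C2 i ≤ C := by
      have := hCi i
      rw [hC]
      nlinarith only [hCd, hCr, hCe, this]
    calc |(B i).ev g w| ≤ C1 i * ‖w‖ * (B i).ev g (v i x) := h3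
      _ ≤ C1 i * (C2 i * t) * (B i).ev g (v i x) := by
          have := mul_le_mul_of_nonneg_left hw (hC1 i)
          exact mul_le_mul_of_nonneg_right this h4.le
      _ = (C1 i * C2 i) * t * (B i).ev g (v i x) := by ring
      _ ≤ C * t * (B i).ev g (v i x) := by
          exact mul_le_mul_of_nonneg_right (mul_le_mul_of_nonneg_right h5 ht) h4.le
  have hkey0 : ∀ x ∈ K, ∀ (w₁ w₂ : E) (g : D.Γ) (t T : ℝ), 0 ≤ t → 0 ≤ T → w₂ ∈ S →
      ‖w₁‖ ≤ t → ‖w₂‖ ≤ Ce * t →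
      |c g * (qf_pv1 D ξ g⁻¹ w₁ + T * qf_pv1 D ξ g⁻¹ w₂)| ≤
        C * t * (c g * (pf_pv1 D ξ g⁻¹ x + T * qf_pv1 D ξ g⁻¹ (e x))) := by
    intro x hx w₁ w₂ g t T ht hT hw₂S hw₁ hw₂
    have h3 := hqd x hx w₁ g⁻¹
    have h4 := hqr x hx w₂ hw₂S g⁻¹
    have hp := hpp x (hKX hx) g⁻¹
    have hq := hqe x (hKX hx) g⁻¹
    have hcg := hc.1 g
    have h5 : |qf_pv1 D ξ g⁻¹ w₁| ≤ (Cd * t) * pf_pv1 D ξ g⁻¹ x :=
      h3.trans (mul_le_mul_of_nonneg_right (mul_le_mul_of_nonneg_left hw₁ hCd) hp.le)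
    have h6 : |qf_pv1 D ξ g⁻¹ w₂| ≤ (Cr * (Ce * t)) * qf_pv1 D ξ g⁻¹ (e x) :=
      h4.trans (mul_le_mul_of_nonneg_right (mul_le_mul_of_nonneg_left hw₂ hCr) hq)
    rw [abs_mul, abs_of_pos hcg]
    have h7 : |qf_pv1 D ξ g⁻¹ w₁ + T * qf_pv1 D ξ g⁻¹ w₂| ≤
        C * t * (pf_pv1 D ξ g⁻¹ x + T * qf_pv1 D ξ g⁻¹ (e x)) := by
      calc |qf_pv1 D ξ g⁻¹ w₁ + T * qf_pv1 D ξ g⁻¹ w₂|
          ≤ |qf_pv1 D ξ g⁻¹ w₁| + |T * qf_pv1 D ξ g⁻¹ w₂| := abs_add_le _ _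
        _ = |qf_pv1 D ξ g⁻¹ w₁| + T * |qf_pv1 D ξ g⁻¹ w₂| := by rw [abs_mul, abs_of_nonneg hT]
        _ ≤ (Cd * t) * pf_pv1 D ξ g⁻¹ x + T * ((Cr * (Ce * t)) * qf_pv1 D ξ g⁻¹ (e x)) :=
            add_le_add h5 (mul_le_mul_of_nonneg_left h6 hT)
        _ ≤ C * t * (pf_pv1 D ξ g⁻¹ x + T * qf_pv1 D ξ g⁻¹ (e x)) := by
            have h8 : 0 ≤ t * pf_pv1 D ξ g⁻¹ x := mul_nonneg ht hp.le
            have h9 : 0 ≤ t * (T * qf_pv1 D ξ g⁻¹ (e x)) := mul_nonneg ht (mul_nonneg hT hq)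
            have h10 : Cd ≤ C := by rw [hC]; linarith only [hCr, hCB0, hCrCe]
            have h11 : Cr * Ce ≤ C := by rw [hC]; linarith only [hCd, hCr, hCB0]
            have h12 := mul_le_mul_of_nonneg_right h10 h8
            have h13 := mul_le_mul_of_nonneg_right h11 h9
            linarith only [h12, h13]
    calc c g * |qf_pv1 D ξ g⁻¹ w₁ + T * qf_pv1 D ξ g⁻¹ w₂|
        ≤ c g * (C * t * (pf_pv1 D ξ g⁻¹ x + T * qf_pv1 D ξ g⁻¹ (e x))) :=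
          mul_le_mul_of_nonneg_left h7 hcg.le
      _ = _ := by ring
  refine ⟨C, hC0, fun δ hδ hδ1 => ?_⟩
  have ht0 : ∀ l : ℕ, 0 < (1 + δ) ^ l := fun l => by positivity
  have hsub : ∀ l : ℕ, ∀ x ∈ D.X, x + (1 + δ) ^ l • e x ∈ D.X := fun l x hx =>
    recInt_sub_pv1 D (heR x hx) x hx _ (ht0 l).le
  have hnone : ∀ (l : ℕ) (x : E) (g : D.Γ), aa_pv1 D B v e c ξ δ l x none g
      = c g * ξ (hatHom D.Γ g⁻¹ (x + (1 + δ) ^ l • e x, 1)) := by
    intro l x g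
    show c g * (pf_pv1 D ξ g⁻¹ x + (1 + δ) ^ l * qf_pv1 D ξ g⁻¹ (e x))
      = c g * pf_pv1 D ξ g⁻¹ (x + (1 + δ) ^ l • e x)
    rw [pf_add_pv1, map_smul, smul_eq_mul]
  have hnpos : ∀ (l : ℕ) (x : E), x ∈ D.X → ∀ g : D.Γ, 0 < aa_pv1 D B v e c ξ δ l x none g := by
    intro l x hx g
    rw [hnone]
    exact mul_pos (hc.1 g) (pf_pos_pv1 D ξ hξ g⁻¹ _ (hsub l x hx))
  have hLn : 1 ≤ δ ^ 2 * (⌈(δ ^ 2)⁻¹⌉₊ : ℝ) := by
    have h3 : (δ ^ 2)⁻¹ ≤ (⌈(δ ^ 2)⁻¹⌉₊ : ℝ) := Nat.le_ceil _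
    have h4 : 0 < δ ^ 2 := by (clear * - hδ; positivity)
    calc (1 : ℝ) = δ ^ 2 * (δ ^ 2)⁻¹ := (mul_inv_cancel₀ h4.ne').symm
      _ ≤ _ := mul_le_mul_of_nonneg_left h3 h4.le
  refine ⟨⌈(δ ^ 2)⁻¹⌉₊, aa_pv1 D B v e c ξ δ, aa'_pv1 D B v e c ξ δ, C, hLn, ?_, ?_, ?_, ?_, ?_⟩
  · intro l x hx
    refine ⟨fun i g => ?_, ?_⟩
    · cases i with
      | none => exact hnpos l x hx g
      | some i => exact hev i g x hx
    · refine (hN x hx (x + (1 + δ) ^ l • e x) (hsub l x hx)).congr fun g => ?_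
      unfold kern
      rw [Fintype.prod_option, hnone]
      rfl
  · intro l h x hx i
    cases i with
    | none =>
      refine ⟨c h, hc.1 h, fun g => ?_⟩
      show c (h * g) * (pf_pv1 D ξ (h * g)⁻¹ (h.1 x) + (1 + δ) ^ l * qf_pv1 D ξ (h * g)⁻¹ (e (h.1 x)))
        = c h * (c g * (pf_pv1 D ξ g⁻¹ x + (1 + δ) ^ l * qf_pv1 D ξ g⁻¹ (e x)))
      have h3 : pf_pv1 D ξ (h * g)⁻¹ (h.1 x) = pf_pv1 D ξ g⁻¹ x := by
        unfold pf_pv1
        rw [← hat_pt_pv1, hat_inv_pv1]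
      have h4 : qf_pv1 D ξ (h * g)⁻¹ (e (h.1 x)) = qf_pv1 D ξ g⁻¹ (e x) := by
        rw [hee h x hx, qf_apply_pv1, qf_apply_pv1, ← hat_vec_pv1, hat_inv_pv1]
      rw [h3, h4, hc.2]
      ring
    | some i =>
      refine ⟨1, one_pos, fun g => ?_⟩
      rw [one_mul]
      show (B i).ξ ((B i).ρ (h * g)⁻¹ (v i (h.1 x))) = (B i).ξ ((B i).ρ g⁻¹ (v i x))
      rw [hve i h x hx, mul_inv_rev, map_mul, Module.End.mul_apply]
      congr 2
      rw [← Module.End.mul_apply, ← map_mul, inv_mul_cancel, map_one, Module.End.one_apply]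
  · intro l _ x hx u i g
    cases i with
    | none =>
      exact hkey0 x hx u (fderiv ℝ e x u) g ‖u‖ ((1 + δ) ^ l) (norm_nonneg u) (ht0 l).le
        (hdS x (hKX hx) u) le_rfl (hde x hx u)
    | some i => exact hkey i x hx _ g ‖u‖ (norm_nonneg u) (hd2 i x hx u)
  · intro l _ x hx y hy i g
    cases i with
    | none =>
      have hpsub : pf_pv1 D ξ g⁻¹ y = pf_pv1 D ξ g⁻¹ x + qf_pv1 D ξ g⁻¹ (y - x) := by
        rw [← pf_add_pv1, add_sub_cancel]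
      refine ⟨?_, ?_⟩
      · have h3 : aa_pv1 D B v e c ξ δ l y none g - aa_pv1 D B v e c ξ δ l x none g
            = c g * (qf_pv1 D ξ g⁻¹ (y - x) + (1 + δ) ^ l * qf_pv1 D ξ g⁻¹ (e y - e x)) := by
          show c g * (pf_pv1 D ξ g⁻¹ y + (1 + δ) ^ l * qf_pv1 D ξ g⁻¹ (e y))
            - c g * (pf_pv1 D ξ g⁻¹ x + (1 + δ) ^ l * qf_pv1 D ξ g⁻¹ (e x)) = _
          rw [hpsub, map_sub (qf_pv1 D ξ g⁻¹) (e y) (e x)]
          ring
        rw [h3]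
        exact hkey0 x hx _ _ g ‖y - x‖ ((1 + δ) ^ l) (norm_nonneg _) (ht0 l).le
          (S.sub_mem (heS y (hKX hy)) (heS x (hKX hx))) le_rfl (hle x hx y hy)
      · have h3 : aa_pv1 D B v e c ξ δ l y none g - aa_pv1 D B v e c ξ δ l x none g
            - aa'_pv1 D B v e c ξ δ l x none g (y - x)
            = c g * (qf_pv1 D ξ g⁻¹ 0 +
              (1 + δ) ^ l * qf_pv1 D ξ g⁻¹ (e y - e x - fderiv ℝ e x (y - x))) := by
          show c g * (pf_pv1 D ξ g⁻¹ y + (1 + δ) ^ l * qf_pv1 D ξ g⁻¹ (e y))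
            - c g * (pf_pv1 D ξ g⁻¹ x + (1 + δ) ^ l * qf_pv1 D ξ g⁻¹ (e x))
            - c g * (qf_pv1 D ξ g⁻¹ (y - x) + (1 + δ) ^ l * qf_pv1 D ξ g⁻¹ (fderiv ℝ e x (y - x))) = _
          rw [hpsub, map_sub (qf_pv1 D ξ g⁻¹) (e y - e x), map_sub (qf_pv1 D ξ g⁻¹) (e y) (e x), map_zero]
          ring
        rw [h3]
        refine hkey0 x hx _ _ g (‖y - x‖ ^ 2) ((1 + δ) ^ l) (by (clear * -; positivity)) (ht0 l).le
          (S.sub_mem (S.sub_mem (heS y (hKX hy)) (heS x (hKX hx))) (hdS x (hKX hx) _)) ?_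
          (hte x hx y hy)
        rw [norm_zero]
        (clear * -; positivity)
    | some i =>
      refine ⟨?_, ?_⟩
      · show |(B i).ev g (v i y) - (B i).ev g (v i x)| ≤ _
        rw [← evv_sub_pv1]
        exact hkey i x hx _ g ‖y - x‖ (norm_nonneg _) (hl2 i x hx y hy)
      · have h3 : (B i).ev g (v i y) - (B i).ev g (v i x) -
            ((B i).ξ ∘ₗ ((B i).ρ g⁻¹) ∘ₗ (fderiv ℝ (v i) x : E →ₗ[ℝ] (Fin (B i).d → ℝ))) (y - x)
            = (B i).ev g (v i y - v i x - fderiv ℝ (v i) x (y - x)) := by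
          rw [evv_sub_pv1, evv_sub_pv1]
          rfl
        show |(B i).ev g (v i y) - (B i).ev g (v i x) -
            ((B i).ξ ∘ₗ ((B i).ρ g⁻¹) ∘ₗ (fderiv ℝ (v i) x : E →ₗ[ℝ] (Fin (B i).d → ℝ))) (y - x)|
            ≤ _
        rw [h3]
        exact hkey i x hx _ g (‖y - x‖ ^ 2) (by (clear * -; positivity)) (ht2 i x hx y hy)
  · intro x hx
    have hxX := hKX hx
    obtain ⟨heV, u, huS, hu, lam, μ, hlam, hμ⟩ := exists_dir D r B V hV hVR (fun i => v i x)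
      (fun i => hvC i x hxX)
      (fun i => (fderiv ℝ (v i) x : E →ₗ[ℝ] (Fin (B i).d → ℝ))) (e x) (heR x hxX)
      (fderiv ℝ e x : E →ₗ[ℝ] E) (fun u => hdS x hxX u) hdim
    have hqV : ∀ g : D.Γ, ∀ w ∈ V, qf_pv1 D ξ g w = 0 := by
      intro g w hw
      rw [qf_apply_pv1, hat_vec_pv1]
      exact hξV _ ((hV _).2 (lin_inv_pv1 D g w ((hV w).1 hw)))
    have hqμ : ∀ g : D.Γ, qf_pv1 D ξ g (fderiv ℝ e x u) = μ * qf_pv1 D ξ g (e x) := by
      intro g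
      have h3 := hqV g _ hμ
      rw [map_sub, map_smul, smul_eq_mul] at h3
      have h4 : qf_pv1 D ξ g ((fderiv ℝ e x : E →ₗ[ℝ] E) u) = qf_pv1 D ξ g (fderiv ℝ e x u) := rfl
      rw [h4] at h3
      linarith only [h3]
    have hmu : |μ| ≤ Cr * Ce := by
      have h3 := hqr x hx _ (hdS x hxX u) 1
      rw [hqμ 1, abs_mul] at h3
      have h4 : 0 < qf_pv1 D ξ (1 : D.Γ) (e x) := by
        rw [qf_apply_pv1, map_one]
        exact hξR _ (recInt_sub_pv1 D (heR x hxX)) heV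
      rw [abs_of_pos h4] at h3
      have h5 : Cr * ‖fderiv ℝ e x u‖ * qf_pv1 D ξ (1 : D.Γ) (e x)
          ≤ Cr * Ce * qf_pv1 D ξ (1 : D.Γ) (e x) := by
        refine mul_le_mul_of_nonneg_right (mul_le_mul_of_nonneg_left ?_ hCr) h4.le
        have := hde x hx u
        rwa [hu, mul_one] at this
      exact le_of_mul_le_mul_right (h3.trans h5) h4
    refine ⟨u, hu, fun o => o.elim 0 lam, μ,
      fun l o g => o.elim ((1 + δ) ^ l * (c g * qf_pv1 D ξ g⁻¹ (e x))) (fun _ => 0),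
      fun _ o g => o.elim (c g * qf_pv1 D ξ g⁻¹ u) (fun _ => 0),
      fun l => Cr * ((1 + δ) ^ l)⁻¹, ?_, ?_, ?_⟩
    · refine hmu.trans ?_
      rw [hC]
      linarith only [hCd, hCr, hCB0]
    · intro l _
      refine ⟨mul_nonneg hCr (inv_nonneg.2 (ht0 l).le), fun i g => ?_⟩
      cases i with
      | none =>
        have hcg := hc.1 g
        have hp := hpp x hxX g⁻¹
        have hq := hqe x hxX g⁻¹
        have hy0 : 0 ≤ (1 + δ) ^ l * (c g * qf_pv1 D ξ g⁻¹ (e x)) :=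
          mul_nonneg (ht0 l).le (mul_nonneg hcg.le hq)
        have hya : (1 + δ) ^ l * (c g * qf_pv1 D ξ g⁻¹ (e x)) ≤ aa_pv1 D B v e c ξ δ l x none g := by
          show _ ≤ c g * (pf_pv1 D ξ g⁻¹ x + (1 + δ) ^ l * qf_pv1 D ξ g⁻¹ (e x))
          have := mul_nonneg hcg.le hp.le
          linarith only [this]
        refine ⟨?_, ?_, ?_, ?_⟩
        · show c g * (qf_pv1 D ξ g⁻¹ u + (1 + δ) ^ l * qf_pv1 D ξ g⁻¹ (fderiv ℝ e x u)) =
            0 * aa_pv1 D B v e c ξ δ l x none g + c g * qf_pv1 D ξ g⁻¹ u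
              + μ * ((1 + δ) ^ l * (c g * qf_pv1 D ξ g⁻¹ (e x)))
          rw [hqμ]
          ring
        · show c g * (pf_pv1 D ξ g⁻¹ x + (1 + δ) ^ (l + 1) * qf_pv1 D ξ g⁻¹ (e x)) =
            c g * (pf_pv1 D ξ g⁻¹ x + (1 + δ) ^ l * qf_pv1 D ξ g⁻¹ (e x))
              + δ * ((1 + δ) ^ l * (c g * qf_pv1 D ξ g⁻¹ (e x)))
          ring
        · show |(1 + δ) ^ l * (c g * qf_pv1 D ξ g⁻¹ (e x))| ≤ _
          rw [abs_of_nonneg hy0]
          exact hya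
        · show |c g * qf_pv1 D ξ g⁻¹ u| ≤ Cr * ((1 + δ) ^ l)⁻¹ * aa_pv1 D B v e c ξ δ l x none g
          rw [abs_mul, abs_of_pos hcg]
          have h3 := hqr x hx u huS g⁻¹
          rw [hu, mul_one] at h3
          have h4 : Cr * ((1 + δ) ^ l)⁻¹ * ((1 + δ) ^ l * (c g * qf_pv1 D ξ g⁻¹ (e x)))
              = c g * (Cr * qf_pv1 D ξ g⁻¹ (e x)) := by
            have := (ht0 l).ne'
            (clear * - this hcg; field_simp)
          calc c g * |qf_pv1 D ξ g⁻¹ u| ≤ c g * (Cr * qf_pv1 D ξ g⁻¹ (e x)) :=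
                mul_le_mul_of_nonneg_left h3 hcg.le
            _ = Cr * ((1 + δ) ^ l)⁻¹ * ((1 + δ) ^ l * (c g * qf_pv1 D ξ g⁻¹ (e x))) := h4.symm
            _ ≤ _ := mul_le_mul_of_nonneg_left hya
                (mul_nonneg hCr (inv_nonneg.2 (ht0 l).le))
      | some i =>
        refine ⟨?_, ?_, ?_, ?_⟩
        · have h3 : fderiv ℝ (v i) x u = lam i • v i x := hlam i
          show (B i).ev g (fderiv ℝ (v i) x u) = lam i * (B i).ev g (v i x) + 0 + μ * 0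
          rw [h3, evv_smul_pv1]
          ring
        · show (B i).ev g (v i x) = (B i).ev g (v i x) + δ * 0
          ring
        · show |(0 : ℝ)| ≤ (B i).ev g (v i x)
          rw [abs_zero]
          exact (hev i g x hxX).le
        · show |(0 : ℝ)| ≤ Cr * ((1 + δ) ^ l)⁻¹ * (B i).ev g (v i x)
          rw [abs_zero]
          exact mul_nonneg (mul_nonneg hCr (inv_nonneg.2 (ht0 l).le)) (hev i g x hxX).le
    · rw [← Finset.mul_sum]
      set n := ⌈(δ ^ 2)⁻¹⌉₊ with hn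
      have h3 := geo_sum_pv1 δ hδ n
      have h4 : δ * ∑ l ∈ Finset.range n, ((1 + δ) ^ l)⁻¹ ≤ 2 := by
        rw [h3]
        have h5 : 0 < ((1 + δ) ^ n)⁻¹ := inv_pos.2 (ht0 n)
        nlinarith only [hδ, hδ1, h5]
      have h6 : ∑ l ∈ Finset.range n, ((1 + δ) ^ l)⁻¹ ≤ 2 * (δ * n) := by
        have h7 : ∑ l ∈ Finset.range n, ((1 + δ) ^ l)⁻¹ * δ ≤ 2 * (δ * n) * δ := by
          rw [← Finset.sum_mul]
          linarith only [hLn, h4]
        rw [← Finset.sum_mul] at h7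
        exact le_of_mul_le_mul_right h7 hδ
      have h8 : 0 ≤ δ * (n : ℝ) := by (clear * - hδ; positivity)
      calc Cr * ∑ l ∈ Finset.range n, ((1 + δ) ^ l)⁻¹ ≤ Cr * (2 * (δ * n)) :=
            mul_le_mul_of_nonneg_left h6 hCr
        _ = (2 * Cr) * (δ * n) := by ring
        _ ≤ C * (δ * n) := mul_le_mul_of_nonneg_right (by rw [hC]; linarith only [hCd, hCB0, hCrCe]) h8
        _ = C * δ * n := by ring

end

end Pool.AF
end

/- Helper16.LDA.H94.AF.FamB -/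
section
open Set Finset

set_option linter.unusedSectionVars false

namespace Pool.AF

open Pool.SV

/-! ## AF-10 FAMB: the family of kernels when the domain is bounded modulo the lineality space

`a l x i g = (B i).ev g (v i x)` does not depend on `l` (uses `c2_est`, `blk_gauge`). -/

section

variable {E : Type*} [NormedAddCommGroup E] [NormedSpace ℝ E] [FiniteDimensional ℝ E]

/-- A unit vector along which all the derivatives are proportional to the values. -/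
private theorem exists_prop_dir_pv1 (r : ℕ) (d : Fin r → ℕ) (z : ∀ i, Fin (d i) → ℝ)
    (hz : ∀ i, z i ≠ 0) (z' : ∀ i, E →ₗ[ℝ] (Fin (d i) → ℝ))
    (hdim : ∑ i, (d i - 1) < Module.finrank ℝ E) :
    ∃ u : E, ‖u‖ = 1 ∧ ∃ lam : Fin r → ℝ, ∀ i, z' i u = lam i • z i := by
  let T : E →ₗ[ℝ] (∀ i, (Fin (d i) → ℝ) ⧸ Submodule.span ℝ {z i}) :=
    LinearMap.pi fun i => (Submodule.mkQ (Submodule.span ℝ {z i})).comp (z' i)
  have hfin : Module.finrank ℝ (∀ i, (Fin (d i) → ℝ) ⧸ Submodule.span ℝ {z i})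
      = ∑ i, (d i - 1) := by
    rw [Module.finrank_pi_fintype]
    refine Finset.sum_congr rfl fun i _ => ?_
    have h1 := Submodule.finrank_quotient_add_finrank (Submodule.span ℝ {z i})
    rw [finrank_span_singleton (hz i), Module.finrank_fin_fun] at h1
    omega
  have hker : LinearMap.ker T ≠ ⊥ := LinearMap.ker_ne_bot_of_finrank_lt (by rw [hfin]; exact hdim)
  obtain ⟨u, hu, hu0⟩ := Submodule.exists_mem_ne_zero_of_ne_bot hker
  have hprop : ∀ i, ∃ c : ℝ, c • z i = z' i u := by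
    intro i
    have h2 : T u = 0 := hu
    have h3 : T u i = 0 := by rw [h2]; rfl
    have h4 : Submodule.mkQ (Submodule.span ℝ {z i}) (z' i u) = 0 := h3
    rw [Submodule.mkQ_apply, Submodule.Quotient.mk_eq_zero] at h4
    exact Submodule.mem_span_singleton.1 h4
  choose c hc using hprop
  refine ⟨‖u‖⁻¹ • u, ?_, fun i => ‖u‖⁻¹ * c i, fun i => ?_⟩
  · rw [norm_smul, norm_inv, norm_norm, inv_mul_cancel₀ (norm_ne_zero_iff.2 hu0)]
  · rw [map_smul, ← hc i, smul_smul]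

private theorem ev_sub_pv1 {G : Type*} [Group G] (B : Blk G) (g : G) (v w : Fin B.d → ℝ) :
    B.ev g (v - w) = B.ev g v - B.ev g w := by
  unfold Blk.ev
  rw [map_sub, map_sub]

private theorem ev_smul_pv1 {G : Type*} [Group G] (B : Blk G) (g : G) (c : ℝ) (v : Fin B.d → ℝ) :
    B.ev g (c • v) = c * B.ev g v := by
  unfold Blk.ev
  rw [map_smul, map_smul, smul_eq_mul]

theorem fam_B (D : Geo E) (K : Set E) (hK : IsCompact K) (hKX : K ⊆ D.X) (hKc : Convex ℝ K)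
    (r : ℕ) (B : Fin r → Blk D.Γ) (v : ∀ i, E → (Fin (B i).d → ℝ))
    (hv : ∀ i, ContDiffOn ℝ 2 (v i) D.X) (hvC : ∀ i, ∀ x ∈ D.X, v i x ∈ (B i).C)
    (hve : ∀ i, ∀ g : D.Γ, ∀ x ∈ D.X, v i (g.1 x) = (B i).ρ g (v i x)) (N : ℕ)
    (hN : ∀ x ∈ D.X, Summable (fun g : D.Γ => ∏ i, ((B i).ev g (v i x))⁻¹ ^ N))
    (hdim : ∑ i, ((B i).d - 1) < Module.finrank ℝ E) :
    ∃ C : ℝ, 0 ≤ C ∧ ∀ δ : ℝ, 0 < δ → δ ≤ 1 → FamHyp D K (Fin r) N C δ := by
  classical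
  have h1 : ∀ i, ∃ C : ℝ, 0 ≤ C ∧ ∀ z ∈ v i '' K, ∀ w : Fin (B i).d → ℝ, ∀ g,
      |(B i).ev g w| ≤ C * ‖w‖ * (B i).ev g z := fun i =>
    blk_gauge (B i) (v i '' K) (hK.image_of_continuousOn ((hv i).continuousOn.mono hKX))
      (by rintro _ ⟨x, hx, rfl⟩; exact hvC i x (hKX hx))
  choose C1 hC1 hg1 using h1
  have h2 := fun i => c2_est D K hK hKX hKc (v i) (hv i)
  choose C2 hC2 hd2 hl2 ht2 using h2
  have hev : ∀ i (g : D.Γ), ∀ x ∈ D.X, 0 < (B i).ev g (v i x) := fun i g x hx =>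
    (B i).pos _ ((B i).inv _ _ (hvC i x hx))
  have hCnn : ∀ i ∈ (Finset.univ : Finset (Fin r)), 0 ≤ C1 i * C2 i := fun i _ =>
    mul_nonneg (hC1 i) (hC2 i)
  have hCi : ∀ i, C1 i * C2 i ≤ ∑ i, C1 i * C2 i := fun i =>
    Finset.single_le_sum hCnn (Finset.mem_univ i)
  have hC0 : 0 ≤ ∑ i, C1 i * C2 i := Finset.sum_nonneg hCnn
  have hkey : ∀ i, ∀ x ∈ K, ∀ (w : Fin (B i).d → ℝ) (g : D.Γ) (t : ℝ), 0 ≤ t →
      ‖w‖ ≤ C2 i * t → |(B i).ev g w| ≤ (∑ i, C1 i * C2 i) * t * (B i).ev g (v i x) := by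
    intro i x hx w g t ht hw
    have h3 := hg1 i (v i x) ⟨x, hx, rfl⟩ w g
    have h4 := hev i g x (hKX hx)
    calc |(B i).ev g w| ≤ C1 i * ‖w‖ * (B i).ev g (v i x) := h3
      _ ≤ C1 i * (C2 i * t) * (B i).ev g (v i x) := by
          have := mul_le_mul_of_nonneg_left hw (hC1 i)
          exact mul_le_mul_of_nonneg_right this h4.le
      _ = (C1 i * C2 i) * t * (B i).ev g (v i x) := by ring
      _ ≤ (∑ i, C1 i * C2 i) * t * (B i).ev g (v i x) := by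
          exact mul_le_mul_of_nonneg_right (mul_le_mul_of_nonneg_right (hCi i) ht) h4.le
  refine ⟨∑ i, C1 i * C2 i, hC0, fun δ hδ _ => ?_⟩
  refine ⟨⌈(δ ^ 2)⁻¹⌉₊, fun _ x i g => (B i).ev g (v i x),
    fun _ x i g => (B i).ξ ∘ₗ ((B i).ρ g⁻¹) ∘ₗ (fderiv ℝ (v i) x : E →ₗ[ℝ] (Fin (B i).d → ℝ)),
    ∑ i, C1 i * C2 i, ?_, ?_, ?_, ?_, ?_, ?_⟩
  · have h3 : (δ ^ 2)⁻¹ ≤ (⌈(δ ^ 2)⁻¹⌉₊ : ℝ) := Nat.le_ceil _
    have h4 : 0 < δ ^ 2 := by positivity
    calc (1 : ℝ) = δ ^ 2 * (δ ^ 2)⁻¹ := (mul_inv_cancel₀ h4.ne').symm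
      _ ≤ _ := mul_le_mul_of_nonneg_left h3 h4.le
  · intro l x hx
    exact ⟨fun i g => hev i g x hx, hN x hx⟩
  · intro l h x hx i
    refine ⟨1, one_pos, fun g => ?_⟩
    rw [one_mul]
    show (B i).ξ ((B i).ρ (h * g)⁻¹ (v i (h.1 x))) = (B i).ξ ((B i).ρ g⁻¹ (v i x))
    rw [hve i h x hx, mul_inv_rev, map_mul, Module.End.mul_apply]
    congr 2
    rw [← Module.End.mul_apply, ← map_mul, inv_mul_cancel, map_one, Module.End.one_apply]
  · intro l _ x hx u i g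
    exact hkey i x hx _ g ‖u‖ (norm_nonneg u) (hd2 i x hx u)
  · intro l _ x hx y hy i g
    refine ⟨?_, ?_⟩
    · rw [← ev_sub_pv1]
      exact hkey i x hx _ g ‖y - x‖ (norm_nonneg _) (hl2 i x hx y hy)
    · have h3 : (B i).ev g (v i y) - (B i).ev g (v i x) -
          ((B i).ξ ∘ₗ ((B i).ρ g⁻¹) ∘ₗ (fderiv ℝ (v i) x : E →ₗ[ℝ] (Fin (B i).d → ℝ))) (y - x)
          = (B i).ev g (v i y - v i x - fderiv ℝ (v i) x (y - x)) := by
        rw [ev_sub_pv1, ev_sub_pv1]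
        rfl
      rw [h3]
      exact hkey i x hx _ g (‖y - x‖ ^ 2) (by positivity) (ht2 i x hx y hy)
  · intro x hx
    have hz : ∀ i, v i x ≠ 0 := by
      intro i h0
      have h3 := (B i).pos _ (hvC i x (hKX hx))
      rw [h0, map_zero] at h3
      exact lt_irrefl _ h3
    obtain ⟨u, hu, lam, hlam⟩ := exists_prop_dir_pv1 r (fun i => (B i).d) (fun i => v i x) hz
      (fun i => (fderiv ℝ (v i) x : E →ₗ[ℝ] (Fin (B i).d → ℝ))) hdim
    refine ⟨u, hu, lam, 0, fun _ _ _ => 0, fun _ _ _ => 0, fun _ => 0, ?_, ?_, ?_⟩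
    · rw [abs_zero]; exact hC0
    · intro l _
      refine ⟨le_rfl, fun i g => ⟨?_, ?_, ?_, ?_⟩⟩
      · have h3 : fderiv ℝ (v i) x u = lam i • v i x := hlam i
        show (B i).ev g (fderiv ℝ (v i) x u) = _
        rw [h3, ev_smul_pv1]
        ring
      · ring
      · rw [abs_zero]; exact (hev i g x (hKX hx)).le
      · rw [abs_zero, zero_mul]
    · rw [Finset.sum_const_zero]
      (clear * - hC0 hδ; positivity)

end

end Pool.AF
end

/- Helper16.LDA.H94.AS.Rank -/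
section
open Set Finset

namespace Pool.AF

/-- A linear map of rank at most `n` has the kernel of a map to `ℝ^n`. -/
theorem exists_fin_map {E F : Type*} [AddCommGroup E] [Module ℝ E] [FiniteDimensional ℝ E]
    [AddCommGroup F] [Module ℝ F] (f : E →ₗ[ℝ] F) (n : ℕ)
    (h : Module.finrank ℝ (LinearMap.range f) ≤ n) :
    ∃ f' : E →ₗ[ℝ] (Fin n → ℝ), ∀ u, f' u = 0 → f u = 0 := by
  classical
  let b := Module.finBasis ℝ (LinearMap.range f)
  let j : (Fin (Module.finrank ℝ (LinearMap.range f)) → ℝ) →ₗ[ℝ] (Fin n → ℝ) :=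
    LinearMap.pi fun i => if hi : (i : ℕ) < Module.finrank ℝ (LinearMap.range f) then
      LinearMap.proj ⟨i, hi⟩ else 0
  refine ⟨j ∘ₗ b.equivFun.toLinearMap ∘ₗ f.rangeRestrict, fun u hu => ?_⟩
  have h1 : b.equivFun (f.rangeRestrict u) = 0 := by
    funext i
    have h2 := congrFun hu ⟨i, i.2.trans_le h⟩
    have h3 : (j (b.equivFun (f.rangeRestrict u))) ⟨i, i.2.trans_le h⟩ =
        b.equivFun (f.rangeRestrict u) i := by
      simp only [j, LinearMap.pi_apply]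
      rw [dif_pos i.2]
      rfl
    rw [← h3]
    exact h2
  have h2 : f.rangeRestrict u = 0 := by
    rw [← map_zero b.equivFun] at h1
    exact b.equivFun.injective h1
  exact congrArg Subtype.val h2

end Pool.AF
end

/- Helper16.LDA.H94.AS.DirN -/
section
open Set Finset

set_option linter.unusedSectionVars false

namespace Pool.AF

open Pool.SV

/-! ## AS DIRN: the dimension count with ranks (copy of AF/Dir.lean) -/

section

variable {E : Type*} [NormedAddCommGroup E] [NormedSpace ℝ E] [FiniteDimensional ℝ E]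

private theorem rec_add_pv2 {X : Set E} {u v : E} (hu : u ∈ Rec X) (hv : v ∈ Rec X) :
    u + v ∈ Rec X := by
  intro x hx t ht
  have h := hv _ (hu x hx t ht) t ht
  rwa [add_assoc, ← smul_add] at h

private theorem lin_rec_pv2 {X : Set E} {u : E} (hu : u ∈ Lin X) : u ∈ Rec X :=
  fun x hx t _ => hu x hx t

private theorem lin_of_rec_pv2 {X : Set E} {u : E} (hu : u ∈ Rec X) (hu' : -u ∈ Rec X) :
    u ∈ Lin X := by
  intro x hx t
  rcases le_total 0 t with ht | ht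
  · exact hu x hx t ht
  · have h := hu' x hx (-t) (by (clear * - ht; linarith))
    rwa [neg_smul_neg] at h

private theorem not_mem_of_recInt_pv2 {X : Set E} (V : Submodule ℝ E) (hV : ∀ v, v ∈ V ↔ v ∈ Lin X)
    (hVR : (V : Set E) ≠ Rec X) {e : E} (he : e ∈ RecInt X) : e ∉ V := by
  intro heV
  apply hVR
  obtain ⟨δ, hδ, h⟩ := he
  have hneg : -e ∈ Rec X := lin_rec_pv2 ((hV _).1 (V.neg_mem heV))
  have h1 : ∀ w ∈ Submodule.span ℝ (Rec X), ‖w‖ ≤ δ → w ∈ Rec X := by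
    intro w hw hwδ
    have := rec_add_pv2 hneg (h w hw hwδ)
    rwa [neg_add_cancel_left] at this
  have h2 : ∀ w ∈ Submodule.span ℝ (Rec X), ‖w‖ ≤ δ → w ∈ V := by
    intro w hw hwδ
    rw [hV]
    exact lin_of_rec_pv2 (h1 w hw hwδ) (h1 (-w) (Submodule.neg_mem _ hw) (by rwa [norm_neg]))
  have h3 : ∀ w ∈ Submodule.span ℝ (Rec X), w ∈ V := by
    intro w hw
    by_cases hw0 : w = 0
    · rw [hw0]; exact V.zero_mem
    have hn : 0 < ‖w‖ := norm_pos_iff.2 hw0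
    have h4 : (δ / ‖w‖) • w ∈ V := by
      refine h2 _ (Submodule.smul_mem _ _ hw) ?_
      rw [norm_smul, Real.norm_of_nonneg (by positivity), div_mul_cancel₀ _ hn.ne']
    have h5 := V.smul_mem (δ / ‖w‖)⁻¹ h4
    rwa [smul_smul, inv_mul_cancel₀ (by positivity), one_smul] at h5
  refine Set.Subset.antisymm (fun v hv => lin_rec_pv2 ((hV v).1 hv)) (fun w hw => ?_)
  exact h3 w (Submodule.subset_span hw)

/-- The direction: dimension count inside the span of the recession cone. -/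
theorem exists_dirN (D : Geo E) (r : ℕ) (B : Fin r → Blk D.Γ) (V : Submodule ℝ E)
    (hV : ∀ v, v ∈ V ↔ v ∈ Lin D.X) (hVR : (V : Set E) ≠ Rec D.X) (z : ∀ i, Fin (B i).d → ℝ)
    (hz : ∀ i, z i ∈ (B i).C) (z' : ∀ i, E →ₗ[ℝ] (Fin (B i).d → ℝ)) (e : E)
    (he : e ∈ RecInt D.X) (e' : E →ₗ[ℝ] E) (he' : ∀ u, e' u ∈ Submodule.span ℝ (Rec D.X))
    (n : Fin r → ℕ)
    (hn : ∀ i, Module.finrank ℝ (LinearMap.range
      ((Submodule.span ℝ {z i}).mkQ ∘ₗ z' i)) ≤ n i)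
    (hdim : ∑ i, n i ≤ Module.finrank ℝ V) :
    e ∉ V ∧ ∃ u ∈ Submodule.span ℝ (Rec D.X), ‖u‖ = 1 ∧ ∃ (lam : Fin r → ℝ) (μ : ℝ),
      (∀ i, z' i u = lam i • z i) ∧ e' u - μ • e ∈ V := by
  have heV := not_mem_of_recInt_pv2 V hV hVR he
  refine ⟨heV, ?_⟩
  set S : Submodule ℝ E := Submodule.span ℝ (Rec D.X) with hS
  have heS : e ∈ S := by
    obtain ⟨δ, hδ, h⟩ := he
    have h0 := h 0 (Submodule.zero_mem _) (by rw [norm_zero]; exact hδ.le)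
    rw [add_zero] at h0
    exact Submodule.subset_span h0
  have hVS : V ≤ S := fun v hv => Submodule.subset_span (lin_rec_pv2 ((hV v).1 hv))
  let V' : Submodule ℝ E := V ⊔ Submodule.span ℝ {e}
  have hV'S : V' ≤ S := sup_le hVS (by
    rw [Submodule.span_le, Set.singleton_subset_iff]; exact heS)
  have hlt : V < V' := by
    refine lt_of_le_of_ne le_sup_left fun h => heV ?_
    rw [h]
    exact (le_sup_right : Submodule.span ℝ {e} ≤ V') (Submodule.mem_span_singleton_self e)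
  have hfr : Module.finrank ℝ V < Module.finrank ℝ V' := Submodule.finrank_lt_finrank_of_lt hlt
  let W : Submodule ℝ S := V'.comap S.subtype
  have hW : Module.finrank ℝ W = Module.finrank ℝ V' :=
    (Submodule.comapSubtypeEquivOfLe hV'S).finrank_eq
  have hff : ∀ i, ∃ f' : E →ₗ[ℝ] (Fin (n i) → ℝ), ∀ u, f' u = 0 →
      ((Submodule.span ℝ {z i}).mkQ ∘ₗ z' i) u = 0 := fun i =>
    exists_fin_map ((Submodule.span ℝ {z i}).mkQ ∘ₗ z' i) (n i) (hn i)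
  choose ff hff using hff
  let Ψ : S →ₗ[ℝ] ((∀ i, Fin (n i) → ℝ) × (S ⧸ W)) :=
    LinearMap.prod (LinearMap.pi fun i => (ff i).comp S.subtype)
      ((Submodule.mkQ W).comp (LinearMap.codRestrict S (e'.comp S.subtype) fun u => he' u))
  have hfin : Module.finrank ℝ ((∀ i, Fin (n i) → ℝ) × (S ⧸ W)) < Module.finrank ℝ S := by
    rw [Module.finrank_prod, Module.finrank_pi_fintype]
    simp only [Module.finrank_fin_fun]
    have h1 := Submodule.finrank_quotient_add_finrank W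
    omega
  obtain ⟨u, hu, hu0⟩ := (Submodule.ne_bot_iff _).1 (LinearMap.ker_ne_bot_of_finrank_lt hfin)
  have hu1 : Ψ u = 0 := hu
  have h2 : ∀ i, z' i u ∈ Submodule.span ℝ {z i} := by
    intro i
    have := congrFun (congrArg Prod.fst hu1) i
    exact (Submodule.Quotient.mk_eq_zero _).1 (hff i u this)
  have h3 : e' u ∈ V' := by
    have := congrArg Prod.snd hu1
    exact (Submodule.Quotient.mk_eq_zero W).1 this
  have hun : (u : E) ≠ 0 := fun h => hu0 (Subtype.ext h)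
  have hn : 0 < ‖(u : E)‖ := norm_pos_iff.2 hun
  have h4 : ∀ i, ∃ l : ℝ, l • z i = z' i u := fun i => Submodule.mem_span_singleton.1 (h2 i)
  choose l hl using h4
  obtain ⟨v, hv, w, hw, hvw⟩ := Submodule.mem_sup.1 h3
  obtain ⟨m, rfl⟩ := Submodule.mem_span_singleton.1 hw
  refine ⟨‖(u : E)‖⁻¹ • (u : E), S.smul_mem _ u.2, ?_, fun i => ‖(u : E)‖⁻¹ * l i,
    ‖(u : E)‖⁻¹ * m, fun i => ?_, ?_⟩
  · rw [norm_smul, norm_inv, norm_norm, inv_mul_cancel₀ hn.ne']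
  · rw [map_smul, ← hl i, smul_smul]
  · rw [map_smul, ← hvw, smul_add, smul_smul, add_sub_cancel_right]
    exact V.smul_mem _ hv

end

end Pool.AF
end

/- Helper16.LDA.H94.AS.FamAN -/
section
open Set Finset

set_option linter.unusedSectionVars false

namespace Pool.AF

open Pool.SV

/-! ## AS FAMA: the family of kernels when the recession cone is not the lineality space, with
ranks (copy of AF/FamA.lean)
(uses AF-9a, AF-9b)

Index set `Option (Fin r)`; `some i` is the block `i`, `none` the domain itself: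
`a l x (some i) g = (B i).ev g (v i x)`,
`a l x none g = c g * ξ (hatHom D.Γ g⁻¹ (x + (1 + δ) ^ l • e x, 1))`. -/

section

variable {E : Type*} [NormedAddCommGroup E] [NormedSpace ℝ E] [FiniteDimensional ℝ E]

private theorem deriv_mem_sub_pv2 (D : Geo E) (S : Submodule ℝ E) (e : E → E)
    (he : ContDiffOn ℝ 2 e D.X) (heS : ∀ x ∈ D.X, e x ∈ S) (x : E) (hx : x ∈ D.X) (u : E) :
    fderiv ℝ e x u ∈ S := by
  by_contra hne
  obtain ⟨f, hf1, hf2⟩ := Submodule.exists_dual_map_eq_bot_of_notMem hne inferInstance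
  have hda : DifferentiableAt ℝ e x :=
    (he.differentiableOn (by norm_num)).differentiableAt (D.isOpen.mem_nhds hx)
  have h1 : HasFDerivAt (fun y => LinearMap.toContinuousLinearMap f (e y))
      ((LinearMap.toContinuousLinearMap f).comp (fderiv ℝ e x)) x :=
    (LinearMap.toContinuousLinearMap f).hasFDerivAt.comp x hda.hasFDerivAt
  have h2 : (fun y => LinearMap.toContinuousLinearMap f (e y)) =ᶠ[nhds x] fun _ => (0 : ℝ) := by
    filter_upwards [D.isOpen.mem_nhds hx] with y hy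
    have h3 : f (e y) ∈ S.map f := Submodule.mem_map_of_mem (heS y hy)
    rw [hf2, Submodule.mem_bot] at h3
    exact h3
  have h4 : HasFDerivAt (fun y => LinearMap.toContinuousLinearMap f (e y))
      (0 : E →L[ℝ] ℝ) x := (hasFDerivAt_const (0 : ℝ) x).congr_of_eventuallyEq h2
  have h5 := h1.unique h4
  apply hf1
  have h6 := congrArg (fun T : E →L[ℝ] ℝ => T u) h5
  exact h6

/-- the functional on vectors -/
private noncomputable def qf_pv2 (D : Geo E) (ξ : (E × ℝ) →ₗ[ℝ] ℝ) (g : D.Γ) : E →ₗ[ℝ] ℝ :=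
  ξ ∘ₗ ((hatHom D.Γ g : Alg E) : (E × ℝ) →ₗ[ℝ] (E × ℝ)) ∘ₗ (LinearMap.inl ℝ E ℝ)

private theorem qf_apply_pv2 (D : Geo E) (ξ : (E × ℝ) →ₗ[ℝ] ℝ) (g : D.Γ) (w : E) :
    qf_pv2 D ξ g w = ξ (hatHom D.Γ g (w, 0)) := rfl

/-- the functional on points -/
private noncomputable def pf_pv2 (D : Geo E) (ξ : (E × ℝ) →ₗ[ℝ] ℝ) (g : D.Γ) (x : E) : ℝ :=
  ξ (hatHom D.Γ g (x, 1))

private theorem pf_add_pv2 (D : Geo E) (ξ : (E × ℝ) →ₗ[ℝ] ℝ) (g : D.Γ) (x w : E) :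
    pf_pv2 D ξ g (x + w) = pf_pv2 D ξ g x + qf_pv2 D ξ g w := by
  unfold pf_pv2
  rw [qf_apply_pv2, ← map_add, ← map_add]
  congr 2
  ext
  · rfl
  · simp

private theorem hat_pt_pv2 (D : Geo E) (g : D.Γ) (x : E) : hatHom D.Γ g (x, 1) = (g.1 x, 1) := by
  have h : hatHom D.Γ g (x, 1) = (g.1.linear x + (1 : ℝ) • g.1 0, (1 : ℝ)) := rfl
  rw [h, one_smul, ← aff_eq]

private theorem hat_vec_pv2 (D : Geo E) (g : D.Γ) (w : E) :
    hatHom D.Γ g (w, 0) = (g.1.linear w, 0) := by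
  have h : hatHom D.Γ g (w, 0) = (g.1.linear w + (0 : ℝ) • g.1 0, (0 : ℝ)) := rfl
  rw [h, zero_smul, add_zero]

private theorem hat_inv_pv2 (D : Geo E) (h g : D.Γ) (z : E × ℝ) :
    hatHom D.Γ (h * g)⁻¹ (hatHom D.Γ h z) = hatHom D.Γ g⁻¹ z := by
  have h1 : hatHom D.Γ (h * g)⁻¹ * hatHom D.Γ h = hatHom D.Γ g⁻¹ := by
    rw [← map_mul]
    congr 1
    group
  rw [← h1]
  rfl

private theorem pf_pos_pv2 (D : Geo E) (ξ : (E × ℝ) →ₗ[ℝ] ℝ) (hξ : ∀ x ∈ D.X, 0 < ξ (x, 1))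
    (g : D.Γ) (x : E) (hx : x ∈ D.X) : 0 < pf_pv2 D ξ g x := by
  unfold pf_pv2
  rw [hat_pt_pv2]
  exact hξ _ (D.inv _ g.2 x hx)

private theorem recInt_sub_pv2 (D : Geo E) : RecInt D.X ⊆ Rec D.X := by
  rintro u ⟨δ, hδ, h⟩
  have := h 0 (Submodule.zero_mem _) (by rw [norm_zero]; exact hδ.le)
  rwa [add_zero] at this

private theorem lin_inv_pv2 (D : Geo E) (g : D.Γ) (w : E) (hw : w ∈ Lin D.X) :
    g.1.linear w ∈ Lin D.X := by
  intro x hx t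
  have h1 : (g⁻¹ : D.Γ).1 x ∈ D.X := D.inv _ (g⁻¹ : D.Γ).2 x hx
  have h2 := D.inv _ g.2 _ (hw _ h1 t)
  have h3 : g.1 ((g⁻¹ : D.Γ).1 x + t • w) = x + t • g.1.linear w := by
    rw [aff_eq g.1, map_add, map_smul, add_right_comm, ← aff_eq]
    congr 1
    have h4 : g.1 ((g⁻¹ : D.Γ).1 x) = ((g * g⁻¹ : D.Γ).1) x := rfl
    rw [h4, mul_inv_cancel]
    rfl
  rwa [h3] at h2

private theorem evv_sub_pv2 {G : Type*} [Group G] (B : Blk G) (g : G) (v w : Fin B.d → ℝ) :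
    B.ev g (v - w) = B.ev g v - B.ev g w := by
  unfold Blk.ev
  rw [map_sub, map_sub]

private theorem evv_smul_pv2 {G : Type*} [Group G] (B : Blk G) (g : G) (c : ℝ) (v : Fin B.d → ℝ) :
    B.ev g (c • v) = c * B.ev g v := by
  unfold Blk.ev
  rw [map_smul, map_smul, smul_eq_mul]

/-- the family -/
private noncomputable def aa_pv2 (D : Geo E) {r : ℕ} (B : Fin r → Blk D.Γ)
    (v : ∀ i, E → (Fin (B i).d → ℝ)) (e : E → E) (c : D.Γ → ℝ) (ξ : (E × ℝ) →ₗ[ℝ] ℝ) (δ : ℝ)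
    (l : ℕ) (x : E) : Option (Fin r) → D.Γ → ℝ
  | none, g => c g * (pf_pv2 D ξ g⁻¹ x + (1 + δ) ^ l * qf_pv2 D ξ g⁻¹ (e x))
  | some i, g => (B i).ev g (v i x)

/-- the derivative of the family -/
private noncomputable def aa'_pv2 (D : Geo E) {r : ℕ} (B : Fin r → Blk D.Γ)
    (v : ∀ i, E → (Fin (B i).d → ℝ)) (e : E → E) (c : D.Γ → ℝ) (ξ : (E × ℝ) →ₗ[ℝ] ℝ) (δ : ℝ)
    (l : ℕ) (x : E) : Option (Fin r) → D.Γ → (E →ₗ[ℝ] ℝ)
  | none, g => c g • (qf_pv2 D ξ g⁻¹ + (1 + δ) ^ l • (qf_pv2 D ξ g⁻¹ ∘ₗ (fderiv ℝ e x : E →ₗ[ℝ] E)))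
  | some i, g => (B i).ξ ∘ₗ ((B i).ρ g⁻¹) ∘ₗ (fderiv ℝ (v i) x : E →ₗ[ℝ] (Fin (B i).d → ℝ))

private theorem geo_sum_pv2 (δ : ℝ) (hδ : 0 < δ) (n : ℕ) :
    δ * ∑ l ∈ Finset.range n, ((1 + δ) ^ l)⁻¹ = (1 + δ) * (1 - ((1 + δ) ^ n)⁻¹) := by
  have h1 : (1 + δ) ≠ 0 := by (clear * - hδ; positivity)
  induction n with
  | zero => simp
  | succ n ih =>
    rw [Finset.sum_range_succ, mul_add, ih, pow_succ]
    have h2 : (1 + δ) ^ n ≠ 0 := pow_ne_zero _ h1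
    field_simp
    ring

theorem fam_AN (D : Geo E) (K : Set E) (hK : IsCompact K) (hKX : K ⊆ D.X) (hKc : Convex ℝ K)
    (r : ℕ) (B : Fin r → Blk D.Γ) (v : ∀ i, E → (Fin (B i).d → ℝ))
    (hv : ∀ i, ContDiffOn ℝ 2 (v i) D.X) (hvC : ∀ i, ∀ x ∈ D.X, v i x ∈ (B i).C)
    (hve : ∀ i, ∀ g : D.Γ, ∀ x ∈ D.X, ∃ s : ℝ, 0 < s ∧ v i (g.1 x) = s • (B i).ρ g (v i x))
    (e : E → E) (he : ContDiffOn ℝ 2 e D.X) (heR : ∀ x ∈ D.X, e x ∈ RecInt D.X)
    (hee : ∀ g : D.Γ, ∀ x ∈ D.X, e (g.1 x) = g.1.linear (e x))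
    (V : Submodule ℝ E) (hV : ∀ v, v ∈ V ↔ v ∈ Lin D.X) (hVR : (V : Set E) ≠ Rec D.X)
    (c : D.Γ → ℝ) (hc : PosMul c) (ξ : (E × ℝ) →ₗ[ℝ] ℝ) (hξV : ∀ v ∈ V, ξ (v, 0) = 0)
    (hξ : ∀ x ∈ D.X, 0 < ξ (x, 1)) (hξR : ∀ u ∈ Rec D.X, u ∉ V → 0 < ξ (u, 0)) (N : ℕ)
    (hN : ∀ x ∈ D.X, ∀ y ∈ D.X, Summable (fun g : D.Γ =>
      (c g * ξ (hatHom D.Γ g⁻¹ (y, 1)))⁻¹ ^ N * ∏ i, ((B i).ev g (v i x))⁻¹ ^ N))
    (n : Fin r → ℕ)
    (hn : ∀ i, ∀ x ∈ D.X, Module.finrank ℝ (LinearMap.range ((Submodule.span ℝ {v i x}).mkQ ∘ₗ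
      (fderiv ℝ (v i) x : E →ₗ[ℝ] (Fin (B i).d → ℝ)))) ≤ n i)
    (hdim : ∑ i, n i ≤ Module.finrank ℝ V) :
    ∃ C : ℝ, 0 ≤ C ∧ ∀ δ : ℝ, 0 < δ → δ ≤ 1 → FamHyp D K (Option (Fin r)) N C δ := by
  classical
  -- constants of the blocks
  have h1 : ∀ i, ∃ C : ℝ, 0 ≤ C ∧ ∀ z ∈ v i '' K, ∀ w : Fin (B i).d → ℝ, ∀ g,
      |(B i).ev g w| ≤ C * ‖w‖ * (B i).ev g z := fun i =>
    blk_gauge (B i) (v i '' K) (hK.image_of_continuousOn ((hv i).continuousOn.mono hKX))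
      (by rintro _ ⟨x, hx, rfl⟩; exact hvC i x (hKX hx))
  choose C1 hC1 hg1 using h1
  have h2 := fun i => c2_est D K hK hKX hKc (v i) (hv i)
  choose C2 hC2 hd2 hl2 ht2 using h2
  have hev : ∀ i (g : D.Γ), ∀ x ∈ D.X, 0 < (B i).ev g (v i x) := fun i g x hx =>
    (B i).pos _ ((B i).inv _ _ (hvC i x hx))
  have hCnn : ∀ i ∈ (Finset.univ : Finset (Fin r)), 0 ≤ C1 i * C2 i := fun i _ =>
    mul_nonneg (hC1 i) (hC2 i)
  -- constants of the domain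
  obtain ⟨Cd, hCd, hgd⟩ := dom_gauge D ξ hξ K hK hKX
  obtain ⟨Cr, hCr, hgr⟩ := rec_gauge D ξ hξ (e '' K)
    (hK.image_of_continuousOn (he.continuousOn.mono hKX))
    (by rintro _ ⟨x, hx, rfl⟩; exact heR x (hKX hx))
  obtain ⟨Ce, hCe, hde, hle, hte⟩ := c2_est D K hK hKX hKc e he
  set S : Submodule ℝ E := Submodule.span ℝ (Rec D.X) with hS
  have heS : ∀ x ∈ D.X, e x ∈ S := fun x hx => Submodule.subset_span (recInt_sub_pv2 D (heR x hx))
  have hdS : ∀ x ∈ D.X, ∀ u, fderiv ℝ e x u ∈ S := fun x hx u =>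
    deriv_mem_sub_pv2 D S e he heS x hx u
  have hqe : ∀ x ∈ D.X, ∀ g : D.Γ, 0 ≤ qf_pv2 D ξ g (e x) := fun x hx g =>
    (rec_nonneg D ξ hξ (e x) (recInt_sub_pv2 D (heR x hx)) g).2
  have hpp : ∀ x ∈ D.X, ∀ g : D.Γ, 0 < pf_pv2 D ξ g x := fun x hx g => pf_pos_pv2 D ξ hξ g x hx
  have hqd : ∀ x ∈ K, ∀ u (g : D.Γ), |qf_pv2 D ξ g u| ≤ Cd * ‖u‖ * pf_pv2 D ξ g x := fun x hx u g =>
    hgd x hx u g
  have hqr : ∀ x ∈ K, ∀ w ∈ S, ∀ g : D.Γ, |qf_pv2 D ξ g w| ≤ Cr * ‖w‖ * qf_pv2 D ξ g (e x) :=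
    fun x hx w hw g => hgr (e x) ⟨x, hx, rfl⟩ w hw g
  -- the constant
  set CB : ℝ := ∑ i, C1 i * C2 i with hCB
  have hCB0 : 0 ≤ CB := Finset.sum_nonneg hCnn
  have hCi : ∀ i, C1 i * C2 i ≤ CB := fun i => Finset.single_le_sum hCnn (Finset.mem_univ i)
  have hCrCe : 0 ≤ Cr * Ce := mul_nonneg hCr hCe
  set C : ℝ := CB + Cd + Cr * Ce + 2 * Cr with hC
  have hC0 : 0 ≤ C := by (clear * - hCB0 hCd hCr hCe; positivity)
  have hkey : ∀ i, ∀ x ∈ K, ∀ (w : Fin (B i).d → ℝ) (g : D.Γ) (t : ℝ), 0 ≤ t →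
      ‖w‖ ≤ C2 i * t → |(B i).ev g w| ≤ C * t * (B i).ev g (v i x) := by
    intro i x hx w g t ht hw
    have h3 := hg1 i (v i x) ⟨x, hx, rfl⟩ w g
    have h4 := hev i g x (hKX hx)
    have h5 : C1 i * C2 i ≤ C := by
      have := hCi i
      rw [hC]
      nlinarith only [hCd, hCr, hCe, this]
    calc |(B i).ev g w| ≤ C1 i * ‖w‖ * (B i).ev g (v i x) := h3
      _ ≤ C1 i * (C2 i * t) * (B i).ev g (v i x) := by
          have := mul_le_mul_of_nonneg_left hw (hC1 i)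
          exact mul_le_mul_of_nonneg_right this h4.le
      _ = (C1 i * C2 i) * t * (B i).ev g (v i x) := by ring
      _ ≤ C * t * (B i).ev g (v i x) := by
          exact mul_le_mul_of_nonneg_right (mul_le_mul_of_nonneg_right h5 ht) h4.le
  have hkey0 : ∀ x ∈ K, ∀ (w₁ w₂ : E) (g : D.Γ) (t T : ℝ), 0 ≤ t → 0 ≤ T → w₂ ∈ S →
      ‖w₁‖ ≤ t → ‖w₂‖ ≤ Ce * t →
      |c g * (qf_pv2 D ξ g⁻¹ w₁ + T * qf_pv2 D ξ g⁻¹ w₂)| ≤
        C * t * (c g * (pf_pv2 D ξ g⁻¹ x + T * qf_pv2 D ξ g⁻¹ (e x))) := by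
    intro x hx w₁ w₂ g t T ht hT hw₂S hw₁ hw₂
    have h3 := hqd x hx w₁ g⁻¹
    have h4 := hqr x hx w₂ hw₂S g⁻¹
    have hp := hpp x (hKX hx) g⁻¹
    have hq := hqe x (hKX hx) g⁻¹
    have hcg := hc.1 g
    have h5 : |qf_pv2 D ξ g⁻¹ w₁| ≤ (Cd * t) * pf_pv2 D ξ g⁻¹ x :=
      h3.trans (mul_le_mul_of_nonneg_right (mul_le_mul_of_nonneg_left hw₁ hCd) hp.le)
    have h6 : |qf_pv2 D ξ g⁻¹ w₂| ≤ (Cr * (Ce * t)) * qf_pv2 D ξ g⁻¹ (e x) :=
      h4.trans (mul_le_mul_of_nonneg_right (mul_le_mul_of_nonneg_left hw₂ hCr) hq)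
    rw [abs_mul, abs_of_pos hcg]
    have h7 : |qf_pv2 D ξ g⁻¹ w₁ + T * qf_pv2 D ξ g⁻¹ w₂| ≤
        C * t * (pf_pv2 D ξ g⁻¹ x + T * qf_pv2 D ξ g⁻¹ (e x)) := by
      calc |qf_pv2 D ξ g⁻¹ w₁ + T * qf_pv2 D ξ g⁻¹ w₂|
          ≤ |qf_pv2 D ξ g⁻¹ w₁| + |T * qf_pv2 D ξ g⁻¹ w₂| := abs_add_le _ _
        _ = |qf_pv2 D ξ g⁻¹ w₁| + T * |qf_pv2 D ξ g⁻¹ w₂| := by rw [abs_mul, abs_of_nonneg hT]
        _ ≤ (Cd * t) * pf_pv2 D ξ g⁻¹ x + T * ((Cr * (Ce * t)) * qf_pv2 D ξ g⁻¹ (e x)) :=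
            add_le_add h5 (mul_le_mul_of_nonneg_left h6 hT)
        _ ≤ C * t * (pf_pv2 D ξ g⁻¹ x + T * qf_pv2 D ξ g⁻¹ (e x)) := by
            have h8 : 0 ≤ t * pf_pv2 D ξ g⁻¹ x := mul_nonneg ht hp.le
            have h9 : 0 ≤ t * (T * qf_pv2 D ξ g⁻¹ (e x)) := mul_nonneg ht (mul_nonneg hT hq)
            have h10 : Cd ≤ C := by rw [hC]; linarith only [hCr, hCB0, hCrCe]
            have h11 : Cr * Ce ≤ C := by rw [hC]; linarith only [hCd, hCr, hCB0]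
            have h12 := mul_le_mul_of_nonneg_right h10 h8
            have h13 := mul_le_mul_of_nonneg_right h11 h9
            (clear * - h12 h13; linarith only [h12, h13])
    calc c g * |qf_pv2 D ξ g⁻¹ w₁ + T * qf_pv2 D ξ g⁻¹ w₂|
        ≤ c g * (C * t * (pf_pv2 D ξ g⁻¹ x + T * qf_pv2 D ξ g⁻¹ (e x))) :=
          mul_le_mul_of_nonneg_left h7 hcg.le
      _ = _ := by ring
  refine ⟨C, hC0, fun δ hδ hδ1 => ?_⟩
  have ht0 : ∀ l : ℕ, 0 < (1 + δ) ^ l := fun l => by (clear * - hδ; positivity)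
  have hsub : ∀ l : ℕ, ∀ x ∈ D.X, x + (1 + δ) ^ l • e x ∈ D.X := fun l x hx =>
    recInt_sub_pv2 D (heR x hx) x hx _ (ht0 l).le
  have hnone : ∀ (l : ℕ) (x : E) (g : D.Γ), aa_pv2 D B v e c ξ δ l x none g
      = c g * ξ (hatHom D.Γ g⁻¹ (x + (1 + δ) ^ l • e x, 1)) := by
    intro l x g
    show c g * (pf_pv2 D ξ g⁻¹ x + (1 + δ) ^ l * qf_pv2 D ξ g⁻¹ (e x))
      = c g * pf_pv2 D ξ g⁻¹ (x + (1 + δ) ^ l • e x)
    rw [pf_add_pv2, map_smul, smul_eq_mul]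
  have hnpos : ∀ (l : ℕ) (x : E), x ∈ D.X → ∀ g : D.Γ, 0 < aa_pv2 D B v e c ξ δ l x none g := by
    intro l x hx g
    rw [hnone]
    exact mul_pos (hc.1 g) (pf_pos_pv2 D ξ hξ g⁻¹ _ (hsub l x hx))
  have hLn : 1 ≤ δ ^ 2 * (⌈(δ ^ 2)⁻¹⌉₊ : ℝ) := by
    have h3 : (δ ^ 2)⁻¹ ≤ (⌈(δ ^ 2)⁻¹⌉₊ : ℝ) := Nat.le_ceil _
    have h4 : 0 < δ ^ 2 := by positivity
    calc (1 : ℝ) = δ ^ 2 * (δ ^ 2)⁻¹ := (mul_inv_cancel₀ h4.ne').symm
      _ ≤ _ := mul_le_mul_of_nonneg_left h3 h4.le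
  refine ⟨⌈(δ ^ 2)⁻¹⌉₊, aa_pv2 D B v e c ξ δ, aa'_pv2 D B v e c ξ δ, C, hLn, ?_, ?_, ?_, ?_, ?_⟩
  · intro l x hx
    refine ⟨fun i g => ?_, ?_⟩
    · cases i with
      | none => exact hnpos l x hx g
      | some i => exact hev i g x hx
    · refine (hN x hx (x + (1 + δ) ^ l • e x) (hsub l x hx)).congr fun g => ?_
      unfold kern
      rw [Fintype.prod_option, hnone]
      rfl
  · intro l h x hx i
    cases i with
    | none =>
      refine ⟨c h, hc.1 h, fun g => ?_⟩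
      show c (h * g) * (pf_pv2 D ξ (h * g)⁻¹ (h.1 x) + (1 + δ) ^ l * qf_pv2 D ξ (h * g)⁻¹ (e (h.1 x)))
        = c h * (c g * (pf_pv2 D ξ g⁻¹ x + (1 + δ) ^ l * qf_pv2 D ξ g⁻¹ (e x)))
      have h3 : pf_pv2 D ξ (h * g)⁻¹ (h.1 x) = pf_pv2 D ξ g⁻¹ x := by
        unfold pf_pv2
        rw [← hat_pt_pv2, hat_inv_pv2]
      have h4 : qf_pv2 D ξ (h * g)⁻¹ (e (h.1 x)) = qf_pv2 D ξ g⁻¹ (e x) := by
        rw [hee h x hx, qf_apply_pv2, qf_apply_pv2, ← hat_vec_pv2, hat_inv_pv2]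
      rw [h3, h4, hc.2]
      ring
    | some i =>
      obtain ⟨s, hs, hs2⟩ := hve i h x hx
      refine ⟨s, hs, fun g => ?_⟩
      show (B i).ξ ((B i).ρ (h * g)⁻¹ (v i (h.1 x))) = s * (B i).ξ ((B i).ρ g⁻¹ (v i x))
      rw [hs2, map_smul, map_smul, smul_eq_mul, mul_inv_rev, map_mul, Module.End.mul_apply]
      congr 3
      rw [← Module.End.mul_apply, ← map_mul, inv_mul_cancel, map_one, Module.End.one_apply]
  · intro l _ x hx u i g
    cases i with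
    | none =>
      exact hkey0 x hx u (fderiv ℝ e x u) g ‖u‖ ((1 + δ) ^ l) (norm_nonneg u) (ht0 l).le
        (hdS x (hKX hx) u) le_rfl (hde x hx u)
    | some i => exact hkey i x hx _ g ‖u‖ (norm_nonneg u) (hd2 i x hx u)
  · intro l _ x hx y hy i g
    cases i with
    | none =>
      have hpsub : pf_pv2 D ξ g⁻¹ y = pf_pv2 D ξ g⁻¹ x + qf_pv2 D ξ g⁻¹ (y - x) := by
        rw [← pf_add_pv2, add_sub_cancel]
      refine ⟨?_, ?_⟩
      · have h3 : aa_pv2 D B v e c ξ δ l y none g - aa_pv2 D B v e c ξ δ l x none g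
            = c g * (qf_pv2 D ξ g⁻¹ (y - x) + (1 + δ) ^ l * qf_pv2 D ξ g⁻¹ (e y - e x)) := by
          show c g * (pf_pv2 D ξ g⁻¹ y + (1 + δ) ^ l * qf_pv2 D ξ g⁻¹ (e y))
            - c g * (pf_pv2 D ξ g⁻¹ x + (1 + δ) ^ l * qf_pv2 D ξ g⁻¹ (e x)) = _
          rw [hpsub, map_sub (qf_pv2 D ξ g⁻¹) (e y) (e x)]
          ring
        rw [h3]
        exact hkey0 x hx _ _ g ‖y - x‖ ((1 + δ) ^ l) (norm_nonneg _) (ht0 l).le
          (S.sub_mem (heS y (hKX hy)) (heS x (hKX hx))) le_rfl (hle x hx y hy)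
      · have h3 : aa_pv2 D B v e c ξ δ l y none g - aa_pv2 D B v e c ξ δ l x none g
            - aa'_pv2 D B v e c ξ δ l x none g (y - x)
            = c g * (qf_pv2 D ξ g⁻¹ 0 +
              (1 + δ) ^ l * qf_pv2 D ξ g⁻¹ (e y - e x - fderiv ℝ e x (y - x))) := by
          show c g * (pf_pv2 D ξ g⁻¹ y + (1 + δ) ^ l * qf_pv2 D ξ g⁻¹ (e y))
            - c g * (pf_pv2 D ξ g⁻¹ x + (1 + δ) ^ l * qf_pv2 D ξ g⁻¹ (e x))
            - c g * (qf_pv2 D ξ g⁻¹ (y - x) + (1 + δ) ^ l * qf_pv2 D ξ g⁻¹ (fderiv ℝ e x (y - x))) = _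
          rw [hpsub, map_sub (qf_pv2 D ξ g⁻¹) (e y - e x), map_sub (qf_pv2 D ξ g⁻¹) (e y) (e x), map_zero]
          ring
        rw [h3]
        refine hkey0 x hx _ _ g (‖y - x‖ ^ 2) ((1 + δ) ^ l) (by (clear * -; positivity)) (ht0 l).le
          (S.sub_mem (S.sub_mem (heS y (hKX hy)) (heS x (hKX hx))) (hdS x (hKX hx) _)) ?_
          (hte x hx y hy)
        rw [norm_zero]
        (clear * -; positivity)
    | some i =>
      refine ⟨?_, ?_⟩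
      · show |(B i).ev g (v i y) - (B i).ev g (v i x)| ≤ _
        rw [← evv_sub_pv2]
        exact hkey i x hx _ g ‖y - x‖ (norm_nonneg _) (hl2 i x hx y hy)
      · have h3 : (B i).ev g (v i y) - (B i).ev g (v i x) -
            ((B i).ξ ∘ₗ ((B i).ρ g⁻¹) ∘ₗ (fderiv ℝ (v i) x : E →ₗ[ℝ] (Fin (B i).d → ℝ))) (y - x)
            = (B i).ev g (v i y - v i x - fderiv ℝ (v i) x (y - x)) := by
          rw [evv_sub_pv2, evv_sub_pv2]
          rfl
        show |(B i).ev g (v i y) - (B i).ev g (v i x) -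
            ((B i).ξ ∘ₗ ((B i).ρ g⁻¹) ∘ₗ (fderiv ℝ (v i) x : E →ₗ[ℝ] (Fin (B i).d → ℝ))) (y - x)|
            ≤ _
        rw [h3]
        exact hkey i x hx _ g (‖y - x‖ ^ 2) (by (clear * -; positivity)) (ht2 i x hx y hy)
  · intro x hx
    have hxX := hKX hx
    obtain ⟨heV, u, huS, hu, lam, μ, hlam, hμ⟩ := exists_dirN D r B V hV hVR (fun i => v i x)
      (fun i => hvC i x hxX)
      (fun i => (fderiv ℝ (v i) x : E →ₗ[ℝ] (Fin (B i).d → ℝ))) (e x) (heR x hxX)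
      (fderiv ℝ e x : E →ₗ[ℝ] E) (fun u => hdS x hxX u) n (fun i => hn i x hxX) hdim
    have hqV : ∀ g : D.Γ, ∀ w ∈ V, qf_pv2 D ξ g w = 0 := by
      intro g w hw
      rw [qf_apply_pv2, hat_vec_pv2]
      exact hξV _ ((hV _).2 (lin_inv_pv2 D g w ((hV w).1 hw)))
    have hqμ : ∀ g : D.Γ, qf_pv2 D ξ g (fderiv ℝ e x u) = μ * qf_pv2 D ξ g (e x) := by
      intro g
      have h3 := hqV g _ hμ
      rw [map_sub, map_smul, smul_eq_mul] at h3
      have h4 : qf_pv2 D ξ g ((fderiv ℝ e x : E →ₗ[ℝ] E) u) = qf_pv2 D ξ g (fderiv ℝ e x u) := rfl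
      rw [h4] at h3
      linarith only [h3]
    have hmu : |μ| ≤ Cr * Ce := by
      have h3 := hqr x hx _ (hdS x hxX u) 1
      rw [hqμ 1, abs_mul] at h3
      have h4 : 0 < qf_pv2 D ξ (1 : D.Γ) (e x) := by
        rw [qf_apply_pv2, map_one]
        exact hξR _ (recInt_sub_pv2 D (heR x hxX)) heV
      rw [abs_of_pos h4] at h3
      have h5 : Cr * ‖fderiv ℝ e x u‖ * qf_pv2 D ξ (1 : D.Γ) (e x)
          ≤ Cr * Ce * qf_pv2 D ξ (1 : D.Γ) (e x) := by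
        refine mul_le_mul_of_nonneg_right (mul_le_mul_of_nonneg_left ?_ hCr) h4.le
        have := hde x hx u
        rwa [hu, mul_one] at this
      exact le_of_mul_le_mul_right (h3.trans h5) h4
    refine ⟨u, hu, fun o => o.elim 0 lam, μ,
      fun l o g => o.elim ((1 + δ) ^ l * (c g * qf_pv2 D ξ g⁻¹ (e x))) (fun _ => 0),
      fun _ o g => o.elim (c g * qf_pv2 D ξ g⁻¹ u) (fun _ => 0),
      fun l => Cr * ((1 + δ) ^ l)⁻¹, ?_, ?_, ?_⟩
    · refine hmu.trans ?_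
      rw [hC]
      linarith only [hCd, hCr, hCB0]
    · intro l _
      refine ⟨mul_nonneg hCr (inv_nonneg.2 (ht0 l).le), fun i g => ?_⟩
      cases i with
      | none =>
        have hcg := hc.1 g
        have hp := hpp x hxX g⁻¹
        have hq := hqe x hxX g⁻¹
        have hy0 : 0 ≤ (1 + δ) ^ l * (c g * qf_pv2 D ξ g⁻¹ (e x)) :=
          mul_nonneg (ht0 l).le (mul_nonneg hcg.le hq)
        have hya : (1 + δ) ^ l * (c g * qf_pv2 D ξ g⁻¹ (e x)) ≤ aa_pv2 D B v e c ξ δ l x none g := by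
          show _ ≤ c g * (pf_pv2 D ξ g⁻¹ x + (1 + δ) ^ l * qf_pv2 D ξ g⁻¹ (e x))
          have := mul_nonneg hcg.le hp.le
          linarith only [this]
        refine ⟨?_, ?_, ?_, ?_⟩
        · show c g * (qf_pv2 D ξ g⁻¹ u + (1 + δ) ^ l * qf_pv2 D ξ g⁻¹ (fderiv ℝ e x u)) =
            0 * aa_pv2 D B v e c ξ δ l x none g + c g * qf_pv2 D ξ g⁻¹ u
              + μ * ((1 + δ) ^ l * (c g * qf_pv2 D ξ g⁻¹ (e x)))
          rw [hqμ]
          ring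
        · show c g * (pf_pv2 D ξ g⁻¹ x + (1 + δ) ^ (l + 1) * qf_pv2 D ξ g⁻¹ (e x)) =
            c g * (pf_pv2 D ξ g⁻¹ x + (1 + δ) ^ l * qf_pv2 D ξ g⁻¹ (e x))
              + δ * ((1 + δ) ^ l * (c g * qf_pv2 D ξ g⁻¹ (e x)))
          ring
        · show |(1 + δ) ^ l * (c g * qf_pv2 D ξ g⁻¹ (e x))| ≤ _
          rw [abs_of_nonneg hy0]
          exact hya
        · show |c g * qf_pv2 D ξ g⁻¹ u| ≤ Cr * ((1 + δ) ^ l)⁻¹ * aa_pv2 D B v e c ξ δ l x none g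
          rw [abs_mul, abs_of_pos hcg]
          have h3 := hqr x hx u huS g⁻¹
          rw [hu, mul_one] at h3
          have h4 : Cr * ((1 + δ) ^ l)⁻¹ * ((1 + δ) ^ l * (c g * qf_pv2 D ξ g⁻¹ (e x)))
              = c g * (Cr * qf_pv2 D ξ g⁻¹ (e x)) := by
            have := (ht0 l).ne'
            (clear * - this hcg; field_simp)
          calc c g * |qf_pv2 D ξ g⁻¹ u| ≤ c g * (Cr * qf_pv2 D ξ g⁻¹ (e x)) :=
                mul_le_mul_of_nonneg_left h3 hcg.le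
            _ = Cr * ((1 + δ) ^ l)⁻¹ * ((1 + δ) ^ l * (c g * qf_pv2 D ξ g⁻¹ (e x))) := h4.symm
            _ ≤ _ := mul_le_mul_of_nonneg_left hya
                (mul_nonneg hCr (inv_nonneg.2 (ht0 l).le))
      | some i =>
        refine ⟨?_, ?_, ?_, ?_⟩
        · have h3 : fderiv ℝ (v i) x u = lam i • v i x := hlam i
          show (B i).ev g (fderiv ℝ (v i) x u) = lam i * (B i).ev g (v i x) + 0 + μ * 0
          rw [h3, evv_smul_pv2]
          ring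
        · show (B i).ev g (v i x) = (B i).ev g (v i x) + δ * 0
          ring
        · show |(0 : ℝ)| ≤ (B i).ev g (v i x)
          rw [abs_zero]
          exact (hev i g x hxX).le
        · show |(0 : ℝ)| ≤ Cr * ((1 + δ) ^ l)⁻¹ * (B i).ev g (v i x)
          rw [abs_zero]
          exact mul_nonneg (mul_nonneg hCr (inv_nonneg.2 (ht0 l).le)) (hev i g x hxX).le
    · rw [← Finset.mul_sum]
      set n := ⌈(δ ^ 2)⁻¹⌉₊ with hn
      have h3 := geo_sum_pv2 δ hδ n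
      have h4 : δ * ∑ l ∈ Finset.range n, ((1 + δ) ^ l)⁻¹ ≤ 2 := by
        rw [h3]
        have h5 : 0 < ((1 + δ) ^ n)⁻¹ := inv_pos.2 (ht0 n)
        nlinarith only [hδ, hδ1, h5]
      have h6 : ∑ l ∈ Finset.range n, ((1 + δ) ^ l)⁻¹ ≤ 2 * (δ * n) := by
        have h7 : ∑ l ∈ Finset.range n, ((1 + δ) ^ l)⁻¹ * δ ≤ 2 * (δ * n) * δ := by
          rw [← Finset.sum_mul]
          (clear * - hLn h4; linarith only [hLn, h4])
        rw [← Finset.sum_mul] at h7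
        exact le_of_mul_le_mul_right h7 hδ
      have h8 : 0 ≤ δ * (n : ℝ) := by (clear * - hδ; positivity)
      calc Cr * ∑ l ∈ Finset.range n, ((1 + δ) ^ l)⁻¹ ≤ Cr * (2 * (δ * n)) :=
            mul_le_mul_of_nonneg_left h6 hCr
        _ = (2 * Cr) * (δ * n) := by ring
        _ ≤ C * (δ * n) := mul_le_mul_of_nonneg_right (by rw [hC]; linarith only [hCd, hCB0, hCrCe]) h8
        _ = C * δ * n := by ring

end

end Pool.AF
end

/- Helper16.LDA.H94.AS.FamBN -/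
section
open Set Finset

set_option linter.unusedSectionVars false

namespace Pool.AF

open Pool.SV

/-! ## AS FAMB: the family of kernels when the domain is bounded modulo the lineality space, with
ranks (copy of AF/FamB.lean)

`a l x i g = (B i).ev g (v i x)` does not depend on `l` (uses `c2_est`, `blk_gauge`). -/

section

variable {E : Type*} [NormedAddCommGroup E] [NormedSpace ℝ E] [FiniteDimensional ℝ E]

/-- A unit vector along which all the derivatives are proportional to the values. -/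
private theorem exists_prop_dir_pv2 (r : ℕ) (d : Fin r → ℕ) (z : ∀ i, Fin (d i) → ℝ)
    (z' : ∀ i, E →ₗ[ℝ] (Fin (d i) → ℝ)) (n : Fin r → ℕ)
    (hn : ∀ i, Module.finrank ℝ (LinearMap.range
      ((Submodule.span ℝ {z i}).mkQ ∘ₗ z' i)) ≤ n i)
    (hdim : ∑ i, n i < Module.finrank ℝ E) :
    ∃ u : E, ‖u‖ = 1 ∧ ∃ lam : Fin r → ℝ, ∀ i, z' i u = lam i • z i := by
  have hff : ∀ i, ∃ f' : E →ₗ[ℝ] (Fin (n i) → ℝ), ∀ u, f' u = 0 →
      ((Submodule.span ℝ {z i}).mkQ ∘ₗ z' i) u = 0 := fun i =>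
    exists_fin_map ((Submodule.span ℝ {z i}).mkQ ∘ₗ z' i) (n i) (hn i)
  choose ff hff using hff
  let T : E →ₗ[ℝ] (∀ i, Fin (n i) → ℝ) := LinearMap.pi fun i => ff i
  have hfin : Module.finrank ℝ (∀ i, Fin (n i) → ℝ) < Module.finrank ℝ E := by
    rw [Module.finrank_pi_fintype]
    simp only [Module.finrank_fin_fun]
    exact hdim
  have hker : LinearMap.ker T ≠ ⊥ := LinearMap.ker_ne_bot_of_finrank_lt hfin
  obtain ⟨u, hu, hu0⟩ := Submodule.exists_mem_ne_zero_of_ne_bot hker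
  have hprop : ∀ i, ∃ c : ℝ, c • z i = z' i u := by
    intro i
    have h2 : T u = 0 := hu
    have h3 : T u i = 0 := by rw [h2]; rfl
    have h4 : Submodule.mkQ (Submodule.span ℝ {z i}) (z' i u) = 0 := hff i u h3
    rw [Submodule.mkQ_apply, Submodule.Quotient.mk_eq_zero] at h4
    exact Submodule.mem_span_singleton.1 h4
  choose c hc using hprop
  refine ⟨‖u‖⁻¹ • u, ?_, fun i => ‖u‖⁻¹ * c i, fun i => ?_⟩
  · rw [norm_smul, norm_inv, norm_norm, inv_mul_cancel₀ (norm_ne_zero_iff.2 hu0)]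
  · rw [map_smul, ← hc i, smul_smul]

private theorem ev_sub_pv2 {G : Type*} [Group G] (B : Blk G) (g : G) (v w : Fin B.d → ℝ) :
    B.ev g (v - w) = B.ev g v - B.ev g w := by
  unfold Blk.ev
  rw [map_sub, map_sub]

private theorem ev_smul_pv2 {G : Type*} [Group G] (B : Blk G) (g : G) (c : ℝ) (v : Fin B.d → ℝ) :
    B.ev g (c • v) = c * B.ev g v := by
  unfold Blk.ev
  rw [map_smul, map_smul, smul_eq_mul]

theorem fam_BN (D : Geo E) (K : Set E) (hK : IsCompact K) (hKX : K ⊆ D.X) (hKc : Convex ℝ K)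
    (r : ℕ) (B : Fin r → Blk D.Γ) (v : ∀ i, E → (Fin (B i).d → ℝ))
    (hv : ∀ i, ContDiffOn ℝ 2 (v i) D.X) (hvC : ∀ i, ∀ x ∈ D.X, v i x ∈ (B i).C)
    (hve : ∀ i, ∀ g : D.Γ, ∀ x ∈ D.X, ∃ s : ℝ, 0 < s ∧ v i (g.1 x) = s • (B i).ρ g (v i x))
    (N : ℕ)
    (hN : ∀ x ∈ D.X, Summable (fun g : D.Γ => ∏ i, ((B i).ev g (v i x))⁻¹ ^ N))
    (n : Fin r → ℕ)
    (hn : ∀ i, ∀ x ∈ D.X, Module.finrank ℝ (LinearMap.range ((Submodule.span ℝ {v i x}).mkQ ∘ₗ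
      (fderiv ℝ (v i) x : E →ₗ[ℝ] (Fin (B i).d → ℝ)))) ≤ n i)
    (hdim : ∑ i, n i < Module.finrank ℝ E) :
    ∃ C : ℝ, 0 ≤ C ∧ ∀ δ : ℝ, 0 < δ → δ ≤ 1 → FamHyp D K (Fin r) N C δ := by
  classical
  have h1 : ∀ i, ∃ C : ℝ, 0 ≤ C ∧ ∀ z ∈ v i '' K, ∀ w : Fin (B i).d → ℝ, ∀ g,
      |(B i).ev g w| ≤ C * ‖w‖ * (B i).ev g z := fun i =>
    blk_gauge (B i) (v i '' K) (hK.image_of_continuousOn ((hv i).continuousOn.mono hKX))
      (by rintro _ ⟨x, hx, rfl⟩; exact hvC i x (hKX hx))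
  choose C1 hC1 hg1 using h1
  have h2 := fun i => c2_est D K hK hKX hKc (v i) (hv i)
  choose C2 hC2 hd2 hl2 ht2 using h2
  have hev : ∀ i (g : D.Γ), ∀ x ∈ D.X, 0 < (B i).ev g (v i x) := fun i g x hx =>
    (B i).pos _ ((B i).inv _ _ (hvC i x hx))
  have hCnn : ∀ i ∈ (Finset.univ : Finset (Fin r)), 0 ≤ C1 i * C2 i := fun i _ =>
    mul_nonneg (hC1 i) (hC2 i)
  have hCi : ∀ i, C1 i * C2 i ≤ ∑ i, C1 i * C2 i := fun i =>
    Finset.single_le_sum hCnn (Finset.mem_univ i)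
  have hC0 : 0 ≤ ∑ i, C1 i * C2 i := Finset.sum_nonneg hCnn
  have hkey : ∀ i, ∀ x ∈ K, ∀ (w : Fin (B i).d → ℝ) (g : D.Γ) (t : ℝ), 0 ≤ t →
      ‖w‖ ≤ C2 i * t → |(B i).ev g w| ≤ (∑ i, C1 i * C2 i) * t * (B i).ev g (v i x) := by
    intro i x hx w g t ht hw
    have h3 := hg1 i (v i x) ⟨x, hx, rfl⟩ w g
    have h4 := hev i g x (hKX hx)
    calc |(B i).ev g w| ≤ C1 i * ‖w‖ * (B i).ev g (v i x) := h3
      _ ≤ C1 i * (C2 i * t) * (B i).ev g (v i x) := by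
          have := mul_le_mul_of_nonneg_left hw (hC1 i)
          exact mul_le_mul_of_nonneg_right this h4.le
      _ = (C1 i * C2 i) * t * (B i).ev g (v i x) := by ring
      _ ≤ (∑ i, C1 i * C2 i) * t * (B i).ev g (v i x) := by
          exact mul_le_mul_of_nonneg_right (mul_le_mul_of_nonneg_right (hCi i) ht) h4.le
  refine ⟨∑ i, C1 i * C2 i, hC0, fun δ hδ _ => ?_⟩
  refine ⟨⌈(δ ^ 2)⁻¹⌉₊, fun _ x i g => (B i).ev g (v i x),
    fun _ x i g => (B i).ξ ∘ₗ ((B i).ρ g⁻¹) ∘ₗ (fderiv ℝ (v i) x : E →ₗ[ℝ] (Fin (B i).d → ℝ)),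
    ∑ i, C1 i * C2 i, ?_, ?_, ?_, ?_, ?_, ?_⟩
  · have h3 : (δ ^ 2)⁻¹ ≤ (⌈(δ ^ 2)⁻¹⌉₊ : ℝ) := Nat.le_ceil _
    have h4 : 0 < δ ^ 2 := by positivity
    calc (1 : ℝ) = δ ^ 2 * (δ ^ 2)⁻¹ := (mul_inv_cancel₀ h4.ne').symm
      _ ≤ _ := mul_le_mul_of_nonneg_left h3 h4.le
  · intro l x hx
    exact ⟨fun i g => hev i g x hx, hN x hx⟩
  · intro l h x hx i
    obtain ⟨s, hs, hs2⟩ := hve i h x hx
    refine ⟨s, hs, fun g => ?_⟩
    show (B i).ξ ((B i).ρ (h * g)⁻¹ (v i (h.1 x))) = s * (B i).ξ ((B i).ρ g⁻¹ (v i x))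
    rw [hs2, map_smul, map_smul, smul_eq_mul, mul_inv_rev, map_mul, Module.End.mul_apply]
    congr 3
    rw [← Module.End.mul_apply, ← map_mul, inv_mul_cancel, map_one, Module.End.one_apply]
  · intro l _ x hx u i g
    exact hkey i x hx _ g ‖u‖ (norm_nonneg u) (hd2 i x hx u)
  · intro l _ x hx y hy i g
    refine ⟨?_, ?_⟩
    · rw [← ev_sub_pv2]
      exact hkey i x hx _ g ‖y - x‖ (norm_nonneg _) (hl2 i x hx y hy)
    · have h3 : (B i).ev g (v i y) - (B i).ev g (v i x) -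
          ((B i).ξ ∘ₗ ((B i).ρ g⁻¹) ∘ₗ (fderiv ℝ (v i) x : E →ₗ[ℝ] (Fin (B i).d → ℝ))) (y - x)
          = (B i).ev g (v i y - v i x - fderiv ℝ (v i) x (y - x)) := by
        rw [ev_sub_pv2, ev_sub_pv2]
        rfl
      rw [h3]
      exact hkey i x hx _ g (‖y - x‖ ^ 2) (by (clear * -; positivity)) (ht2 i x hx y hy)
  · intro x hx
    obtain ⟨u, hu, lam, hlam⟩ := exists_prop_dir_pv2 r (fun i => (B i).d) (fun i => v i x)
      (fun i => (fderiv ℝ (v i) x : E →ₗ[ℝ] (Fin (B i).d → ℝ))) n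
      (fun i => hn i x (hKX hx)) hdim
    refine ⟨u, hu, lam, 0, fun _ _ _ => 0, fun _ _ _ => 0, fun _ => 0, ?_, ?_, ?_⟩
    · rw [abs_zero]; exact hC0
    · intro l _
      refine ⟨le_rfl, fun i g => ⟨?_, ?_, ?_, ?_⟩⟩
      · have h3 : fderiv ℝ (v i) x u = lam i • v i x := hlam i
        show (B i).ev g (fderiv ℝ (v i) x u) = _
        rw [h3, ev_smul_pv2]
        ring
      · ring
      · rw [abs_zero]; exact (hev i g x (hKX hx)).le
      · rw [abs_zero, zero_mul]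
    · rw [Finset.sum_const_zero]
      (clear * - hC0 hδ; positivity)

end

end Pool.AF
end
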