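import Pool.Agent.Helper16.CPG.G08

/- Helper16.LDA.H94.AF.Kern -/
section
open Set Finset

set_option linter.unusedSectionVars false

namespace Pool.AF

/-! ## AF-5 KERN: the normalised kernel and its derivative -/

variable {ι G : Type*} [Fintype ι] (N : ℕ) (a b b' : ι → G → ℝ)

theorem kern_pos (ha : ∀ i g, 0 < a i g) (g : G) : 0 < kern N a g := by
  unfold kern
  exact Finset.prod_pos fun i _ => pow_pos (inv_pos.mpr (ha i g)) N

theorem PP_nonneg (ha : ∀ i g, 0 < a i g) (g : G) : 0 ≤ PP N a g := by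
  unfold PP
  exact div_nonneg (kern_pos N a ha g).le (tsum_nonneg fun h => (kern_pos N a ha h).le)

theorem hasSum_PP [Nonempty G] (ha : ∀ i g, 0 < a i g) (hs : Summable (kern N a)) :
    HasSum (PP N a) 1 := by
  have h0 : 0 < ∑' h, kern N a h :=
    hs.tsum_pos (fun h => (kern_pos N a ha h).le) (Classical.arbitrary G) (kern_pos N a ha _)
  have h1 := hs.hasSum.div_const (∑' h, kern N a h)
  rw [div_self h0.ne'] at h1
  exact h1

theorem PP_equiv {G : Type*} [Group G] (a a' : ι → G → ℝ) (h : G) (c : ι → ℝ)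
    (hc : ∀ i, 0 < c i) (ha : ∀ i g, a' i (h * g) = c i * a i g) (g : G) :
    PP N a' (h * g) = PP N a g := by
  have hk : ∀ g, kern N a' (h * g) = (∏ i, (c i)⁻¹ ^ N) * kern N a g := by
    intro g
    unfold kern
    rw [← Finset.prod_mul_distrib]
    refine Finset.prod_congr rfl fun i _ => ?_
    rw [ha, mul_inv, mul_pow]
  have hC : (∏ i, (c i)⁻¹ ^ N) ≠ 0 :=
    (Finset.prod_pos fun i _ => pow_pos (inv_pos.mpr (hc i)) N).ne'
  have ht : ∑' g, kern N a' g = (∏ i, (c i)⁻¹ ^ N) * ∑' g, kern N a g := by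
    rw [← (Equiv.mulLeft h).tsum_eq (kern N a'), ← tsum_mul_left]
    exact tsum_congr fun g => hk g
  unfold PP
  rw [hk, ht, mul_div_mul_left _ _ hC]

theorem abs_ld_le (s : ℝ) (ha : ∀ i g, 0 < a i g) (hb : ∀ i g, |b i g| ≤ s * a i g) (g : G) :
    |ld N a b g| ≤ N * Fintype.card ι * s := by
  unfold ld
  rw [abs_mul, abs_neg, Nat.abs_cast, mul_assoc]
  refine mul_le_mul_of_nonneg_left ?_ (Nat.cast_nonneg N)
  refine (Finset.abs_sum_le_sum_abs _ _).trans ?_
  have h1 : ∑ i : ι, |b i g / a i g| ≤ ∑ _i : ι, s := by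
    refine Finset.sum_le_sum fun i _ => ?_
    rw [abs_div, abs_of_pos (ha i g), div_le_iff₀ (ha i g)]
    exact hb i g
  refine h1.trans (le_of_eq ?_)
  rw [Finset.sum_const, nsmul_eq_mul, Finset.card_univ]

private theorem kK_nonneg [Nonempty G] (s : ℝ) (ha : ∀ i g, 0 < a i g)
    (hb : ∀ i g, |b i g| ≤ s * a i g) : 0 ≤ (N : ℝ) * Fintype.card ι * s :=
  (abs_nonneg _).trans (abs_ld_le N a b s ha hb (Classical.arbitrary G))

private theorem kPPld_le (s : ℝ) (ha : ∀ i g, 0 < a i g)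
    (hb : ∀ i g, |b i g| ≤ s * a i g) (g : G) :
    ‖PP N a g * ld N a b g‖ ≤ PP N a g * (N * Fintype.card ι * s) := by
  rw [Real.norm_eq_abs, abs_mul, abs_of_nonneg (PP_nonneg N a ha g)]
  exact mul_le_mul_of_nonneg_left (abs_ld_le N a b s ha hb g) (PP_nonneg N a ha g)

theorem summable_PP_ld [Nonempty G] (s : ℝ) (ha : ∀ i g, 0 < a i g) (hs : Summable (kern N a))
    (hb : ∀ i g, |b i g| ≤ s * a i g) : Summable (fun g => PP N a g * ld N a b g) := by
  have h1 := (hasSum_PP N a ha hs).summable.mul_right ((N : ℝ) * Fintype.card ι * s)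
  exact Summable.of_norm_bounded h1 (kPPld_le N a b s ha hb)

private theorem kE_le [Nonempty G] (s : ℝ) (ha : ∀ i g, 0 < a i g) (hs : Summable (kern N a))
    (hb : ∀ i g, |b i g| ≤ s * a i g) :
    |∑' h, PP N a h * ld N a b h| ≤ N * Fintype.card ι * s := by
  have h1 := (hasSum_PP N a ha hs).mul_right ((N : ℝ) * Fintype.card ι * s)
  rw [one_mul] at h1
  have h2 := tsum_of_norm_bounded h1 (kPPld_le N a b s ha hb)
  exact h2

theorem dP_bound [Nonempty G] (s : ℝ) (ha : ∀ i g, 0 < a i g) (hs : Summable (kern N a))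
    (hb : ∀ i g, |b i g| ≤ s * a i g) (S : Finset G) :
    ∑ g ∈ S, |dP N a b g| ≤ 2 * N * Fintype.card ι * s := by
  have hK := kK_nonneg N a b s ha hb
  have h1 : ∀ g ∈ S, |dP N a b g| ≤ PP N a g * (2 * (N * Fintype.card ι * s)) := by
    intro g _
    unfold dP
    rw [abs_mul, abs_of_nonneg (PP_nonneg N a ha g)]
    refine mul_le_mul_of_nonneg_left ?_ (PP_nonneg N a ha g)
    refine (abs_sub _ _).trans ?_
    have h2 := abs_ld_le N a b s ha hb g
    have h3 := kE_le N a b s ha hs hb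
    (clear * - h2 h3; linarith only [h2, h3])
  refine (Finset.sum_le_sum h1).trans ?_
  rw [← Finset.sum_mul]
  have h4 : ∑ g ∈ S, PP N a g ≤ 1 :=
    sum_le_hasSum S (fun g _ => PP_nonneg N a ha g) (hasSum_PP N a ha hs)
  have h5 : 0 ≤ 2 * ((N : ℝ) * Fintype.card ι * s) := by (clear * - hK; positivity)
  calc (∑ g ∈ S, PP N a g) * (2 * ((N : ℝ) * Fintype.card ι * s))
      ≤ 1 * (2 * ((N : ℝ) * Fintype.card ι * s)) := mul_le_mul_of_nonneg_right h4 h5
    _ = 2 * N * Fintype.card ι * s := by ring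

theorem dP_add [Nonempty G] (s s' : ℝ) (ha : ∀ i g, 0 < a i g) (hs : Summable (kern N a))
    (hb : ∀ i g, |b i g| ≤ s * a i g) (hb' : ∀ i g, |b' i g| ≤ s' * a i g) (g : G) :
    dP N a (fun i g => b i g + b' i g) g = dP N a b g + dP N a b' g := by
  have h1 : ∀ g, ld N a (fun i g => b i g + b' i g) g = ld N a b g + ld N a b' g := by
    intro g
    unfold ld
    rw [← mul_add, ← Finset.sum_add_distrib]
    congr 1
    exact Finset.sum_congr rfl fun i _ => add_div _ _ _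
  have h2 : ∑' h, PP N a h * ld N a (fun i g => b i g + b' i g) h =
      (∑' h, PP N a h * ld N a b h) + ∑' h, PP N a h * ld N a b' h := by
    rw [← (summable_PP_ld N a b s ha hs hb).tsum_add (summable_PP_ld N a b' s' ha hs hb')]
    refine tsum_congr fun h => ?_
    rw [h1, mul_add]
  unfold dP
  rw [h1, h2]
  ring

theorem dP_smul (t : ℝ) (g : G) :
    dP N a (fun i g => t * b i g) g = t * dP N a b g := by
  have h1 : ∀ g, ld N a (fun i g => t * b i g) g = t * ld N a b g := by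
    intro g
    unfold ld
    rw [Finset.mul_sum, Finset.mul_sum, Finset.mul_sum]
    refine Finset.sum_congr rfl fun i _ => ?_
    ring
  have h2 : ∑' h, PP N a h * ld N a (fun i g => t * b i g) h =
      t * ∑' h, PP N a h * ld N a b h := by
    rw [← tsum_mul_left]
    refine tsum_congr fun h => ?_
    rw [h1]
    ring
  unfold dP
  rw [h1, h2]
  ring

theorem dP_scale [Nonempty G] (lam : ι → ℝ) (ha : ∀ i g, 0 < a i g) (hs : Summable (kern N a))
    (g : G) : dP N a (fun i g => lam i * a i g) g = 0 := by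
  have h1 : ∀ g, ld N a (fun i g => lam i * a i g) g = -(N : ℝ) * ∑ i, lam i := by
    intro g
    unfold ld
    congr 1
    refine Finset.sum_congr rfl fun i _ => ?_
    exact mul_div_cancel_right₀ _ (ha i g).ne'
  have h2 : ∑' h, PP N a h * ld N a (fun i g => lam i * a i g) h = -(N : ℝ) * ∑ i, lam i := by
    simp only [h1]
    rw [tsum_mul_right, (hasSum_PP N a ha hs).tsum_eq, one_mul]
  unfold dP
  rw [h1, h2, sub_self, mul_zero]

end Pool.AF
end

/- Helper16.LDA.H94.AF.KernT -/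
section
open Set Finset

set_option linter.unusedSectionVars false

namespace Pool.AF

/-! ## AF-6 TAYLOR: Taylor expansion of the normalised kernel in `ℓ¹` (uses AF-5) -/

/-- Product of two first order expansions. -/
theorem exp_mul_aux {P Q p q s C₁ c₁ C₂ c₂ : ℝ} (hs0 : 0 ≤ s) (hs1 : s ≤ 1) (hC₁ : 0 ≤ C₁)
    (hc₁ : 0 ≤ c₁) (hC₂ : 0 ≤ C₂) (hc₂ : 0 ≤ c₂) (h1 : |P - 1 - p| ≤ C₁ * s ^ 2)
    (hp : |p| ≤ c₁ * s) (h2 : |Q - 1 - q| ≤ C₂ * s ^ 2) (hq : |q| ≤ c₂ * s) :
    |P * Q - 1 - (p + q)| ≤ (C₁ * (1 + c₂ + C₂) + (1 + c₁) * C₂ + c₁ * c₂) * s ^ 2 := by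
  have hs2 : s ^ 2 ≤ 1 := by nlinarith only [hs0, hs1]
  have hs2' : 0 ≤ s ^ 2 := sq_nonneg s
  have hQ : |Q| ≤ 1 + c₂ + C₂ := by
    have : Q = 1 + q + (Q - 1 - q) := by ring
    rw [this]
    calc |1 + q + (Q - 1 - q)| ≤ |1 + q| + |Q - 1 - q| := abs_add_le _ _
      _ ≤ (|1| + |q|) + C₂ * s ^ 2 := add_le_add (abs_add_le _ _) h2
      _ ≤ (1 + c₂) + C₂ := by
          rw [abs_one]
          have h3 : c₂ * s ≤ c₂ := by (clear * - hs1 hc₂; nlinarith only [hs1, hc₂])
          have h4 : C₂ * s ^ 2 ≤ C₂ := by nlinarith only [hC₂, hs2]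
          linarith
  have hp1 : |1 + p| ≤ 1 + c₁ := by
    calc |1 + p| ≤ |1| + |p| := abs_add_le _ _
      _ ≤ 1 + c₁ := by
          rw [abs_one]
          have h3 : c₁ * s ≤ c₁ := by (clear * - hs1 hc₁; nlinarith only [hs1, hc₁])
          (clear * - hp h3; linarith)
  have e : P * Q - 1 - (p + q) = (P - 1 - p) * Q + (1 + p) * (Q - 1 - q) + p * q := by ring
  rw [e]
  have hpq : |p * q| ≤ c₁ * c₂ * s ^ 2 := by
    rw [abs_mul]
    calc |p| * |q| ≤ (c₁ * s) * (c₂ * s) :=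
          mul_le_mul hp hq (abs_nonneg _) (mul_nonneg hc₁ hs0)
      _ = c₁ * c₂ * s ^ 2 := by ring
  have h5 : |(P - 1 - p) * Q| ≤ C₁ * s ^ 2 * (1 + c₂ + C₂) := by
    rw [abs_mul]
    exact mul_le_mul h1 hQ (abs_nonneg _) (mul_nonneg hC₁ hs2')
  have h6 : |(1 + p) * (Q - 1 - q)| ≤ (1 + c₁) * (C₂ * s ^ 2) := by
    rw [abs_mul]
    exact mul_le_mul hp1 h2 (abs_nonneg _) (by (clear * - hc₁; linarith only [hc₁]))
  calc |(P - 1 - p) * Q + (1 + p) * (Q - 1 - q) + p * q|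
      ≤ |(P - 1 - p) * Q + (1 + p) * (Q - 1 - q)| + |p * q| := abs_add_le _ _
    _ ≤ |(P - 1 - p) * Q| + |(1 + p) * (Q - 1 - q)| + |p * q| := by
        gcongr
        exact abs_add_le _ _
    _ ≤ _ := by linarith only [hpq, h5, h6]

/-- The expansion of `(1 + x)⁻ᴺ`. -/
theorem exp_pow_aux (N : ℕ) : ∃ C : ℝ, 0 ≤ C ∧ ∀ x s : ℝ, 0 ≤ s → s ≤ 1 / 2 → |x| ≤ s →
    |((1 + x)⁻¹) ^ N - 1 - (-(N : ℝ) * x)| ≤ C * s ^ 2 := by
  induction N with
  | zero => exact ⟨0, le_refl _, fun x s _ _ _ => by simp⟩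
  | succ N ih =>
      obtain ⟨C, hC, h⟩ := ih
      refine ⟨C * (1 + 1 + 2) + (1 + N) * 2 + N * 1, by (clear * - hC; positivity), ?_⟩
      intro x s hs0 hs1 hx
      have h1 := h x s hs0 hs1 hx
      have hx' := abs_le.mp hx
      have hpos : 1 / 2 ≤ 1 + x := by (clear * - hs1 hx'; linarith only [hs1, hx'])
      have h2 : |(1 + x)⁻¹ - 1 - (-x)| ≤ 2 * s ^ 2 := by
        have e : (1 + x)⁻¹ - 1 - (-x) = x ^ 2 * (1 + x)⁻¹ := by
          have : (1 + x) ≠ 0 := by (clear * - hpos; linarith only [hpos])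
          field_simp
          ring
        rw [e, abs_mul, abs_of_nonneg (sq_nonneg x)]
        have h3 : |(1 + x)⁻¹| ≤ 2 := by
          rw [abs_of_nonneg (by (clear * - hpos; positivity))]
          rw [inv_le_comm₀ (by (clear * - hpos; linarith only [hpos])) (by norm_num)]
          (clear * - hs1 hx'; linarith)
        have h4 : x ^ 2 ≤ s ^ 2 := by
          rw [← sq_abs x]
          exact pow_le_pow_left₀ (abs_nonneg _) hx 2
        calc x ^ 2 * |(1 + x)⁻¹| ≤ s ^ 2 * 2 := mul_le_mul h4 h3 (abs_nonneg _) (sq_nonneg _)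
          _ = 2 * s ^ 2 := by ring
      have h3 : |(-(N : ℝ) * x)| ≤ N * s := by
        rw [abs_mul, abs_neg, Nat.abs_cast]
        (clear * - hx; gcongr)
      have h4 : |(-x)| ≤ 1 * s := by rw [abs_neg]; (clear * - hx; linarith only [hx])
      have h5 := exp_mul_aux hs0 (by linarith only [hs1]) hC (Nat.cast_nonneg N) (by norm_num : (0:ℝ) ≤ 2)
        (by norm_num : (0:ℝ) ≤ 1) h1 h3 h2 h4
      have e : ((1 + x)⁻¹) ^ (N + 1) - 1 - (-((N + 1 : ℕ) : ℝ) * x) =
          ((1 + x)⁻¹) ^ N * (1 + x)⁻¹ - 1 - (-(N : ℝ) * x + -x) := by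
        push_cast
        ring
      rw [e]
      exact h5

/-- The expansion of the product. -/
theorem exp_prod_aux {ι : Type*} (N : ℕ) (t : Finset ι) : ∃ C : ℝ, 0 ≤ C ∧
    ∀ (x : ι → ℝ) (s : ℝ), 0 ≤ s → s ≤ 1 / 2 → (∀ i, |x i| ≤ s) →
    |∏ i ∈ t, ((1 + x i)⁻¹) ^ N - 1 - (-(N : ℝ) * ∑ i ∈ t, x i)| ≤ C * s ^ 2 := by
  classical
  induction t using Finset.induction_on with
  | empty => exact ⟨0, le_refl _, fun x s _ _ _ => by simp⟩
  | insert i t hi ih =>
      obtain ⟨C₁, hC₁, h₁⟩ := exp_pow_aux N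
      obtain ⟨C₂, hC₂, h₂⟩ := ih
      refine ⟨C₁ * (1 + N * t.card + C₂) + (1 + N) * C₂ + N * (N * t.card), by (clear * - hC₁ hC₂; positivity), ?_⟩
      intro x s hs0 hs1 hx
      rw [Finset.prod_insert hi, Finset.sum_insert hi]
      have h3 : |(-(N : ℝ) * x i)| ≤ N * s := by
        rw [abs_mul, abs_neg, Nat.abs_cast]
        exact mul_le_mul_of_nonneg_left (hx i) (Nat.cast_nonneg N)
      have h4 : |(-(N : ℝ) * ∑ j ∈ t, x j)| ≤ (N * t.card) * s := by
        rw [abs_mul, abs_neg, Nat.abs_cast, mul_assoc]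
        refine mul_le_mul_of_nonneg_left ?_ (Nat.cast_nonneg N)
        calc |∑ j ∈ t, x j| ≤ ∑ j ∈ t, |x j| := Finset.abs_sum_le_sum_abs _ _
          _ ≤ ∑ _j ∈ t, s := Finset.sum_le_sum (fun j _ => hx j)
          _ = t.card * s := by rw [Finset.sum_const, nsmul_eq_mul]
      have h5 := exp_mul_aux hs0 (by linarith) hC₁ (Nat.cast_nonneg N) hC₂ (by (clear * -; positivity))
        (h₁ (x i) s hs0 hs1 (hx i)) h3 (h₂ x s hs0 hs1 hx) h4
      have e : -(N : ℝ) * (x i + ∑ j ∈ t, x j) = -(N : ℝ) * x i + -(N : ℝ) * ∑ j ∈ t, x j := by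
        ring
      rw [e]
      exact h5

theorem PP_taylor (ι : Type*) [Fintype ι] (N : ℕ) : ∃ C : ℝ, 0 ≤ C ∧
    ∀ (G : Type*) [Nonempty G] (a b : ι → G → ℝ) (s : ℝ), 0 ≤ s → (∀ i g, 0 < a i g) →
      (∀ i g, 0 < a i g + b i g) → (∀ i g, |b i g| ≤ s * a i g) → Summable (kern N a) →
      Summable (kern N (fun i g => a i g + b i g)) → ∀ S : Finset G,
      ∑ g ∈ S, |PP N (fun i g => a i g + b i g) g - PP N a g - dP N a b g| ≤ C * s ^ 2 := by
  obtain ⟨C₁, hC₁, h₁⟩ := exp_prod_aux (ι := ι) N Finset.univ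
  set M : ℝ := N * Fintype.card ι with hM
  have hM0 : 0 ≤ M := by (clear * -; positivity)
  set c₀ : ℝ := ((2 / 3 : ℝ) ^ N) ^ Fintype.card ι with hc₀
  have hc₀0 : 0 < c₀ := by positivity
  set A : ℝ := (2 * C₁ + (M + C₁) * (2 * M)) / c₀ with hA
  have hA0 : 0 ≤ A := by (clear * - hC₁; positivity)
  refine ⟨A + (8 + 4 * M), by (clear * - hC₁; positivity), ?_⟩
  intro G _ a b s hs0 ha hab hb hsa hsab S
  have hs2 : 0 ≤ s ^ 2 := sq_nonneg s
  set a' : ι → G → ℝ := fun i g => a i g + b i g with ha'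
  have hPa := hasSum_PP N a ha hsa
  have hPa' := hasSum_PP N a' hab hsab
  have hPa0 := PP_nonneg N a ha
  have hPa0' := PP_nonneg N a' hab
  have hS1 : ∑ g ∈ S, PP N a g ≤ 1 := by
    have := hPa.summable.sum_le_tsum S (fun g _ => hPa0 g)
    rwa [hPa.tsum_eq] at this
  have hS2 : ∑ g ∈ S, PP N a' g ≤ 1 := by
    have := hPa'.summable.sum_le_tsum S (fun g _ => hPa0' g)
    rwa [hPa'.tsum_eq] at this
  rcases lt_or_ge (1 / 2) s with hs | hs
  · -- large `s`
    have h3 := dP_bound N a b s ha hsa hb S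
    have h4 : ∑ g ∈ S, |PP N a' g - PP N a g - dP N a b g| ≤
        ∑ g ∈ S, (PP N a' g + PP N a g + |dP N a b g|) := by
      refine Finset.sum_le_sum (fun g _ => ?_)
      calc |PP N a' g - PP N a g - dP N a b g|
          ≤ |PP N a' g - PP N a g| + |dP N a b g| := abs_sub _ _
        _ ≤ (|PP N a' g| + |PP N a g|) + |dP N a b g| := by
            gcongr
            exact abs_sub _ _
        _ = _ := by rw [abs_of_nonneg (hPa0' g), abs_of_nonneg (hPa0 g)]
    rw [Finset.sum_add_distrib, Finset.sum_add_distrib] at h4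
    have h5 : 1 ≤ 4 * s ^ 2 := by nlinarith only [hs]
    have h6 : 2 * M * s ≤ 4 * M * s ^ 2 := by
      have h61 : s ≤ 2 * s ^ 2 := by (clear * - h5; nlinarith only [h5])
      nlinarith only [hM0, h61]
    have h7 : 2 * (N : ℝ) * Fintype.card ι * s = 2 * M * s := by rw [hM]; ring
    rw [h7] at h3
    have h8 : 0 ≤ A * s ^ 2 := by (clear * - hC₁ hs; positivity)
    (clear * - hS1 hS2 h3 h4 h5 h6 h8; linarith only [hS1, hS2, h3, h4, h5, h6, h8])
  · -- small `s`
    -- the ratio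
    set ρ : G → ℝ := fun g => ∏ i, ((1 + b i g / a i g)⁻¹) ^ N with hρ
    have hx : ∀ g i, |b i g / a i g| ≤ s := by
      intro g i
      rw [abs_div, abs_of_pos (ha i g), div_le_iff₀ (ha i g)]
      exact hb i g
    have hρe : ∀ g, kern N a' g = kern N a g * ρ g := by
      intro g
      simp only [kern, hρ, ha', ← Finset.prod_mul_distrib]
      refine Finset.prod_congr rfl (fun i _ => ?_)
      rw [← mul_pow, ← mul_inv]
      congr 2
      have := (ha i g).ne'
      field_simp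
    have hρ1 : ∀ g, |ρ g - 1 - ld N a b g| ≤ C₁ * s ^ 2 := by
      intro g
      exact h₁ (fun i => b i g / a i g) s hs0 hs (hx g)
    have hρ0 : ∀ g, c₀ ≤ ρ g := by
      intro g
      have : c₀ = ∏ _i : ι, (2 / 3 : ℝ) ^ N := by
        rw [Finset.prod_const, hc₀]
        rfl
      rw [this]
      refine Finset.prod_le_prod (fun i _ => by positivity) (fun i _ => ?_)
      refine pow_le_pow_left₀ (by norm_num) ?_ N
      have h3 := abs_le.mp (hx g i)
      rw [le_inv_comm₀ (by norm_num) (by linarith only [hs, h3])]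
      norm_num
      linarith only [hs, h3]
    have hld : ∀ g, |ld N a b g| ≤ M * s := fun g => abs_ld_le N a b s ha hb g
    set Z : ℝ := ∑' h, kern N a h with hZ
    set Z' : ℝ := ∑' h, kern N a' h with hZ'
    have hZ0 : 0 < Z := hsa.tsum_pos (fun g => (kern_pos N a ha g).le) (Classical.arbitrary G)
      (kern_pos N a ha _)
    have hZ0' : 0 < Z' := hsab.tsum_pos (fun g => (kern_pos N a' hab g).le)
      (Classical.arbitrary G) (kern_pos N a' hab _)
    -- the means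
    set W : ℝ := Z' / Z with hW
    have hW0 : 0 < W := div_pos hZ0' hZ0
    have hE : HasSum (fun g => PP N a g * ρ g) W := by
      have h3 := hsab.hasSum.div_const Z
      have e : (fun g => PP N a g * ρ g) = fun g => kern N a' g / Z := by
        funext g
        rw [hρe g]
        simp only [PP, ← hZ]
        ring
      rw [e]
      exact h3
    have hEl := (summable_PP_ld N a b s ha hsa hb).hasSum
    set El : ℝ := ∑' h, PP N a h * ld N a b h with hEldef
    have hEr : HasSum (fun g => PP N a g * (ρ g - 1 - ld N a b g)) (W - 1 - El) := by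
      have h3 := (hE.sub hPa).sub hEl
      have e : (fun g => PP N a g * (ρ g - 1 - ld N a b g)) =
          fun g => PP N a g * ρ g - PP N a g - PP N a g * ld N a b g := by
        funext g
        ring
      rw [e]
      exact h3
    have hmean : ∀ (f : G → ℝ) (m c : ℝ), HasSum (fun g => PP N a g * f g) m →
        (∀ g, |f g| ≤ c) → |m| ≤ c := by
      intro f m c hf hfc
      have h3 : HasSum (fun g => PP N a g * c) c := by
        have := hPa.mul_right c
        rwa [one_mul] at this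
      have h4 : HasSum (fun g => PP N a g * (-c)) (-c) := by
        have := hPa.mul_right (-c)
        rwa [one_mul] at this
      rw [abs_le]
      constructor
      · exact hasSum_le (fun g => mul_le_mul_of_nonneg_left (abs_le.mp (hfc g)).1 (hPa0 g)) h4 hf
      · exact hasSum_le (fun g => mul_le_mul_of_nonneg_left (abs_le.mp (hfc g)).2 (hPa0 g)) hf h3
    have hEl1 : |El| ≤ M * s := hmean _ _ _ hEl hld
    have hEr1 : |W - 1 - El| ≤ C₁ * s ^ 2 := hmean _ _ _ hEr hρ1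
    have hWc : c₀ ≤ W := by
      have h3 : HasSum (fun g => PP N a g * c₀) c₀ := by
        have := hPa.mul_right c₀
        rwa [one_mul] at this
      exact hasSum_le (fun g => mul_le_mul_of_nonneg_left (hρ0 g) (hPa0 g)) h3 hE
    have hW1 : |W - 1| ≤ (M + C₁) * s := by
      have e : W - 1 = El + (W - 1 - El) := by ring
      rw [e]
      calc |El + (W - 1 - El)| ≤ |El| + |W - 1 - El| := abs_add_le _ _
        _ ≤ M * s + C₁ * s ^ 2 := add_le_add hEl1 hEr1
        _ ≤ (M + C₁) * s := by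
            have : s ^ 2 ≤ s := by (clear * - hs0 hs; nlinarith only [hs0, hs])
            (clear * - hC₁ this; nlinarith only [hC₁, this])
    have hterm : ∀ g, |PP N a' g - PP N a g - dP N a b g| ≤ PP N a g * (A * s ^ 2) := by
      intro g
      have e1 : PP N a' g = PP N a g * (ρ g / W) := by
        simp only [PP, ← hZ, ← hZ']
        rw [hρe g, hW]
        (clear * - hZ0 hZ0'; field_simp)
      have e2 : PP N a' g - PP N a g - dP N a b g =
          PP N a g * (((ρ g - 1 - ld N a b g) - (W - 1 - El) -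
            (W - 1) * (ld N a b g - El)) / W) := by
        rw [e1]
        simp only [dP, ← hEldef]
        field_simp
        ring
      rw [e2, abs_mul, abs_of_nonneg (hPa0 g)]
      refine mul_le_mul_of_nonneg_left ?_ (hPa0 g)
      rw [abs_div, abs_of_pos hW0]
      have h3 : |(ρ g - 1 - ld N a b g) - (W - 1 - El) - (W - 1) * (ld N a b g - El)| ≤
          (2 * C₁ + (M + C₁) * (2 * M)) * s ^ 2 := by
        have h4 : |(W - 1) * (ld N a b g - El)| ≤ ((M + C₁) * s) * (M * s + M * s) := by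
          rw [abs_mul]
          refine mul_le_mul hW1 ?_ (abs_nonneg _) (by (clear * - hC₁ hs0; positivity))
          exact (abs_sub _ _).trans (add_le_add (hld g) hEl1)
        calc |(ρ g - 1 - ld N a b g) - (W - 1 - El) - (W - 1) * (ld N a b g - El)|
            ≤ |(ρ g - 1 - ld N a b g) - (W - 1 - El)| + |(W - 1) * (ld N a b g - El)| :=
              abs_sub _ _
          _ ≤ (C₁ * s ^ 2 + C₁ * s ^ 2) + ((M + C₁) * s) * (M * s + M * s) :=
              add_le_add ((abs_sub _ _).trans (add_le_add (hρ1 g) hEr1)) h4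
          _ = _ := by ring
      calc |(ρ g - 1 - ld N a b g) - (W - 1 - El) - (W - 1) * (ld N a b g - El)| / W
          ≤ ((2 * C₁ + (M + C₁) * (2 * M)) * s ^ 2) / c₀ :=
            div_le_div₀ (by (clear * - hC₁; positivity)) h3 hc₀0 hWc
        _ = A * s ^ 2 := by rw [hA]; ring
    calc ∑ g ∈ S, |PP N a' g - PP N a g - dP N a b g|
        ≤ ∑ g ∈ S, PP N a g * (A * s ^ 2) := Finset.sum_le_sum (fun g _ => hterm g)
      _ = (∑ g ∈ S, PP N a g) * (A * s ^ 2) := by rw [Finset.sum_mul]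
      _ ≤ 1 * (A * s ^ 2) := mul_le_mul_of_nonneg_right hS1 (by (clear * - hC₁; positivity))
      _ ≤ (A + (8 + 4 * M)) * s ^ 2 := by (clear * - hM0; nlinarith only [hM0])

end Pool.AF
end

/- Helper16.LDA.H94.AF.Fam -/
section
open Set Finset

set_option linter.unusedSectionVars false

namespace Pool.AF

open Pool.SV

/-! ## AF-7 FAM: from families of kernels to good partitions (uses AF-5, AF-6): take
`P x = (1/L) ∑_{l < L} PP N (a l x)` and `P' x = (1/L) ∑_{l < L} dP N (a l x) (a' l x · )` -/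

/-- Averages: if every term is bounded in `ℓ¹` by `B l`, so is the average. -/
theorem avg_bound {G : Type*} (S : Finset G) (L : ℕ) (f : ℕ → G → ℝ) (B : ℕ → ℝ)
    (h : ∀ l < L, ∑ γ ∈ S, |f l γ| ≤ B l) :
    ∑ γ ∈ S, |((L : ℝ)⁻¹) * ∑ l ∈ Finset.range L, f l γ| ≤
      (L : ℝ)⁻¹ * ∑ l ∈ Finset.range L, B l := by
  have hL : (0 : ℝ) ≤ (L : ℝ)⁻¹ := by (clear * -; positivity)
  calc ∑ γ ∈ S, |((L : ℝ)⁻¹) * ∑ l ∈ Finset.range L, f l γ|
      ≤ ∑ γ ∈ S, ((L : ℝ)⁻¹) * ∑ l ∈ Finset.range L, |f l γ| := by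
        refine Finset.sum_le_sum fun γ _ => ?_
        rw [abs_mul, abs_of_nonneg hL]
        exact mul_le_mul_of_nonneg_left (Finset.abs_sum_le_sum_abs _ _) hL
    _ = (L : ℝ)⁻¹ * ∑ l ∈ Finset.range L, ∑ γ ∈ S, |f l γ| := by
        rw [← Finset.mul_sum, Finset.sum_comm]
    _ ≤ (L : ℝ)⁻¹ * ∑ l ∈ Finset.range L, B l := by
        refine mul_le_mul_of_nonneg_left (Finset.sum_le_sum fun l hl => ?_) hL
        exact h l (Finset.mem_range.1 hl)

theorem avg_const (L : ℕ) (hL : 0 < L) (B : ℝ) :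
    (L : ℝ)⁻¹ * ∑ _l ∈ Finset.range L, B = B := by
  have h : (L : ℝ) ≠ 0 := by exact_mod_cast hL.ne'
  rw [Finset.sum_const, Finset.card_range, nsmul_eq_mul]
  (clear * - h; field_simp)

theorem sum_abs_PP {ι G : Type*} [Fintype ι] [Nonempty G] (N : ℕ) (a : ι → G → ℝ)
    (ha : ∀ i g, 0 < a i g) (hs : Summable (kern N a)) (S : Finset G) :
    ∑ g ∈ S, |PP N a g| ≤ 1 := by
  have h1 : ∑ g ∈ S, |PP N a g| = ∑ g ∈ S, PP N a g :=
    Finset.sum_congr rfl fun g _ => abs_of_nonneg (PP_nonneg N a ha g)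
  rw [h1]
  exact sum_le_hasSum S (fun g _ => PP_nonneg N a ha g) (hasSum_PP N a ha hs)

/-- The bound in the direction of the scaling. -/
theorem dir_bound {ι G : Type*} [Fintype ι] [Nonempty G] (N : ℕ) (CT : ℝ) (hCT : 0 ≤ CT)
    (hT : ∀ (a b : ι → G → ℝ) (s : ℝ), 0 ≤ s → (∀ i g, 0 < a i g) →
      (∀ i g, 0 < a i g + b i g) → (∀ i g, |b i g| ≤ s * a i g) → Summable (kern N a) →
      Summable (kern N (fun i g => a i g + b i g)) → ∀ S : Finset G,
      ∑ g ∈ S, |PP N (fun i g => a i g + b i g) g - PP N a g - dP N a b g| ≤ CT * s ^ 2)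
    (C δ : ℝ) (hC : 0 ≤ C) (hδ : 0 < δ) (L : ℕ) (hL : 1 ≤ δ ^ 2 * (L : ℝ))
    (a : ℕ → ι → G → ℝ) (ha : ∀ l i g, 0 < a l i g) (hs : ∀ l, Summable (kern N (a l)))
    (y : ℕ → ι → G → ℝ) (μ : ℝ) (hμ : |μ| ≤ C)
    (hy : ∀ l < L, ∀ i g, a (l + 1) i g = a l i g + δ * y l i g ∧ |y l i g| ≤ a l i g)
    (S : Finset G) :
    ∑ γ ∈ S, |((L : ℝ)⁻¹) * ∑ l ∈ Finset.range L, μ * dP N (a l) (y l) γ| ≤
      C * (2 + CT) * δ := by
  have hL0 : (0 : ℝ) < (L : ℝ) := by
    by_contra hcon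
    have : (L : ℝ) = 0 := le_antisymm (not_lt.1 hcon) (Nat.cast_nonneg L)
    rw [this] at hL
    norm_num at hL
  -- remainder
  set R : ℕ → G → ℝ := fun l γ => PP N (a (l + 1)) γ - PP N (a l) γ - δ * dP N (a l) (y l) γ
    with hR
  have hRb : ∀ l < L, ∑ γ ∈ S, |R l γ| ≤ CT * δ ^ 2 := by
    intro l hl
    have e1 : (fun i g => a l i g + δ * y l i g) = a (l + 1) := by
      funext i g
      exact ((hy l hl i g).1).symm
    have h1 := hT (a l) (fun i g => δ * y l i g) δ hδ.le (ha l)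
      (fun i g => by
        rw [← (hy l hl i g).1]
        exact ha (l + 1) i g)
      (fun i g => by
        rw [abs_mul, abs_of_pos hδ]
        exact mul_le_mul_of_nonneg_left (hy l hl i g).2 hδ.le)
      (hs l) (by
        rw [e1]
        exact hs (l + 1)) S
    rw [e1] at h1
    simp only [dP_smul] at h1
    exact h1
  have htel : ∀ γ, ∑ l ∈ Finset.range L, dP N (a l) (y l) γ =
      δ⁻¹ * (PP N (a L) γ - PP N (a 0) γ - ∑ l ∈ Finset.range L, R l γ) := by
    intro γ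
    have h2 : ∑ l ∈ Finset.range L, R l γ = (PP N (a L) γ - PP N (a 0) γ) -
        δ * ∑ l ∈ Finset.range L, dP N (a l) (y l) γ := by
      simp only [hR]
      rw [Finset.sum_sub_distrib, Finset.sum_range_sub (fun l => PP N (a l) γ),
        Finset.mul_sum]
    rw [h2]
    field_simp
    ring
  have hbound : ∑ γ ∈ S, |∑ l ∈ Finset.range L, dP N (a l) (y l) γ| ≤
      δ⁻¹ * (2 + (L : ℝ) * (CT * δ ^ 2)) := by
    have hδi : 0 ≤ δ⁻¹ := by positivity
    calc ∑ γ ∈ S, |∑ l ∈ Finset.range L, dP N (a l) (y l) γ|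
        ≤ ∑ γ ∈ S, δ⁻¹ * (|PP N (a L) γ| + |PP N (a 0) γ| +
            ∑ l ∈ Finset.range L, |R l γ|) := by
          refine Finset.sum_le_sum fun γ _ => ?_
          rw [htel γ, abs_mul, abs_of_nonneg hδi]
          refine mul_le_mul_of_nonneg_left ?_ hδi
          have h3 : |∑ l ∈ Finset.range L, R l γ| ≤ ∑ l ∈ Finset.range L, |R l γ| :=
            Finset.abs_sum_le_sum_abs _ _
          have h4 := abs_sub (PP N (a L) γ - PP N (a 0) γ) (∑ l ∈ Finset.range L, R l γ)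
          have h5 := abs_sub (PP N (a L) γ) (PP N (a 0) γ)
          linarith only [h3, h4, h5]
      _ = δ⁻¹ * (∑ γ ∈ S, |PP N (a L) γ| + ∑ γ ∈ S, |PP N (a 0) γ| +
            ∑ l ∈ Finset.range L, ∑ γ ∈ S, |R l γ|) := by
          rw [← Finset.mul_sum, Finset.sum_add_distrib, Finset.sum_add_distrib,
            Finset.sum_comm (s := S) (t := Finset.range L)]
      _ ≤ δ⁻¹ * (1 + 1 + ∑ l ∈ Finset.range L, CT * δ ^ 2) := by
          refine mul_le_mul_of_nonneg_left ?_ hδi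
          refine add_le_add (add_le_add ?_ ?_) ?_
          · exact sum_abs_PP N (a L) (ha L) (hs L) S
          · exact sum_abs_PP N (a 0) (ha 0) (hs 0) S
          · exact Finset.sum_le_sum fun l hl => hRb l (Finset.mem_range.1 hl)
      _ = δ⁻¹ * (2 + (L : ℝ) * (CT * δ ^ 2)) := by
          rw [Finset.sum_const, Finset.card_range, nsmul_eq_mul]
          norm_num
  have hLi : 0 ≤ (L : ℝ)⁻¹ := by (clear * - hL0; positivity)
  calc ∑ γ ∈ S, |((L : ℝ)⁻¹) * ∑ l ∈ Finset.range L, μ * dP N (a l) (y l) γ|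
      = (L : ℝ)⁻¹ * |μ| * ∑ γ ∈ S, |∑ l ∈ Finset.range L, dP N (a l) (y l) γ| := by
        rw [Finset.mul_sum]
        refine Finset.sum_congr rfl fun γ _ => ?_
        rw [← Finset.mul_sum, abs_mul, abs_mul, abs_of_nonneg hLi, mul_assoc]
    _ ≤ (L : ℝ)⁻¹ * C * (δ⁻¹ * (2 + (L : ℝ) * (CT * δ ^ 2))) := by
        refine mul_le_mul (mul_le_mul_of_nonneg_left hμ hLi) hbound ?_ ?_
        · exact Finset.sum_nonneg fun _ _ => abs_nonneg _
        · positivity
    _ = C * (2 * ((L : ℝ)⁻¹ * δ⁻¹) + CT * δ) := by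
        (clear * - hL0 hδ hCT; field_simp)
    _ ≤ C * (2 * δ + CT * δ) := by
        refine mul_le_mul_of_nonneg_left ?_ hC
        have h6 : (L : ℝ)⁻¹ * δ⁻¹ ≤ δ := by
          rw [← mul_inv, inv_le_comm₀ (by positivity) hδ]
          rw [inv_le_iff_one_le_mul₀ hδ]
          linarith only [hL]
        linarith only [h6]
    _ = C * (2 + CT) * δ := by ring

theorem goodPart_of_family {E : Type*} [NormedAddCommGroup E] [NormedSpace ℝ E] (D : Geo E)
    (K : Set E) (hKX : K ⊆ D.X) (ι : Type) [Fintype ι] (N : ℕ) (C : ℝ) (hC : 0 ≤ C)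
    (h : ∀ δ : ℝ, 0 < δ → δ ≤ 1 → FamHyp D K ι N C δ) :
    ∃ C₀ : ℝ, ∀ ε : ℝ, 0 < ε → GoodPart D K C₀ ε := by
  classical
  obtain ⟨CT, hCT, hTay⟩ := PP_taylor ι N
  have hTay' := hTay D.Γ
  set M : ℝ := 2 * N * Fintype.card ι with hM
  have hM0 : 0 ≤ M := by (clear * -; positivity)
  refine ⟨M * C, fun ε hε => ?_⟩
  set Q : ℝ := M * C + C * (2 + CT) with hQ
  have hQ0 : 0 ≤ Q := by (clear * - hC hCT; positivity)
  set δ : ℝ := min 1 (ε / (Q + 1)) with hδdef
  have hδ : 0 < δ := lt_min one_pos (by (clear * - hε hC hCT; positivity))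
  have hδ1 : δ ≤ 1 := min_le_left _ _
  have hδε : Q * δ ≤ ε := by
    have h1 : δ ≤ ε / (Q + 1) := min_le_right _ _
    have h2 : δ * (Q + 1) ≤ ε := by rwa [le_div_iff₀ (by (clear * - hC hCT; positivity))] at h1
    (clear * - hδ h2; linarith only [hδ, h2])
  obtain ⟨L, a, a', C', hL, hpos, heq, hbd, htay, hdir⟩ := h δ hδ hδ1
  have hL0r : (0 : ℝ) < (L : ℝ) := by
    by_contra hcon
    have : (L : ℝ) = 0 := le_antisymm (not_lt.1 hcon) (Nat.cast_nonneg L)
    rw [this] at hL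
    norm_num at hL
  have hL0 : 0 < L := by exact_mod_cast hL0r
  have hLi : 0 ≤ (L : ℝ)⁻¹ := by positivity
  -- the derivative
  have hadd : ∀ x ∈ K, ∀ γ : D.Γ, ∀ l < L, ∀ u v : E,
      dP N (a l x) (fun i g => a' l x i g (u + v)) γ =
        dP N (a l x) (fun i g => a' l x i g u) γ + dP N (a l x) (fun i g => a' l x i g v) γ := by
    intro x hx γ l hl u v
    have := dP_add N (a l x) (fun i g => a' l x i g u) (fun i g => a' l x i g v) (C * ‖u‖)
      (C * ‖v‖) (hpos l x (hKX hx)).1 (hpos l x (hKX hx)).2 (hbd l hl x hx u)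
      (hbd l hl x hx v) γ
    rw [← this]
    congr 1
    funext i g
    exact map_add _ _ _
  have hsmul : ∀ x ∈ K, ∀ γ : D.Γ, ∀ l < L, ∀ (t : ℝ) (u : E),
      dP N (a l x) (fun i g => a' l x i g (t • u)) γ =
        t * dP N (a l x) (fun i g => a' l x i g u) γ := by
    intro x hx γ l hl t u
    have := dP_smul N (a l x) (fun i g => a' l x i g u) t γ
    rw [← this]
    congr 1
    funext i g
    simp
  let P : E → D.Γ → ℝ := fun x γ => (L : ℝ)⁻¹ * ∑ l ∈ Finset.range L, PP N (a l x) γ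
  let P' : E → D.Γ → (E →ₗ[ℝ] ℝ) := fun x γ =>
    if hx : x ∈ K then
      { toFun := fun u =>
          (L : ℝ)⁻¹ * ∑ l ∈ Finset.range L, dP N (a l x) (fun i g => a' l x i g u) γ
        map_add' := by
          intro u v
          rw [← mul_add, ← Finset.sum_add_distrib]
          congr 1
          exact Finset.sum_congr rfl fun l hl => hadd x hx γ l (Finset.mem_range.1 hl) u v
        map_smul' := by
          intro t u
          rw [RingHom.id_apply, smul_eq_mul, mul_left_comm]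
          congr 1
          rw [Finset.mul_sum]
          exact Finset.sum_congr rfl fun l hl => hsmul x hx γ l (Finset.mem_range.1 hl) t u }
    else 0
  have hP' : ∀ x ∈ K, ∀ γ u, P' x γ u =
      (L : ℝ)⁻¹ * ∑ l ∈ Finset.range L, dP N (a l x) (fun i g => a' l x i g u) γ := by
    intro x hx γ u
    simp only [P', dif_pos hx]
    rfl
  refine ⟨P, P', CT * (|C'|) ^ 2 + M * |C'|, ?_, ?_, ?_, ?_, ?_⟩
  · intro x hx
    refine ⟨fun γ => ?_, ?_⟩
    · exact mul_nonneg hLi (Finset.sum_nonneg fun l _ => PP_nonneg N _ (hpos l x hx).1 γ)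
    · have h1 : HasSum (fun γ => ∑ l ∈ Finset.range L, PP N (a l x) γ)
          (∑ _l ∈ Finset.range L, (1 : ℝ)) :=
        hasSum_sum fun l _ => hasSum_PP N (a l x) (hpos l x hx).1 (hpos l x hx).2
      have h2 := h1.mul_left ((L : ℝ)⁻¹)
      rwa [avg_const L hL0 1] at h2
  · intro g x hx γ
    simp only [P]
    congr 1
    refine Finset.sum_congr rfl fun l _ => ?_
    choose c hc0 hc using fun i => heq l g x hx i
    exact PP_equiv N (a l x) (a l (g.1 x)) g c hc0 (fun i g' => hc i g') γ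
  · intro x hx S u
    simp only [hP' x hx]
    refine (avg_bound S L _ (fun _ => M * (C * ‖u‖)) fun l hl => ?_).trans ?_
    · exact dP_bound N (a l x) _ (C * ‖u‖) (hpos l x (hKX hx)).1 (hpos l x (hKX hx)).2
        (hbd l hl x hx u) S
    · rw [avg_const L hL0]
      exact le_of_eq (by ring)
  · intro x hx
    obtain ⟨u, hu1, lam, μ, y, w, s, hμ, hl, hs⟩ := hdir x hx
    refine ⟨u, hu1, fun S => ?_⟩
    simp only [hP' x hx]
    have hpx := fun l => (hpos l x (hKX hx)).1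
    have hsx := fun l => (hpos l x (hKX hx)).2
    have hsplit : ∀ l < L, ∀ γ, dP N (a l x) (fun i g => a' l x i g u) γ =
        dP N (a l x) (w l) γ + μ * dP N (a l x) (y l) γ := by
      intro l hlL γ
      obtain ⟨hs0, hall⟩ := hl l hlL
      have e1 : (fun i g => a' l x i g u) =
          fun i g => (fun i g => lam i * a l x i g) i g +
            (fun i g => w l i g + (fun i g => μ * y l i g) i g) i g := by
        funext i g
        rw [(hall i g).1]
        simp only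
        ring
      have hΛ : ∀ i g, |lam i * a l x i g| ≤ (∑ j, |lam j|) * a l x i g := by
        intro i g
        rw [abs_mul, abs_of_pos (hpx l i g)]
        refine mul_le_mul_of_nonneg_right ?_ (hpx l i g).le
        exact Finset.single_le_sum (f := fun j => |lam j|) (fun j _ => abs_nonneg _)
          (Finset.mem_univ i)
      have hw : ∀ i g, |w l i g| ≤ s l * a l x i g := fun i g => (hall i g).2.2.2
      have hyy : ∀ i g, |μ * y l i g| ≤ |μ| * a l x i g := by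
        intro i g
        rw [abs_mul]
        exact mul_le_mul_of_nonneg_left (hall i g).2.2.1 (abs_nonneg _)
      have hwy : ∀ i g, |w l i g + μ * y l i g| ≤ (s l + |μ|) * a l x i g := by
        intro i g
        refine (abs_add_le _ _).trans ?_
        rw [add_mul]
        exact add_le_add (hw i g) (hyy i g)
      rw [e1, dP_add N (a l x) _ _ (∑ j, |lam j|) (s l + |μ|) (hpx l) (hsx l) hΛ hwy γ,
        dP_scale N (a l x) lam (hpx l) (hsx l) γ, zero_add,
        dP_add N (a l x) _ _ (s l) (|μ|) (hpx l) (hsx l) hw hyy γ, dP_smul]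
    have hA : ∑ γ ∈ S, |((L : ℝ)⁻¹) * ∑ l ∈ Finset.range L, dP N (a l x) (w l) γ| ≤
        M * C * δ := by
      refine (avg_bound S L _ (fun l => M * s l) fun l hlL => ?_).trans ?_
      · exact dP_bound N (a l x) _ (s l) (hpx l) (hsx l)
          (fun i g => ((hl l hlL).2 i g).2.2.2) S
      · rw [← Finset.mul_sum]
        calc (L : ℝ)⁻¹ * (M * ∑ l ∈ Finset.range L, s l)
            ≤ (L : ℝ)⁻¹ * (M * (C * δ * (L : ℝ))) :=
              mul_le_mul_of_nonneg_left (mul_le_mul_of_nonneg_left hs hM0) hLi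
          _ = M * C * δ := by field_simp
    have hB := dir_bound N CT hCT hTay' C δ hC hδ L hL (fun l => a l x) hpx hsx y μ hμ
      (fun l hlL i g => ⟨((hl l hlL).2 i g).2.1, ((hl l hlL).2 i g).2.2.1⟩) S
    calc ∑ γ ∈ S, |((L : ℝ)⁻¹) * ∑ l ∈ Finset.range L,
          dP N (a l x) (fun i g => a' l x i g u) γ|
        ≤ ∑ γ ∈ S, (|((L : ℝ)⁻¹) * ∑ l ∈ Finset.range L, dP N (a l x) (w l) γ| +
            |((L : ℝ)⁻¹) * ∑ l ∈ Finset.range L, μ * dP N (a l x) (y l) γ|) := by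
          refine Finset.sum_le_sum fun γ _ => ?_
          rw [Finset.sum_congr rfl fun l hlL => hsplit l (Finset.mem_range.1 hlL) γ,
            Finset.sum_add_distrib, mul_add]
          exact abs_add_le _ _
      _ ≤ M * C * δ + C * (2 + CT) * δ := by
          rw [Finset.sum_add_distrib]
          exact add_le_add hA hB
      _ = Q * δ := by rw [hQ]; ring
      _ ≤ ε := hδε
  · intro x hx y hy S
    simp only [hP' x hx]
    have hpx := fun l => (hpos l x (hKX hx)).1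
    have hsx := fun l => (hpos l x (hKX hx)).2
    have e1 : ∀ γ, P y γ - P x γ - (L : ℝ)⁻¹ * ∑ l ∈ Finset.range L,
        dP N (a l x) (fun i g => a' l x i g (y - x)) γ =
        (L : ℝ)⁻¹ * ∑ l ∈ Finset.range L, (PP N (a l y) γ - PP N (a l x) γ -
          dP N (a l x) (fun i g => a' l x i g (y - x)) γ) := by
      intro γ
      simp only [P]
      rw [← mul_sub, ← mul_sub, Finset.sum_sub_distrib, Finset.sum_sub_distrib]
    rw [Finset.sum_congr rfl fun γ _ => by rw [e1 γ]]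
    refine (avg_bound S L _ (fun _ => CT * (|C'| * ‖y - x‖) ^ 2 +
      M * (|C'| * ‖y - x‖ ^ 2)) fun l hlL => ?_).trans ?_
    · have hn : 0 ≤ ‖y - x‖ := norm_nonneg _
      have hb1 : ∀ i g, |a l y i g - a l x i g| ≤ |C'| * ‖y - x‖ * a l x i g := by
        intro i g
        refine (htay l hlL x hx y hy i g).1.trans ?_
        refine mul_le_mul_of_nonneg_right ?_ (hpx l i g).le
        exact mul_le_mul_of_nonneg_right (le_abs_self _) hn
      have hb2 : ∀ i g, |a l y i g - a l x i g - a' l x i g (y - x)| ≤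
          |C'| * ‖y - x‖ ^ 2 * a l x i g := by
        intro i g
        refine (htay l hlL x hx y hy i g).2.trans ?_
        refine mul_le_mul_of_nonneg_right ?_ (hpx l i g).le
        exact mul_le_mul_of_nonneg_right (le_abs_self _) (by positivity)
      have e2 : (fun i g => a l x i g + (fun i g => a l y i g - a l x i g) i g) = a l y := by
        funext i g
        simp
      have hT := hTay' (a l x) (fun i g => a l y i g - a l x i g) (|C'| * ‖y - x‖)
        (by (clear * -; positivity)) (hpx l)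
        (fun i g => by
          have := (hpos l y (hKX hy)).1 i g
          simpa using this) hb1 (hsx l)
        (by
          have := (hpos l y (hKX hy)).2
          simpa using this) S
      have e3 : ∀ γ, dP N (a l x) (fun i g => a l y i g - a l x i g) γ =
          dP N (a l x) (fun i g => a' l x i g (y - x)) γ +
          dP N (a l x) (fun i g => a l y i g - a l x i g - a' l x i g (y - x)) γ := by
        intro γ
        rw [← dP_add N (a l x) _ _ (C * ‖y - x‖) (|C'| * ‖y - x‖ ^ 2) (hpx l) (hsx l)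
          (hbd l hlL x hx (y - x)) hb2 γ]
        congr 1
        funext i g
        simp
      have hD := dP_bound N (a l x)
        (fun i g => a l y i g - a l x i g - a' l x i g (y - x)) (|C'| * ‖y - x‖ ^ 2)
        (hpx l) (hsx l) hb2 S
      have e4 : ∀ γ, PP N (a l y) γ - PP N (a l x) γ -
          dP N (a l x) (fun i g => a' l x i g (y - x)) γ =
          (PP N (fun i g => a l x i g + (a l y i g - a l x i g)) γ - PP N (a l x) γ -
            dP N (a l x) (fun i g => a l y i g - a l x i g) γ) +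
          dP N (a l x) (fun i g => a l y i g - a l x i g - a' l x i g (y - x)) γ := by
        intro γ
        have e5 : (fun i g => a l x i g + (a l y i g - a l x i g)) = a l y := e2
        rw [e5, e3 γ]
        ring
      calc ∑ γ ∈ S, |PP N (a l y) γ - PP N (a l x) γ -
            dP N (a l x) (fun i g => a' l x i g (y - x)) γ|
          ≤ ∑ γ ∈ S, (|PP N (fun i g => a l x i g + (a l y i g - a l x i g)) γ -
              PP N (a l x) γ - dP N (a l x) (fun i g => a l y i g - a l x i g) γ| +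
            |dP N (a l x) (fun i g => a l y i g - a l x i g - a' l x i g (y - x)) γ|) := by
            refine Finset.sum_le_sum fun γ _ => ?_
            rw [e4 γ]
            exact abs_add_le _ _
        _ ≤ CT * (|C'| * ‖y - x‖) ^ 2 + M * (|C'| * ‖y - x‖ ^ 2) := by
            rw [Finset.sum_add_distrib]
            exact add_le_add hT hD
    · rw [avg_const L hL0]
      exact le_of_eq (by ring)

end Pool.AF
end

/- Helper16.LDA.H94.AF.Equi -/
section
open Set Finset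

set_option linter.unusedSectionVars false

namespace Pool.AF

open Pool.SV

/-! ## AF-8 EQUI: equivariant maps into convex sets (partition of unity) -/

private theorem fin_of_compact {E : Type*} [NormedAddCommGroup E] [NormedSpace ℝ E]
    (D : Geo E) (K : Set E) (hK : K ⊆ D.X) (hc : IsCompact K) :
    {g : D.Γ | ∃ x ∈ K, (g⁻¹).1 x ∈ K}.Finite := by
  have h := D.pd K hK hc
  refine (h.preimage (f := fun g : D.Γ => (g⁻¹).1)
    (fun a _ b _ hab => inv_injective (Subtype.ext hab))).subset ?_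
  rintro g ⟨x, hx, hgx⟩
  exact ⟨(g⁻¹).2, x, hx, hgx⟩

private theorem exists_bump {E : Type*} [NormedAddCommGroup E] [NormedSpace ℝ E]
    [FiniteDimensional ℝ E] (X K : Set E) (hX : IsOpen X) (hKX : K ⊆ X) (hK : IsCompact K) :
    ∃ χ : E → ℝ, tsupport χ ⊆ X ∧ IsCompact (tsupport χ) ∧ ContDiff ℝ 2 χ ∧ (∀ x, 0 ≤ χ x) ∧
      ∀ x ∈ K, 0 < χ x := by
  classical
  have h1 : ∀ x : E, x ∈ K → ∃ f : E → ℝ, tsupport f ⊆ X ∧ HasCompactSupport f ∧
      ContDiff ℝ ((2 : ℕ∞) : WithTop ℕ∞) f ∧ range f ⊆ Icc 0 1 ∧ f x = 1 := fun x hx =>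
    exists_contDiff_tsupport_subset (n := 2) (hX.mem_nhds (hKX hx))
  choose! f hf1 hf2 hf3 hf4 hf5 using h1
  obtain ⟨t, ht, hcov⟩ := hK.elim_nhds_subcover (fun x => {y | 0 < f x y}) (by
    intro x hx
    have hopen : IsOpen {y | 0 < f x y} := isOpen_lt continuous_const (hf3 x hx).continuous
    apply hopen.mem_nhds
    show 0 < f x x
    rw [hf5 x hx]; exact one_pos)
  have hpos : ∀ x ∈ K, ∀ y, 0 ≤ f x y := fun x hx y => (hf4 x hx ⟨y, rfl⟩).1
  have hsupp : tsupport (fun y => ∑ x ∈ t, f x y) ⊆ ⋃ x ∈ t, tsupport (f x) := by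
    apply closure_minimal
    · intro y hy
      have hy' : ∑ x ∈ t, f x y ≠ 0 := hy
      obtain ⟨x, hx, hxy⟩ := Finset.exists_ne_zero_of_sum_ne_zero hy'
      exact mem_biUnion hx (subset_tsupport _ hxy)
    · exact Set.Finite.isClosed_biUnion (Finset.finite_toSet t) fun x _ => isClosed_tsupport _
  refine ⟨fun y => ∑ x ∈ t, f x y, ?_, ?_, ?_, ?_, ?_⟩
  · refine hsupp.trans ?_
    exact iUnion₂_subset fun x hx => hf1 x (ht x hx)
  · refine IsCompact.of_isClosed_subset (s := ⋃ x ∈ t, tsupport (f x)) ?_ (isClosed_tsupport _)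
      hsupp
    exact t.isCompact_biUnion fun x hx => hf2 x (ht x hx)
  · exact ContDiff.sum fun x hx => hf3 x (ht x hx)
  · exact fun y => Finset.sum_nonneg fun x hx => hpos x (ht x hx) y
  · intro y hy
    have := hcov hy
    rw [mem_iUnion₂] at this
    obtain ⟨x, hx, hxy⟩ := this
    exact Finset.sum_pos' (fun x hx => hpos x (ht x hx) y) ⟨x, hx, hxy⟩

private theorem contDiff_aff {E : Type*} [NormedAddCommGroup E] [NormedSpace ℝ E]
    [FiniteDimensional ℝ E] (g : E ≃ᵃ[ℝ] E) : ContDiff ℝ 2 (fun x => g x) := by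
  have h1 : (fun x => g x) = fun x => (g.linear : E →ₗ[ℝ] E).toContinuousLinearMap x + g 0 := by
    funext x
    have := aff_eq g x
    simpa using this
  rw [h1]
  exact (ContinuousLinearMap.contDiff _).add contDiff_const

theorem exists_equi {E : Type*} [NormedAddCommGroup E] [NormedSpace ℝ E] [FiniteDimensional ℝ E]
    (D : Geo E) (hcc : ∃ K ⊆ D.X, IsCompact K ∧ ∀ x ∈ D.X, ∃ g ∈ D.Γ, g x ∈ K)
    {F : Type*} [NormedAddCommGroup F] [NormedSpace ℝ F] [FiniteDimensional ℝ F]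
    (ρ : D.Γ →* (F →ₗ[ℝ] F)) (C : Set F) (hC : Convex ℝ C) (hne : C.Nonempty)
    (hinv : ∀ g, ∀ v ∈ C, ρ g v ∈ C) :
    ∃ v : E → F, ContDiffOn ℝ 2 v D.X ∧ (∀ x ∈ D.X, v x ∈ C) ∧
      ∀ g : D.Γ, ∀ x ∈ D.X, v (g.1 x) = ρ g (v x) := by
  classical
  obtain ⟨K, hKX, hK, hcov⟩ := hcc
  obtain ⟨χ, hχ1, hχ2, hχ3, hχ4, hχ5⟩ := exists_bump D.X K D.isOpen hKX hK
  obtain ⟨v0, hv0⟩ := hne
  -- local finiteness
  have hloc : ∀ x0 ∈ D.X, ∃ B : Set E, B ∈ nhds x0 ∧ ∃ T : Finset D.Γ, ∀ x ∈ B, ∀ g : D.Γ,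
      χ ((g⁻¹).1 x) ≠ 0 → g ∈ T := by
    intro x0 hx0
    obtain ⟨B, hB, hx0B, hBX⟩ := exists_compact_subset D.isOpen hx0
    have hfin := fin_of_compact D (B ∪ tsupport χ) (union_subset hBX hχ1) (hB.union hχ2)
    refine ⟨B, mem_interior_iff_mem_nhds.1 hx0B, hfin.toFinset, ?_⟩
    intro x hx g hg
    rw [Set.Finite.mem_toFinset]
    exact ⟨x, Or.inl hx, Or.inr (subset_tsupport _ hg)⟩
  set Z : E → ℝ := fun x => ∑ᶠ g : D.Γ, χ ((g⁻¹).1 x) with hZ
  set V : E → F := fun x => ∑ᶠ g : D.Γ, χ ((g⁻¹).1 x) • ρ g v0 with hV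
  have hZs : ∀ x : E, ∀ T : Finset D.Γ, (∀ g : D.Γ, χ ((g⁻¹).1 x) ≠ 0 → g ∈ T) →
      Z x = ∑ g ∈ T, χ ((g⁻¹).1 x) := by
    intro x T hT
    exact finsum_eq_sum_of_support_subset _ (fun g hg => hT g hg)
  have hVs : ∀ x : E, ∀ T : Finset D.Γ, (∀ g : D.Γ, χ ((g⁻¹).1 x) ≠ 0 → g ∈ T) →
      V x = ∑ g ∈ T, χ ((g⁻¹).1 x) • ρ g v0 := by
    intro x T hT
    refine finsum_eq_sum_of_support_subset _ (fun g hg => hT g ?_)
    intro h0
    apply hg
    show χ ((g⁻¹).1 x) • ρ g v0 = 0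
    rw [h0, zero_smul]
  have hZpos : ∀ x ∈ D.X, 0 < Z x := by
    intro x hx
    obtain ⟨B, hB, T, hT⟩ := hloc x hx
    rw [hZs x T (hT x (mem_of_mem_nhds hB))]
    obtain ⟨g, hg, hgx⟩ := hcov x hx
    have hp := hχ5 _ hgx
    set g' : D.Γ := ⟨g, hg⟩⁻¹ with hg'
    have h2 : χ ((g'⁻¹).1 x) = χ (g x) := by rw [hg', inv_inv]
    refine Finset.sum_pos' (fun g _ => hχ4 _) ⟨g', hT x (mem_of_mem_nhds hB) g' ?_, ?_⟩
    · rw [h2]; exact hp.ne'
    · rw [h2]; exact hp
  refine ⟨fun x => (Z x)⁻¹ • V x, ?_, ?_, ?_⟩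
  · intro x0 hx0
    apply ContDiffAt.contDiffWithinAt
    obtain ⟨B, hB, T, hT⟩ := hloc x0 hx0
    have he : (fun x => (Z x)⁻¹ • V x) =ᶠ[nhds x0]
        fun x => (∑ g ∈ T, χ ((g⁻¹).1 x))⁻¹ • ∑ g ∈ T, χ ((g⁻¹).1 x) • ρ g v0 := by
      filter_upwards [hB] with x hx
      rw [hZs x T (hT x hx), hVs x T (hT x hx)]
    have hcd : ∀ g : D.Γ, ContDiff ℝ 2 (fun x => χ ((g⁻¹).1 x)) := fun g =>
      hχ3.comp (contDiff_aff _)
    refine ContDiffAt.congr_of_eventuallyEq ?_ he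
    refine ContDiffAt.smul ?_ ?_
    · refine ContDiffAt.inv ?_ ?_
      · exact ContDiffAt.sum fun g _ => (hcd g).contDiffAt
      · rw [← hZs x0 T (hT x0 (mem_of_mem_nhds hB))]
        exact (hZpos x0 hx0).ne'
    · exact ContDiffAt.sum fun g _ => ((hcd g).contDiffAt).smul contDiffAt_const
  · intro x hx
    obtain ⟨B, hB, T, hT⟩ := hloc x hx
    have hTx := hT x (mem_of_mem_nhds hB)
    have hz := hZpos x hx
    show (Z x)⁻¹ • V x ∈ C
    rw [hVs x T hTx, Finset.smul_sum]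
    simp only [smul_smul]
    refine hC.sum_mem (fun g _ => mul_nonneg (inv_nonneg.2 hz.le) (hχ4 _)) ?_
      (fun g _ => hinv g v0 hv0)
    rw [← Finset.mul_sum, ← hZs x T hTx, inv_mul_cancel₀ hz.ne']
  · intro h x hx
    obtain ⟨B, hB, T, hT⟩ := hloc x hx
    have hTx := hT x (mem_of_mem_nhds hB)
    have hact : ∀ g : D.Γ, (g⁻¹).1 (h.1 x) = ((Equiv.mulLeft h⁻¹ g)⁻¹).1 x := by
      intro g
      rw [Equiv.coe_mulLeft, mul_inv_rev, inv_inv]
      rfl
    have hZh : Z (h.1 x) = Z x := by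
      simp only [hZ, hact]
      exact finsum_comp_equiv (Equiv.mulLeft h⁻¹) (f := fun g : D.Γ => χ ((g⁻¹).1 x))
    have hVh : V (h.1 x) = ρ h (V x) := by
      have hfs : (Function.support fun g : D.Γ => χ ((g⁻¹).1 x) • ρ g v0).Finite := by
        refine (Finset.finite_toSet T).subset fun g hg => hTx g ?_
        intro h0
        apply hg
        show χ ((g⁻¹).1 x) • ρ g v0 = 0
        rw [h0, zero_smul]
      have e1 : V (h.1 x) = ∑ᶠ g : D.Γ, ρ h (χ (((Equiv.mulLeft h⁻¹ g)⁻¹).1 x) •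
          ρ (Equiv.mulLeft h⁻¹ g) v0) := by
        simp only [hV]
        refine finsum_congr fun g => ?_
        rw [hact, map_smul]
        congr 1
        have e2 : g = h * (Equiv.mulLeft h⁻¹ g) := by
          rw [Equiv.coe_mulLeft, mul_inv_cancel_left]
        conv_lhs => rw [e2]
        rw [map_mul]
        rfl
      rw [e1, finsum_comp_equiv (Equiv.mulLeft h⁻¹)
        (f := fun g : D.Γ => ρ h (χ ((g⁻¹).1 x) • ρ g v0))]
      simp only [hV]
      rw [← map_finsum (ρ h) hfs]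
    show (Z (h.1 x))⁻¹ • V (h.1 x) = ρ h ((Z x)⁻¹ • V x)
    rw [hZh, hVh, map_smul]

end Pool.AF
end

/- Helper16.LDA.H94.AF.RecI -/
section
open Set Finset

set_option linter.unusedSectionVars false

namespace Pool.AF

open Pool.SV

/-! ## AF-20 RECI: the recession cone -/

section

variable {E : Type*} [NormedAddCommGroup E] [NormedSpace ℝ E] [FiniteDimensional ℝ E]

namespace RecIAux

theorem rec_zero (X : Set E) : (0 : E) ∈ Rec X := fun x hx t _ => by
  rwa [smul_zero, add_zero]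

theorem rec_add {X : Set E} {u v : E} (hu : u ∈ Rec X) (hv : v ∈ Rec X) : u + v ∈ Rec X := by
  intro x hx t ht
  rw [smul_add, ← add_assoc]
  exact hv _ (hu x hx t ht) t ht

theorem rec_smul {X : Set E} {u : E} (hu : u ∈ Rec X) {c : ℝ} (hc : 0 ≤ c) : c • u ∈ Rec X := by
  intro x hx t ht
  rw [smul_smul]
  exact hu x hx _ (mul_nonneg ht hc)

theorem rec_sum {X : Set E} {ι : Type*} (s : Finset ι) (f : ι → E) (h : ∀ i ∈ s, f i ∈ Rec X) :
    ∑ i ∈ s, f i ∈ Rec X := by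
  classical
  induction s using Finset.induction_on with
  | empty => simpa using rec_zero X
  | insert i s hi ih =>
    rw [Finset.sum_insert hi]
    exact rec_add (h i (Finset.mem_insert_self _ _)) (ih fun j hj => h j (Finset.mem_insert_of_mem hj))

theorem rec_inv (D : Geo E) {g : E ≃ᵃ[ℝ] E} (hg : g ∈ D.Γ) {u : E} (hu : u ∈ Rec D.X) :
    g.linear u ∈ Rec D.X := by
  intro x hx t ht
  have h1 := D.inv g⁻¹ (inv_mem hg) x hx
  have h2 := D.inv g hg _ (hu _ h1 t ht)
  have h3 : g (g⁻¹ x + t • u) = x + t • g.linear u := by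
    have h4 := g.map_vadd (g⁻¹ x) (t • u)
    rw [vadd_eq_add, vadd_eq_add, map_smul] at h4
    have h5 : g (g⁻¹ x) = x := g.apply_symm_apply x
    rw [h5] at h4
    rw [add_comm, h4, add_comm]
  rwa [h3] at h2

theorem recInt_sub (X : Set E) : RecInt X ⊆ Rec X := by
  rintro u ⟨δ, hδ, h⟩
  have := h 0 (Submodule.zero_mem _) (by rw [norm_zero]; exact hδ.le)
  rwa [add_zero] at this

theorem recInt_nonempty (X : Set E) : (RecInt X).Nonempty := by
  classical
  obtain ⟨b, hb, hspan, hli⟩ := exists_linearIndependent ℝ (Rec X)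
  have : Finite b := hli.finite
  have : Fintype b := Fintype.ofFinite b
  let W := Submodule.span ℝ (Set.range ((↑) : b → E))
  have hW : W = Submodule.span ℝ (Rec X) := by
    show Submodule.span ℝ (Set.range ((↑) : b → E)) = _
    rw [Subtype.range_coe, hspan]
  let B : Module.Basis b ℝ W := Module.Basis.span hli
  let T : W →L[ℝ] (b → ℝ) := LinearMap.toContinuousLinearMap (B.equivFun : W →ₗ[ℝ] (b → ℝ))
  refine ⟨∑ i : b, (i : E), (‖T‖ + 1)⁻¹, by (clear * -; positivity), fun w hw hwn => ?_⟩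
  rw [← hW] at hw
  have h1 : ∀ i, |T ⟨w, hw⟩ i| ≤ 1 := by
    intro i
    have h2 : ‖T ⟨w, hw⟩‖ ≤ ‖T‖ * ‖(⟨w, hw⟩ : W)‖ := T.le_opNorm _
    have h3 : ‖(⟨w, hw⟩ : W)‖ = ‖w‖ := rfl
    rw [h3] at h2
    have h4 : ‖T‖ * ‖w‖ ≤ 1 := by
      have h5 : (0 : ℝ) ≤ ‖T‖ := T.opNorm_nonneg
      calc ‖T‖ * ‖w‖ ≤ (‖T‖ + 1) * (‖T‖ + 1)⁻¹ :=
            mul_le_mul (by linarith only []) hwn (norm_nonneg _) (by (clear * -; positivity))
        _ = 1 := mul_inv_cancel₀ (by positivity)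
    have h6 := norm_le_pi_norm (T ⟨w, hw⟩) i
    rw [Real.norm_eq_abs] at h6
    (clear * - h2 h4 h6; linarith)
  have h2 : w = ∑ i : b, (T ⟨w, hw⟩ i) • (i : E) := by
    have h3 := congrArg (fun z : W => (z : E)) (B.sum_equivFun ⟨w, hw⟩)
    simp only [Submodule.coe_sum, Submodule.coe_smul] at h3
    refine h3.symm.trans (Finset.sum_congr rfl fun i _ => ?_)
    have h4 : ((B i : W) : E) = (i : E) :=
      congrArg (fun z : W => (z : E)) (Module.Basis.span_apply hli i)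
    rw [h4]
    rfl
  rw [h2, ← Finset.sum_add_distrib]
  refine rec_sum _ _ fun i _ => ?_
  have h3 : (i : E) + (T ⟨w, hw⟩ i) • (i : E) = (1 + T ⟨w, hw⟩ i) • (i : E) := by
    rw [add_smul, one_smul]
  rw [h3]
  refine rec_smul (hb i.2) ?_
  have := abs_le.1 (h1 i)
  linarith only [this]

theorem rec_of_closure {X : Set E} (hX : IsOpen X) (hc : Convex ℝ X) {u : E}
    (h : ∀ x ∈ X, ∀ t : ℝ, 0 ≤ t → x + t • u ∈ closure X) : u ∈ Rec X := by
  intro x hx t ht
  have h1 := h x hx (2 * t) (by (clear * - ht; positivity))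
  have h2 := hc.combo_interior_closure_mem_interior (by rwa [hX.interior_eq]) h1
    (a := 1 / 2) (b := 1 / 2) (by norm_num) (by norm_num) (by norm_num)
  rw [hX.interior_eq] at h2
  have h3 : x + t • u = (1 / 2 : ℝ) • x + (1 / 2 : ℝ) • (x + (2 * t) • u) := by
    module
  rwa [h3]

/-- boundedness of the slice -/
theorem bdd_slice (D : Geo E) (e : Alg E) (h : ∀ u ∈ Rec D.X, e (u, 0) = 0 → u = 0) :
    ∃ M : ℝ, ∀ y ∈ D.X, e (y, 1) = 0 → ‖y‖ ≤ M := by
  have : ProperSpace E := FiniteDimensional.proper_real E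
  by_contra hcon
  push Not at hcon
  have h1 : ∀ n : ℕ, ∃ y ∈ D.X, e (y, 1) = 0 ∧ (n : ℝ) + 1 < ‖y‖ := fun n => hcon (n + 1)
  choose y hyX hye hyn using h1
  have hpos : ∀ n, 0 < ‖y n‖ := fun n => lt_trans (by (clear * -; positivity)) (hyn n)
  have hs : ∀ n, (‖y n‖)⁻¹ • y n ∈ Metric.sphere (0 : E) 1 := by
    intro n
    rw [mem_sphere_zero_iff_norm, norm_smul, norm_inv, norm_norm, inv_mul_cancel₀ (hpos n).ne']
  obtain ⟨u, hu, φ, hφ, hlim⟩ := (isCompact_sphere (0 : E) 1).tendsto_subseq hs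
  have hinv : Filter.Tendsto (fun n => (‖y (φ n)‖)⁻¹) Filter.atTop (nhds 0) := by
    apply Filter.Tendsto.inv_tendsto_atTop
    apply Filter.tendsto_atTop_mono (f := fun n : ℕ => (n : ℝ))
    · intro n
      have h1 : (n : ℝ) ≤ φ n := by exact_mod_cast hφ.id_le n
      have h2 := hyn (φ n)
      linarith
    · exact tendsto_natCast_atTop_atTop
  have hu1 : ‖u‖ = 1 := by simpa using hu
  have he0 : e (u, 0) = 0 := by
    have h1 : Filter.Tendsto (fun n => e ((‖y (φ n)‖)⁻¹ • y (φ n), (‖y (φ n)‖)⁻¹)) Filter.atTop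
        (nhds (e (u, 0))) :=
      (e.continuous.tendsto _).comp (hlim.prodMk_nhds hinv)
    have h2 : (fun n => e ((‖y (φ n)‖)⁻¹ • y (φ n), (‖y (φ n)‖)⁻¹)) = fun _ => 0 := by
      funext n
      have h3 : (((‖y (φ n)‖)⁻¹ • y (φ n), (‖y (φ n)‖)⁻¹) : E × ℝ) =
          (‖y (φ n)‖)⁻¹ • (y (φ n), (1 : ℝ)) := by
        rw [Prod.smul_mk, smul_eq_mul, mul_one]
      rw [h3, map_smul, hye, smul_zero]
    rw [h2] at h1
    exact (tendsto_nhds_unique h1 tendsto_const_nhds)
  have hrec : u ∈ Rec D.X := by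
    refine rec_of_closure D.isOpen D.convex fun x hx t ht => ?_
    have hz : Filter.Tendsto (fun n => x + t • ((‖y (φ n)‖)⁻¹ • y (φ n)) -
        (t * (‖y (φ n)‖)⁻¹) • x) Filter.atTop (nhds (x + t • u - (t * 0) • x)) := by
      refine Filter.Tendsto.sub ?_ ?_
      · exact tendsto_const_nhds.add (hlim.const_smul t)
      · exact (hinv.const_mul t).smul tendsto_const_nhds
    rw [mul_zero, zero_smul, sub_zero] at hz
    refine mem_closure_of_tendsto hz ?_
    have hev : ∀ᶠ n in Filter.atTop, t * (‖y (φ n)‖)⁻¹ < 1 := by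
      have := hinv.const_mul t
      rw [mul_zero] at this
      exact this.eventually (gt_mem_nhds one_pos)
    filter_upwards [hev] with n hn
    have h3 : x + t • ((‖y (φ n)‖)⁻¹ • y (φ n)) - (t * (‖y (φ n)‖)⁻¹) • x =
        (1 - t * (‖y (φ n)‖)⁻¹) • x + (t * (‖y (φ n)‖)⁻¹) • y (φ n) := by
      module
    rw [h3]
    exact D.convex hx (hyX _) (by linarith only [hn]) (mul_nonneg ht (by positivity)) (by ring)
  have := h u hrec he0
  rw [this, norm_zero] at hu1
  exact zero_ne_one hu1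

/-- an operator bounded on `X × {1}` is bounded -/
theorem opNorm_bound {X : Set E} {x₀ : E} {δ : ℝ} (hδ : 0 < δ) (hb : Metric.ball x₀ δ ⊆ X)
    {T : Alg E} {M : ℝ} (hT : ∀ x ∈ X, ‖T (x, 1)‖ ≤ M) :
    ‖T‖ ≤ 4 * M / δ + (M + 4 * M / δ * ‖x₀‖) := by
  have hx0 : x₀ ∈ X := hb (Metric.mem_ball_self hδ)
  have hM : 0 ≤ M := (norm_nonneg _).trans (hT _ hx0)
  have h1 : ∀ w : E, ‖T (w, 0)‖ ≤ 4 * M / δ * ‖w‖ := by
    intro w
    rcases eq_or_ne w 0 with rfl | hw
    · have : T ((0 : E), (0 : ℝ)) = 0 := map_zero T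
      rw [this]; simp
    have hw' : 0 < ‖w‖ := norm_pos_iff.2 hw
    set c : ℝ := δ / (2 * ‖w‖) with hc
    have hc0 : 0 < c := by positivity
    have h2 : x₀ + c • w ∈ X := by
      apply hb
      rw [Metric.mem_ball, dist_eq_norm, add_sub_cancel_left, norm_smul, Real.norm_eq_abs,
        abs_of_pos hc0, hc]
      field_simp
      linarith only []
    have h3 : c • T (w, 0) = T (x₀ + c • w, 1) - T (x₀, 1) := by
      rw [← map_sub, ← map_smul]
      congr 1
      ext <;> simp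
    have h4 : c * ‖T (w, 0)‖ ≤ 2 * M := by
      have h5 : ‖c • T (w, 0)‖ ≤ M + M := by
        rw [h3]
        exact (norm_sub_le _ _).trans (add_le_add (hT _ h2) (hT _ hx0))
      rw [norm_smul, Real.norm_eq_abs, abs_of_pos hc0] at h5
      (clear * - h5; linarith only [h5])
    have h6 : ‖T (w, 0)‖ ≤ 2 * M / c := by
      rw [le_div_iff₀ hc0]
      (clear * - h4; linarith only [h4])
    refine h6.trans (le_of_eq ?_)
    rw [hc]
    field_simp
    ring
  have h2 : ‖T (0, 1)‖ ≤ M + 4 * M / δ * ‖x₀‖ := by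
    have h3 : T ((0 : E), (1 : ℝ)) = T (x₀, 1) - T (x₀, 0) := by
      rw [← map_sub]
      congr 1
      ext <;> simp
    rw [h3]
    exact (norm_sub_le _ _).trans (add_le_add (hT _ hx0) (h1 _))
  refine T.opNorm_le_bound (by (clear * - hM hδ; positivity)) fun v => ?_
  have h3 : T v = T (v.1, 0) + v.2 • T (0, 1) := by
    rw [← map_smul, ← map_add]
    congr 1
    ext <;> simp
  rw [h3]
  refine (norm_add_le _ _).trans ?_
  rw [norm_smul, add_mul]
  have h4 : ‖v.1‖ ≤ ‖v‖ := norm_fst_le v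
  have h5 : ‖v.2‖ ≤ ‖v‖ := norm_snd_le v
  have h6 : 4 * M / δ * ‖v.1‖ ≤ 4 * M / δ * ‖v‖ := mul_le_mul_of_nonneg_left h4 (by positivity)
  have h7 : ‖v.2‖ * ‖T (0, 1)‖ ≤ ‖v‖ * (M + 4 * M / δ * ‖x₀‖) :=
    mul_le_mul h5 h2 (norm_nonneg _) (norm_nonneg _)
  have h8 := h1 v.1
  linarith

end RecIAux

open RecIAux

/-- If the recession cone is the lineality space the top block is bounded. -/
theorem top_bounded (D : Geo E) (V : Submodule ℝ E) (hV : ∀ v, v ∈ V ↔ v ∈ Lin D.X) (e : Alg E)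
    (he : e * e = e) (hr : ∀ v : E × ℝ, e v = v ↔ v.2 = 0 ∧ v.1 ∈ V)
    (hVR : (V : Set E) = Rec D.X) :
    ∃ R : ℝ, ∀ g : D.Γ, ‖(1 - e) * hatHom D.Γ g * (1 - e)‖ ≤ R := by
  have hee : ∀ v, e (e v) = e v := fun v => by
    have := congrArg (fun T : Alg E => T v) he
    simpa using this
  obtain ⟨M, hM⟩ := bdd_slice D e (fun u hu hu0 => by
    have h1 : u ∈ V := by
      rw [← SetLike.mem_coe, hVR]
      exact hu
    have h2 := (hr (u, 0)).2 ⟨rfl, h1⟩
    rw [hu0] at h2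
    exact (congrArg Prod.fst h2).symm)
  obtain ⟨x₀, hx₀⟩ := D.nonempty
  obtain ⟨δ, hδ, hb⟩ := Metric.isOpen_iff.1 D.isOpen x₀ hx₀
  refine ⟨_, fun g => opNorm_bound hδ hb (M := max M 1) fun x hx => ?_⟩
  -- the invariant subspace
  have h1 : ∀ v, (1 - e) (hatHom D.Γ g (e v)) = 0 := by
    intro v
    obtain ⟨h2, h3⟩ := (hr (e v)).1 (hee v)
    have h4 : hatHom D.Γ g (e v) = (g.1.linear (e v).1, 0) := by
      show hat g.1 (e v) = _
      rw [hat_apply, h2, zero_smul, add_zero]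
    have h5 : g.1.linear (e v).1 ∈ V := by
      rw [← SetLike.mem_coe, hVR] at h3 ⊢
      exact rec_inv D g.2 h3
    have h6 := (hr (g.1.linear (e v).1, 0)).2 ⟨rfl, h5⟩
    rw [h4, sub_apply, one_apply_eq_self, h6, sub_self]
  have h2 : ((1 - e) * hatHom D.Γ g * (1 - e)) (x, 1) = (1 - e) (hatHom D.Γ g (x, 1)) := by
    rw [mul_apply_eq_comp, mul_apply_eq_comp]
    have h3 : (1 - e) (x, 1) = (x, 1) - e (x, 1) := rfl
    rw [h3, map_sub, map_sub, h1, sub_zero]
  have h3 : hatHom D.Γ g (x, 1) = (g.1 x, 1) := by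
    show hat g.1 (x, 1) = _
    rw [hat_apply, one_smul, ← aff_eq]
  have hgx := D.inv g.1 g.2 x hx
  obtain ⟨h4, h5⟩ := (hr (e (g.1 x, 1))).1 (hee _)
  have h6 : (1 - e) (g.1 x, (1 : ℝ)) = (g.1 x - (e (g.1 x, 1)).1, 1) := by
    have h7 : (1 - e) (g.1 x, (1 : ℝ)) = (g.1 x, 1) - e (g.1 x, 1) := rfl
    rw [h7]
    ext
    · rfl
    · show (1 : ℝ) - (e (g.1 x, 1)).2 = 1
      rw [h4, sub_zero]
  have h7 : g.1 x - (e (g.1 x, 1)).1 ∈ D.X := by
    have := (hV _).1 h5 _ hgx (-1)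
    rwa [neg_one_smul, ← sub_eq_add_neg] at this
  have h8 : e (g.1 x - (e (g.1 x, 1)).1, 1) = 0 := by
    rw [← h6]
    have h9 : (1 - e) (g.1 x, (1 : ℝ)) = (g.1 x, 1) - e (g.1 x, 1) := rfl
    rw [h9, map_sub, hee, sub_self]
  rw [h2, h3, h6, Prod.norm_def]
  have h9 := hM _ h7 h8
  simp only [norm_one]
  exact max_le_max h9 le_rfl

/-- The recession cone has interior points in its span, and they form an invariant convex set. -/
theorem recInt_props (D : Geo E) : Convex ℝ (RecInt D.X) ∧ (RecInt D.X).Nonempty ∧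
    (∀ g : D.Γ, ∀ u ∈ RecInt D.X, g.1.linear u ∈ RecInt D.X) ∧ RecInt D.X ⊆ Rec D.X ∧
    Lin D.X ⊆ Rec D.X := by
  refine ⟨?_, recInt_nonempty D.X, ?_, recInt_sub D.X, fun v hv x hx t _ => hv x hx t⟩
  · rintro u ⟨δ, hδ, hu⟩ v ⟨δ', hδ', hv⟩ a b ha hb hab
    refine ⟨min δ δ', lt_min hδ hδ', fun w hw hwn => ?_⟩
    have h1 : a • u + b • v + w = a • (u + w) + b • (v + w) := by
      have h2 : w = (a + b) • w := by rw [hab, one_smul]
      conv_lhs => rw [h2]
      module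
    rw [h1]
    exact rec_add (rec_smul (hu w hw (hwn.trans (min_le_left _ _))) ha)
      (rec_smul (hv w hw (hwn.trans (min_le_right _ _))) hb)
  · rintro g u ⟨δ, hδ, hu⟩
    let A : E →L[ℝ] E := LinearMap.toContinuousLinearMap (g.1.linear.symm : E →ₗ[ℝ] E)
    have hA : ∀ w, A w = g.1.linear.symm w := fun w => rfl
    have hspan : ∀ w ∈ Submodule.span ℝ (Rec D.X), A w ∈ Submodule.span ℝ (Rec D.X) := by
      intro w hw
      have h1 : Submodule.span ℝ (Rec D.X) ≤
          (Submodule.span ℝ (Rec D.X)).comap (A : E →ₗ[ℝ] E) := by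
        rw [Submodule.span_le]
        intro r hr
        exact Submodule.subset_span (rec_inv D (inv_mem g.2) hr)
      exact h1 hw
    refine ⟨δ / (‖A‖ + 1), by (clear * - hδ; positivity), fun w hw hwn => ?_⟩
    have h1 : ‖A w‖ ≤ δ := by
      have h2 := A.le_opNorm w
      have h3 : (0 : ℝ) ≤ ‖A‖ := norm_nonneg _
      calc ‖A w‖ ≤ ‖A‖ * ‖w‖ := h2
        _ ≤ (‖A‖ + 1) * (δ / (‖A‖ + 1)) :=
          mul_le_mul (by linarith only []) hwn (norm_nonneg _) (by positivity)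
        _ = δ := by field_simp
    have h2 := rec_inv D g.2 (hu (A w) (hspan w hw) h1)
    have h3 : g.1.linear (u + A w) = g.1.linear u + w := by
      rw [map_add, hA, LinearEquiv.apply_symm_apply]
    rwa [h3] at h2

end

end Pool.AF
end

/- Helper16.LDA.H94.AG.CutBdd -/
section
open Set Finset

set_option linter.unusedSectionVars false

namespace Pool.AF

open Pool.SV

/-! ## AG-2 CUTBDD: translation between the bounds of the definition and the blocks -/

section

variable {E : Type*} [NormedAddCommGroup E] [NormedSpace ℝ E] [FiniteDimensional ℝ E]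

private theorem cutBdd_hat (D : Geo E) (g : D.Γ) (w : E) :
    hatHom D.Γ g (w, 0) = (g.1.linear w, 0) := by
  show hat g.1 (w, 0) = (g.1.linear w, 0)
  rw [hat_apply]
  simp

private theorem cutBdd_hat1 (D : Geo E) (g : D.Γ) (x : E) :
    hatHom D.Γ g (x, 1) = (g.1 x, 1) := by
  show hat g.1 (x, 1) = (g.1 x, 1)
  rw [hat_apply]
  simp only [one_smul]
  rw [← aff_eq]

private theorem cutBdd_aux (D : Geo E) (A B : Submodule ℝ E) (eA eB : Alg E)
    (hB2 : eB * eB = eB) (hAr : ∀ v : E × ℝ, eA v = v ↔ v.2 = 0 ∧ v.1 ∈ A)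
    (hBr : ∀ v : E × ℝ, eB v = v ↔ v.2 = 0 ∧ v.1 ∈ B)
    (hAB2 : eB * eA = eA) (R t : ℝ) (ht : 0 < t) (g : D.Γ)
    (h : ∀ v ∈ B, ∃ a ∈ A, ‖t • g.1.linear v - a‖ ≤ R * ‖v‖) :
    ‖t • ((eB - eA) * hatHom D.Γ g * (eB - eA))‖ ≤ ‖eB - eA‖ * ‖eB - eA‖ * max R 0 := by
  set f : Alg E := eB - eA with hf
  have hM : 0 ≤ max R 0 := le_max_right _ _
  refine ContinuousLinearMap.opNorm_le_bound _ (by (clear * -; positivity)) fun z => ?_
  have h1 : eB (f z) = f z := by
    have h2 : eB * f = f := by rw [hf, mul_sub, hB2, hAB2]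
    have := congrArg (fun T : Alg E => T z) h2
    exact this
  obtain ⟨hz2, hz1⟩ := (hBr (f z)).1 h1
  obtain ⟨a, ha, hb⟩ := h _ hz1
  have hfz : f z = ((f z).1, 0) := Prod.ext rfl hz2
  have hfa : f (a, 0) = 0 := by
    have h3 : eA (a, 0) = (a, 0) := (hAr (a, 0)).2 ⟨rfl, ha⟩
    have h4 : eB (a, 0) = (a, 0) := by
      have h5 : (eB * eA) (a, 0) = eA (a, 0) := by rw [hAB2]
      have h6 : (eB * eA) (a, 0) = eB (eA (a, 0)) := rfl
      rw [h6, h3] at h5
      exact h5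
    rw [hf]
    show eB (a, 0) - eA (a, 0) = 0
    rw [h3, h4, sub_self]
  have h7 : (t • (f * hatHom D.Γ g * f)) z = f (t • g.1.linear (f z).1 - a, 0) := by
    have h8 : (t • (f * hatHom D.Γ g * f)) z = t • f (hatHom D.Γ g (f z)) := rfl
    rw [h8]
    nth_rewrite 1 [hfz]
    rw [cutBdd_hat, ← map_smul]
    have h9 : (t • g.1.linear (f z).1 - a, (0 : ℝ)) =
        t • (g.1.linear (f z).1, (0 : ℝ)) - (a, (0 : ℝ)) := by
      ext <;> simp
    rw [h9, map_sub, hfa, sub_zero]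
  rw [h7]
  have h10 : ‖((t • g.1.linear (f z).1 - a, 0) : E × ℝ)‖ = ‖t • g.1.linear (f z).1 - a‖ := by
    simp [Prod.norm_def]
  have h11 : ‖(f z).1‖ ≤ ‖f z‖ := norm_fst_le _
  calc ‖f (t • g.1.linear (f z).1 - a, 0)‖ ≤ ‖f‖ * ‖((t • g.1.linear (f z).1 - a, 0) : E × ℝ)‖ :=
        f.le_opNorm _
    _ ≤ ‖f‖ * (max R 0 * ‖(f z).1‖) := by
        rw [h10]
        exact mul_le_mul_of_nonneg_left (hb.trans
          (mul_le_mul_of_nonneg_right (le_max_left _ _) (norm_nonneg _))) (norm_nonneg _)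
    _ ≤ ‖f‖ * (max R 0 * (‖f‖ * ‖z‖)) := by
        refine mul_le_mul_of_nonneg_left ?_ (norm_nonneg _)
        exact mul_le_mul_of_nonneg_left (h11.trans (f.le_opNorm z)) hM
    _ = ‖f‖ * ‖f‖ * max R 0 * ‖z‖ := by ring

/-- With `B g = f φ(g) f`: `t B g` and `t⁻¹ B g⁻¹` are bounded by `const * R`; with `κ = t * c g`,
`cut g = κ⁻¹ (t B g)`, `cut g⁻¹ = κ (t⁻¹ B g⁻¹)`, and the lower bound of both norms gives that `κ`
and `κ⁻¹` are bounded. -/
theorem cut_bdd (D : Geo E) (A B : Submodule ℝ E) (hA : ∀ g ∈ D.Γ, ∀ v ∈ A, g.linear v ∈ A)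
    (hB : ∀ g ∈ D.Γ, ∀ v ∈ B, g.linear v ∈ B) (eA eB : Alg E) (hA2 : eA * eA = eA)
    (hB2 : eB * eB = eB) (hAr : ∀ v : E × ℝ, eA v = v ↔ v.2 = 0 ∧ v.1 ∈ A)
    (hBr : ∀ v : E × ℝ, eB v = v ↔ v.2 = 0 ∧ v.1 ∈ B) (hAB1 : eA * eB = eA)
    (hAB2 : eB * eA = eA) (c : D.Γ → ℝ) (hc : PosMul c) (a₀ : ℝ) (ha₀ : 0 < a₀)
    (hlow : ∀ g, a₀⁻¹ ≤ ‖cut (hatHom D.Γ) (eB - eA) c g‖) (R : ℝ) :
    ∃ R' : ℝ, ∀ g : D.Γ, QuotBdd A B R g.1 →
      ‖cut (hatHom D.Γ) (eB - eA) c g‖ ≤ R' ∧ ‖cut (hatHom D.Γ) (eB - eA) c g⁻¹‖ ≤ R' := by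
  set L : ℝ := ‖eB - eA‖ * ‖eB - eA‖ * max R 0 with hL
  have hL0 : 0 ≤ L := by
    have : 0 ≤ max R 0 := le_max_right _ _
    (clear * -; positivity)
  refine ⟨a₀ * L ^ 2, fun g hg => ?_⟩
  obtain ⟨t, ht, hq⟩ := hg
  have hb1 := cutBdd_aux D A B eA eB hB2 hAr hBr hAB2 R t ht g (fun v hv => by
    obtain ⟨a, ha, a', _, h1, _⟩ := hq v hv
    exact ⟨a, ha, h1⟩)
  have hb2 := cutBdd_aux D A B eA eB hB2 hAr hBr hAB2 R t⁻¹ (inv_pos.2 ht) g⁻¹ (fun v hv => by
    obtain ⟨a, _, a', ha', _, h2⟩ := hq v hv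
    exact ⟨a', ha', h2⟩)
  rw [← hL] at hb1 hb2
  have hcg := hc.1 g
  have hc1 : c 1 = 1 := by
    have h1 := hc.2 1 1
    rw [mul_one] at h1
    have h2 := hc.1 1
    have h3 : c 1 * (c 1 - 1) = 0 := by linarith only [h1]
    rcases mul_eq_zero.1 h3 with h | h
    · linarith only [h2, h]
    · linarith only [h]
  have hcinv : c g⁻¹ = (c g)⁻¹ := by
    have h1 := hc.2 g g⁻¹
    rw [mul_inv_cancel, hc1] at h1
    exact eq_inv_of_mul_eq_one_right h1.symm
  set κ : ℝ := t * c g with hκ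
  have hκ0 : 0 < κ := mul_pos ht hcg
  have e1 : cut (hatHom D.Γ) (eB - eA) c g =
      κ⁻¹ • (t • ((eB - eA) * hatHom D.Γ g * (eB - eA))) := by
    unfold cut
    rw [smul_smul]
    congr 1
    rw [hκ]
    field_simp
  have e2 : cut (hatHom D.Γ) (eB - eA) c g⁻¹ =
      κ • (t⁻¹ • ((eB - eA) * hatHom D.Γ g⁻¹ * (eB - eA))) := by
    unfold cut
    rw [smul_smul]
    congr 1
    rw [hκ, hcinv]
    field_simp
  have n1 : ‖cut (hatHom D.Γ) (eB - eA) c g‖ ≤ κ⁻¹ * L := by
    rw [e1, norm_smul, Real.norm_eq_abs, abs_of_pos (inv_pos.2 hκ0)]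
    exact mul_le_mul_of_nonneg_left hb1 (inv_pos.2 hκ0).le
  have n2 : ‖cut (hatHom D.Γ) (eB - eA) c g⁻¹‖ ≤ κ * L := by
    rw [e2, norm_smul, Real.norm_eq_abs, abs_of_pos hκ0]
    exact mul_le_mul_of_nonneg_left hb2 hκ0.le
  have k1 : κ ≤ a₀ * L := by
    have h1 : a₀⁻¹ ≤ κ⁻¹ * L := (hlow g).trans n1
    have h2 : a₀⁻¹ * (a₀ * κ) ≤ κ⁻¹ * L * (a₀ * κ) :=
      mul_le_mul_of_nonneg_right h1 (by positivity)
    have h3 : a₀⁻¹ * (a₀ * κ) = κ := by field_simp
    have h4 : κ⁻¹ * L * (a₀ * κ) = a₀ * L := by (clear * - hκ0 ha₀; field_simp)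
    rw [h3, h4] at h2
    exact h2
  have k2 : κ⁻¹ ≤ a₀ * L := by
    have h1 : a₀⁻¹ ≤ κ * L := (hlow g⁻¹).trans n2
    have h2 : a₀⁻¹ * (a₀ * κ⁻¹) ≤ κ * L * (a₀ * κ⁻¹) :=
      mul_le_mul_of_nonneg_right h1 (by positivity)
    have h3 : a₀⁻¹ * (a₀ * κ⁻¹) = κ⁻¹ := by field_simp
    have h4 : κ * L * (a₀ * κ⁻¹) = a₀ * L := by field_simp
    rw [h3, h4] at h2
    exact h2
  constructor
  · calc _ ≤ κ⁻¹ * L := n1
      _ ≤ a₀ * L * L := mul_le_mul_of_nonneg_right k2 hL0
      _ = a₀ * L ^ 2 := by ring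
  · calc _ ≤ κ * L := n2
      _ ≤ a₀ * L * L := mul_le_mul_of_nonneg_right k1 hL0
      _ = a₀ * L ^ 2 := by ring

private theorem affBdd_aux (D : Geo E) (V : Submodule ℝ E)
    (hV : ∀ g ∈ D.Γ, ∀ v ∈ V, g.linear v ∈ V) (e : Alg E) (he : e * e = e)
    (hr : ∀ v : E × ℝ, e v = v ↔ v.2 = 0 ∧ v.1 ∈ V) (R : ℝ) (g : D.Γ)
    (h : ‖(1 - e) * hatHom D.Γ g * (1 - e)‖ ≤ R) (x : E) :
    ∃ v ∈ V, ‖g.1 x - v‖ ≤ R * (1 + ‖x‖) := by
  have hee : ∀ w, e (e w) = e w := fun w => by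
    have := congrArg (fun T : Alg E => T w) he
    exact this
  have hinv : ∀ w : E × ℝ, (1 - e : Alg E) (hatHom D.Γ g (e w)) = 0 := by
    intro w
    obtain ⟨h2, h1⟩ := (hr (e w)).1 (hee w)
    have hew : e w = ((e w).1, 0) := Prod.ext rfl h2
    rw [hew, cutBdd_hat]
    have h3 : e (g.1.linear (e w).1, 0) = (g.1.linear (e w).1, 0) :=
      (hr _).2 ⟨rfl, hV g.1 g.2 _ h1⟩
    show (g.1.linear (e w).1, (0 : ℝ)) - e (g.1.linear (e w).1, 0) = 0
    rw [h3, sub_self]
  have hR : 0 ≤ R := (norm_nonneg _).trans h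
  obtain ⟨h2, h1⟩ := (hr (e (g.1 x, 1))).1 (hee _)
  refine ⟨(e (g.1 x, 1)).1, h1, ?_⟩
  have h3 : (1 - e : Alg E) (g.1 x, 1) = (g.1 x - (e (g.1 x, 1)).1, 1 - (e (g.1 x, 1)).2) := rfl
  have h4 : ((1 - e) * hatHom D.Γ g * (1 - e) : Alg E) (x, 1) = (1 - e : Alg E) (g.1 x, 1) := by
    have h5 : ((1 - e) * hatHom D.Γ g * (1 - e) : Alg E) (x, 1) =
        (1 - e : Alg E) (hatHom D.Γ g ((x, 1) - e (x, 1))) := rfl
    rw [h5, map_sub, map_sub, hinv, sub_zero, cutBdd_hat1]
  have h6 : ‖g.1 x - (e (g.1 x, 1)).1‖ ≤ ‖(1 - e : Alg E) (g.1 x, 1)‖ := by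
    rw [h3]
    exact norm_fst_le (g.1 x - (e (g.1 x, 1)).1, 1 - (e (g.1 x, 1)).2)
  have h7 : ‖((x, 1) : E × ℝ)‖ ≤ 1 + ‖x‖ := by
    rw [Prod.norm_def]
    simp only [norm_one]
    exact max_le (by linarith only []) (by (clear * -; linarith [norm_nonneg x]))
  calc _ ≤ ‖(1 - e : Alg E) (g.1 x, 1)‖ := h6
    _ = ‖((1 - e) * hatHom D.Γ g * (1 - e) : Alg E) (x, 1)‖ := by rw [h4]
    _ ≤ ‖((1 - e) * hatHom D.Γ g * (1 - e) : Alg E)‖ * ‖((x, 1) : E × ℝ)‖ :=
        ContinuousLinearMap.le_opNorm _ _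
    _ ≤ R * (1 + ‖x‖) := mul_le_mul h h7 (norm_nonneg _) hR

/-- A bound of the top block gives a bound of the affine action on `E / V`. -/
theorem affBdd_of_top (D : Geo E) (V : Submodule ℝ E) (hV : ∀ g ∈ D.Γ, ∀ v ∈ V, g.linear v ∈ V)
    (e : Alg E) (he : e * e = e) (hr : ∀ v : E × ℝ, e v = v ↔ v.2 = 0 ∧ v.1 ∈ V) (R : ℝ) :
    ∃ R' : ℝ, ∀ g : D.Γ, ‖(1 - e) * hatHom D.Γ g * (1 - e)‖ ≤ R →
      ‖(1 - e) * hatHom D.Γ g⁻¹ * (1 - e)‖ ≤ R → AffBdd V R' g.1 := by
  refine ⟨R, fun g h1 h2 x => ?_⟩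
  obtain ⟨v, hv, hv'⟩ := affBdd_aux D V hV e he hr R g h1 x
  obtain ⟨w, hw, hw'⟩ := affBdd_aux D V hV e he hr R g⁻¹ h2 x
  exact ⟨v, hv, w, hw, hv', hw'⟩

end

end Pool.AF
end

/- Helper16.LDA.H94.AS.Coer -/
section
open Set Finset
open scoped Matrix

set_option linter.unusedSectionVars false

namespace Pool.AF

/-! ## AS-2 COER: coercivity

`Y = U diag(y) Uᵀ` with `U` orthogonal and `∑ y = 0`. `trace (A exp (-Y)) ≥ λ trace (exp (-Y))`
since `A - λ` and `exp (-Y)` are positive semidefinite (trace of a product of positive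
semidefinite matrices is `≥ 0`); `trace (exp (-Y)) = ∑ e ^ (-y) = ∑ (e ^ (-y) + y) ≥ ∑ |y| / 2`
(for every real `y`: `e ^ (-y) + y ≥ |y| / 2`), and `|Y i j| ≤ ∑ |y|`. -/

private theorem coer_diag {d : ℕ} (Y : Matrix (Fin d) (Fin d) ℝ) (hY : Yᵀ = Y) :
    ∃ (U : Matrix (Fin d) (Fin d) ℝ) (y : Fin d → ℝ), Uᵀ * U = 1 ∧ U * Uᵀ = 1 ∧
      Y = U * Matrix.diagonal y * Uᵀ := by
  have hH : Y.IsHermitian := by
    rw [Matrix.IsHermitian, Matrix.conjTranspose_eq_transpose_of_trivial, hY]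
  refine ⟨(hH.eigenvectorUnitary : Matrix (Fin d) (Fin d) ℝ), hH.eigenvalues, ?_, ?_, ?_⟩
  · have h := Unitary.coe_star_mul_self hH.eigenvectorUnitary
    rwa [Matrix.star_eq_conjTranspose, Matrix.conjTranspose_eq_transpose_of_trivial] at h
  · have h := Unitary.coe_mul_star_self hH.eigenvectorUnitary
    rwa [Unitary.coe_star, Matrix.star_eq_conjTranspose,
      Matrix.conjTranspose_eq_transpose_of_trivial] at h
  · have h := hH.spectral_theorem
    rw [Unitary.conjStarAlgAut_apply, Matrix.star_eq_conjTranspose,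
      Matrix.conjTranspose_eq_transpose_of_trivial] at h
    exact h

private theorem coer_exp {d : ℕ} (U : Matrix (Fin d) (Fin d) ℝ) (y : Fin d → ℝ)
    (h2 : U * Uᵀ = 1) :
    NormedSpace.exp (-(U * Matrix.diagonal y * Uᵀ)) =
      U * Matrix.diagonal (fun k => Real.exp (-y k)) * Uᵀ := by
  have hinv : U⁻¹ = Uᵀ := Matrix.inv_eq_right_inv h2
  have hu : IsUnit U := by
    rw [Matrix.isUnit_iff_isUnit_det]
    refine IsUnit.of_mul_eq_one (Uᵀ).det ?_
    rw [← Matrix.det_mul, h2, Matrix.det_one]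
  have h3 : -(U * Matrix.diagonal y * Uᵀ) = U * Matrix.diagonal (-y) * U⁻¹ := by
    have h4 : Matrix.diagonal (-y) = -Matrix.diagonal y := by
      rw [Matrix.diagonal_neg]
      rfl
    rw [hinv, h4, Matrix.mul_neg, Matrix.neg_mul]
  rw [h3, Matrix.exp_conj _ _ hu, Matrix.exp_diagonal, hinv]
  congr 3
  funext k
  rw [Pi.coe_exp, ← Real.exp_eq_exp_ℝ]
  rfl

private theorem coer_quad {d : ℕ} (U : Matrix (Fin d) (Fin d) ℝ) (y : Fin d → ℝ)
    (v : Fin d → ℝ) :
    v ⬝ᵥ ((U * Matrix.diagonal y * Uᵀ) *ᵥ v) = ∑ k, y k * (∑ i, U i k * v i) ^ 2 := by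
  have h1 : (U * Matrix.diagonal y * Uᵀ) *ᵥ v = U *ᵥ (Matrix.diagonal y *ᵥ (Uᵀ *ᵥ v)) := by
    rw [Matrix.mulVec_mulVec, Matrix.mulVec_mulVec]
  rw [h1, Matrix.dotProduct_mulVec, ← Matrix.mulVec_transpose, dotProduct]
  refine Finset.sum_congr rfl fun k _ => ?_
  rw [Matrix.mulVec_diagonal]
  have h2 : (Uᵀ *ᵥ v) k = ∑ i, U i k * v i := by
    simp [Matrix.mulVec, dotProduct]
  rw [h2]
  ring

private theorem coer_norm {d : ℕ} (U : Matrix (Fin d) (Fin d) ℝ) (h2 : U * Uᵀ = 1)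
    (v : Fin d → ℝ) : v ⬝ᵥ v = ∑ k, (∑ i, U i k * v i) ^ 2 := by
  have h := coer_quad U (fun _ => 1) v
  rw [Matrix.diagonal_one, Matrix.mul_one, h2, Matrix.one_mulVec] at h
  rw [h]
  simp

private theorem coer_real (y : ℝ) : |y| ≤ 2 * (Real.exp (-y) + y) := by
  rcases le_total 0 y with h | h
  · rw [abs_of_nonneg h]
    have := Real.exp_pos (-y)
    linarith only [h, this]
  · rw [abs_of_nonpos h]
    have h1 := Real.quadratic_le_exp_of_nonneg (x := -y) (by linarith)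
    (clear * - h1; nlinarith only [h1])

theorem trace_coer {d : ℕ} (A Y : Matrix (Fin d) (Fin d) ℝ) (lam : ℝ) (hlam : 0 < lam)
    (hA : Aᵀ = A) (hA2 : ∀ v : Fin d → ℝ, lam * (v ⬝ᵥ v) ≤ v ⬝ᵥ (A *ᵥ v))
    (hY : Yᵀ = Y) (hY2 : Y.trace = 0) (i j : Fin d) :
    lam * |Y i j| ≤ 2 * (A * NormedSpace.exp (-Y)).trace := by
  obtain ⟨U, y, h1, h2, rfl⟩ := coer_diag Y hY
  rw [coer_exp U y h2]
  -- columns
  have hcol : ∀ k, ∑ a, U a k * U a k = 1 := by
    intro k
    have := congrFun (congrFun h1 k) k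
    rw [Matrix.mul_apply, Matrix.one_apply_eq] at this
    simpa using this
  have hsum : ∑ k, y k = 0 := by
    rw [Matrix.trace_mul_comm, ← Matrix.mul_assoc, h1, Matrix.one_mul,
      Matrix.trace_diagonal] at hY2
    exact hY2
  have htr : (A * (U * Matrix.diagonal (fun k => Real.exp (-y k)) * Uᵀ)).trace =
      ∑ k, Real.exp (-y k) * ((fun a => U a k) ⬝ᵥ (A *ᵥ (fun a => U a k))) := by
    rw [← Matrix.mul_assoc, ← Matrix.mul_assoc, Matrix.trace_mul_comm, ← Matrix.mul_assoc,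
      Matrix.trace]
    refine Finset.sum_congr rfl fun k _ => ?_
    rw [Matrix.diag_apply, Matrix.mul_diagonal, mul_comm, Matrix.mul_apply, dotProduct]
    congr 1
  have hlow : lam * ∑ k, Real.exp (-y k) ≤
      (A * (U * Matrix.diagonal (fun k => Real.exp (-y k)) * Uᵀ)).trace := by
    rw [htr, Finset.mul_sum]
    refine Finset.sum_le_sum fun k _ => ?_
    have h3 := hA2 (fun a => U a k)
    have h4 : (fun a => U a k) ⬝ᵥ (fun a => U a k) = 1 := hcol k
    rw [h4, mul_one] at h3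
    rw [mul_comm]
    exact mul_le_mul_of_nonneg_left h3 (Real.exp_pos _).le
  have habs : |(U * Matrix.diagonal y * Uᵀ) i j| ≤ ∑ k, |y k| := by
    rw [Matrix.mul_apply]
    refine (Finset.abs_sum_le_sum_abs _ _).trans (Finset.sum_le_sum fun k _ => ?_)
    rw [Matrix.mul_diagonal, Matrix.transpose_apply]
    have hle : ∀ a, |U a k| ≤ 1 := by
      intro a
      have h5 : U a k * U a k ≤ ∑ b, U b k * U b k :=
        Finset.single_le_sum (f := fun b => U b k * U b k)
          (fun b _ => mul_self_nonneg _) (Finset.mem_univ a)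
      rw [hcol k] at h5
      rw [abs_le_one_iff_mul_self_le_one]
      exact h5
    rw [abs_mul, abs_mul]
    calc |U i k| * |y k| * |U j k| ≤ 1 * |y k| * 1 := by
          gcongr
          · exact hle i
          · exact hle j
      _ = |y k| := by ring
  have h6 : ∑ k, |y k| ≤ 2 * ∑ k, Real.exp (-y k) := by
    calc ∑ k, |y k| ≤ ∑ k, 2 * (Real.exp (-y k) + y k) :=
          Finset.sum_le_sum fun k _ => coer_real (y k)
      _ = 2 * ∑ k, Real.exp (-y k) := by
          rw [← Finset.mul_sum, Finset.sum_add_distrib, hsum, add_zero]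
  calc lam * |(U * Matrix.diagonal y * Uᵀ) i j| ≤ lam * (2 * ∑ k, Real.exp (-y k)) := by
        gcongr
        exact habs.trans h6
    _ = 2 * (lam * ∑ k, Real.exp (-y k)) := by ring
    _ ≤ _ := by (clear * - hlow; gcongr)

/-- Uniform lower bound near a positive definite matrix. -/
theorem posDef_lower {d : ℕ} (A₀ : Matrix (Fin d) (Fin d) ℝ) (hA₀ : A₀.PosDef) :
    ∃ lam : ℝ, 0 < lam ∧ ∀ᶠ A in nhds A₀, ∀ v : Fin d → ℝ,
      lam * (v ⬝ᵥ v) ≤ v ⬝ᵥ (A *ᵥ v) := by
  have hsym : A₀ᵀ = A₀ := by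
    have := hA₀.isHermitian
    rwa [Matrix.IsHermitian, Matrix.conjTranspose_eq_transpose_of_trivial] at this
  obtain ⟨U, y, h1, h2, hU⟩ := coer_diag A₀ hsym
  have hypos : ∀ k, 0 < y k := by
    intro k
    have hcol : ∀ l, ∑ a, U a l * U a k = if l = k then 1 else 0 := by
      intro l
      have := congrFun (congrFun h1 l) k
      rw [Matrix.mul_apply, Matrix.one_apply] at this
      simpa using this
    have hne : (fun a => U a k) ≠ 0 := by
      intro h0
      have h3 := hcol k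
      have h4 : ∀ a, U a k = 0 := fun a => congrFun h0 a
      simp [h4] at h3
    have h5 := hA₀.dotProduct_mulVec_pos hne
    rw [star_trivial, hU, coer_quad] at h5
    simp only [hcol] at h5
    simpa using h5
  set mu : ℝ := (1 + ∑ k, 1 / y k)⁻¹ with hmu
  have hS : 0 ≤ ∑ k, 1 / y k := Finset.sum_nonneg fun k _ => by
    have := hypos k
    positivity
  have hmupos : 0 < mu := by rw [hmu]; (clear * - hS; positivity)
  have hmule : ∀ k, mu ≤ y k := by
    intro k
    have h3 : 1 / y k ≤ ∑ k, 1 / y k :=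
      Finset.single_le_sum (f := fun k => 1 / y k) (fun k _ => by
        have := hypos k
        positivity) (Finset.mem_univ k)
    rw [hmu, inv_le_comm₀ (by positivity) (hypos k)]
    have h4 : (y k)⁻¹ = 1 / y k := by ring
    rw [h4]
    (clear * - h3; linarith only [h3])
  have hA0low : ∀ v : Fin d → ℝ, mu * (v ⬝ᵥ v) ≤ v ⬝ᵥ (A₀ *ᵥ v) := by
    intro v
    rw [hU, coer_quad, coer_norm U h2, Finset.mul_sum]
    exact Finset.sum_le_sum fun k _ => mul_le_mul_of_nonneg_right (hmule k) (sq_nonneg _)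
  refine ⟨mu / 2, by (clear * - hS; positivity), ?_⟩
  set η : ℝ := mu / (2 * (d + 1)) with hη
  have hηpos : 0 < η := by rw [hη]; (clear * - hS; positivity)
  have hev : ∀ᶠ A : Matrix (Fin d) (Fin d) ℝ in nhds A₀, ∀ i j, |A i j - A₀ i j| < η := by
    rw [Filter.eventually_all]
    intro i
    rw [Filter.eventually_all]
    intro j
    have hc : Continuous fun A : Matrix (Fin d) (Fin d) ℝ => |A i j - A₀ i j| := by
      fun_prop
    have h0 : |A₀ i j - A₀ i j| < η := by simpa using hηpos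
    exact hc.continuousAt.eventually (gt_mem_nhds h0)
  filter_upwards [hev] with A hA v
  have h3 : v ⬝ᵥ (A₀ *ᵥ v) - v ⬝ᵥ (A *ᵥ v) ≤ η * d * (v ⬝ᵥ v) := by
    have h4 : v ⬝ᵥ (A₀ *ᵥ v) - v ⬝ᵥ (A *ᵥ v) = ∑ i, ∑ j, v i * ((A₀ i j - A i j) * v j) := by
      simp only [dotProduct, Matrix.mulVec, Finset.mul_sum]
      rw [← Finset.sum_sub_distrib]
      refine Finset.sum_congr rfl fun i _ => ?_
      rw [← Finset.sum_sub_distrib]
      refine Finset.sum_congr rfl fun j _ => ?_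
      ring
    rw [h4]
    have h5 : ∀ i j, v i * ((A₀ i j - A i j) * v j) ≤ η * ((v i * v i + v j * v j) / 2) := by
      intro i j
      have h6 := hA i j
      rw [abs_lt] at h6
      have h7 : v i * ((A₀ i j - A i j) * v j) ≤ |A₀ i j - A i j| * |v i * v j| := by
        calc v i * ((A₀ i j - A i j) * v j) ≤ |v i * ((A₀ i j - A i j) * v j)| := le_abs_self _
          _ = |A₀ i j - A i j| * |v i * v j| := by
            rw [abs_mul, abs_mul, abs_mul]; ring
      have h8 : |A₀ i j - A i j| ≤ η := by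
        rw [abs_le]
        constructor <;> (clear * - h6; linarith [h6.1, h6.2])
      have h9 : |v i * v j| ≤ (v i * v i + v j * v j) / 2 := by
        rw [abs_le]
        constructor <;> linarith only [sq_nonneg (v i + v j), sq_nonneg (v i - v j)]
      calc v i * ((A₀ i j - A i j) * v j) ≤ |A₀ i j - A i j| * |v i * v j| := h7
        _ ≤ η * ((v i * v i + v j * v j) / 2) := by (clear * - h8 h9 hS; gcongr)
    calc ∑ i, ∑ j, v i * ((A₀ i j - A i j) * v j)
        ≤ ∑ i, ∑ j, η * ((v i * v i + v j * v j) / 2) :=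
          Finset.sum_le_sum fun i _ => Finset.sum_le_sum fun j _ => h5 i j
      _ = η * d * (v ⬝ᵥ v) := by
          have e1 : ∀ i, ∑ j, η * ((v i * v i + v j * v j) / 2) =
              η / 2 * (d * (v i * v i) + ∑ j, v j * v j) := by
            intro i
            rw [← Finset.mul_sum, ← Finset.sum_div, Finset.sum_add_distrib, Finset.sum_const,
              Finset.card_univ, Fintype.card_fin, nsmul_eq_mul]
            ring
          simp only [e1]
          rw [← Finset.mul_sum, Finset.sum_add_distrib, ← Finset.mul_sum, Finset.sum_const,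
            Finset.card_univ, Fintype.card_fin, nsmul_eq_mul, dotProduct]
          ring
  have h10 : 0 ≤ v ⬝ᵥ v := Finset.sum_nonneg fun i _ => mul_self_nonneg _
  have h11 : η * d ≤ mu / 2 := by
    rw [hη, div_mul_eq_mul_div, div_le_div_iff₀ (by (clear * -; positivity)) (by positivity)]
    linarith only [hmupos]
  have h12 := hA0low v
  (clear * - h3 h12 h10 h11; nlinarith only [h3, h10, h11, h12])

end Pool.AF
end

/- Helper16.LDA.H94.AS.PosCone -/
section
open Set Finset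
open scoped Matrix

set_option linter.unusedSectionVars false

namespace Pool.AF

/-! ## AS-11 POSCONE: the cone of positive definite matrices

`conjRep e σ g = e ∘ (X ↦ σ g * X * (σ g)ᵀ) ∘ e⁻¹`. -/

/-- The action on symmetric matrices, in coordinates. -/
noncomputable def conjRep {G : Type*} [Group G] {d m : ℕ} (e : symS d ≃ₗ[ℝ] (Fin m → ℝ))
    (σ : G →* ((Fin d → ℝ) →ₗ[ℝ] (Fin d → ℝ))) :
    G →* ((Fin m → ℝ) →ₗ[ℝ] (Fin m → ℝ)) where
  toFun g :=
    { toFun := fun a => e ⟨LinearMap.toMatrix' (σ g) *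
          ((e.symm a : symS d) : Matrix (Fin d) (Fin d) ℝ) * (LinearMap.toMatrix' (σ g))ᵀ, by
        rw [mem_symS, Matrix.transpose_mul, Matrix.transpose_mul, Matrix.transpose_transpose,
          mem_symS.mp (e.symm a).2, Matrix.mul_assoc]⟩
      map_add' := fun a a' => by
        rw [← map_add]
        congr 1
        apply Subtype.ext
        rw [map_add]
        simp only [Submodule.coe_add, Matrix.mul_add, Matrix.add_mul]
      map_smul' := fun c a => by
        rw [RingHom.id_apply, ← map_smul]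
        congr 1
        apply Subtype.ext
        rw [map_smul]
        simp only [SetLike.val_smul, Matrix.mul_smul, Matrix.smul_mul] }
  map_one' := by
    apply LinearMap.ext
    intro a
    simp
  map_mul' g h := by
    apply LinearMap.ext
    intro a
    simp only [LinearMap.coe_mk, AddHom.coe_mk, map_mul, LinearMap.toMatrix'_mul,
      Matrix.transpose_mul, Module.End.mul_apply, LinearEquiv.symm_apply_apply]
    congr 1
    apply Subtype.ext
    simp only [Matrix.mul_assoc]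

theorem conjRep_apply {G : Type*} [Group G] {d m : ℕ} (e : symS d ≃ₗ[ℝ] (Fin m → ℝ))
    (σ : G →* ((Fin d → ℝ) →ₗ[ℝ] (Fin d → ℝ))) (g : G) (a : Fin m → ℝ) :
    ((e.symm (conjRep e σ g a) : symS d) : Matrix (Fin d) (Fin d) ℝ) =
      LinearMap.toMatrix' (σ g) * ((e.symm a : symS d) : Matrix (Fin d) (Fin d) ℝ) *
        (LinearMap.toMatrix' (σ g))ᵀ := by
  change ((e.symm (e _) : symS d) : Matrix (Fin d) (Fin d) ℝ) = _
  rw [LinearEquiv.symm_apply_apply]

section aux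

private theorem pd_iff {d : ℕ} (A : Matrix (Fin d) (Fin d) ℝ) (hA : Aᵀ = A) :
    A.PosDef ↔ ∀ v : Fin d → ℝ, v ≠ 0 → 0 < v ⬝ᵥ (A *ᵥ v) := by
  rw [Matrix.posDef_iff_dotProduct_mulVec]
  constructor
  · intro h v hv
    have := h.2 hv
    rwa [star_trivial] at this
  · intro h
    refine ⟨?_, ?_⟩
    · rw [Matrix.IsHermitian, Matrix.conjTranspose_eq_transpose_of_trivial, hA]
    · intro v hv
      rw [star_trivial]
      exact h v hv

private theorem pd_iff_sphere {d : ℕ} (A : Matrix (Fin d) (Fin d) ℝ) (hA : Aᵀ = A) :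
    A.PosDef ↔ ∀ v ∈ Metric.sphere (0 : Fin d → ℝ) 1, 0 < v ⬝ᵥ (A *ᵥ v) := by
  rw [pd_iff A hA]
  constructor
  · intro h v hv
    refine h v ?_
    intro h0
    rw [h0, mem_sphere_zero_iff_norm, norm_zero] at hv
    exact zero_ne_one hv
  · intro h v hv
    have hn : 0 < ‖v‖ := norm_pos_iff.2 hv
    have h1 := h (‖v‖⁻¹ • v) (by
      rw [mem_sphere_zero_iff_norm, norm_smul, norm_inv, norm_norm, inv_mul_cancel₀ hn.ne'])
    rw [Matrix.mulVec_smul, smul_dotProduct, dotProduct_smul, smul_eq_mul, smul_eq_mul] at h1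
    have h2 : 0 < ‖v‖⁻¹ := inv_pos.2 hn
    exact pos_of_mul_pos_right (pos_of_mul_pos_right h1 h2.le) h2.le

private theorem exists_quad_ne {d : ℕ} (A : Matrix (Fin d) (Fin d) ℝ) (hA : Aᵀ = A)
    (hne : A ≠ 0) : ∃ w : Fin d → ℝ, w ⬝ᵥ (A *ᵥ w) ≠ 0 := by
  by_contra hcon
  push Not at hcon
  apply hne
  ext i j
  have hsym : ∀ x y : Fin d → ℝ, y ⬝ᵥ (A *ᵥ x) = x ⬝ᵥ (A *ᵥ y) := by
    intro x y
    rw [Matrix.dotProduct_mulVec, ← Matrix.mulVec_transpose, hA, dotProduct_comm]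
  have h1 : ∀ x y : Fin d → ℝ, x ⬝ᵥ (A *ᵥ y) = 0 := by
    intro x y
    have h2 := hcon (x + y)
    rw [Matrix.mulVec_add, dotProduct_add, add_dotProduct, add_dotProduct, hcon x, hcon y,
      hsym x y] at h2
    (clear * - h2; linarith)
  have h3 := h1 (Pi.single i 1) (Pi.single j 1)
  rw [Matrix.mulVec_single_one, single_one_dotProduct] at h3
  exact h3

private noncomputable def am {d m : ℕ} (e : symS d ≃ₗ[ℝ] (Fin m → ℝ)) :
    (Fin m → ℝ) →ₗ[ℝ] Matrix (Fin d) (Fin d) ℝ := (symS d).subtype ∘ₗ e.symm.toLinearMap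

private theorem am_apply {d m : ℕ} (e : symS d ≃ₗ[ℝ] (Fin m → ℝ)) (a : Fin m → ℝ) :
    am e a = ((e.symm a : symS d) : Matrix (Fin d) (Fin d) ℝ) := rfl

private theorem am_symm {d m : ℕ} (e : symS d ≃ₗ[ℝ] (Fin m → ℝ)) (a : Fin m → ℝ) :
    (am e a)ᵀ = am e a := (e.symm a).2

private theorem toM_mul_inv {G : Type*} [Group G] {d : ℕ}
    (σ : G →* ((Fin d → ℝ) →ₗ[ℝ] (Fin d → ℝ))) (g : G) :
    LinearMap.toMatrix' (σ g) * LinearMap.toMatrix' (σ g⁻¹) = 1 := by
  rw [← LinearMap.toMatrix'_mul, ← map_mul, mul_inv_cancel, map_one, LinearMap.toMatrix'_one]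

end aux

/-- The positive definite matrices form a cone without lines (`d > 0` is not needed for the
statement, but `m = d (d + 1) / 2` is positive only then). Openness: `isOpen` in coordinates, e.g.
from the continuity of the least value of `v ⬝ᵥ A *ᵥ v` on the unit sphere. No line: if
`A + t V` is positive definite for all `t` then `v ⬝ᵥ V *ᵥ v = 0` for all `v`. -/
theorem sharp_posDef {G : Type*} [Group G] {d m : ℕ} (e : symS d ≃ₗ[ℝ] (Fin m → ℝ))
    (σ : G →* ((Fin d → ℝ) →ₗ[ℝ] (Fin d → ℝ))) :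
    SharpCone (conjRep e σ)
      {a : Fin m → ℝ | ((e.symm a : symS d) : Matrix (Fin d) (Fin d) ℝ).PosDef} := by
  have h1S : (1 : Matrix (Fin d) (Fin d) ℝ) ∈ symS d := by
    rw [mem_symS, Matrix.transpose_one]
  have he1 : am e (e ⟨1, h1S⟩) = 1 := by
    rw [am_apply, LinearEquiv.symm_apply_apply]
  refine ⟨?_, ?_, ?_, ?_, ?_, ?_⟩
  · rw [isOpen_iff_mem_nhds]
    intro a ha
    have hK : IsCompact (Metric.sphere (0 : Fin d → ℝ) 1) := isCompact_sphere _ _
    have hc : Continuous (am e) := LinearMap.continuous_of_finiteDimensional _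
    have h1 : ∀ᶠ x in nhds a, ∀ y ∈ Metric.sphere (0 : Fin d → ℝ) 1,
        0 < y ⬝ᵥ ((am e x) *ᵥ y) := by
      apply hK.eventually_forall_of_forall_eventually
      intro y hy
      have h2 : Continuous fun z : (Fin m → ℝ) × (Fin d → ℝ) => z.2 ⬝ᵥ ((am e z.1) *ᵥ z.2) :=
        continuous_snd.dotProduct ((hc.comp continuous_fst).matrix_mulVec continuous_snd)
      have h3 : (0 : ℝ) < y ⬝ᵥ ((am e a) *ᵥ y) := (pd_iff_sphere _ (am_symm e a)).1 ha y hy
      exact (isOpen_lt continuous_const h2).mem_nhds h3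
    filter_upwards [h1] with x hx
    exact (pd_iff_sphere _ (am_symm e x)).2 hx
  · intro a ha b hb s t hs ht hst
    have ha' : ∀ v : Fin d → ℝ, v ≠ 0 → 0 < v ⬝ᵥ ((am e a) *ᵥ v) :=
      (pd_iff _ (am_symm e a)).1 ha
    have hb' : ∀ v : Fin d → ℝ, v ≠ 0 → 0 < v ⬝ᵥ ((am e b) *ᵥ v) :=
      (pd_iff _ (am_symm e b)).1 hb
    refine (pd_iff _ (am_symm e _)).2 ?_
    intro v hv
    have h1 := ha' v hv
    have h2 := hb' v hv
    rw [map_add, map_smul, map_smul, Matrix.add_mulVec, Matrix.smul_mulVec, Matrix.smul_mulVec,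
      dotProduct_add, dotProduct_smul, dotProduct_smul, smul_eq_mul, smul_eq_mul]
    rcases hs.eq_or_lt with h0 | h0
    · rw [← h0, zero_add] at hst
      rw [← h0, hst, zero_mul, zero_add, one_mul]
      exact h2
    · have := mul_pos h0 h1
      have := mul_nonneg ht h2.le
      linarith
  · exact ⟨e ⟨1, h1S⟩, by
      change (am e (e ⟨1, h1S⟩)).PosDef
      rw [he1]
      exact Matrix.PosDef.one⟩
  · intro a ha t ht
    have ha' : ∀ v : Fin d → ℝ, v ≠ 0 → 0 < v ⬝ᵥ ((am e a) *ᵥ v) :=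
      (pd_iff _ (am_symm e a)).1 ha
    refine (pd_iff _ (am_symm e _)).2 ?_
    intro v hv
    rw [map_smul, Matrix.smul_mulVec, dotProduct_smul, smul_eq_mul]
    exact mul_pos ht (ha' v hv)
  · intro v hv
    have hne : am e v ≠ 0 := by
      intro h0
      apply hv
      have h1 : e.symm v = 0 := Subtype.ext h0
      rwa [LinearEquiv.map_eq_zero_iff] at h1
    obtain ⟨w, hw⟩ := exists_quad_ne _ (am_symm e v) hne
    refine ⟨e ⟨1, h1S⟩, ?_, -(w ⬝ᵥ w + 1) / (w ⬝ᵥ ((am e v) *ᵥ w)), ?_⟩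
    · change (am e (e ⟨1, h1S⟩)).PosDef
      rw [he1]
      exact Matrix.PosDef.one
    · intro hcon
      have hw0 : w ≠ 0 := by
        intro h0
        apply hw
        rw [h0, zero_dotProduct]
      have h1 := (pd_iff _ (am_symm e _)).1 hcon w hw0
      rw [map_add, map_smul, he1, Matrix.add_mulVec, Matrix.smul_mulVec, Matrix.one_mulVec,
        dotProduct_add, dotProduct_smul, smul_eq_mul, div_mul_cancel₀ _ hw] at h1
      linarith
  · intro g a ha
    have ha' : ∀ v : Fin d → ℝ, v ≠ 0 → 0 < v ⬝ᵥ ((am e a) *ᵥ v) :=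
      (pd_iff _ (am_symm e a)).1 ha
    refine (pd_iff _ (am_symm e _)).2 ?_
    intro v hv
    rw [am_apply, conjRep_apply, ← am_apply, ← Matrix.mulVec_mulVec, ← Matrix.mulVec_mulVec,
      Matrix.dotProduct_mulVec, ← Matrix.mulVec_transpose]
    apply ha'
    intro h0
    apply hv
    have h1 : (LinearMap.toMatrix' (σ g⁻¹))ᵀ *ᵥ ((LinearMap.toMatrix' (σ g))ᵀ *ᵥ v) = v := by
      rw [Matrix.mulVec_mulVec, ← Matrix.transpose_mul, toM_mul_inv, Matrix.transpose_one,
        Matrix.one_mulVec]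
    rw [← h1, h0, Matrix.mulVec_zero]

/-- Boundedness up to scalars of the action on symmetric matrices gives that of `σ`: apply it to
the coordinates of the identity matrix, `trace (t σ(g) σ(g)ᵀ)` is bounded, so are the entries of
`√t σ(g)`; the same for `g⁻¹` with `t⁻¹`. -/
theorem scalBdd_conjRep {G : Type*} [Group G] {d m : ℕ} (e : symS d ≃ₗ[ℝ] (Fin m → ℝ))
    (σ : G →* ((Fin d → ℝ) →ₗ[ℝ] (Fin d → ℝ))) (R : ℝ) :
    ∃ R' : ℝ, ∀ g, ScalBdd (conjRep e σ) R g → ScalBdd σ R' g := by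
  have h1S : (1 : Matrix (Fin d) (Fin d) ℝ) ∈ symS d := by
    rw [mem_symS, Matrix.transpose_one]
  have he1 : am e (e ⟨1, h1S⟩) = 1 := by
    rw [am_apply, LinearEquiv.symm_apply_apply]
  -- the entries are bounded by the norm of the coordinates
  obtain ⟨C, hC0, hC⟩ : ∃ C : ℝ, 0 ≤ C ∧ ∀ a i j, |am e a i j| ≤ C * ‖a‖ := by
    let f : (Fin m → ℝ) →ₗ[ℝ] (Fin d → Fin d → ℝ) :=
      { toFun := fun a i j => am e a i j
        map_add' := fun a b => by
          funext i j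
          rw [map_add]
          rfl
        map_smul' := fun c a => by
          funext i j
          rw [map_smul]
          rfl }
    let F := LinearMap.toContinuousLinearMap f
    refine ⟨‖F‖, norm_nonneg _, ?_⟩
    intro a i j
    have h1 : ‖f a‖ ≤ ‖F‖ * ‖a‖ := F.le_opNorm a
    have h2 : ‖f a i j‖ ≤ ‖f a‖ := (norm_le_pi_norm (f a i) j).trans (norm_le_pi_norm (f a) i)
    exact h2.trans h1
  set B : ℝ := C * (R * ‖e ⟨1, h1S⟩‖) with hB
  -- the key estimate
  have key : ∀ (g : G) (t : ℝ), 0 < t → ‖t • conjRep e σ g (e ⟨1, h1S⟩)‖ ≤ R * ‖e ⟨1, h1S⟩‖ →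
      ∀ v, ‖Real.sqrt t • σ g v‖ ≤ (d : ℝ) * Real.sqrt B * ‖v‖ := by
    intro g t ht hg v
    set M := LinearMap.toMatrix' (σ g) with hM
    have h1 : ∀ i, t * ∑ j, M i j ^ 2 ≤ B := by
      intro i
      have h2 := hC (t • conjRep e σ g (e ⟨1, h1S⟩)) i i
      have h3 : am e (t • conjRep e σ g (e ⟨1, h1S⟩)) = t • (M * Mᵀ) := by
        rw [map_smul, am_apply e (conjRep e σ g (e ⟨1, h1S⟩)), conjRep_apply, ← am_apply, he1,
          Matrix.mul_one]
      rw [h3] at h2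
      have h4 : (t • (M * Mᵀ)) i i = t * ∑ j, M i j ^ 2 := by
        rw [Matrix.smul_apply, smul_eq_mul, Matrix.mul_apply]
        congr 1
        refine Finset.sum_congr rfl fun j _ => ?_
        rw [Matrix.transpose_apply, pow_two]
      rw [h4] at h2
      exact (le_abs_self _).trans (h2.trans (mul_le_mul_of_nonneg_left hg hC0))
    have h5 : ∀ i j, |Real.sqrt t * M i j| ≤ Real.sqrt B := by
      intro i j
      apply Real.abs_le_sqrt
      rw [mul_pow, Real.sq_sqrt ht.le]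
      refine le_trans ?_ (h1 i)
      exact mul_le_mul_of_nonneg_left
        (Finset.single_le_sum (f := fun j => M i j ^ 2) (fun k _ => sq_nonneg _)
          (Finset.mem_univ j)) ht.le
    have h6 : ∀ i, (σ g v) i = ∑ j, M i j * v j := by
      intro i
      have h7 : M *ᵥ v = σ g v := by
        rw [hM, ← Matrix.toLin'_apply, Matrix.toLin'_toMatrix']
      rw [← h7]
      rfl
    rw [pi_norm_le_iff_of_nonneg (by (clear * -; positivity))]
    intro i
    rw [Pi.smul_apply, smul_eq_mul, h6 i, Finset.mul_sum, Real.norm_eq_abs]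
    refine (Finset.abs_sum_le_sum_abs _ _).trans ?_
    have h8 : ∀ j ∈ Finset.univ, |Real.sqrt t * (M i j * v j)| ≤ Real.sqrt B * ‖v‖ := by
      intro j _
      rw [← mul_assoc, abs_mul]
      exact mul_le_mul (h5 i j) (norm_le_pi_norm v j) (abs_nonneg _) (Real.sqrt_nonneg _)
    refine (Finset.sum_le_sum h8).trans ?_
    rw [Finset.sum_const, Finset.card_univ, Fintype.card_fin, nsmul_eq_mul, mul_assoc]
  refine ⟨(d : ℝ) * Real.sqrt B, ?_⟩
  rintro g ⟨t, ht, hg⟩
  refine ⟨Real.sqrt t, Real.sqrt_pos.2 ht, ?_⟩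
  intro v
  refine ⟨key g t ht (hg _).1 v, ?_⟩
  rw [← Real.sqrt_inv]
  exact key g⁻¹ t⁻¹ (inv_pos.2 ht) (hg _).2 v

end Pool.AF
end
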