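import Pool.Agent.Helper16.CPG.G08

/- Helper16.LDA.H94.AF.Norm -/
section
open Set Finset

set_option linter.unusedSectionVars false

namespace Pool.AF

open Pool.SV

/-! ## AF-11 NORM: normalisation of a block by its determinant

`c g = |det (f * φ g * f + (1 - f))| ^ (1 / rank f)`. -/

section NormAux

variable {F : Type*} [NormedAddCommGroup F] [NormedSpace ℝ F] [FiniteDimensional ℝ F]

/-- The determinant of a continuous linear map. -/
noncomputable def dt (T : F →L[ℝ] F) : ℝ := LinearMap.det (T : F →ₗ[ℝ] F)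

theorem dt_mul (S T : F →L[ℝ] F) : dt (S * T) = dt S * dt T := by
  unfold dt
  have : ((S * T : F →L[ℝ] F) : F →ₗ[ℝ] F) = (S : F →ₗ[ℝ] F) * (T : F →ₗ[ℝ] F) := rfl
  rw [this, map_mul]

theorem dt_one : dt (1 : F →L[ℝ] F) = 1 := by
  unfold dt
  have : ((1 : F →L[ℝ] F) : F →ₗ[ℝ] F) = 1 := rfl
  rw [this, map_one]

theorem dt_idem (f : F →L[ℝ] F) (hf : f * f = f) (t : ℝ) :
    dt (t • f + (1 - f)) = t ^ (Module.finrank ℝ (LinearMap.range (f : F →ₗ[ℝ] F))) := by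
  have hI : IsIdempotentElem (f : F →ₗ[ℝ] F) := by
    have := congrArg (fun S : F →L[ℝ] F => (S : F →ₗ[ℝ] F)) hf
    exact this
  have hP := (LinearMap.isProj_range_iff_isIdempotentElem (f : F →ₗ[ℝ] F)).2 hI
  have h1 := hP.eq_conj_prodMap
  set e := (LinearMap.range (f : F →ₗ[ℝ] F)).prodEquivOfIsCompl
    (LinearMap.ker (f : F →ₗ[ℝ] F)) hP.isCompl with he
  have h2 : ((t • f + (1 - f) : F →L[ℝ] F) : F →ₗ[ℝ] F) =
      e.conj (LinearMap.prodMap (t • LinearMap.id) LinearMap.id) := by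
    have h3 : ((t • f + (1 - f) : F →L[ℝ] F) : F →ₗ[ℝ] F) =
        t • (f : F →ₗ[ℝ] F) + (LinearMap.id - (f : F →ₗ[ℝ] F)) := rfl
    rw [h3]
    have h4 : (LinearMap.prodMap (t • LinearMap.id) LinearMap.id :
        (LinearMap.range (f : F →ₗ[ℝ] F)) × (LinearMap.ker (f : F →ₗ[ℝ] F)) →ₗ[ℝ]
          (LinearMap.range (f : F →ₗ[ℝ] F)) × (LinearMap.ker (f : F →ₗ[ℝ] F))) =
        t • LinearMap.prodMap LinearMap.id 0 +
          (LinearMap.id - LinearMap.prodMap LinearMap.id 0) := by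
      ext x <;> simp
    rw [h4, map_add, map_smul, map_sub, LinearEquiv.conj_id, ← h1]
  unfold dt
  rw [h2, LinearEquiv.conj_apply, LinearMap.comp_assoc]
  rw [LinearMap.det_conj]
  rw [LinearMap.det_prodMap, LinearMap.det_smul]
  simp

/-- The adjugate. -/
theorem exists_adj : ∃ (Adj : (F →L[ℝ] F) → (F →L[ℝ] F)) (C : ℝ) (m : ℕ), 0 < C ∧
    (∀ T, T * Adj T = dt T • (1 : F →L[ℝ] F)) ∧ ∀ T, T ≠ 0 → ‖Adj T‖ ≤ C * ‖T‖ ^ m := by
  classical
  let b := Module.finBasis ℝ F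
  let n := Module.finrank ℝ F
  let Φ : (F →L[ℝ] F) →ₗ[ℝ] Matrix (Fin n) (Fin n) ℝ :=
    { toFun := fun T => LinearMap.toMatrix b b (T : F →ₗ[ℝ] F)
      map_add' := fun S T => by
        have : ((S + T : F →L[ℝ] F) : F →ₗ[ℝ] F) = (S : F →ₗ[ℝ] F) + (T : F →ₗ[ℝ] F) := rfl
        rw [this, map_add]
      map_smul' := fun c T => by
        have : ((c • T : F →L[ℝ] F) : F →ₗ[ℝ] F) = c • (T : F →ₗ[ℝ] F) := rfl
        rw [this, map_smul]; rfl }
  let Ψ : Matrix (Fin n) (Fin n) ℝ →ₗ[ℝ] (F →L[ℝ] F) :=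
    { toFun := fun A => LinearMap.toContinuousLinearMap (Matrix.toLin b b A)
      map_add' := fun S T => by rw [map_add, map_add]
      map_smul' := fun c T => by rw [map_smul, map_smul]; rfl }
  have hΦ : Continuous Φ := LinearMap.continuous_of_finiteDimensional Φ
  have hΨ : Continuous Ψ := LinearMap.continuous_of_finiteDimensional Ψ
  have hΨmul : ∀ A B, Ψ (A * B) = Ψ A * Ψ B := by
    intro A B
    ext x
    show (Matrix.toLin b b (A * B)) x = (Matrix.toLin b b A) ((Matrix.toLin b b B) x)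
    rw [Matrix.toLin_mul b b b]; rfl
  have hΨΦ : ∀ T, Ψ (Φ T) = T := by
    intro T
    ext x
    show (Matrix.toLin b b (LinearMap.toMatrix b b (T : F →ₗ[ℝ] F))) x = T x
    rw [Matrix.toLin_toMatrix]; rfl
  have hΨ1 : Ψ 1 = 1 := by
    ext x
    show (Matrix.toLin b b 1) x = x
    rw [Matrix.toLin_one]; rfl
  let Adj : (F →L[ℝ] F) → (F →L[ℝ] F) := fun T => Ψ (Matrix.adjugate (Φ T))
  have hc : Continuous Adj := hΨ.comp (hΦ.matrix_adjugate)
  obtain ⟨C, hC⟩ := (ProperSpace.isCompact_closedBall (0 : F →L[ℝ] F) 1).exists_bound_of_continuousOn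
    hc.continuousOn
  have hhom : ∀ (t : ℝ) T, Adj (t • T) = t ^ (n - 1) • Adj T := by
    intro t T
    show Ψ (Matrix.adjugate (Φ (t • T))) = _
    rw [map_smul, Matrix.adjugate_smul, map_smul, Fintype.card_fin]
  refine ⟨Adj, max C 1, n - 1, lt_max_of_lt_right one_pos, ?_, ?_⟩
  · intro T
    show T * Ψ (Matrix.adjugate (Φ T)) = _
    conv_lhs => rw [← hΨΦ T]
    rw [hΨΦ, ← hΨΦ T, ← hΨmul, hΨΦ, Matrix.mul_adjugate, map_smul, hΨ1]
    congr 1
    show (LinearMap.toMatrix b b (T : F →ₗ[ℝ] F)).det = LinearMap.det (T : F →ₗ[ℝ] F)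
    rw [LinearMap.det_toMatrix]
  · intro T hT
    have hn : 0 < ‖T‖ := norm_pos_iff.2 hT
    have h1 : T = ‖T‖ • (‖T‖⁻¹ • T) := by
      rw [smul_smul, mul_inv_cancel₀ hn.ne', one_smul]
    have h2 : ‖‖T‖⁻¹ • T‖ = 1 := by
      rw [norm_smul, norm_inv, norm_norm, inv_mul_cancel₀ hn.ne']
    have h3 := hC (‖T‖⁻¹ • T) (by simp [h2])
    calc ‖Adj T‖ = ‖Adj (‖T‖ • (‖T‖⁻¹ • T))‖ := by rw [← h1]
      _ = ‖T‖ ^ (n - 1) * ‖Adj (‖T‖⁻¹ • T)‖ := by
          rw [hhom, norm_smul, norm_pow, norm_norm]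
      _ ≤ ‖T‖ ^ (n - 1) * max C 1 := by gcongr; exact h3.trans (le_max_left _ _)
      _ = max C 1 * ‖T‖ ^ (n - 1) := mul_comm _ _

theorem norm_aux {G : Type*} [Group G] (φ : G →* (F →L[ℝ] F)) (f : F →L[ℝ] F) (hf : f * f = f)
    (hf0 : f ≠ 0)
    (hmul : ∀ g h, f * φ (g * h) * f = (f * φ g * f) * (f * φ h * f)) :
    ∃ c : G → ℝ, ((∀ g, 0 < c g) ∧ ∀ g h, c (g * h) = c g * c h) ∧
      ∃ (A : ℝ) (m : ℕ), 0 < A ∧
      ∀ g, A⁻¹ ≤ ‖(c g)⁻¹ • (f * φ g * f)‖ ∧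
        ‖(c g⁻¹)⁻¹ • (f * φ g⁻¹ * f)‖ ≤ A * ‖(c g)⁻¹ • (f * φ g * f)‖ ^ m := by
  classical
  obtain ⟨Adj, C, m, hC0, hAdj, hAdjn⟩ := exists_adj (F := F)
  set d := Module.finrank ℝ (LinearMap.range (f : F →ₗ[ℝ] F)) with hd
  have hd0 : 0 < d := by
    rw [hd, Module.finrank_pos_iff_exists_ne_zero]
    obtain ⟨x, hx⟩ : ∃ x, f x ≠ 0 := by
      by_contra h
      push Not at h
      exact hf0 (ContinuousLinearMap.ext (fun x => by simp [h x]))
    exact ⟨⟨f x, x, rfl⟩, fun h => hx (congrArg Subtype.val h)⟩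
  set M : G → (F →L[ℝ] F) := fun g => f * φ g * f + (1 - f) with hM
  have hfl : ∀ g, f * (f * φ g * f) = f * φ g * f := fun g => by
    rw [mul_assoc f (φ g) f, ← mul_assoc f f, hf]
  have hfr : ∀ g, (f * φ g * f) * f = f * φ g * f := fun g => by
    rw [mul_assoc, hf]
  have hMmul : ∀ g h, M (g * h) = M g * M h := by
    intro g h
    simp only [hM]
    rw [hmul]
    have e1 : (f * φ g * f) * (1 - f) = 0 := by rw [mul_sub, mul_one, hfr, sub_self]
    have e2 : (1 - f) * (f * φ h * f) = 0 := by rw [sub_mul, one_mul, hfl, sub_self]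
    have e3 : (1 - f) * (1 - f) = 1 - f := by
      rw [sub_mul, mul_sub, mul_sub, hf]; simp
    rw [add_mul, mul_add, mul_add, e1, e2, e3]; simp
  have hM1 : M 1 = 1 := by
    simp only [hM]
    rw [map_one, mul_one, hf]; simp
  have hdet : ∀ g h, dt (M (g * h)) = dt (M g) * dt (M h) := fun g h => by
    rw [hMmul, dt_mul]
  have hdet1 : dt (M 1) = 1 := by rw [hM1, dt_one]
  have hdne : ∀ g, dt (M g) ≠ 0 := by
    intro g h
    have := hdet g g⁻¹
    rw [mul_inv_cancel, hdet1, h, zero_mul] at this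
    exact one_ne_zero this
  set c : G → ℝ := fun g => |dt (M g)| ^ ((d : ℝ)⁻¹) with hc
  have hcpos : ∀ g, 0 < c g := fun g => Real.rpow_pos_of_pos (abs_pos.2 (hdne g)) _
  have hcmul : ∀ g h, c (g * h) = c g * c h := fun g h => by
    simp only [hc]
    rw [hdet, abs_mul, Real.mul_rpow (abs_nonneg _) (abs_nonneg _)]
  have hcd : ∀ g, c g ^ d = |dt (M g)| := fun g => by
    simp only [hc]
    rw [← Real.rpow_natCast, ← Real.rpow_mul (abs_nonneg _), inv_mul_cancel₀ (by positivity),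
      Real.rpow_one]
  refine ⟨c, ⟨hcpos, hcmul⟩, ?_⟩
  have hc1 : c 1 = 1 := by
    simp only [hc]; rw [hdet1]; simp
  set N : G → (F →L[ℝ] F) := fun g => (c g)⁻¹ • (f * φ g * f) + (1 - f) with hN
  have hNM : ∀ g, N g = M g * ((c g)⁻¹ • f + (1 - f)) := by
    intro g
    simp only [hN, hM]
    have e1 : (f * φ g * f) * (1 - f) = 0 := by rw [mul_sub, mul_one, hfr, sub_self]
    have e2 : (1 - f) * ((c g)⁻¹ • f) = 0 := by
      rw [mul_smul_comm, sub_mul, one_mul, hf, sub_self, smul_zero]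
    have e3 : (1 - f) * (1 - f) = 1 - f := by
      rw [sub_mul, mul_sub, mul_sub, hf]; simp
    rw [add_mul, mul_add, mul_add, e1, e2, e3, mul_smul_comm, hfr]; simp
  have hNdet : ∀ g, |dt (N g)| = 1 := by
    intro g
    rw [hNM, dt_mul, dt_idem f hf, abs_mul, ← hd, abs_pow, abs_of_pos (inv_pos.2 (hcpos g)),
      inv_pow, hcd, mul_inv_cancel₀ (abs_ne_zero.2 (hdne g))]
  have hNinv : ∀ g, N g⁻¹ * N g = 1 := by
    intro g
    simp only [hN]
    have e1 : ((c g⁻¹)⁻¹ • (f * φ g⁻¹ * f)) * (1 - f) = 0 := by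
      rw [smul_mul_assoc, mul_sub, mul_one, hfr, sub_self, smul_zero]
    have e2 : (1 - f) * ((c g)⁻¹ • (f * φ g * f)) = 0 := by
      rw [mul_smul_comm, sub_mul, one_mul, hfl, sub_self, smul_zero]
    have e3 : (1 - f) * (1 - f) = 1 - f := by
      rw [sub_mul, mul_sub, mul_sub, hf]; simp
    have e4 : ((c g⁻¹)⁻¹ • (f * φ g⁻¹ * f)) * ((c g)⁻¹ • (f * φ g * f)) = f := by
      rw [smul_mul_assoc, mul_smul_comm, smul_smul, ← hmul, ← mul_inv, ← hcmul, inv_mul_cancel,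
        hc1, map_one, mul_one, hf, inv_one, one_smul]
    rw [add_mul, mul_add, mul_add, e1, e2, e3, e4]; simp
  have hN0 : ∀ g, N g ≠ 0 := by
    intro g h
    have h2 := hNinv g
    rw [h, mul_zero] at h2
    obtain ⟨x, hx⟩ : ∃ x, f x ≠ 0 := by
      by_contra h
      push Not at h
      exact hf0 (ContinuousLinearMap.ext (fun x => by simp [h x]))
    have h3 := congrArg (fun T : F →L[ℝ] F => T (f x)) h2
    simp at h3
    exact hx h3.symm
  have hNb : ∀ g, ‖N g⁻¹‖ ≤ C * ‖N g‖ ^ m := by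
    intro g
    have h1 : dt (N g) • N g⁻¹ = Adj (N g) := by
      calc dt (N g) • N g⁻¹ = N g⁻¹ * (dt (N g) • (1 : F →L[ℝ] F)) := by
            rw [mul_smul_comm, mul_one]
        _ = N g⁻¹ * (N g * Adj (N g)) := by rw [hAdj]
        _ = Adj (N g) := by rw [← mul_assoc, hNinv, one_mul]
    have h2 : ‖N g⁻¹‖ = ‖Adj (N g)‖ := by
      rw [← h1, norm_smul, Real.norm_eq_abs, hNdet, one_mul]
    rw [h2]
    exact hAdjn _ (hN0 g)
  -- the corner
  have hcut : ∀ g, (c g)⁻¹ • (f * φ g * f) = f * N g * f := by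
    intro g
    simp only [hN]
    rw [mul_add, add_mul, mul_smul_comm, smul_mul_assoc, hfl, hfr, mul_sub, mul_one, hf, sub_self,
      zero_mul, add_zero]
  have hfn : 1 ≤ ‖f‖ := by
    have h1 : ‖f‖ ≤ ‖f‖ * ‖f‖ := by
      calc ‖f‖ = ‖f * f‖ := by rw [hf]
        _ ≤ ‖f‖ * ‖f‖ := norm_mul_le _ _
    have h2 : 0 < ‖f‖ := norm_pos_iff.2 hf0
    (clear * - h1 h2; nlinarith only [h1, h2])
  set p := ‖f‖ with hp
  set q := ‖(1 - f : F →L[ℝ] F)‖ with hq
  have hq0 : 0 ≤ q := norm_nonneg _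
  have hcutinv : ∀ g, ‖(c g⁻¹)⁻¹ • (f * φ g⁻¹ * f)‖ ≤ p ^ 2 * (C * ‖N g‖ ^ m) := by
    intro g
    rw [hcut]
    calc ‖f * N g⁻¹ * f‖ ≤ ‖f‖ * ‖N g⁻¹‖ * ‖f‖ :=
          (norm_mul_le _ _).trans (by gcongr; exact norm_mul_le _ _)
      _ = p ^ 2 * ‖N g⁻¹‖ := by rw [← hp]; ring
      _ ≤ _ := by gcongr; exact hNb g
  have hNle : ∀ g, ‖N g‖ ≤ ‖(c g)⁻¹ • (f * φ g * f)‖ + q := fun g => norm_add_le _ _
  have hprod : ∀ g, p ≤ ‖(c g)⁻¹ • (f * φ g * f)‖ * ‖(c g⁻¹)⁻¹ • (f * φ g⁻¹ * f)‖ := by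
    intro g
    have e4 : ((c g)⁻¹ • (f * φ g * f)) * ((c g⁻¹)⁻¹ • (f * φ g⁻¹ * f)) = f := by
      rw [smul_mul_assoc, mul_smul_comm, smul_smul, ← hmul, ← mul_inv, ← hcmul, mul_inv_cancel,
        hc1, map_one, mul_one, hf, inv_one, one_smul]
    calc p = ‖((c g)⁻¹ • (f * φ g * f)) * ((c g⁻¹)⁻¹ • (f * φ g⁻¹ * f))‖ := by rw [e4]
      _ ≤ _ := norm_mul_le _ _
  set B := p ^ 2 * (C * (1 + q) ^ m) with hB
  have hB0 : 0 < B := by (clear * - hf0 hC0; positivity)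
  set a := min 1 B⁻¹ with ha
  have ha0 : 0 < a := lt_min one_pos (inv_pos.2 hB0)
  have hlow : ∀ g, a ≤ ‖(c g)⁻¹ • (f * φ g * f)‖ := by
    intro g
    set z := ‖(c g)⁻¹ • (f * φ g * f)‖ with hz
    have hz0 : 0 ≤ z := norm_nonneg _
    by_cases h1 : 1 ≤ z
    · exact (min_le_left _ _).trans h1
    · push Not at h1
      refine (min_le_right _ _).trans ?_
      have h2 : ‖N g‖ ≤ 1 + q := (hNle g).trans (by linarith only [h1])
      have h3 : ‖(c g⁻¹)⁻¹ • (f * φ g⁻¹ * f)‖ ≤ B := (hcutinv g).trans (by rw [hB]; (clear * - h2 hC0 hf0; gcongr))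
      have h4 := hprod g
      have h5 : 1 ≤ z * B := by
        calc (1 : ℝ) ≤ p := hfn
          _ ≤ z * ‖(c g⁻¹)⁻¹ • (f * φ g⁻¹ * f)‖ := h4
          _ ≤ z * B := by (clear * - h3; gcongr)
      rw [inv_le_iff_one_le_mul₀ hB0]
      exact h5
  refine ⟨max a⁻¹ (p ^ 2 * (C * (1 + q / a) ^ m)), m, lt_max_of_lt_left (inv_pos.2 ha0),
    fun g => ⟨?_, ?_⟩⟩
  · refine le_trans ?_ (hlow g)
    rw [inv_le_comm₀ (lt_max_of_lt_left (inv_pos.2 ha0)) ha0]
    exact le_max_left _ _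
  · set z := ‖(c g)⁻¹ • (f * φ g * f)‖ with hz
    have hz0 : 0 ≤ z := norm_nonneg _
    have h1 : ‖N g‖ ≤ (1 + q / a) * z := by
      have : q ≤ q / a * z := by
        calc q = q / a * a := by (clear * - ha0; field_simp)
          _ ≤ q / a * z := by gcongr; exact hlow g
      calc ‖N g‖ ≤ z + q := hNle g
        _ ≤ z + q / a * z := by linarith only [this]
        _ = (1 + q / a) * z := by ring
    calc ‖(c g⁻¹)⁻¹ • (f * φ g⁻¹ * f)‖ ≤ p ^ 2 * (C * ‖N g‖ ^ m) := hcutinv g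
      _ ≤ p ^ 2 * (C * ((1 + q / a) * z) ^ m) := by (clear * - h1 hC0 hf0; gcongr)
      _ = (p ^ 2 * (C * (1 + q / a) ^ m)) * z ^ m := by rw [mul_pow]; ring
      _ ≤ _ := by gcongr; exact le_max_right _ _

end NormAux

theorem exists_norm {E : Type*} [NormedAddCommGroup E] [NormedSpace ℝ E] [FiniteDimensional ℝ E]
    {G : Type*} [Group G] (φ : G →* Alg E) (f : Alg E) (hf : f * f = f) (hf0 : f ≠ 0)
    (hmul : ∀ g h, f * φ (g * h) * f = (f * φ g * f) * (f * φ h * f)) :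
    ∃ c : G → ℝ, PosMul c ∧ ∃ (A : ℝ) (m : ℕ), 0 < A ∧
      ∀ g, A⁻¹ ≤ ‖cut φ f c g‖ ∧ ‖cut φ f c g⁻¹‖ ≤ A * ‖cut φ f c g‖ ^ m := by
  obtain ⟨c, hc, A, m, hA, h⟩ := norm_aux φ f hf hf0 hmul
  exact ⟨c, hc, A, m, hA, h⟩

end Pool.AF
end

/- Helper16.LDA.H94.AF.BlkP -/
section
open Set Finset

set_option linter.unusedSectionVars false

namespace Pool.AF

open Pool.SV

/-! ## AF-16 BLKP: the block of a quotient of quadratic type (uses `exists_norm`)

The representation is `(ρ g q) (b) = q (c g • g⁻¹ b)` on `L`, the cone consists of the forms in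
`L` that are positive definite on `B / A`, and `ξ q = ∑ q (b_j)` for a basis `b_j` of `B / A`. -/

section Abstract

variable {W : Type*} [NormedAddCommGroup W] [NormedSpace ℝ W] [FiniteDimensional ℝ W]

private theorem continuous_quad (q : QuadraticForm ℝ W) : Continuous q := by
  have h1 : Continuous ((LinearMap.toContinuousLinearMap :
      (W →ₗ[ℝ] ℝ) ≃ₗ[ℝ] (W →L[ℝ] ℝ)).toLinearMap ∘ₗ (QuadraticMap.associated q)) :=
    LinearMap.continuous_of_finiteDimensional _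
  have h2 : (fun w : W => ((LinearMap.toContinuousLinearMap :
      (W →ₗ[ℝ] ℝ) ≃ₗ[ℝ] (W →L[ℝ] ℝ)).toLinearMap ∘ₗ (QuadraticMap.associated q)) w w) = q := by
    funext w
    exact QuadraticMap.associated_eq_self_apply ℝ q w
  rw [← h2]
  exact h1.clm_apply continuous_id

private instance finite_quad : FiniteDimensional ℝ (QuadraticForm ℝ W) := by
  refine Module.Finite.of_injective (QuadraticMap.associatedHom ℝ :
    QuadraticMap ℝ W ℝ →ₗ[ℝ] LinearMap.BilinMap ℝ W ℝ) ?_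
  intro q q' h
  rw [← QuadraticMap.toQuadraticMap_associated ℝ q, ← QuadraticMap.toQuadraticMap_associated ℝ q',
    h]

/-- Composition with a linear map, as a linear map of quadratic forms. -/
private def cmp (T : W →ₗ[ℝ] W) : QuadraticForm ℝ W →ₗ[ℝ] QuadraticForm ℝ W where
  toFun q := q.comp T
  map_add' _ _ := rfl
  map_smul' _ _ := rfl

private theorem cmp_apply (T : W →ₗ[ℝ] W) (q : QuadraticForm ℝ W) (w : W) :
    cmp T q w = q (T w) := rfl

/-- Evaluation at a vector. -/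
private def evq (L : Submodule ℝ (QuadraticForm ℝ W)) (w : W) : L →ₗ[ℝ] ℝ where
  toFun q := (q : QuadraticForm ℝ W) w
  map_add' _ _ := rfl
  map_smul' _ _ := rfl

private theorem exists_blk {G : Type*} [Group G] (T : G →* (W →ₗ[ℝ] W)) (A : Submodule ℝ W)
    (p : W →ₗ[ℝ] W) (hp1 : ∀ w, w - p w ∈ A) (hp2 : ∀ w, p w = 0 ↔ w ∈ A)
    (hp3 : ∀ w, p (p w) = p w) (hTA : ∀ g, ∀ a ∈ A, T g a ∈ A) (hAtop : ∃ w, w ∉ A)
    (L : Submodule ℝ (QuadraticForm ℝ W)) (hL1 : ∀ q ∈ L, ∀ a ∈ A, ∀ b : W, q (b + a) = q b)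
    (hL2 : ∃ q ∈ L, ∀ b : W, b ∉ A → 0 < q b) (hL3 : ∀ g, ∀ q ∈ L, q.comp (T g) ∈ L)
    (c : G → ℝ) (hc : PosMul c) :
    ∃ Q : Blk G, Q.d = Module.finrank ℝ L ∧ ∀ v ∈ Q.C, ∃ m : ℝ, 0 < m ∧ ∀ g,
      m * ∑ j, ((c g)⁻¹ * ‖p (T g (Module.finBasis ℝ W j))‖) ^ 2 ≤ Q.ev g v := by
  classical
  haveI hfree : Module.Free ℝ L := Module.Free.of_divisionRing ℝ L
  haveI hfin : Module.Finite ℝ L := FiniteDimensional.finiteDimensional_submodule L
  have hc1 : c 1 = 1 := by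
    have h := hc.2 1 1
    rw [mul_one] at h
    have h0 := hc.1 1
    (clear * - h h0; nlinarith only [h, h0])
  have hcinv : ∀ g, c g⁻¹ = (c g)⁻¹ := by
    intro g
    have h := hc.2 g g⁻¹
    rw [mul_inv_cancel, hc1] at h
    exact eq_inv_of_mul_eq_one_right h.symm
  -- reduction to the complement
  have hqp : ∀ q ∈ L, ∀ w, q w = q (p w) := by
    intro q hq w
    have h := hL1 q hq (w - p w) (hp1 w) (p w)
    rw [← h]
    congr 1
    abel
  have hscale : ∀ q ∈ L, ∀ w, p w ≠ 0 → q w = ‖p w‖ ^ 2 * q (‖p w‖⁻¹ • p w) := by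
    intro q hq w hw
    rw [QuadraticMap.map_smul, hqp q hq w, smul_eq_mul]
    have : ‖p w‖ ≠ 0 := norm_ne_zero_iff.2 hw
    (clear * - this; field_simp)
  set K : Set W := {w | ‖w‖ = 1 ∧ p w = w} with hK
  have hKc : IsCompact K := by
    have h1 : IsClosed {w : W | p w = w} :=
      isClosed_eq (LinearMap.continuous_of_finiteDimensional p) continuous_id
    have h2 : K = Metric.sphere (0 : W) 1 ∩ {w : W | p w = w} := by
      ext w
      simp [hK]
    rw [h2]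
    exact (isCompact_sphere (0 : W) 1).inter_right h1
  have hKmem : ∀ w, p w ≠ 0 → ‖p w‖⁻¹ • p w ∈ K := by
    intro w hw
    have h1 : ‖p w‖ ≠ 0 := norm_ne_zero_iff.2 hw
    refine ⟨?_, ?_⟩
    · rw [norm_smul, norm_inv, norm_norm, inv_mul_cancel₀ h1]
    · rw [map_smul, hp3]
  have hKA : ∀ w ∈ K, w ∉ A := by
    intro w hw h
    have h1 := (hp2 w).2 h
    rw [hw.2] at h1
    have h2 := hw.1
    rw [h1, norm_zero] at h2
    exact zero_ne_one h2
  have hposK : ∀ q ∈ L, (∀ w ∈ K, 0 < q w) → ∀ w, w ∉ A → 0 < q w := by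
    intro q hq h w hw
    have hw' : p w ≠ 0 := fun h => hw ((hp2 w).1 h)
    rw [hscale q hq w hw']
    exact mul_pos (pow_pos (norm_pos_iff.2 hw') 2) (h _ (hKmem w hw'))
  -- coordinates
  set d := Module.finrank ℝ L with hd
  set e : L ≃ₗ[ℝ] (Fin d → ℝ) := (Module.finBasis ℝ L).equivFun with he
  have hesymm : ∀ (v : Fin d → ℝ) (w : W), ((e.symm v : L) : QuadraticForm ℝ W) w =
      ∑ i, v i * ((Module.finBasis ℝ L i : L) : QuadraticForm ℝ W) w := by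
    intro v w
    have h1 : e.symm v = ∑ i, v i • Module.finBasis ℝ L i := Module.Basis.equivFun_symm_apply _ _
    have h2 : ((e.symm v : L) : QuadraticForm ℝ W) w = evq L w (e.symm v) := rfl
    rw [h2, h1, map_sum]
    refine Finset.sum_congr rfl fun i _ => ?_
    rw [map_smul, smul_eq_mul]
    rfl
  -- the representation on `L`
  have hM : ∀ g, ∀ q ∈ L, ((c g) ^ 2 • cmp (T g⁻¹)) q ∈ L := by
    intro g q hq
    exact L.smul_mem _ (hL3 g⁻¹ q hq)
  let M : G → (L →ₗ[ℝ] L) := fun g => ((c g) ^ 2 • cmp (T g⁻¹)).restrict (hM g)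
  have hMapp : ∀ g (q : L) (w : W), ((M g q : L) : QuadraticForm ℝ W) w =
      (c g) ^ 2 * (q : QuadraticForm ℝ W) (T g⁻¹ w) := fun g q w => rfl
  have hM1 : M 1 = LinearMap.id := by
    refine LinearMap.ext fun q => Subtype.ext (QuadraticMap.ext fun w => ?_)
    rw [hMapp, hc1, inv_one, map_one]
    simp
  have hMmul : ∀ g h, M (g * h) = (M g).comp (M h) := by
    intro g h
    refine LinearMap.ext fun q => Subtype.ext (QuadraticMap.ext fun w => ?_)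
    rw [LinearMap.comp_apply, hMapp, hMapp, hMapp, hc.2, mul_inv_rev, map_mul,
      Module.End.mul_apply]
    ring
  let ρ : G →* ((Fin d → ℝ) →ₗ[ℝ] (Fin d → ℝ)) :=
    { toFun := fun g => (e.toLinearMap ∘ₗ M g) ∘ₗ e.symm.toLinearMap
      map_one' := by
        refine LinearMap.ext fun v => ?_
        simp [hM1]
      map_mul' := by
        intro g h
        refine LinearMap.ext fun v => ?_
        simp [hMmul, Module.End.mul_apply] }
  have hρ : ∀ g v, e.symm (ρ g v) = M g (e.symm v) := by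
    intro g v
    change e.symm (e (M g (e.symm v))) = _
    rw [LinearEquiv.symm_apply_apply]
  let C : Set (Fin d → ℝ) := {v | ∀ w, w ∉ A → 0 < ((e.symm v : L) : QuadraticForm ℝ W) w}
  let ξ : (Fin d → ℝ) →ₗ[ℝ] ℝ :=
    (∑ j, evq L (Module.finBasis ℝ W j)) ∘ₗ e.symm.toLinearMap
  have hξ : ∀ v, ξ v = ∑ j, ((e.symm v : L) : QuadraticForm ℝ W) (Module.finBasis ℝ W j) := by
    intro v
    change (∑ j, evq L (Module.finBasis ℝ W j)) (e.symm v) = _
    rw [LinearMap.sum_apply]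
    rfl
  have hzero : ∀ q ∈ L, ∀ a ∈ A, q a = 0 := by
    intro q hq a ha
    have h := hL1 q hq a ha 0
    rw [zero_add, QuadraticMap.map_zero] at h
    exact h
  have hnonneg : ∀ v ∈ C, ∀ w, 0 ≤ ((e.symm v : L) : QuadraticForm ℝ W) w := by
    intro v hv w
    by_cases hw : w ∈ A
    · rw [hzero _ (e.symm v).2 w hw]
    · exact (hv w hw).le
  have hopen : IsOpen C := by
    rw [isOpen_iff_mem_nhds]
    intro v hv
    have h1 : ∀ᶠ v' in nhds v, ∀ w ∈ K, 0 < ((e.symm v' : L) : QuadraticForm ℝ W) w := by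
      refine hKc.eventually_forall_of_forall_eventually
        (P := fun v' w => 0 < ((e.symm v' : L) : QuadraticForm ℝ W) w) fun w hw => ?_
      have h2 : Continuous fun z : (Fin d → ℝ) × W =>
          ((e.symm z.1 : L) : QuadraticForm ℝ W) z.2 := by
        simp only [hesymm]
        refine continuous_finsetSum _ fun i _ => ?_
        exact ((continuous_apply i).comp continuous_fst).mul
          ((continuous_quad _).comp continuous_snd)
      exact h2.continuousAt.eventually (lt_mem_nhds (hv w (hKA w hw)))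
    filter_upwards [h1] with v' hv'
    exact hposK _ (e.symm v').2 hv'
  have hne : C.Nonempty := by
    obtain ⟨q, hq, hq'⟩ := hL2
    refine ⟨e ⟨q, hq⟩, fun w hw => ?_⟩
    rw [LinearEquiv.symm_apply_apply]
    exact hq' w hw
  obtain ⟨j₀, hj₀⟩ : ∃ j, Module.finBasis ℝ W j ∉ A := by
    by_contra hcon
    push Not at hcon
    obtain ⟨w, hw⟩ := hAtop
    apply hw
    rw [← (Module.finBasis ℝ W).sum_repr w]
    exact A.sum_mem fun j _ => A.smul_mem _ (hcon j)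
  have hinvA : ∀ g, ∀ w, w ∉ A → T g w ∉ A := by
    intro g w hw h
    apply hw
    have h1 := hTA g⁻¹ _ h
    rw [← Module.End.mul_apply, ← map_mul, inv_mul_cancel, map_one] at h1
    exact h1
  refine ⟨⟨d, ρ, C, ξ, hopen, ?_, hne, ?_, ?_, ?_⟩, rfl, ?_⟩
  · intro v hv v' hv' a b ha hb hab w hw
    have h1 : ((e.symm (a • v + b • v') : L) : QuadraticForm ℝ W) w =
        a * ((e.symm v : L) : QuadraticForm ℝ W) w +
          b * ((e.symm v' : L) : QuadraticForm ℝ W) w := by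
      rw [map_add, map_smul, map_smul]
      rfl
    rw [h1]
    have h2 := hv w hw
    have h3 := hv' w hw
    rcases ha.eq_or_lt with h | h
    · have hb1 : b = 1 := by linarith only [hab, h]
      rw [← h, hb1]
      linarith only [h3]
    · have h4 : 0 < a * ((e.symm v : L) : QuadraticForm ℝ W) w := mul_pos h h2
      have h5 : 0 ≤ b * ((e.symm v' : L) : QuadraticForm ℝ W) w := mul_nonneg hb h3.le
      linarith only [h4, h5]
  · intro v hv t ht w hw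
    have h1 : ((e.symm (t • v) : L) : QuadraticForm ℝ W) w =
        t * ((e.symm v : L) : QuadraticForm ℝ W) w := by
      rw [map_smul]
      rfl
    rw [h1]
    exact mul_pos ht (hv w hw)
  · intro g v hv w hw
    rw [hρ, hMapp]
    exact mul_pos (pow_pos (hc.1 g) 2) (hv _ (hinvA g⁻¹ w hw))
  · intro v hv
    rw [hξ]
    exact Finset.sum_pos' (fun j _ => hnonneg v hv _) ⟨j₀, Finset.mem_univ _, hv _ hj₀⟩
  · intro v hv
    -- lower bound of the form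
    obtain ⟨m, hm, hmK⟩ : ∃ m : ℝ, 0 < m ∧ ∀ w ∈ K,
        m ≤ ((e.symm v : L) : QuadraticForm ℝ W) w := by
      rcases K.eq_empty_or_nonempty with h | h
      · exact ⟨1, one_pos, by rw [h]; intro w hw; exact hw.elim⟩
      · obtain ⟨w₀, hw₀, hmin⟩ := hKc.exists_isMinOn h
          (continuous_quad ((e.symm v : L) : QuadraticForm ℝ W)).continuousOn
        exact ⟨_, hv w₀ (hKA w₀ hw₀), fun w hw => hmin hw⟩
    have hlow : ∀ w, m * ‖p w‖ ^ 2 ≤ ((e.symm v : L) : QuadraticForm ℝ W) w := by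
      intro w
      by_cases hw : p w = 0
      · rw [hw, norm_zero]
        have := hnonneg v hv w
        simpa using this
      · rw [hscale _ (e.symm v).2 w hw, mul_comm]
        exact mul_le_mul_of_nonneg_left (hmK _ (hKmem w hw)) (sq_nonneg _)
    refine ⟨m, hm, fun g => ?_⟩
    change _ ≤ ξ (ρ g⁻¹ v)
    rw [hξ, Finset.mul_sum]
    refine Finset.sum_le_sum fun j _ => ?_
    rw [hρ, hMapp, inv_inv, hcinv, mul_pow]
    have h1 := hlow (T g (Module.finBasis ℝ W j))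
    have h2 : 0 ≤ ((c g)⁻¹) ^ 2 := sq_nonneg _
    calc m * ((c g)⁻¹ ^ 2 * ‖p (T g (Module.finBasis ℝ W j))‖ ^ 2)
        = (c g)⁻¹ ^ 2 * (m * ‖p (T g (Module.finBasis ℝ W j))‖ ^ 2) := by ring
      _ ≤ _ := mul_le_mul_of_nonneg_left h1 h2

end Abstract

section

variable {E : Type*} [NormedAddCommGroup E] [NormedSpace ℝ E] [FiniteDimensional ℝ E]

private theorem num_grow {A₀ C₂ t s y : ℝ} {m : ℕ} (hA : 0 < A₀) (hC : 0 < C₂) (ht : A₀⁻¹ ≤ t)
    (hts : t ^ 2 ≤ C₂ * s) (hy : y ≤ A₀ * t ^ m) :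
    (A₀ ^ 2 * C₂ + (A₀⁻¹ + A₀ * A₀⁻¹ ^ m) * (A₀ ^ 2 * C₂) ^ (m + 1))⁻¹ ≤ s ∧
    t ≤ (A₀ ^ 2 * C₂ + (A₀⁻¹ + A₀ * A₀⁻¹ ^ m) * (A₀ ^ 2 * C₂) ^ (m + 1)) * s ^ (m + 1) ∧
    y ≤ (A₀ ^ 2 * C₂ + (A₀⁻¹ + A₀ * A₀⁻¹ ^ m) * (A₀ ^ 2 * C₂) ^ (m + 1)) * s ^ (m + 1) := by
  have hk : 0 < A₀ ^ 2 * C₂ := by positivity
  have h1 : 1 ≤ A₀ * t := by
    have := mul_le_mul_of_nonneg_left ht hA.le
    rwa [mul_inv_cancel₀ hA.ne'] at this
  have h2 : (A₀ * t) ^ 2 ≤ A₀ ^ 2 * C₂ * s := by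
    rw [mul_pow, mul_assoc]
    exact mul_le_mul_of_nonneg_left hts (by positivity)
  have h3 : A₀ * t ≤ (A₀ * t) ^ 2 := by (clear * - h1; nlinarith only [h1])
  have hr : 1 ≤ A₀ ^ 2 * C₂ * s := by linarith only [h1, h2, h3]
  have hs : (A₀ ^ 2 * C₂)⁻¹ ≤ s := by
    rw [inv_le_iff_one_le_mul₀ hk]
    (clear * - h1 h2 h3; linarith)
  have hs0 : 0 < s := lt_of_lt_of_le (inv_pos.2 hk) hs
  have hx : 0 ≤ (A₀⁻¹ + A₀ * A₀⁻¹ ^ m) * (A₀ ^ 2 * C₂) ^ (m + 1) := by positivity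
  have hr1 : A₀ ^ 2 * C₂ * s ≤ (A₀ ^ 2 * C₂ * s) ^ (m + 1) := le_self_pow₀ hr (by omega)
  have hrm : (A₀ ^ 2 * C₂ * s) ^ m ≤ (A₀ ^ 2 * C₂ * s) ^ (m + 1) :=
    pow_le_pow_right₀ hr (by omega)
  have hexp : (A₀ ^ 2 * C₂ * s) ^ (m + 1) = (A₀ ^ 2 * C₂) ^ (m + 1) * s ^ (m + 1) := mul_pow _ _ _
  have hsp : 0 < s ^ (m + 1) := pow_pos hs0 _
  have hkp : 0 < (A₀ ^ 2 * C₂) ^ (m + 1) := pow_pos hk _
  refine ⟨?_, ?_, ?_⟩
  · refine le_trans ?_ hs
    exact inv_anti₀ hk (by (clear * - hx; linarith only [hx]))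
  · have h4 : t ≤ A₀⁻¹ * (A₀ ^ 2 * C₂ * s) ^ (m + 1) := by
      have h5 : A₀⁻¹ * (A₀ * t) ≤ A₀⁻¹ * (A₀ ^ 2 * C₂ * s) ^ (m + 1) :=
        mul_le_mul_of_nonneg_left (h3.trans (h2.trans hr1)) (by positivity)
      rwa [← mul_assoc, inv_mul_cancel₀ hA.ne', one_mul] at h5
    rw [hexp] at h4
    have h6 : 0 ≤ A₀ ^ 2 * C₂ * s ^ (m + 1) := by positivity
    have h7 : 0 ≤ A₀ * A₀⁻¹ ^ m * ((A₀ ^ 2 * C₂) ^ (m + 1) * s ^ (m + 1)) := by positivity
    have h8 : (A₀ ^ 2 * C₂ + (A₀⁻¹ + A₀ * A₀⁻¹ ^ m) * (A₀ ^ 2 * C₂) ^ (m + 1)) * s ^ (m + 1) =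
        A₀ ^ 2 * C₂ * s ^ (m + 1) + A₀⁻¹ * ((A₀ ^ 2 * C₂) ^ (m + 1) * s ^ (m + 1)) +
          A₀ * A₀⁻¹ ^ m * ((A₀ ^ 2 * C₂) ^ (m + 1) * s ^ (m + 1)) := by ring
    rw [h8]
    linarith only [h4, h6, h7]
  · have h4 : A₀ * t ^ m ≤ A₀ * A₀⁻¹ ^ m * (A₀ ^ 2 * C₂ * s) ^ (m + 1) := by
      have h5 : (A₀ * t) ^ m ≤ (A₀ ^ 2 * C₂ * s) ^ (m + 1) :=
        (pow_le_pow_left₀ (by linarith only [h1]) (h3.trans h2) m).trans hrm
      have h6 : A₀ * A₀⁻¹ ^ m * (A₀ * t) ^ m ≤ A₀ * A₀⁻¹ ^ m * (A₀ ^ 2 * C₂ * s) ^ (m + 1) :=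
        mul_le_mul_of_nonneg_left h5 (by positivity)
      have h7 : A₀ * A₀⁻¹ ^ m * (A₀ * t) ^ m = A₀ * t ^ m := by
        rw [mul_pow, inv_pow]
        (clear * - hA; field_simp)
      rwa [h7] at h6
    rw [hexp] at h4
    have h6 : 0 ≤ A₀ ^ 2 * C₂ * s ^ (m + 1) := by positivity
    have h7 : 0 ≤ A₀⁻¹ * ((A₀ ^ 2 * C₂) ^ (m + 1) * s ^ (m + 1)) := by positivity
    have h8 : (A₀ ^ 2 * C₂ + (A₀⁻¹ + A₀ * A₀⁻¹ ^ m) * (A₀ ^ 2 * C₂) ^ (m + 1)) * s ^ (m + 1) =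
        A₀ ^ 2 * C₂ * s ^ (m + 1) + A₀⁻¹ * ((A₀ ^ 2 * C₂) ^ (m + 1) * s ^ (m + 1)) +
          A₀ * A₀⁻¹ ^ m * ((A₀ ^ 2 * C₂) ^ (m + 1) * s ^ (m + 1)) := by ring
    rw [h8]
    (clear * - hy h4 h6 h7; linarith only [hy, h4, h6, h7])

/-- The operator norm is bounded by the values on a basis. -/
private theorem exists_op {W : Type*} [NormedAddCommGroup W] [NormedSpace ℝ W]
    [FiniteDimensional ℝ W] {X Y : Type*} [NormedAddCommGroup X] [NormedSpace ℝ X]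
    [NormedAddCommGroup Y] [NormedSpace ℝ Y] [FiniteDimensional ℝ X] (π : X →ₗ[ℝ] W) :
    ∃ K : ℝ, 0 ≤ K ∧ ∀ (U : W →ₗ[ℝ] Y) (x : X),
      ‖U (π x)‖ ≤ K * Real.sqrt (∑ j, ‖U (Module.finBasis ℝ W j)‖ ^ 2) * ‖x‖ := by
  let co : ∀ j : Fin (Module.finrank ℝ W), X →L[ℝ] ℝ := fun j =>
    LinearMap.toContinuousLinearMap (((Module.finBasis ℝ W).coord j) ∘ₗ π)
  refine ⟨∑ j, ‖co j‖, Finset.sum_nonneg fun j _ => norm_nonneg _, fun U x => ?_⟩
  have h1 : U (π x) = ∑ j, (co j x) • U (Module.finBasis ℝ W j) := by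
    conv_lhs => rw [← (Module.finBasis ℝ W).sum_repr (π x)]
    rw [map_sum]
    refine Finset.sum_congr rfl fun j _ => ?_
    rw [map_smul]
    rfl
  rw [h1, Finset.sum_mul, Finset.sum_mul]
  refine (norm_sum_le _ _).trans (Finset.sum_le_sum fun j _ => ?_)
  rw [norm_smul]
  have h2 : ‖co j x‖ ≤ ‖co j‖ * ‖x‖ := (co j).le_opNorm x
  have h3 : ‖U (Module.finBasis ℝ W j)‖ ≤
      Real.sqrt (∑ j, ‖U (Module.finBasis ℝ W j)‖ ^ 2) := by
    refine Real.le_sqrt_of_sq_le ?_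
    exact Finset.single_le_sum (f := fun j => ‖U (Module.finBasis ℝ W j)‖ ^ 2)
      (fun i _ => sq_nonneg _) (Finset.mem_univ j)
  calc ‖co j x‖ * ‖U (Module.finBasis ℝ W j)‖
      ≤ (‖co j‖ * ‖x‖) * Real.sqrt (∑ j, ‖U (Module.finBasis ℝ W j)‖ ^ 2) :=
        mul_le_mul h2 h3 (norm_nonneg _) (by (clear * -; positivity))
    _ = _ := by ring

theorem blk_quad (D : Geo E) (A B : Submodule ℝ E) (hAB : A < B)
    (hA : ∀ g ∈ D.Γ, ∀ v ∈ A, g.linear v ∈ A) (hB : ∀ g ∈ D.Γ, ∀ v ∈ B, g.linear v ∈ B)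
    (k : ℕ) (hq : QuadType D.Γ A B k) (eA eB : Alg E) (hA2 : eA * eA = eA) (hB2 : eB * eB = eB)
    (hAr : ∀ v : E × ℝ, eA v = v ↔ v.2 = 0 ∧ v.1 ∈ A)
    (hBr : ∀ v : E × ℝ, eB v = v ↔ v.2 = 0 ∧ v.1 ∈ B) (hAB1 : eA * eB = eA)
    (hAB2 : eB * eA = eA) :
    ∃ (c : D.Γ → ℝ) (Q : Blk D.Γ) (b : ℕ), PosMul c ∧
      Q.d + Module.finrank ℝ A ≤ Module.finrank ℝ B + k ∧
      ∀ v ∈ Q.C, Grow (cut (hatHom D.Γ) (eB - eA) c) (fun g => Q.ev g v) b := by
  obtain ⟨L, hLd, hL1, hL2, hL3⟩ := hq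
  set f : Alg E := eB - eA with hf
  have hidem : ∀ e : Alg E, e * e = e → ∀ x, e (e x) = e x := by
    intro e he x
    rw [← mul_apply_eq_comp, he]
  have hfA : ∀ x : E × ℝ, (eA x).2 = 0 ∧ (eA x).1 ∈ A := fun x =>
    (hAr (eA x)).1 (hidem eA hA2 x)
  have hfB : ∀ x : E × ℝ, (eB x).2 = 0 ∧ (eB x).1 ∈ B := fun x =>
    (hBr (eB x)).1 (hidem eB hB2 x)
  have hfx : ∀ x : E × ℝ, f x = eB x - eA x := fun x => rfl
  have hf2 : ∀ x : E × ℝ, (f x).2 = 0 ∧ (f x).1 ∈ B := by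
    intro x
    rw [hfx]
    refine ⟨?_, ?_⟩
    · rw [Prod.snd_sub, (hfA x).1, (hfB x).1, sub_zero]
    · rw [Prod.fst_sub]
      exact B.sub_mem (hfB x).2 (hAB.le (hfA x).2)
  have hfb : ∀ b ∈ B, f (b, 0) = (b, 0) - eA (b, 0) := by
    intro b hb
    rw [hfx, (hBr (b, 0)).2 ⟨rfl, hb⟩]
  have hfa : ∀ a ∈ A, f (a, 0) = 0 := by
    intro a ha
    rw [hfb a (hAB.le ha), (hAr (a, 0)).2 ⟨rfl, ha⟩, sub_self]
  have hff : f * f = f := by
    rw [hf, mul_sub, sub_mul, sub_mul, hA2, hB2, hAB1, hAB2, sub_self, sub_zero]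
  obtain ⟨b₀, hb₀B, hb₀A⟩ := SetLike.exists_of_lt hAB
  have hf0 : f ≠ 0 := by
    intro h
    have h1 := hfb b₀ hb₀B
    rw [h] at h1
    have h2 : eA (b₀, 0) = (b₀, 0) := (sub_eq_zero.1 h1.symm).symm
    exact hb₀A ((hAr (b₀, 0)).1 h2).2
  have hφ : ∀ (g : D.Γ) (b : E), (hatHom D.Γ g) (b, 0) = (g.1.linear b, 0) := by
    intro g b
    change hat g.1 (b, 0) = _
    rw [hat_apply]
    simp
  have hφf : ∀ (g : D.Γ) (x : E × ℝ), (hatHom D.Γ g) (f x) = (g.1.linear (f x).1, 0) := by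
    intro g x
    rw [← hφ]
    congr 1
    exact Prod.ext rfl (hf2 x).1
  have hkey : ∀ (g : D.Γ) (b : E), b ∈ B → f (hatHom D.Γ g (f (b, 0))) =
      f (hatHom D.Γ g (b, 0)) := by
    intro g b hb
    rw [hfb b hb, map_sub, map_sub, sub_eq_self]
    have h1 : eA (b, 0) = ((eA (b, 0)).1, 0) := Prod.ext rfl (hfA (b, 0)).1
    rw [h1, hφ]
    exact hfa _ (hA g.1 g.2 _ (hfA (b, 0)).2)
  have hmul : ∀ g h : D.Γ, f * hatHom D.Γ (g * h) * f =
      (f * hatHom D.Γ g * f) * (f * hatHom D.Γ h * f) := by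
    intro g h
    rw [map_mul]
    refine ContinuousLinearMap.ext fun x => ?_
    simp only [mul_apply_eq_comp]
    have h1 : f (f (hatHom D.Γ h (f x))) = f (hatHom D.Γ h (f x)) := hidem f hff _
    rw [h1, hφf h x, hkey g _ (hB h.1 h.2 _ (hf2 x).2)]
  obtain ⟨c, hc, A₀, m, hA₀, hN⟩ := exists_norm (hatHom D.Γ) f hff hf0 hmul
  -- the representation on `B`
  let T : D.Γ →* (B →ₗ[ℝ] B) :=
    { toFun := fun g => (g.1.linear : E →ₗ[ℝ] E).restrict (fun v hv => hB g.1 g.2 v hv)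
      map_one' := rfl
      map_mul' := fun g h => rfl }
  have hT : ∀ (g : D.Γ) (b : B), ((T g b : B) : E) = g.1.linear (b : E) := fun g b => rfl
  let p : B →ₗ[ℝ] B := LinearMap.codRestrict B
    ((LinearMap.fst ℝ E ℝ) ∘ₗ (f : (E × ℝ) →ₗ[ℝ] (E × ℝ)) ∘ₗ (LinearMap.inl ℝ E ℝ) ∘ₗ B.subtype)
    (fun b => (hf2 _).2)
  have hp : ∀ b : B, ((p b : B) : E) = (f ((b : E), 0)).1 := fun b => rfl
  have hp' : ∀ b : B, f ((b : E), 0) = (((p b : B) : E), 0) := fun b =>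
    Prod.ext (hp b).symm (hf2 _).1
  obtain ⟨Q, hQd, hQ⟩ := exists_blk T (A.comap B.subtype) p
    (by
      intro w
      rw [Submodule.mem_comap]
      have h1 := congrArg Prod.fst (hfb w w.2)
      rw [Prod.fst_sub] at h1
      have h2 : B.subtype (w - p w) = (eA ((w : E), 0)).1 := by
        change (w : E) - ((p w : B) : E) = _
        rw [hp, h1]
        simp
      rw [h2]
      exact (hfA _).2)
    (by
      intro w
      rw [Submodule.mem_comap]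
      refine ⟨fun h => ?_, fun h => ?_⟩
      · have h1 := hp' w
        rw [h, hfb w w.2] at h1
        have h2 : (((0 : B) : E), (0 : ℝ)) = 0 := rfl
        rw [h2, sub_eq_zero] at h1
        exact ((hAr ((w : E), 0)).1 h1.symm).2
      · have h1 := hp' w
        have h' : (w : E) ∈ A := h
        rw [hfa _ h'] at h1
        exact Subtype.ext (congrArg Prod.fst h1).symm)
    (by
      intro w
      refine Subtype.ext ?_
      have h1 : f (f ((w : E), 0)) = f ((w : E), 0) := hidem f hff _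
      rw [hp' w, hp' (p w)] at h1
      exact congrArg Prod.fst h1)
    (by
      intro g a ha
      exact hA g.1 g.2 _ ha)
    ⟨⟨b₀, hb₀B⟩, hb₀A⟩ L
    (fun q hq a ha b => hL1 q hq a b ha)
    hL2
    (by
      intro g q hq
      obtain ⟨q', hq', h⟩ := hL3 g.1 g.2 q hq
      have h1 : q.comp (T g) = q' := QuadraticMap.ext fun b => (h b (T g b) rfl).symm
      rw [h1]
      exact hq')
    c hc
  refine ⟨c, Q, m + 1, hc, by rw [hQd]; exact hLd, fun v hv => ?_⟩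
  obtain ⟨m₁, hm₁, hQv⟩ := hQ v hv
  -- the operator norm
  let π : (E × ℝ) →ₗ[ℝ] B := LinearMap.codRestrict B
    ((LinearMap.fst ℝ E ℝ) ∘ₗ (f : (E × ℝ) →ₗ[ℝ] (E × ℝ))) (fun x => (hf2 x).2)
  have hπ : ∀ x : E × ℝ, f x = (((π x : B) : E), 0) := fun x => Prod.ext rfl (hf2 x).1
  obtain ⟨K, hK, hop⟩ := exists_op (Y := B) π
  have hcut : ∀ g : D.Γ, ‖cut (hatHom D.Γ) f c g‖ ^ 2 ≤ (K ^ 2 / m₁ + 1) * Q.ev g v := by
    intro g
    have hcg := hc.1 g
    have h1 : ‖f * hatHom D.Γ g * f‖ ≤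
        K * Real.sqrt (∑ j, ‖(p ∘ₗ T g) (Module.finBasis ℝ B j)‖ ^ 2) := by
      refine ContinuousLinearMap.opNorm_le_bound _ (by (clear * - hK; positivity)) fun x => ?_
      have h2 : (f * hatHom D.Γ g * f) x = ((((p ∘ₗ T g) (π x) : B) : E), 0) := by
        simp only [mul_apply_eq_comp]
        rw [hπ x, hφ, ← hT, hp']
        rfl
      have h3 : ‖(f * hatHom D.Γ g * f) x‖ = ‖(p ∘ₗ T g) (π x)‖ := by
        rw [h2, Prod.norm_def]
        simp
      rw [h3]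
      exact hop _ x
    have h4 : ‖cut (hatHom D.Γ) f c g‖ = (c g)⁻¹ * ‖f * hatHom D.Γ g * f‖ := by
      unfold cut
      rw [norm_smul, norm_inv, Real.norm_of_nonneg hcg.le]
    have h5 : ‖cut (hatHom D.Γ) f c g‖ ^ 2 ≤
        K ^ 2 * ∑ j, ((c g)⁻¹ * ‖p (T g (Module.finBasis ℝ B j))‖) ^ 2 := by
      rw [h4, mul_pow]
      have h6 : ‖f * hatHom D.Γ g * f‖ ^ 2 ≤
          K ^ 2 * ∑ j, ‖(p ∘ₗ T g) (Module.finBasis ℝ B j)‖ ^ 2 := by
        have h7 := pow_le_pow_left₀ (norm_nonneg _) h1 2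
        rwa [mul_pow, Real.sq_sqrt (Finset.sum_nonneg fun j _ => sq_nonneg _)] at h7
      have h8 : ∑ j, ((c g)⁻¹ * ‖p (T g (Module.finBasis ℝ B j))‖) ^ 2 =
          (c g)⁻¹ ^ 2 * ∑ j, ‖(p ∘ₗ T g) (Module.finBasis ℝ B j)‖ ^ 2 := by
        rw [Finset.mul_sum]
        refine Finset.sum_congr rfl fun j _ => ?_
        rw [mul_pow]
        rfl
      rw [h8]
      calc (c g)⁻¹ ^ 2 * ‖f * hatHom D.Γ g * f‖ ^ 2
          ≤ (c g)⁻¹ ^ 2 * (K ^ 2 * ∑ j, ‖(p ∘ₗ T g) (Module.finBasis ℝ B j)‖ ^ 2) :=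
            mul_le_mul_of_nonneg_left h6 (sq_nonneg _)
        _ = _ := by ring
    have h9 := hQv g
    have h10 : 0 ≤ ∑ j, ((c g)⁻¹ * ‖p (T g (Module.finBasis ℝ B j))‖) ^ 2 :=
      Finset.sum_nonneg fun j _ => sq_nonneg _
    have h11 : 0 ≤ Q.ev g v := le_trans (mul_nonneg hm₁.le h10) h9
    have h12 : ∑ j, ((c g)⁻¹ * ‖p (T g (Module.finBasis ℝ B j))‖) ^ 2 ≤ Q.ev g v / m₁ := by
      rw [le_div_iff₀ hm₁]
      linarith only [h9]
    calc ‖cut (hatHom D.Γ) f c g‖ ^ 2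
        ≤ K ^ 2 * ∑ j, ((c g)⁻¹ * ‖p (T g (Module.finBasis ℝ B j))‖) ^ 2 := h5
      _ ≤ K ^ 2 * (Q.ev g v / m₁) := mul_le_mul_of_nonneg_left h12 (sq_nonneg _)
      _ = K ^ 2 / m₁ * Q.ev g v := by ring
      _ ≤ (K ^ 2 / m₁ + 1) * Q.ev g v := by linarith only [h11]
  refine ⟨A₀ ^ 2 * (K ^ 2 / m₁ + 1) + (A₀⁻¹ + A₀ * A₀⁻¹ ^ m) *
    (A₀ ^ 2 * (K ^ 2 / m₁ + 1)) ^ (m + 1), by (clear * - hA₀ hm₁; positivity), fun g => ?_⟩
  have hC2 : 0 < K ^ 2 / m₁ + 1 := by (clear * - hm₁; positivity)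
  exact num_grow hA₀ hC2 (hN g).1 (hcut g) (hN g).2

end

end Pool.AF
end

/- Helper16.LDA.H94.AF.Sharp -/
section
open Set Finset

set_option linter.unusedSectionVars false

namespace Pool.AF

/-! ## AF-15 SHARP: a functional that is coercive on an open convex cone modulo its lineality
space -/

private theorem closure_smul_mem {F : Type*} [NormedAddCommGroup F] [NormedSpace ℝ F]
    (C : Set F) (hcone : ∀ x ∈ C, ∀ t : ℝ, 0 < t → t • x ∈ C) (k : F) (hk : k ∈ closure C)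
    (t : ℝ) (ht : 0 < t) : t • k ∈ closure C := by
  have hcont : Continuous (fun x : F => t • x) := continuous_const_smul t
  have h := map_mem_closure hcont hk (fun x hx => hcone x hx t ht)
  exact h

private theorem add_closure_mem {F : Type*} [NormedAddCommGroup F] [NormedSpace ℝ F]
    (C : Set F) (ho : IsOpen C) (hc : Convex ℝ C)
    (hcone : ∀ x ∈ C, ∀ t : ℝ, 0 < t → t • x ∈ C) (x k : F) (hx : x ∈ C)
    (hk : k ∈ closure C) : x + k ∈ C := by
  have hxi : x ∈ interior C := by rw [ho.interior_eq]; exact hx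
  have h := hc.combo_interior_closure_mem_interior hxi hk (a := 1 / 2) (b := 1 / 2)
    (by norm_num) (by norm_num) (by norm_num)
  rw [ho.interior_eq] at h
  have h2 := hcone _ h 2 (by norm_num)
  have he : (2 : ℝ) • ((1 / 2 : ℝ) • x + (1 / 2 : ℝ) • k) = x + k := by
    rw [smul_add, smul_smul, smul_smul]; norm_num
  rwa [he] at h2

theorem exists_coercive {F : Type*} [NormedAddCommGroup F] [NormedSpace ℝ F]
    [FiniteDimensional ℝ F] (C : Set F) (ho : IsOpen C) (hc : Convex ℝ C) (hne : C.Nonempty)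
    (hcone : ∀ x ∈ C, ∀ t : ℝ, 0 < t → t • x ∈ C) (V : Submodule ℝ F)
    (hV : ∀ v, v ∈ V ↔ ∀ x ∈ C, ∀ t : ℝ, x + t • v ∈ C) (e : F →L[ℝ] F)
    (hr : ∀ v, e v ∈ V) (he : ∀ v ∈ V, e v = v) :
    ∃ (ξ : F →ₗ[ℝ] ℝ) (c₀ : ℝ), 0 < c₀ ∧ (∀ v ∈ V, ξ v = 0) ∧ ∀ v ∈ C, c₀ * ‖v - e v‖ ≤ ξ v := by
  classical
  set S : Set F := {w | w ∈ closure C ∧ e w = 0 ∧ ‖w‖ = 1} with hS
  have h0 : (0 : F) ∈ closure C := by
    obtain ⟨x, hx⟩ := hne
    have hlim : Filter.Tendsto (fun n : ℕ => (1 / ((n : ℝ) + 1)) • x) Filter.atTop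
        (nhds ((0 : ℝ) • x)) :=
      (tendsto_one_div_add_atTop_nhds_zero_nat (𝕜 := ℝ)).smul_const x
    rw [zero_smul] at hlim
    refine mem_closure_of_tendsto hlim (Filter.Eventually.of_forall fun n => ?_)
    exact hcone x hx _ (by positivity)
  -- the only common point with the opposite
  have hsharp : ∀ w ∈ S, -w ∉ closure C := by
    rintro w ⟨hw, hew, hw1⟩ hneg
    have hwV : w ∈ V := by
      rw [hV]
      intro x hx t
      rcases lt_trichotomy t 0 with ht | ht | ht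
      · have h := add_closure_mem C ho hc hcone x ((-t) • (-w)) hx
          (closure_smul_mem C hcone _ hneg _ (by linarith))
        rwa [smul_neg, neg_smul, neg_neg] at h
      · rw [ht, zero_smul, add_zero]; exact hx
      · exact add_closure_mem C ho hc hcone x (t • w) hx (closure_smul_mem C hcone _ hw _ ht)
    have : w = 0 := by rw [← he w hwV, hew]
    rw [this, norm_zero] at hw1
    exact zero_ne_one hw1
  have hScomp : IsCompact S := by
    have hcl : IsClosed S := by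
      have h1 : IsClosed {w : F | e w = 0} := isClosed_eq e.continuous continuous_const
      have h2 : IsClosed {w : F | ‖w‖ = 1} := isClosed_eq continuous_norm continuous_const
      have : S = closure C ∩ ({w : F | e w = 0} ∩ {w : F | ‖w‖ = 1}) := by
        ext w
        simp only [hS, Set.mem_setOf_eq, Set.mem_inter_iff]
      rw [this]
      exact isClosed_closure.inter (h1.inter h2)
    refine IsCompact.of_isClosed_subset (isCompact_sphere (0 : F) 1) hcl ?_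
    rintro w ⟨_, _, hw⟩
    simpa using hw
  -- for each point a functional
  have hf : ∀ w ∈ S, ∃ f : F →L[ℝ] ℝ, (∀ k ∈ closure C, 0 ≤ f k) ∧ 0 < f w := by
    intro w hw
    obtain ⟨f, u, hfu, hfk⟩ := geometric_hahn_banach_point_closed hc.closure isClosed_closure
      (hsharp w hw)
    have hu : u < 0 := by simpa using hfk 0 h0
    refine ⟨f, ?_, ?_⟩
    · intro k hk
      by_contra hlt
      rw [not_le] at hlt
      have hpos : 0 < u / f k := div_pos_of_neg_of_neg hu hlt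
      have h := hfk _ (closure_smul_mem C hcone k hk (u / f k) hpos)
      rw [map_smul, smul_eq_mul, div_mul_cancel₀ _ hlt.ne] at h
      exact lt_irrefl _ h
    · rw [map_neg] at hfu
      linarith
  choose! f hf0 hf1 using hf
  obtain ⟨t, htS, ht⟩ := hScomp.elim_nhds_subcover (fun w => {x : F | 0 < f w x}) (by
    intro w hw
    exact (isOpen_lt continuous_const (f w).continuous).mem_nhds (hf1 w hw))
  set g : F →L[ℝ] ℝ := ∑ w ∈ t, f w with hg
  have hgS : ∀ w ∈ S, 0 < g w := by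
    intro w hw
    obtain ⟨i, hi, hwi⟩ := Set.mem_iUnion₂.1 (ht hw)
    rw [hg, _root_.sum_apply]
    refine Finset.sum_pos' (fun j hj => hf0 j (htS j hj) w hw.1) ⟨i, hi, hwi⟩
  obtain ⟨c, hc0, hcS⟩ : ∃ c : ℝ, 0 < c ∧ ∀ w ∈ S, c ≤ g w := by
    rcases S.eq_empty_or_nonempty with hem | hne'
    · exact ⟨1, one_pos, by rw [hem]; simp⟩
    · obtain ⟨w, hw, hmin⟩ := hScomp.exists_isMinOn hne' g.continuous.continuousOn
      exact ⟨g w, hgS w hw, fun w' hw' => hmin hw'⟩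
  refine ⟨(g : F →ₗ[ℝ] ℝ) ∘ₗ (LinearMap.id - (e : F →ₗ[ℝ] F)), c, hc0, ?_, ?_⟩
  · intro v hv
    simp [he v hv]
  · intro v hv
    have hmem : v - e v ∈ closure C := by
      apply subset_closure
      have h := (hV (e v)).1 (hr v) v hv (-1)
      rwa [neg_one_smul, ← sub_eq_add_neg] at h
    have hee : e (v - e v) = 0 := by rw [map_sub, he _ (hr v), sub_self]
    have hval : ((g : F →ₗ[ℝ] ℝ) ∘ₗ (LinearMap.id - (e : F →ₗ[ℝ] F))) v = g (v - e v) := by simp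
    rw [hval]
    rcases eq_or_ne (v - e v) 0 with hz | hz
    · rw [hz]; simp
    · have hn : 0 < ‖v - e v‖ := norm_pos_iff.2 hz
      have hwS : (‖v - e v‖)⁻¹ • (v - e v) ∈ S := by
        refine ⟨closure_smul_mem C hcone _ hmem _ (inv_pos.2 hn), ?_, ?_⟩
        · rw [map_smul, hee, smul_zero]
        · rw [norm_smul, norm_inv, norm_norm, inv_mul_cancel₀ hn.ne']
      have h := hcS _ hwS
      rw [map_smul, smul_eq_mul] at h
      calc c * ‖v - e v‖ ≤ ((‖v - e v‖)⁻¹ * g (v - e v)) * ‖v - e v‖ :=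
            mul_le_mul_of_nonneg_right h hn.le
        _ = g (v - e v) := by (clear * - hz; field_simp)

/-- A functional that is coercive on an open cone bounds linear maps preserving the cone: for
`v` in the cone there is `A` with `‖(1 - e) T‖ ≤ A ξ (T v)` for every `T` mapping the cone to
itself. -/
theorem coercive_bound {F : Type*} [NormedAddCommGroup F] [NormedSpace ℝ F]
    [FiniteDimensional ℝ F] (C : Set F) (ho : IsOpen C) (e : F →L[ℝ] F) (ξ : F →ₗ[ℝ] ℝ) (c₀ : ℝ)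
    (hc₀ : 0 < c₀) (hξ : ∀ v ∈ C, c₀ * ‖v - e v‖ ≤ ξ v) (v : F) (hv : v ∈ C) :
    ∃ A : ℝ, 0 < A ∧ ∀ T : F →L[ℝ] F, (∀ x ∈ C, T x ∈ C) → ‖(1 - e) * T‖ ≤ A * ξ (T v) := by
  obtain ⟨r, hr, hball⟩ := Metric.isOpen_iff.1 ho v hv
  refine ⟨1 / (c₀ * (r / 2)), by positivity, ?_⟩
  intro T hT
  have hTv : 0 ≤ ξ (T v) := le_trans (by positivity) (hξ _ (hT v hv))
  refine ContinuousLinearMap.opNorm_le_bound _ (by positivity) ?_
  intro u
  rcases eq_or_ne u 0 with hu | hu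
  · rw [hu]; simp
  have hun : 0 < ‖u‖ := norm_pos_iff.2 hu
  set δ : ℝ := (r / 2) / ‖u‖ with hδ
  have hδ0 : 0 < δ := by positivity
  have hnorm : ‖δ • u‖ = r / 2 := by
    rw [norm_smul, Real.norm_eq_abs, abs_of_pos hδ0, hδ]; field_simp
  have h1 : v + δ • u ∈ C := hball (by
    rw [Metric.mem_ball, dist_eq_norm, add_sub_cancel_left, hnorm]; linarith)
  have h2 : v - δ • u ∈ C := hball (by
    rw [Metric.mem_ball, dist_eq_norm, sub_sub_cancel_left, norm_neg, hnorm]; linarith only [hr])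
  have k1 := hξ _ (hT _ h1)
  have k2 := hξ _ (hT _ h2)
  set a : F := T v - e (T v) with ha
  set b : F := T u - e (T u) with hb
  have e1 : T (v + δ • u) - e (T (v + δ • u)) = a + δ • b := by
    simp only [map_add, map_smul, ha, hb, smul_sub]; abel
  have e2 : T (v - δ • u) - e (T (v - δ • u)) = a - δ • b := by
    simp only [map_sub, map_smul, ha, hb, smul_sub]; abel
  rw [e1] at k1
  rw [e2] at k2
  have s1 : ξ (T (v + δ • u)) = ξ (T v) + δ * ξ (T u) := by simp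
  have s2 : ξ (T (v - δ • u)) = ξ (T v) - δ * ξ (T u) := by simp
  rw [s1] at k1
  rw [s2] at k2
  have htri : 2 * (δ * ‖b‖) ≤ ‖a + δ • b‖ + ‖a - δ • b‖ := by
    have : (2 : ℝ) • (δ • b) = (a + δ • b) - (a - δ • b) := by
      rw [two_smul]; abel
    have hn := norm_sub_le (a + δ • b) (a - δ • b)
    rw [← this, norm_smul, norm_smul, Real.norm_eq_abs, Real.norm_eq_abs, abs_of_pos hδ0] at hn
    simpa using hn
  have hmain : c₀ * (δ * ‖b‖) ≤ ξ (T v) := by (clear * - k2 k1 hc₀ htri; nlinarith only [hc₀, k2, k1, htri])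
  have hval : ((1 - e) * T) u = b := by simp [hb]
  rw [hval]
  have : ‖b‖ = (c₀ * (δ * ‖b‖)) * (1 / (c₀ * (r / 2)) * ‖u‖) := by
    rw [hδ]; field_simp
  rw [this]
  calc (c₀ * (δ * ‖b‖)) * (1 / (c₀ * (r / 2)) * ‖u‖)
      ≤ ξ (T v) * (1 / (c₀ * (r / 2)) * ‖u‖) := mul_le_mul_of_nonneg_right hmain (by positivity)
    _ = 1 / (c₀ * (r / 2)) * ξ (T v) * ‖u‖ := by ring

end Pool.AF
end

/- Helper16.LDA.H94.AF.BlkC -/
section
open Set Finset

set_option linter.unusedSectionVars false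

namespace Pool.AF

open Pool.SV

/-! ## AF-17 BLKC: the block of a quotient of cone type (uses `exists_norm`,
`exists_coercive`, `coercive_bound`)

The representation is `(c g)⁻¹ g` on `B / A`, identified with `ℝ^d`. -/

section

variable {E : Type*} [NormedAddCommGroup E] [NormedSpace ℝ E] [FiniteDimensional ℝ E]

private theorem growth_aux_pv1 {A₀ A₂ X Y s : ℝ} {m : ℕ} (hA₀ : 0 < A₀) (hA₂ : 0 < A₂)
    (hX : A₀⁻¹ ≤ X) (hY : A₀⁻¹ ≤ Y) (hXs : X ≤ A₂ * s) (hYX : Y ≤ A₀ * X ^ m) :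
    (A₀ * A₂ + A₀ * (A₀ * A₂ ^ (m + 1)))⁻¹ ≤ s ∧
      X ≤ (A₀ * A₂ + A₀ * (A₀ * A₂ ^ (m + 1))) * s ^ (m + 1) ∧
      Y ≤ (A₀ * A₂ + A₀ * (A₀ * A₂ ^ (m + 1))) * s ^ (m + 1) := by
  have hX0 : 0 < X := lt_of_lt_of_le (inv_pos.2 hA₀) hX
  have hY0 : 0 < Y := lt_of_lt_of_le (inv_pos.2 hA₀) hY
  have hs : 0 < s := by
    by_contra h
    have : A₂ * s ≤ 0 := mul_nonpos_of_nonneg_of_nonpos hA₂.le (not_lt.1 h)
    (clear * - hXs hX0 this; linarith only [hXs, hX0, this])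
  have hp : 0 < A₀ * (A₀ * A₂ ^ (m + 1)) := mul_pos hA₀ (mul_pos hA₀ (pow_pos hA₂ _))
  have hq : 0 < A₀ * A₂ := mul_pos hA₀ hA₂
  have hXY : A₀ * (X * Y) ≤ (A₀ * A₂ + A₀ * (A₀ * A₂ ^ (m + 1))) * s ^ (m + 1) := by
    have h1 : X ^ (m + 1) ≤ (A₂ * s) ^ (m + 1) := pow_le_pow_left₀ hX0.le hXs _
    calc A₀ * (X * Y) ≤ A₀ * (X * (A₀ * X ^ m)) :=
          mul_le_mul_of_nonneg_left (mul_le_mul_of_nonneg_left hYX hX0.le) hA₀.le
      _ = A₀ * (A₀ * X ^ (m + 1)) := by ring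
      _ ≤ A₀ * (A₀ * (A₂ * s) ^ (m + 1)) :=
        mul_le_mul_of_nonneg_left (mul_le_mul_of_nonneg_left h1 hA₀.le) hA₀.le
      _ = A₀ * (A₀ * A₂ ^ (m + 1)) * s ^ (m + 1) := by ring
      _ ≤ (A₀ * A₂ + A₀ * (A₀ * A₂ ^ (m + 1))) * s ^ (m + 1) :=
        mul_le_mul_of_nonneg_right (by linarith only [hq]) (pow_pos hs _).le
  rw [inv_le_iff_one_le_mul₀ hA₀] at hX hY
  refine ⟨?_, le_trans ?_ hXY, le_trans ?_ hXY⟩
  · rw [inv_le_iff_one_le_mul₀ (by (clear * - hp hq; linarith only [hp, hq]))]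
    have h2 : 0 < s * (A₀ * (A₀ * A₂ ^ (m + 1))) := mul_pos hs hp
    (clear * - hXs hX0 hX h2; nlinarith only [hX, hXs, hX0, h2])
  · (clear * - hY hA₀ hX; nlinarith only [hA₀, hX, hY])
  · nlinarith only [hA₀, hX, hY]

private theorem idem_apply {e : Alg E} (he : e * e = e) (v : E × ℝ) : e (e v) = e v := by
  have := congrArg (fun T : Alg E => T v) he
  simpa using this

private theorem finrank_aux {A B : Submodule ℝ E} (hAB : A < B) (f : Alg E) (hff : f * f = f)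
    (hB : ∀ v, (f v).2 = 0 ∧ (f v).1 ∈ B) (hA : ∀ a ∈ A, f (a, 0) = 0) :
    Module.finrank ℝ (LinearMap.range (f : (E × ℝ) →ₗ[ℝ] (E × ℝ))) + Module.finrank ℝ A ≤
      Module.finrank ℝ B := by
  let L : B →ₗ[ℝ] (E × ℝ) :=
    (f : (E × ℝ) →ₗ[ℝ] (E × ℝ)) ∘ₗ (LinearMap.inl ℝ E ℝ) ∘ₗ B.subtype
  have h1 : LinearMap.range (f : (E × ℝ) →ₗ[ℝ] (E × ℝ)) ≤ LinearMap.range L := by
    rintro _ ⟨v, rfl⟩
    refine ⟨⟨(f v).1, (hB v).2⟩, ?_⟩
    change f ((f v).1, 0) = f v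
    have h2 : (((f v).1, 0) : E × ℝ) = f v := by
      ext
      · rfl
      · exact (hB v).1.symm
    rw [h2]
    exact idem_apply hff v
  have h2 := Submodule.finrank_mono h1
  have h3 := LinearMap.finrank_range_add_finrank_ker L
  have h4 : A.submoduleOf B ≤ LinearMap.ker L := by
    intro a ha
    have ha' : (a : E) ∈ A := ha
    exact hA a ha'
  have h5 := Submodule.finrank_mono h4
  have h6 : Module.finrank ℝ (A.submoduleOf B) = Module.finrank ℝ A :=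
    LinearEquiv.finrank_eq (Submodule.submoduleOfEquivOfLe hAB.le)
  omega

theorem blk_cone (D : Geo E) (A B : Submodule ℝ E) (hAB : A < B)
    (hA : ∀ g ∈ D.Γ, ∀ v ∈ A, g.linear v ∈ A) (hB : ∀ g ∈ D.Γ, ∀ v ∈ B, g.linear v ∈ B)
    (hC : ConeType D.Γ A B) (eA eB : Alg E) (hA2 : eA * eA = eA) (hB2 : eB * eB = eB)
    (hAr : ∀ v : E × ℝ, eA v = v ↔ v.2 = 0 ∧ v.1 ∈ A)
    (hBr : ∀ v : E × ℝ, eB v = v ↔ v.2 = 0 ∧ v.1 ∈ B) (hAB1 : eA * eB = eA)
    (hAB2 : eB * eA = eA) :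
    ∃ (c : D.Γ → ℝ) (Q : Blk D.Γ) (b : ℕ), PosMul c ∧
      Q.d + Module.finrank ℝ A ≤ Module.finrank ℝ B ∧
      ∀ v ∈ Q.C, Grow (cut (hatHom D.Γ) (eB - eA) c) (fun g => Q.ev g v) b := by
  classical
  obtain ⟨C, U, hU, hCU, hCne, hCc, hCs, hClin, hCinv⟩ := hC
  obtain ⟨f, hfdef⟩ : ∃ f : Alg E, f = eB - eA := ⟨_, rfl⟩
  rw [← hfdef]
  have hff : f * f = f := by
    rw [hfdef, mul_sub, sub_mul, sub_mul, hA2, hB2, hAB1, hAB2]
    simp
  have hfv : ∀ v, f v = eB v - eA v := by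
    intro v
    rw [hfdef]
    rfl
  -- elements of `A × 0` and `B × 0`
  have hφA : ∀ (g : D.Γ) (v : E × ℝ), eA v = v → eA (hatHom D.Γ g v) = hatHom D.Γ g v := by
    intro g v hv
    rw [hAr] at hv ⊢
    change (hat g.1 v).2 = 0 ∧ (hat g.1 v).1 ∈ A
    rw [hat_apply]
    refine ⟨hv.1, ?_⟩
    simp only [hv.1, zero_smul, add_zero]
    exact hA g.1 g.2 _ hv.2
  have hφB : ∀ (g : D.Γ) (v : E × ℝ), eB v = v → eB (hatHom D.Γ g v) = hatHom D.Γ g v := by
    intro g v hv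
    rw [hBr] at hv ⊢
    change (hat g.1 v).2 = 0 ∧ (hat g.1 v).1 ∈ B
    rw [hat_apply]
    refine ⟨hv.1, ?_⟩
    simp only [hv.1, zero_smul, add_zero]
    exact hB g.1 g.2 _ hv.2
  have hAiB : ∀ v : E × ℝ, eA v = v → eB v = v := by
    intro v hv
    rw [hAr] at hv
    rw [hBr]
    exact ⟨hv.1, hAB.le hv.2⟩
  have hfA : ∀ v : E × ℝ, eA v = v → f v = 0 := by
    intro v hv
    rw [hfv, hv, hAiB v hv, sub_self]
  have heBf : ∀ v, eB (f v) = f v := by
    intro v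
    have h1 : eB * f = f := by
      rw [hfdef, mul_sub, hB2, hAB2]
    have := congrArg (fun T : Alg E => T v) h1
    simpa using this
  have hfB : ∀ v, (f v).2 = 0 ∧ (f v).1 ∈ B := fun v => (hBr _).1 (heBf v)
  have hmul : ∀ g h : D.Γ, f * hatHom D.Γ (g * h) * f =
      (f * hatHom D.Γ g * f) * (f * hatHom D.Γ h * f) := by
    intro g h
    apply ContinuousLinearMap.ext
    intro v
    rw [map_mul]
    change f (hatHom D.Γ g (hatHom D.Γ h (f v))) =
      f (hatHom D.Γ g (f (f (hatHom D.Γ h (f v)))))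
    rw [idem_apply hff, hfv (hatHom D.Γ h (f v)), hφB h _ (heBf v), map_sub, map_sub,
      hfA _ (hφA g _ (idem_apply hA2 _)), sub_zero]
  -- points of `C`
  have hfC : ∀ v : E × ℝ, v.2 = 0 → v.1 ∈ C → (f v).1 ∈ C := by
    intro v hv2 hv1
    have h1 : eB v = v := by
      rw [hBr]
      refine ⟨hv2, ?_⟩
      rw [hCU] at hv1
      exact hv1.2
    have h2 := (hAr (eA v)).1 (idem_apply hA2 v)
    rw [hfv, h1]
    have h3 := (hClin _ (hAB.le h2.2)).1 h2.2 _ hv1 (-1)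
    simpa [sub_eq_add_neg] using h3
  have hf0 : f ≠ 0 := by
    intro h
    obtain ⟨b, hb, hbA⟩ := SetLike.exists_of_lt hAB
    have h1 : f (b, 0) = 0 := by
      rw [h]
      rfl
    rw [hfv, (hBr (b, 0)).2 ⟨rfl, hb⟩, sub_eq_zero] at h1
    exact hbA ((hAr (b, 0)).1 h1.symm).2
  obtain ⟨c, hc, A₀, m, hA₀, hcut⟩ := exists_norm (hatHom D.Γ) f hff hf0 hmul
  -- the space `W`
  let W : Submodule ℝ (E × ℝ) := LinearMap.range (f : (E × ℝ) →ₗ[ℝ] (E × ℝ))
  have hWf : ∀ w : W, f (w : E × ℝ) = w := by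
    rintro ⟨_, v, rfl⟩
    exact idem_apply hff v
  have hWB : ∀ w : W, (w : E × ℝ).2 = 0 ∧ (w : E × ℝ).1 ∈ B := by
    intro w
    rw [← hWf w]
    exact hfB _
  let CW : Set W := {w | (w : E × ℝ).1 ∈ C}
  have hCWopen : IsOpen CW := by
    have h1 : CW = (fun w : W => (w : E × ℝ).1) ⁻¹' U := by
      ext w
      change (w : E × ℝ).1 ∈ C ↔ (w : E × ℝ).1 ∈ U
      rw [hCU]
      exact ⟨fun h => h.1, fun h => ⟨h, (hWB w).2⟩⟩
    rw [h1]
    exact hU.preimage (continuous_fst.comp continuous_subtype_val)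
  have hCWconvex : Convex ℝ CW :=
    hCc.linear_preimage ((LinearMap.fst ℝ E ℝ) ∘ₗ W.subtype)
  have hCWne : CW.Nonempty := by
    obtain ⟨x, hx⟩ := hCne
    exact ⟨⟨f (x, 0), ⟨(x, 0), rfl⟩⟩, hfC (x, 0) rfl hx⟩
  have hCWsmul : ∀ x ∈ CW, ∀ t : ℝ, 0 < t → t • x ∈ CW := by
    intro x hx t ht
    exact hCs _ hx t ht
  have hCWlin : ∀ v : W, v ∈ (⊥ : Submodule ℝ W) ↔ ∀ x ∈ CW, ∀ t : ℝ, x + t • v ∈ CW := by
    intro v
    constructor
    · intro hv x hx t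
      rw [Submodule.mem_bot] at hv
      rw [hv, smul_zero, add_zero]
      exact hx
    · intro h
      rw [Submodule.mem_bot]
      have h1 : (v : E × ℝ).1 ∈ A := by
        rw [hClin _ (hWB v).2]
        intro x hx t
        have h2 := h ⟨f (x, 0), ⟨(x, 0), rfl⟩⟩ (hfC (x, 0) rfl hx) t
        have h3 : (f (x, 0)).1 + t • (v : E × ℝ).1 ∈ C := h2
        have hxB : x ∈ B := by
          rw [hCU] at hx
          exact hx.2
        rw [hfv, (hBr (x, 0)).2 ⟨rfl, hxB⟩] at h3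
        have h4 := (hAr (eA (x, 0))).1 (idem_apply hA2 (x, 0))
        have h5 := (hClin _ (hAB.le h4.2)).1 h4.2 _ h3 1
        have h6 : ((x, 0) - eA (x, 0)).1 + t • (v : E × ℝ).1 + (1 : ℝ) • (eA (x, 0)).1 =
            x + t • (v : E × ℝ).1 := by
          rw [Prod.fst_sub, one_smul]
          abel
        rwa [h6] at h5
      have h2 : f (v : E × ℝ) = 0 := hfA _ ((hAr _).2 ⟨(hWB v).1, h1⟩)
      rw [hWf] at h2
      exact Subtype.ext h2
  obtain ⟨ξ, c₀, hc₀, -, hξ⟩ := exists_coercive CW hCWopen hCWconvex hCWne hCWsmul ⊥ hCWlin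
    (0 : W →L[ℝ] W) (fun v => by simp) (fun v hv => by
      rw [Submodule.mem_bot] at hv
      rw [hv]
      simp)
  have hξ' : ∀ w ∈ CW, c₀ * ‖w‖ ≤ ξ w := by
    intro w hw
    simpa using hξ w hw
  have hpos : ∀ w ∈ CW, 0 < ξ w := by
    intro w hw
    rcases eq_or_ne w 0 with h0 | h0
    · exfalso
      rw [h0] at hw
      obtain ⟨δ, hδ, hball⟩ := Metric.isOpen_iff.1 hCWopen 0 hw
      obtain ⟨v, hv⟩ : ∃ v : W, v ≠ 0 := by
        by_contra hcon
        push Not at hcon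
        apply hf0
        apply ContinuousLinearMap.ext
        intro v
        exact congrArg Subtype.val (hcon ⟨f v, ⟨v, rfl⟩⟩)
      have hnv : 0 < ‖v‖ := norm_pos_iff.2 hv
      set w' : W := (δ / (2 * ‖v‖)) • v with hw'
      have hnw' : ‖w'‖ = δ / 2 := by
        rw [hw', norm_smul, Real.norm_of_nonneg (by (clear * - hδ hv; positivity))]
        (clear * - hv hδ; field_simp)
      have h1 : w' ∈ CW := hball (by
        rw [mem_ball_zero_iff, hnw']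
        linarith only [hδ])
      have h2 : -w' ∈ CW := hball (by
        rw [mem_ball_zero_iff, norm_neg, hnw']
        linarith only [hδ])
      have h3 := hξ' _ h1
      have h4 := hξ' _ h2
      rw [norm_neg, map_neg] at h4
      rw [hnw'] at h3 h4
      have h5 : 0 < c₀ * (δ / 2) := by positivity
      linarith only [h3, h4, h5]
    · exact lt_of_lt_of_le (mul_pos hc₀ (norm_pos_iff.2 h0)) (hξ' w hw)
  -- the representation on `W`
  let t : D.Γ → (W →ₗ[ℝ] W) := fun g =>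
    ((f * hatHom D.Γ g : Alg E) : (E × ℝ) →ₗ[ℝ] (E × ℝ)).restrict (p := W) (q := W)
      (fun x _ => ⟨hatHom D.Γ g x, rfl⟩)
  have htapp : ∀ g (w : W), ((t g w : W) : E × ℝ) = f (hatHom D.Γ g w) := fun g w => rfl
  have ht1 : t 1 = LinearMap.id := by
    apply LinearMap.ext
    intro w
    apply Subtype.ext
    rw [htapp, map_one]
    exact hWf w
  have htm : ∀ g h, t (g * h) = t g ∘ₗ t h := by
    intro g h
    apply LinearMap.ext
    intro w
    apply Subtype.ext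
    rw [LinearMap.comp_apply, htapp, htapp, htapp]
    have h1 := congrArg (fun T : Alg E => T (w : E × ℝ)) (hmul g h)
    change f (hatHom D.Γ (g * h) (f w)) =
      f (hatHom D.Γ g (f (f (hatHom D.Γ h (f w))))) at h1
    rwa [idem_apply hff, hWf] at h1
  have htC : ∀ g, ∀ w ∈ CW, t g w ∈ CW := by
    intro g w hw
    change (f (hatHom D.Γ g w)).1 ∈ C
    have h1 : hatHom D.Γ g (w : E × ℝ) = (g.1.linear (w : E × ℝ).1, 0) := by
      change hat g.1 (w : E × ℝ) = _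
      rw [hat_apply, (hWB w).1]
      simp
    rw [h1]
    exact hfC _ rfl (hCinv g.1 g.2 _ hw)
  have hc1 : c 1 = 1 := by
    have h2 := hc.2 1 1
    rw [mul_one] at h2
    have := hc.1 1
    (clear * - h2 this; nlinarith only [h2, this])
  have hcinv : ∀ g, c g⁻¹ = (c g)⁻¹ := by
    intro g
    have h1 := hc.2 g g⁻¹
    rw [mul_inv_cancel, hc1] at h1
    exact eq_inv_of_mul_eq_one_right h1.symm
  let ε : W ≃ₗ[ℝ] (Fin (Module.finrank ℝ W) → ℝ) := (Module.finBasis ℝ W).equivFun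
  let Q : Blk D.Γ :=
    { d := Module.finrank ℝ W
      ρ :=
        { toFun := fun g => ε.toLinearMap ∘ₗ ((c g)⁻¹ • t g) ∘ₗ ε.symm.toLinearMap
          map_one' := by
            apply LinearMap.ext
            intro v
            simp [ht1, hc1]
          map_mul' := by
            intro g h
            apply LinearMap.ext
            intro v
            simp only [LinearMap.comp_apply, LinearEquiv.coe_coe, LinearMap.smul_apply,
              Module.End.mul_apply, LinearEquiv.symm_apply_apply, htm, hc.2, map_smul,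
              smul_smul, mul_inv]
            rw [mul_comm] }
      C := ε.symm.toLinearMap ⁻¹' CW
      ξ := ξ ∘ₗ ε.symm.toLinearMap
      isOpen := hCWopen.preimage (LinearMap.continuous_of_finiteDimensional _)
      convex := hCWconvex.linear_preimage _
      nonempty := by
        obtain ⟨w, hw⟩ := hCWne
        refine ⟨ε w, ?_⟩
        change ε.symm (ε w) ∈ CW
        rwa [LinearEquiv.symm_apply_apply]
      smul_mem := by
        intro v hv s hs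
        change ε.symm (s • v) ∈ CW
        rw [map_smul]
        exact hCWsmul _ hv s hs
      inv := by
        intro g v hv
        change ε.symm (ε ((c g)⁻¹ • t g (ε.symm v))) ∈ CW
        rw [LinearEquiv.symm_apply_apply]
        exact hCWsmul _ (htC g _ hv) _ (inv_pos.2 (hc.1 g))
      pos := by
        intro v hv
        exact hpos _ hv }
  refine ⟨c, Q, m + 1, hc, ?_, ?_⟩
  · exact finrank_aux hAB f hff hfB (fun a ha => hfA _ ((hAr (a, 0)).2 ⟨rfl, ha⟩))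
  · intro v hv
    have hv' : ε.symm v ∈ CW := hv
    have hev : ∀ g, Q.ev g v = c g * ξ (t g⁻¹ (ε.symm v)) := by
      intro g
      change ξ (ε.symm (ε ((c g⁻¹)⁻¹ • t g⁻¹ (ε.symm v)))) = _
      rw [LinearEquiv.symm_apply_apply, hcinv, inv_inv, map_smul, smul_eq_mul]
    obtain ⟨A₁, hA₁, hT⟩ := coercive_bound CW hCWopen (0 : W →L[ℝ] W) ξ c₀ hc₀ hξ _ hv'
    have hA₂ : 0 < A₁ * ‖f‖ := mul_pos hA₁ (norm_pos_iff.2 hf0)
    refine ⟨_, add_pos (mul_pos hA₀ hA₂) (mul_pos hA₀ (mul_pos hA₀ (pow_pos hA₂ (m + 1)))), ?_⟩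
    intro g
    have hnc : ∀ h : D.Γ, ‖cut (hatHom D.Γ) f c h‖ = (c h)⁻¹ * ‖f * hatHom D.Γ h * f‖ := by
      intro h
      rw [cut, norm_smul, norm_inv, Real.norm_of_nonneg (hc.1 h).le]
    have hX : A₀⁻¹ ≤ ‖cut (hatHom D.Γ) f c g⁻¹‖ := (hcut g⁻¹).1
    have hY : A₀⁻¹ ≤ ‖cut (hatHom D.Γ) f c g‖ := (hcut g).1
    have hYX : ‖cut (hatHom D.Γ) f c g‖ ≤ A₀ * ‖cut (hatHom D.Γ) f c g⁻¹‖ ^ m := by
      have := (hcut g⁻¹).2
      rwa [inv_inv] at this
    have hXs : ‖cut (hatHom D.Γ) f c g⁻¹‖ ≤ A₁ * ‖f‖ * Q.ev g v := by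
      rw [hnc, hcinv, inv_inv, hev]
      have h1 := hT (LinearMap.toContinuousLinearMap (t g⁻¹)) (htC g⁻¹)
      rw [sub_zero, one_mul] at h1
      have h2 : ‖f * hatHom D.Γ g⁻¹ * f‖ ≤
          ‖LinearMap.toContinuousLinearMap (t g⁻¹)‖ * ‖f‖ := by
        refine ContinuousLinearMap.opNorm_le_bound _ (by (clear * - hf0; positivity)) ?_
        intro x
        have h3 := (LinearMap.toContinuousLinearMap (t g⁻¹)).le_opNorm ⟨f x, ⟨x, rfl⟩⟩
        have h4 : ‖(LinearMap.toContinuousLinearMap (t g⁻¹)) ⟨f x, ⟨x, rfl⟩⟩‖ =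
            ‖(f * hatHom D.Γ g⁻¹ * f) x‖ := rfl
        have h5 : ‖(⟨f x, ⟨x, rfl⟩⟩ : W)‖ = ‖f x‖ := rfl
        rw [h4, h5] at h3
        refine h3.trans ?_
        rw [mul_assoc]
        exact mul_le_mul_of_nonneg_left (f.le_opNorm x) (norm_nonneg _)
      have h6 : (LinearMap.toContinuousLinearMap (t g⁻¹)) (ε.symm v) = t g⁻¹ (ε.symm v) := rfl
      rw [h6] at h1
      calc c g * ‖f * hatHom D.Γ g⁻¹ * f‖
          ≤ c g * (A₁ * ξ (t g⁻¹ (ε.symm v)) * ‖f‖) :=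
            mul_le_mul_of_nonneg_left
              (h2.trans (mul_le_mul_of_nonneg_right h1 (norm_nonneg _))) (hc.1 g).le
        _ = _ := by ring
    obtain ⟨g1, g2, g3⟩ := growth_aux_pv1 hA₀ hA₂ hX hY hXs hYX
    exact ⟨g1, g3, g2⟩

end

end Pool.AF
end

/- Helper16.LDA.H94.AF.BlkT -/
section
open Set Finset

set_option linter.unusedSectionVars false

namespace Pool.AF

open Pool.SV

/-! ## AF-18 BLKT: the top block: the action on `X` modulo the lineality space (uses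
`exists_norm`, `exists_coercive`, `coercive_bound` for the cone over `X` in `E × ℝ`) -/

section

variable {E : Type*} [NormedAddCommGroup E] [NormedSpace ℝ E] [FiniteDimensional ℝ E]

private theorem growth_aux_pv2 {A₀ A₂ X Y s : ℝ} {m : ℕ} (hA₀ : 0 < A₀) (hA₂ : 0 < A₂)
    (hX : A₀⁻¹ ≤ X) (hXs : X ≤ A₂ * s) (hYX : Y ≤ A₀ * X ^ m) :
    (A₀ * A₂ + A₀ * A₂ ^ (m + 1))⁻¹ ≤ s ∧
      X * Y ≤ (A₀ * A₂ + A₀ * A₂ ^ (m + 1)) * s ^ (m + 1) := by
  have hX0 : 0 < X := lt_of_lt_of_le (inv_pos.2 hA₀) hX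
  have hs : 0 < s := by
    by_contra h
    have : A₂ * s ≤ 0 := mul_nonpos_of_nonneg_of_nonpos hA₂.le (not_lt.1 h)
    (clear * - hXs hX0 this; linarith)
  have hp : 0 < A₀ * A₂ ^ (m + 1) := mul_pos hA₀ (pow_pos hA₂ _)
  have hq : 0 < A₀ * A₂ := mul_pos hA₀ hA₂
  constructor
  · rw [inv_le_iff_one_le_mul₀ (by (clear * - hp hq; linarith only [hp, hq]))]
    have h1 : A₀⁻¹ ≤ A₂ * s := hX.trans hXs
    rw [inv_le_iff_one_le_mul₀ hA₀] at h1
    have h2 : 0 < s * (A₀ * A₂ ^ (m + 1)) := mul_pos hs hp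
    (clear * - h1 h2; linarith only [h1, h2])
  · have h1 : X ^ (m + 1) ≤ (A₂ * s) ^ (m + 1) := pow_le_pow_left₀ hX0.le hXs _
    calc X * Y ≤ X * (A₀ * X ^ m) := mul_le_mul_of_nonneg_left hYX hX0.le
      _ = A₀ * X ^ (m + 1) := by ring
      _ ≤ A₀ * (A₂ * s) ^ (m + 1) := mul_le_mul_of_nonneg_left h1 hA₀.le
      _ = A₀ * A₂ ^ (m + 1) * s ^ (m + 1) := by ring
      _ ≤ (A₀ * A₂ + A₀ * A₂ ^ (m + 1)) * s ^ (m + 1) :=
        mul_le_mul_of_nonneg_right (by linarith only [hq]) (pow_pos hs _).le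

/-- The cone over the domain. -/
private def coneX (X : Set E) : Set (E × ℝ) := {v | 0 < v.2 ∧ (v.2)⁻¹ • v.1 ∈ X}

private theorem coneX_isOpen {X : Set E} (hX : IsOpen X) : IsOpen (coneX X) := by
  have h : coneX X = {v : E × ℝ | 0 < v.2} ∩
      (fun v : E × ℝ => (v.2)⁻¹ • v.1) ⁻¹' X := rfl
  rw [h]
  refine ContinuousOn.isOpen_inter_preimage ?_ ?_ hX
  · refine ContinuousOn.smul ?_ continuousOn_fst
    refine ContinuousOn.inv₀ continuousOn_snd ?_
    intro v hv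
    exact (ne_of_gt hv)
  · exact isOpen_lt continuous_const continuous_snd

private theorem coneX_smul {X : Set E} {v : E × ℝ} (hv : v ∈ coneX X) {t : ℝ} (ht : 0 < t) :
    t • v ∈ coneX X := by
  obtain ⟨h1, h2⟩ := hv
  refine ⟨?_, ?_⟩
  · simpa using mul_pos ht h1
  · have : ((t • v).2)⁻¹ • (t • v).1 = (v.2)⁻¹ • v.1 := by
      simp only [Prod.smul_snd, Prod.smul_fst, smul_eq_mul, smul_smul]
      congr 1
      field_simp
    rw [this]
    exact h2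

private theorem mem_coneX_iff {X : Set E} {v : E × ℝ} :
    v ∈ coneX X ↔ ∃ (r : ℝ) (x : E), 0 < r ∧ x ∈ X ∧ v = (r • x, r) := by
  constructor
  · rintro ⟨h1, h2⟩
    refine ⟨v.2, (v.2)⁻¹ • v.1, h1, h2, ?_⟩
    ext
    · simp [smul_smul, mul_inv_cancel₀ h1.ne']
    · rfl
  · rintro ⟨r, x, hr, hx, rfl⟩
    refine ⟨hr, ?_⟩
    simp only [smul_smul, inv_mul_cancel₀ hr.ne', one_smul]
    exact hx

private theorem coneX_convex {X : Set E} (hX : Convex ℝ X) : Convex ℝ (coneX X) := by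
  intro v hv w hw a b ha hb hab
  rw [mem_coneX_iff] at hv hw ⊢
  obtain ⟨r, x, hr, hx, rfl⟩ := hv
  obtain ⟨s, y, hs, hy, rfl⟩ := hw
  have h1 : 0 < a * r + b * s := by
    rcases ha.eq_or_lt with h | h
    · rw [← h]
      have : b = 1 := by linarith only [hab, h]
      rw [this]
      (clear * - hs; linarith)
    · have := mul_pos h hr
      have := mul_nonneg hb hs.le
      linarith
  refine ⟨a * r + b * s, (a * r / (a * r + b * s)) • x + (b * s / (a * r + b * s)) • y, h1, ?_,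
    ?_⟩
  · refine hX hx hy (div_nonneg (mul_nonneg ha hr.le) h1.le)
      (div_nonneg (mul_nonneg hb hs.le) h1.le) ?_
    rw [← add_div, div_self h1.ne']
  · ext
    · simp only [Prod.fst_add, Prod.smul_fst, smul_add, smul_smul]
      congr 2 <;> (clear * - h1 hr hs; field_simp)
    · simp

private theorem ee_apply {e : Alg E} (he : e * e = e) (v : E × ℝ) : e (e v) = e v := by
  have := congrArg (fun T : Alg E => T v) he
  simpa using this

theorem blk_top (D : Geo E) (V : Submodule ℝ E) (hV : ∀ v, v ∈ V ↔ v ∈ Lin D.X) (e : Alg E)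
    (he : e * e = e) (hr : ∀ v : E × ℝ, e v = v ↔ v.2 = 0 ∧ v.1 ∈ V) :
    ∃ (c : D.Γ → ℝ) (ξ : (E × ℝ) →ₗ[ℝ] ℝ) (b : ℕ), PosMul c ∧ (∀ v ∈ V, ξ (v, 0) = 0) ∧
      (∀ x ∈ D.X, 0 < ξ (x, 1)) ∧ (∀ u ∈ Rec D.X, u ∉ V → 0 < ξ (u, 0)) ∧
      ∀ x ∈ D.X, Grow (fun g : D.Γ => (1 - e) * hatHom D.Γ g * (1 - e))
        (fun g => c g * ξ (hatHom D.Γ g⁻¹ (x, 1))) b := by
  classical
  -- the functional
  have hVC : ∀ v, v ∈ V.prod (⊥ : Submodule ℝ ℝ) ↔
      ∀ x ∈ coneX D.X, ∀ t : ℝ, x + t • v ∈ coneX D.X := by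
    intro v
    constructor
    · rintro ⟨h1, h2⟩ x hx t
      have h2' : v.2 = 0 := h2
      rw [mem_coneX_iff] at hx ⊢
      obtain ⟨r, y, hr0, hy, rfl⟩ := hx
      refine ⟨r, y + (t / r) • v.1, hr0, (hV v.1).1 h1 y hy _, ?_⟩
      ext
      · simp only [Prod.fst_add, Prod.smul_fst, smul_add, smul_smul]
        congr 2
        (clear * - hr0; field_simp)
      · simp [h2']
    · intro h
      obtain ⟨x, hx⟩ := D.nonempty
      have hmem : ∀ y ∈ D.X, ((y, 1) : E × ℝ) ∈ coneX D.X := fun y hy =>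
        ⟨by norm_num, by simpa using hy⟩
      have h2 : v.2 = 0 := by
        by_contra h0
        have h3 := (h (x, 1) (hmem x hx) (-(v.2)⁻¹)).1
        simp only [Prod.snd_add, Prod.smul_snd, smul_eq_mul, neg_mul] at h3
        rw [inv_mul_cancel₀ h0] at h3
        norm_num at h3
      refine ⟨(hV v.1).2 ?_, h2⟩
      intro y hy t
      have h3 := (h (y, 1) (hmem y hy) t).2
      simpa [h2] using h3
  have hr' : ∀ v, e v ∈ V.prod (⊥ : Submodule ℝ ℝ) := by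
    intro v
    have h1 := (hr (e v)).1 (ee_apply he v)
    exact ⟨h1.2, h1.1⟩
  have he' : ∀ v ∈ V.prod (⊥ : Submodule ℝ ℝ), e v = v := by
    rintro v ⟨h1, h2⟩
    exact (hr v).2 ⟨h2, h1⟩
  have hmem : ∀ y ∈ D.X, ((y, 1) : E × ℝ) ∈ coneX D.X := fun y hy =>
    ⟨by norm_num, by simpa using hy⟩
  have hopen := coneX_isOpen D.isOpen
  obtain ⟨ξ, c₀, hc₀, hξV, hξ⟩ := exists_coercive (coneX D.X) hopen (coneX_convex D.convex)
    (by
      obtain ⟨x, hx⟩ := D.nonempty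
      exact ⟨(x, 1), hmem x hx⟩)
    (fun x hx t ht => coneX_smul hx ht) (V.prod ⊥) hVC e hr' he'
  -- invariance
  have hinv : ∀ g : D.Γ, ∀ v ∈ coneX D.X, hatHom D.Γ g v ∈ coneX D.X := by
    intro g v hv
    rw [mem_coneX_iff] at hv ⊢
    obtain ⟨r, y, hr0, hy, rfl⟩ := hv
    refine ⟨r, g.1 y, hr0, D.inv g.1 g.2 y hy, ?_⟩
    change hat g.1 (r • y, r) = _
    rw [hat_apply, aff_eq g.1 y]
    simp
  have hlin : ∀ g : D.Γ, ∀ v ∈ V, g.1.linear v ∈ V := by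
    intro g v hv
    rw [hV] at hv ⊢
    intro x hx t
    have h1 : (g⁻¹ : D.Γ).1 x ∈ D.X := D.inv _ (g⁻¹ : D.Γ).2 x hx
    have h2 := D.inv g.1 g.2 _ (hv _ h1 t)
    have h3 : g.1 ((g⁻¹ : D.Γ).1 x) = x := by
      have : (g.1 * (g⁻¹ : D.Γ).1) x = x := by
        have h4 : g.1 * (g⁻¹ : D.Γ).1 = 1 := by simp
        rw [h4]
        rfl
      exact this
    have h5 : g.1 ((g⁻¹ : D.Γ).1 x + t • v) = x + t • g.1.linear v := by
      rw [aff_eq, map_add, map_smul]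
      rw [aff_eq g.1] at h3
      rw [add_right_comm, h3]
    rwa [h5] at h2
  -- the idempotent
  have hf : (1 - e) * (1 - e) = 1 - e := by
    rw [mul_sub, sub_mul, sub_mul, he]
    simp
  have hφe : ∀ g : D.Γ, (1 - e) * (hatHom D.Γ g * e) = 0 := by
    intro g
    apply ContinuousLinearMap.ext
    intro v
    have h1 : e (hatHom D.Γ g (e v)) = hatHom D.Γ g (e v) := by
      rw [hr]
      have h2 := (hr (e v)).1 (ee_apply he v)
      change (hat g.1 (e v)).2 = 0 ∧ (hat g.1 (e v)).1 ∈ V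
      rw [hat_apply]
      refine ⟨h2.1, ?_⟩
      simp only [h2.1, zero_smul, add_zero]
      exact hlin g _ h2.2
    change hatHom D.Γ g (e v) - e (hatHom D.Γ g (e v)) = 0
    rw [h1, sub_self]
  have hmul : ∀ g h : D.Γ, (1 - e) * hatHom D.Γ (g * h) * (1 - e) =
      ((1 - e) * hatHom D.Γ g * (1 - e)) * ((1 - e) * hatHom D.Γ h * (1 - e)) := by
    intro g h
    have h1 : ((1 - e) * hatHom D.Γ g * (1 - e)) * ((1 - e) * hatHom D.Γ h * (1 - e)) =
        (1 - e) * hatHom D.Γ g * ((1 - e) * (1 - e)) * (hatHom D.Γ h * (1 - e)) := by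
      simp only [mul_assoc]
    have h2 : (1 - e) * hatHom D.Γ g * e = 0 := by
      rw [mul_assoc]
      exact hφe g
    rw [h1, hf, mul_sub ((1 - e) * hatHom D.Γ g), h2, mul_one, sub_zero, map_mul]
    simp only [mul_assoc]
  have hf0 : (1 - e : Alg E) ≠ 0 := by
    intro h
    have h1 := congrArg (fun T : Alg E => T (0, 1)) h
    have h2 : ((0, 1) : E × ℝ) - e (0, 1) = 0 := h1
    have h3 := (hr (0, 1)).1 (sub_eq_zero.1 h2).symm
    have h4 : (1 : ℝ) = 0 := h3.1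
    norm_num at h4
  obtain ⟨c, hc, A₀, m, hA₀, hcut⟩ := exists_norm (hatHom D.Γ) (1 - e) hf hf0 hmul
  -- the height
  have hsnd : ∀ v, (e v).2 = 0 := fun v => ((hr (e v)).1 (ee_apply he v)).1
  have hht : ∀ g : D.Γ, 1 ≤ ‖(1 - e) * hatHom D.Γ g * (1 - e)‖ := by
    intro g
    have h1 : (((1 - e) * hatHom D.Γ g * (1 - e)) ((0, 1) : E × ℝ)).2 = 1 := by
      have h2 : ∀ v : E × ℝ, ((1 - e : Alg E) v).2 = v.2 := by
        intro v
        change (v - e v).2 = v.2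
        rw [Prod.snd_sub, hsnd, sub_zero]
      have h3 : ∀ v : E × ℝ, (hatHom D.Γ g v).2 = v.2 := fun v => rfl
      change ((1 - e : Alg E) (hatHom D.Γ g ((1 - e : Alg E) (0, 1)))).2 = 1
      rw [h2, h3, h2]
    have h2 := ((1 - e) * hatHom D.Γ g * (1 - e)).le_opNorm ((0, 1) : E × ℝ)
    have h3 : ‖((0, 1) : E × ℝ)‖ = 1 := by
      simp [Prod.norm_def]
    rw [h3, mul_one] at h2
    have h4 := norm_snd_le (((1 - e) * hatHom D.Γ g * (1 - e)) ((0, 1) : E × ℝ))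
    rw [h1, norm_one] at h4
    exact h4.trans h2
  refine ⟨c, ξ, m + 1, hc, ?_, ?_, ?_, ?_⟩
  · intro v hv
    exact hξV (v, 0) ⟨hv, rfl⟩
  · intro x hx
    refine lt_of_lt_of_le (mul_pos hc₀ (norm_pos_iff.2 ?_)) (hξ (x, 1) (hmem x hx))
    intro h
    have h3 := (hr (x, 1)).1 (sub_eq_zero.1 h).symm
    have h4 : (1 : ℝ) = 0 := h3.1
    norm_num at h4
  · intro u hu huV
    by_contra hcon
    push Not at hcon
    obtain ⟨x, hx⟩ := D.nonempty
    set n : ℝ := ‖((u, 0) : E × ℝ) - e (u, 0)‖ with hn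
    have hn0 : 0 < n := by
      rw [hn, norm_pos_iff]
      intro h
      exact huV ((hr (u, 0)).1 (sub_eq_zero.1 h).symm).2
    set k : ℝ := ‖((x, 1) : E × ℝ) - e (x, 1)‖ with hk
    have key : ∀ t : ℝ, 0 ≤ t → c₀ * (t * n) ≤ ξ (x, 1) + c₀ * k := by
      intro t ht
      have h1 := hξ _ (hmem _ (hu x hx t ht))
      have h2 : ((x + t • u, 1) : E × ℝ) = (x, 1) + t • (u, 0) := by
        ext <;> simp
      rw [h2, map_add, map_add, map_smul, map_smul] at h1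
      have h3 : t • (((u, 0) : E × ℝ) - e (u, 0)) =
          ((x, 1) + t • (u, 0) - (e (x, 1) + t • e (u, 0))) - ((x, 1) - e (x, 1)) := by
        rw [smul_sub]
        abel
      have h4 : t * n ≤ ‖(x, 1) + t • (u, 0) - (e (x, 1) + t • e (u, 0))‖ + k := by
        have h5 : ‖t • (((u, 0) : E × ℝ) - e (u, 0))‖ = t * n := by
          rw [norm_smul, Real.norm_of_nonneg ht]
        rw [← h5, h3]
        exact norm_sub_le _ _
      have h6 : t * ξ (u, 0) ≤ 0 := mul_nonpos_of_nonneg_of_nonpos ht hcon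
      have h7 := mul_le_mul_of_nonneg_left h4 hc₀.le
      rw [smul_eq_mul] at h1
      linarith only [h1, h6, h7]
    have hk0 : 0 ≤ ξ (x, 1) + c₀ * k := by
      have := key 0 le_rfl
      simpa using this
    have h1 := key ((ξ (x, 1) + c₀ * k + 1) / (c₀ * n)) (by (clear * - hk0 hc₀ hn0; positivity))
    have h2 : c₀ * ((ξ (x, 1) + c₀ * k + 1) / (c₀ * n) * n) = ξ (x, 1) + c₀ * k + 1 := by
      (clear * - hc₀ hn0 hk0; field_simp)
    linarith only [h1, h2]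
  · intro x hx
    obtain ⟨A₁, hA₁, hT⟩ := coercive_bound (coneX D.X) hopen e ξ c₀ hc₀ hξ (x, 1) (hmem x hx)
    have hA₂ : 0 < A₁ * ‖(1 - e : Alg E)‖ := mul_pos hA₁ (norm_pos_iff.2 hf0)
    refine ⟨_, add_pos (mul_pos hA₀ hA₂) (mul_pos hA₀ (pow_pos hA₂ (m + 1))), ?_⟩
    intro g
    have hcg : 0 < c g := hc.1 g
    have hcg' : c g⁻¹ = (c g)⁻¹ := by
      have h1 := hc.2 g g⁻¹
      have h2 := hc.2 1 1
      rw [mul_one] at h2
      have h3 : c 1 = 1 := by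
        have := hc.1 1
        (clear * - h2 this; nlinarith only [h2, this])
      rw [mul_inv_cancel, h3] at h1
      exact eq_inv_of_mul_eq_one_right h1.symm
    have hnc : ∀ h : D.Γ, ‖cut (hatHom D.Γ) (1 - e) c h‖ =
        (c h)⁻¹ * ‖(1 - e) * hatHom D.Γ h * (1 - e)‖ := by
      intro h
      rw [cut, norm_smul, norm_inv, Real.norm_of_nonneg (hc.1 h).le]
    set X := ‖cut (hatHom D.Γ) (1 - e) c g⁻¹‖ with hXdef
    set Y := ‖cut (hatHom D.Γ) (1 - e) c g‖ with hYdef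
    have hX : A₀⁻¹ ≤ X := (hcut g⁻¹).1
    have hYX : Y ≤ A₀ * X ^ m := by
      have := (hcut g⁻¹).2
      rwa [inv_inv] at this
    have hXs : X ≤ A₁ * ‖(1 - e : Alg E)‖ * (c g * ξ (hatHom D.Γ g⁻¹ (x, 1))) := by
      rw [hXdef, hnc, hcg', inv_inv]
      have h1 := hT (hatHom D.Γ g⁻¹) (hinv g⁻¹)
      have h2 := norm_mul_le ((1 - e) * hatHom D.Γ g⁻¹) (1 - e)
      have h3 := mul_le_mul_of_nonneg_right h1 (norm_nonneg (1 - e : Alg E))
      calc c g * ‖(1 - e) * hatHom D.Γ g⁻¹ * (1 - e)‖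
          ≤ c g * (A₁ * ξ (hatHom D.Γ g⁻¹ (x, 1)) * ‖(1 - e : Alg E)‖) :=
            mul_le_mul_of_nonneg_left (h2.trans h3) hcg.le
        _ = _ := by ring
    obtain ⟨g1, g2⟩ := growth_aux_pv2 hA₀ hA₂ hX hXs hYX
    have hXY : ‖(1 - e) * hatHom D.Γ g * (1 - e)‖ * ‖(1 - e) * hatHom D.Γ g⁻¹ * (1 - e)‖ =
        X * Y := by
      rw [hXdef, hYdef, hnc, hnc, hcg', inv_inv]
      (clear * - hcg; field_simp)
    refine ⟨g1, ?_, ?_⟩
    · refine le_trans ?_ g2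
      rw [← hXY]
      exact le_mul_of_one_le_right (norm_nonneg _) (hht g⁻¹)
    · refine le_trans ?_ g2
      rw [← hXY]
      exact le_mul_of_one_le_left (norm_nonneg _) (hht g)

end

end Pool.AF
end

/- Helper16.LDA.H94.AG.ConeBlk -/
section
open Set Finset

set_option linter.unusedSectionVars false

namespace Pool.AF

open Pool.SV

/-! ## AG-1 CONEBLK: a representation preserving a sharp cone, divided by its determinant

`c g = |det (σ g)| ^ (1 / d)`, `ρ g = (c g)⁻¹ • σ g`, `ξ` from `exists_coercive` with `V = ⊥`,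
`coercive_bound` gives `‖ρ g⁻¹‖ ≤ A ξ (ρ g⁻¹ v)`, the adjugate gives `‖ρ g‖ ≤ A ‖ρ g⁻¹‖ ^ m`. -/

private theorem grow_aux {z w s A A1 : ℝ} {m : ℕ} (hA : 0 < A) (hA1 : 0 < A1)
    (h1 : A⁻¹ ≤ z) (h2 : w ≤ A * z ^ m) (h3 : z ≤ A1 * s) :
    (A * A1)⁻¹ ≤ s ∧ w ≤ (A * A1 ^ m * (A * A1)) * s ^ (m + 1) ∧
      z ≤ (A1 * (A * A1) ^ m) * s ^ (m + 1) := by
  have hz : 0 < z := lt_of_lt_of_le (inv_pos.2 hA) h1
  have hs : 0 < s := by
    by_contra hc
    have := mul_nonpos_of_nonneg_of_nonpos hA1.le (not_lt.1 hc)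
    linarith only [h3, hz, this]
  have h4 : 1 ≤ (A * A1) * s := by
    have h5 : A⁻¹ ≤ A1 * s := h1.trans h3
    have h6 := mul_le_mul_of_nonneg_left h5 hA.le
    rw [mul_inv_cancel₀ hA.ne'] at h6
    linarith only [h6]
  refine ⟨?_, ?_, ?_⟩
  · rw [inv_le_iff_one_le_mul₀ (mul_pos hA hA1)]
    linarith only [h4]
  · calc w ≤ A * z ^ m := h2
      _ ≤ A * (A1 * s) ^ m := by gcongr
      _ = (A * A1 ^ m) * s ^ m * 1 := by rw [mul_pow]; ring
      _ ≤ (A * A1 ^ m) * s ^ m * ((A * A1) * s) := by (clear * - h4 hA hA1 hs; gcongr)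
      _ = (A * A1 ^ m * (A * A1)) * s ^ (m + 1) := by ring
  · calc z ≤ A1 * s := h3
      _ = A1 * s * 1 ^ m := by rw [one_pow, mul_one]
      _ ≤ A1 * s * ((A * A1) * s) ^ m := by (clear * - h4 hA1 hs; gcongr)
      _ = (A1 * (A * A1) ^ m) * s ^ (m + 1) := by rw [mul_pow]; ring

theorem blk_of_cone {G : Type*} [Group G] (d : ℕ) (hd : 0 < d)
    (σ : G →* ((Fin d → ℝ) →ₗ[ℝ] (Fin d → ℝ))) (C : Set (Fin d → ℝ)) (hC : SharpCone σ C) :
    ∃ (c : G → ℝ) (ρ : G →* ((Fin d → ℝ) →ₗ[ℝ] (Fin d → ℝ))) (ξ : (Fin d → ℝ) →ₗ[ℝ] ℝ) (b : ℕ),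
      PosMul c ∧ (∀ g v, ρ g v = (c g)⁻¹ • σ g v) ∧ (∀ v ∈ C, 0 < ξ v) ∧
      ∀ v ∈ C, Grow (fun g => LinearMap.toContinuousLinearMap (ρ g)) (fun g => ξ (ρ g⁻¹ v)) b := by
  classical
  haveI : Nonempty (Fin d) := ⟨⟨0, hd⟩⟩
  haveI : Nontrivial (Fin d → ℝ) := inferInstance
  obtain ⟨w0, hw0⟩ := exists_ne (0 : Fin d → ℝ)
  -- zero is not in the cone
  have h0 : (0 : Fin d → ℝ) ∉ C := by
    intro h0
    obtain ⟨r, hr, hball⟩ := Metric.isOpen_iff.1 hC.isOpen 0 h0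
    obtain ⟨x, _, t, hxt⟩ := hC.noLine w0 hw0
    refine hxt ?_
    set y := x + t • w0 with hy
    have hs : 0 < r / (2 * (1 + ‖y‖)) := by (clear * - hr; positivity)
    have h1 : (r / (2 * (1 + ‖y‖))) • y ∈ C := by
      refine hball ?_
      rw [Metric.mem_ball, dist_zero_right, norm_smul, Real.norm_eq_abs, abs_of_pos hs]
      rw [div_mul_eq_mul_div, div_lt_iff₀ (by (clear * -; positivity))]
      have : 0 ≤ ‖y‖ := norm_nonneg _
      nlinarith only [hr, this]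
    have h2 := hC.smul_mem _ h1 (r / (2 * (1 + ‖y‖)))⁻¹ (inv_pos.2 hs)
    rwa [smul_smul, inv_mul_cancel₀ hs.ne', one_smul] at h2
  let φ : G →* ((Fin d → ℝ) →L[ℝ] (Fin d → ℝ)) :=
    { toFun := fun g => LinearMap.toContinuousLinearMap (σ g)
      map_one' := by
        ext x : 1
        show (σ 1) x = x
        rw [map_one]; rfl
      map_mul' := by
        intro g h
        ext x : 1
        show (σ (g * h)) x = (σ g) ((σ h) x)
        rw [map_mul]; rfl }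
  have hφ : ∀ g, φ g = LinearMap.toContinuousLinearMap (σ g) := fun g => rfl
  have h10 : (1 : (Fin d → ℝ) →L[ℝ] (Fin d → ℝ)) ≠ 0 := by
    intro h
    have := congrArg (fun T : (Fin d → ℝ) →L[ℝ] (Fin d → ℝ) => T w0) h
    exact hw0 this
  obtain ⟨c, ⟨hcpos, hcmul⟩, A, m, hA, hAm⟩ := norm_aux φ 1 (one_mul 1) h10
    (by intro g h; rw [map_mul]; simp only [one_mul, mul_one])
  have hc1 : c 1 = 1 := by
    have h1 := hcmul 1 1
    rw [one_mul] at h1
    have h2 := (hcpos 1).ne'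
    field_simp at h1
    (clear * - h1; linarith)
  let ρ : G →* ((Fin d → ℝ) →ₗ[ℝ] (Fin d → ℝ)) :=
    { toFun := fun g => (c g)⁻¹ • σ g
      map_one' := by rw [hc1, map_one, inv_one, one_smul]
      map_mul' := by
        intro g h
        rw [hcmul, map_mul, mul_inv, smul_mul_smul_comm] }
  have hρ : ∀ g v, ρ g v = (c g)⁻¹ • σ g v := fun g v => rfl
  have hρφ : ∀ g, LinearMap.toContinuousLinearMap (ρ g) = (c g)⁻¹ • (1 * φ g * 1) := by
    intro g
    rw [one_mul, mul_one]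
    ext x : 1
    rfl
  obtain ⟨ξ, c₀, hc₀, _, hξ⟩ := exists_coercive C hC.isOpen hC.convex hC.nonempty hC.smul_mem
    (⊥ : Submodule ℝ (Fin d → ℝ)) (by
      intro v
      rw [Submodule.mem_bot]
      constructor
      · intro hv x hx t
        rw [hv, smul_zero, add_zero]
        exact hx
      · intro hv
        by_contra hne
        obtain ⟨x, hx, t, ht⟩ := hC.noLine v hne
        exact ht (hv x hx t)) (0 : (Fin d → ℝ) →L[ℝ] (Fin d → ℝ)) (by intro v; simp) (by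
      intro v hv
      rw [Submodule.mem_bot] at hv
      rw [hv, map_zero])
  refine ⟨c, ρ, ξ, m + 1, ⟨hcpos, hcmul⟩, hρ, ?_, ?_⟩
  · intro v hv
    have h1 := hξ v hv
    have h2 : v ≠ 0 := fun h => h0 (h ▸ hv)
    have h3 : 0 < ‖v‖ := norm_pos_iff.2 h2
    have h4 : ((0 : (Fin d → ℝ) →L[ℝ] (Fin d → ℝ)) v) = 0 := rfl
    rw [h4, sub_zero] at h1
    have := mul_pos hc₀ h3
    linarith
  · intro v hv
    obtain ⟨A1, hA1, hb⟩ := coercive_bound C hC.isOpen (0 : (Fin d → ℝ) →L[ℝ] (Fin d → ℝ)) ξ c₀ hc₀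
      hξ v hv
    have hkey : ∀ g, (A * A1)⁻¹ ≤ ξ (ρ g⁻¹ v) ∧
        ‖LinearMap.toContinuousLinearMap (ρ g)‖ ≤
          (A * A1 ^ m * (A * A1)) * (ξ (ρ g⁻¹ v)) ^ (m + 1) ∧
        ‖LinearMap.toContinuousLinearMap (ρ g⁻¹)‖ ≤
          (A1 * (A * A1) ^ m) * (ξ (ρ g⁻¹ v)) ^ (m + 1) := by
      intro g
      have h1 := hAm g⁻¹
      rw [inv_inv, ← hρφ, ← hρφ] at h1
      have h2 := hb (LinearMap.toContinuousLinearMap (ρ g⁻¹)) (by
        intro x hx
        show (c g⁻¹)⁻¹ • σ g⁻¹ x ∈ C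
        exact hC.smul_mem _ (hC.inv g⁻¹ x hx) _ (inv_pos.2 (hcpos _)))
      rw [sub_zero, one_mul] at h2
      exact grow_aux hA hA1 h1.1 h1.2 h2
    refine ⟨max (A * A1) (max (A * A1 ^ m * (A * A1)) (A1 * (A * A1) ^ m)),
      lt_max_of_lt_left (mul_pos hA hA1), ?_⟩
    intro g
    obtain ⟨h1, h2, h3⟩ := hkey g
    have hs : 0 < ξ (ρ g⁻¹ v) := lt_of_lt_of_le (inv_pos.2 (mul_pos hA hA1)) h1
    refine ⟨?_, ?_, ?_⟩
    · refine le_trans ?_ h1
      exact inv_anti₀ (mul_pos hA hA1) (le_max_left _ _)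
    · refine h2.trans ?_
      refine mul_le_mul_of_nonneg_right ?_ (pow_nonneg hs.le _)
      exact (le_max_left _ _).trans (le_max_right _ _)
    · refine h3.trans ?_
      refine mul_le_mul_of_nonneg_right ?_ (pow_nonneg hs.le _)
      exact (le_max_right _ _).trans (le_max_right _ _)

end Pool.AF
end
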