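import Mathlib
import Pool.Agent.Helper16.CPG.G02
import Pool.Agent.Helper16.CPG.G06
import Pool.Agent.Helper16.CPG.G08
import Pool.Agent.Helper16.CPG.G09
import Pool.Agent.Helper16.CPG.G10
import Pool.Agent.Helper16.CPG.G11

/- Helper16.LDA.H47.HP.Body -/
section
/-! # Project HP: the main lemma -/

set_option autoImplicit false

open Set

namespace Pool.Agent.Helper47.HP

variable {E : Type*} [NormedAddCommGroup E] [NormedSpace ℝ E] [FiniteDimensional ℝ E] (P : Pot E)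

omit [FiniteDimensional ℝ E] in
private theorem body_add_mem {x v : E} (hx : x ∈ P.X) (hv : v ∈ P.V) : x + v ∈ P.X := by
  have h := (P.mem_V v).1 hv x hx 1
  simpa using h

omit [FiniteDimensional ℝ E] in
private theorem body_psi_zero (x₀ : E) (p : E →ₗ[ℝ] ℝ) : P.psi x₀ p 0 = 0 := by
  simp [Pot.psi]

omit [FiniteDimensional ℝ E] in
private theorem body_psi_conv {x₀ : E} (hx₀ : x₀ ∈ P.X) (p : E →ₗ[ℝ] ℝ) {v w : E}
    (hv : v ∈ P.V) (hw : w ∈ P.V) {a b : ℝ} (ha : 0 ≤ a) (hb : 0 ≤ b) (hab : a + b = 1) :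
    P.psi x₀ p (a • v + b • w) ≤ a * P.psi x₀ p v + b * P.psi x₀ p w := by
  have h := P.conv.2 (body_add_mem P hx₀ hv) (body_add_mem P hx₀ hw) ha hb hab
  have e : a • (x₀ + v) + b • (x₀ + w) = x₀ + (a • v + b • w) := by
    have : b = 1 - a := by (clear * - hab; linarith only [hab])
    subst this
    module
  rw [e] at h
  simp only [smul_eq_mul] at h
  have e2 : p (a • v + b • w) = a * p v + b * p w := by
    simp
  have e3 : P.φ x₀ = a * P.φ x₀ + b * P.φ x₀ := by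
    rw [← add_mul, hab, one_mul]
  unfold Pot.psi
  rw [e2]
  linarith only [h, e3]

omit [FiniteDimensional ℝ E] in
private theorem body_psi_smul {x₀ : E} (hx₀ : x₀ ∈ P.X) (p : E →ₗ[ℝ] ℝ) {v : E}
    (hv : v ∈ P.V) {t : ℝ} (ht : 0 ≤ t) (ht1 : t ≤ 1) :
    P.psi x₀ p (t • v) ≤ t * P.psi x₀ p v := by
  have h := body_psi_conv P hx₀ p hv (P.V.zero_mem) ht (sub_nonneg.2 ht1) (by ring)
  rw [smul_zero, add_zero, body_psi_zero, mul_zero, add_zero] at h
  exact h

omit [FiniteDimensional ℝ E] in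
private theorem body_flat (W : Submodule ℝ E) (hW : P.IsFlat W) {x₀ : E} (hx₀ : x₀ ∈ P.X)
    (p : E →ₗ[ℝ] ℝ) (hp : P.Supp p) {w : E} (hw : w ∈ W) :
    P.psi x₀ p w = 0 ∧ P.psi x₀ p (-w) = 0 := by
  obtain ⟨hwV, τ, hτ⟩ := (hW w).1 hw
  obtain ⟨h1, h2⟩ := P.epi_of_flat hwV hτ
  have h3 : p w = τ := (hp _ h1).2 h2
  have h4 := hτ x₀ hx₀ 1
  have h5 := hτ x₀ hx₀ (-1)
  rw [one_smul] at h4
  rw [neg_one_smul] at h5
  unfold Pot.psi
  rw [h4, h5, map_neg, h3]
  constructor <;> ring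

theorem Pot.exists_body_of_ineq (W : Submodule ℝ E) (hW : P.IsFlat W) {x₀ : E} (hx₀ : x₀ ∈ P.X)
    (p : E →ₗ[ℝ] ℝ) (hp : P.Supp p) (A : E →ₗ[ℝ] E) (hA : ∀ v ∈ P.V, A v ∈ P.V) {l κ c : ℝ}
    (hl0 : 0 < l) (hl1 : l < 1) (hκ : 0 ≤ κ)
    (h : ∀ w ∈ P.V, P.psi x₀ p (A ((1 - l) • w)) ≤ κ * P.psi x₀ p w + c) :
    ∃ K, IsBody P.V W K ∧ ∀ v ∈ K, ∃ u ∈ K, A v = ((κ + 1) / (1 - l)) • u := by
  obtain ⟨r, hr1, hrc⟩ : ∃ r : ℝ, 1 ≤ r ∧ c ≤ r := ⟨max c 1, le_max_right _ _, le_max_left _ _⟩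
  have hl1' : 0 < 1 - l := sub_pos.2 hl1
  have hκ1 : 0 < κ + 1 := by linarith only [hκ]
  -- the key estimate
  have key : ∀ w ∈ P.V, P.psi x₀ p w ≤ r →
      P.psi x₀ p ((κ + 1)⁻¹ • A ((1 - l) • w)) ≤ r := by
    intro w hw hwr
    have h1 := h w hw
    have h2 : P.psi x₀ p (A ((1 - l) • w)) ≤ (κ + 1) * r := by
      (clear * - hrc h1 hκ hwr; nlinarith only [hκ, hrc, hwr, h1])
    have h3 : A ((1 - l) • w) ∈ P.V := hA _ (P.V.smul_mem _ hw)
    have h4 := body_psi_smul P hx₀ p h3 (inv_nonneg.2 hκ1.le)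
      (inv_le_one_of_one_le₀ (by linarith : (1 : ℝ) ≤ κ + 1))
    refine h4.trans ?_
    calc (κ + 1)⁻¹ * P.psi x₀ p (A ((1 - l) • w)) ≤ (κ + 1)⁻¹ * ((κ + 1) * r) :=
          mul_le_mul_of_nonneg_left h2 (inv_nonneg.2 hκ1.le)
      _ = r := by rw [← mul_assoc, inv_mul_cancel₀ hκ1.ne', one_mul]
  refine ⟨{v | v ∈ P.V ∧ P.psi x₀ p v ≤ r ∧ P.psi x₀ p (-v) ≤ r}, ?_, ?_⟩
  · refine ⟨fun v hv => hv.1, ?_, ?_, ?_, ?_, ?_⟩
    · intro v hv w hw a b ha hb hab
      refine ⟨P.V.add_mem (P.V.smul_mem _ hv.1) (P.V.smul_mem _ hw.1), ?_, ?_⟩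
      · have h1 := body_psi_conv P hx₀ p hv.1 hw.1 ha hb hab
        have h2 := mul_le_mul_of_nonneg_left hv.2.1 ha
        have h3 := mul_le_mul_of_nonneg_left hw.2.1 hb
        have h4 : a * r + b * r = r := by rw [← add_mul, hab, one_mul]
        linarith
      · have h1 := body_psi_conv P hx₀ p (P.V.neg_mem hv.1) (P.V.neg_mem hw.1) ha hb hab
        have e : a • (-v) + b • (-w) = -(a • v + b • w) := by module
        rw [e] at h1
        have h2 := mul_le_mul_of_nonneg_left hv.2.2 ha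
        have h3 := mul_le_mul_of_nonneg_left hw.2.2 hb
        have h4 : a * r + b * r = r := by rw [← add_mul, hab, one_mul]
        linarith
    · intro v hv
      refine ⟨P.V.neg_mem hv.1, hv.2.2, ?_⟩
      rw [neg_neg]
      exact hv.2.1
    · intro w hw
      obtain ⟨h1, h2⟩ := body_flat P W hW hx₀ p hp hw
      refine ⟨((hW w).1 hw).1, ?_, ?_⟩
      · rw [h1]; linarith
      · rw [h2]; linarith
    · intro v hv
      set M : ℝ := 1 + |P.psi x₀ p v| + |P.psi x₀ p (-v)| with hM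
      have hM1 : 1 ≤ M := by
        have := abs_nonneg (P.psi x₀ p v)
        have := abs_nonneg (P.psi x₀ p (-v))
        linarith
      have hM0 : 0 < M := by linarith
      have aux : ∀ u ∈ P.V, P.psi x₀ p u ≤ M → P.psi x₀ p (M⁻¹ • u) ≤ r := by
        intro u hu huM
        have h4 := body_psi_smul P hx₀ p hu (inv_nonneg.2 hM0.le)
          (inv_le_one_of_one_le₀ hM1)
        refine h4.trans ?_
        have h5 := mul_le_mul_of_nonneg_left huM (inv_nonneg.2 hM0.le)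
        rw [inv_mul_cancel₀ hM0.ne'] at h5
        linarith
      refine ⟨M⁻¹, inv_pos.2 hM0, P.V.smul_mem _ hv, ?_, ?_⟩
      · refine aux v hv ?_
        have := le_abs_self (P.psi x₀ p v)
        have := abs_nonneg (P.psi x₀ p (-v))
        linarith
      · rw [← smul_neg]
        refine aux (-v) (P.V.neg_mem hv) ?_
        have := le_abs_self (P.psi x₀ p (-v))
        have := abs_nonneg (P.psi x₀ p v)
        linarith
    · obtain ⟨ϱ, hϱ⟩ := P.sublevel_bdd W hW hx₀ p hp (r + P.φ x₀)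
      refine ⟨ϱ, fun v hv => hϱ v hv.1 ?_⟩
      have := hv.2.1
      unfold Pot.psi at this
      linarith
  · intro v hv
    refine ⟨(κ + 1)⁻¹ • A ((1 - l) • v), ⟨P.V.smul_mem _ (hA _ (P.V.smul_mem _ hv.1)),
      key v hv.1 hv.2.1, ?_⟩, ?_⟩
    · have h1 := key (-v) (P.V.neg_mem hv.1) hv.2.2
      rw [smul_neg, map_neg, smul_neg] at h1
      exact h1
    · rw [map_smul, smul_smul, smul_smul]
      have e : (κ + 1) / (1 - l) * (κ + 1)⁻¹ * (1 - l) = 1 := by
        (clear * - hκ hl1'; field_simp)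
      rw [e, one_smul]

/-- The main lemma. -/
theorem Pot.exists_body (W : Submodule ℝ E) (hW : P.IsFlat W) {x₀ : E} (hx₀ : x₀ ∈ P.X)
    (p : E →ₗ[ℝ] ℝ) (hp : P.Supp p) (R C' : ℝ) :
    ∃ C : ℝ, 0 ≤ C ∧ ∀ (g : E ≃ᵃ[ℝ] E) (a : E →ᵃ[ℝ] ℝ), (∀ x ∈ P.X, g x ∈ P.X) →
      (∀ x ∈ P.X, g⁻¹ x ∈ P.X) → (∀ x ∈ P.X, P.φ (g x) = P.φ x + a x) → ABdd P.V R g →
      (∀ e ∈ P.epi, e.2 + a.linear e.1 - p (g.linear e.1) ≤ C' * (e.2 - p e.1)) →
      ∃ K, IsBody P.V W K ∧ ∀ v ∈ K, ∃ u ∈ K, g.linear v = C • u := by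
  obtain ⟨l, hl0, hl1, hl⟩ := P.exists_lam hx₀ R
  obtain ⟨M, hM1, hMC⟩ : ∃ M : ℝ, 1 ≤ M ∧ C' ≤ M :=
    ⟨max C' 1, le_max_right _ _, le_max_left _ _⟩
  have hl1' : 0 < 1 - l := sub_pos.2 hl1
  have hM0 : 0 < M := by linarith
  obtain ⟨m, hm⟩ : ∃ m : ℝ, m = 1 - (2 * M)⁻¹ := ⟨_, rfl⟩
  have h2M : 0 < (2 * M)⁻¹ := inv_pos.2 (by linarith only [hM0])
  have h2M' : (2 * M)⁻¹ * (2 * M) = 1 := inv_mul_cancel₀ (by linarith only [hM0] : (2 : ℝ) * M ≠ 0)
  have hm1 : m < 1 := by rw [hm]; linarith only [h2M]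
  have hm1' : 1 - m = (2 * M)⁻¹ := by rw [hm]; ring
  have hm0 : 0 < m := by
    rw [hm]
    nlinarith only [hM1, h2M']
  have hmC : (1 - m) * C' < 1 := by
    rw [hm1']
    (clear * - hM1 hMC h2M'; nlinarith only [hM1, hMC, h2M'])
  have hκ : 0 ≤ (1 - l) / (1 - m) := div_nonneg hl1'.le (by (clear * - hm h2M; linarith))
  refine ⟨((1 - l) / (1 - m) + 1) / (1 - l), div_nonneg (by linarith) hl1'.le, ?_⟩
  intro g a hg hg' ha hR hC
  have hz := hl g hg hg' hR
  obtain ⟨c, hc⟩ := P.main_ineq W hW hx₀ p hp g a hg hg' ha hl0 hl1 hz hm0 hm1 hmC hC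
  have hA : ∀ v ∈ P.V, (g.linear : E →ₗ[ℝ] E) v ∈ P.V := by
    intro v hv
    rw [P.mem_V]
    intro x hx t
    have h1 : g⁻¹ x + t • v ∈ P.X := (P.mem_V v).1 hv _ (hg' x hx) t
    have h2 := hg _ h1
    have h3 : g (g⁻¹ x + t • v) = x + t • (g.linear : E →ₗ[ℝ] E) v := by
      have h4 : g⁻¹ x + t • v = t • v +ᵥ g⁻¹ x := by
        rw [vadd_eq_add, add_comm]
      rw [h4, g.map_vadd]
      have h5 : g (g⁻¹ x) = x := by
        rw [AffineEquiv.inv_def]
        exact g.apply_symm_apply x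
      rw [h5, vadd_eq_add, map_smul, add_comm]
      rfl
    rw [← h3]
    exact h2
  obtain ⟨K, hK, hK'⟩ := P.exists_body_of_ineq W hW hx₀ p hp (g.linear : E →ₗ[ℝ] E) hA
    (c := c) hl0 hl1 hκ (fun w hw => hc w hw)
  exact ⟨K, hK, fun v hv => hK' v hv⟩

end Pool.Agent.Helper47.HP
end

/- Helper16.LDA.H47.HP.Rep -/
section
/-! # Project HP: the linear representation on `E × ℝ` -/

set_option autoImplicit false

open Set

namespace Pool.Agent.Helper47.HP

variable {E : Type*} [NormedAddCommGroup E] [NormedSpace ℝ E] (P : Pot E)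

/-- Affine functions which agree on a nonempty open set are equal. -/
private theorem rep_affine_ext (hne : P.X.Nonempty) (a b : E →ᵃ[ℝ] ℝ)
    (h : ∀ x ∈ P.X, a x = b x) : a = b := by
  obtain ⟨x0, hx0⟩ := hne
  ext y
  have hcont : Continuous (fun t : ℝ => AffineMap.lineMap x0 y t) := by
    have : (fun t : ℝ => AffineMap.lineMap x0 y t) = fun t : ℝ => t • (y - x0) + x0 := by
      funext t
      simp [AffineMap.lineMap_apply]
    rw [this]
    exact (continuous_id.smul continuous_const).add continuous_const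
  have hopen : IsOpen ((fun t : ℝ => AffineMap.lineMap x0 y t) ⁻¹' P.X) :=
    P.isOpen.preimage hcont
  have h0 : (0 : ℝ) ∈ ((fun t : ℝ => AffineMap.lineMap x0 y t) ⁻¹' P.X) := by
    simpa using hx0
  obtain ⟨ε, hε, hball⟩ := Metric.isOpen_iff.1 hopen 0 h0
  have hmem : (ε / 2) ∈ Metric.ball (0 : ℝ) ε := by
    rw [Metric.mem_ball, Real.dist_eq, sub_zero, abs_of_pos (by linarith only [hε])]
    linarith only [hε]
  have hX : AffineMap.lineMap x0 y (ε / 2) ∈ P.X := hball hmem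
  have h1 := h _ hX
  rw [AffineMap.apply_lineMap, AffineMap.apply_lineMap, h x0 hx0] at h1
  simp only [AffineMap.lineMap_apply, vsub_eq_sub, smul_eq_mul, vadd_eq_add] at h1
  have h2 : ε / 2 * (a y - b y) = 0 := by (clear * - h1; linarith)
  rcases mul_eq_zero.1 h2 with h3 | h3
  · (clear * - hε h3; linarith only [hε, h3])
  · linarith only [h3]

private theorem rep_apply_add (g : E ≃ᵃ[ℝ] E) (x v : E) : g (x + v) = g x + g.linear v := by
  have := g.map_vadd x v
  simp only [vadd_eq_add] at this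
  rw [add_comm x v, this, add_comm]

private theorem rep_apply_add' (a : E →ᵃ[ℝ] ℝ) (x v : E) : a (x + v) = a x + a.linear v := by
  have := a.map_vadd x v
  simp only [vadd_eq_add] at this
  rw [add_comm x v, this, add_comm]

private theorem rep_apply_inv (g : E ≃ᵃ[ℝ] E) (x : E) : g (g⁻¹ x) = x := by
  change (g * g⁻¹) x = x
  rw [mul_inv_cancel]
  rfl

private theorem rep_V (g : E ≃ᵃ[ℝ] E) (hg : ∀ x ∈ P.X, g x ∈ P.X)
    (hg' : ∀ x ∈ P.X, g⁻¹ x ∈ P.X) (v : E) (hv : v ∈ P.V) : g.linear v ∈ P.V := by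
  rw [P.mem_V]
  intro x hx t
  have h1 : g (g⁻¹ x + t • v) = x + t • g.linear v := by
    rw [rep_apply_add, rep_apply_inv, map_smul]
  rw [← h1]
  exact hg _ ((P.mem_V v).1 hv _ (hg' x hx) t)

theorem Pot.exists_rep (Γ : Subgroup (E ≃ᵃ[ℝ] E)) (hne : P.X.Nonempty)
    (hinv : ∀ g ∈ Γ, ∀ x ∈ P.X, g x ∈ P.X)
    (hφ : ∀ g ∈ Γ, ∃ a : E →ᵃ[ℝ] ℝ, ∀ x ∈ P.X, P.φ (g x) = P.φ x + a x) :
    ∃ (a : Γ → (E →ᵃ[ℝ] ℝ)) (ρ : Γ →* ((E × ℝ) →ₗ[ℝ] (E × ℝ))),
      (∀ g : Γ, ∀ x ∈ P.X, P.φ (g.1 x) = P.φ x + a g x) ∧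
      (∀ (g : Γ) (e : E × ℝ), ρ g e = (g.1.linear e.1, e.2 + (a g).linear e.1)) ∧
      ∀ g : Γ, ∀ e ∈ P.epi, ρ g e ∈ P.epi := by
  choose a ha using fun g : Γ => hφ g.1 g.2
  have hone : a 1 = 0 := by
    apply rep_affine_ext P hne
    intro x hx
    have h1 := ha 1 x hx
    have h2 : (1 : Γ).1 x = x := rfl
    rw [h2] at h1
    have h3 : (0 : E →ᵃ[ℝ] ℝ) x = 0 := rfl
    rw [h3]
    (clear * - h1; linarith only [h1])
  have hmul : ∀ g h : Γ, a (g * h) = a h + (a g).comp (h.1 : E →ᵃ[ℝ] E) := by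
    intro g h
    apply rep_affine_ext P hne
    intro x hx
    have h1 := ha (g * h) x hx
    have h2 : (g * h).1 x = g.1 (h.1 x) := rfl
    rw [h2, ha g _ (hinv h.1 h.2 x hx), ha h x hx] at h1
    have h3 : (a h + (a g).comp (h.1 : E →ᵃ[ℝ] E)) x = a h x + a g (h.1 x) := rfl
    rw [h3]
    linarith only [h1]
  have hmulL : ∀ (g h : Γ) (v : E),
      (a (g * h)).linear v = (a h).linear v + (a g).linear (h.1.linear v) := by
    intro g h v
    rw [hmul g h]
    rfl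
  have honeL : ∀ v : E, (a 1).linear v = 0 := by
    intro v
    rw [hone]
    rfl
  let r : Γ → ((E × ℝ) →ₗ[ℝ] (E × ℝ)) := fun g =>
    { toFun := fun e => (g.1.linear e.1, e.2 + (a g).linear e.1)
      map_add' := by
        intro e f
        ext
        · simp
        · simp only [Prod.fst_add, Prod.snd_add, map_add]
          ring
      map_smul' := by
        intro c e
        ext
        · simp
        · simp only [Prod.smul_fst, Prod.smul_snd, map_smul, smul_eq_mul, RingHom.id_apply]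
          ring }
  have hr : ∀ (g : Γ) (e : E × ℝ), r g e = (g.1.linear e.1, e.2 + (a g).linear e.1) :=
    fun g e => rfl
  let ρ : Γ →* ((E × ℝ) →ₗ[ℝ] (E × ℝ)) :=
    { toFun := r
      map_one' := by
        refine LinearMap.ext fun e => ?_
        rw [hr, honeL]
        have h1 : (1 : Γ).1.linear e.1 = e.1 := rfl
        rw [h1, add_zero]
        rfl
      map_mul' := by
        intro g h
        refine LinearMap.ext fun e => ?_
        change r (g * h) e = r g (r h e)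
        rw [hr, hr, hr, hmulL]
        have h1 : (g * h).1.linear e.1 = g.1.linear (h.1.linear e.1) := rfl
        rw [h1, add_assoc] }
  refine ⟨a, ρ, ha, fun g e => rfl, ?_⟩
  intro g e he
  have hg' : ∀ x ∈ P.X, g.1⁻¹ x ∈ P.X := hinv _ (Γ.inv_mem g.2)
  have hg : ∀ x ∈ P.X, g.1 x ∈ P.X := hinv _ g.2
  change (g.1.linear e.1, e.2 + (a g).linear e.1) ∈ P.epi
  refine ⟨rep_V P g.1 hg hg' e.1 he.1, ?_⟩
  intro x hx
  have hx' := hg' x hx
  have hv : g.1⁻¹ x + e.1 ∈ P.X := by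
    have := (P.mem_V e.1).1 he.1 _ hx' 1
    rwa [one_smul] at this
  have h1 : x + g.1.linear e.1 = g.1 (g.1⁻¹ x + e.1) := by
    rw [rep_apply_add, rep_apply_inv]
  change P.φ (x + g.1.linear e.1) ≤ P.φ x + (e.2 + (a g).linear e.1)
  rw [h1, ha g _ hv, rep_apply_add']
  have h2 := ha g _ hx'
  rw [rep_apply_inv] at h2
  have h3 := he.2 _ hx'
  linarith

/-- `V` and the flat directions are invariant. -/
theorem Pot.flat_inv (W : Submodule ℝ E) (hW : P.IsFlat W) (g : E ≃ᵃ[ℝ] E)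
    (hg : ∀ x ∈ P.X, g x ∈ P.X) (hg' : ∀ x ∈ P.X, g⁻¹ x ∈ P.X) (a : E →ᵃ[ℝ] ℝ)
    (ha : ∀ x ∈ P.X, P.φ (g x) = P.φ x + a x) (hne : P.X.Nonempty) :
    (∀ v ∈ P.V, g.linear v ∈ P.V) ∧ ∀ v ∈ W, g.linear v ∈ W := by
  refine ⟨rep_V P g hg hg', ?_⟩
  intro v hv
  obtain ⟨hvV, τ, hτ⟩ := (hW v).1 hv
  rw [hW]
  refine ⟨rep_V P g hg hg' v hvV, τ + a.linear v, ?_⟩
  intro x hx t
  have hx' := hg' x hx
  have hv : g⁻¹ x + t • v ∈ P.X := (P.mem_V v).1 hvV _ hx' t
  have h1 : x + t • g.linear v = g (g⁻¹ x + t • v) := by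
    rw [rep_apply_add, rep_apply_inv, map_smul]
  rw [h1, ha _ hv, rep_apply_add', hτ _ hx', map_smul, smul_eq_mul]
  have h2 := ha _ hx'
  rw [rep_apply_inv] at h2
  rw [h2]
  ring

end Pool.Agent.Helper47.HP
end

/- Helper16.LDA.H47.HP.Core -/
section
/-! # Project HP: the additional representation -/

set_option autoImplicit false

open Set

namespace Pool.Agent.Helper47.HP

/-- The lineality space of the recession cone, as a submodule. -/
def core_lin {E : Type*} [NormedAddCommGroup E] [NormedSpace ℝ E] (P : Pot E) :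
    Submodule ℝ (E × ℝ) where
  carrier := {e | e ∈ P.epi ∧ -e ∈ P.epi}
  add_mem' := by
    intro a b ha hb
    refine ⟨P.add_mem_epi ha.1 hb.1, ?_⟩
    rw [neg_add]
    exact P.add_mem_epi ha.2 hb.2
  zero_mem' := by
    refine ⟨P.zero_mem_epi, ?_⟩
    rw [neg_zero]
    exact P.zero_mem_epi
  smul_mem' := by
    intro t a ha
    rcases le_total 0 t with ht | ht
    · refine ⟨P.smul_mem_epi ha.1 ht, ?_⟩
      rw [← smul_neg]
      exact P.smul_mem_epi ha.2 ht
    · have h1 : t • a = (-t) • (-a) := by rw [neg_smul, smul_neg, neg_neg]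
      have h2 : -(t • a) = (-t) • a := by rw [neg_smul]
      refine ⟨?_, ?_⟩
      · rw [h1]
        exact P.smul_mem_epi ha.2 (by linarith)
      · rw [h2]
        exact P.smul_mem_epi ha.1 (by linarith)

theorem core_mem_lin {E : Type*} [NormedAddCommGroup E] [NormedSpace ℝ E] (P : Pot E)
    (e : E × ℝ) : e ∈ core_lin P ↔ e ∈ P.epi ∧ -e ∈ P.epi := Iff.rfl

theorem core_finrank_W {E : Type*} [NormedAddCommGroup E] [NormedSpace ℝ E]
    [FiniteDimensional ℝ E] (P : Pot E) (W : Submodule ℝ E) (hW : P.IsFlat W) :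
    Module.finrank ℝ W ≤ Module.finrank ℝ (core_lin P) := by
  have h1 : W ≤ LinearMap.range ((LinearMap.fst ℝ E ℝ).domRestrict (core_lin P)) := by
    intro v hv
    obtain ⟨hvV, τ, hτ⟩ := (hW v).1 hv
    exact ⟨⟨(v, τ), P.epi_of_flat hvV hτ⟩, rfl⟩
  exact (Submodule.finrank_mono h1).trans (LinearMap.finrank_range_le _)

theorem core_finrank_T {E : Type*} [NormedAddCommGroup E] [NormedSpace ℝ E]
    [FiniteDimensional ℝ E] (V : Submodule ℝ E) :
    Module.finrank ℝ (V.prod (⊤ : Submodule ℝ ℝ)) ≤ Module.finrank ℝ V + 1 := by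
  let m : (V.prod (⊤ : Submodule ℝ ℝ)) →ₗ[ℝ] (V × ℝ) :=
    { toFun := fun e => (⟨e.1.1, e.2.1⟩, e.1.2)
      map_add' := fun _ _ => rfl
      map_smul' := fun _ _ => rfl }
  have hm : Function.Injective m := by
    intro e e' h
    have h1 : (⟨e.1.1, e.2.1⟩ : V) = ⟨e'.1.1, e'.2.1⟩ := congrArg (fun z : V × ℝ => z.1) h
    have h2 : e.1.2 = e'.1.2 := congrArg (fun z : V × ℝ => z.2) h
    have h3 : e.1.1 = e'.1.1 := congrArg Subtype.val h1
    exact Subtype.ext (Prod.ext h3 h2)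
  have h := LinearMap.finrank_le_finrank_of_injective hm
  rwa [Module.finrank_prod, Module.finrank_self] at h

variable {E : Type*} [NormedAddCommGroup E] [NormedSpace ℝ E] [FiniteDimensional ℝ E] (P : Pot E)

/-- The additional representation, its cone, and the bodies. -/
theorem Pot.exists_core (Γ : Subgroup (E ≃ᵃ[ℝ] E)) (hne : P.X.Nonempty)
    (hinv : ∀ g ∈ Γ, ∀ x ∈ P.X, g x ∈ P.X)
    (hφ : ∀ g ∈ Γ, ∃ a : E →ᵃ[ℝ] ℝ, ∀ x ∈ P.X, P.φ (g x) = P.φ x + a x)
    (W : Submodule ℝ E) (hW : P.IsFlat W) :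
    ∃ (d : ℕ) (σ : Γ →* ((Fin d → ℝ) →ₗ[ℝ] (Fin d → ℝ))) (C : Set (Fin d → ℝ)),
      0 < d ∧ d + Module.finrank ℝ W ≤ Module.finrank ℝ P.V + 1 ∧
      IsOpen C ∧ Convex ℝ C ∧ C.Nonempty ∧ (∀ v ∈ C, ∀ t : ℝ, 0 < t → t • v ∈ C) ∧
      (∀ v, v ≠ 0 → ∃ x ∈ C, ∃ t : ℝ, x + t • v ∉ C) ∧ (∀ g, ∀ v ∈ C, σ g v ∈ C) ∧
      ∀ R : ℝ, ∃ C' : ℝ, 0 ≤ C' ∧ ∀ g : Γ, SBdd σ R g → ABdd P.V R g.1 →
        ∃ K, IsBody P.V W K ∧ ∀ v ∈ K, ∃ u ∈ K, g.1.linear v = C' • u := by
  obtain ⟨x₀, hx₀⟩ := hne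
  obtain ⟨a, ρ, ha, hρ, hρS⟩ := P.exists_rep Γ ⟨x₀, hx₀⟩ hinv hφ
  have he₁ : ((0 : E), (1 : ℝ)) ∈ P.epi := P.vert_mem_epi zero_le_one
  have he₁' : -((0 : E), (1 : ℝ)) ∉ P.epi := by
    intro h
    have h1 := h.2 x₀ hx₀
    have h2 : x₀ + (-((0 : E), (1 : ℝ))).1 = x₀ := by simp
    have h3 : (-((0 : E), (1 : ℝ))).2 = -1 := rfl
    rw [h2, h3] at h1
    linarith
  obtain ⟨d, σ, π, C, f, c, hd, hdim, hπ, hker, hCo, hCc, hCn, hCs, hCp, hCi, hc, hf⟩ :=
    exists_quot ρ P.epi P.isClosed_epi P.zero_mem_epi (fun a ha b hb => P.add_mem_epi ha hb)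
      (fun a ha t ht => P.smul_mem_epi ha ht) hρS _ he₁ he₁'
  refine ⟨d, σ, C, hd, ?_, hCo, hCc, hCn, hCs, hCp, hCi, ?_⟩
  · have h1 := hdim (core_lin P) (P.V.prod ⊤) (core_mem_lin P)
      (fun e he => Submodule.mem_prod.2 ⟨he.1, Submodule.mem_top⟩)
    have h2 := core_finrank_W P W hW
    have h3 := core_finrank_T P.V
    omega
  intro R
  -- the linear form
  have hq : π ((0 : E), (1 : ℝ)) ≠ 0 := fun h => he₁' ((hker _ he₁).1 h)
  set ℓ : (E × ℝ) →ₗ[ℝ] ℝ := f.comp π with hℓ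
  have hℓ1 : 0 < ℓ ((0 : E), (1 : ℝ)) :=
    lt_of_lt_of_le (mul_pos hc (norm_pos_iff.2 hq)) (hf _ he₁)
  set s : ℝ := ℓ ((0 : E), (1 : ℝ)) with hs
  let p : E →ₗ[ℝ] ℝ := (-s⁻¹) • (ℓ.comp (LinearMap.inl ℝ E ℝ))
  have hℓe : ∀ e : E × ℝ, ℓ e = s * (e.2 - p e.1) := by
    intro e
    have h1 : e = (e.1, (0 : ℝ)) + e.2 • ((0 : E), (1 : ℝ)) := by
      ext <;> simp
    have h2 : p e.1 = -s⁻¹ * ℓ (e.1, (0 : ℝ)) := rfl
    have h3 : ℓ e = ℓ (e.1, (0 : ℝ)) + e.2 * s := by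
      conv_lhs => rw [h1]
      rw [map_add, map_smul, smul_eq_mul]
    rw [h3, h2]
    field_simp
    ring
  have hnn : ∀ e ∈ P.epi, c * ‖π e‖ ≤ s * (e.2 - p e.1) := fun e he => by
    rw [← hℓe e]
    exact hf e he
  have hp : P.Supp p := by
    intro e he
    constructor
    · intro hne
      have h1 : π e ≠ 0 := fun h => hne ((hker _ he).1 h)
      have h2 : 0 < s * (e.2 - p e.1) := lt_of_lt_of_le (mul_pos hc (norm_pos_iff.2 h1)) (hnn e he)
      have h3 : 0 < e.2 - p e.1 := by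
        by_contra hcon
        push Not at hcon
        have := mul_nonpos_of_nonneg_of_nonpos hℓ1.le hcon
        linarith only [h2, this]
      (clear * - h3; linarith)
    · intro hne
      have h1 : π e = 0 := (hker _ he).2 hne
      have h2 : ℓ e = 0 := by
        rw [hℓ, LinearMap.comp_apply, h1, map_zero]
      rw [hℓe e] at h2
      have h3 := (mul_eq_zero.1 h2).resolve_left hℓ1.ne'
      linarith only [h3]
  -- the constant
  set B : ℝ := ‖LinearMap.toContinuousLinearMap f‖ with hB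
  have hfB : ∀ v, f v ≤ B * ‖v‖ := by
    intro v
    have h := (LinearMap.toContinuousLinearMap f).le_opNorm v
    exact (le_abs_self _).trans h
  obtain ⟨D, hD, hbody⟩ := P.exists_body W hW hx₀ p hp R (B * R ^ 2 / c)
  refine ⟨D, hD, fun g hg hA => ?_⟩
  refine hbody g.1 (a g) (hinv g.1 g.2) (hinv g.1⁻¹ (Γ.inv_mem g.2)) (ha g) hA ?_
  intro e he
  have hfix : σ g (π ((0 : E), (1 : ℝ))) = π ((0 : E), (1 : ℝ)) := by
    rw [← hπ g _ he₁, hρ]
    simp
  have hσ := sbdd_fix hg _ hq hfix (π e)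
  have h1 : ℓ (ρ g e) = s * (e.2 + (a g).linear e.1 - p (g.1.linear e.1)) := by
    rw [hℓe (ρ g e), hρ]
  have h2 : ℓ (ρ g e) = f (σ g (π e)) := by
    rw [hℓ, LinearMap.comp_apply, hπ g e he]
  have h3 : f (σ g (π e)) ≤ B * (R ^ 2 * ‖π e‖) :=
    (hfB _).trans (mul_le_mul_of_nonneg_left hσ (norm_nonneg _))
  have h4 : B * (R ^ 2 * ‖π e‖) ≤ B * R ^ 2 / c * (s * (e.2 - p e.1)) := by
    have h5 : B * (R ^ 2 * ‖π e‖) = B * R ^ 2 / c * (c * ‖π e‖) := by
      (clear * - hc; field_simp)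
    rw [h5]
    exact mul_le_mul_of_nonneg_left (hnn e he)
      (div_nonneg (mul_nonneg (norm_nonneg _) (sq_nonneg R)) hc.le)
  have h6 : s * (e.2 + (a g).linear e.1 - p (g.1.linear e.1)) ≤
      s * (B * R ^ 2 / c * (e.2 - p e.1)) := by
    rw [← h1, h2]
    refine (h3.trans h4).trans (le_of_eq ?_)
    ring
  exact le_of_mul_le_mul_left h6 hℓ1

end Pool.Agent.Helper47.HP
end

/- Helper16.LDA.H47.HP.Trace -/
section
/-! # Project HP: traces -/

set_option autoImplicit false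

open Set

namespace Pool.Agent.Helper47.HP

/-- powers -/
private theorem trace_pow_aux {Y : Type*} [AddCommGroup Y] [Module ℝ Y]
    (T : Y →ₗ[ℝ] Y) (z : ℂ) (x y : Y)
    (hx : T x = z.re • x - z.im • y) (hy : T y = z.im • x + z.re • y) (k : ℕ) :
    (T ^ k) x = (z ^ k).re • x - (z ^ k).im • y ∧
      (T ^ k) y = (z ^ k).im • x + (z ^ k).re • y := by
  induction k with
  | zero => simp
  | succ k ih =>
    obtain ⟨h1, h2⟩ := ih
    constructor
    · rw [pow_succ, Module.End.mul_apply, hx, map_sub, map_smul, map_smul, h1, h2, pow_succ,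
        Complex.mul_re, Complex.mul_im]
      module
    · rw [pow_succ, Module.End.mul_apply, hy, map_add, map_smul, map_smul, h1, h2, pow_succ,
        Complex.mul_re, Complex.mul_im]
      module

/-- norms of powers -/
private theorem trace_norm_pow_aux {Y : Type*} [AddCommGroup Y] [Module ℝ Y]
    (T : Y →ₗ[ℝ] Y) (N : Seminorm ℝ Y) {C : ℝ} (hC : 0 ≤ C)
    (hT : ∀ y, N (T y) ≤ C * N y) (k : ℕ) (y : Y) : N ((T ^ k) y) ≤ C ^ k * N y := by
  induction k generalizing y with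
  | zero => simp
  | succ k ih =>
    rw [pow_succ, Module.End.mul_apply]
    refine (ih (T y)).trans ?_
    rw [pow_succ, mul_assoc]
    exact mul_le_mul_of_nonneg_left (hT y) (pow_nonneg hC k)

/-- an eigenvector bounds the eigenvalue -/
private theorem trace_eig_aux {Y : Type*} [AddCommGroup Y] [Module ℝ Y]
    (T : Y →ₗ[ℝ] Y) (N : Seminorm ℝ Y) (hN : ∀ y, N y = 0 → y = 0) {C : ℝ}
    (hT : ∀ y, N (T y) ≤ C * N y) (z : ℂ) (x y : Y) (hxy : x ≠ 0 ∨ y ≠ 0)
    (hx : T x = z.re • x - z.im • y) (hy : T y = z.im • x + z.re • y) : ‖z‖ ≤ C := by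
  have hNx : 0 ≤ N x := apply_nonneg N x
  have hNy : 0 ≤ N y := apply_nonneg N y
  have hpos : 0 < N x + N y := by
    rcases hxy with h | h
    · have : 0 < N x := lt_of_le_of_ne hNx (fun h0 => h (hN x h0.symm))
      linarith only [hNy, this]
    · have : 0 < N y := lt_of_le_of_ne hNy (fun h0 => h (hN y h0.symm))
      (clear * - hNx this; linarith only [hNx, this])
  have hC : 0 ≤ C := by
    by_contra hlt
    rw [not_le] at hlt
    have h1 : 0 ≤ C * N x := (apply_nonneg N _).trans (hT x)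
    have h2 : 0 ≤ C * N y := (apply_nonneg N _).trans (hT y)
    have h3 : 0 ≤ C * (N x + N y) := by rw [mul_add]; exact add_nonneg h1 h2
    exact absurd (mul_neg_of_neg_of_pos hlt hpos) (not_lt.2 h3)
  -- the estimate for the powers
  have key : ∀ k : ℕ, ‖z‖ ^ k ≤ 2 * C ^ k := by
    intro k
    obtain ⟨h1, h2⟩ := trace_pow_aux T z x y hx hy k
    have hCk : 0 ≤ C ^ k := pow_nonneg hC k
    set u : ℂ := z ^ k with hu
    have hn : ‖u‖ = ‖z‖ ^ k := norm_pow z k
    have hsq : ‖u‖ * ‖u‖ = u.re * u.re + u.im * u.im := by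
      rw [← Complex.normSq_apply, Complex.normSq_eq_norm_sq, sq]
    have b1 := trace_norm_pow_aux T N hC hT k x
    have b2 := trace_norm_pow_aux T N hC hT k y
    have ex : (‖u‖ * ‖u‖) • x = u.re • (T ^ k) x + u.im • (T ^ k) y := by
      rw [h1, h2, hsq]; module
    have ey : (‖u‖ * ‖u‖) • y = u.re • (T ^ k) y - u.im • (T ^ k) x := by
      rw [h1, h2, hsq]; module
    have hre : |u.re| ≤ ‖u‖ := Complex.abs_re_le_norm u
    have him : |u.im| ≤ ‖u‖ := Complex.abs_im_le_norm u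
    have hnn : 0 ≤ ‖u‖ := norm_nonneg u
    have c1 : (‖u‖ * ‖u‖) * N x ≤ ‖u‖ * (C ^ k * (N x + N y)) := by
      have e1 : N ((‖u‖ * ‖u‖) • x) = (‖u‖ * ‖u‖) * N x := by
        rw [map_smul_eq_mul, Real.norm_of_nonneg (mul_nonneg hnn hnn)]
      rw [← e1, ex]
      refine (map_add_le_add N _ _).trans ?_
      rw [map_smul_eq_mul, map_smul_eq_mul, Real.norm_eq_abs, Real.norm_eq_abs]
      have t1 : |u.re| * N ((T ^ k) x) ≤ ‖u‖ * (C ^ k * N x) :=
        mul_le_mul hre b1 (apply_nonneg N _) hnn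
      have t2 : |u.im| * N ((T ^ k) y) ≤ ‖u‖ * (C ^ k * N y) :=
        mul_le_mul him b2 (apply_nonneg N _) hnn
      calc _ ≤ ‖u‖ * (C ^ k * N x) + ‖u‖ * (C ^ k * N y) := add_le_add t1 t2
        _ = _ := by ring
    have c2 : (‖u‖ * ‖u‖) * N y ≤ ‖u‖ * (C ^ k * (N x + N y)) := by
      have e1 : N ((‖u‖ * ‖u‖) • y) = (‖u‖ * ‖u‖) * N y := by
        rw [map_smul_eq_mul, Real.norm_of_nonneg (mul_nonneg hnn hnn)]
      rw [← e1, ey]
      refine (map_sub_le_add N _ _).trans ?_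
      rw [map_smul_eq_mul, map_smul_eq_mul, Real.norm_eq_abs, Real.norm_eq_abs]
      have t1 : |u.re| * N ((T ^ k) y) ≤ ‖u‖ * (C ^ k * N y) :=
        mul_le_mul hre b2 (apply_nonneg N _) hnn
      have t2 : |u.im| * N ((T ^ k) x) ≤ ‖u‖ * (C ^ k * N x) :=
        mul_le_mul him b1 (apply_nonneg N _) hnn
      calc _ ≤ ‖u‖ * (C ^ k * N y) + ‖u‖ * (C ^ k * N x) := add_le_add t1 t2
        _ = _ := by ring
    rw [← hn]
    rcases eq_or_lt_of_le hnn with h0 | h0
    · rw [← h0]; (clear * - hC; positivity)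
    · have c3 : ‖u‖ * (‖u‖ * (N x + N y)) ≤ ‖u‖ * ((2 * C ^ k) * (N x + N y)) := by
        linarith only [c1, c2]
      exact le_of_mul_le_mul_right (le_of_mul_le_mul_left c3 h0) hpos
  by_contra hlt
  rw [not_le] at hlt
  rcases eq_or_lt_of_le hC with h0 | h0
  · have := key 1
    rw [← h0] at this hlt
    simp only [pow_one, mul_zero] at this
    linarith
  · have hr : 1 < ‖z‖ / C := (one_lt_div h0).2 hlt
    obtain ⟨k, hk⟩ := pow_unbounded_of_one_lt (2 : ℝ) hr
    rw [div_pow, lt_div_iff₀ (pow_pos h0 k)] at hk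
    exact absurd (key k) (not_le.2 hk)

theorem trace_le {Y : Type*} [AddCommGroup Y] [Module ℝ Y] [FiniteDimensional ℝ Y]
    (T : Y →ₗ[ℝ] Y) (N : Seminorm ℝ Y) (hN : ∀ y, N y = 0 → y = 0) {C : ℝ}
    (hT : ∀ y, N (T y) ≤ C * N y) :
    |LinearMap.trace ℝ Y T| ≤ C * Module.finrank ℝ Y := by
  classical
  let b := Module.finBasis ℝ Y
  let A : Matrix (Fin (Module.finrank ℝ Y)) (Fin (Module.finrank ℝ Y)) ℝ :=
    LinearMap.toMatrix b b T
  let AC : Matrix (Fin (Module.finrank ℝ Y)) (Fin (Module.finrank ℝ Y)) ℂ :=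
    A.map (fun r : ℝ => (r : ℂ))
  have htr : ((LinearMap.trace ℝ Y T : ℝ) : ℂ) = AC.charpoly.roots.sum := by
    rw [← Matrix.trace_eq_sum_roots_charpoly, LinearMap.trace_eq_matrix_trace ℝ b T]
    simp [Matrix.trace, AC, A]
  have hroot : ∀ z ∈ AC.charpoly.roots, ‖z‖ ≤ C := by
    intro z hz
    have h1 : AC.charpoly.IsRoot z := (Polynomial.mem_roots'.1 hz).2
    have h2 : (Matrix.scalar _ z - AC).det = 0 := by
      rw [← Matrix.eval_charpoly]; exact h1
    obtain ⟨v, hv0, hv⟩ := Matrix.exists_mulVec_eq_zero_iff.2 h2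
    have h3 : ∀ i, ∑ j, (A i j : ℂ) * v j = z * v i := by
      intro i
      have h4 := congrFun hv i
      rw [Matrix.sub_mulVec] at h4
      simp only [Pi.sub_apply, Pi.zero_apply] at h4
      have h5 : (Matrix.scalar (Fin (Module.finrank ℝ Y)) z).mulVec v i = z * v i := by
        simp [Matrix.scalar_apply, Matrix.mulVec_diagonal]
      rw [h5, sub_eq_zero] at h4
      rw [h4]
      rfl
    let x : Y := b.equivFun.symm (fun i => (v i).re)
    let y : Y := b.equivFun.symm (fun i => (v i).im)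
    have hxr : ∀ i, b.repr x i = (v i).re := fun i => by
      rw [← Module.Basis.equivFun_apply, LinearEquiv.apply_symm_apply]
    have hyr : ∀ i, b.repr y i = (v i).im := fun i => by
      rw [← Module.Basis.equivFun_apply, LinearEquiv.apply_symm_apply]
    have hTr : ∀ (w : Y) i, b.repr (T w) i = ∑ j, A i j * b.repr w j := by
      intro w i
      rw [← LinearMap.toMatrix_mulVec_repr b b T w]
      rfl
    refine trace_eig_aux T N hN hT z x y ?_ ?_ ?_
    · by_contra hcon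
      push Not at hcon
      apply hv0
      funext i
      apply Complex.ext
      · rw [← hxr i, hcon.1]; simp
      · rw [← hyr i, hcon.2]; simp
    · apply b.repr.injective
      ext i
      rw [hTr x i]
      have h6 := congrArg Complex.re (h3 i)
      simp only [Complex.re_sum, Complex.mul_re, Complex.ofReal_re, Complex.ofReal_im, zero_mul,
        sub_zero] at h6
      simp only [map_sub, map_smul, Finsupp.coe_sub, Finsupp.coe_smul, Pi.sub_apply,
        Pi.smul_apply, smul_eq_mul, hxr, hyr]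
      exact h6
    · apply b.repr.injective
      ext i
      rw [hTr y i]
      have h6 := congrArg Complex.im (h3 i)
      simp only [Complex.im_sum, Complex.mul_im, Complex.ofReal_re, Complex.ofReal_im, zero_mul,
        add_zero] at h6
      simp only [map_add, map_smul, Finsupp.coe_add, Finsupp.coe_smul, Pi.add_apply,
        Pi.smul_apply, smul_eq_mul, hxr, hyr]
      rw [h6]; ring
  have hcard : AC.charpoly.roots.card = Module.finrank ℝ Y := by
    have h1 : AC.charpoly.roots.card = AC.charpoly.natDegree :=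
      (Polynomial.splits_iff_card_roots.1 (IsAlgClosed.splits _))
    rw [h1, Matrix.charpoly_natDegree_eq_dim, Fintype.card_fin]
  have h1 : |LinearMap.trace ℝ Y T| = ‖AC.charpoly.roots.sum‖ := by
    rw [← htr, Complex.norm_real, Real.norm_eq_abs]
  rw [h1]
  refine (norm_multiset_sum_le _).trans ?_
  refine (Multiset.sum_le_card_nsmul _ C ?_).trans ?_
  · intro r hr
    obtain ⟨z, hz, rfl⟩ := Multiset.mem_map.1 hr
    exact hroot z hz
  · rw [Multiset.card_map, hcard, nsmul_eq_mul, mul_comm]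

theorem body_trace {E : Type*} [NormedAddCommGroup E] [NormedSpace ℝ E] [FiniteDimensional ℝ E]
    {V W T U : Submodule ℝ E} {K : Set E} (hK : IsBody V W K) (hWT : W ≤ T) (hTU : T ≤ U) (hUV : U ≤ V)
    (A : E →ₗ[ℝ] E) (hU : ∀ u ∈ U, A u ∈ U) (hT : ∀ u ∈ T, A u ∈ T) {C : ℝ} (hC : 0 ≤ C)
    (hA : ∀ v ∈ K, ∃ u ∈ K, A v = C • u) :
    |LinearMap.trace ℝ _ (qMap T U A hU hT)| ≤
      C * Module.finrank ℝ (U ⧸ T.submoduleOf U) := by
  classical
  let π : U →ₗ[ℝ] (U ⧸ T.submoduleOf U) := (T.submoduleOf U).mkQ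
  have h0K : (0 : E) ∈ K := hK.flat 0 W.zero_mem
  let K0 : Set U := {u | (u : E) ∈ K}
  let K' : Set (U ⧸ T.submoduleOf U) := π '' K0
  have hK0c : Convex ℝ K0 := hK.convex.linear_preimage U.subtype
  have hK'c : Convex ℝ K' := hK0c.linear_image π
  have hbal : Balanced ℝ K' := by
    rw [balanced_iff_neg_mem hK'c]
    rintro _ ⟨u, hu, rfl⟩
    exact ⟨-u, hK.symm _ hu, map_neg π u⟩
  have hsmul : ∀ (y : U ⧸ T.submoduleOf U), ∃ t : ℝ, 0 < t ∧ t • y ∈ K' := by
    intro y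
    obtain ⟨u, rfl⟩ := Submodule.mkQ_surjective (T.submoduleOf U) y
    obtain ⟨t, ht, htu⟩ := hK.absorb u (hUV u.2)
    exact ⟨t, ht, t • u, htu, map_smul π t u⟩
  have habs : Absorbent ℝ K' := by
    rw [absorbent_iff_eventually_nhdsNE_zero]
    intro y
    obtain ⟨t, ht, hty⟩ := hsmul y
    refine Filter.Eventually.filter_mono nhdsWithin_le_nhds ?_
    rw [Metric.eventually_nhds_iff]
    refine ⟨t, ht, fun c hc => ?_⟩
    rw [dist_zero_right, Real.norm_eq_abs] at hc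
    have hb := hbal (c / t) (by
      rw [Real.norm_eq_abs, abs_div, abs_of_pos ht]
      exact (div_le_one ht).2 hc.le)
    have h1 : (c / t) • (t • y) ∈ K' := hb (Set.smul_mem_smul_set hty)
    rwa [smul_smul, div_mul_cancel₀ _ ht.ne'] at h1
  let N : Seminorm ℝ (U ⧸ T.submoduleOf U) := gaugeSeminorm hbal hK'c habs
  have hNdef : ∀ y, N y = gauge K' y := fun y => rfl
  obtain ⟨ϱ, hϱ⟩ := hK.bdd
  have hTcl : IsClosed (T : Set E) := Submodule.closed_of_finiteDimensional T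
  have hN : ∀ y, N y = 0 → y = 0 := by
    intro y hy
    obtain ⟨u, rfl⟩ := Submodule.mkQ_surjective (T.submoduleOf U) y
    have hmem : (u : E) ∈ T := by
      rw [← SetLike.mem_coe, ← hTcl.closure_eq, Metric.mem_closure_iff]
      intro ε hε
      have hρ : 0 < ε / (|ϱ| + 1) := by (clear * - hε; positivity)
      have h1 : gauge K' (π u) < ε / (|ϱ| + 1) := by
        have : gauge K' (π u) = 0 := hy
        rw [this]; exact hρ
      obtain ⟨r, hr0, hr1, hr2⟩ := exists_lt_of_gauge_lt habs h1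
      obtain ⟨_, ⟨k, hk, rfl⟩, hk2⟩ := hr2
      obtain ⟨w, hw, hwk⟩ := hϱ k hk
      have hwT : w ∈ T := hWT hw
      have h2 : π (u - r • k) = 0 := by
        rw [map_sub, map_smul]
        exact sub_eq_zero.2 hk2.symm
      have h3 : ((u - r • k : U) : E) ∈ T := by
        rw [Submodule.mkQ_apply, Submodule.Quotient.mk_eq_zero] at h2
        exact h2
      refine ⟨((u - r • k : U) : E) + r • w, T.add_mem h3 (T.smul_mem r hwT), ?_⟩
      rw [dist_eq_norm]
      have e : (u : E) - (((u - r • k : U) : E) + r • w) = r • ((k : E) - w) := by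
        push_cast
        rw [smul_sub]
        abel
      rw [e, norm_smul, Real.norm_eq_abs, abs_of_pos hr0]
      calc r * ‖(k : E) - w‖ ≤ r * |ϱ| :=
            mul_le_mul_of_nonneg_left (hwk.trans (le_abs_self _)) hr0.le
        _ ≤ r * (|ϱ| + 1) := mul_le_mul_of_nonneg_left (by linarith only []) hr0.le
        _ < ε / (|ϱ| + 1) * (|ϱ| + 1) := mul_lt_mul_of_pos_right hr1 (by (clear * -; positivity))
        _ = ε := by field_simp
    rw [Submodule.mkQ_apply, Submodule.Quotient.mk_eq_zero]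
    exact hmem
  refine trace_le (qMap T U A hU hT) N hN ?_
  intro y
  rw [hNdef, hNdef]
  -- the basic estimate
  have step : ∀ r : ℝ, gauge K' y < r → gauge K' (qMap T U A hU hT y) ≤ C * r := by
    intro r hr
    obtain ⟨s, hs0, hs1, hs2⟩ := exists_lt_of_gauge_lt habs hr
    obtain ⟨_, ⟨k, hk, rfl⟩, hk2⟩ := hs2
    obtain ⟨v, hv, hAv⟩ := hA k hk
    have hk3 : y = s • π k := hk2.symm
    have h1 : qMap T U A hU hT y = s • π ⟨A k, hU k k.2⟩ := by
      rw [hk3, map_smul]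
      rfl
    rcases eq_or_lt_of_le hC with h0 | h0
    · have h2 : (⟨A k, hU k k.2⟩ : U) = 0 := by
        apply Subtype.ext
        change A k = 0
        rw [hAv, ← h0, zero_smul]
      rw [h1, h2, map_zero, smul_zero, gauge_zero, ← h0, zero_mul]
    · have hvU : v ∈ U := by
        have h3 : v = C⁻¹ • A k := by
          rw [hAv, smul_smul, inv_mul_cancel₀ h0.ne', one_smul]
        rw [h3]
        exact U.smul_mem _ (hU k k.2)
      have h2 : (⟨A k, hU k k.2⟩ : U) = C • (⟨v, hvU⟩ : U) := Subtype.ext hAv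
      rw [h1, h2, map_smul, smul_smul, mul_comm s C]
      have h4 : π (⟨v, hvU⟩ : U) ∈ K' := ⟨⟨v, hvU⟩, hv, rfl⟩
      refine (gauge_le_of_mem (mul_nonneg hC hs0.le) (Set.smul_mem_smul_set h4)).trans ?_
      exact mul_le_mul_of_nonneg_left hs1.le hC
  rcases eq_or_lt_of_le hC with h0 | h0
  · have h1 := step (gauge K' y + 1) (by linarith)
    rw [← h0, zero_mul] at h1 ⊢
    exact h1
  · refine le_of_forall_pos_le_add fun ε hε => ?_
    have h1 := step (gauge K' y + ε / C) (by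
      have : 0 < ε / C := div_pos hε h0
      linarith)
    rw [mul_add, mul_div_cancel₀ _ h0.ne'] at h1
    exact h1

end Pool.Agent.Helper47.HP
end

/- Helper16.LDA.H94.AS.Cont -/
section
open Set Finset Filter Topology
open scoped Matrix

set_option linter.unusedSectionVars false

namespace Pool.AF

/-! ## AS-5 CONT: continuity of the minimiser

`posDef_lower` and `trace_coer` bound `P A` for `A` near `A₀` (`trace (A exp (-P A)) ≤ trace A`,
comparing with `0 ∈ 𝔭`). A cluster point `Y` of `P A` as `A → A₀` lies in `𝔭` (closed) and satisfies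
`trace (A₀ exp (-Y)) ≤ trace (A₀ exp (-W))` for all `W ∈ 𝔭`, so `Y = P A₀`. By compactness `P A`
tends to `P A₀`. -/

open scoped Matrix.Norms.Operator in
private theorem continuous_exp_aux (d : ℕ) :
    Continuous (fun X : Matrix (Fin d) (Fin d) ℝ => NormedSpace.exp X) :=
  NormedSpace.exp_continuous

theorem argmin_tendsto {d : ℕ} (𝔭 : Submodule ℝ (Matrix (Fin d) (Fin d) ℝ)) (h𝔭 : GeodSpace 𝔭)
    (P : Matrix (Fin d) (Fin d) ℝ → Matrix (Fin d) (Fin d) ℝ)
    (hP : ∀ A : Matrix (Fin d) (Fin d) ℝ, A.PosDef → IsArgmin 𝔭 A (P A))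
    (A₀ : Matrix (Fin d) (Fin d) ℝ) (hA₀ : A₀.PosDef) :
    Tendsto P (𝓝[{A | A.PosDef}] A₀) (𝓝 (P A₀)) := by
  classical
  obtain ⟨F, hFd, hF⟩ : ∃ F : Matrix (Fin d) (Fin d) ℝ × Matrix (Fin d) (Fin d) ℝ → ℝ,
      (∀ A W, F (A, W) = (A * NormedSpace.exp (-W)).trace) ∧ Continuous F := by
    refine ⟨fun q => (q.1 * NormedSpace.exp (-q.2)).trace, fun A W => rfl, ?_⟩
    have h1 : Continuous (fun q : Matrix (Fin d) (Fin d) ℝ × Matrix (Fin d) (Fin d) ℝ =>
        NormedSpace.exp (-q.2)) := (continuous_exp_aux d).comp continuous_snd.neg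
    exact (continuous_fst.matrix_mul h1).matrix_trace
  -- minimality
  have hmin : ∀ A : Matrix (Fin d) (Fin d) ℝ, A.PosDef → ∀ W ∈ 𝔭,
      (A * NormedSpace.exp (-(P A))).trace ≤ (A * NormedSpace.exp (-W)).trace := by
    intro A hA W hW
    by_cases h : W = P A
    · rw [h]
    · exact ((hP A hA).2 W hW h).le
  obtain ⟨lam, hlam, hlow⟩ := posDef_lower A₀ hA₀
  set C : ℝ := 2 * (A₀.trace + 1) / lam with hC
  -- compact set
  have hK1 : IsCompact {Y : Matrix (Fin d) (Fin d) ℝ | ∀ i j, Y i j ∈ Set.Icc (-C) C} := by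
    have h := isCompact_univ_pi (X := fun _ : Fin d => Fin d → ℝ)
      (s := fun _ => Set.pi Set.univ (fun _ : Fin d => Set.Icc (-C) C))
      (fun _ => isCompact_univ_pi (fun _ => isCompact_Icc))
    have he : {Y : Matrix (Fin d) (Fin d) ℝ | ∀ i j, Y i j ∈ Set.Icc (-C) C} =
        (Set.pi Set.univ (fun _ : Fin d => Set.pi Set.univ (fun _ : Fin d => Set.Icc (-C) C)) :
          Set (Fin d → Fin d → ℝ)) := by
      apply Set.ext
      intro Y
      constructor
      · intro hY i _ j _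
        exact hY i j
      · intro hY i j
        exact hY i (Set.mem_univ i) j (Set.mem_univ j)
    rw [he]
    exact h
  have hcl : IsClosed (𝔭 : Set (Matrix (Fin d) (Fin d) ℝ)) := Submodule.closed_of_finiteDimensional 𝔭
  have hK : IsCompact ({Y : Matrix (Fin d) (Fin d) ℝ | ∀ i j, Y i j ∈ Set.Icc (-C) C} ∩ 𝔭) :=
    hK1.inter_right hcl
  refine hK.tendsto_nhds_of_unique_mapClusterPt ?_ ?_
  · -- eventually in K
    have h1 : ∀ᶠ A in 𝓝[{A | A.PosDef}] A₀, ∀ v : Fin d → ℝ,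
        lam * (v ⬝ᵥ v) ≤ v ⬝ᵥ (A *ᵥ v) := nhdsWithin_le_nhds hlow
    have h2 : ∀ᶠ A in 𝓝[{A : Matrix (Fin d) (Fin d) ℝ | A.PosDef}] A₀,
        A.trace < A₀.trace + 1 := by
      apply nhdsWithin_le_nhds
      have hc : Continuous (fun A : Matrix (Fin d) (Fin d) ℝ => A.trace) :=
        continuous_id.matrix_trace
      exact hc.continuousAt.eventually_lt continuousAt_const (by (clear * -; linarith))
    have h3 : ∀ᶠ A in 𝓝[{A : Matrix (Fin d) (Fin d) ℝ | A.PosDef}] A₀, A.PosDef :=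
      self_mem_nhdsWithin
    filter_upwards [h1, h2, h3] with A hA1 hA2 hA3
    refine ⟨?_, (hP A hA3).1⟩
    intro i j
    have hsym : Aᵀ = A := by
      have := hA3.isHermitian
      rwa [Matrix.IsHermitian, Matrix.conjTranspose_eq_transpose_of_trivial] at this
    have h4 := trace_coer A (P A) lam hlam hsym hA1 (h𝔭.symm _ (hP A hA3).1)
      (h𝔭.trace _ (hP A hA3).1) i j
    have h5 := hmin A hA3 0 𝔭.zero_mem
    rw [neg_zero, NormedSpace.exp_zero, mul_one] at h5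
    have h6 : |P A i j| ≤ C := by
      rw [hC, le_div_iff₀ hlam]
      linarith only [hA2, h4, h5]
    exact Set.mem_Icc.mpr (abs_le.mp h6)
  · intro Y hY hcp
    rw [mapClusterPt_iff_ultrafilter] at hcp
    obtain ⟨U, hU, hUY⟩ := hcp
    have hid : Tendsto (fun A : Matrix (Fin d) (Fin d) ℝ => A) (U : Filter _) (𝓝 A₀) :=
      hU.trans nhdsWithin_le_nhds
    have hpd : ∀ᶠ A in (U : Filter (Matrix (Fin d) (Fin d) ℝ)), A.PosDef :=
      hU self_mem_nhdsWithin
    have hle : ∀ W ∈ 𝔭, (A₀ * NormedSpace.exp (-Y)).trace ≤ (A₀ * NormedSpace.exp (-W)).trace := by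
      intro W hW
      have t1 : Tendsto (fun A : Matrix (Fin d) (Fin d) ℝ => F (A, P A)) (U : Filter _)
          (𝓝 (F (A₀, Y))) :=
        (hF.tendsto (A₀, Y)).comp (hid.prodMk_nhds hUY)
      have t2 : Tendsto (fun A : Matrix (Fin d) (Fin d) ℝ => F (A, W)) (U : Filter _)
          (𝓝 (F (A₀, W))) :=
        (hF.tendsto (A₀, W)).comp (hid.prodMk_nhds tendsto_const_nhds)
      have t3 : F (A₀, Y) ≤ F (A₀, W) := by
        refine le_of_tendsto_of_tendsto t1 t2 (hpd.mono fun A hA => ?_)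
        change F (A, P A) ≤ F (A, W)
        rw [hFd, hFd]
        exact hmin A hA W hW
      rw [hFd, hFd] at t3
      exact t3
    by_contra hne
    have h1 := (hP A₀ hA₀).2 Y hY.2 hne
    have h2 := hle _ (hP A₀ hA₀).1
    linarith only [h1, h2]

end Pool.AF
end

/- Helper16.LDA.H94.AS.LineT -/
section
open Set Finset
open scoped Matrix

set_option linter.unusedSectionVars false

namespace Pool.AF

/-! ## AS-3 LINET: `φ t = trace (B * exp (-(t • W)))` for `B` positive definite, `W` symmetric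

Derivatives: `hasDerivAt_exp_smul_const` (with a local norm on matrices, or entrywise), so
`φ' t = -trace (B * W * exp (-(t • W)))`, `φ'' t = trace (B * W * W * exp (-(t • W)))
= trace (B * (W exp (-(t/2) W)) * (W exp (-(t/2) W)))`, which is positive for `W ≠ 0`: for a
symmetric `S ≠ 0`, `trace (B * S * S) = trace (S * B * S) = ∑ (S e_i) ⬝ B (S e_i) > 0`. -/

theorem trace_mul_sq_pos {d : ℕ} (B S : Matrix (Fin d) (Fin d) ℝ) (hB : B.PosDef) (hS : Sᵀ = S)
    (h0 : S ≠ 0) : 0 < (B * S * S).trace := by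
  have h1 : (B * S * S).trace = ∑ i, (fun j => S j i) ⬝ᵥ (B *ᵥ (fun j => S j i)) := by
    rw [Matrix.trace_mul_cycle]
    change ∑ i, (S * B * S) i i = _
    refine Finset.sum_congr rfl fun i _ => ?_
    have h2 : ∀ j, S j i = S i j := by
      intro j
      conv_lhs => rw [← hS]
      rfl
    rw [Matrix.mul_assoc, Matrix.mul_apply]
    simp only [dotProduct, Matrix.mulVec, Matrix.mul_apply, h2]
  have h3 : ∀ i, 0 ≤ (fun j => S j i) ⬝ᵥ (B *ᵥ (fun j => S j i)) := by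
    intro i
    by_cases h : (fun j => S j i) = 0
    · rw [h]
      simp
    · have := hB.dotProduct_mulVec_pos h
      rw [star_trivial] at this
      exact this.le
  rw [h1]
  have h4 : ∃ i, (fun j => S j i) ≠ 0 := by
    by_contra hcon
    push Not at hcon
    apply h0
    ext j i
    exact congrFun (hcon i) j
  obtain ⟨i, hi⟩ := h4
  refine Finset.sum_pos' (fun i _ => h3 i) ⟨i, Finset.mem_univ i, ?_⟩
  have := hB.dotProduct_mulVec_pos hi
  rw [star_trivial] at this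
  exact this

private theorem LineT_aux {d : ℕ} (M W : Matrix (Fin d) (Fin d) ℝ) (t : ℝ) :
    HasDerivAt (fun s : ℝ => (M * NormedSpace.exp (s • W)).trace)
      ((M * (W * NormedSpace.exp (t • W))).trace) t := by
  open scoped Matrix.Norms.Operator in
  have h1 : HasDerivAt (fun s : ℝ => NormedSpace.exp (s • W)) (W * NormedSpace.exp (t • W)) t :=
    hasDerivAt_exp_smul_const' W t
  open scoped Matrix.Norms.Operator in
  have h2 := (LinearMap.toContinuousLinearMap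
    ((Matrix.traceLinearMap (Fin d) ℝ ℝ).comp (LinearMap.mulLeft ℝ M))).hasFDerivAt
    (x := NormedSpace.exp (t • W))
  exact h2.comp_hasDerivAt t h1

private theorem LineT_aux2 {d : ℕ} (M W : Matrix (Fin d) (Fin d) ℝ) (t : ℝ) :
    HasDerivAt (fun s : ℝ => (M * NormedSpace.exp (-(s • W))).trace)
      (-(M * W * NormedSpace.exp (-(t • W))).trace) t := by
  have h1 := LineT_aux M (-W) t
  have h2 : ∀ s : ℝ, s • (-W) = -(s • W) := fun s => smul_neg s W
  simp only [h2] at h1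
  have h3 : -(M * W * NormedSpace.exp (-(t • W))).trace =
      (M * (-W * NormedSpace.exp (-(t • W)))).trace := by
    rw [Matrix.neg_mul, Matrix.mul_neg, Matrix.trace_neg, Matrix.mul_assoc]
  rw [h3]
  exact h1

theorem line_deriv {d : ℕ} (B W : Matrix (Fin d) (Fin d) ℝ) (t : ℝ) :
    HasDerivAt (fun s : ℝ => (B * NormedSpace.exp (-(s • W))).trace)
      (-(B * W * NormedSpace.exp (-(t • W))).trace) t :=
  LineT_aux2 B W t

theorem line_deriv2 {d : ℕ} (B W : Matrix (Fin d) (Fin d) ℝ) (t : ℝ) :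
    HasDerivAt (fun s : ℝ => -(B * W * NormedSpace.exp (-(s • W))).trace)
      ((B * W * W * NormedSpace.exp (-(t • W))).trace) t := by
  have h1 := (LineT_aux2 (B * W) W t).neg
  rw [neg_neg] at h1
  exact h1

private theorem LineT_pos {d : ℕ} (B W : Matrix (Fin d) (Fin d) ℝ) (hB : B.PosDef) (hW : Wᵀ = W)
    (h0 : W ≠ 0) (t : ℝ) : 0 < (B * W * W * NormedSpace.exp (-(t • W))).trace := by
  set E : Matrix (Fin d) (Fin d) ℝ := NormedSpace.exp (-((t / 2) • W)) with hE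
  have hEE : NormedSpace.exp (-(t • W)) = E * E := by
    rw [hE, ← Matrix.exp_add_of_commute _ _ (Commute.refl _)]
    congr 1
    rw [← neg_add, ← add_smul]
    congr 2
    ring
  have hc : W * E = E * W := by
    have h1 : Commute W (-((t / 2) • W)) := ((Commute.refl W).smul_right _).neg_right
    exact (open scoped Matrix.Norms.Operator in h1.exp_right)
  have hEt : Eᵀ = E := by
    rw [hE, ← Matrix.exp_transpose, Matrix.transpose_neg, Matrix.transpose_smul, hW]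
  have hS : (W * E)ᵀ = W * E := by
    rw [Matrix.transpose_mul, hEt, hW, hc]
  have hne : W * E ≠ 0 := by
    intro h
    apply h0
    have h1 : E * NormedSpace.exp ((t / 2) • W) = 1 := by
      have h5 : Commute (-((t / 2) • W)) ((t / 2) • W) := (Commute.refl ((t / 2) • W)).neg_left
      rw [hE, ← Matrix.exp_add_of_commute _ _ h5, neg_add_cancel, NormedSpace.exp_zero]
    calc W = W * (E * NormedSpace.exp ((t / 2) • W)) := by rw [h1, Matrix.mul_one]
      _ = W * E * NormedSpace.exp ((t / 2) • W) := by rw [Matrix.mul_assoc]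
      _ = 0 := by rw [h, Matrix.zero_mul]
  have h2 := trace_mul_sq_pos B (W * E) hB hS hne
  have h3 : B * W * W * NormedSpace.exp (-(t • W)) = B * (W * E) * (W * E) := by
    rw [hEE]
    have h4 : B * (W * E) * (W * E) = B * W * (E * W) * E := by
      simp only [Matrix.mul_assoc]
    rw [h4, ← hc]
    simp only [Matrix.mul_assoc]
  rw [h3]
  exact h2

/-- Strict convexity. -/
theorem line_strict {d : ℕ} (B W : Matrix (Fin d) (Fin d) ℝ) (hB : B.PosDef) (hW : Wᵀ = W)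
    (h0 : W ≠ 0)
    (hmin : ∀ t : ℝ, B.trace ≤ (B * NormedSpace.exp (-(t • W))).trace) :
    B.trace < (B * NormedSpace.exp (-W)).trace := by
  set φ : ℝ → ℝ := fun s => (B * NormedSpace.exp (-(s • W))).trace with hφ
  set φ' : ℝ → ℝ := fun s => -(B * W * NormedSpace.exp (-(s • W))).trace with hφ'
  have hφ0 : φ 0 = B.trace := by
    simp only [hφ, zero_smul, neg_zero, NormedSpace.exp_zero, Matrix.mul_one]
  have hφ1 : φ 1 = (B * NormedSpace.exp (-W)).trace := by
    simp only [hφ, one_smul]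
  have hd : ∀ t, HasDerivAt φ (φ' t) t := fun t => line_deriv B W t
  have hd2 : ∀ t, HasDerivAt φ' ((B * W * W * NormedSpace.exp (-(t • W))).trace) t :=
    fun t => line_deriv2 B W t
  have hmono : StrictMono φ' := by
    apply strictMono_of_deriv_pos
    intro t
    rw [(hd2 t).deriv]
    exact LineT_pos B W hB hW h0 t
  have hz : φ' 0 = 0 := by
    have hm : IsLocalMin φ 0 := Filter.Eventually.of_forall (fun t => by
      rw [hφ0]
      exact hmin t)
    exact hm.hasDerivAt_eq_zero (hd 0)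
  have hs : StrictMonoOn φ (Set.Ici 0) := by
    apply strictMonoOn_of_deriv_pos (convex_Ici 0)
      (fun s _ => (hd s).continuousAt.continuousWithinAt)
    intro s hs
    rw [interior_Ici] at hs
    rw [(hd s).deriv, ← hz]
    exact hmono (Set.mem_Ioi.1 hs)
  have h1 := hs (Set.mem_Ici.2 le_rfl) (Set.mem_Ici.2 zero_le_one) zero_lt_one
  rw [hφ0, hφ1] at h1
  exact h1

end Pool.AF
end

/- Helper16.LDA.H94.AS.ExpC -/
section
open Set Finset
open scoped Matrix

set_option linter.unusedSectionVars false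

namespace Pool.AF

/-! ## AS-6 EXPC: smoothness of the entries of the exponential

With a local norm (`open scoped Matrix.Norms.Operator` or similar) `NormedSpace.exp` is analytic on
the Banach algebra of matrices; linear maps between finite-dimensional spaces are smooth. -/

open scoped Matrix.Norms.Operator in
theorem exp_entry_contDiff_aux {d n : ℕ} (L : (Fin n → ℝ) →ₗ[ℝ] Matrix (Fin d) (Fin d) ℝ)
    (i j : Fin d) : ContDiff ℝ 4 (fun y : Fin n → ℝ => NormedSpace.exp (L y) i j) := by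
  have h1 : ContDiff ℝ 4 (NormedSpace.exp : Matrix (Fin d) (Fin d) ℝ → Matrix (Fin d) (Fin d) ℝ) :=
    contDiff_iff_contDiffAt.2 fun x =>
      (NormedSpace.exp_analytic (𝕂 := ℝ) (𝔸 := Matrix (Fin d) (Fin d) ℝ) x).contDiffAt
  have h2 : ContDiff ℝ 4 (fun y : Fin n → ℝ => L y) := by
    have := (LinearMap.toContinuousLinearMap L).contDiff (n := 4)
    exact this
  have h3 : ContDiff ℝ 4 (fun M : Matrix (Fin d) (Fin d) ℝ => M i j) := by
    have := (LinearMap.toContinuousLinearMap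
      (Matrix.entryLinearMap ℝ ℝ i j : Matrix (Fin d) (Fin d) ℝ →ₗ[ℝ] ℝ)).contDiff (n := 4)
    exact this
  exact h3.comp (h1.comp h2)

theorem exp_entry_contDiff {d n : ℕ} (L : (Fin n → ℝ) →ₗ[ℝ] Matrix (Fin d) (Fin d) ℝ)
    (i j : Fin d) : ContDiff ℝ 4 (fun y : Fin n → ℝ => NormedSpace.exp (L y) i j) :=
  exp_entry_contDiff_aux L i j

end Pool.AF
end

/- Helper94.AS.ArgC -/
section
open Set Filter Topology

set_option linter.unusedSectionVars false

namespace Pool.AF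

/-! ## AS-7 ARGC: smoothness of a minimiser by the implicit function theorem

`G (a, y) = fderiv of F (a, ·) at y`, a `C^3` function to the dual of `ℝ^n`, vanishes at
`(a, p a)` for `a` near `a₀`. The derivative `H` of `G (a₀, ·)` at `p a₀` is injective: `H w w`
is the second derivative `c ≠ 0` of `F` along the line. So the implicit function theorem applies. -/

theorem argmin_contDiffAt {m n : ℕ} (F : (Fin m → ℝ) × (Fin n → ℝ) → ℝ) (hF : ContDiff ℝ 4 F)
    (p : (Fin m → ℝ) → (Fin n → ℝ)) (a₀ : Fin m → ℝ) (hp : ContinuousAt p a₀)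
    (hmin : ∀ᶠ a in 𝓝 a₀, ∀ y, F (a, p a) ≤ F (a, y))
    (hhess : ∀ w : Fin n → ℝ, w ≠ 0 → ∃ (φ' : ℝ → ℝ) (c : ℝ), c ≠ 0 ∧
      (∀ s, HasDerivAt (fun s : ℝ => F (a₀, p a₀ + s • w)) (φ' s) s) ∧ HasDerivAt φ' c 0) :
    ContDiffAt ℝ 2 p a₀ := by
  classical
  set G : (Fin m → ℝ) × (Fin n → ℝ) → ((Fin n → ℝ) →L[ℝ] ℝ) :=
    fun z => (fderiv ℝ F z).comp (ContinuousLinearMap.inr ℝ (Fin m → ℝ) (Fin n → ℝ)) with hGdef
  have hFd : Differentiable ℝ F := hF.differentiable (by norm_num)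
  have hG : ContDiff ℝ 2 G := by
    have h1 : ContDiff ℝ 2 (fderiv ℝ F) := hF.fderiv_right (m := 2) (by norm_num)
    exact h1.clm_comp contDiff_const
  have hGd : Differentiable ℝ G := hG.differentiable (by norm_num)
  -- derivative in the second variable
  have hpart : ∀ a y, HasFDerivAt (fun y' => F (a, y')) (G (a, y)) y := by
    intro a y
    have h1 : HasFDerivAt F (fderiv ℝ F (a, y)) (a, y) := (hFd (a, y)).hasFDerivAt
    have h2 : HasFDerivAt (fun y' : Fin n → ℝ => (a, y'))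
        (ContinuousLinearMap.inr ℝ (Fin m → ℝ) (Fin n → ℝ)) y := hasFDerivAt_prodMk_right a y
    exact h1.comp y h2
  have hG0 : ∀ᶠ a in 𝓝 a₀, G (a, p a) = 0 := by
    filter_upwards [hmin] with a ha
    have hm : IsLocalMin (fun y' => F (a, y')) (p a) := Filter.Eventually.of_forall ha
    exact hm.hasFDerivAt_eq_zero (hpart a (p a))
  have hGu : G (a₀, p a₀) = 0 := hG0.self_of_nhds
  -- the partial derivative of G
  set H : (Fin n → ℝ) →L[ℝ] ((Fin n → ℝ) →L[ℝ] ℝ) :=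
    (fderiv ℝ G (a₀, p a₀)).comp (ContinuousLinearMap.inr ℝ (Fin m → ℝ) (Fin n → ℝ)) with hHdef
  have hHw : ∀ w : Fin n → ℝ, w ≠ 0 → H w w ≠ 0 := by
    intro w hw
    obtain ⟨φ', c, hc, h1, h2⟩ := hhess w hw
    have hline : ∀ s : ℝ, HasDerivAt (fun s : ℝ => p a₀ + s • w) w s := by
      intro s
      have := ((hasDerivAt_id s).smul_const w).const_add (p a₀)
      simpa using this
    have e1 : φ' = fun s : ℝ => G (a₀, p a₀ + s • w) w := by
      funext s
      have h3 : HasDerivAt (fun s : ℝ => F (a₀, p a₀ + s • w)) (G (a₀, p a₀ + s • w) w) s :=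
        HasFDerivAt.comp_hasDerivAt (l := fun y' => F (a₀, y')) (f := fun s : ℝ => p a₀ + s • w) s
          (hpart a₀ (p a₀ + s • w)) (hline s)
      exact (h1 s).unique h3
    have h4 : HasFDerivAt G (fderiv ℝ G (a₀, p a₀)) (a₀, p a₀) := (hGd _).hasFDerivAt
    have h5 : HasDerivAt (fun s : ℝ => (a₀, p a₀ + s • w)) (0, w) 0 :=
      (hasDerivAt_const 0 a₀).prodMk (hline 0)
    have h4' : HasFDerivAt G (fderiv ℝ G (a₀, p a₀)) (a₀, p a₀ + (0 : ℝ) • w) := by
      simpa using h4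
    have h6 : HasDerivAt (fun s : ℝ => G (a₀, p a₀ + s • w))
        (fderiv ℝ G (a₀, p a₀) (0, w)) 0 :=
      HasFDerivAt.comp_hasDerivAt (l := G) (f := fun s : ℝ => (a₀, p a₀ + s • w)) 0 h4' h5
    have h7 : HasDerivAt (fun s : ℝ => G (a₀, p a₀ + s • w) w)
        (fderiv ℝ G (a₀, p a₀) (0, w) w) 0 := by
      have := h6.clm_apply (hasDerivAt_const (0 : ℝ) w)
      simpa using this
    rw [e1] at h2
    have h8 : c = fderiv ℝ G (a₀, p a₀) (0, w) w := h2.unique h7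
    have h9 : H w w = c := by
      rw [h8]; rfl
    rw [h9]; exact hc
  have hinj : Function.Injective H := by
    intro w v hwv
    by_contra hne
    have hz : w - v ≠ 0 := sub_ne_zero.mpr hne
    apply hHw (w - v) hz
    have h0 : H (w - v) = 0 := by rw [map_sub, hwv, sub_self]
    rw [h0]
    rfl
  have hfin : FiniteDimensional ℝ ((Fin n → ℝ) →L[ℝ] ℝ) :=
    Module.Finite.equiv (LinearMap.toContinuousLinearMap (𝕜 := ℝ) (E := Fin n → ℝ) (F' := ℝ))
  have hrank : Module.finrank ℝ (Fin n → ℝ) = Module.finrank ℝ ((Fin n → ℝ) →L[ℝ] ℝ) := by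
    have e := (LinearMap.toContinuousLinearMap (𝕜 := ℝ) (E := Fin n → ℝ) (F' := ℝ)).finrank_eq
    rw [← e]
    exact (Subspace.dual_finrank_eq (K := ℝ) (V := Fin n → ℝ)).symm
  have hinv : H.IsInvertible := by
    let L : (Fin n → ℝ) ≃ₗ[ℝ] ((Fin n → ℝ) →L[ℝ] ℝ) :=
      LinearEquiv.ofInjectiveOfFinrankEq (H : (Fin n → ℝ) →ₗ[ℝ] ((Fin n → ℝ) →L[ℝ] ℝ)) hinj hrank
    refine ⟨L.toContinuousLinearEquiv, ?_⟩
    ext w v
    rfl
  have cdf : ContDiffAt ℝ 2 G (a₀, p a₀) := hG.contDiffAt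
  have hn : (2 : WithTop ℕ∞) ≠ 0 := by norm_num
  have key := cdf.eventually_apply_eq_iff_implicitFunction hn hinv
  have hcont : Tendsto (fun a => (a, p a)) (𝓝 a₀) (𝓝 (a₀, p a₀)) :=
    (continuousAt_id.prodMk hp)
  have key2 := hcont.eventually key
  have hreg := cdf.contDiffAt_implicitFunction hn hinv
  refine hreg.congr_of_eventuallyEq ?_
  filter_upwards [key2, hG0] with a h1 h2
  have h3 : G (a, p a) = G (a₀, p a₀) := by rw [h2, hGu]
  exact (h1.mp h3).symm

end Pool.AF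
end

/- Helper16.LDA.H94.AS.LocP -/
section
open Set Finset
open scoped Matrix

set_option linter.unusedSectionVars false

namespace Pool.AF

/-! ## AS-8 LOCP: the minimiser in coordinates is smooth at the points where it is zero

`F (a, y) = trace (A a * exp (-(b y)))` is a finite sum of products of linear functions and entries
of the exponential (`exp_entry_contDiff`). `p` is continuous at `a₀` by `argmin_tendsto` (apply it
to `P A = b (p (e A))` for symmetric positive definite `A`). The second derivative along a line at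
`p a₀ = 0` is `trace (A₀ W W) > 0` by `line_deriv`, `line_deriv2`, `trace_mul_sq_pos` (`W = b w`).
Apply `argmin_contDiffAt`. -/

private theorem coord_cont {d m : ℕ} (e : symS d ≃ₗ[ℝ] (Fin m → ℝ)) :
    Continuous fun a : Fin m → ℝ => ((e.symm a : symS d) : Matrix (Fin d) (Fin d) ℝ) := by
  have h : Continuous ((symS d).subtype ∘ₗ (e.symm : (Fin m → ℝ) →ₗ[ℝ] symS d)) :=
    LinearMap.continuous_of_finiteDimensional _
  exact h

theorem isOpen_posDef_coord {d m : ℕ} (e : symS d ≃ₗ[ℝ] (Fin m → ℝ)) :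
    IsOpen {a : Fin m → ℝ | ((e.symm a : symS d) : Matrix (Fin d) (Fin d) ℝ).PosDef} := by
  have hc := coord_cont e
  have hf : Continuous fun z : (Fin m → ℝ) × (Fin d → ℝ) =>
      z.2 ⬝ᵥ (((e.symm z.1 : symS d) : Matrix (Fin d) (Fin d) ℝ) *ᵥ z.2) := by
    have h1 : Continuous fun z : (Fin m → ℝ) × (Fin d → ℝ) =>
        ((e.symm z.1 : symS d) : Matrix (Fin d) (Fin d) ℝ) := hc.comp continuous_fst
    exact continuous_snd.dotProduct (h1.matrix_mulVec continuous_snd)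
  have hK : IsCompact (Metric.sphere (0 : Fin d → ℝ) 1) := isCompact_sphere _ _
  rw [isOpen_iff_mem_nhds]
  intro a₀ ha₀
  have ha₀' : ((e.symm a₀ : symS d) : Matrix (Fin d) (Fin d) ℝ).PosDef := ha₀
  have hev : ∀ᶠ a in nhds a₀, ∀ x ∈ Metric.sphere (0 : Fin d → ℝ) 1,
      0 < x ⬝ᵥ (((e.symm a : symS d) : Matrix (Fin d) (Fin d) ℝ) *ᵥ x) := by
    apply hK.eventually_forall_of_forall_eventually
    intro x hx
    have hx0 : x ≠ 0 := by
      rintro rfl
      simp at hx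
    have hpos : 0 < x ⬝ᵥ (((e.symm a₀ : symS d) : Matrix (Fin d) (Fin d) ℝ) *ᵥ x) := by
      have := ha₀'.dotProduct_mulVec_pos hx0
      simpa using this
    exact hf.continuousAt.eventually (lt_mem_nhds hpos)
  filter_upwards [hev] with a ha
  refine Matrix.PosDef.of_dotProduct_mulVec_pos ?_ ?_
  · have h1 : (((e.symm a : symS d) : Matrix (Fin d) (Fin d) ℝ))ᵀ =
        ((e.symm a : symS d) : Matrix (Fin d) (Fin d) ℝ) := mem_symS.1 (e.symm a).2
    rw [Matrix.IsHermitian, Matrix.conjTranspose_eq_transpose_of_trivial]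
    exact h1
  · intro x hx0
    have hn : 0 < ‖x‖ := norm_pos_iff.2 hx0
    have h2 := ha (‖x‖⁻¹ • x) (by
      rw [mem_sphere_zero_iff_norm, norm_smul, norm_inv, norm_norm, inv_mul_cancel₀ hn.ne'])
    rw [Matrix.mulVec_smul, dotProduct_smul, smul_dotProduct, smul_smul, smul_eq_mul] at h2
    have h3 : 0 < ‖x‖⁻¹ * ‖x‖⁻¹ := by positivity
    have h4 : 0 < x ⬝ᵥ (((e.symm a : symS d) : Matrix (Fin d) (Fin d) ℝ) *ᵥ x) :=
      (mul_pos_iff_of_pos_left h3).1 h2
    simpa using h4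

theorem argmin_coord {d m n : ℕ} (𝔭 : Submodule ℝ (Matrix (Fin d) (Fin d) ℝ))
    (h𝔭 : GeodSpace 𝔭) (e : symS d ≃ₗ[ℝ] (Fin m → ℝ)) (b : (Fin n → ℝ) ≃ₗ[ℝ] 𝔭)
    (p : (Fin m → ℝ) → (Fin n → ℝ))
    (hp : ∀ a, ((e.symm a : symS d) : Matrix (Fin d) (Fin d) ℝ).PosDef →
      IsArgmin 𝔭 ((e.symm a : symS d) : Matrix (Fin d) (Fin d) ℝ)
        ((b (p a) : 𝔭) : Matrix (Fin d) (Fin d) ℝ))
    (a₀ : Fin m → ℝ) (ha₀ : ((e.symm a₀ : symS d) : Matrix (Fin d) (Fin d) ℝ).PosDef)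
    (h0 : p a₀ = 0) : ContDiffAt ℝ 2 p a₀ := by
  classical
  let F : (Fin m → ℝ) × (Fin n → ℝ) → ℝ := fun z =>
    (((e.symm z.1 : symS d) : Matrix (Fin d) (Fin d) ℝ) *
      NormedSpace.exp (-((b z.2 : 𝔭) : Matrix (Fin d) (Fin d) ℝ))).trace
  have hF : ContDiff ℝ 4 F := by
    have hFe : F = fun z => ∑ i, ∑ j, (((e.symm z.1 : symS d) : Matrix (Fin d) (Fin d) ℝ) i j) *
        NormedSpace.exp (-((b z.2 : 𝔭) : Matrix (Fin d) (Fin d) ℝ)) j i := by
      funext z
      simp only [F, Matrix.trace, Matrix.diag, Matrix.mul_apply]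
    rw [hFe]
    refine ContDiff.sum fun i _ => ContDiff.sum fun j _ => ContDiff.mul ?_ ?_
    · let l : (Fin m → ℝ) →ₗ[ℝ] ℝ :=
        { toFun := fun a => ((e.symm a : symS d) : Matrix (Fin d) (Fin d) ℝ) i j
          map_add' := by
            intro x y
            rw [map_add]
            rfl
          map_smul' := by
            intro c x
            rw [map_smul]
            rfl }
      have hl : ContDiff ℝ 4 (LinearMap.toContinuousLinearMap l) :=
        ContinuousLinearMap.contDiff _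
      exact hl.comp contDiff_fst
    · let L : (Fin n → ℝ) →ₗ[ℝ] Matrix (Fin d) (Fin d) ℝ := -(𝔭.subtype ∘ₗ b.toLinearMap)
      have hL := exp_entry_contDiff L j i
      exact hL.comp contDiff_snd
  have hpc : ContinuousAt p a₀ := by
    let P : Matrix (Fin d) (Fin d) ℝ → Matrix (Fin d) (Fin d) ℝ := fun A =>
      ((b (p (e (toSym d A))) : 𝔭) : Matrix (Fin d) (Fin d) ℝ)
    have hPa : ∀ a, P ((e.symm a : symS d) : Matrix (Fin d) (Fin d) ℝ) =
        ((b (p a) : 𝔭) : Matrix (Fin d) (Fin d) ℝ) := by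
      intro a
      have h1 : toSym d ((e.symm a : symS d) : Matrix (Fin d) (Fin d) ℝ) = e.symm a := by
        apply Subtype.ext
        exact toSym_coe _ (mem_symS.1 (e.symm a).2)
      simp only [P]
      rw [h1, e.apply_symm_apply]
    have hP : ∀ A : Matrix (Fin d) (Fin d) ℝ, A.PosDef → IsArgmin 𝔭 A (P A) := by
      intro A hA
      have hAs : Aᵀ = A := by
        have := hA.isHermitian
        rwa [Matrix.IsHermitian, Matrix.conjTranspose_eq_transpose_of_trivial] at this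
      have h1 : ((e.symm (e (toSym d A)) : symS d) : Matrix (Fin d) (Fin d) ℝ) = A := by
        rw [e.symm_apply_apply]
        exact toSym_coe A hAs
      have h2 := hp (e (toSym d A)) (by rw [h1]; exact hA)
      rw [h1] at h2
      exact h2
    have ht := argmin_tendsto 𝔭 h𝔭 P hP _ ha₀
    have hw : Filter.Tendsto (fun a : Fin m → ℝ =>
        ((e.symm a : symS d) : Matrix (Fin d) (Fin d) ℝ)) (nhds a₀)
        (nhdsWithin ((e.symm a₀ : symS d) : Matrix (Fin d) (Fin d) ℝ)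
          {A : Matrix (Fin d) (Fin d) ℝ | A.PosDef}) := by
      rw [tendsto_nhdsWithin_iff]
      exact ⟨(coord_cont e).tendsto a₀, (isOpen_posDef_coord e).mem_nhds ha₀⟩
    have h3 := ht.comp hw
    have h4 : Filter.Tendsto (fun a => b (p a)) (nhds a₀) (nhds (b (p a₀))) := by
      rw [tendsto_subtype_rng]
      rw [hPa a₀] at h3
      refine h3.congr fun a => ?_
      exact hPa a
    have h5 : Continuous (b.symm : 𝔭 →ₗ[ℝ] (Fin n → ℝ)) :=
      LinearMap.continuous_of_finiteDimensional _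
    have h6 := (h5.tendsto (b (p a₀))).comp h4
    have h7 : Filter.Tendsto p (nhds a₀) (nhds (p a₀)) := by
      have e1 : (b.symm : 𝔭 →ₗ[ℝ] (Fin n → ℝ)) (b (p a₀)) = p a₀ := b.symm_apply_apply _
      rw [e1] at h6
      refine h6.congr fun a => ?_
      exact b.symm_apply_apply _
    exact h7
  have hmin : ∀ᶠ a in nhds a₀, ∀ y, F (a, p a) ≤ F (a, y) := by
    filter_upwards [(isOpen_posDef_coord e).mem_nhds ha₀] with a ha y
    have h1 := hp a ha
    by_cases hy : ((b y : 𝔭) : Matrix (Fin d) (Fin d) ℝ) = ((b (p a) : 𝔭) : Matrix (Fin d) (Fin d) ℝ)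
    · simp only [F]
      rw [hy]
    · exact (h1.2 _ (b y).2 hy).le
  refine argmin_contDiffAt F hF p a₀ hpc hmin ?_
  intro w hw
  set A₀ : Matrix (Fin d) (Fin d) ℝ := ((e.symm a₀ : symS d) : Matrix (Fin d) (Fin d) ℝ) with hA₀
  set W : Matrix (Fin d) (Fin d) ℝ := ((b w : 𝔭) : Matrix (Fin d) (Fin d) ℝ) with hW
  have hWs : Wᵀ = W := h𝔭.symm _ (b w).2
  have hW0 : W ≠ 0 := by
    intro h
    apply hw
    have h1 : b w = 0 := Subtype.ext h
    exact (map_eq_zero_iff b b.injective).1 h1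
  have hfun : (fun s : ℝ => F (a₀, p a₀ + s • w)) =
      fun s : ℝ => (A₀ * NormedSpace.exp (-(s • W))).trace := by
    funext s
    simp only [F]
    rw [h0, zero_add, map_smul]
    rfl
  refine ⟨fun s => -(A₀ * W * NormedSpace.exp (-(s • W))).trace,
    (A₀ * W * W * NormedSpace.exp (-((0 : ℝ) • W))).trace, ?_, ?_, ?_⟩
  · rw [zero_smul, neg_zero, NormedSpace.exp_zero, mul_one]
    exact (trace_mul_sq_pos A₀ W ha₀ hWs hW0).ne'
  · intro s
    rw [hfun]
    exact line_deriv A₀ W s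
  · exact line_deriv2 A₀ W 0

end Pool.AF
end

/- Helper16.LDA.H94.AS.ExpSym -/
section
open Set Finset
open scoped Matrix

set_option linter.unusedSectionVars false

namespace Pool.AF

/-! ## AS-1 EXPSYM: exponentials of symmetric matrices

`exp X = exp (X / 2) ^ 2` is positive definite. Injectivity: write `X = U D U⁻¹` and
`Y = V E V⁻¹` with diagonal `D`, `E`; then `exp D * W = W * exp E` for `W = U⁻¹ V`, so `D W = W E`
entry by entry. -/

theorem exp_posDef {d : ℕ} (X : Matrix (Fin d) (Fin d) ℝ) (hX : Xᵀ = X) :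
    (NormedSpace.exp X).PosDef := by
  have h1 : NormedSpace.exp X
      = NormedSpace.exp ((1 / 2 : ℝ) • X) * NormedSpace.exp ((1 / 2 : ℝ) • X) := by
    rw [← Matrix.exp_add_of_commute _ _ (Commute.refl _), ← add_smul]
    norm_num
  have hH : X.IsHermitian := by
    rw [Matrix.IsHermitian, Matrix.conjTranspose_eq_transpose_of_trivial]
    exact hX
  have h2 : ((1 / 2 : ℝ) • X).IsHermitian := by
    rw [Matrix.IsHermitian, Matrix.conjTranspose_eq_transpose_of_trivial, Matrix.transpose_smul, hX]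
  have h3 : (NormedSpace.exp ((1 / 2 : ℝ) • X))ᴴ = NormedSpace.exp ((1 / 2 : ℝ) • X) := h2.exp
  have h4 : NormedSpace.exp X
      = (NormedSpace.exp ((1 / 2 : ℝ) • X))ᴴ * NormedSpace.exp ((1 / 2 : ℝ) • X) := by
    rw [h3]; exact h1
  rw [h4]
  apply Matrix.PosDef.conjTranspose_mul_self
  exact Matrix.mulVec_injective_of_isUnit (Matrix.isUnit_exp _)

/-- A symmetric matrix is conjugate to a diagonal one. -/
theorem exists_diag {d : ℕ} (X : Matrix (Fin d) (Fin d) ℝ) (hX : Xᵀ = X) :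
    ∃ (U : Matrix (Fin d) (Fin d) ℝ) (a : Fin d → ℝ), IsUnit U ∧ X = U * Matrix.diagonal a * U⁻¹ := by
  have hH : X.IsHermitian := by
    rw [Matrix.IsHermitian, Matrix.conjTranspose_eq_transpose_of_trivial]
    exact hX
  have hmem := hH.eigenvectorUnitary.2
  have hu1 : star (hH.eigenvectorUnitary : Matrix (Fin d) (Fin d) ℝ)
      * (hH.eigenvectorUnitary : Matrix (Fin d) (Fin d) ℝ) = 1 := (Unitary.mem_iff.mp hmem).1
  have hu2 : (hH.eigenvectorUnitary : Matrix (Fin d) (Fin d) ℝ)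
      * star (hH.eigenvectorUnitary : Matrix (Fin d) (Fin d) ℝ) = 1 := (Unitary.mem_iff.mp hmem).2
  have hinv : (hH.eigenvectorUnitary : Matrix (Fin d) (Fin d) ℝ)⁻¹
      = star (hH.eigenvectorUnitary : Matrix (Fin d) (Fin d) ℝ) := Matrix.inv_eq_left_inv hu1
  refine ⟨hH.eigenvectorUnitary, hH.eigenvalues, ⟨⟨_, _, hu2, hu1⟩, rfl⟩, ?_⟩
  rw [hinv]
  exact hH.spectral_theorem

theorem exp_inj {d : ℕ} (X Y : Matrix (Fin d) (Fin d) ℝ) (hX : Xᵀ = X) (hY : Yᵀ = Y)
    (h : NormedSpace.exp X = NormedSpace.exp Y) : X = Y := by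
  obtain ⟨U, a, hU, rfl⟩ := exists_diag X hX
  obtain ⟨V, b, hV, rfl⟩ := exists_diag Y hY
  have hUd : IsUnit U.det := (Matrix.isUnit_iff_isUnit_det _).mp hU
  have hVd : IsUnit V.det := (Matrix.isUnit_iff_isUnit_det _).mp hV
  rw [Matrix.exp_conj _ _ hU, Matrix.exp_conj _ _ hV, Matrix.exp_diagonal, Matrix.exp_diagonal] at h
  have key : ∀ p q : Fin d → ℝ, U * Matrix.diagonal p * U⁻¹ = V * Matrix.diagonal q * V⁻¹ ↔
      Matrix.diagonal p * (U⁻¹ * V) = (U⁻¹ * V) * Matrix.diagonal q := by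
    intro p q
    constructor
    · intro h1
      calc Matrix.diagonal p * (U⁻¹ * V)
          = U⁻¹ * U * (Matrix.diagonal p * (U⁻¹ * V)) := by
            rw [Matrix.nonsing_inv_mul _ hUd, Matrix.one_mul]
        _ = U⁻¹ * (U * Matrix.diagonal p * U⁻¹) * V := by simp only [Matrix.mul_assoc]
        _ = U⁻¹ * (V * Matrix.diagonal q * V⁻¹) * V := by rw [h1]
        _ = U⁻¹ * V * Matrix.diagonal q * (V⁻¹ * V) := by simp only [Matrix.mul_assoc]
        _ = U⁻¹ * V * Matrix.diagonal q := by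
            rw [Matrix.nonsing_inv_mul _ hVd, Matrix.mul_one]
    · intro h1
      calc U * Matrix.diagonal p * U⁻¹
          = U * Matrix.diagonal p * U⁻¹ * (V * V⁻¹) := by
            rw [Matrix.mul_nonsing_inv _ hVd, Matrix.mul_one]
        _ = U * (Matrix.diagonal p * (U⁻¹ * V)) * V⁻¹ := by simp only [Matrix.mul_assoc]
        _ = U * ((U⁻¹ * V) * Matrix.diagonal q) * V⁻¹ := by rw [h1]
        _ = (U * U⁻¹) * (V * Matrix.diagonal q * V⁻¹) := by simp only [Matrix.mul_assoc]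
        _ = V * Matrix.diagonal q * V⁻¹ := by
            rw [Matrix.mul_nonsing_inv _ hUd, Matrix.one_mul]
  rw [key] at h ⊢
  ext i j
  have hij := congrFun (congrFun h i) j
  rw [Matrix.diagonal_mul, Matrix.mul_diagonal] at hij ⊢
  rw [Pi.coe_exp, Pi.coe_exp] at hij
  by_cases hW : (U⁻¹ * V) i j = 0
  · rw [hW, mul_zero, zero_mul]
  · rw [mul_comm ((U⁻¹ * V) i j)] at hij
    have h1 := mul_right_cancel₀ hW hij
    rw [← Real.exp_eq_exp_ℝ] at h1
    rw [Real.exp_injective h1, mul_comm]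

end Pool.AF
end

/- Helper16.LDA.H94.AS.Conj -/
section
open Set Finset
open scoped Matrix

set_option linter.unusedSectionVars false

namespace Pool.AF

/-! ## AS-9 CONJ: equivariance of the minimiser

For `W ∈ 𝔭` let `N exp W Nᵀ = t⁻¹ exp X`, `X ∈ 𝔭`, so `exp W = t⁻¹ M exp X Mᵀ` and
`exp (-W) = (exp W)⁻¹ = t Nᵀ exp (-X) N` (`Matrix.exp_neg`), hence
`trace (M A Mᵀ exp (-W)) = t trace (A exp (-X))`. So the minimum over `W` is attained exactly when
`X = Y`, i.e. `Y' = W` with `exp Y' = t⁻¹ M exp Y Mᵀ` (use `exp_inj`). -/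

private theorem conj_mul_exp_neg {d : ℕ} (X : Matrix (Fin d) (Fin d) ℝ) :
    NormedSpace.exp X * NormedSpace.exp (-X) = 1 := by
  rw [Matrix.exp_neg]
  exact Matrix.mul_nonsing_inv _ ((Matrix.isUnit_iff_isUnit_det _).1 (Matrix.isUnit_exp X))

private theorem conj_trace {d : ℕ} (M N : Matrix (Fin d) (Fin d) ℝ) (hMN : M * N = 1) (t : ℝ)
    (ht : 0 < t) (A X W : Matrix (Fin d) (Fin d) ℝ)
    (h : N * NormedSpace.exp W * Nᵀ = t⁻¹ • NormedSpace.exp X) :
    (M * A * Mᵀ * NormedSpace.exp (-W)).trace = t * (A * NormedSpace.exp (-X)).trace := by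
  have hNM : N * M = 1 := mul_eq_one_comm.1 hMN
  have hMNt : Mᵀ * Nᵀ = 1 := by rw [← Matrix.transpose_mul, hNM, Matrix.transpose_one]
  have hNMt : Nᵀ * Mᵀ = 1 := by rw [← Matrix.transpose_mul, hMN, Matrix.transpose_one]
  have hinv : NormedSpace.exp W * (t • (Nᵀ * NormedSpace.exp (-X) * N)) = 1 := by
    have h1 : NormedSpace.exp W = t⁻¹ • (M * NormedSpace.exp X * Mᵀ) := by
      calc NormedSpace.exp W = (M * N) * NormedSpace.exp W * (Nᵀ * Mᵀ) := by
            rw [hMN, hNMt, Matrix.one_mul, Matrix.mul_one]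
        _ = M * (N * NormedSpace.exp W * Nᵀ) * Mᵀ := by simp only [Matrix.mul_assoc]
        _ = t⁻¹ • (M * NormedSpace.exp X * Mᵀ) := by
            rw [h, Matrix.mul_smul, Matrix.smul_mul]
    rw [h1, Matrix.smul_mul, Matrix.mul_smul, smul_smul, inv_mul_cancel₀ ht.ne', one_smul]
    calc M * NormedSpace.exp X * Mᵀ * (Nᵀ * NormedSpace.exp (-X) * N)
        = M * (NormedSpace.exp X * ((Mᵀ * Nᵀ) * (NormedSpace.exp (-X) * N))) := by
          simp only [Matrix.mul_assoc]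
      _ = M * ((NormedSpace.exp X * NormedSpace.exp (-X)) * N) := by
          rw [hMNt, Matrix.one_mul, Matrix.mul_assoc]
      _ = 1 := by rw [conj_mul_exp_neg, Matrix.one_mul, hMN]
  have hneg : NormedSpace.exp (-W) = t • (Nᵀ * NormedSpace.exp (-X) * N) := by
    have h2 : NormedSpace.exp (-W) * NormedSpace.exp W = 1 :=
      mul_eq_one_comm.1 (conj_mul_exp_neg W)
    calc NormedSpace.exp (-W)
        = NormedSpace.exp (-W) *
            (NormedSpace.exp W * (t • (Nᵀ * NormedSpace.exp (-X) * N))) := by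
          rw [hinv, Matrix.mul_one]
      _ = t • (Nᵀ * NormedSpace.exp (-X) * N) := by
          rw [← Matrix.mul_assoc, h2, Matrix.one_mul]
  rw [hneg, Matrix.mul_smul, Matrix.trace_smul, smul_eq_mul]
  congr 1
  calc (M * A * Mᵀ * (Nᵀ * NormedSpace.exp (-X) * N)).trace
      = ((M * A * ((Mᵀ * Nᵀ) * NormedSpace.exp (-X))) * N).trace := by
        simp only [Matrix.mul_assoc]
    _ = (N * (M * A * ((Mᵀ * Nᵀ) * NormedSpace.exp (-X)))).trace := Matrix.trace_mul_comm _ _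
    _ = ((N * M) * (A * NormedSpace.exp (-X))).trace := by
        rw [hMNt, Matrix.one_mul]
        simp only [Matrix.mul_assoc]
    _ = (A * NormedSpace.exp (-X)).trace := by rw [hNM, Matrix.one_mul]

theorem argmin_conj {d : ℕ} (𝔭 : Submodule ℝ (Matrix (Fin d) (Fin d) ℝ)) (h𝔭 : GeodSpace 𝔭)
    (M N : Matrix (Fin d) (Fin d) ℝ) (hMN : M * N = 1) (t : ℝ) (ht : 0 < t)
    (hM : MapsExp 𝔭 M t) (hN : MapsExp 𝔭 N t⁻¹) (A Y Y' : Matrix (Fin d) (Fin d) ℝ)
    (hY : IsArgmin 𝔭 A Y) (hY' : IsArgmin 𝔭 (M * A * Mᵀ) Y') :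
    M * NormedSpace.exp Y * Mᵀ = t • NormedSpace.exp Y' := by
  have hNM : N * M = 1 := mul_eq_one_comm.1 hMN
  have hMNt : Mᵀ * Nᵀ = 1 := by rw [← Matrix.transpose_mul, hNM, Matrix.transpose_one]
  obtain ⟨W, hW, hWe⟩ := hM Y hY.1
  have hback : N * NormedSpace.exp W * Nᵀ = t⁻¹ • NormedSpace.exp Y := by
    have h1 : NormedSpace.exp W = t⁻¹ • (M * NormedSpace.exp Y * Mᵀ) := by
      rw [hWe, smul_smul, inv_mul_cancel₀ ht.ne', one_smul]
    rw [h1, Matrix.mul_smul, Matrix.smul_mul]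
    congr 1
    calc N * (M * NormedSpace.exp Y * Mᵀ) * Nᵀ
        = (N * M) * NormedSpace.exp Y * (Mᵀ * Nᵀ) := by simp only [Matrix.mul_assoc]
      _ = NormedSpace.exp Y := by rw [hNM, hMNt, Matrix.one_mul, Matrix.mul_one]
  by_cases hWY : W = Y'
  · rw [hWe, hWY]
  · exfalso
    have h1 := hY'.2 W hW hWY
    obtain ⟨X', hX', hX'e⟩ := hN Y' hY'.1
    rw [conj_trace M N hMN t ht A X' Y' hX'e, conj_trace M N hMN t ht A Y W hback] at h1
    have h2 : (A * NormedSpace.exp (-X')).trace < (A * NormedSpace.exp (-Y)).trace :=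
      lt_of_mul_lt_mul_left h1 ht.le
    by_cases hXY : X' = Y
    · rw [hXY] at h2
      exact lt_irrefl _ h2
    · exact lt_asymm h2 (hY.2 X' hX' hXY)

/-- The factors of inverse matrices are inverse: if `M exp X Mᵀ = t exp W` and
`N exp W Nᵀ = s exp W'` then `exp X = t s exp W' = exp (W' + log (t s) • 1)`, so by `exp_inj` and
the traces `log (t s) = 0`. -/
theorem mapsExp_inv {d : ℕ} (hd : 0 < d) (𝔭 : Submodule ℝ (Matrix (Fin d) (Fin d) ℝ))
    (h𝔭 : GeodSpace 𝔭) (M N : Matrix (Fin d) (Fin d) ℝ) (hMN : M * N = 1) (t s : ℝ) (ht : 0 < t)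
    (hs : 0 < s) (hM : MapsExp 𝔭 M t) (hN : MapsExp 𝔭 N s) : s = t⁻¹ := by
  have hNM : N * M = 1 := mul_eq_one_comm.1 hMN
  have hMNt : Mᵀ * Nᵀ = 1 := by rw [← Matrix.transpose_mul, hNM, Matrix.transpose_one]
  obtain ⟨W, hW, hWe⟩ := hM 0 𝔭.zero_mem
  obtain ⟨W', hW', hWe'⟩ := hN W hW
  have hts : 0 < t * s := mul_pos ht hs
  have h1 : (1 : Matrix (Fin d) (Fin d) ℝ) = (t * s) • NormedSpace.exp W' := by
    calc (1 : Matrix (Fin d) (Fin d) ℝ) = (N * M) * (Mᵀ * Nᵀ) := by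
          rw [hNM, hMNt, Matrix.one_mul]
      _ = N * (M * NormedSpace.exp (0 : Matrix (Fin d) (Fin d) ℝ) * Mᵀ) * Nᵀ := by
          rw [NormedSpace.exp_zero]
          simp only [Matrix.mul_assoc, Matrix.one_mul]
      _ = (t * s) • NormedSpace.exp W' := by
          rw [hWe, Matrix.mul_smul, Matrix.smul_mul, hWe', smul_smul]
  have h2 : NormedSpace.exp W' =
      NormedSpace.exp ((Real.log (t * s)⁻¹) • (1 : Matrix (Fin d) (Fin d) ℝ)) := by
    have h3 : NormedSpace.exp W' = (t * s)⁻¹ • (1 : Matrix (Fin d) (Fin d) ℝ) := by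
      rw [h1, smul_smul, inv_mul_cancel₀ hts.ne', one_smul]
    rw [h3, Matrix.smul_one_eq_diagonal, Matrix.smul_one_eq_diagonal, Matrix.exp_diagonal]
    congr 1
    funext i
    rw [Pi.coe_exp, ← Real.exp_eq_exp_ℝ, Real.exp_log (inv_pos.2 hts)]
  have h4 : W' = (Real.log (t * s)⁻¹) • (1 : Matrix (Fin d) (Fin d) ℝ) := by
    refine exp_inj _ _ (h𝔭.symm W' hW') ?_ h2
    rw [Matrix.transpose_smul, Matrix.transpose_one]
  have h5 := h𝔭.trace W' hW'
  rw [h4, Matrix.trace_smul, Matrix.trace_one, Fintype.card_fin, smul_eq_mul] at h5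
  have hd' : (d : ℝ) ≠ 0 := Nat.cast_ne_zero.2 hd.ne'
  have h6 : Real.log (t * s)⁻¹ = 0 := by
    rcases mul_eq_zero.1 h5 with h | h
    · exact h
    · exact absurd h hd'
  have h7 : (t * s)⁻¹ = 1 := by
    have h8 := Real.exp_log (inv_pos.2 hts)
    rw [h6, Real.exp_zero] at h8
    exact h8.symm
  have h9 : t * s = 1 := inv_eq_one.1 h7
  exact eq_inv_of_mul_eq_one_right h9

end Pool.AF
end

/- Helper16.LDA.H94.AS.Min -/
section
open Set Finset
open scoped Matrix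

set_option linter.unusedSectionVars false

namespace Pool.AF

/-! ## AS-4 MIN: existence and uniqueness of the minimiser

Existence: `Y ↦ trace (A exp (-Y))` is continuous on the finite-dimensional space `𝔭` and its
sublevel sets are bounded (`posDef_lower`, `trace_coer`). Uniqueness: let `Y` be a minimiser,
`W ∈ 𝔭`, `W ≠ Y`, `g = exp (Y / 2)`. By `geod` (with `X = -Y / 2`)
`exp (-Y/2) exp W exp (-Y/2) = exp Z`, `Z ∈ 𝔭`, `Z ≠ 0` by `exp_inj`, so `exp W = g exp Z g`; for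
every `t`, `g exp (t Z) g = exp W_t` with `W_t ∈ 𝔭`. With `B = g⁻¹ A g⁻¹` positive definite,
`trace (A exp (-W_t)) = trace (B exp (-(t Z)))` (inverse matrices, `Matrix.exp_neg`), and
`line_strict` gives the claim. -/

section
open scoped Matrix.Norms.Operator
private theorem min_cont_exp (d : ℕ) :
    Continuous (fun X : Matrix (Fin d) (Fin d) ℝ => NormedSpace.exp X) :=
  NormedSpace.exp_continuous
end

private theorem min_exp_mul_neg {d : ℕ} (X : Matrix (Fin d) (Fin d) ℝ) :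
    NormedSpace.exp X * NormedSpace.exp (-X) = 1 := by
  rw [Matrix.exp_neg]
  exact Matrix.mul_nonsing_inv _ ((Matrix.isUnit_iff_isUnit_det _).mp (Matrix.isUnit_exp X))

private theorem min_exp_neg_mul {d : ℕ} (X : Matrix (Fin d) (Fin d) ℝ) :
    NormedSpace.exp (-X) * NormedSpace.exp X = 1 := by
  have h := min_exp_mul_neg (-X)
  rwa [neg_neg] at h

/-- if `exp W = a * exp Z * a` with `a = exp V`, then `exp (-W) = exp (-V) exp (-Z) exp (-V)` -/
private theorem min_inv {d : ℕ} (V W Z : Matrix (Fin d) (Fin d) ℝ)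
    (h : NormedSpace.exp V * NormedSpace.exp Z * NormedSpace.exp V = NormedSpace.exp W) :
    NormedSpace.exp (-W) =
      NormedSpace.exp (-V) * NormedSpace.exp (-Z) * NormedSpace.exp (-V) := by
  have h1 : NormedSpace.exp W * (NormedSpace.exp (-V) * NormedSpace.exp (-Z) *
      NormedSpace.exp (-V)) = 1 := by
    rw [← h]
    calc NormedSpace.exp V * NormedSpace.exp Z * NormedSpace.exp V *
        (NormedSpace.exp (-V) * NormedSpace.exp (-Z) * NormedSpace.exp (-V))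
        = NormedSpace.exp V * NormedSpace.exp Z * (NormedSpace.exp V * NormedSpace.exp (-V)) *
            NormedSpace.exp (-Z) * NormedSpace.exp (-V) := by simp only [Matrix.mul_assoc]
      _ = NormedSpace.exp V * (NormedSpace.exp Z * NormedSpace.exp (-Z)) *
            NormedSpace.exp (-V) := by
          rw [min_exp_mul_neg V]
          simp only [Matrix.mul_assoc, Matrix.mul_one]
      _ = 1 := by
          rw [min_exp_mul_neg Z, Matrix.mul_one, min_exp_mul_neg V]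
  calc NormedSpace.exp (-W) = NormedSpace.exp (-W) * (NormedSpace.exp W *
        (NormedSpace.exp (-V) * NormedSpace.exp (-Z) * NormedSpace.exp (-V))) := by
        rw [h1, Matrix.mul_one]
    _ = (NormedSpace.exp (-W) * NormedSpace.exp W) *
        (NormedSpace.exp (-V) * NormedSpace.exp (-Z) * NormedSpace.exp (-V)) := by
        simp only [Matrix.mul_assoc]
    _ = _ := by rw [min_exp_neg_mul, Matrix.one_mul]

private theorem min_half {d : ℕ} (Y : Matrix (Fin d) (Fin d) ℝ) :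
    NormedSpace.exp ((1 / 2 : ℝ) • Y) * NormedSpace.exp ((1 / 2 : ℝ) • Y) =
      NormedSpace.exp Y := by
  rw [← Matrix.exp_add_of_commute _ _ (Commute.refl _), ← add_smul]
  norm_num

private theorem min_exists {d : ℕ} (𝔭 : Submodule ℝ (Matrix (Fin d) (Fin d) ℝ))
    (h𝔭 : GeodSpace 𝔭) (A : Matrix (Fin d) (Fin d) ℝ) (hA : A.PosDef) :
    ∃ Y ∈ 𝔭, ∀ W ∈ 𝔭,
      (A * NormedSpace.exp (-Y)).trace ≤ (A * NormedSpace.exp (-W)).trace := by
  obtain ⟨lam, hlam, hev⟩ := posDef_lower A hA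
  have hA2 := hev.self_of_nhds
  have hAt : Aᵀ = A := by
    have := hA.isHermitian
    rwa [Matrix.IsHermitian, Matrix.conjTranspose_eq_transpose_of_trivial] at this
  set f : Matrix (Fin d) (Fin d) ℝ → ℝ := fun Y => (A * NormedSpace.exp (-Y)).trace with hf
  have hfc : Continuous f := by
    have h1 : Continuous fun Y : Matrix (Fin d) (Fin d) ℝ => NormedSpace.exp (-Y) :=
      (min_cont_exp d).comp continuous_neg
    exact (continuous_const.matrix_mul h1).matrix_trace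
  set C : ℝ := 2 * f 0 / lam with hC
  set K : Set (Matrix (Fin d) (Fin d) ℝ) :=
    Set.pi Set.univ (fun _ : Fin d => Set.pi Set.univ (fun _ : Fin d => Set.Icc (-C) C)) with hK
  have hKc : IsCompact K := isCompact_univ_pi fun _ => isCompact_univ_pi fun _ => isCompact_Icc
  have hcl : IsClosed (𝔭 : Set (Matrix (Fin d) (Fin d) ℝ)) := 𝔭.closed_of_finiteDimensional
  set S : Set (Matrix (Fin d) (Fin d) ℝ) := (K ∩ 𝔭) ∩ {Y | f Y ≤ f 0} with hS
  have hSc : IsCompact S := (hKc.inter_right hcl).inter_right (isClosed_le hfc continuous_const)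
  have hin : ∀ W ∈ 𝔭, f W ≤ f 0 → W ∈ S := by
    intro W hW hWf
    refine ⟨⟨?_, hW⟩, hWf⟩
    intro i _ j _
    have h1 := trace_coer A W lam hlam hAt hA2 (h𝔭.symm W hW) (h𝔭.trace W hW) i j
    have h2 : lam * |W i j| ≤ 2 * f 0 := h1.trans (by
      have : (A * NormedSpace.exp (-W)).trace ≤ f 0 := hWf
      (clear * - this; linarith only [this]))
    have h3 : |W i j| ≤ C := by
      rw [hC, le_div_iff₀ hlam]
      (clear * - hWf h1; linarith [mul_comm lam |W i j|])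
    exact ⟨(abs_le.mp h3).1, (abs_le.mp h3).2⟩
  have h0 : (0 : Matrix (Fin d) (Fin d) ℝ) ∈ S := hin 0 𝔭.zero_mem le_rfl
  obtain ⟨Y, hY, hmin⟩ := hSc.exists_isMinOn ⟨0, h0⟩ hfc.continuousOn
  refine ⟨Y, hY.1.2, fun W hW => ?_⟩
  rcases le_total (f W) (f 0) with h | h
  · exact hmin (hin W hW h)
  · exact (show f Y ≤ f 0 from hmin h0).trans h

theorem exists_argmin {d : ℕ} (𝔭 : Submodule ℝ (Matrix (Fin d) (Fin d) ℝ)) (h𝔭 : GeodSpace 𝔭)
    (A : Matrix (Fin d) (Fin d) ℝ) (hA : A.PosDef) : ∃ Y, IsArgmin 𝔭 A Y := by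
  obtain ⟨Y, hY, hmin⟩ := min_exists 𝔭 h𝔭 A hA
  refine ⟨Y, hY, fun W hW hne => ?_⟩
  -- V = Y / 2
  set V : Matrix (Fin d) (Fin d) ℝ := (1 / 2 : ℝ) • Y with hV
  have hVp : V ∈ 𝔭 := 𝔭.smul_mem _ hY
  have hVt : Vᵀ = V := h𝔭.symm V hVp
  have hYt : Yᵀ = Y := h𝔭.symm Y hY
  have hWt : Wᵀ = W := h𝔭.symm W hW
  have hVV : NormedSpace.exp V * NormedSpace.exp V = NormedSpace.exp Y := min_half Y
  have hVV' : NormedSpace.exp (-V) * NormedSpace.exp (-V) = NormedSpace.exp (-Y) := by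
    have := min_half (-Y)
    rwa [smul_neg] at this
  obtain ⟨Z, hZ, hZe⟩ := h𝔭.geod (-V) (𝔭.neg_mem hVp) W hW
  have hZt : Zᵀ = Z := h𝔭.symm Z hZ
  have hZ0 : Z ≠ 0 := by
    intro h0
    rw [h0, NormedSpace.exp_zero] at hZe
    apply hne
    apply exp_inj W Y hWt hYt
    have h1 : NormedSpace.exp V * (NormedSpace.exp (-V) * NormedSpace.exp W *
        NormedSpace.exp (-V)) * NormedSpace.exp V = NormedSpace.exp W := by
      calc NormedSpace.exp V * (NormedSpace.exp (-V) * NormedSpace.exp W *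
            NormedSpace.exp (-V)) * NormedSpace.exp V
          = (NormedSpace.exp V * NormedSpace.exp (-V)) * NormedSpace.exp W *
            (NormedSpace.exp (-V) * NormedSpace.exp V) := by simp only [Matrix.mul_assoc]
        _ = NormedSpace.exp W := by
            rw [min_exp_mul_neg, min_exp_neg_mul, Matrix.one_mul, Matrix.mul_one]
    rw [← h1, hZe, Matrix.mul_one, hVV]
  set B : Matrix (Fin d) (Fin d) ℝ := NormedSpace.exp (-V) * A * NormedSpace.exp (-V) with hB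
  have hgt : (NormedSpace.exp (-V))ᵀ = NormedSpace.exp (-V) := by
    rw [← Matrix.exp_transpose, Matrix.transpose_neg, hVt]
  have hBpos : B.PosDef := by
    have hu : IsUnit (NormedSpace.exp (-V)) := Matrix.isUnit_exp _
    have h1 := (Matrix.IsUnit.posDef_star_left_conjugate_iff hu (x := A)).mpr hA
    rw [Matrix.star_eq_conjTranspose, Matrix.conjTranspose_eq_transpose_of_trivial, hgt] at h1
    exact h1
  -- the trace identity
  have htr : ∀ M : Matrix (Fin d) (Fin d) ℝ,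
      (B * M).trace = (A * (NormedSpace.exp (-V) * M * NormedSpace.exp (-V))).trace := by
    intro M
    rw [hB, Matrix.trace_mul_comm A, Matrix.mul_assoc (NormedSpace.exp (-V)) A,
      Matrix.mul_assoc, Matrix.trace_mul_comm, Matrix.mul_assoc,
      Matrix.trace_mul_comm (NormedSpace.exp (-V) * M * NormedSpace.exp (-V)) A]
    simp only [Matrix.mul_assoc]
  have hBY : B.trace = (A * NormedSpace.exp (-Y)).trace := by
    have := htr 1
    rw [Matrix.mul_one, Matrix.mul_one, hVV'] at this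
    exact this
  have hline := line_strict B Z hBpos hZt hZ0 (by
    intro t
    obtain ⟨Wt, hWt', hWte⟩ := h𝔭.geod V hVp (t • Z) (𝔭.smul_mem t hZ)
    rw [htr, ← min_inv V Wt (t • Z) hWte, hBY]
    exact hmin Wt hWt')
  rw [hBY] at hline
  refine hline.trans_le (le_of_eq ?_)
  rw [htr]
  congr 2
  -- exp(-W) = exp(-V) exp(-Z) exp(-V)
  have h3 : NormedSpace.exp V * NormedSpace.exp Z * NormedSpace.exp V = NormedSpace.exp W := by
    rw [← hZe]
    calc NormedSpace.exp V * (NormedSpace.exp (-V) * NormedSpace.exp W *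
            NormedSpace.exp (-V)) * NormedSpace.exp V
          = (NormedSpace.exp V * NormedSpace.exp (-V)) * NormedSpace.exp W *
            (NormedSpace.exp (-V) * NormedSpace.exp V) := by simp only [Matrix.mul_assoc]
        _ = NormedSpace.exp W := by
            rw [min_exp_mul_neg, min_exp_neg_mul, Matrix.one_mul, Matrix.mul_one]
  exact (min_inv V W Z h3).symm

end Pool.AF
end

/- Helper16.LDA.H94.AS.Proj -/
section
open Set Finset
open scoped Matrix

set_option linter.unusedSectionVars false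

namespace Pool.AF

/-! ## AS-10 PROJ: the projection to the exponentials of `𝔭` is smooth, of rank at most `n`

Fix `a₀`, `g = exp (Y₀ / 2)` with `Y₀ = b (p a₀)`, `A a = e.symm a`. The map
`τ a = e (toSym (g⁻¹ * A a * g⁻¹))` is linear and preserves the positive definite set. By
`argmin_conj` with `M = g⁻¹`, `N = g`, `t = 1` (`MapsExp` by `geod`, `g⁻¹ = exp (-Y₀ / 2)`):
`g⁻¹ exp (b (p a)) g⁻¹ = exp (b (p (τ a)))`, i.e. `exp (b (p a)) = g exp (b (p (τ a))) g` for all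
`a` in the set; for `a = a₀` this gives `p (τ a₀) = 0` (`exp_inj`). So near `a₀` the map is
`Φ ∘ p ∘ τ` with `Φ y = e (toSym (g * exp (b y) * g))` smooth (`exp_entry_contDiff`), and
`p ∘ τ` is `C^2` at `a₀` by `argmin_coord`. The derivative factors through `ℝ^n`. -/

private theorem expTranspose {d : ℕ} (X : Matrix (Fin d) (Fin d) ℝ) (hX : Xᵀ = X) :
    (NormedSpace.exp X)ᵀ = NormedSpace.exp X := by
  rw [← Matrix.exp_transpose, hX]

private theorem mapsExp_exp {d : ℕ} (𝔭 : Submodule ℝ (Matrix (Fin d) (Fin d) ℝ))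
    (h𝔭 : GeodSpace 𝔭) (Z : Matrix (Fin d) (Fin d) ℝ) (hZ : Z ∈ 𝔭) :
    MapsExp 𝔭 (NormedSpace.exp Z) 1 := by
  intro X hX
  obtain ⟨W, hW, h⟩ := h𝔭.geod Z hZ X hX
  refine ⟨W, hW, ?_⟩
  rw [expTranspose Z (h𝔭.symm Z hZ), h, one_smul]

/-- The linear map `X ↦ e (toSym (g * X * g))`. -/
private noncomputable def conjLin {d m : ℕ} (e : symS d ≃ₗ[ℝ] (Fin m → ℝ))
    (g : Matrix (Fin d) (Fin d) ℝ) : Matrix (Fin d) (Fin d) ℝ →ₗ[ℝ] (Fin m → ℝ) :=
  (e : symS d →ₗ[ℝ] (Fin m → ℝ)) ∘ₗ toSym d ∘ₗ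
    (LinearMap.mulRight ℝ g ∘ₗ LinearMap.mulLeft ℝ g)

private theorem conjLin_apply {d m : ℕ} (e : symS d ≃ₗ[ℝ] (Fin m → ℝ))
    (g X : Matrix (Fin d) (Fin d) ℝ) : conjLin e g X = e (toSym d (g * X * g)) := rfl

private theorem phi_contDiff {d m n : ℕ} (𝔭 : Submodule ℝ (Matrix (Fin d) (Fin d) ℝ))
    (e : symS d ≃ₗ[ℝ] (Fin m → ℝ)) (b : (Fin n → ℝ) ≃ₗ[ℝ] 𝔭) (g : Matrix (Fin d) (Fin d) ℝ) :
    ContDiff ℝ 4 (fun y : Fin n → ℝ =>
      conjLin e g (NormedSpace.exp ((b y : 𝔭) : Matrix (Fin d) (Fin d) ℝ))) := by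
  have h1 : ContDiff ℝ 4 (fun y : Fin n → ℝ => (fun i j =>
      NormedSpace.exp ((b y : 𝔭) : Matrix (Fin d) (Fin d) ℝ) i j : Fin d → Fin d → ℝ)) := by
    refine contDiff_pi.2 fun i => contDiff_pi.2 fun j => ?_
    exact exp_entry_contDiff (𝔭.subtype ∘ₗ (b : (Fin n → ℝ) →ₗ[ℝ] 𝔭)) i j
  let L : (Fin d → Fin d → ℝ) →ₗ[ℝ] (Fin m → ℝ) :=
    { toFun := fun X => conjLin e g (Matrix.of X)
      map_add' := fun X Y => map_add (conjLin e g) (Matrix.of X) (Matrix.of Y)
      map_smul' := fun c X => map_smul (conjLin e g) c (Matrix.of X) }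
  have h2 : ContDiff ℝ 4 (fun X : Fin d → Fin d → ℝ => L X) :=
    (LinearMap.toContinuousLinearMap L).contDiff
  exact h2.comp h1

theorem proj_smooth {d m n : ℕ} (𝔭 : Submodule ℝ (Matrix (Fin d) (Fin d) ℝ))
    (h𝔭 : GeodSpace 𝔭) (e : symS d ≃ₗ[ℝ] (Fin m → ℝ)) (b : (Fin n → ℝ) ≃ₗ[ℝ] 𝔭)
    (p : (Fin m → ℝ) → (Fin n → ℝ))
    (hp : ∀ a, ((e.symm a : symS d) : Matrix (Fin d) (Fin d) ℝ).PosDef →
      IsArgmin 𝔭 ((e.symm a : symS d) : Matrix (Fin d) (Fin d) ℝ)
        ((b (p a) : 𝔭) : Matrix (Fin d) (Fin d) ℝ))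
    (a₀ : Fin m → ℝ) (ha₀ : ((e.symm a₀ : symS d) : Matrix (Fin d) (Fin d) ℝ).PosDef) :
    ContDiffAt ℝ 2 (fun a => e (toSym d (NormedSpace.exp
      ((b (p a) : 𝔭) : Matrix (Fin d) (Fin d) ℝ)))) a₀ ∧
    Module.finrank ℝ (LinearMap.range ((fderiv ℝ (fun a => e (toSym d (NormedSpace.exp
      ((b (p a) : 𝔭) : Matrix (Fin d) (Fin d) ℝ)))) a₀ :
      (Fin m → ℝ) →L[ℝ] (Fin m → ℝ)) : (Fin m → ℝ) →ₗ[ℝ] (Fin m → ℝ))) ≤ n := by
  set Y₀ : Matrix (Fin d) (Fin d) ℝ := ((b (p a₀) : 𝔭) : Matrix (Fin d) (Fin d) ℝ) with hY₀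
  have hY₀m : Y₀ ∈ 𝔭 := (b (p a₀)).2
  set Z : Matrix (Fin d) (Fin d) ℝ := (1 / 2 : ℝ) • Y₀ with hZ
  have hZm : Z ∈ 𝔭 := 𝔭.smul_mem _ hY₀m
  have hZn : -Z ∈ 𝔭 := 𝔭.neg_mem hZm
  have hZZ : Z + Z = Y₀ := by
    rw [hZ, ← add_smul]
    norm_num
  set g : Matrix (Fin d) (Fin d) ℝ := NormedSpace.exp Z with hg
  set gi : Matrix (Fin d) (Fin d) ℝ := NormedSpace.exp (-Z) with hgi
  have hgg : g * gi = 1 := by
    rw [hg, hgi, ← Matrix.exp_add_of_commute Z (-Z) (Commute.neg_right (Commute.refl Z)),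
      add_neg_cancel, NormedSpace.exp_zero]
  have hgg' : gi * g = 1 := by
    rw [hg, hgi, ← Matrix.exp_add_of_commute (-Z) Z (Commute.neg_left (Commute.refl Z)),
      neg_add_cancel, NormedSpace.exp_zero]
  have hgT : gᵀ = g := expTranspose Z (h𝔭.symm Z hZm)
  have hgiT : giᵀ = gi := expTranspose (-Z) (h𝔭.symm _ hZn)
  have hgsq : g * g = NormedSpace.exp Y₀ := by
    rw [hg, ← Matrix.exp_add_of_commute Z Z (Commute.refl Z), hZZ]
  have hM : MapsExp 𝔭 gi 1 := mapsExp_exp 𝔭 h𝔭 (-Z) hZn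
  have hN : MapsExp 𝔭 g 1⁻¹ := by
    rw [inv_one]
    exact mapsExp_exp 𝔭 h𝔭 Z hZm
  -- the linear map `τ`
  let τ : (Fin m → ℝ) →ₗ[ℝ] (Fin m → ℝ) :=
    conjLin e gi ∘ₗ (symS d).subtype ∘ₗ (e.symm : (Fin m → ℝ) →ₗ[ℝ] symS d)
  have hτ : ∀ a, ((e.symm (τ a) : symS d) : Matrix (Fin d) (Fin d) ℝ) =
      gi * ((e.symm a : symS d) : Matrix (Fin d) (Fin d) ℝ) * gi := by
    intro a
    have h1 : τ a = e (toSym d (gi * ((e.symm a : symS d) : Matrix (Fin d) (Fin d) ℝ) * gi)) := rfl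
    rw [h1, e.symm_apply_apply, toSym_coe]
    have h2 : (((e.symm a : symS d) : Matrix (Fin d) (Fin d) ℝ))ᵀ =
        ((e.symm a : symS d) : Matrix (Fin d) (Fin d) ℝ) := (e.symm a).2
    rw [Matrix.transpose_mul, Matrix.transpose_mul, hgiT, h2, Matrix.mul_assoc]
  have hgiU : IsUnit gi := ⟨⟨gi, g, hgg', hgg⟩, rfl⟩
  have hτpos : ∀ a, ((e.symm a : symS d) : Matrix (Fin d) (Fin d) ℝ).PosDef →
      ((e.symm (τ a) : symS d) : Matrix (Fin d) (Fin d) ℝ).PosDef := by
    intro a ha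
    rw [hτ a]
    have h1 := ha.conjTranspose_mul_mul_same (B := gi)
      (Matrix.mulVec_injective_iff_isUnit.2 hgiU)
    have h2 : giᴴ = gi := by
      rw [Matrix.conjTranspose_eq_transpose_of_trivial]
      exact hgiT
    rwa [h2] at h1
  have hkey : ∀ a, ((e.symm a : symS d) : Matrix (Fin d) (Fin d) ℝ).PosDef →
      gi * NormedSpace.exp ((b (p a) : 𝔭) : Matrix (Fin d) (Fin d) ℝ) * gi =
        NormedSpace.exp ((b (p (τ a)) : 𝔭) : Matrix (Fin d) (Fin d) ℝ) := by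
    intro a ha
    have h1 := hp a ha
    have h2 := hp (τ a) (hτpos a ha)
    rw [hτ a] at h2
    have h3 := argmin_conj 𝔭 h𝔭 gi g hgg' 1 one_pos hM hN
      ((e.symm a : symS d) : Matrix (Fin d) (Fin d) ℝ) _
      ((b (p (τ a)) : 𝔭) : Matrix (Fin d) (Fin d) ℝ) h1 (by rw [hgiT]; exact h2)
    rw [hgiT, one_smul] at h3
    exact h3
  have hkey' : ∀ a, ((e.symm a : symS d) : Matrix (Fin d) (Fin d) ℝ).PosDef →
      NormedSpace.exp ((b (p a) : 𝔭) : Matrix (Fin d) (Fin d) ℝ) =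
        g * NormedSpace.exp ((b (p (τ a)) : 𝔭) : Matrix (Fin d) (Fin d) ℝ) * g := by
    intro a ha
    rw [← hkey a ha]
    have : g * (gi * NormedSpace.exp ((b (p a) : 𝔭) : Matrix (Fin d) (Fin d) ℝ) * gi) * g =
        (g * gi) * NormedSpace.exp ((b (p a) : 𝔭) : Matrix (Fin d) (Fin d) ℝ) * (gi * g) := by
      simp only [Matrix.mul_assoc]
    rw [this, hgg, hgg', Matrix.one_mul, Matrix.mul_one]
  have hp0 : p (τ a₀) = 0 := by
    have h1 := hkey a₀ ha₀
    rw [← hY₀, ← hgsq] at h1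
    have h2 : gi * (g * g) * gi = 1 := by
      have : gi * (g * g) * gi = (gi * g) * (g * gi) := by
        simp only [Matrix.mul_assoc]
      rw [this, hgg, hgg', Matrix.one_mul]
    rw [h2] at h1
    have h3 : NormedSpace.exp ((b (p (τ a₀)) : 𝔭) : Matrix (Fin d) (Fin d) ℝ) =
        NormedSpace.exp (0 : Matrix (Fin d) (Fin d) ℝ) := by
      rw [← h1, NormedSpace.exp_zero]
    have h4 := exp_inj _ _ (h𝔭.symm _ (b (p (τ a₀))).2) Matrix.transpose_zero h3
    have h5 : b (p (τ a₀)) = 0 := Subtype.ext h4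
    exact (LinearEquiv.map_eq_zero_iff b).1 h5
  have hpc : ContDiffAt ℝ 2 p (τ a₀) :=
    argmin_coord 𝔭 h𝔭 e b p hp (τ a₀) (hτpos a₀ ha₀) hp0
  have hτc : ContDiff ℝ 2 (fun a => τ a) := (LinearMap.toContinuousLinearMap τ).contDiff
  have hpτ : ContDiffAt ℝ 2 (fun a => p (τ a)) a₀ := hpc.comp a₀ hτc.contDiffAt
  have hΦ : ContDiff ℝ 2 (fun y : Fin n → ℝ =>
      conjLin e g (NormedSpace.exp ((b y : 𝔭) : Matrix (Fin d) (Fin d) ℝ))) :=
    (phi_contDiff 𝔭 e b g).of_le (by norm_num)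
  have hev : (fun a => e (toSym d (NormedSpace.exp
      ((b (p a) : 𝔭) : Matrix (Fin d) (Fin d) ℝ)))) =ᶠ[nhds a₀]
      (fun a => (fun y : Fin n → ℝ =>
        conjLin e g (NormedSpace.exp ((b y : 𝔭) : Matrix (Fin d) (Fin d) ℝ))) (p (τ a))) := by
    filter_upwards [(isOpen_posDef_coord e).mem_nhds ha₀] with a ha
    rw [hkey' a ha]
    rfl
  refine ⟨(hΦ.contDiffAt.comp a₀ hpτ).congr_of_eventuallyEq hev, ?_⟩
  rw [hev.fderiv_eq]
  have hd1 : DifferentiableAt ℝ (fun y : Fin n → ℝ =>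
      conjLin e g (NormedSpace.exp ((b y : 𝔭) : Matrix (Fin d) (Fin d) ℝ))) (p (τ a₀)) :=
    hΦ.contDiffAt.differentiableAt (by norm_num)
  have hd2 : DifferentiableAt ℝ (fun a => p (τ a)) a₀ := hpτ.differentiableAt (by norm_num)
  have hcomp := fderiv_comp a₀ hd1 hd2
  have hcomp' : fderiv ℝ (fun a => (fun y : Fin n → ℝ =>
        conjLin e g (NormedSpace.exp ((b y : 𝔭) : Matrix (Fin d) (Fin d) ℝ))) (p (τ a))) a₀ =
      (fderiv ℝ (fun y : Fin n → ℝ =>
        conjLin e g (NormedSpace.exp ((b y : 𝔭) : Matrix (Fin d) (Fin d) ℝ))) (p (τ a₀))).comp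
        (fderiv ℝ (fun a => p (τ a)) a₀) := hcomp
  rw [hcomp']
  set F := fderiv ℝ (fun y : Fin n → ℝ =>
        conjLin e g (NormedSpace.exp ((b y : 𝔭) : Matrix (Fin d) (Fin d) ℝ))) (p (τ a₀)) with hF
  set G := fderiv ℝ (fun a => p (τ a)) a₀ with hG
  have h1 : LinearMap.range ((F.comp G : (Fin m → ℝ) →L[ℝ] (Fin m → ℝ)) :
      (Fin m → ℝ) →ₗ[ℝ] (Fin m → ℝ)) ≤ LinearMap.range (F : (Fin n → ℝ) →ₗ[ℝ] (Fin m → ℝ)) := by
    rintro x ⟨y, rfl⟩
    exact ⟨G y, rfl⟩
  refine (Submodule.finrank_mono h1).trans ?_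
  refine (LinearMap.finrank_range_le (F : (Fin n → ℝ) →ₗ[ℝ] (Fin m → ℝ))).trans ?_
  rw [Module.finrank_fin_fun]

end Pool.AF
end
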