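import Pool.Agent.Helper16.CPG.G05
import Pool.Agent.Helper16.CPG.G07
import Pool.Agent.Helper16.CPG.G08
import Pool.Agent.Helper16.CPG.G09
import Pool.Agent.Helper16.CPG.G10
import Pool.Agent.Helper16.CPG.G11
import Pool.Agent.Helper16.CPG.G12
import Pool.Agent.Helper16.CPG.G13

/- Helper16.LDA.H47.HP.Qbd -/
section
/-! # Project HP: bounds on irreducible quotients -/

set_option autoImplicit false

open Set

namespace Pool.Agent.Helper47.HP

/-- The representation of `Γ` on `U / T`. -/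
private noncomputable def qbd_rep {E : Type*} [NormedAddCommGroup E] [NormedSpace ℝ E]
    (Γ : Subgroup (E ≃ᵃ[ℝ] E)) (T U : Submodule ℝ E)
    (hT : ∀ g : Γ, ∀ u ∈ T, g.1.linear u ∈ T) (hU : ∀ g : Γ, ∀ u ∈ U, g.1.linear u ∈ U) :
    Γ →* ((U ⧸ T.submoduleOf U) →ₗ[ℝ] (U ⧸ T.submoduleOf U)) where
  toFun g := qMap T U g.1.linear.toLinearMap (hU g) (hT g)
  map_one' := by
    apply LinearMap.ext
    intro y
    obtain ⟨u, rfl⟩ := (T.submoduleOf U).mkQ_surjective y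
    rw [qMap_mk]
    rfl
  map_mul' g h := by
    apply LinearMap.ext
    intro y
    obtain ⟨u, rfl⟩ := (T.submoduleOf U).mkQ_surjective y
    rw [Module.End.mul_apply, qMap_mk, qMap_mk, qMap_mk]
    rfl

private theorem qbd_rep_mk {E : Type*} [NormedAddCommGroup E] [NormedSpace ℝ E]
    (Γ : Subgroup (E ≃ᵃ[ℝ] E)) (T U : Submodule ℝ E)
    (hT : ∀ g : Γ, ∀ u ∈ T, g.1.linear u ∈ T) (hU : ∀ g : Γ, ∀ u ∈ U, g.1.linear u ∈ U)
    (g : Γ) (v : E) (hv : v ∈ U) :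
    qbd_rep Γ T U hT hU g ((T.submoduleOf U).mkQ ⟨v, hv⟩)
      = (T.submoduleOf U).mkQ ⟨g.1.linear v, hU g v hv⟩ := rfl

private theorem qbd_irr {E : Type*} [NormedAddCommGroup E] [NormedSpace ℝ E]
    (Γ : Subgroup (E ≃ᵃ[ℝ] E)) (T U : Submodule ℝ E) (hTU : T ≤ U)
    (hT : ∀ g : Γ, ∀ u ∈ T, g.1.linear u ∈ T) (hU : ∀ g : Γ, ∀ u ∈ U, g.1.linear u ∈ U)
    (hirr : ∀ S : Submodule ℝ E, T ≤ S → S ≤ U → (∀ g : Γ, ∀ v ∈ S, g.1.linear v ∈ S) →
      S = T ∨ S = U)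
    (S : Submodule ℝ (U ⧸ T.submoduleOf U)) (hS : ∀ g, ∀ y ∈ S, qbd_rep Γ T U hT hU g y ∈ S) :
    S = ⊥ ∨ S = ⊤ := by
  set S' : Submodule ℝ E := (S.comap (T.submoduleOf U).mkQ).map U.subtype with hS'
  have hmem : ∀ v (hv : v ∈ U), v ∈ S' ↔ (T.submoduleOf U).mkQ ⟨v, hv⟩ ∈ S := by
    intro v hv
    constructor
    · rintro ⟨u, hu, rfl⟩
      exact hu
    · intro h
      exact ⟨⟨v, hv⟩, h, rfl⟩
  have h1 : S' ≤ U := by
    rintro _ ⟨u, _, rfl⟩
    exact u.2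
  have h2 : T ≤ S' := by
    intro v hv
    rw [hmem v (hTU hv)]
    have : (T.submoduleOf U).mkQ ⟨v, hTU hv⟩ = 0 := by
      rw [Submodule.mkQ_apply, Submodule.Quotient.mk_eq_zero]
      exact hv
    rw [this]
    exact S.zero_mem
  have h3 : ∀ g : Γ, ∀ v ∈ S', g.1.linear v ∈ S' := by
    intro g v hv
    have hvU := h1 hv
    rw [hmem v hvU] at hv
    rw [hmem _ (hU g v hvU)]
    exact hS g _ hv
  rcases hirr S' h2 h1 h3 with h | h
  · left
    rw [Submodule.eq_bot_iff]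
    intro y hy
    obtain ⟨u, rfl⟩ := (T.submoduleOf U).mkQ_surjective y
    have hu : u.1 ∈ S' := (hmem u.1 u.2).2 hy
    rw [h] at hu
    rw [Submodule.mkQ_apply, Submodule.Quotient.mk_eq_zero]
    exact hu
  · right
    rw [Submodule.eq_top_iff']
    intro y
    obtain ⟨u, rfl⟩ := (T.submoduleOf U).mkQ_surjective y
    have hu : u.1 ∈ S' := by
      rw [h]
      exact u.2
    exact (hmem u.1 u.2).1 hu

theorem quot_bdd {E : Type*} [NormedAddCommGroup E] [NormedSpace ℝ E] [FiniteDimensional ℝ E]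
    (Γ : Subgroup (E ≃ᵃ[ℝ] E)) (V W T U : Submodule ℝ E) (hWT : W ≤ T) (hTU : T ≤ U) (hUV : U ≤ V)
    (hT : ∀ g : Γ, ∀ u ∈ T, g.1.linear u ∈ T) (hU : ∀ g : Γ, ∀ u ∈ U, g.1.linear u ∈ U)
    (hirr : ∀ S : Submodule ℝ E, T ≤ S → S ≤ U → (∀ g : Γ, ∀ v ∈ S, g.1.linear v ∈ S) →
      S = T ∨ S = U)
    (B : ℝ → Γ → Prop) (hB : ∀ δ : Γ, ∀ R, ∃ R', ∀ g, B R g → B R' (g * δ))
    (hBi : ∀ R g, B R g → B R g⁻¹)
    (hK : ∀ R, ∃ C : ℝ, 0 ≤ C ∧ ∀ g : Γ, B R g → ∃ K, IsBody V W K ∧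
      ∀ v ∈ K, ∃ u ∈ K, g.1.linear v = C • u) (R : ℝ) :
    ∃ R' : ℝ, ∀ g : Γ, B R g → ∀ v ∈ U, ∃ a ∈ T, ∃ a' ∈ T,
      ‖g.1.linear v - a‖ ≤ R' * ‖v‖ ∧ ‖(g.1)⁻¹.linear v - a'‖ ≤ R' * ‖v‖ := by
  classical
  have hcl : IsClosed ((T.submoduleOf U : Submodule ℝ U) : Set U) :=
    (T.submoduleOf U).closed_of_finiteDimensional
  obtain ⟨s, M, hM, hbound⟩ := irr_bound (qbd_rep Γ T U hT hU)
    (qbd_irr Γ T U hTU hT hU hirr)
  choose Rf hRf using fun δ : Γ => hB δ R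
  choose Cf hCf hKf using fun δ : Γ => hK (Rf δ)
  set n : ℝ := ((Module.finrank ℝ (U ⧸ T.submoduleOf U) : ℕ) : ℝ) with hn
  have hn0 : 0 ≤ n := Nat.cast_nonneg _
  set R₀ : ℝ := M * (∑ δ ∈ s, Cf δ * n) with hR₀
  have hR₀0 : 0 ≤ R₀ := mul_nonneg hM (Finset.sum_nonneg fun δ _ => mul_nonneg (hCf δ) hn0)
  have hkey : ∀ g : Γ, B R g → ∀ y, ‖qbd_rep Γ T U hT hU g y‖ ≤ R₀ * ‖y‖ := by
    intro g hg y
    refine (hbound g y).trans ?_
    refine mul_le_mul_of_nonneg_right ?_ (norm_nonneg _)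
    refine mul_le_mul_of_nonneg_left ?_ hM
    refine Finset.sum_le_sum fun δ _ => ?_
    obtain ⟨K, hKb, hKC⟩ := hKf δ (g * δ) (hRf δ g hg)
    exact body_trace hKb hWT hTU hUV (g * δ).1.linear.toLinearMap (hU (g * δ)) (hT (g * δ))
      (hCf δ) hKC
  have hrep : ∀ g : Γ, B R g → ∀ v ∈ U, ∃ a ∈ T, ‖g.1.linear v - a‖ ≤ (R₀ + 1) * ‖v‖ := by
    intro g hg v hv
    by_cases hv0 : v = 0
    · refine ⟨0, T.zero_mem, ?_⟩
      rw [hv0, map_zero, sub_zero, norm_zero, mul_zero]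
    · have hpos : 0 < ‖v‖ := norm_pos_iff.2 hv0
      obtain ⟨m, hm, hlt⟩ := Submodule.Quotient.norm_mk_lt
        ((T.submoduleOf U).mkQ ⟨g.1.linear v, hU g v hv⟩) hpos
      have h1 : ‖(T.submoduleOf U).mkQ ⟨g.1.linear v, hU g v hv⟩‖ ≤ R₀ * ‖v‖ := by
        rw [← qbd_rep_mk Γ T U hT hU g v hv]
        refine (hkey g hg _).trans (mul_le_mul_of_nonneg_left ?_ hR₀0)
        exact Submodule.Quotient.norm_mk_le (T.submoduleOf U) (⟨v, hv⟩ : U)
      refine ⟨g.1.linear v - m.1, ?_, ?_⟩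
      · rw [Submodule.mkQ_apply, Submodule.Quotient.eq] at hm
        have h2 : (m - ⟨g.1.linear v, hU g v hv⟩ : U).1 ∈ T := hm
        have h3 := T.neg_mem h2
        have h4 : -(m - ⟨g.1.linear v, hU g v hv⟩ : U).1 = g.1.linear v - m.1 := by
          simp
        rw [h4] at h3
        exact h3
      · rw [sub_sub_cancel]
        have h5 : ‖m.1‖ = ‖m‖ := rfl
        rw [h5]
        linarith only [hlt, h1]
  refine ⟨R₀ + 1, fun g hg v hv => ?_⟩
  obtain ⟨a, ha, h1⟩ := hrep g hg v hv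
  obtain ⟨a', ha', h2⟩ := hrep g⁻¹ (hBi R g hg) v hv
  exact ⟨a, ha, a', ha', h1, h2⟩

end Pool.Agent.Helper47.HP
end

/- Helper16.LDA.H94.AF.Main -/
section
open Set Finset

set_option linter.unusedSectionVars false

namespace Pool.AF

open Pool.SV

section

variable {E : Type*} [NormedAddCommGroup E] [NormedSpace ℝ E] [FiniteDimensional ℝ E]

/-- The linear part as a representation. -/
noncomputable def linHom (D : Geo E) : D.Γ →* (E →ₗ[ℝ] E) where
  toFun g := (g.1.linear : E →ₗ[ℝ] E)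
  map_one' := rfl
  map_mul' _ _ := rfl

/-- The blocks of the flag. -/
theorem exists_blocks (D : Geo E) (r : ℕ) (F : ℕ → Submodule ℝ E) (e : ℕ → Alg E)
    (he : Adapted r F e) (hinv : ∀ i ≤ r, ∀ g ∈ D.Γ, ∀ v ∈ F i, g.linear v ∈ F i)
    (hF : ∀ i < r, F i < F (i + 1))
    (hT : ∀ i < r, QuadType D.Γ (F i) (F (i + 1)) 1 ∨ ConeType D.Γ (F i) (F (i + 1))) :
    ∃ (c : ℕ → D.Γ → ℝ) (Q : Fin r → Blk D.Γ) (b : ℕ), (∀ i < r, PosMul (c i)) ∧
      (∀ i : Fin r, (Q i).d - 1 + Module.finrank ℝ (F i) ≤ Module.finrank ℝ (F (i + 1))) ∧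
      (∀ i : Fin r, (QuadType D.Γ (F i) (F (i + 1)) 0 ∨ ConeType D.Γ (F i) (F (i + 1))) →
        (Q i).d - 1 + Module.finrank ℝ (F i) < Module.finrank ℝ (F (i + 1))) ∧
      ∀ i : Fin r, ∀ v ∈ (Q i).C, Grow (cut (hatHom D.Γ) (e (i + 1) - e i) (c i))
        (fun g => (Q i).ev g v) b := by
  classical
  have key : ∀ i : Fin r, ∃ (c : D.Γ → ℝ) (Q : Blk D.Γ) (b : ℕ), PosMul c ∧
      (Q.d - 1 + Module.finrank ℝ (F i) ≤ Module.finrank ℝ (F (i + 1))) ∧
      ((QuadType D.Γ (F i) (F (i + 1)) 0 ∨ ConeType D.Γ (F i) (F (i + 1))) →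
        Q.d - 1 + Module.finrank ℝ (F i) < Module.finrank ℝ (F (i + 1))) ∧
      ∀ v ∈ Q.C, Grow (cut (hatHom D.Γ) (e (i + 1) - e i) c) (fun g => Q.ev g v) b := by
    rintro ⟨i, hi⟩
    have hlt := hF i hi
    have hlt' : Module.finrank ℝ (F i) < Module.finrank ℝ (F (i + 1)) :=
      Submodule.finrank_lt_finrank_of_lt hlt
    have hi' : i + 1 ≤ r := hi
    by_cases hs : QuadType D.Γ (F i) (F (i + 1)) 0 ∨ ConeType D.Γ (F i) (F (i + 1))
    · have h0 : ∃ (c : D.Γ → ℝ) (Q : Blk D.Γ) (b : ℕ), PosMul c ∧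
          (Q.d + Module.finrank ℝ (F i) ≤ Module.finrank ℝ (F (i + 1))) ∧
          ∀ v ∈ Q.C, Grow (cut (hatHom D.Γ) (e (i + 1) - e i) c) (fun g => Q.ev g v) b := by
        rcases hs with hs | hs
        · exact blk_quad D (F i) (F (i + 1)) hlt (hinv i hi.le) (hinv _ hi') 0 hs (e i)
            (e (i + 1)) (he.idem i hi.le) (he.idem _ hi') (he.range i hi.le) (he.range _ hi')
            (he.up i hi) (he.down i hi)
        · exact blk_cone D (F i) (F (i + 1)) hlt (hinv i hi.le) (hinv _ hi') hs (e i)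
            (e (i + 1)) (he.idem i hi.le) (he.idem _ hi') (he.range i hi.le) (he.range _ hi')
            (he.up i hi) (he.down i hi)
      obtain ⟨c, Q, b, h1, h2, h3⟩ := h0
      refine ⟨c, Q, b, h1, ?_, fun _ => ?_, h3⟩
      · change Q.d - 1 + Module.finrank ℝ (F i) ≤ Module.finrank ℝ (F (i + 1))
        omega
      · change Q.d - 1 + Module.finrank ℝ (F i) < Module.finrank ℝ (F (i + 1))
        omega
    · rcases hT i hi with hq | hq
      · obtain ⟨c, Q, b, h1, h2, h3⟩ := blk_quad D (F i) (F (i + 1)) hlt (hinv i hi.le)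
          (hinv _ hi') 1 hq (e i) (e (i + 1)) (he.idem i hi.le) (he.idem _ hi')
          (he.range i hi.le) (he.range _ hi') (he.up i hi) (he.down i hi)
        refine ⟨c, Q, b, h1, ?_, fun h => absurd h hs, h3⟩
        change Q.d - 1 + Module.finrank ℝ (F i) ≤ Module.finrank ℝ (F (i + 1))
        omega
      · exact absurd (Or.inr hq) hs
  choose c Q b h1 h2 h3 h4 using key
  refine ⟨fun i => if h : i < r then c ⟨i, h⟩ else 1, Q, ∑ i, b i, ?_, h2, h3, ?_⟩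
  · intro i hi
    simp only [hi, ↓reduceDIte]
    exact h1 _
  · intro i v hv
    have h5 := h4 i v hv
    simp only [i.2, ↓reduceDIte]
    exact h5.mono (Finset.single_le_sum (f := b) (fun _ _ => Nat.zero_le _) (Finset.mem_univ i))

/-- The dimension count. -/
theorem sum_dim (r : ℕ) (F : ℕ → Submodule ℝ E) (d : Fin r → ℕ)
    (h : ∀ i : Fin r, d i - 1 + Module.finrank ℝ (F i) ≤ Module.finrank ℝ (F (i + 1))) :
    ∑ i, (d i - 1) ≤ Module.finrank ℝ (F r) ∧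
    ((∃ i : Fin r, d i - 1 + Module.finrank ℝ (F i) < Module.finrank ℝ (F (i + 1))) →
      ∑ i, (d i - 1) < Module.finrank ℝ (F r)) := by
  have key : ∀ k ≤ r, ∑ i ∈ Finset.range k, (if h : i < r then d ⟨i, h⟩ - 1 else 0) ≤
      Module.finrank ℝ (F k) ∧
      ((∃ i : Fin r, (i : ℕ) < k ∧
        d i - 1 + Module.finrank ℝ (F i) < Module.finrank ℝ (F (i + 1))) →
        ∑ i ∈ Finset.range k, (if h : i < r then d ⟨i, h⟩ - 1 else 0) <
          Module.finrank ℝ (F k)) := by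
    intro k
    induction k with
    | zero =>
      intro _
      refine ⟨by simp, ?_⟩
      rintro ⟨i, hi, _⟩
      exact absurd hi (Nat.not_lt_zero _)
    | succ k ih =>
      intro hk
      have hk' : k < r := hk
      obtain ⟨h1, h2⟩ := ih hk'.le
      have h3 := h ⟨k, hk'⟩
      have h3' : d ⟨k, hk'⟩ - 1 + Module.finrank ℝ (F k) ≤ Module.finrank ℝ (F (k + 1)) := h3
      rw [Finset.sum_range_succ, dif_pos hk']
      refine ⟨by omega, ?_⟩
      rintro ⟨i, hi, hi2⟩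
      by_cases hik : (i : ℕ) = k
      · have h4 : i = ⟨k, hk'⟩ := Fin.ext hik
        subst h4
        have hi3 : d ⟨k, hk'⟩ - 1 + Module.finrank ℝ (F k) < Module.finrank ℝ (F (k + 1)) := hi2
        omega
      · have h5 := h2 ⟨i, by omega, hi2⟩
        omega
  have hsum : ∑ i, (d i - 1) =
      ∑ i ∈ Finset.range r, (if h : i < r then d ⟨i, h⟩ - 1 else 0) := by
    rw [Finset.sum_range]
    refine Finset.sum_congr rfl fun i _ => ?_
    simp [i.2]
  obtain ⟨h1, h2⟩ := key r le_rfl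
  rw [hsum]
  refine ⟨h1, ?_⟩
  rintro ⟨i, hi⟩
  exact h2 ⟨i, i.2, hi⟩

theorem vanish_of_coneFlag (D : Geo E) (hpos : 0 < Module.finrank ℝ E)
    (hcc : ∃ K ⊆ D.X, IsCompact K ∧ ∀ x ∈ D.X, ∃ g ∈ D.Γ, g x ∈ K)
    (hflag : ConeFlag D.Γ D.X) : Vanish D := by
  classical
  obtain ⟨r, F, h0, hr, hF, hcomp⟩ := hflag
  have hinv : ∀ i ≤ r, ∀ g ∈ D.Γ, ∀ v ∈ F i, g.linear v ∈ F i := by
    intro i hi g hg v hv
    cases i with
    | zero =>
      rw [h0, Submodule.mem_bot] at hv ⊢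
      rw [hv, map_zero]
    | succ i => exact (hF i hi).2.1 g hg v hv
  obtain ⟨e, he⟩ := exists_adapted r F (fun i hi => (hF i hi).1.le)
  obtain ⟨c, Q, b, hc, hd1, hd2, hgrow⟩ := exists_blocks D r F e he hinv (fun i hi => (hF i hi).1)
    (fun i hi => (hF i hi).2.2)
  rcases flag_tau D r F h0 e he hinv c hc with hab | ⟨τ, hτ, hdisc⟩
  · exact vanish_of_hasAbNormal D hpos hab hcc
  obtain ⟨hs1, hs2⟩ := sum_dim r F (fun i => (Q i).d) hd1
  have hV : ∀ v, v ∈ F r ↔ v ∈ Lin D.X := hr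
  -- the equivariant maps into the cones
  have hv : ∀ i : Fin r, ∃ v : E → (Fin (Q i).d → ℝ), ContDiffOn ℝ 2 v D.X ∧
      (∀ x ∈ D.X, v x ∈ (Q i).C) ∧ ∀ g : D.Γ, ∀ x ∈ D.X, v (g.1 x) = (Q i).ρ g (v x) :=
    fun i => exists_equi D hcc (Q i).ρ (Q i).C (Q i).convex (Q i).nonempty (Q i).inv
  choose v hv1 hv2 hv3 using hv
  by_cases hVR : (F r : Set E) = Rec D.X
  · -- the domain is bounded modulo the lineality space
    obtain ⟨R, hR⟩ := top_bounded D (F r) hV (e r) (he.idem r le_rfl) (he.range r le_rfl) hVR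
    have hT₀ : Grow (fun g : D.Γ => (1 - e r) * hatHom D.Γ g * (1 - e r)) (fun _ => (1 : ℝ)) b := by
      refine ⟨|R| + 1, by positivity, fun g => ⟨?_, ?_, ?_⟩⟩
      · apply inv_le_one_of_one_le₀
        linarith only [abs_nonneg R]
      · rw [one_pow, mul_one]
        exact (hR g).trans ((le_abs_self R).trans (by linarith only []))
      · rw [one_pow, mul_one]
        exact (hR g⁻¹).trans ((le_abs_self R).trans (by linarith only []))
    obtain ⟨N, hN⟩ := summable_of_grow τ hdisc b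
    have hsum : ∀ x ∈ D.X, Summable (fun g : D.Γ => ∏ i, ((Q i).ev g (v i x))⁻¹ ^ N) := by
      intro x hx
      have h1 := grow_sum r (fun i => cut (hatHom D.Γ) (e (i + 1) - e i) (c i))
        (fun g : D.Γ => (1 - e r) * hatHom D.Γ g * (1 - e r))
        (fun i g => (Q i).ev g (v i x)) (fun _ => (1 : ℝ)) b
        (fun i => hgrow i (v i x) (hv2 i x hx)) hT₀
      have h2 : Grow τ (fun g => 1 * ∏ i, (Q i).ev g (v i x)) b := by
        have h3 : (τ : D.Γ → Alg E) = fun g => ∑ i ∈ Finset.range r,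
            cut (hatHom D.Γ) (e (i + 1) - e i) (c i) g +
            (1 - e r) * hatHom D.Γ g * (1 - e r) := funext hτ
        rw [h3]
        exact h1
      have h4 := hN N le_rfl _ h2
      refine h4.congr fun g => ?_
      rw [one_mul, ← Finset.prod_inv_distrib, Finset.prod_pow]
    have hdim : ∑ i, ((Q i).d - 1) < Module.finrank ℝ E := by
      by_cases hX : D.X = Set.univ
      · obtain ⟨i, hi, hi2⟩ := hcomp hX
        exact (hs2 ⟨⟨i, hi⟩, hd2 ⟨i, hi⟩ hi2⟩).trans_le (Submodule.finrank_le _)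
      · refine hs1.trans_lt (Submodule.finrank_lt ?_)
        intro htop
        apply hX
        obtain ⟨x, hx⟩ := D.nonempty
        rw [Set.eq_univ_iff_forall]
        intro y
        have h5 : y - x ∈ F r := by rw [htop]; exact Submodule.mem_top
        have h6 := (hr _).mp h5 x hx 1
        rwa [one_smul, add_sub_cancel] at h6
    refine vanish_of_goodPart D hpos fun K hKX hK hKc => ?_
    obtain ⟨C, hC, hfam⟩ := fam_B D K hK hKX hKc r Q v hv1 hv2 hv3 N hsum hdim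
    exact goodPart_of_family D K hKX (Fin r) N C hC hfam
  · -- the recession cone is larger than the lineality space
    obtain ⟨hRc, hRn, hRi, _, _⟩ := recInt_props D
    obtain ⟨ee, he1, he2, he3⟩ := exists_equi D hcc (linHom D) (RecInt D.X) hRc hRn
      (fun g u hu => hRi g u hu)
    obtain ⟨cT, ξ, bT, hcT, hξV, hξ, hξR, hgT⟩ := blk_top D (F r) hV (e r) (he.idem r le_rfl)
      (he.range r le_rfl)
    obtain ⟨N, hN⟩ := summable_of_grow τ hdisc (b + bT)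
    have hsum : ∀ x ∈ D.X, ∀ y ∈ D.X, Summable (fun g : D.Γ =>
        (cT g * ξ (hatHom D.Γ g⁻¹ (y, 1)))⁻¹ ^ N * ∏ i, ((Q i).ev g (v i x))⁻¹ ^ N) := by
      intro x hx y hy
      have h1 := grow_sum r (fun i => cut (hatHom D.Γ) (e (i + 1) - e i) (c i))
        (fun g : D.Γ => (1 - e r) * hatHom D.Γ g * (1 - e r))
        (fun i g => (Q i).ev g (v i x)) (fun g => cT g * ξ (hatHom D.Γ g⁻¹ (y, 1))) (b + bT)
        (fun i => (hgrow i (v i x) (hv2 i x hx)).mono (Nat.le_add_right _ _))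
        ((hgT y hy).mono (Nat.le_add_left _ _))
      have h2 : Grow τ (fun g => cT g * ξ (hatHom D.Γ g⁻¹ (y, 1)) *
          ∏ i, (Q i).ev g (v i x)) (b + bT) := by
        have h3 : (τ : D.Γ → Alg E) = fun g => ∑ i ∈ Finset.range r,
            cut (hatHom D.Γ) (e (i + 1) - e i) (c i) g +
            (1 - e r) * hatHom D.Γ g * (1 - e r) := funext hτ
        rw [h3]
        exact h1
      have h4 := hN N le_rfl _ h2
      refine h4.congr fun g => ?_
      rw [mul_inv, mul_pow, ← Finset.prod_inv_distrib, Finset.prod_pow]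
    refine vanish_of_goodPart D hpos fun K hKX hK hKc => ?_
    obtain ⟨C, hC, hfam⟩ := fam_A D K hK hKX hKc r Q v hv1 hv2 hv3 ee he1 he2 he3 (F r) hV hVR
      cT hcT ξ hξV hξ hξR N hsum hs1
    exact goodPart_of_family D K hKX (Option (Fin r)) N C hC hfam

/-- The statement with a subgroup of finite index. -/
theorem vanish_of_virtual_coneFlag (D : Geo E) (hpos : 0 < Module.finrank ℝ E)
    (hcc : ∃ K ⊆ D.X, IsCompact K ∧ ∀ x ∈ D.X, ∃ g ∈ D.Γ, g x ∈ K)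
    (Γ₁ : Subgroup (E ≃ᵃ[ℝ] E)) (hΓ₁ : Γ₁ ≤ D.Γ) (hfin : Γ₁.relIndex D.Γ ≠ 0)
    (hflag : ConeFlag Γ₁ D.X) : Vanish D := by
  have heq : (geoSub D (Γ₁.subgroupOf D.Γ)).Γ = Γ₁ := by
    change (Γ₁.subgroupOf D.Γ).map D.Γ.subtype = Γ₁
    rw [Subgroup.map_subgroupOf_eq_of_le hΓ₁]
  have hfi : (Γ₁.subgroupOf D.Γ).FiniteIndex := ⟨hfin⟩
  have hV : Vanish (geoSub D (Γ₁.subgroupOf D.Γ)) := by
    refine vanish_of_coneFlag _ hpos (cocompact_geoSub D _ hcc) ?_
    rw [heq]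
    exact hflag
  refine vanish_transfer D (geoSub D (Γ₁.subgroupOf D.Γ)) (Subgroup.map_subtype_le _) ?_
    subset_rfl hV
  rw [relIndex_geoSub]
  exact hfin

end

end Pool.AF
end

/- Helper16.LDA.H94.AG.Main -/
section
open Set Finset

set_option linter.unusedSectionVars false

namespace Pool.AF

open Pool.SV

section

variable {E : Type*} [NormedAddCommGroup E] [NormedSpace ℝ E] [FiniteDimensional ℝ E]

/-- The characters normalising the quotients of the flag. -/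
theorem exists_chars (D : Geo E) (r : ℕ) (F : ℕ → Submodule ℝ E) (e : ℕ → Alg E)
    (he : Adapted r F e) (hinv : ∀ i ≤ r, ∀ g ∈ D.Γ, ∀ v ∈ F i, g.linear v ∈ F i) :
    ∃ c : ℕ → D.Γ → ℝ, (∀ i < r, PosMul (c i)) ∧ ∀ i < r, e (i + 1) - e i ≠ 0 →
      ∃ a₀ : ℝ, 0 < a₀ ∧ ∀ g, a₀⁻¹ ≤ ‖cut (hatHom D.Γ) (e (i + 1) - e i) (c i) g‖ := by
  classical
  have key : ∀ i : ℕ, ∃ c : D.Γ → ℝ, i < r → (PosMul c ∧ (e (i + 1) - e i ≠ 0 →
      ∃ a₀ : ℝ, 0 < a₀ ∧ ∀ g, a₀⁻¹ ≤ ‖cut (hatHom D.Γ) (e (i + 1) - e i) c g‖)) := by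
    intro i
    by_cases hi : i < r
    swap
    · exact ⟨1, fun h => absurd h hi⟩
    by_cases hne : e (i + 1) - e i = 0
    · exact ⟨1, fun _ => ⟨⟨fun _ => one_pos, fun _ _ => by simp⟩, fun h => absurd hne h⟩⟩
    have hi' : i + 1 ≤ r := hi
    set f := e (i + 1) - e i with hf
    have h1 := he.idem i hi.le
    have h2 := he.idem (i + 1) hi'
    have h3 := he.up i hi
    have h4 := he.down i hi
    have hff : f * f = f := by
      rw [hf, sub_mul, mul_sub, mul_sub, h1, h2, h3, h4]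
      abel
    have hinvF : ∀ j ≤ r, ∀ g : D.Γ, (1 - e j) * hatHom D.Γ g * e j = 0 := fun j hj g =>
      Flag.hinv_of_range D (F j) (e j) (he.idem j hj) (he.range j hj) (hinv j hj) g
    have hmul : ∀ g h : D.Γ, f * hatHom D.Γ (g * h) * f =
        (f * hatHom D.Γ g * f) * (f * hatHom D.Γ h * f) := by
      intro g h
      have a1 := hinvF i hi.le g
      have a2 := hinvF (i + 1) hi' h
      -- `φ h f = e (i+1) φ h f` and `f φ g e i = 0`
      have b1 : hatHom D.Γ h * f = e (i + 1) * (hatHom D.Γ h * f) := by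
        have b2 : e (i + 1) * f = f := by rw [hf, mul_sub, h2, h4]
        have b3 : (1 - e (i + 1)) * (hatHom D.Γ h * f) = 0 := by
          rw [← b2]
          have : (1 - e (i + 1)) * (hatHom D.Γ h * (e (i + 1) * f)) =
              ((1 - e (i + 1)) * hatHom D.Γ h * e (i + 1)) * f := by simp only [mul_assoc]
          rw [this, a2, zero_mul]
        rw [sub_mul, one_mul, sub_eq_zero] at b3
        exact b3
      have b4 : f * (hatHom D.Γ g * e i) = 0 := by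
        have b5 : f * e i = 0 := by rw [hf, sub_mul, h4, h1, sub_self]
        have b6 : hatHom D.Γ g * e i = e i * (hatHom D.Γ g * e i) := by
          rw [mul_assoc, sub_mul, one_mul, sub_eq_zero] at a1
          exact a1
        rw [b6, ← mul_assoc, b5, zero_mul]
      have b7 : e (i + 1) = f + e i := by rw [hf]; abel
      calc f * hatHom D.Γ (g * h) * f = f * (hatHom D.Γ g * (hatHom D.Γ h * f)) := by
            rw [map_mul]; simp only [mul_assoc]
        _ = f * (hatHom D.Γ g * ((f + e i) * (hatHom D.Γ h * f))) := by rw [← b7, ← b1]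
        _ = f * (hatHom D.Γ g * (f * (hatHom D.Γ h * f))) +
            (f * (hatHom D.Γ g * e i)) * (hatHom D.Γ h * f) := by
              rw [add_mul, mul_add, mul_add]
              simp only [mul_assoc]
        _ = f * (hatHom D.Γ g * (f * (hatHom D.Γ h * f))) := by rw [b4, zero_mul, add_zero]
        _ = f * (hatHom D.Γ g * ((f * f) * (hatHom D.Γ h * f))) := by rw [hff]
        _ = (f * hatHom D.Γ g * f) * (f * hatHom D.Γ h * f) := by simp only [mul_assoc]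
    obtain ⟨c, hc, A, m, hA, hb⟩ := exists_norm (hatHom D.Γ) f hff hne hmul
    exact ⟨c, fun _ => ⟨hc, fun _ => ⟨A, hA, fun g => (hb g).1⟩⟩⟩
  choose c hc using key
  exact ⟨c, fun i hi => (hc i hi).1, fun i hi h => (hc i hi).2 h⟩

/-- The top block with the unit of the algebra. -/
noncomputable def topHom (D : Geo E) (e : Alg E) (he : e * e = e)
    (hinv : ∀ g : D.Γ, (1 - e) * hatHom D.Γ g * e = 0) : D.Γ →* Alg E where
  toFun g := (1 - e) * hatHom D.Γ g * (1 - e) + e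
  map_one' := by
    rw [map_one, mul_one, mul_sub, mul_one, sub_mul, one_mul, he]
    abel
  map_mul' g h := by
    have hff : (1 - e) * (1 - e) = 1 - e := by
      rw [mul_sub, mul_one, sub_mul, one_mul, he]; abel
    have hfe : (1 - e) * e = 0 := by rw [sub_mul, one_mul, he, sub_self]
    have hef : e * (1 - e) = 0 := by rw [mul_sub, mul_one, he, sub_self]
    have h1 : (1 - e) * hatHom D.Γ (g * h) * (1 - e) =
        ((1 - e) * hatHom D.Γ g * (1 - e)) * ((1 - e) * hatHom D.Γ h * (1 - e)) := by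
      have h2 : (1 - e) * hatHom D.Γ (g * h) * (1 - e) =
          ((1 - e) * hatHom D.Γ g) * ((1 - e) + e) * (hatHom D.Γ h * (1 - e)) := by
        rw [map_mul, sub_add_cancel, mul_one]
        simp only [mul_assoc]
      rw [h2, mul_add, add_mul, hinv g, zero_mul, add_zero]
      have h5 : ∀ x : Alg E, (1 - e) * ((1 - e) * x) = (1 - e) * x := fun x => by
        rw [← mul_assoc, hff]
      simp only [mul_assoc, h5]
    rw [h1]
    have h3 : ((1 - e) * hatHom D.Γ g * (1 - e)) * e = 0 := by rw [mul_assoc, hfe, mul_zero]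
    have h4 : e * ((1 - e) * hatHom D.Γ h * (1 - e)) = 0 := by
      rw [mul_assoc, ← mul_assoc, hef, zero_mul]
    rw [add_mul, mul_add, mul_add, h3, h4, he, add_zero, zero_add]

theorem grow_top {G : Type*} [Group G] (T : G → Alg E) (e : Alg E) (s : G → ℝ) (b : ℕ)
    (h : Grow T s b) : Grow (fun g => T g + e) s b := by
  obtain ⟨A, hA, h1⟩ := h
  have hlow : ∀ g, A⁻¹ ^ b ≤ s g ^ b := fun g => pow_le_pow_left₀ (by positivity) (h1 g).1 b
  refine ⟨A + ‖e‖ * A ^ b, by (clear * - hA; positivity), fun g => ⟨?_, ?_, ?_⟩⟩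
  · refine (inv_anti₀ hA ?_).trans (h1 g).1
    have : 0 ≤ ‖e‖ * A ^ b := by positivity
    (clear * - this; linarith)
  all_goals
    have h2 : 1 ≤ A ^ b * s g ^ b := by
      calc (1 : ℝ) = A ^ b * A⁻¹ ^ b := by rw [← mul_pow, mul_inv_cancel₀ hA.ne', one_pow]
        _ ≤ A ^ b * s g ^ b := mul_le_mul_of_nonneg_left (hlow g) (by positivity)
    have h3 : ‖e‖ ≤ ‖e‖ * A ^ b * s g ^ b := by
      calc ‖e‖ = ‖e‖ * 1 := (mul_one _).symm
        _ ≤ ‖e‖ * (A ^ b * s g ^ b) := by gcongr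
        _ = ‖e‖ * A ^ b * s g ^ b := by ring
  · calc ‖T g + e‖ ≤ ‖T g‖ + ‖e‖ := norm_add_le _ _
      _ ≤ A * s g ^ b + ‖e‖ * A ^ b * s g ^ b := add_le_add (h1 g).2.1 h3
      _ = _ := by ring
  · calc ‖T g⁻¹ + e‖ ≤ ‖T g⁻¹‖ + ‖e‖ := norm_add_le _ _
      _ ≤ A * s g ^ b + ‖e‖ * A ^ b * s g ^ b := add_le_add (h1 g).2.2 h3
      _ = _ := by ring

theorem ScalBdd.mono {G : Type*} [Group G] {d : ℕ} {σ : G →* ((Fin d → ℝ) →ₗ[ℝ] (Fin d → ℝ))}
    {R R' : ℝ} {g : G} (h : ScalBdd σ R g) (hR : R ≤ R') : ScalBdd σ R' g := by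
  obtain ⟨t, ht, h1⟩ := h
  exact ⟨t, ht, fun v => ⟨(h1 v).1.trans (mul_le_mul_of_nonneg_right hR (norm_nonneg v)),
    (h1 v).2.trans (mul_le_mul_of_nonneg_right hR (norm_nonneg v))⟩⟩

theorem AffBdd.mono {V : Submodule ℝ E} {R R' : ℝ} {g : E ≃ᵃ[ℝ] E} (h : AffBdd V R g)
    (hR : R ≤ R') : AffBdd V R' g := by
  intro x
  obtain ⟨v, hv, v', hv', h1, h2⟩ := h x
  have h3 : 0 ≤ 1 + ‖x‖ := by positivity
  exact ⟨v, hv, v', hv', h1.trans (mul_le_mul_of_nonneg_right hR h3),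
    h2.trans (mul_le_mul_of_nonneg_right hR h3)⟩

/-- A bound of the blocks gives the bounds of the definition. -/
theorem scalBdd_of_block {G : Type*} [Group G] {d : ℕ}
    (σ : G →* ((Fin d → ℝ) →ₗ[ℝ] (Fin d → ℝ))) (c : G → ℝ) (hc : PosMul c)
    (ρ : G →* ((Fin d → ℝ) →ₗ[ℝ] (Fin d → ℝ))) (hρ : ∀ g v, ρ g v = (c g)⁻¹ • σ g v) (R : ℝ)
    (g : G) (h1 : ‖LinearMap.toContinuousLinearMap (ρ g)‖ ≤ R)
    (h2 : ‖LinearMap.toContinuousLinearMap (ρ g⁻¹)‖ ≤ R) : ScalBdd σ R g := by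
  have h3 : c g⁻¹ = (c g)⁻¹ := by
    have h4 : c 1 = 1 := by
      have := hc.2 1 1
      rw [mul_one] at this
      exact (mul_eq_left₀ (hc.1 1).ne').mp this.symm
    have h5 := hc.2 g g⁻¹
    rw [mul_inv_cancel, h4] at h5
    exact eq_inv_of_mul_eq_one_right h5.symm
  refine ⟨(c g)⁻¹, inv_pos.mpr (hc.1 g), fun v => ⟨?_, ?_⟩⟩
  · rw [← hρ g v]
    exact ((LinearMap.toContinuousLinearMap (ρ g)).le_opNorm v).trans
      (mul_le_mul_of_nonneg_right h1 (norm_nonneg v))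
  · have h6 : ((c g)⁻¹)⁻¹ • σ g⁻¹ v = ρ g⁻¹ v := by
      rw [hρ, h3]
    rw [h6]
    exact ((LinearMap.toContinuousLinearMap (ρ g⁻¹)).le_opNorm v).trans
      (mul_le_mul_of_nonneg_right h2 (norm_nonneg v))

theorem vanish_of_coneDominated (D : Geo E) (hpos : 0 < Module.finrank ℝ E)
    (hcc : ∃ K ⊆ D.X, IsCompact K ∧ ∀ x ∈ D.X, ∃ g ∈ D.Γ, g x ∈ K)
    (hdom : ConeDominated D.Γ D.X) : Vanish D := by
  classical
  obtain ⟨r, F, k, d, σ, C, h0, hr, hF, hC, hs1, hs2, hdomi⟩ := hdom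
  have hinv : ∀ i ≤ r, ∀ g ∈ D.Γ, ∀ v ∈ F i, g.linear v ∈ F i := by
    intro i hi g hg v hv
    cases i with
    | zero =>
      rw [h0, Submodule.mem_bot] at hv ⊢
      rw [hv, map_zero]
    | succ i => exact (hF i hi).2 g hg v hv
  obtain ⟨e, he⟩ := exists_adapted r F (fun i hi => (hF i hi).1)
  obtain ⟨c, hc, hlow⟩ := exists_chars D r F e he hinv
  rcases flag_tau D r F h0 e he hinv c hc with hab | ⟨τ, hτ, hdisc⟩
  · exact vanish_of_hasAbNormal D hpos hab hcc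
  -- the cones
  have hblk := fun j => blk_of_cone (d j) (hC j).1 (σ j) (C j) (hC j).2
  choose c' ρ ξ' b' hc' hρ hξpos hgrow' using hblk
  set Q : Fin k → Blk D.Γ := fun j =>
    { d := d j
      ρ := ρ j
      C := C j
      ξ := ξ' j
      isOpen := (hC j).2.isOpen
      convex := (hC j).2.convex
      nonempty := (hC j).2.nonempty
      smul_mem := (hC j).2.smul_mem
      inv := fun g v hv => by
        rw [hρ j g v]
        exact (hC j).2.smul_mem _ ((hC j).2.inv g v hv) _ (inv_pos.mpr ((hc' j).1 g))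
      pos := hξpos j } with hQ
  have hV : ∀ v, v ∈ F r ↔ v ∈ Lin D.X := hr
  have hher := he.idem r le_rfl
  have hinvr : ∀ g : D.Γ, (1 - e r) * hatHom D.Γ g * e r = 0 := fun g =>
    Flag.hinv_of_range D (F r) (e r) hher (he.range r le_rfl) (hinv r le_rfl) g
  -- finiteness
  have hfin : ∀ B : ℝ, {g : D.Γ | (∀ j, ‖LinearMap.toContinuousLinearMap (ρ j g)‖ ≤ B ∧
      ‖LinearMap.toContinuousLinearMap (ρ j g⁻¹)‖ ≤ B) ∧ ‖topHom D (e r) hher hinvr g‖ ≤ B ∧
      ‖topHom D (e r) hher hinvr g⁻¹‖ ≤ B}.Finite := by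
    intro B
    have htop : ∀ g : D.Γ, ‖topHom D (e r) hher hinvr g‖ ≤ B →
        ‖(1 - e r) * hatHom D.Γ g * (1 - e r)‖ ≤ B + ‖e r‖ := by
      intro g hg
      have h1 : (1 - e r) * hatHom D.Γ g * (1 - e r) = topHom D (e r) hher hinvr g - e r := by
        change _ = (1 - e r) * hatHom D.Γ g * (1 - e r) + e r - e r
        rw [add_sub_cancel_right]
      rw [h1]
      exact (norm_sub_le _ _).trans (by linarith only [hg])
    obtain ⟨R₁, hR₁⟩ := affBdd_of_top D (F r) (hinv r le_rfl) (e r) hher (he.range r le_rfl)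
      (B + ‖e r‖)
    obtain ⟨R₂, hR₂⟩ := hdomi (max B R₁)
    have hM : ∀ i, ∃ M : ℝ, i < r → ∀ g : D.Γ, QuotBdd (F i) (F (i + 1)) R₂ g.1 →
        ‖cut (hatHom D.Γ) (e (i + 1) - e i) (c i) g‖ ≤ M ∧
        ‖cut (hatHom D.Γ) (e (i + 1) - e i) (c i) g⁻¹‖ ≤ M := by
      intro i
      by_cases hi : i < r
      swap
      · exact ⟨0, fun h => absurd h hi⟩
      have hi' : i + 1 ≤ r := hi
      by_cases hne : e (i + 1) - e i = 0
      · refine ⟨0, fun _ g _ => ?_⟩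
        simp [cut, hne]
      · obtain ⟨a₀, ha₀, hl⟩ := hlow i hi hne
        obtain ⟨M, hM⟩ := cut_bdd D (F i) (F (i + 1)) (hinv i hi.le) (hinv _ hi') (e i)
          (e (i + 1)) (he.idem i hi.le) (he.idem _ hi') (he.range i hi.le) (he.range _ hi')
          (he.up i hi) (he.down i hi) (c i) (hc i hi) a₀ ha₀ hl R₂
        exact ⟨M, fun _ => hM⟩
    choose M hM using hM
    refine (hdisc (∑ i ∈ Finset.range r, M i + (B + ‖e r‖))).subset ?_
    rintro g ⟨h1, h2, h3⟩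
    have h4 : ∀ i < r, QuotBdd (F i) (F (i + 1)) R₂ g.1 := by
      refine hR₂ g (fun j => ?_) ?_
      · exact (scalBdd_of_block (σ j) (c' j) (hc' j) (ρ j) (hρ j) B g (h1 j).1 (h1 j).2).mono
          (le_max_left _ _)
      · exact (hR₁ g (htop g h2) (htop g⁻¹ h3)).mono (le_max_right _ _)
    constructor
    · rw [hτ]
      refine (norm_add_le _ _).trans (add_le_add ?_ (htop g h2))
      refine (norm_sum_le _ _).trans (Finset.sum_le_sum fun i hi => ?_)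
      have hi := Finset.mem_range.mp hi
      exact (hM i hi g (h4 i hi)).1
    · rw [hτ]
      refine (norm_add_le _ _).trans (add_le_add ?_ (htop g⁻¹ h3))
      refine (norm_sum_le _ _).trans (Finset.sum_le_sum fun i hi => ?_)
      have hi := Finset.mem_range.mp hi
      exact (hM i hi g (h4 i hi)).2
  -- the equivariant maps into the cones
  have hv : ∀ i : Fin k, ∃ v : E → (Fin (Q i).d → ℝ), ContDiffOn ℝ 2 v D.X ∧
      (∀ x ∈ D.X, v x ∈ (Q i).C) ∧ ∀ g : D.Γ, ∀ x ∈ D.X, v (g.1 x) = (Q i).ρ g (v x) :=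
    fun i => exists_equi D hcc (Q i).ρ (Q i).C (Q i).convex (Q i).nonempty (Q i).inv
  choose v hv1 hv2 hv3 using hv
  by_cases hVR : (F r : Set E) = Rec D.X
  · -- the domain is bounded modulo the lineality space
    obtain ⟨R, hR⟩ := top_bounded D (F r) hV (e r) (he.idem r le_rfl) (he.range r le_rfl) hVR
    have hT₀ : Grow (fun g : D.Γ => (1 - e r) * hatHom D.Γ g * (1 - e r)) (fun _ => (1 : ℝ))
        (∑ j, b' j) := by
      refine ⟨|R| + 1, by (clear * -; positivity), fun g => ⟨?_, ?_, ?_⟩⟩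
      · apply inv_le_one_of_one_le₀
        linarith only [abs_nonneg R]
      · rw [one_pow, mul_one]
        exact (hR g).trans ((le_abs_self R).trans (by linarith only []))
      · rw [one_pow, mul_one]
        exact (hR g⁻¹).trans ((le_abs_self R).trans (by linarith only []))
    obtain ⟨N, hN⟩ := summable_total k d ρ (topHom D (e r) hher hinvr) hfin (∑ j, b' j)
    have hsum : ∀ x ∈ D.X, Summable (fun g : D.Γ => ∏ i, ((Q i).ev g (v i x))⁻¹ ^ N) := by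
      intro x hx
      have h1 := hN N le_rfl (fun j g => (Q j).ev g (v j x)) (fun _ => 1)
        (fun j => (hgrow' j (v j x) (hv2 j x hx)).mono
          (Finset.single_le_sum (f := b') (fun _ _ => Nat.zero_le _) (Finset.mem_univ j)))
        (grow_top _ (e r) _ _ hT₀)
      refine h1.congr fun g => ?_
      rw [one_mul, ← Finset.prod_inv_distrib, Finset.prod_pow]
    have hdim : ∑ i, ((Q i).d - 1) < Module.finrank ℝ E := by
      by_cases hX : D.X = Set.univ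
      · exact (hs2 hX).trans_le (Submodule.finrank_le _)
      · refine hs1.trans_lt (Submodule.finrank_lt ?_)
        intro htop
        apply hX
        obtain ⟨x, hx⟩ := D.nonempty
        rw [Set.eq_univ_iff_forall]
        intro y
        have h5 : y - x ∈ F r := by rw [htop]; exact Submodule.mem_top
        have h6 := (hr _).mp h5 x hx 1
        rwa [one_smul, add_sub_cancel] at h6
    refine vanish_of_goodPart D hpos fun K hKX hK hKc => ?_
    obtain ⟨C₀, hC₀, hfam⟩ := fam_B D K hK hKX hKc k Q v hv1 hv2 hv3 N hsum hdim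
    exact goodPart_of_family D K hKX (Fin k) N C₀ hC₀ hfam
  · -- the recession cone is larger than the lineality space
    obtain ⟨hRc, hRn, hRi, _, _⟩ := recInt_props D
    obtain ⟨ee, he1, he2, he3⟩ := exists_equi D hcc (linHom D) (RecInt D.X) hRc hRn
      (fun g u hu => hRi g u hu)
    obtain ⟨cT, ξ, bT, hcT, hξV, hξ, hξR, hgT⟩ := blk_top D (F r) hV (e r) (he.idem r le_rfl)
      (he.range r le_rfl)
    obtain ⟨N, hN⟩ := summable_total k d ρ (topHom D (e r) hher hinvr) hfin (∑ j, b' j + bT)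
    have hsum : ∀ x ∈ D.X, ∀ y ∈ D.X, Summable (fun g : D.Γ =>
        (cT g * ξ (hatHom D.Γ g⁻¹ (y, 1)))⁻¹ ^ N * ∏ i, ((Q i).ev g (v i x))⁻¹ ^ N) := by
      intro x hx y hy
      have h1 := hN N le_rfl (fun j g => (Q j).ev g (v j x))
        (fun g => cT g * ξ (hatHom D.Γ g⁻¹ (y, 1)))
        (fun j => (hgrow' j (v j x) (hv2 j x hx)).mono
          ((Finset.single_le_sum (f := b') (fun _ _ => Nat.zero_le _)
            (Finset.mem_univ j)).trans (Nat.le_add_right _ _)))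
        (grow_top _ (e r) _ _ ((hgT y hy).mono (Nat.le_add_left _ _)))
      refine h1.congr fun g => ?_
      rw [mul_inv, mul_pow, ← Finset.prod_inv_distrib, Finset.prod_pow]
    refine vanish_of_goodPart D hpos fun K hKX hK hKc => ?_
    obtain ⟨C₀, hC₀, hfam⟩ := fam_A D K hK hKX hKc k Q v hv1 hv2 hv3 ee he1 he2 he3 (F r) hV hVR
      cT hcT ξ hξV hξ hξR N hsum hs1
    exact goodPart_of_family D K hKX (Option (Fin k)) N C₀ hC₀ hfam

/-- The statement with a subgroup of finite index. -/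
theorem vanish_of_virtual_coneDominated (D : Geo E) (hpos : 0 < Module.finrank ℝ E)
    (hcc : ∃ K ⊆ D.X, IsCompact K ∧ ∀ x ∈ D.X, ∃ g ∈ D.Γ, g x ∈ K)
    (Γ₁ : Subgroup (E ≃ᵃ[ℝ] E)) (hΓ₁ : Γ₁ ≤ D.Γ) (hfin : Γ₁.relIndex D.Γ ≠ 0)
    (hdom : ConeDominated Γ₁ D.X) : Vanish D := by
  have heq : (geoSub D (Γ₁.subgroupOf D.Γ)).Γ = Γ₁ := by
    change (Γ₁.subgroupOf D.Γ).map D.Γ.subtype = Γ₁
    rw [Subgroup.map_subgroupOf_eq_of_le hΓ₁]
  have hfi : (Γ₁.subgroupOf D.Γ).FiniteIndex := ⟨hfin⟩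
  have hV : Vanish (geoSub D (Γ₁.subgroupOf D.Γ)) := by
    refine vanish_of_coneDominated _ hpos (cocompact_geoSub D _ hcc) ?_
    rw [heq]
    exact hdom
  refine vanish_transfer D (geoSub D (Γ₁.subgroupOf D.Γ)) (Subgroup.map_subtype_le _) ?_
    subset_rfl hV
  rw [relIndex_geoSub]
  exact hfin

end

end Pool.AF
end

/- Helper16.LDA.H94.AS.RankDom -/
section
open Set Finset

set_option linter.unusedSectionVars false

namespace Pool.AF

open Pool.SV

section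

variable {E : Type*} [NormedAddCommGroup E] [NormedSpace ℝ E] [FiniteDimensional ℝ E]

/-- Domination by representations on sharp cones with equivariant maps into the cones of small
rank. -/
theorem vanish_of_rank (D : Geo E) (hpos : 0 < Module.finrank ℝ E)
    (hcc : ∃ K ⊆ D.X, IsCompact K ∧ ∀ x ∈ D.X, ∃ g ∈ D.Γ, g x ∈ K)
    (r : ℕ) (F : ℕ → Submodule ℝ E) (k : ℕ) (d : Fin k → ℕ)
    (σ : ∀ j, D.Γ →* ((Fin (d j) → ℝ) →ₗ[ℝ] (Fin (d j) → ℝ))) (C : ∀ j, Set (Fin (d j) → ℝ))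
    (h0 : F 0 = ⊥) (hr : ∀ v, v ∈ F r ↔ ∀ x ∈ D.X, ∀ t : ℝ, x + t • v ∈ D.X)
    (hF : ∀ i < r, F i ≤ F (i + 1) ∧ ∀ g ∈ D.Γ, ∀ v ∈ F (i + 1), g.linear v ∈ F (i + 1))
    (hC : ∀ j, 0 < d j ∧ SharpCone (σ j) (C j)) (n : Fin k → ℕ)
    (v : ∀ j, E → (Fin (d j) → ℝ)) (hv1 : ∀ j, ContDiffOn ℝ 2 (v j) D.X)
    (hv2 : ∀ j, ∀ x ∈ D.X, v j x ∈ C j)
    (hv3 : ∀ j, ∀ g : D.Γ, ∀ x ∈ D.X, ∃ s : ℝ, 0 < s ∧ v j (g.1 x) = s • σ j g (v j x))
    (hn : ∀ j, ∀ x ∈ D.X, Module.finrank ℝ (LinearMap.range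
      ((Submodule.span ℝ {v j x}).mkQ ∘ₗ (fderiv ℝ (v j) x : E →ₗ[ℝ] (Fin (d j) → ℝ)))) ≤ n j)
    (hs1 : ∑ j, n j ≤ Module.finrank ℝ (F r))
    (hs2 : D.X = Set.univ → ∑ j, n j < Module.finrank ℝ (F r))
    (hdomi : ∀ R : ℝ, ∃ R' : ℝ, ∀ g : D.Γ, (∀ j, ScalBdd (σ j) R g) → AffBdd (F r) R g.1 →
      ∀ i < r, QuotBdd (F i) (F (i + 1)) R' g.1) : Vanish D := by
  classical
  have hinv : ∀ i ≤ r, ∀ g ∈ D.Γ, ∀ v ∈ F i, g.linear v ∈ F i := by
    intro i hi g hg v hv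
    cases i with
    | zero =>
      rw [h0, Submodule.mem_bot] at hv ⊢
      rw [hv, map_zero]
    | succ i => exact (hF i hi).2 g hg v hv
  obtain ⟨e, he⟩ := exists_adapted r F (fun i hi => (hF i hi).1)
  obtain ⟨c, hc, hlow⟩ := exists_chars D r F e he hinv
  rcases flag_tau D r F h0 e he hinv c hc with hab | ⟨τ, hτ, hdisc⟩
  · exact vanish_of_hasAbNormal D hpos hab hcc
  -- the cones
  have hblk := fun j => blk_of_cone (d j) (hC j).1 (σ j) (C j) (hC j).2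
  choose c' ρ ξ' b' hc' hρ hξpos hgrow' using hblk
  set Q : Fin k → Blk D.Γ := fun j =>
    { d := d j
      ρ := ρ j
      C := C j
      ξ := ξ' j
      isOpen := (hC j).2.isOpen
      convex := (hC j).2.convex
      nonempty := (hC j).2.nonempty
      smul_mem := (hC j).2.smul_mem
      inv := fun g v hv => by
        rw [hρ j g v]
        exact (hC j).2.smul_mem _ ((hC j).2.inv g v hv) _ (inv_pos.mpr ((hc' j).1 g))
      pos := hξpos j } with hQ
  have hV : ∀ v, v ∈ F r ↔ v ∈ Lin D.X := hr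
  have hher := he.idem r le_rfl
  have hinvr : ∀ g : D.Γ, (1 - e r) * hatHom D.Γ g * e r = 0 := fun g =>
    Flag.hinv_of_range D (F r) (e r) hher (he.range r le_rfl) (hinv r le_rfl) g
  -- finiteness
  have hfin : ∀ B : ℝ, {g : D.Γ | (∀ j, ‖LinearMap.toContinuousLinearMap (ρ j g)‖ ≤ B ∧
      ‖LinearMap.toContinuousLinearMap (ρ j g⁻¹)‖ ≤ B) ∧ ‖topHom D (e r) hher hinvr g‖ ≤ B ∧
      ‖topHom D (e r) hher hinvr g⁻¹‖ ≤ B}.Finite := by
    intro B
    have htop : ∀ g : D.Γ, ‖topHom D (e r) hher hinvr g‖ ≤ B →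
        ‖(1 - e r) * hatHom D.Γ g * (1 - e r)‖ ≤ B + ‖e r‖ := by
      intro g hg
      have h1 : (1 - e r) * hatHom D.Γ g * (1 - e r) = topHom D (e r) hher hinvr g - e r := by
        change _ = (1 - e r) * hatHom D.Γ g * (1 - e r) + e r - e r
        rw [add_sub_cancel_right]
      rw [h1]
      exact (norm_sub_le _ _).trans (by linarith only [hg])
    obtain ⟨R₁, hR₁⟩ := affBdd_of_top D (F r) (hinv r le_rfl) (e r) hher (he.range r le_rfl)
      (B + ‖e r‖)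
    obtain ⟨R₂, hR₂⟩ := hdomi (max B R₁)
    have hM : ∀ i, ∃ M : ℝ, i < r → ∀ g : D.Γ, QuotBdd (F i) (F (i + 1)) R₂ g.1 →
        ‖cut (hatHom D.Γ) (e (i + 1) - e i) (c i) g‖ ≤ M ∧
        ‖cut (hatHom D.Γ) (e (i + 1) - e i) (c i) g⁻¹‖ ≤ M := by
      intro i
      by_cases hi : i < r
      swap
      · exact ⟨0, fun h => absurd h hi⟩
      have hi' : i + 1 ≤ r := hi
      by_cases hne : e (i + 1) - e i = 0
      · refine ⟨0, fun _ g _ => ?_⟩
        simp [cut, hne]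
      · obtain ⟨a₀, ha₀, hl⟩ := hlow i hi hne
        obtain ⟨M, hM⟩ := cut_bdd D (F i) (F (i + 1)) (hinv i hi.le) (hinv _ hi') (e i)
          (e (i + 1)) (he.idem i hi.le) (he.idem _ hi') (he.range i hi.le) (he.range _ hi')
          (he.up i hi) (he.down i hi) (c i) (hc i hi) a₀ ha₀ hl R₂
        exact ⟨M, fun _ => hM⟩
    choose M hM using hM
    refine (hdisc (∑ i ∈ Finset.range r, M i + (B + ‖e r‖))).subset ?_
    rintro g ⟨h1, h2, h3⟩
    have h4 : ∀ i < r, QuotBdd (F i) (F (i + 1)) R₂ g.1 := by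
      refine hR₂ g (fun j => ?_) ?_
      · exact (scalBdd_of_block (σ j) (c' j) (hc' j) (ρ j) (hρ j) B g (h1 j).1 (h1 j).2).mono
          (le_max_left _ _)
      · exact (hR₁ g (htop g h2) (htop g⁻¹ h3)).mono (le_max_right _ _)
    constructor
    · rw [hτ]
      refine (norm_add_le _ _).trans (add_le_add ?_ (htop g h2))
      refine (norm_sum_le _ _).trans (Finset.sum_le_sum fun i hi => ?_)
      have hi := Finset.mem_range.mp hi
      exact (hM i hi g (h4 i hi)).1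
    · rw [hτ]
      refine (norm_add_le _ _).trans (add_le_add ?_ (htop g⁻¹ h3))
      refine (norm_sum_le _ _).trans (Finset.sum_le_sum fun i hi => ?_)
      have hi := Finset.mem_range.mp hi
      exact (hM i hi g (h4 i hi)).2
  -- the equivariant maps into the cones
  have hv3' : ∀ i : Fin k, ∀ g : D.Γ, ∀ x ∈ D.X, ∃ s : ℝ, 0 < s ∧
      v i (g.1 x) = s • (Q i).ρ g (v i x) := by
    intro i g x hx
    obtain ⟨s, hs, hs2⟩ := hv3 i g x hx
    refine ⟨s * c' i g, mul_pos hs ((hc' i).1 g), ?_⟩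
    have h1 : (Q i).ρ g (v i x) = (c' i g)⁻¹ • σ i g (v i x) := hρ i g (v i x)
    rw [h1, smul_smul, mul_assoc, mul_inv_cancel₀ ((hc' i).1 g).ne', mul_one, hs2]
  by_cases hVR : (F r : Set E) = Rec D.X
  · -- the domain is bounded modulo the lineality space
    obtain ⟨R, hR⟩ := top_bounded D (F r) hV (e r) (he.idem r le_rfl) (he.range r le_rfl) hVR
    have hT₀ : Grow (fun g : D.Γ => (1 - e r) * hatHom D.Γ g * (1 - e r)) (fun _ => (1 : ℝ))
        (∑ j, b' j) := by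
      refine ⟨|R| + 1, by (clear * -; positivity), fun g => ⟨?_, ?_, ?_⟩⟩
      · apply inv_le_one_of_one_le₀
        linarith only [abs_nonneg R]
      · rw [one_pow, mul_one]
        exact (hR g).trans ((le_abs_self R).trans (by (clear * -; linarith)))
      · rw [one_pow, mul_one]
        exact (hR g⁻¹).trans ((le_abs_self R).trans (by linarith))
    obtain ⟨N, hN⟩ := summable_total k d ρ (topHom D (e r) hher hinvr) hfin (∑ j, b' j)
    have hsum : ∀ x ∈ D.X, Summable (fun g : D.Γ => ∏ i, ((Q i).ev g (v i x))⁻¹ ^ N) := by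
      intro x hx
      have h1 := hN N le_rfl (fun j g => (Q j).ev g (v j x)) (fun _ => 1)
        (fun j => (hgrow' j (v j x) (hv2 j x hx)).mono
          (Finset.single_le_sum (f := b') (fun _ _ => Nat.zero_le _) (Finset.mem_univ j)))
        (grow_top _ (e r) _ _ hT₀)
      refine h1.congr fun g => ?_
      rw [one_mul, ← Finset.prod_inv_distrib, Finset.prod_pow]
    have hdim : ∑ i, n i < Module.finrank ℝ E := by
      by_cases hX : D.X = Set.univ
      · exact (hs2 hX).trans_le (Submodule.finrank_le _)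
      · refine hs1.trans_lt (Submodule.finrank_lt ?_)
        intro htop
        apply hX
        obtain ⟨x, hx⟩ := D.nonempty
        rw [Set.eq_univ_iff_forall]
        intro y
        have h5 : y - x ∈ F r := by rw [htop]; exact Submodule.mem_top
        have h6 := (hr _).mp h5 x hx 1
        rwa [one_smul, add_sub_cancel] at h6
    refine vanish_of_goodPart D hpos fun K hKX hK hKc => ?_
    obtain ⟨C₀, hC₀, hfam⟩ := fam_BN D K hK hKX hKc k Q v hv1 hv2 hv3' N hsum n hn hdim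
    exact goodPart_of_family D K hKX (Fin k) N C₀ hC₀ hfam
  · -- the recession cone is larger than the lineality space
    obtain ⟨hRc, hRn, hRi, _, _⟩ := recInt_props D
    obtain ⟨ee, he1, he2, he3⟩ := exists_equi D hcc (linHom D) (RecInt D.X) hRc hRn
      (fun g u hu => hRi g u hu)
    obtain ⟨cT, ξ, bT, hcT, hξV, hξ, hξR, hgT⟩ := blk_top D (F r) hV (e r) (he.idem r le_rfl)
      (he.range r le_rfl)
    obtain ⟨N, hN⟩ := summable_total k d ρ (topHom D (e r) hher hinvr) hfin (∑ j, b' j + bT)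
    have hsum : ∀ x ∈ D.X, ∀ y ∈ D.X, Summable (fun g : D.Γ =>
        (cT g * ξ (hatHom D.Γ g⁻¹ (y, 1)))⁻¹ ^ N * ∏ i, ((Q i).ev g (v i x))⁻¹ ^ N) := by
      intro x hx y hy
      have h1 := hN N le_rfl (fun j g => (Q j).ev g (v j x))
        (fun g => cT g * ξ (hatHom D.Γ g⁻¹ (y, 1)))
        (fun j => (hgrow' j (v j x) (hv2 j x hx)).mono
          ((Finset.single_le_sum (f := b') (fun _ _ => Nat.zero_le _)
            (Finset.mem_univ j)).trans (Nat.le_add_right _ _)))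
        (grow_top _ (e r) _ _ ((hgT y hy).mono (Nat.le_add_left _ _)))
      refine h1.congr fun g => ?_
      rw [mul_inv, mul_pow, ← Finset.prod_inv_distrib, Finset.prod_pow]
    refine vanish_of_goodPart D hpos fun K hKX hK hKc => ?_
    obtain ⟨C₀, hC₀, hfam⟩ := fam_AN D K hK hKX hKc k Q v hv1 hv2 hv3' ee he1 he2 he3 (F r) hV
      hVR cT hcT ξ hξV hξ hξR N hsum n hn hs1
    exact goodPart_of_family D K hKX (Option (Fin k)) N C₀ hC₀ hfam

end

end Pool.AF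
end

/- Helper16.LDA.H94.AS.Main -/
section
open Set Finset
open scoped Matrix

set_option linter.unusedSectionVars false

namespace Pool.AF

open Pool.SV

section

variable {E : Type*} [NormedAddCommGroup E] [NormedSpace ℝ E] [FiniteDimensional ℝ E]

/-- The data of a block: a representation preserving a sharp cone, an equivariant map of small
rank, and the comparison of the bounds. -/
def BlockData (D : Geo E) {d : ℕ} (σ : D.Γ →* ((Fin d → ℝ) →ₗ[ℝ] (Fin d → ℝ))) (n : ℕ) : Prop :=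
  ∃ (d' : ℕ) (σ' : D.Γ →* ((Fin d' → ℝ) →ₗ[ℝ] (Fin d' → ℝ))) (C : Set (Fin d' → ℝ))
    (v : E → (Fin d' → ℝ)), 0 < d' ∧ SharpCone σ' C ∧ ContDiffOn ℝ 2 v D.X ∧
    (∀ x ∈ D.X, v x ∈ C) ∧
    (∀ g : D.Γ, ∀ x ∈ D.X, ∃ s : ℝ, 0 < s ∧ v (g.1 x) = s • σ' g (v x)) ∧
    (∀ x ∈ D.X, Module.finrank ℝ (LinearMap.range
      ((Submodule.span ℝ {v x}).mkQ ∘ₗ (fderiv ℝ v x : E →ₗ[ℝ] (Fin d' → ℝ)))) ≤ n) ∧
    ∀ R : ℝ, ∃ R' : ℝ, ∀ g, ScalBdd σ' R g → ScalBdd σ R' g

theorem ne_zero_of_sharp {G : Type*} [Group G] {d : ℕ} (hd : 0 < d)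
    (σ : G →* ((Fin d → ℝ) →ₗ[ℝ] (Fin d → ℝ))) (C : Set (Fin d → ℝ)) (hC : SharpCone σ C)
    (v : Fin d → ℝ) (hv : v ∈ C) : v ≠ 0 := by
  intro h0
  obtain ⟨c, ρ, ξ, b, _, _, h1, _⟩ := blk_of_cone d hd σ C hC
  have h2 := h1 v hv
  rw [h0, map_zero] at h2
  exact lt_irrefl _ h2

theorem blockData_cone (D : Geo E)
    (hcc : ∃ K ⊆ D.X, IsCompact K ∧ ∀ x ∈ D.X, ∃ g ∈ D.Γ, g x ∈ K) {d : ℕ} (hd : 0 < d)
    (σ : D.Γ →* ((Fin d → ℝ) →ₗ[ℝ] (Fin d → ℝ))) (n : ℕ) (hn : n + 1 = d)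
    (C : Set (Fin d → ℝ)) (hC : SharpCone σ C) : BlockData D σ n := by
  obtain ⟨v, hv1, hv2, hv3⟩ := exists_equi D hcc σ C hC.convex hC.nonempty hC.inv
  refine ⟨d, σ, C, v, hd, hC, hv1, hv2, fun g x hx => ⟨1, one_pos, ?_⟩, fun x hx => ?_,
    fun R => ⟨R, fun g h => h⟩⟩
  · rw [one_smul]
    exact hv3 g x hx
  · refine (Submodule.finrank_le _).trans ?_
    have h1 := Submodule.finrank_quotient_add_finrank (Submodule.span ℝ {v x})
    rw [finrank_span_singleton (ne_zero_of_sharp hd σ C hC _ (hv2 x hx)),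
      Module.finrank_fin_fun] at h1
    omega

theorem finrank_range_comp_le {V₁ V₂ V₃ : Type*} [AddCommGroup V₁] [Module ℝ V₁]
    [AddCommGroup V₂] [Module ℝ V₂] [AddCommGroup V₃] [Module ℝ V₃] [FiniteDimensional ℝ V₁]
    [FiniteDimensional ℝ V₂] [FiniteDimensional ℝ V₃] (f : V₂ →ₗ[ℝ] V₃) (g : V₁ →ₗ[ℝ] V₂) :
    Module.finrank ℝ (LinearMap.range (f ∘ₗ g)) ≤ Module.finrank ℝ (LinearMap.range f) ∧
    Module.finrank ℝ (LinearMap.range (f ∘ₗ g)) ≤ Module.finrank ℝ (LinearMap.range g) := by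
  constructor
  · exact Submodule.finrank_mono (LinearMap.range_comp_le_range g f)
  · rw [LinearMap.range_comp]
    exact Submodule.finrank_map_le f _

theorem blockData_geod (D : Geo E)
    (hcc : ∃ K ⊆ D.X, IsCompact K ∧ ∀ x ∈ D.X, ∃ g ∈ D.Γ, g x ∈ K) {d : ℕ} (hd : 0 < d)
    (σ : D.Γ →* ((Fin d → ℝ) →ₗ[ℝ] (Fin d → ℝ)))
    (𝔭 : Submodule ℝ (Matrix (Fin d) (Fin d) ℝ)) (h𝔭 : GeodSpace 𝔭) (hσ : PreservesExp σ 𝔭) :
    BlockData D σ (Module.finrank ℝ 𝔭) := by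
  classical
  set m := Module.finrank ℝ (symS d) with hm
  set n := Module.finrank ℝ 𝔭 with hn
  let e : symS d ≃ₗ[ℝ] (Fin m → ℝ) := (Module.finBasis ℝ (symS d)).equivFun
  let b : (Fin n → ℝ) ≃ₗ[ℝ] 𝔭 := (Module.finBasis ℝ 𝔭).equivFun.symm
  set C : Set (Fin m → ℝ) :=
    {a : Fin m → ℝ | ((e.symm a : symS d) : Matrix (Fin d) (Fin d) ℝ).PosDef} with hC
  have hCs : SharpCone (conjRep e σ) C := sharp_posDef e σ
  have hCo : IsOpen C := hCs.isOpen
  -- the minimiser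
  have hmin : ∀ a : Fin m → ℝ, ∃ y : Fin n → ℝ,
      ((e.symm a : symS d) : Matrix (Fin d) (Fin d) ℝ).PosDef →
      IsArgmin 𝔭 ((e.symm a : symS d) : Matrix (Fin d) (Fin d) ℝ)
        ((b y : 𝔭) : Matrix (Fin d) (Fin d) ℝ) := by
    intro a
    by_cases ha : ((e.symm a : symS d) : Matrix (Fin d) (Fin d) ℝ).PosDef
    · obtain ⟨Y, hY⟩ := exists_argmin 𝔭 h𝔭 _ ha
      refine ⟨b.symm ⟨Y, hY.1⟩, fun _ => ?_⟩
      rw [LinearEquiv.apply_symm_apply]
      exact hY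
    · exact ⟨0, fun h => absurd h ha⟩
  choose p hp using hmin
  set q : (Fin m → ℝ) → (Fin m → ℝ) := fun a => e (toSym d (NormedSpace.exp
    ((b (p a) : 𝔭) : Matrix (Fin d) (Fin d) ℝ))) with hq
  have hbs : ∀ y, ((b y : 𝔭) : Matrix (Fin d) (Fin d) ℝ)ᵀ = ((b y : 𝔭) : Matrix _ _ ℝ) :=
    fun y => h𝔭.symm _ (b y).2
  have hexp : ∀ a, ((e.symm (q a) : symS d) : Matrix (Fin d) (Fin d) ℝ) =
      NormedSpace.exp ((b (p a) : 𝔭) : Matrix (Fin d) (Fin d) ℝ) := by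
    intro a
    change ((e.symm (e _) : symS d) : Matrix (Fin d) (Fin d) ℝ) = _
    rw [LinearEquiv.symm_apply_apply, toSym_coe]
    rw [← Matrix.exp_transpose, hbs]
  have hqC : ∀ a ∈ C, q a ∈ C := by
    intro a _
    change ((e.symm (q a) : symS d) : Matrix (Fin d) (Fin d) ℝ).PosDef
    rw [hexp]
    exact exp_posDef _ (hbs _)
  have hqs : ∀ a ∈ C, ContDiffAt ℝ 2 q a ∧ Module.finrank ℝ (LinearMap.range
      ((fderiv ℝ q a : (Fin m → ℝ) →L[ℝ] (Fin m → ℝ)) : (Fin m → ℝ) →ₗ[ℝ] (Fin m → ℝ))) ≤ n :=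
    fun a ha => proj_smooth 𝔭 h𝔭 e b p hp a ha
  have hqe : ∀ g : D.Γ, ∀ a ∈ C, ∃ s : ℝ, 0 < s ∧ q (conjRep e σ g a) =
      s • conjRep e σ g (q a) := by
    intro g a ha
    obtain ⟨t, ht, hM⟩ := hσ g
    obtain ⟨s, hs, hN⟩ := hσ g⁻¹
    have hMN : LinearMap.toMatrix' (σ g) * LinearMap.toMatrix' (σ g⁻¹) = 1 := by
      rw [← LinearMap.toMatrix'_mul, ← map_mul, mul_inv_cancel, map_one,
        LinearMap.toMatrix'_one]
    have hst := mapsExp_inv hd 𝔭 h𝔭 _ _ hMN t s ht hs hM hN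
    rw [hst] at hN
    have hga : conjRep e σ g a ∈ C := hCs.inv g a ha
    have hY' := hp _ hga
    rw [conjRep_apply] at hY'
    have h1 := argmin_conj 𝔭 h𝔭 _ _ hMN t ht hM hN _ _ _ (hp a ha) hY'
    refine ⟨t⁻¹, inv_pos.mpr ht, ?_⟩
    apply e.symm.injective
    apply Subtype.ext
    rw [map_smul, SetLike.val_smul, conjRep_apply, hexp, hexp, h1, smul_smul,
      inv_mul_cancel₀ ht.ne', one_smul]
  obtain ⟨v, hv1, hv2, hv3⟩ := exists_equi D hcc (conjRep e σ) C hCs.convex hCs.nonempty hCs.inv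
  have hm0 : 0 < m := by
    have h1 : (1 : Matrix (Fin d) (Fin d) ℝ) ∈ symS d := by
      rw [mem_symS, Matrix.transpose_one]
    have h2 : Nontrivial (symS d) := by
      refine ⟨⟨⟨1, h1⟩, 0, fun h => ?_⟩⟩
      have h3 : (1 : Matrix (Fin d) (Fin d) ℝ) = 0 := congrArg Subtype.val h
      have h4 := congrFun (congrFun h3 ⟨0, hd⟩) ⟨0, hd⟩
      simp at h4
    exact Module.finrank_pos
  refine ⟨m, conjRep e σ, C, fun x => q (v x), hm0, hCs, ?_, fun x hx => hqC _ (hv2 x hx), ?_, ?_,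
    fun R => scalBdd_conjRep e σ R⟩
  · intro x hx
    have h1 : ContDiffAt ℝ 2 v x := hv1.contDiffAt (D.isOpen.mem_nhds hx)
    exact ((hqs (v x) (hv2 x hx)).1.comp x h1).contDiffWithinAt
  · intro g x hx
    obtain ⟨s, hs, hs2⟩ := hqe g (v x) (hv2 x hx)
    refine ⟨s, hs, ?_⟩
    change q (v (g.1 x)) = s • conjRep e σ g (q (v x))
    rw [hv3 g x hx, hs2]
  · intro x hx
    have h1 : ContDiffAt ℝ 2 v x := hv1.contDiffAt (D.isOpen.mem_nhds hx)
    have h2 := hqs (v x) (hv2 x hx)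
    have h3 : fderiv ℝ (fun x => q (v x)) x = (fderiv ℝ q (v x)).comp (fderiv ℝ v x) :=
      fderiv_comp x (h2.1.differentiableAt (by norm_num)) (h1.differentiableAt (by norm_num))
    have h4 : (((fderiv ℝ q (v x)).comp (fderiv ℝ v x) : E →L[ℝ] (Fin m → ℝ)) :
        E →ₗ[ℝ] (Fin m → ℝ)) = (fderiv ℝ q (v x) : (Fin m → ℝ) →ₗ[ℝ] (Fin m → ℝ)) ∘ₗ
        (fderiv ℝ v x : E →ₗ[ℝ] (Fin m → ℝ)) := rfl
    rw [h3, h4]
    refine (finrank_range_comp_le _ _).2.trans ?_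
    exact (finrank_range_comp_le _ _).1.trans h2.2

theorem vanish_of_dominated (D : Geo E) (hpos : 0 < Module.finrank ℝ E)
    (hcc : ∃ K ⊆ D.X, IsCompact K ∧ ∀ x ∈ D.X, ∃ g ∈ D.Γ, g x ∈ K)
    (hdom : Dominated D.Γ D.X) : Vanish D := by
  classical
  obtain ⟨r, F, k, d, n, σ, h0, hr, hF, hS, hs1, hs2, hdomi⟩ := hdom
  have hdata : ∀ j, BlockData D (σ j) (n j) := by
    intro j
    obtain ⟨hd, ⟨hnd, C, hC⟩ | ⟨𝔭, h𝔭, hσ, hn⟩⟩ := hS j
    · exact blockData_cone D hcc hd (σ j) (n j) hnd C hC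
    · rw [← hn]
      exact blockData_geod D hcc hd (σ j) 𝔭 h𝔭 hσ
  choose d' σ' C v hd' hC' hv1 hv2 hv3 hrk hbd using hdata
  refine vanish_of_rank D hpos hcc r F k d' σ' C h0 hr hF (fun j => ⟨hd' j, hC' j⟩) n v hv1 hv2
    hv3 hrk hs1 hs2 ?_
  intro R
  choose R' hR' using fun j => hbd j R
  obtain ⟨R₂, hR₂⟩ := hdomi (|R| + ∑ j, |R' j|)
  refine ⟨R₂, fun g hg hA => hR₂ g (fun j => ?_) ?_⟩
  · refine (hR' j g (hg j)).mono ?_
    have h1 : |R' j| ≤ ∑ j, |R' j| :=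
      Finset.single_le_sum (f := fun j => |R' j|) (fun _ _ => abs_nonneg _) (Finset.mem_univ j)
    have h2 := le_abs_self (R' j)
    have h3 := abs_nonneg R
    (clear * - h1 h2 h3; linarith)
  · refine hA.mono ?_
    have h1 : 0 ≤ ∑ j, |R' j| := Finset.sum_nonneg fun _ _ => abs_nonneg _
    have h2 := le_abs_self R
    linarith

/-- The statement with a subgroup of finite index. -/
theorem vanish_of_virtual_dominated (D : Geo E) (hpos : 0 < Module.finrank ℝ E)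
    (hcc : ∃ K ⊆ D.X, IsCompact K ∧ ∀ x ∈ D.X, ∃ g ∈ D.Γ, g x ∈ K)
    (Γ₁ : Subgroup (E ≃ᵃ[ℝ] E)) (hΓ₁ : Γ₁ ≤ D.Γ) (hfin : Γ₁.relIndex D.Γ ≠ 0)
    (hdom : Dominated Γ₁ D.X) : Vanish D := by
  have heq : (geoSub D (Γ₁.subgroupOf D.Γ)).Γ = Γ₁ := by
    change (Γ₁.subgroupOf D.Γ).map D.Γ.subtype = Γ₁
    rw [Subgroup.map_subgroupOf_eq_of_le hΓ₁]
  have hfi : (Γ₁.subgroupOf D.Γ).FiniteIndex := ⟨hfin⟩
  have hV : Vanish (geoSub D (Γ₁.subgroupOf D.Γ)) := by
    refine vanish_of_dominated _ hpos (cocompact_geoSub D _ hcc) ?_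
    rw [heq]
    exact hdom
  refine vanish_transfer D (geoSub D (Γ₁.subgroupOf D.Γ)) (Subgroup.map_subtype_le _) ?_
    subset_rfl hV
  rw [relIndex_geoSub]
  exact hfin

end

end Pool.AF
end

/- Helper16.LDA.H94.AF.Res -/
section
set_option autoImplicit false

open Set

namespace Pool.AF

open Pool.SV

/-- The domain with its group. -/
def geoOf {n : ℕ} {Γ : Subgroup (Aff (n + 1))} {X : Set (EuclideanSpace ℝ (Fin (n + 1)))}
    (hX : Divides Γ X) : Geo (EuclideanSpace ℝ (Fin (n + 1))) where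
  Γ := Γ
  X := X
  isOpen := hX.isOpen
  convex := hX.convex
  nonempty := hX.nonempty
  inv := hX.inv
  free := hX.free
  pd := fun K hK hc => hX.pd K hK hc

/-- From the vanishing of the bounded classes to the seminorm of cycles. -/
theorem zeroSeminorm_of_vanish (n : ℕ) {Γ : Subgroup (Aff (n + 1))}
    {X : Set (EuclideanSpace ℝ (Fin (n + 1)))} (hX : Divides Γ X) (hV : Vanish (geoOf hX))
    (M : Type*) [TopologicalSpace M] (π : X → M) (hπ : IsOrbitSpace Γ X M π) :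
    ZeroSeminorm M n := by
  have hrank : Module.finrank ℝ (EuclideanSpace ℝ (Fin (n + 1))) = n + 1 := by
    simp
  intro z hz ε hε
  refine of_vanish (geoOf hX) hV M π hπ.quot ?_ n hrank z hz ε hε
  intro x y
  rw [hπ.fib]
  constructor
  · rintro ⟨g, hg, h⟩
    exact ⟨⟨g, hg⟩, Subtype.ext h⟩
  · rintro ⟨g, h⟩
    exact ⟨g.1, g.2, congrArg Subtype.val h⟩

theorem resAF (n : ℕ) (Γ : Subgroup (Aff (n + 1))) (X : Set (EuclideanSpace ℝ (Fin (n + 1))))
    (hX : Divides Γ X) (hflag : VirtuallyConeFlag Γ X) (M : Type*)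
    [TopologicalSpace M] (π : X → M) (hπ : IsOrbitSpace Γ X M π) : ZeroSeminorm M n := by
  obtain ⟨Γ₁, hle, hfin, hF⟩ := hflag
  have hrank : Module.finrank ℝ (EuclideanSpace ℝ (Fin (n + 1))) = n + 1 := by
    simp
  exact zeroSeminorm_of_vanish n hX (vanish_of_virtual_coneFlag (geoOf hX)
    (by rw [hrank]; omega) hX.cocompact Γ₁ hle hfin hF) M π hπ

end Pool.AF
end

/- Helper16.LDA.H94.AS.Res -/
section
set_option autoImplicit false

open Set

namespace Pool.AF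

open Pool.SV

theorem resAS (n : ℕ) (Γ : Subgroup (Aff (n + 1))) (X : Set (EuclideanSpace ℝ (Fin (n + 1))))
    (hX : Divides Γ X) (hdom : VirtuallyDominated Γ X) (M : Type*)
    [TopologicalSpace M] (π : X → M) (hπ : IsOrbitSpace Γ X M π) : ZeroSeminorm M n := by
  obtain ⟨Γ₁, hle, hfin, hF⟩ := hdom
  have hrank : Module.finrank ℝ (EuclideanSpace ℝ (Fin (n + 1))) = n + 1 := by
    simp
  exact zeroSeminorm_of_vanish n hX (vanish_of_virtual_dominated (geoOf hX)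
    (by rw [hrank]; omega) hX.cocompact Γ₁ hle hfin hF) M π hπ

end Pool.AF
end

/- Helper16.LDA.H47.HP.Fin -/
section
/-! # Project HP: assembly -/

set_option autoImplicit false

open Set Finset
open scoped Matrix

namespace Pool.Agent.Helper47.HP

open Pool.AF Pool.SV

private theorem fin_quotBdd_mono {E : Type*} [NormedAddCommGroup E] [NormedSpace ℝ E]
    {A B : Submodule ℝ E} {R R' : ℝ} (hR : R ≤ R') {g : E ≃ᵃ[ℝ] E} (h : QuotBdd A B R g) :
    QuotBdd A B R' g := by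
  obtain ⟨t, ht, h⟩ := h
  refine ⟨t, ht, fun v hv => ?_⟩
  obtain ⟨a, ha, a', ha', h1, h2⟩ := h v hv
  exact ⟨a, ha, a', ha', h1.trans (mul_le_mul_of_nonneg_right hR (norm_nonneg _)),
    h2.trans (mul_le_mul_of_nonneg_right hR (norm_nonneg _))⟩

theorem dominated_of_potential {E : Type*} [NormedAddCommGroup E] [NormedSpace ℝ E]
    [FiniteDimensional ℝ E] (Γ : Subgroup (E ≃ᵃ[ℝ] E)) (X : Set E) (hX : IsOpen X)
    (hXc : Convex ℝ X) (hne : X.Nonempty) (hinv : ∀ g ∈ Γ, ∀ x ∈ X, g x ∈ X)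
    (h : PotentialDominated Γ X) : Dominated Γ X := by
  obtain ⟨φ, V, r, F, k, d, n, σ, hφ, hq, hV, hF0, hFr, hFi, hσ, hsum, hsum', hb⟩ := h
  let P : Pot E := ⟨X, hX, hXc, V, hV, φ, hφ⟩
  have hW : P.IsFlat (F r) := fun v => hFr v
  have hWV : F r ≤ V := fun v hv => ((hFr v).1 hv).1
  have hinvs : ∀ g ∈ Γ, ∀ x ∈ X, g⁻¹ x ∈ X := fun g hg => hinv _ (Γ.inv_mem hg)
  have hflat : ∀ g ∈ Γ, (∀ v ∈ V, g.linear v ∈ V) ∧ ∀ v ∈ F r, g.linear v ∈ F r := by
    intro g hg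
    obtain ⟨a, ha⟩ := hq g hg
    exact P.flat_inv (F r) hW g (hinv g hg) (hinvs g hg) a ha hne
  obtain ⟨dQ, σQ, C, hd0, hdim, hC1, hC2, hC3, hC4, hC5, hC6, hbody⟩ :=
    P.exists_core Γ hne hinv hq (F r) hW
  obtain ⟨s, Fl, hFl0, hFls, hFl⟩ := exists_flag (G := Γ)
    (fun g => (g.1.linear : E →ₗ[ℝ] E)) (F r) V hWV (fun g => (hflat g.1 g.2).2)
    (fun g => (hflat g.1 g.2).1)
  -- the flag
  set F' : ℕ → Submodule ℝ E := fun i => if i ≤ r then F i else Fl (i - r) with hF'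
  have hF'1 : ∀ i, i ≤ r → F' i = F i := fun i hi => by simp only [hF', if_pos hi]
  have hF'2 : ∀ j, F' (r + j) = Fl j := by
    intro j
    rcases Nat.eq_zero_or_pos j with rfl | hj
    · rw [Nat.add_zero, hF'1 r le_rfl, hFl0]
    · simp only [hF']
      rw [if_neg (by omega), Nat.add_sub_cancel_left]
  have hF'V : F' (r + s) = V := by rw [hF'2, hFls]
  -- the bound property
  let B : ℝ → Γ → Prop := fun R g => SBdd σQ R g ∧ ABdd V R g.1
  have hB : ∀ δ : Γ, ∀ R, ∃ R', ∀ g, B R g → B R' (g * δ) := by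
    intro δ R
    obtain ⟨R₁, h₁⟩ := sbdd_mul σQ δ R
    obtain ⟨R₂, h₂⟩ := abdd_mul V δ.1 (hflat _ (Γ.inv_mem δ.2)).1 R
    exact ⟨max R₁ R₂, fun g hg => ⟨sbdd_mono (le_max_left _ _) (h₁ g hg.1),
      abdd_mono (le_max_right _ _) (h₂ g.1 hg.2)⟩⟩
  have hBi : ∀ R g, B R g → B R g⁻¹ := fun R g hg => ⟨sbdd_inv hg.1, abdd_inv hg.2⟩
  have hK : ∀ R, ∃ C : ℝ, 0 ≤ C ∧ ∀ g : Γ, B R g → ∃ K, IsBody V (F r) K ∧
      ∀ v ∈ K, ∃ u ∈ K, g.1.linear v = C • u := by
    intro R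
    obtain ⟨C', hC'0, hC'⟩ := hbody R
    exact ⟨C', hC'0, fun g hg => hC' g hg.1 hg.2⟩
  have hquot : ∀ R : ℝ, ∀ j < s, ∃ R' : ℝ, ∀ g : Γ, B R g →
      QuotBdd (Fl j) (Fl (j + 1)) R' g.1 := by
    intro R j hj
    obtain ⟨h1, h2, h3, h4, h5, h6⟩ := hFl j hj
    obtain ⟨R', hR'⟩ := quot_bdd Γ V (F r) (Fl j) (Fl (j + 1)) h4 h1 h5 h2 h3 h6 B hB hBi hK R
    refine ⟨R', fun g hg => ⟨1, one_pos, fun v hv => ?_⟩⟩
    obtain ⟨a, ha, a', ha', h7, h8⟩ := hR' g hg v hv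
    exact ⟨a, ha, a', ha', by rwa [one_smul], by rwa [inv_one, one_smul]⟩
  have hquot' : ∀ R : ℝ, ∃ R' : ℝ, ∀ g : Γ, B R g → ∀ j < s,
      QuotBdd (Fl j) (Fl (j + 1)) R' g.1 := by
    intro R
    have h1 : ∀ j, ∃ R' : ℝ, ∀ g : Γ, B R g → j < s → QuotBdd (Fl j) (Fl (j + 1)) R' g.1 := by
      intro j
      by_cases hj : j < s
      · obtain ⟨R', hR'⟩ := hquot R j hj
        exact ⟨R', fun g hg _ => hR' g hg⟩
      · exact ⟨0, fun g _ h => absurd h hj⟩
    choose f hf using h1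
    refine ⟨∑ j ∈ Finset.range s, |f j|, fun g hg j hj => fin_quotBdd_mono ?_ (hf j g hg hj)⟩
    exact (le_abs_self _).trans (Finset.single_le_sum (f := fun j => |f j|)
      (fun i _ => abs_nonneg _) (Finset.mem_range.2 hj))
  -- the representations
  let d' : Fin (k + 1) → ℕ := Fin.cons dQ d
  let n' : Fin (k + 1) → ℕ := Fin.cons (dQ - 1) n
  let σ' : ∀ j, Γ →* ((Fin (d' j) → ℝ) →ₗ[ℝ] (Fin (d' j) → ℝ)) :=
    Fin.cases (motive := fun j => Γ →* ((Fin (d' j) → ℝ) →ₗ[ℝ] (Fin (d' j) → ℝ))) σQ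
      (fun j => σ j)
  have hsumd : ∑ j, n' j = (dQ - 1) + ∑ j, n j := by
    rw [Fin.sum_univ_succ]
    rfl
  have hdimF : (dQ - 1) + Module.finrank ℝ (F r) ≤ Module.finrank ℝ V := by
    have h1 : dQ + Module.finrank ℝ (F r) ≤ Module.finrank ℝ V + 1 := hdim
    omega
  refine ⟨r + s, F', k + 1, d', n', σ', ?_, ?_, ?_, ?_, ?_, ?_, ?_⟩
  · rw [hF'1 0 (Nat.zero_le _), hF0]
  · intro v
    rw [hF'V]
    exact hV v
  · intro i hi
    by_cases hir : i < r
    · rw [hF'1 i hir.le, hF'1 (i + 1) hir]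
      exact hFi i hir
    · obtain ⟨j, rfl⟩ := Nat.exists_eq_add_of_le (not_lt.1 hir)
      rw [Nat.add_assoc, hF'2, hF'2]
      obtain ⟨h1, h2, h3, h4, h5, h6⟩ := hFl j (by omega)
      exact ⟨h1, fun g hg v hv => h3 ⟨g, hg⟩ v hv⟩
  · intro j
    refine Fin.cases ?_ (fun j => ?_) j
    · exact ⟨hd0, Or.inl ⟨Nat.sub_add_cancel hd0, C, ⟨hC1, hC2, hC3, hC4, hC5, hC6⟩⟩⟩
    · exact hσ j
  · rw [hsumd, hF'V]
    omega
  · intro hXu
    have h1 := hsum' hXu
    rw [hsumd, hF'V]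
    omega
  · intro R
    obtain ⟨R₁, h₁⟩ := hb R
    obtain ⟨R₂, h₂⟩ := hquot' R
    refine ⟨max R₁ R₂, fun g hg hg' i hi => ?_⟩
    rw [hF'V] at hg'
    by_cases hir : i < r
    · rw [hF'1 i hir.le, hF'1 (i + 1) hir]
      exact fin_quotBdd_mono (le_max_left _ _) (h₁ g (fun j => hg j.succ) hg' i hir)
    · obtain ⟨j, rfl⟩ := Nat.exists_eq_add_of_le (not_lt.1 hir)
      rw [Nat.add_assoc, hF'2, hF'2]
      exact fin_quotBdd_mono (le_max_right _ _) (h₂ g ⟨hg 0, hg'⟩ j (by omega))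

theorem resHP (n : ℕ) (Γ : Subgroup (Aff (n + 1))) (X : Set (EuclideanSpace ℝ (Fin (n + 1))))
    (hX : Divides Γ X) (hdom : VirtuallyPotentialDominated Γ X) (M : Type*)
    [TopologicalSpace M] (π : X → M) (hπ : IsOrbitSpace Γ X M π) : ZeroSeminorm M n := by
  obtain ⟨Γ₁, hle, hfin, hF⟩ := hdom
  exact resAS n Γ X hX ⟨Γ₁, hle, hfin, dominated_of_potential Γ₁ X hX.isOpen hX.convex hX.nonempty
    (fun g hg => hX.inv g (hle hg)) hF⟩ M π hπ

end Pool.Agent.Helper47.HP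
end
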